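import Mathlib

/-! Barnes / Beta integral `∫ Γ(a+iu) Γ(b-iu) du = 2 π (a+b-1)! / 2^(a+b)` for positive integers `a, b`. -/

open MeasureTheory Set Real
open scoped FourierTransform

namespace Pool.Agent.D23

theorem sigmoid_eq_exp_mul (s : ℝ) : Real.sigmoid s = Real.exp s * Real.sigmoid (-s) := by
  have h := Real.sigmoid_mul_rexp_neg s
  rw [← h, mul_comm, mul_assoc, ← Real.exp_add]
  simp

theorem beta_line (z v : ℂ) :
    Complex.betaIntegral z v =
      ∫ s : ℝ, ((Real.sigmoid s : ℝ) : ℂ) ^ z * ((Real.sigmoid (-s) : ℝ) : ℂ) ^ v := by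
  unfold Complex.betaIntegral
  rw [intervalIntegral.integral_of_le zero_le_one, integral_Ioc_eq_integral_Ioo,
    ← Real.range_sigmoid, ← image_univ,
    integral_image_eq_integral_abs_deriv_smul MeasurableSet.univ
      (fun x _ => (Real.hasDerivAt_sigmoid x).hasDerivWithinAt)
      Real.sigmoid_injective.injOn, setIntegral_univ]
  congr 1
  ext s
  have h0 := Real.sigmoid_pos s
  have h1 := Real.sigmoid_lt_one s
  have hneg : Real.sigmoid (-s) = 1 - Real.sigmoid s := Real.sigmoid_neg s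
  have hpos : 0 < 1 - Real.sigmoid s := by linarith
  rw [hneg, abs_of_pos (mul_pos h0 hpos), Complex.real_smul]
  have hc0 : ((Real.sigmoid s : ℝ) : ℂ) ≠ 0 := by exact_mod_cast h0.ne'
  have hc1 : ((1 - Real.sigmoid s : ℝ) : ℂ) ≠ 0 := by exact_mod_cast hpos.ne'
  have e1 : ((Real.sigmoid s : ℝ) : ℂ) ^ z =
      ((Real.sigmoid s : ℝ) : ℂ) * ((Real.sigmoid s : ℝ) : ℂ) ^ (z - 1) := by
    rw [Complex.cpow_sub _ _ hc0, Complex.cpow_one]; field_simp
  have e2 : ((1 - Real.sigmoid s : ℝ) : ℂ) ^ v =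
      ((1 - Real.sigmoid s : ℝ) : ℂ) * ((1 - Real.sigmoid s : ℝ) : ℂ) ^ (v - 1) := by
    rw [Complex.cpow_sub _ _ hc1, Complex.cpow_one]; field_simp
  rw [e1, e2]
  push_cast
  ring

/-- the real function whose Fourier transform is the product of Gamma values -/
noncomputable def fb (a N : ℕ) (s : ℝ) : ℂ := ((Real.exp (a * s) * Real.sigmoid (-s) ^ N : ℝ) : ℂ)

theorem continuous_fb (a N : ℕ) : Continuous (fb a N) := by
  unfold fb
  exact Complex.continuous_ofReal.comp ((Real.continuous_exp.comp (continuous_const.mul continuous_id)).mul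
    ((continuous_sigmoid.comp continuous_neg).pow N))

theorem integrable_exp_neg_abs : Integrable (fun y : ℝ => Real.exp (-|y|)) := by
  have h1 : IntegrableOn (fun y : ℝ => Real.exp (-|y|)) (Ioi 0) := by
    refine (integrableOn_exp_neg_Ioi 0).congr_fun (fun y hy => ?_) measurableSet_Ioi
    simp only [abs_of_pos (mem_Ioi.mp hy)]
  have h2 : IntegrableOn (fun y : ℝ => Real.exp (-|y|)) (Iic 0) := by
    refine (integrableOn_exp_Iic 0).congr_fun (fun y hy => ?_) measurableSet_Iic
    simp only [abs_of_nonpos (mem_Iic.mp hy), neg_neg]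
  have := h2.union h1
  rwa [Iic_union_Ioi, integrableOn_univ] at this

theorem fb_norm_le (a b : ℕ) (ha : 1 ≤ a) (hb : 1 ≤ b) (s : ℝ) :
    ‖fb a (a + b) s‖ ≤ Real.exp (-|s|) := by
  have hs := Real.sigmoid_pos (-s)
  unfold fb
  rw [Complex.norm_real, Real.norm_eq_abs, abs_of_pos (mul_pos (Real.exp_pos _) (pow_pos hs _))]
  have ha' : (1 : ℝ) ≤ a := by exact_mod_cast ha
  have hb' : (1 : ℝ) ≤ b := by exact_mod_cast hb
  rcases le_total s 0 with h | h
  · rw [abs_of_nonpos h, neg_neg]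
    have h1 : Real.sigmoid (-s) ^ (a + b) ≤ 1 := pow_le_one₀ hs.le (Real.sigmoid_le_one _)
    calc Real.exp (a * s) * Real.sigmoid (-s) ^ (a + b) ≤ Real.exp (a * s) * 1 := by gcongr
      _ ≤ Real.exp s := by
        rw [mul_one]
        exact Real.exp_le_exp.mpr (by nlinarith)
  · rw [abs_of_nonneg h]
    have h1 : Real.sigmoid (-s) ≤ Real.exp (-s) := by
      have := sigmoid_eq_exp_mul (-s)
      rw [neg_neg] at this
      rw [this]
      calc Real.exp (-s) * Real.sigmoid s ≤ Real.exp (-s) * 1 := by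
            gcongr
            exact Real.sigmoid_le_one s
        _ = _ := mul_one _
    calc Real.exp (a * s) * Real.sigmoid (-s) ^ (a + b)
        ≤ Real.exp (a * s) * Real.exp (-s) ^ (a + b) := by gcongr
      _ = Real.exp (-(b * s)) := by
        rw [← Real.exp_nat_mul, ← Real.exp_add]
        congr 1
        push_cast
        ring
      _ ≤ Real.exp (-s) := Real.exp_le_exp.mpr (by nlinarith)

theorem integrable_fb (a b : ℕ) (ha : 1 ≤ a) (hb : 1 ≤ b) : Integrable (fb a (a + b)) :=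
  integrable_exp_neg_abs.mono' (continuous_fb a (a + b)).aestronglyMeasurable
    (Filter.Eventually.of_forall fun s => fb_norm_le a b ha hb s)

theorem fourier_fb (a b : ℕ) (ha : 1 ≤ a) (hb : 1 ≤ b) (w : ℝ) :
    𝓕 (fb a (a + b)) w =
      Complex.Gamma (a - 2 * π * w * Complex.I) * Complex.Gamma (b + 2 * π * w * Complex.I) /
        Complex.Gamma ((a + b : ℕ) : ℂ) := by
  have ha' : (1 : ℝ) ≤ a := by exact_mod_cast ha
  have hb' : (1 : ℝ) ≤ b := by exact_mod_cast hb
  have hsum : ((a : ℂ) - 2 * π * w * Complex.I) + ((b : ℂ) + 2 * π * w * Complex.I) =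
      ((a + b : ℕ) : ℂ) := by push_cast; ring
  rw [← hsum, ← Complex.betaIntegral_eq_Gamma_mul_div _ _ (by simp; linarith) (by simp; linarith),
    beta_line, Real.fourier_real_eq_integral_exp_smul]
  congr 1
  ext s
  have h0 := Real.sigmoid_pos (-s)
  have hc0 : ((Real.sigmoid (-s) : ℝ) : ℂ) ≠ 0 := by exact_mod_cast h0.ne'
  have he : ((Real.exp s : ℝ) : ℂ) ^ ((a : ℂ) - 2 * π * w * Complex.I) =
      Complex.exp ((a : ℂ) * s) * Complex.exp (((-2 * π * s * w : ℝ) : ℂ) * Complex.I) := by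
    rw [← Complex.exp_add, Complex.cpow_def_of_ne_zero
      (by exact_mod_cast (Real.exp_pos s).ne'), ← Complex.ofReal_log (Real.exp_pos s).le, Real.log_exp]
    congr 1
    push_cast
    ring
  have hsig : ((Real.sigmoid s : ℝ) : ℂ) ^ ((a : ℂ) - 2 * π * w * Complex.I) =
      ((Real.exp s : ℝ) : ℂ) ^ ((a : ℂ) - 2 * π * w * Complex.I) *
        ((Real.sigmoid (-s) : ℝ) : ℂ) ^ ((a : ℂ) - 2 * π * w * Complex.I) := by
    rw [sigmoid_eq_exp_mul s, Complex.ofReal_mul,
      Complex.mul_cpow_ofReal_nonneg (Real.exp_pos s).le h0.le]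
  rw [hsig, mul_assoc (((Real.exp s : ℝ) : ℂ) ^ ((a : ℂ) - 2 * π * w * Complex.I)),
    ← Complex.cpow_add _ _ hc0, hsum, Complex.cpow_natCast, he, smul_eq_mul]
  unfold fb
  push_cast
  ring

/-- `Γ(1+iu) Γ(1-iu) = π u / sinh (π u)` -/
theorem gamma_one_pair (u : ℝ) (hu : u ≠ 0) :
    Complex.Gamma (1 + u * Complex.I) * Complex.Gamma (1 - u * Complex.I) =
      ((π * u / Real.sinh (π * u) : ℝ) : ℂ) := by
  have hI : (u : ℂ) * Complex.I ≠ 0 := mul_ne_zero (by exact_mod_cast hu) Complex.I_ne_zero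
  rw [add_comm (1 : ℂ), Complex.Gamma_add_one _ hI, mul_assoc, Complex.Gamma_mul_Gamma_one_sub]
  have hs : Complex.sin (π * (u * Complex.I)) = Complex.sinh (π * u) * Complex.I := by
    rw [← mul_assoc, Complex.sin_mul_I]
  have hsh : Complex.sinh (π * u) ≠ 0 := by
    have : ((Real.sinh (π * u) : ℝ) : ℂ) ≠ 0 := by
      have h1 : Real.sinh (π * u) ≠ 0 := by
        rw [Ne, Real.sinh_eq_zero]
        exact mul_ne_zero Real.pi_ne_zero hu
      exact_mod_cast h1
    simpa using this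
  rw [hs]
  push_cast
  field_simp

theorem gamma_shift (z : ℂ) (k : ℕ) (hz : 0 < z.re) :
    Complex.Gamma (z + k) = (∏ l ∈ Finset.range k, (z + l)) * Complex.Gamma z := by
  induction k with
  | zero => simp
  | succ k ih =>
    have hne : z + k ≠ 0 := by
      intro h
      have := congrArg Complex.re h
      simp at this
      have hk : (0 : ℝ) ≤ k := Nat.cast_nonneg k
      linarith
    rw [Nat.cast_succ, ← add_assoc, Complex.Gamma_add_one _ hne, ih, Finset.prod_range_succ]
    ring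

theorem div_sinh_le (x : ℝ) (hx : 0 < x) : x / Real.sinh x ≤ (1 + 2 * x) * Real.exp (-x) := by
  have hs : 0 < Real.sinh x := Real.sinh_pos_iff.mpr hx
  rw [div_le_iff₀ hs, Real.sinh_eq]
  have h1 : Real.exp (-x) * Real.exp x = 1 := by rw [← Real.exp_add]; simp
  have h2 : 1 + 2 * x ≤ Real.exp (2 * x) := by
    have := Real.add_one_le_exp (2 * x)
    linarith
  have h3 : Real.exp (-x) * Real.exp (-x) * Real.exp (2 * x) = 1 := by
    rw [← Real.exp_add, ← Real.exp_add]; simp; ring_nf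
  have h4 : 0 < Real.exp (-x) * Real.exp (-x) := by positivity
  have h5 : (1 + 2 * x) * (Real.exp (-x) * Real.exp (-x)) ≤ 1 := by
    calc (1 + 2 * x) * (Real.exp (-x) * Real.exp (-x))
        ≤ Real.exp (2 * x) * (Real.exp (-x) * Real.exp (-x)) := by gcongr
      _ = 1 := by linarith [h3, mul_comm (Real.exp (2 * x)) (Real.exp (-x) * Real.exp (-x))]
  have h6 : (1 + 2 * x) * Real.exp (-x) * ((Real.exp x - Real.exp (-x)) / 2) =
      ((1 + 2 * x) * (Real.exp (-x) * Real.exp x) -
        (1 + 2 * x) * (Real.exp (-x) * Real.exp (-x))) / 2 := by ring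
  rw [h6, h1]
  linarith

theorem norm_gamma_one_pair_le (u : ℝ) :
    ‖Complex.Gamma (1 + u * Complex.I) * Complex.Gamma (1 - u * Complex.I)‖ ≤
      (1 + 2 * (π * |u|)) * Real.exp (-(π * |u|)) := by
  rcases eq_or_ne u 0 with rfl | hu
  · simp
  · rw [gamma_one_pair u hu, Complex.norm_real, Real.norm_eq_abs]
    have h1 : |π * u / Real.sinh (π * u)| = (π * |u|) / Real.sinh (π * |u|) := by
      rw [abs_div, abs_mul, abs_of_pos Real.pi_pos]
      congr 1
      rcases lt_or_gt_of_ne hu with h | h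
      · rw [abs_of_neg h, mul_neg, Real.sinh_neg, abs_of_neg]
        rw [Real.sinh_neg_iff]
        exact mul_neg_of_pos_of_neg Real.pi_pos h
      · rw [abs_of_pos h, abs_of_pos]
        rw [Real.sinh_pos_iff]
        positivity
    rw [h1]
    exact div_sinh_le _ (mul_pos Real.pi_pos (abs_pos.mpr hu))

theorem gamma_pair (a b : ℕ) (u : ℝ) :
    Complex.Gamma ((a + 1 : ℕ) + u * Complex.I) * Complex.Gamma ((b + 1 : ℕ) - u * Complex.I) =
      (∏ l ∈ Finset.range a, (1 + u * Complex.I + l)) *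
        (∏ l ∈ Finset.range b, (1 - u * Complex.I + l)) *
        (Complex.Gamma (1 + u * Complex.I) * Complex.Gamma (1 - u * Complex.I)) := by
  have h1 := gamma_shift (1 + u * Complex.I) a (by simp)
  have h2 := gamma_shift (1 - u * Complex.I) b (by simp)
  have e1 : ((a + 1 : ℕ) : ℂ) + u * Complex.I = 1 + u * Complex.I + a := by push_cast; ring
  have e2 : ((b + 1 : ℕ) : ℂ) - u * Complex.I = 1 - u * Complex.I + b := by push_cast; ring
  rw [e1, e2, h1, h2]
  ring

theorem pow_le_fact_exp (d : ℕ) (x : ℝ) (hx : 0 ≤ x) : x ^ d ≤ (d.factorial : ℝ) * Real.exp x := by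
  have h := Real.pow_div_factorial_le_exp x hx d
  have hd : (0 : ℝ) < d.factorial := by exact_mod_cast d.factorial_pos
  rw [div_le_iff₀ hd] at h
  linarith [mul_comm (Real.exp x) (d.factorial : ℝ)]

/-- polynomially growing continuous functions are integrable against `Γ(1+iu)Γ(1-iu)` -/
theorem gamma_pair_bound (a b : ℕ) (u : ℝ) :
    ‖Complex.Gamma ((a + 1 : ℕ) + u * Complex.I) * Complex.Gamma ((b + 1 : ℕ) - u * Complex.I)‖ ≤
      7 * ((a + b + 1 : ℕ) ^ (a + b) * ((a + b).factorial * Real.exp 1)) * Real.exp (-|u|) := by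
  have hfac : ∀ (c : ℕ) (_ : c ≤ a + b) (w : ℂ), ‖w‖ = |u| →
      ‖∏ l ∈ Finset.range c, (1 + w + l)‖ ≤ ((a + b + 1 : ℕ) * (1 + |u|)) ^ c := by
    intro c hc w hw
    rw [norm_prod]
    calc ∏ l ∈ Finset.range c, ‖1 + w + l‖ ≤ ∏ _l ∈ Finset.range c, (((a + b + 1 : ℕ) : ℝ) * (1 + |u|)) := by
          refine Finset.prod_le_prod (fun _ _ => norm_nonneg _) (fun l hl => ?_)
          have hl' : (l : ℝ) ≤ (a + b : ℕ) := by
            have := Finset.mem_range.mp hl
            exact_mod_cast (by omega : l ≤ a + b)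
          calc ‖1 + w + (l : ℂ)‖ ≤ ‖(1 : ℂ)‖ + ‖w‖ + ‖(l : ℂ)‖ := norm_add₃_le
            _ = 1 + |u| + l := by rw [hw]; simp
            _ ≤ _ := by
              push_cast at hl' ⊢
              nlinarith [abs_nonneg u]
      _ = _ := by simp
  have h1 := hfac a (by omega) (u * Complex.I) (by simp)
  have h2 := hfac b (by omega) (-(u * Complex.I)) (by simp)
  have h2' : ‖∏ l ∈ Finset.range b, (1 - u * Complex.I + l)‖ ≤ ((a + b + 1 : ℕ) * (1 + |u|)) ^ b := by
    simpa [sub_eq_add_neg] using h2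
  have h3 := norm_gamma_one_pair_le u
  have hpow := pow_le_fact_exp (a + b) (1 + |u|) (by positivity)
  have hu0 := abs_nonneg u
  rw [gamma_pair, norm_mul, norm_mul]
  have hexp : (1 + 2 * (π * |u|)) * Real.exp (-(π * |u|)) * Real.exp |u| ≤ 7 * Real.exp (-|u|) := by
    have hpi := Real.pi_gt_three
    have hpi2 := Real.pi_lt_d2
    have e1 : 1 + |u| ≤ Real.exp |u| := by linarith [Real.add_one_le_exp |u|]
    have e2 : Real.exp |u| ≤ Real.exp ((π - 2) * |u|) := Real.exp_le_exp.mpr (by nlinarith)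
    have e3 : 1 + 2 * (π * |u|) ≤ 7 * Real.exp ((π - 2) * |u|) := by nlinarith
    calc (1 + 2 * (π * |u|)) * Real.exp (-(π * |u|)) * Real.exp |u|
        ≤ (7 * Real.exp ((π - 2) * |u|)) * Real.exp (-(π * |u|)) * Real.exp |u| := by gcongr
      _ = 7 * Real.exp (-|u|) := by
        rw [mul_assoc, mul_assoc, ← Real.exp_add, ← Real.exp_add]
        congr 2
        ring
  calc _ ≤ ((a + b + 1 : ℕ) * (1 + |u|)) ^ a * ((a + b + 1 : ℕ) * (1 + |u|)) ^ b *
        ((1 + 2 * (π * |u|)) * Real.exp (-(π * |u|))) := by gcongr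
    _ = ((a + b + 1 : ℕ) : ℝ) ^ (a + b) * (1 + |u|) ^ (a + b) *
        ((1 + 2 * (π * |u|)) * Real.exp (-(π * |u|))) := by
      rw [← pow_add, mul_pow]
    _ ≤ ((a + b + 1 : ℕ) : ℝ) ^ (a + b) * ((a + b).factorial * Real.exp (1 + |u|)) *
        ((1 + 2 * (π * |u|)) * Real.exp (-(π * |u|))) := by gcongr
    _ = ((a + b + 1 : ℕ) : ℝ) ^ (a + b) * ((a + b).factorial * Real.exp 1) *
        ((1 + 2 * (π * |u|)) * Real.exp (-(π * |u|)) * Real.exp |u|) := by
      rw [Real.exp_add]; ring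
    _ ≤ ((a + b + 1 : ℕ) : ℝ) ^ (a + b) * ((a + b).factorial * Real.exp 1) *
        (7 * Real.exp (-|u|)) := by gcongr
    _ = _ := by ring

theorem continuous_gamma_pair (a b : ℕ) :
    Continuous (fun u : ℝ => Complex.Gamma ((a + 1 : ℕ) + u * Complex.I) *
      Complex.Gamma ((b + 1 : ℕ) - u * Complex.I)) := by
  have hG : ∀ (z : ℂ), 0 < z.re → ContinuousAt Complex.Gamma z := by
    intro z hz
    refine (Complex.differentiableAt_Gamma z (fun m h => ?_)).continuousAt
    rw [h] at hz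
    simp at hz
    have : (0 : ℝ) ≤ m := Nat.cast_nonneg m
    linarith
  refine continuous_iff_continuousAt.mpr (fun u => ?_)
  refine ContinuousAt.mul ?_ ?_
  · refine ContinuousAt.comp (g := Complex.Gamma) (hG _ (by simp; positivity)) ?_
    fun_prop
  · refine ContinuousAt.comp (g := Complex.Gamma) (hG _ (by simp; positivity)) ?_
    fun_prop

theorem integrable_gamma_pair (a b : ℕ) :
    Integrable (fun u : ℝ => Complex.Gamma ((a + 1 : ℕ) + u * Complex.I) *
      Complex.Gamma ((b + 1 : ℕ) - u * Complex.I)) :=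
  (integrable_exp_neg_abs.const_mul _).mono' (continuous_gamma_pair a b).aestronglyMeasurable
    (Filter.Eventually.of_forall fun u => gamma_pair_bound a b u)

theorem integral_gamma_pair (a b : ℕ) :
    ∫ u : ℝ, Complex.Gamma ((a + 1 : ℕ) + u * Complex.I) *
      Complex.Gamma ((b + 1 : ℕ) - u * Complex.I) =
      ((2 * π * (a + b + 1).factorial / 2 ^ (a + b + 2) : ℝ) : ℂ) := by
  set G : ℝ → ℂ := fun u : ℝ => Complex.Gamma ((a + 1 : ℕ) + u * Complex.I) *
      Complex.Gamma ((b + 1 : ℕ) - u * Complex.I) with hG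
  have hfac : Complex.Gamma ((a + 1 + (b + 1) : ℕ) : ℂ) = ((a + b + 1).factorial : ℂ) := by
    have h := Complex.Gamma_nat_eq_factorial (a + b + 1)
    rw [← h]
    congr 1
    push_cast
    ring
  have hfac0 : ((a + b + 1).factorial : ℂ) ≠ 0 := by exact_mod_cast (a + b + 1).factorial_ne_zero
  have hF : 𝓕 (fb (a + 1) (a + 1 + (b + 1))) = fun w : ℝ => G (-(2 * π) * w) / ((a + b + 1).factorial : ℂ) := by
    ext w
    rw [fourier_fb (a + 1) (b + 1) (by omega) (by omega) w, hfac]
    simp only [hG]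
    congr 2
    · congr 1
      push_cast
      ring
    · congr 1
      push_cast
      ring
  have hint : Integrable (𝓕 (fb (a + 1) (a + 1 + (b + 1)))) := by
    rw [hF]
    refine Integrable.div_const ?_ _
    exact (integrable_gamma_pair a b).comp_mul_left' (by simp [Real.pi_ne_zero])
  have hinv := congrFun ((continuous_fb (a + 1) (a + 1 + (b + 1))).fourierInv_fourier_eq
    (integrable_fb (a + 1) (b + 1) (by omega) (by omega)) hint) 0
  rw [Real.fourierInv_eq'] at hinv
  simp only [inner_zero_right, mul_zero, Complex.ofReal_zero, zero_mul, Complex.exp_zero, one_smul] at hinv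
  rw [hF, integral_div, Measure.integral_comp_mul_left] at hinv
  have hval : fb (a + 1) (a + 1 + (b + 1)) 0 = ((1 / 2 ^ (a + b + 2) : ℝ) : ℂ) := by
    unfold fb
    simp [Real.sigmoid_zero]
    ring_nf
  rw [hval] at hinv
  have h2pi : |(-(2 * π))⁻¹| = (2 * π)⁻¹ := by
    rw [abs_inv, abs_neg, abs_of_pos (by positivity)]
  rw [h2pi, Complex.real_smul] at hinv
  have hpi0 : (π : ℂ) ≠ 0 := by exact_mod_cast Real.pi_ne_zero
  push_cast at hinv ⊢
  field_simp at hinv ⊢
  linear_combination hinv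

end Pool.Agent.D23
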