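import Mathlib
import Pool.Agent.D23.Beta

/-! Monic polynomials orthogonal-like with respect to `|Γ(m+1+2iy)|^2` on a vertical line
(Meixner-Pollaczek polynomials written in the basis of Pochhammer products) and their norms. -/

open MeasureTheory Set Real Polynomial Finset
open scoped fwdDiff

namespace Pool.Agent.D23

theorem fact_mul_poch (a k : ℕ) :
    ((a.factorial : ℝ)) * (ascPochhammer ℝ k).eval ((a : ℝ) + 1) = ((a + k).factorial : ℝ) := by
  have h := ascPochhammer_nat_eq_natCast_ascFactorial ℝ (a + 1) k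
  have h2 := Nat.factorial_mul_ascFactorial a k
  push_cast at h
  rw [h]
  exact_mod_cast h2

theorem lag_sum (N j k : ℕ) (hk : k ≤ j) :
    ∑ l ∈ range (j + 1), ((-1 : ℝ) ^ (j - l) * (j.choose l) * (((N + j).factorial : ℝ) / ((N + l).factorial : ℝ)))
      * ((N + k + l).factorial : ℝ) = if k = j then ((N + j).factorial : ℝ) * (j.factorial : ℝ) else 0 := by
  set Q : ℝ[X] := (ascPochhammer ℝ k).comp (X + C ((N : ℝ) + 1)) with hQ
  have hQe : ∀ l : ℕ, ((N + l).factorial : ℝ) * Q.eval (l : ℝ) = ((N + k + l).factorial : ℝ) := by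
    intro l
    have h := fact_mul_poch (N + l) k
    rw [hQ, eval_comp, eval_add, eval_X, eval_C]
    have e : (l : ℝ) + ((N : ℝ) + 1) = ((N + l : ℕ) : ℝ) + 1 := by push_cast; ring
    rw [e, h]
    congr 2
    omega
  have hdeg : Q.natDegree = k := by
    rw [hQ, natDegree_comp, ascPochhammer_natDegree, natDegree_X_add_C, mul_one]
  have hlead : Q.leadingCoeff = 1 := by
    have h1 : Q.Monic := (monic_ascPochhammer ℝ k).comp (monic_X_add_C _) (by
      rw [natDegree_X_add_C]; exact one_ne_zero)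
    exact h1
  have hmain : ∑ l ∈ range (j + 1), ((-1 : ℝ) ^ (j - l) * (j.choose l)) * Q.eval (l : ℝ) =
      if k = j then (j.factorial : ℝ) else 0 := by
    have h1 := fwdDiff_iter_eq_sum_shift (h := (1 : ℝ)) (fun x => Q.eval x) j 0
    have h2 : (fwdDiff (1 : ℝ))^[j] (fun x => Q.eval x) 0 = if k = j then (j.factorial : ℝ) else 0 := by
      rcases Nat.lt_or_eq_of_le hk with h | h
      · rw [if_neg (by omega)]
        have := Polynomial.fwdDiff_iter_eq_zero_of_degree_lt (P := Q) (n := j) (by rw [hdeg]; exact h)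
        exact congrFun this 0
      · subst h
        rw [if_pos rfl]
        have := Polynomial.fwdDiff_iter_degree_eq_factorial Q
        rw [hdeg, hlead, one_smul] at this
        have h3 := congrFun this 0
        simpa using h3
    rw [← h2, h1]
    refine sum_congr rfl (fun l _ => ?_)
    simp [zsmul_eq_mul]
  have hterm : ∀ l ∈ range (j + 1), ((-1 : ℝ) ^ (j - l) * (j.choose l) *
      (((N + j).factorial : ℝ) / ((N + l).factorial : ℝ))) * ((N + k + l).factorial : ℝ) =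
      ((N + j).factorial : ℝ) * (((-1 : ℝ) ^ (j - l) * (j.choose l)) * Q.eval (l : ℝ)) := by
    intro l _
    rw [← hQe l]
    have h0 : ((N + l).factorial : ℝ) ≠ 0 := by exact_mod_cast (N + l).factorial_ne_zero
    field_simp
  rw [sum_congr rfl hterm, ← mul_sum, hmain]
  split_ifs <;> simp

/-- the (real) coefficients of the monic polynomial in the Pochhammer basis -/
noncomputable def lc (m j k : ℕ) : ℝ :=
  (-1 : ℝ) ^ (j - k) * (j.choose k) * (((2 * m + 1 + j).factorial : ℝ) / ((2 * m + 1 + k).factorial : ℝ))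
    * 2 ^ k / 4 ^ j

/-- Pochhammer products on the line through `c` -/
noncomputable def Phi (m : ℕ) (c : ℝ) (k : ℕ) : ℂ[X] :=
  ∏ l ∈ range k, (C 2 * X + C (((m + 1 + l : ℕ) : ℂ) - 2 * (c : ℂ)))

/-- the monic polynomials -/
noncomputable def Pm (m : ℕ) (c : ℝ) (j : ℕ) : ℂ[X] :=
  ∑ k ∈ range (j + 1), C ((lc m j k : ℝ) : ℂ) * Phi m c k

theorem Phi_eval (m : ℕ) (c : ℝ) (k : ℕ) (y : ℝ) :
    (Phi m c k).eval ((c : ℂ) + y * Complex.I) * Complex.Gamma ((m + 1 : ℕ) + ((2 * y : ℝ) : ℂ) * Complex.I) =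
      Complex.Gamma ((m + k + 1 : ℕ) + ((2 * y : ℝ) : ℂ) * Complex.I) := by
  have h := gamma_shift (((m + 1 : ℕ) : ℂ) + ((2 * y : ℝ) : ℂ) * Complex.I) k (by simp; positivity)
  have e : ((m + k + 1 : ℕ) : ℂ) + ((2 * y : ℝ) : ℂ) * Complex.I =
      ((m + 1 : ℕ) : ℂ) + ((2 * y : ℝ) : ℂ) * Complex.I + k := by push_cast; ring
  rw [e, h, Phi, eval_prod]
  congr 1
  refine prod_congr rfl (fun l _ => ?_)
  simp only [eval_add, eval_mul, eval_C, eval_X]
  push_cast
  ring

theorem Phi_factor_deg (z : ℂ) : (C 2 * X + C z : ℂ[X]).natDegree = 1 :=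
  natDegree_linear (by norm_num)

theorem Phi_factor_lead (z : ℂ) : (C 2 * X + C z : ℂ[X]).leadingCoeff = 2 :=
  leadingCoeff_linear (by norm_num)

theorem Phi_natDegree (m : ℕ) (c : ℝ) (k : ℕ) : (Phi m c k).natDegree = k := by
  unfold Phi
  rw [natDegree_prod]
  · rw [sum_congr rfl (fun l _ => Phi_factor_deg _)]
    simp
  · intro i _ h
    have := Phi_factor_lead (((m + 1 + i : ℕ) : ℂ) - 2 * (c : ℂ))
    rw [h] at this
    simp at this

theorem Phi_lead (m : ℕ) (c : ℝ) (k : ℕ) : (Phi m c k).leadingCoeff = 2 ^ k := by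
  unfold Phi
  rw [leadingCoeff_prod, prod_congr rfl (fun l _ => Phi_factor_lead _)]
  simp

theorem Phi_coeff (m : ℕ) (c : ℝ) (k : ℕ) : (Phi m c k).coeff k = 2 ^ k := by
  have := Phi_lead m c k
  rwa [leadingCoeff, Phi_natDegree] at this

theorem lc_self (m j : ℕ) : lc m j j = 2 ^ j / 4 ^ j := by
  unfold lc
  have h0 : ((2 * m + 1 + j).factorial : ℝ) ≠ 0 := by exact_mod_cast (2 * m + 1 + j).factorial_ne_zero
  simp [h0]

theorem Pm_coeff (m : ℕ) (c : ℝ) (j : ℕ) : (Pm m c j).coeff j = 1 := by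
  unfold Pm
  rw [finsetSum_coeff, sum_range_succ, sum_eq_zero, zero_add, coeff_C_mul, Phi_coeff, lc_self]
  · push_cast
    rw [div_mul_eq_mul_div, ← mul_pow]
    norm_num
  · intro k hk
    rw [coeff_C_mul, coeff_eq_zero_of_natDegree_lt, mul_zero]
    rw [Phi_natDegree]
    exact mem_range.mp hk

theorem Pm_natDegree_le (m : ℕ) (c : ℝ) (j : ℕ) : (Pm m c j).natDegree ≤ j := by
  unfold Pm
  refine natDegree_sum_le_of_forall_le _ _ (fun k hk => ?_)
  refine (natDegree_C_mul_le _ _).trans ?_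
  rw [Phi_natDegree]
  have := mem_range.mp hk
  omega

theorem Pm_natDegree (m : ℕ) (c : ℝ) (j : ℕ) : (Pm m c j).natDegree = j := by
  refine le_antisymm (Pm_natDegree_le m c j) (le_natDegree_of_ne_zero ?_)
  rw [Pm_coeff]
  exact one_ne_zero

theorem Pm_monic (m : ℕ) (c : ℝ) (j : ℕ) : (Pm m c j).Monic := by
  rw [Monic, leadingCoeff, Pm_natDegree, Pm_coeff]

/-- the weight -/
noncomputable def wt (m : ℕ) (y : ℝ) : ℝ :=
  ‖Complex.Gamma ((m + 1 : ℕ) + ((2 * y : ℝ) : ℂ) * Complex.I)‖ ^ 2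

theorem Pm_eval (m : ℕ) (c : ℝ) (j : ℕ) (y : ℝ) :
    (Pm m c j).eval ((c : ℂ) + y * Complex.I) * Complex.Gamma ((m + 1 : ℕ) + ((2 * y : ℝ) : ℂ) * Complex.I) =
      ∑ k ∈ range (j + 1), ((lc m j k : ℝ) : ℂ) *
        Complex.Gamma ((m + k + 1 : ℕ) + ((2 * y : ℝ) : ℂ) * Complex.I) := by
  unfold Pm
  rw [eval_finsetSum, sum_mul]
  refine sum_congr rfl (fun k _ => ?_)
  rw [eval_mul, eval_C, mul_assoc, Phi_eval]

theorem gamma_pair_integrable2 (a b : ℕ) :
    Integrable (fun y : ℝ => Complex.Gamma ((a + 1 : ℕ) + ((2 * y : ℝ) : ℂ) * Complex.I) *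
      Complex.Gamma ((b + 1 : ℕ) - ((2 * y : ℝ) : ℂ) * Complex.I)) :=
  (integrable_gamma_pair a b).comp_mul_left' (by norm_num : (2 : ℝ) ≠ 0)

theorem gamma_pair_integral2 (a b : ℕ) :
    ∫ y : ℝ, Complex.Gamma ((a + 1 : ℕ) + ((2 * y : ℝ) : ℂ) * Complex.I) *
      Complex.Gamma ((b + 1 : ℕ) - ((2 * y : ℝ) : ℂ) * Complex.I) =
      ((π * (a + b + 1).factorial / 2 ^ (a + b + 2) : ℝ) : ℂ) := by
  have h := Measure.integral_comp_mul_left (fun u : ℝ => Complex.Gamma ((a + 1 : ℕ) + u * Complex.I) *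
      Complex.Gamma ((b + 1 : ℕ) - u * Complex.I)) 2
  rw [h, integral_gamma_pair]
  rw [abs_of_pos (by norm_num), Complex.real_smul]
  push_cast
  ring

theorem Pm_sq (m : ℕ) (c : ℝ) (j : ℕ) (y : ℝ) :
    ((‖(Pm m c j).eval ((c : ℂ) + y * Complex.I)‖ ^ 2 * wt m y : ℝ) : ℂ) =
      ∑ k ∈ range (j + 1), ∑ l ∈ range (j + 1), ((lc m j k * lc m j l : ℝ) : ℂ) *
        (Complex.Gamma ((m + k + 1 : ℕ) + ((2 * y : ℝ) : ℂ) * Complex.I) *
          Complex.Gamma ((m + l + 1 : ℕ) - ((2 * y : ℝ) : ℂ) * Complex.I)) := by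
  unfold wt
  rw [← mul_pow, ← norm_mul, Pm_eval]
  set S : ℂ := ∑ k ∈ range (j + 1), ((lc m j k : ℝ) : ℂ) *
        Complex.Gamma ((m + k + 1 : ℕ) + ((2 * y : ℝ) : ℂ) * Complex.I) with hS
  have h1 : ((‖S‖ ^ 2 : ℝ) : ℂ) = S * (starRingEnd ℂ) S := by
    rw [Complex.mul_conj, Complex.normSq_eq_norm_sq]
  rw [h1]
  have h2 : (starRingEnd ℂ) S = ∑ l ∈ range (j + 1), ((lc m j l : ℝ) : ℂ) *
        Complex.Gamma ((m + l + 1 : ℕ) - ((2 * y : ℝ) : ℂ) * Complex.I) := by
    rw [hS, map_sum]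
    refine sum_congr rfl (fun l _ => ?_)
    rw [map_mul, Complex.conj_ofReal, ← Complex.Gamma_conj]
    congr 2
    rw [map_add, map_mul, Complex.conj_ofReal, Complex.conj_I]
    simp only [Complex.conj_natCast]
    ring
  rw [h2, hS, sum_mul]
  refine sum_congr rfl (fun k _ => ?_)
  rw [mul_sum]
  refine sum_congr rfl (fun l _ => ?_)
  push_cast
  ring

/-- the squared norm of the monic polynomial -/
noncomputable def hn (m j : ℕ) : ℝ :=
  π * (j.factorial * (2 * m + 1 + j).factorial) / (4 ^ (m + 1) * 16 ^ j)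

theorem hn_pos (m j : ℕ) : 0 < hn m j := by
  unfold hn
  have h1 : (0 : ℝ) < j.factorial := by exact_mod_cast j.factorial_pos
  have h2 : (0 : ℝ) < (2 * m + 1 + j).factorial := by exact_mod_cast (2 * m + 1 + j).factorial_pos
  positivity

theorem Pm_integrable_c (m : ℕ) (c : ℝ) (j : ℕ) :
    Integrable (fun y : ℝ => ((‖(Pm m c j).eval ((c : ℂ) + y * Complex.I)‖ ^ 2 * wt m y : ℝ) : ℂ)) := by
  simp_rw [Pm_sq]
  refine integrable_finsetSum _ (fun k _ => integrable_finsetSum _ (fun l _ => ?_))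
  exact (gamma_pair_integrable2 (m + k) (m + l)).const_mul _

theorem Pm_integrable (m : ℕ) (c : ℝ) (j : ℕ) :
    Integrable (fun y : ℝ => ‖(Pm m c j).eval ((c : ℂ) + y * Complex.I)‖ ^ 2 * wt m y) := by
  have h := (Pm_integrable_c m c j).re
  exact h.congr (Filter.Eventually.of_forall fun y => Complex.ofReal_re _)

theorem Pm_integral (m : ℕ) (c : ℝ) (j : ℕ) :
    ∫ y : ℝ, ‖(Pm m c j).eval ((c : ℂ) + y * Complex.I)‖ ^ 2 * wt m y = hn m j := by
  have h1 : ((∫ y : ℝ, ‖(Pm m c j).eval ((c : ℂ) + y * Complex.I)‖ ^ 2 * wt m y : ℝ) : ℂ) =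
      ∑ k ∈ range (j + 1), ∑ l ∈ range (j + 1), ((lc m j k * lc m j l *
        (π * (m + k + (m + l) + 1).factorial / 2 ^ (m + k + (m + l) + 2)) : ℝ) : ℂ) := by
    rw [← integral_complex_ofReal]
    simp_rw [Pm_sq]
    rw [integral_finsetSum _ (fun k _ => integrable_finsetSum _ (fun l _ =>
      (gamma_pair_integrable2 (m + k) (m + l)).const_mul _))]
    refine sum_congr rfl (fun k _ => ?_)
    rw [integral_finsetSum _ (fun l _ => (gamma_pair_integrable2 (m + k) (m + l)).const_mul _)]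
    refine sum_congr rfl (fun l _ => ?_)
    rw [integral_const_mul, gamma_pair_integral2]
    push_cast
    ring
  have h2 : (∫ y : ℝ, ‖(Pm m c j).eval ((c : ℂ) + y * Complex.I)‖ ^ 2 * wt m y) =
      ∑ k ∈ range (j + 1), ∑ l ∈ range (j + 1), (lc m j k * lc m j l *
        (π * (m + k + (m + l) + 1).factorial / 2 ^ (m + k + (m + l) + 2))) := by
    exact_mod_cast h1
  rw [h2]
  -- reduce to the Laguerre sum
  set a : ℕ → ℝ := fun k => (-1 : ℝ) ^ (j - k) * (j.choose k) *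
    (((2 * m + 1 + j).factorial : ℝ) / ((2 * m + 1 + k).factorial : ℝ)) with ha
  have h3 : ∀ k ∈ range (j + 1), ∑ l ∈ range (j + 1), (lc m j k * lc m j l *
        (π * (m + k + (m + l) + 1).factorial / 2 ^ (m + k + (m + l) + 2))) =
      (π / (4 ^ (m + 1) * 16 ^ j)) * (a k * (if k = j then ((2 * m + 1 + j).factorial : ℝ) * (j.factorial : ℝ) else 0)) := by
    intro k hk
    have hk' : k ≤ j := by have := mem_range.mp hk; omega
    rw [← lag_sum (2 * m + 1) j k hk', mul_sum, mul_sum]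
    refine sum_congr rfl (fun l _ => ?_)
    have e1 : m + k + (m + l) + 1 = 2 * m + 1 + k + l := by ring
    have e2 : (2 : ℝ) ^ (m + k + (m + l) + 2) = 4 ^ (m + 1) * 2 ^ k * 2 ^ l := by
      have : (4 : ℝ) = 2 ^ 2 := by norm_num
      rw [this, ← pow_mul, ← pow_add, ← pow_add]
      congr 1
      ring
    have e3 : (16 : ℝ) ^ j = 4 ^ j * 4 ^ j := by rw [← mul_pow]; norm_num
    rw [e1, e2, e3]
    simp only [ha, lc]
    field_simp
  rw [sum_congr rfl h3, ← mul_sum, sum_eq_single_of_mem j (by simp)]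
  · have ha1 : a j = 1 := by
      have h0 : ((2 * m + 1 + j).factorial : ℝ) ≠ 0 := by exact_mod_cast (2 * m + 1 + j).factorial_ne_zero
      simp [ha, h0]
    rw [if_pos rfl, ha1, hn]
    ring
  · intro k _ hk
    rw [if_neg hk]
    ring

end Pool.Agent.D23
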