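import Mathlib
import Pool.Agent.D23.Lag
import Pool.Agent.Z3D.DetBound
import Pool.Agent.Z3D.Pade

/-! Bound of the Hankel determinant of the moments of a complex function `F` on a vertical line
which is dominated by a multiple of the weight `|Γ(m+1+2iy)|^2`. -/

open MeasureTheory Set Real Polynomial Finset

namespace Pool.Agent.D23

theorem wt_nonneg (m : ℕ) (y : ℝ) : 0 ≤ wt m y := by unfold wt; positivity

theorem wt_eq (m : ℕ) (y : ℝ) :
    (wt m y : ℂ) = Complex.Gamma ((m + 1 : ℕ) + ((2 * y : ℝ) : ℂ) * Complex.I) *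
      Complex.Gamma ((m + 1 : ℕ) - ((2 * y : ℝ) : ℂ) * Complex.I) := by
  unfold wt
  have h : Complex.Gamma ((m + 1 : ℕ) - ((2 * y : ℝ) : ℂ) * Complex.I) =
      (starRingEnd ℂ) (Complex.Gamma ((m + 1 : ℕ) + ((2 * y : ℝ) : ℂ) * Complex.I)) := by
    rw [← Complex.Gamma_conj]
    congr 1
    rw [map_add, map_mul, Complex.conj_ofReal, Complex.conj_I, Complex.conj_natCast]
    ring
  rw [h, Complex.mul_conj, Complex.normSq_eq_norm_sq]

/-- `|Γ(m+1+iu)|^2 = (π u / sinh (π u)) ∏_{l=1}^{m} (l^2+u^2)`, here `u = 2 y` -/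
theorem wt_prod (m : ℕ) (y : ℝ) (hy : y ≠ 0) :
    wt m y = (π * (2 * y) / Real.sinh (π * (2 * y))) * ∏ l ∈ range m, (((l : ℝ) + 1) ^ 2 + (2 * y) ^ 2) := by
  have h := wt_eq m y
  rw [gamma_pair, gamma_one_pair _ (mul_ne_zero two_ne_zero hy)] at h
  have h2 : (∏ l ∈ range m, (1 + ((2 * y : ℝ) : ℂ) * Complex.I + l)) *
      (∏ l ∈ range m, (1 - ((2 * y : ℝ) : ℂ) * Complex.I + l)) =
      ((∏ l ∈ range m, (((l : ℝ) + 1) ^ 2 + (2 * y) ^ 2) : ℝ) : ℂ) := by
    rw [← prod_mul_distrib, Complex.ofReal_prod]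
    refine prod_congr rfl (fun l _ => ?_)
    push_cast
    linear_combination (-(2 * (y : ℂ)) ^ 2) * Complex.I_sq
  rw [h2] at h
  have h3 : (wt m y : ℂ) = (((π * (2 * y) / Real.sinh (π * (2 * y))) *
      ∏ l ∈ range m, (((l : ℝ) + 1) ^ 2 + (2 * y) ^ 2) : ℝ) : ℂ) := by
    rw [h]
    push_cast
    ring
  exact_mod_cast h3

theorem wt_zero (m : ℕ) : wt m 0 = (m.factorial : ℝ) ^ 2 := by
  unfold wt
  have h := Complex.Gamma_nat_eq_factorial m
  have e : ((m + 1 : ℕ) : ℂ) + ((2 * (0 : ℝ) : ℝ) : ℂ) * Complex.I = (m : ℂ) + 1 := by push_cast; ring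
  rw [e, h]
  simp

theorem wt_bound (m : ℕ) : ∃ C : ℝ, 0 ≤ C ∧ ∀ y : ℝ, wt m y ≤ C * Real.exp (-|2 * y|) := by
  refine ⟨7 * ((m + m + 1 : ℕ) ^ (m + m) * ((m + m).factorial * Real.exp 1)), by positivity, fun y => ?_⟩
  have h := gamma_pair_bound m m (2 * y)
  rw [← wt_eq, Complex.norm_real, Real.norm_eq_abs, abs_of_nonneg (wt_nonneg m y)] at h
  exact h

/-- powers on the line are integrable against a function dominated by the weight -/
theorem pow_integrable (m : ℕ) (c : ℝ) (F : ℝ → ℂ) (hFm : AEStronglyMeasurable F volume) (B : ℝ)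
    (hB : 0 ≤ B) (hF : ∀ y, ‖F y‖ ≤ B * wt m y) (k : ℕ) :
    Integrable (fun y : ℝ => ((c : ℂ) + y * Complex.I) ^ k * F y) := by
  obtain ⟨C, hC, hw⟩ := wt_bound m
  refine (integrable_exp_neg_abs.const_mul ((k.factorial : ℝ) * Real.exp |c| * (B * C))).mono' ?_
    (Filter.Eventually.of_forall fun y => ?_)
  · refine AEStronglyMeasurable.mul ?_ hFm
    refine Continuous.aestronglyMeasurable ?_
    fun_prop
  · rw [norm_mul, norm_pow]
    have h1 : ‖(c : ℂ) + y * Complex.I‖ ≤ |c| + |y| := by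
      refine (norm_add_le _ _).trans ?_
      simp
    have h2 : ‖(c : ℂ) + y * Complex.I‖ ^ k ≤ (k.factorial : ℝ) * Real.exp (|c| + |y|) :=
      (pow_le_pow_left₀ (norm_nonneg _) h1 k).trans (pow_le_fact_exp k _ (by positivity))
    have h3 : ‖F y‖ ≤ B * (C * Real.exp (-|2 * y|)) := (hF y).trans (by gcongr; exact hw y)
    calc ‖(c : ℂ) + y * Complex.I‖ ^ k * ‖F y‖
        ≤ ((k.factorial : ℝ) * Real.exp (|c| + |y|)) * (B * (C * Real.exp (-|2 * y|))) := by gcongr
      _ = (k.factorial : ℝ) * Real.exp |c| * (B * C) * Real.exp (-|y|) := by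
        have e : Real.exp (|c| + |y|) * Real.exp (-|2 * y|) = Real.exp |c| * Real.exp (-|y|) := by
          rw [← Real.exp_add, ← Real.exp_add, abs_mul, abs_of_pos (by norm_num : (0 : ℝ) < 2)]
          congr 1
          ring
        calc _ = (k.factorial : ℝ) * (B * C) * (Real.exp (|c| + |y|) * Real.exp (-|2 * y|)) := by ring
          _ = _ := by rw [e]; ring

theorem poly_integrable (m : ℕ) (c : ℝ) (F : ℝ → ℂ) (hFm : AEStronglyMeasurable F volume) (B : ℝ)
    (hB : 0 ≤ B) (hF : ∀ y, ‖F y‖ ≤ B * wt m y) (P : ℂ[X]) :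
    Integrable (fun y : ℝ => P.eval ((c : ℂ) + y * Complex.I) * F y) := by
  have h : (fun y : ℝ => P.eval ((c : ℂ) + y * Complex.I) * F y) = fun y : ℝ =>
      ∑ k ∈ range (P.natDegree + 1), P.coeff k * (((c : ℂ) + y * Complex.I) ^ k * F y) := by
    ext y
    rw [eval_eq_sum_range, sum_mul]
    refine sum_congr rfl (fun k _ => by ring)
  rw [h]
  exact integrable_finsetSum _ (fun k _ => (pow_integrable m c F hFm B hB hF k).const_mul _)

/-- the functional -/
noncomputable def lfun (m : ℕ) (c : ℝ) (F : ℝ → ℂ) (hFm : AEStronglyMeasurable F volume) (B : ℝ)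
    (hB : 0 ≤ B) (hF : ∀ y, ‖F y‖ ≤ B * wt m y) : ℂ[X] →ₗ[ℂ] ℂ where
  toFun P := ∫ y : ℝ, P.eval ((c : ℂ) + y * Complex.I) * F y
  map_add' P Q := by
    rw [← integral_add (poly_integrable m c F hFm B hB hF P) (poly_integrable m c F hFm B hB hF Q)]
    congr 1
    ext y
    rw [eval_add]
    ring
  map_smul' a P := by
    rw [RingHom.id_apply, smul_eq_mul, ← integral_const_mul]
    congr 1
    ext y
    rw [eval_smul, smul_eq_mul]
    ring

theorem entry_le (m : ℕ) (c : ℝ) (F : ℝ → ℂ) (B : ℝ)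
    (hF : ∀ y, ‖F y‖ ≤ B * wt m y) (i j : ℕ) :
    ‖∫ y : ℝ, (Pm m c i * Pm m c j).eval ((c : ℂ) + y * Complex.I) * F y‖ ≤
      B * (√(hn m i) * √(hn m j)) := by
  have hi := hn_pos m i
  have hj := hn_pos m j
  set p : ℝ := √(hn m i) with hp
  set q : ℝ := √(hn m j) with hq
  have hp0 : 0 < p := Real.sqrt_pos.mpr hi
  have hq0 : 0 < q := Real.sqrt_pos.mpr hj
  have hp2 : p ^ 2 = hn m i := Real.sq_sqrt hi.le
  have hq2 : q ^ 2 = hn m j := Real.sq_sqrt hj.le
  set G : ℝ → ℝ := fun y => B / 2 * ((q / p) * (‖(Pm m c i).eval ((c : ℂ) + y * Complex.I)‖ ^ 2 * wt m y) +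
    (p / q) * (‖(Pm m c j).eval ((c : ℂ) + y * Complex.I)‖ ^ 2 * wt m y)) with hG
  have hGi : Integrable G :=
    (((Pm_integrable m c i).const_mul _).add ((Pm_integrable m c j).const_mul _)).const_mul _
  have hle : ∀ y : ℝ, ‖(Pm m c i * Pm m c j).eval ((c : ℂ) + y * Complex.I) * F y‖ ≤ G y := by
    intro y
    rw [eval_mul, norm_mul, norm_mul]
    set a := ‖(Pm m c i).eval ((c : ℂ) + y * Complex.I)‖ with ha
    set b := ‖(Pm m c j).eval ((c : ℂ) + y * Complex.I)‖ with hb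
    have ha0 : 0 ≤ a := norm_nonneg _
    have hb0 : 0 ≤ b := norm_nonneg _
    have hab : a * b ≤ ((q / p) * a ^ 2 + (p / q) * b ^ 2) / 2 := by
      have h1 : 0 ≤ (q * a - p * b) ^ 2 / (p * q) := by positivity
      have h2 : (q * a - p * b) ^ 2 / (p * q) = (q / p) * a ^ 2 + (p / q) * b ^ 2 - 2 * (a * b) := by
        field_simp
        ring
      linarith
    calc a * b * ‖F y‖ ≤ (((q / p) * a ^ 2 + (p / q) * b ^ 2) / 2) * (B * wt m y) :=
          mul_le_mul hab (hF y) (norm_nonneg _) (by positivity)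
      _ = G y := by
        simp only [hG]
        ring
  calc ‖∫ y : ℝ, (Pm m c i * Pm m c j).eval ((c : ℂ) + y * Complex.I) * F y‖ ≤ ∫ y, G y :=
        norm_integral_le_of_norm_le hGi (Filter.Eventually.of_forall hle)
    _ = B / 2 * ((q / p) * hn m i + (p / q) * hn m j) := by
      simp only [hG]
      rw [integral_const_mul, integral_add ((Pm_integrable m c i).const_mul _)
        ((Pm_integrable m c j).const_mul _), integral_const_mul, integral_const_mul,
        Pm_integral, Pm_integral]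
    _ = B * (p * q) := by
      rw [← hp2, ← hq2]
      field_simp
      ring

/-- the product of the norms divided by the squares of the factorials -/
theorem prod_hn (m M : ℕ) :
    ∏ j ∈ range M, hn m j = (π * (2 * m + 1).factorial / 4 ^ (m + 1)) ^ M *
      (∏ j ∈ range M, ((j.factorial : ℝ)) ^ 2) *
      ∏ j ∈ range M, (((2 * m + 1 + j).choose j : ℝ) / 16 ^ j) := by
  have h : ∀ j ∈ range M, hn m j = (π * (2 * m + 1).factorial / 4 ^ (m + 1)) *
      ((j.factorial : ℝ)) ^ 2 * (((2 * m + 1 + j).choose j : ℝ) / 16 ^ j) := by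
    intro j _
    have h1 : (((2 * m + 1 + j).choose j : ℝ)) * (j.factorial * (2 * m + 1).factorial) =
        (2 * m + 1 + j).factorial := by
      have h2 := Nat.choose_mul_factorial_mul_factorial (Nat.le_add_left j (2 * m + 1))
      rw [Nat.add_sub_cancel] at h2
      rw [← h2]
      push_cast
      ring
    unfold hn
    rw [← h1]
    field_simp
  rw [prod_congr rfl h, prod_mul_distrib, prod_mul_distrib, prod_const, card_range]

/-- Archimedean bound of the Hankel determinant. -/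
theorem arch_det (m M : ℕ) (c : ℝ) (F : ℝ → ℂ) (hFm : AEStronglyMeasurable F volume) (B : ℝ)
    (hF : ∀ y, ‖F y‖ ≤ B * wt m y) :
    ‖(Matrix.of fun i j : Fin M => ∫ y : ℝ, ((c : ℂ) + y * Complex.I) ^ ((i : ℕ) + (j : ℕ)) * F y).det‖ ≤
      (M.factorial : ℝ) * (B ^ M * ∏ j ∈ range M, hn m j) := by
  have hw0 : 0 < wt m 0 := by
    rw [wt_zero]
    have : (0 : ℝ) < m.factorial := by exact_mod_cast m.factorial_pos
    positivity
  have hB : 0 ≤ B := by
    have h := (norm_nonneg _).trans (hF 0)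
    by_contra hneg
    push Not at hneg
    nlinarith
  set Λ := lfun m c F hFm B hB hF with hΛ
  have h1 : (Matrix.of fun i j : Fin M => ∫ y : ℝ, ((c : ℂ) + y * Complex.I) ^ ((i : ℕ) + (j : ℕ)) * F y) =
      Z3D.gram Λ (fun i => X ^ i) M := by
    ext i j
    simp only [Matrix.of_apply, Z3D.gram, hΛ, lfun, LinearMap.coe_mk, AddHom.coe_mk]
    congr 1
    ext y
    rw [← pow_add, eval_pow, eval_X]
  rw [h1, ← Z3D.det_gram Λ (Pm m c) (Pm_monic m c) (Pm_natDegree m c) M]
  have h2 := Z3D.norm_det_le (Z3D.gram Λ (Pm m c) M) B (fun i => √(hn m i)) (fun i j => by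
    simp only [Z3D.gram, Matrix.of_apply, hΛ, lfun, LinearMap.coe_mk, AddHom.coe_mk]
    exact entry_le m c F B hF i j)
  refine h2.trans (le_of_eq ?_)
  congr 2
  rw [← Fin.prod_univ_eq_prod_range]
  exact Finset.prod_congr rfl (fun i _ => Real.sq_sqrt (hn_pos m i).le)

end Pool.Agent.D23
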