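import Mathlib

/-! Upper bound for `∑_{j<M} log C(N+j, j)` by an explicit function (comparison with an integral). -/

open Real Finset

namespace Pool.Agent.D23

/-- `x log x`-type entropy function -/
noncomputable def gch (N x : ℝ) : ℝ := (N + x) * log (N + x) - N * log N - x * log x

/-- its antiderivative -/
noncomputable def Gch (N x : ℝ) : ℝ :=
  (N + x) ^ 2 / 2 * log (N + x) - (N ^ 2 / 2 + N * x) * log N - x ^ 2 / 2 * log x - N * x / 2

theorem choose_le_pow (N j : ℕ) : ((N + j).choose j : ℝ) * ((N : ℝ) ^ N * (j : ℝ) ^ j) ≤ ((N + j : ℕ) : ℝ) ^ (N + j) := by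
  have h := add_pow (j : ℝ) (N : ℝ) (j + N)
  have h2 : (j : ℝ) ^ j * (N : ℝ) ^ (j + N - j) * ((j + N).choose j : ℝ) ≤ ((j : ℝ) + N) ^ (j + N) := by
    rw [h]
    exact Finset.single_le_sum (f := fun m => (j : ℝ) ^ m * (N : ℝ) ^ (j + N - m) * ((j + N).choose m : ℝ))
      (fun i _ => by positivity) (by simp)
  have e1 : j + N - j = N := by omega
  rw [e1] at h2
  have e2 : ((N + j : ℕ) : ℝ) ^ (N + j) = ((j : ℝ) + N) ^ (j + N) := by push_cast; rw [add_comm N j, add_comm (N : ℝ) j]
  rw [e2, add_comm N j]
  linarith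

theorem log_choose_le (N j : ℕ) (hN : 1 ≤ N) : log ((N + j).choose j : ℝ) ≤ gch N j := by
  have hN0 : (0 : ℝ) < N := by exact_mod_cast hN
  have hc : (0 : ℝ) < ((N + j).choose j : ℝ) := by exact_mod_cast Nat.choose_pos (Nat.le_add_left j N)
  rcases Nat.eq_zero_or_pos j with rfl | hj
  · simp [gch]
  · have hj0 : (0 : ℝ) < j := by exact_mod_cast hj
    have h := choose_le_pow N j
    have h1 := Real.log_le_log (by positivity) h
    rw [Real.log_mul hc.ne' (by positivity), Real.log_mul (by positivity) (by positivity),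
      Real.log_pow, Real.log_pow, Real.log_pow] at h1
    unfold gch
    push_cast at h1
    linarith

theorem gch_mono (N : ℝ) (hN : 0 < N) (x y : ℝ) (hx : 0 ≤ x) (hxy : x ≤ y) : gch N x ≤ gch N y := by
  -- derivative log (N+x) - log x > 0
  have hcont : ContinuousOn (gch N) (Set.Ici 0) := by
    unfold gch
    have h1 : Continuous (fun x : ℝ => x * log x) := continuous_mul_log
    have h2 : Continuous (fun x : ℝ => (N + x) * log (N + x)) := h1.comp (by fun_prop)
    exact ((h2.sub continuous_const).sub h1).continuousOn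
  have hmono : MonotoneOn (gch N) (Set.Ici 0) := by
    refine monotoneOn_of_deriv_nonneg (convex_Ici 0) hcont ?_ ?_
    · intro z hz
      rw [interior_Ici] at hz
      have hz0 : 0 < z := hz
      have hNz : 0 < N + z := by linarith
      unfold gch
      refine DifferentiableAt.differentiableWithinAt ?_
      refine DifferentiableAt.sub (DifferentiableAt.sub ?_ (by fun_prop)) ?_
      · exact DifferentiableAt.mul (by fun_prop) (DifferentiableAt.log (by fun_prop) hNz.ne')
      · exact DifferentiableAt.mul (by fun_prop) (DifferentiableAt.log (by fun_prop) hz0.ne')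
    · intro z hz
      rw [interior_Ici] at hz
      have hz0 : 0 < z := hz
      have hNz : 0 < N + z := by linarith
      have hd : HasDerivAt (gch N) (log (N + z) - log z) z := by
        have h1 : HasDerivAt (fun x : ℝ => (N + x) * log (N + x)) (log (N + z) + 1) z := by
          have := (Real.hasDerivAt_mul_log hNz.ne').comp_const_add N z
          exact this
        have h2 := Real.hasDerivAt_mul_log hz0.ne'
        have h3 := (h1.sub_const (N * log N)).sub h2
        refine h3.congr_deriv ?_
        ring
      rw [hd.deriv]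
      have := Real.log_le_log hz0 (by linarith : z ≤ N + z)
      linarith
  exact hmono hx (hx.trans hxy) hxy

theorem Gch_hasDeriv (N : ℝ) (hN : 0 < N) (x : ℝ) (hx : 0 < x) : HasDerivAt (Gch N) (gch N x) x := by
  have hNx : 0 < N + x := by linarith
  have h1 : HasDerivAt (fun x : ℝ => N + x) 1 x := by simpa using (hasDerivAt_id x).const_add N
  have h2 : HasDerivAt (fun x : ℝ => (N + x) ^ 2 / 2) (N + x) x := by
    have := (h1.pow 2).div_const 2
    refine this.congr_deriv ?_
    norm_num
  have h3 : HasDerivAt (fun x : ℝ => log (N + x)) (1 / (N + x)) x := by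
    have := h1.log hNx.ne'
    simpa using this
  have h4 := h2.mul h3
  have h5 : HasDerivAt (fun x : ℝ => (N ^ 2 / 2 + N * x) * log N) (N * log N) x := by
    have := (((hasDerivAt_id x).const_mul N).const_add (N ^ 2 / 2)).mul_const (log N)
    simpa using this
  have h6 : HasDerivAt (fun x : ℝ => x ^ 2 / 2) x x := by
    have := ((hasDerivAt_id x).pow 2).div_const 2
    refine this.congr_deriv ?_
    simp
  have h7 : HasDerivAt (fun x : ℝ => log x) (1 / x) x := by
    simpa using Real.hasDerivAt_log hx.ne'
  have h8 := h6.mul h7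
  have h9 : HasDerivAt (fun x : ℝ => N * x / 2) (N / 2) x := by
    have := ((hasDerivAt_id x).const_mul N).div_const 2
    simpa using this
  have h10 := ((h4.sub h5).sub h8).sub h9
  refine h10.congr_deriv ?_
  unfold gch
  field_simp
  ring

theorem Gch_step (N : ℝ) (hN : 0 < N) (x : ℝ) (hx : 0 ≤ x) : gch N x ≤ Gch N (x + 1) - Gch N x := by
  have hcont : ContinuousOn (Gch N) (Set.Icc x (x + 1)) := by
    unfold Gch
    have h1 : Continuous (fun x : ℝ => x * log x) := continuous_mul_log
    have h2 : Continuous (fun x : ℝ => (N + x) * log (N + x)) := h1.comp (by fun_prop)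
    have h3 : Continuous (fun x : ℝ => (N + x) ^ 2 / 2 * log (N + x)) := by
      have : (fun x : ℝ => (N + x) ^ 2 / 2 * log (N + x)) = fun x => (N + x) / 2 * ((N + x) * log (N + x)) := by
        ext; ring
      rw [this]
      exact Continuous.mul (by fun_prop) h2
    have h4 : Continuous (fun x : ℝ => x ^ 2 / 2 * log x) := by
      have : (fun x : ℝ => x ^ 2 / 2 * log x) = fun x => x / 2 * (x * log x) := by
        ext; ring
      rw [this]
      exact Continuous.mul (by fun_prop) h1
    exact (((h3.sub (by fun_prop)).sub h4).sub (by fun_prop)).continuousOn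
  obtain ⟨z, hz, hze⟩ := exists_hasDerivAt_eq_slope (Gch N) (gch N) (by linarith : x < x + 1) hcont
    (fun z hz => Gch_hasDeriv N hN z (by linarith [hz.1]))
  have h1 : gch N z = Gch N (x + 1) - Gch N x := by
    rw [hze]
    ring
  rw [← h1]
  exact gch_mono N hN x z hx hz.1.le

/-- `∑_{j<M} log C(N+j, j) ≤ Gch N M`, where
`Gch N M = (N+M)^2/2 log (N+M) - (N^2/2 + N M) log N - M^2/2 log M - N M/2`. -/
theorem sum_log_choose_le (N M : ℕ) (hN : 1 ≤ N) :
    ∑ j ∈ range M, log ((N + j).choose j : ℝ) ≤ Gch N M := by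
  have hN0 : (0 : ℝ) < N := by exact_mod_cast hN
  induction M with
  | zero => simp [Gch]
  | succ M ih =>
    rw [sum_range_succ]
    have h1 := log_choose_le N M hN
    have h2 := Gch_step N hN0 M (Nat.cast_nonneg M)
    push_cast
    linarith

/-- homogeneity: `Gch (s a) (s b) = s^2 Gch a b` -/
theorem Gch_homog (s a b : ℝ) (hs : 0 < s) (ha : 0 < a) (hb : 0 < b) :
    Gch (s * a) (s * b) = s ^ 2 * Gch a b := by
  unfold Gch
  have e : s * a + s * b = s * (a + b) := by ring
  rw [e, Real.log_mul hs.ne' (by linarith : a + b ≠ 0), Real.log_mul hs.ne' ha.ne',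
    Real.log_mul hs.ne' hb.ne']
  ring

end Pool.Agent.D23
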