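import Mathlib
import Pool.Agent.D23.ArchDet
import Pool.Agent.D23.ChooseSum

/-! Logarithmic form of the archimedean determinant bound: `m = μ n`, `θ n - K ≤ M ≤ θ n`. -/

open Real Finset

namespace Pool.Agent.D23

/-- the constant in front of `n^2` -/
noncomputable def archPsi (μ θ : ℕ) (β : ℝ) : ℝ :=
  θ * (β + 2 * μ * log μ - 2 * μ) + Gch (2 * μ) θ - 2 * θ ^ 2 * log 2

theorem log_fact_upper (m : ℕ) (hm : 1 ≤ m) :
    Real.log (m.factorial : ℝ) ≤ (m : ℝ) * Real.log m - m + Real.log m + 1 := by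
  induction m, hm using Nat.le_induction with
  | base => simp
  | succ m hm ih =>
    rw [Nat.factorial_succ]
    push_cast
    have hm' : (0 : ℝ) < m := by exact_mod_cast hm
    have hf : (0 : ℝ) < (m.factorial : ℝ) := by exact_mod_cast m.factorial_pos
    rw [Real.log_mul (by positivity) hf.ne']
    have h2 : 1 / ((m : ℝ) + 1) ≤ Real.log (m + 1) - Real.log m := by
      have h := Real.one_sub_inv_le_log_of_pos (x := ((m : ℝ) + 1) / m) (by positivity)
      rw [Real.log_div (by positivity) hm'.ne'] at h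
      have h3 : 1 - (((m : ℝ) + 1) / m)⁻¹ = 1 / ((m : ℝ) + 1) := by
        rw [inv_div]; field_simp; ring
      linarith only [h, h3]
    have h3 : 1 ≤ ((m : ℝ) + 1) * (Real.log (m + 1) - Real.log m) := by
      have := mul_le_mul_of_nonneg_left h2 (show (0 : ℝ) ≤ (m : ℝ) + 1 by positivity)
      have h4 : ((m : ℝ) + 1) * (1 / ((m : ℝ) + 1)) = 1 := by field_simp
      linarith only [this, h4]
    linarith only [ih, h3]

theorem log_fact_le_mul (M : ℕ) : Real.log (M.factorial : ℝ) ≤ M * Real.log M := by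
  rcases Nat.eq_zero_or_pos M with rfl | h
  · simp
  · have hM : (0 : ℝ) < M := by exact_mod_cast h
    have hf : (0 : ℝ) < (M.factorial : ℝ) := by exact_mod_cast M.factorial_pos
    have h1 : (M.factorial : ℝ) ≤ (M : ℝ) ^ M := by exact_mod_cast M.factorial_le_pow
    have := Real.log_le_log hf h1
    rwa [Real.log_pow] at this

/-- `log (a n + b) ≤ log (a+b) + log (n+1)` -/
theorem log_lin_le (a b n : ℕ) (ha : 1 ≤ a) : Real.log ((a : ℝ) * n + b) ≤ Real.log ((a : ℝ) + b) + Real.log ((n : ℝ) + 1) := by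
  have ha' : (1 : ℝ) ≤ a := by exact_mod_cast ha
  have hb : (0 : ℝ) ≤ b := Nat.cast_nonneg b
  have hn : (0 : ℝ) ≤ n := Nat.cast_nonneg n
  rw [← Real.log_mul (by positivity) (by positivity)]
  rcases Nat.eq_zero_or_pos (a * n + b) with h | h
  · have h' : (a : ℝ) * n + b = 0 := by exact_mod_cast h
    rw [h', Real.log_zero]
    exact Real.log_nonneg (by nlinarith only [ha', h'])
  · have h' : (0 : ℝ) < (a : ℝ) * n + b := by exact_mod_cast h
    exact Real.log_le_log h' (by nlinarith only [ha'])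

theorem sum_log_choose_succ (m M T : ℕ) (hm : 1 ≤ m) (hMT : M ≤ T) :
    ∑ j ∈ range M, Real.log ((2 * m + 1 + j).choose j : ℝ) ≤
      Gch ((2 * m : ℕ) : ℝ) T + T * Real.log ((2 * m + 1 + T : ℕ) : ℝ) := by
  have h1 : ∀ j ∈ range T, Real.log ((2 * m + 1 + j).choose j : ℝ) ≤
      Real.log ((2 * m + j).choose j : ℝ) + Real.log ((2 * m + 1 + T : ℕ) : ℝ) := by
    intro j hj
    have hj' := mem_range.mp hj
    have hc0 : (0 : ℝ) < ((2 * m + j).choose j : ℝ) := by
      exact_mod_cast Nat.choose_pos (Nat.le_add_left j _)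
    have hc1 : (0 : ℝ) < ((2 * m + 1 + j).choose j : ℝ) := by
      exact_mod_cast Nat.choose_pos (Nat.le_add_left j _)
    rw [← Real.log_mul hc0.ne' (by positivity)]
    refine Real.log_le_log hc1 ?_
    -- C(N+1+j, j) (N+1) = C(N+j,j) (N+1+j)
    have h2 := Nat.add_one_mul_choose_eq (2 * m + j) (2 * m)
    -- (N+j+1) * C(N+j, N) = C(N+j+1, N+1) * (N+1)
    have e1 : (2 * m + j).choose (2 * m) = (2 * m + j).choose j := by
      rw [← Nat.choose_symm_add]
    have e2 : (2 * m + j).succ.choose (2 * m).succ = (2 * m + 1 + j).choose j := by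
      have : (2 * m + j).succ = (2 * m).succ + j := by omega
      rw [this, Nat.choose_symm_add]
    rw [e1, e2] at h2
    have h3 : (2 * m + 1 + j).choose j ≤ (2 * m + j).choose j * (2 * m + 1 + T) := by
      calc (2 * m + 1 + j).choose j ≤ (2 * m + 1 + j).choose j * (2 * m).succ :=
            Nat.le_mul_of_pos_right _ (Nat.succ_pos _)
        _ = (2 * m + j).succ * (2 * m + j).choose j := h2.symm
        _ = (2 * m + j).choose j * (2 * m + j).succ := mul_comm _ _
        _ ≤ (2 * m + j).choose j * (2 * m + 1 + T) := Nat.mul_le_mul_left _ (by omega)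
    exact_mod_cast h3
  calc ∑ j ∈ range M, Real.log ((2 * m + 1 + j).choose j : ℝ)
      ≤ ∑ j ∈ range T, Real.log ((2 * m + 1 + j).choose j : ℝ) := by
        refine sum_le_sum_of_subset_of_nonneg (range_subset_range.mpr hMT) (fun j _ _ => ?_)
        refine Real.log_nonneg ?_
        have : 1 ≤ (2 * m + 1 + j).choose j := Nat.choose_pos (Nat.le_add_left j _)
        exact_mod_cast this
    _ ≤ ∑ j ∈ range T, (Real.log ((2 * m + j).choose j : ℝ) + Real.log ((2 * m + 1 + T : ℕ) : ℝ)) :=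
        sum_le_sum h1
    _ = ∑ j ∈ range T, Real.log ((2 * m + j).choose j : ℝ) + T * Real.log ((2 * m + 1 + T : ℕ) : ℝ) := by
        rw [sum_add_distrib, sum_const, card_range, nsmul_eq_mul]
    _ ≤ _ := by
        have := sum_log_choose_le (2 * m) T (by omega)
        linarith only [this]

set_option maxHeartbeats 4000000 in
/-- Logarithmic archimedean bound. -/
theorem arch_log (μ θ K : ℕ) (hμ : 1 ≤ μ) (hθ : 1 ≤ θ) (β KB : ℝ) (hKB : 0 ≤ KB) (B : ℕ → ℝ)
    (hB0 : ∀ n, 1 ≤ n → 0 < B n)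
    (hB : ∀ n : ℕ, 1 ≤ n → Real.log (B n) ≤ β * n - 2 * μ * n * Real.log n + KB * Real.log (n + 1)) :
    ∃ C : ℝ, 0 ≤ C ∧ ∀ n : ℕ, 1 ≤ n → ∀ M : ℕ, M ≤ θ * n → θ * n ≤ M + K →
      (M.factorial : ℝ) * ((B n) ^ M * ∏ j ∈ range M, hn (μ * n) j) ≤
        (∏ j ∈ range M, ((j.factorial : ℝ)) ^ 2) *
          Real.exp ((n : ℝ) ^ 2 * archPsi μ θ β + C * (n * Real.log (n + 1))) := by
  set u : ℝ := β + 2 * μ * log μ - 2 * μ with hu
  -- constants
  set c1 : ℝ := KB + 2 * (log π + 2 * log (2 * μ + 1) + 1) + 2 with hc1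
  set c2 : ℝ := 2 * log θ + 1 with hc2
  set c3 : ℝ := 2 * log (2 * μ + θ + 1) + 1 with hc3
  have hμ' : (1 : ℝ) ≤ μ := by exact_mod_cast hμ
  have hθ' : (1 : ℝ) ≤ θ := by exact_mod_cast hθ
  have hlogπ : 0 ≤ log π := Real.log_nonneg (by linarith only [Real.pi_gt_three])
  have hl1 : 0 ≤ log (2 * (μ : ℝ) + 1) := Real.log_nonneg (by linarith only [hμ'])
  have hl2 : 0 ≤ log (θ : ℝ) := Real.log_nonneg hθ'
  have hl3 : 0 ≤ log (2 * (μ : ℝ) + θ + 1) := Real.log_nonneg (by linarith only [hμ', hθ'])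
  have hlog2 : 0.6931471803 < log 2 := Real.log_two_gt_d9
  refine ⟨θ * c2 + (θ * c1 + K * (2 * |u| + c1)) + θ * c3 + 2 * (log 16 * (K + 1) * θ), by
    have : 0 ≤ log (16 : ℝ) := Real.log_nonneg (by norm_num)
    positivity, ?_⟩
  intro n hn1 M hM1 hM2
  have hn' : (1 : ℝ) ≤ n := by exact_mod_cast hn1
  have hn0 : (0 : ℝ) < n := by linarith only [hn']
  set L : ℝ := Real.log (n + 1) with hL
  have hLhalf : 1 / 2 ≤ L := by
    have : Real.log 2 ≤ L := Real.log_le_log (by norm_num) (by linarith only [hn'])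
    linarith only [hlog2, this]
  have hL0 : 0 ≤ L := by linarith only [hLhalf]
  have hlogn : Real.log n ≤ L := Real.log_le_log hn0 (by linarith)
  have hlogn0 : 0 ≤ Real.log n := Real.log_nonneg hn'
  have hMθ : (M : ℝ) ≤ θ * n := by exact_mod_cast hM1
  have hMK : (θ : ℝ) * n ≤ M + K := by exact_mod_cast hM2
  have hM0 : (0 : ℝ) ≤ M := Nat.cast_nonneg M
  have hK0 : (0 : ℝ) ≤ K := Nat.cast_nonneg K
  -- m
  set m : ℕ := μ * n with hm
  have hm1 : 1 ≤ m := Nat.mul_pos hμ hn1
  have hmc : (m : ℝ) = μ * n := by rw [hm]; push_cast; ring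
  -- T1
  have T1 : Real.log (M.factorial : ℝ) ≤ (θ * c2) * (n * L) := by
    refine (log_fact_le_mul M).trans ?_
    rcases Nat.eq_zero_or_pos M with h0 | h0
    · rw [h0]
      simp only [Nat.cast_zero, zero_mul]
      positivity
    · have hMpos : (0 : ℝ) < M := by exact_mod_cast h0
      have h1 : Real.log M ≤ Real.log θ + L := by
        have h2 : Real.log M ≤ Real.log (θ * n) := Real.log_le_log hMpos hMθ
        rw [Real.log_mul (by linarith only [hθ']) hn0.ne'] at h2
        linarith only [hlogn, h2]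
      have h1' : Real.log M ≤ c2 * L := by
        rw [hc2]
        nlinarith only [hl2, hLhalf, h1]
      have h3 : 0 ≤ c2 * L := by positivity
      calc (M : ℝ) * Real.log M ≤ M * (c2 * L) := by gcongr
        _ ≤ (θ * n) * (c2 * L) := by gcongr
        _ = _ := by ring
  -- T2
  have hBn := hB0 n hn1
  have T2 : Real.log (B n) + (Real.log π + Real.log ((2 * m + 1).factorial : ℝ) - (m + 1) * Real.log 4) ≤
      n * u + c1 * L := by
    have h1 := hB n hn1
    have h2 := log_fact_upper (2 * m) (by omega)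
    have hf : (0 : ℝ) < ((2 * m).factorial : ℝ) := by exact_mod_cast Nat.factorial_pos _
    have h3 : Real.log ((2 * m + 1).factorial : ℝ) = Real.log ((2 * m : ℕ) + 1 : ℝ) + Real.log ((2 * m).factorial : ℝ) := by
      rw [Nat.factorial_succ]
      push_cast
      rw [Real.log_mul (by positivity) hf.ne']
    have h4 : Real.log ((2 * m : ℕ) + 1 : ℝ) ≤ Real.log (2 * μ + 1) + L := by
      have := log_lin_le (2 * μ) 1 n (by omega)
      push_cast at this ⊢
      rw [hmc]
      have e : (2 : ℝ) * (μ * n) + 1 = 2 * μ * n + 1 := by ring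
      rw [e]
      exact this
    have h5 : Real.log ((2 * m : ℕ) : ℝ) ≤ Real.log (2 * μ + 1) + L := by
      refine le_trans (Real.log_le_log ?_ ?_) h4
      · have : 0 < 2 * m := by omega
        exact_mod_cast this
      · linarith
    have h6 : Real.log ((2 * m : ℕ) : ℝ) = Real.log 2 + Real.log μ + Real.log n := by
      push_cast
      rw [hmc, Real.log_mul (by norm_num) (by positivity), Real.log_mul (by positivity) hn0.ne']
      ring
    have h7 : ((2 * m : ℕ) : ℝ) * Real.log ((2 * m : ℕ) : ℝ) =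
        2 * μ * n * (Real.log 2 + Real.log μ) + 2 * μ * n * Real.log n := by
      rw [h6]
      push_cast
      rw [hmc]
      ring
    have h8 : Real.log (4 : ℝ) = 2 * Real.log 2 := by
      rw [show (4 : ℝ) = 2 ^ 2 by norm_num, Real.log_pow]
      norm_num
    have h9 : (((2 * m : ℕ)) : ℝ) = 2 * μ * n := by push_cast; rw [hmc]; ring
    rw [h3, h8, hmc]
    rw [h7, h9] at h2
    have h10 : Real.log π + 2 * Real.log (2 * μ + 1) + 1 ≤
        (Real.log π + 2 * Real.log (2 * μ + 1) + 1) * (2 * L) :=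
      le_mul_of_one_le_right (by positivity) (by linarith only [hLhalf])
    rw [hc1, hu]
    have h12 : 0 ≤ Real.log 2 := by linarith only [hlog2]
    rw [h9] at h5 h4
    have h13 : Real.log (B n) + (Real.log π + (Real.log (2 * μ * n + 1) + Real.log ((2 * m).factorial : ℝ)) -
        (μ * n + 1) * (2 * Real.log 2)) ≤ n * (β + 2 * μ * log μ - 2 * μ) + (KB * L +
        (Real.log π + 2 * Real.log (2 * μ + 1) + 1) * (2 * L) + 2 * L) := by
      have e1 : (μ * n + 1 : ℝ) * (2 * Real.log 2) = 2 * μ * n * Real.log 2 + 2 * Real.log 2 := by ring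
      have e2 : (2 : ℝ) * μ * n * (Real.log 2 + Real.log μ) = 2 * μ * n * Real.log 2 + 2 * μ * n * Real.log μ := by ring
      have e3 : (n : ℝ) * (β + 2 * μ * log μ - 2 * μ) = β * n + 2 * μ * n * Real.log μ - 2 * μ * n := by ring
      rw [e1, e3]
      rw [e2] at h2
      linarith only [hlog2, h1, h2, h4, h5, h10]
    have e4 : (KB + 2 * (Real.log π + 2 * Real.log (2 * μ + 1) + 1) + 2) * L = KB * L +
        (Real.log π + 2 * Real.log (2 * μ + 1) + 1) * (2 * L) + 2 * L := by ring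
    rw [e4]
    first
    | exact h13
    | (rw [h9]; exact h13)
  -- T3
  set X : ℝ := Real.log (B n) + (Real.log π + Real.log ((2 * m + 1).factorial : ℝ) - (m + 1) * Real.log 4) with hX
  have hc1' : 0 ≤ c1 := by positivity
  have T3 : M * X ≤ (n : ℝ) ^ 2 * (θ * u) + (θ * c1 + K * (2 * |u| + c1)) * (n * L) := by
    set Y : ℝ := n * u + c1 * L with hY
    have h1 : (M : ℝ) * X ≤ M * Y := by gcongr
    have h2 : (M : ℝ) * Y ≤ θ * n * Y + K * |Y| := by
      have h3 : -((θ * n - M) * Y) ≤ K * |Y| := by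
        have h4 : |(θ * n - M) * Y| ≤ K * |Y| := by
          rw [abs_mul, abs_of_nonneg (by linarith only [hMθ] : (0 : ℝ) ≤ θ * n - M)]
          gcongr
          linarith only [hMK]
        linarith only [h4, neg_abs_le ((θ * n - M) * Y)]
      linarith only [h3]
    have h5 : |Y| ≤ (2 * |u| + c1) * (n * L) := by
      rw [hY]
      refine (abs_add_le _ _).trans ?_
      rw [abs_mul, abs_of_pos hn0, abs_of_nonneg (by positivity : 0 ≤ c1 * L)]
      have h6 : (n : ℝ) * |u| ≤ 2 * |u| * (n * L) := by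
        have : 1 ≤ 2 * L := by linarith only [hLhalf]
        have h7 : 0 ≤ (n : ℝ) * |u| := by positivity
        nlinarith only [hLhalf, h7]
      have h8 : c1 * L ≤ c1 * (n * L) := by
        have : L ≤ n * L := by nlinarith only [hn', hLhalf]
        gcongr
      linarith only [h6, h8]
    have h9 : (K : ℝ) * |Y| ≤ K * ((2 * |u| + c1) * (n * L)) := by gcongr
    calc (M : ℝ) * X ≤ θ * n * Y + K * |Y| := h1.trans h2
      _ ≤ θ * n * Y + K * ((2 * |u| + c1) * (n * L)) := by linarith only [h9]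
      _ = _ := by rw [hY]; ring
  -- T4
  have T4 : ∑ j ∈ range M, Real.log ((2 * m + 1 + j).choose j : ℝ) ≤
      (n : ℝ) ^ 2 * Gch (2 * μ) θ + (θ * c3) * (n * L) := by
    refine (sum_log_choose_succ m M (θ * n) hm1 hM1).trans ?_
    have h1 : Gch ((2 * m : ℕ) : ℝ) ((θ * n : ℕ) : ℝ) = (n : ℝ) ^ 2 * Gch (2 * μ) θ := by
      rw [← Gch_homog (n : ℝ) (2 * μ) θ hn0 (by linarith only [hμ']) (by linarith only [hθ'])]
      congr 1
      · push_cast; rw [hmc]; ring
      · push_cast; ring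
    have h2 : Real.log ((2 * m + 1 + θ * n : ℕ) : ℝ) ≤ c3 * L := by
      have h3 := log_lin_le (2 * μ + θ) 1 n (by omega)
      have e : ((2 * m + 1 + θ * n : ℕ) : ℝ) = ((2 * μ + θ : ℕ) : ℝ) * n + (1 : ℕ) := by
        push_cast; rw [hmc]; ring
      rw [e]
      refine h3.trans ?_
      push_cast
      rw [hc3]
      nlinarith only [hl3, hLhalf]
    rw [h1]
    have h4 : ((θ * n : ℕ) : ℝ) * Real.log ((2 * m + 1 + θ * n : ℕ) : ℝ) ≤ (θ * c3) * (n * L) := by
      calc ((θ * n : ℕ) : ℝ) * Real.log ((2 * m + 1 + θ * n : ℕ) : ℝ) ≤ ((θ * n : ℕ) : ℝ) * (c3 * L) := by gcongr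
        _ = _ := by push_cast; ring
    linarith only [h4]
  -- T5
  have T5 : -(Real.log 16 * ∑ j ∈ range M, (j : ℝ)) ≤
      -((n : ℝ) ^ 2 * (2 * θ ^ 2 * log 2)) + 2 * (log 16 * (K + 1) * θ) * (n * L) := by
    have h1 : ∑ j ∈ range M, (j : ℝ) = (M : ℝ) * (M - 1) / 2 := by
      have h := Finset.sum_range_id_mul_two M
      have h2 : ((∑ j ∈ range M, j : ℕ) : ℝ) * 2 = (M : ℝ) * (M - 1) := by
        rcases Nat.eq_zero_or_pos M with h0 | h0
        · rw [h0]; simp
        · have h3 : ((M - 1 : ℕ) : ℝ) = (M : ℝ) - 1 := by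
            rw [Nat.cast_sub h0]; simp
          rw [← h3]
          exact_mod_cast h
      push_cast at h2
      linarith only [h2]
    have h16 : Real.log (16 : ℝ) = 4 * Real.log 2 := by
      rw [show (16 : ℝ) = 2 ^ 4 by norm_num, Real.log_pow]
      norm_num
    have h2 : (θ * n : ℝ) ^ 2 / 2 - (K + 1) * (θ * n) ≤ (M : ℝ) * (M - 1) / 2 := by
      nlinarith only [hθ', hn', hMθ, hMK]
    rw [h1, h16]
    have h3 : (K + 1 : ℝ) * (θ * n) ≤ 2 * ((K + 1) * (θ * n)) * L := by
      have h5 : 1 ≤ 2 * L := by linarith only [hLhalf]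
      have h6 : 0 ≤ (K + 1 : ℝ) * (θ * n) := by positivity
      nlinarith only [hLhalf, h6]
    have hl20 : 0 ≤ log 2 := by linarith only [hlog2]
    linarith only [h2, h3, mul_le_mul_of_nonneg_left h2 (by positivity : 0 ≤ 4 * log 2), mul_le_mul_of_nonneg_left h3 (by positivity : 0 ≤ 4 * log 2)]
  -- assembly
  have hfac0 : (0 : ℝ) < ∏ j ∈ range M, ((j.factorial : ℝ)) ^ 2 :=
    Finset.prod_pos (fun j _ => by
      have : (0 : ℝ) < (j.factorial : ℝ) := by exact_mod_cast j.factorial_pos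
      positivity)
  have hpf : (0 : ℝ) < ((2 * m + 1).factorial : ℝ) := by exact_mod_cast Nat.factorial_pos _
  have hMf : (0 : ℝ) < (M.factorial : ℝ) := by exact_mod_cast M.factorial_pos
  have hprod : (0 : ℝ) < ∏ j ∈ range M, (((2 * m + 1 + j).choose j : ℝ) / 16 ^ j) :=
    Finset.prod_pos (fun j _ => by
      have : (0 : ℝ) < ((2 * m + 1 + j).choose j : ℝ) := by
        exact_mod_cast Nat.choose_pos (Nat.le_add_left j _)
      positivity)
  rw [prod_hn]
  have key : (M.factorial : ℝ) * ((B n) ^ M * ((π * (2 * m + 1).factorial / 4 ^ (m + 1)) ^ M *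
      (∏ j ∈ range M, ((j.factorial : ℝ)) ^ 2) *
      ∏ j ∈ range M, (((2 * m + 1 + j).choose j : ℝ) / 16 ^ j))) =
      (∏ j ∈ range M, ((j.factorial : ℝ)) ^ 2) * ((M.factorial : ℝ) *
        (B n * (π * (2 * m + 1).factorial / 4 ^ (m + 1))) ^ M *
        ∏ j ∈ range M, (((2 * m + 1 + j).choose j : ℝ) / 16 ^ j)) := by
    rw [mul_pow]
    ring
  rw [key]
  refine mul_le_mul_of_nonneg_left ?_ hfac0.le
  have hbase : (0 : ℝ) < B n * (π * (2 * m + 1).factorial / 4 ^ (m + 1)) := by positivity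
  rw [← Real.log_le_iff_le_exp (by positivity)]
  rw [Real.log_mul (by positivity) hprod.ne', Real.log_mul hMf.ne' (by positivity), Real.log_pow]
  have hlogbase : Real.log (B n * (π * (2 * m + 1).factorial / 4 ^ (m + 1))) = X := by
    rw [Real.log_mul hBn.ne' (by positivity), Real.log_div (by positivity) (by positivity),
      Real.log_mul Real.pi_ne_zero hpf.ne', Real.log_pow, hX]
    push_cast
    ring
  have hlogprod : Real.log (∏ j ∈ range M, (((2 * m + 1 + j).choose j : ℝ) / 16 ^ j)) =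
      ∑ j ∈ range M, Real.log ((2 * m + 1 + j).choose j : ℝ) - Real.log 16 * ∑ j ∈ range M, (j : ℝ) := by
    rw [Real.log_prod]
    · rw [mul_sum, ← sum_sub_distrib]
      refine sum_congr rfl (fun j _ => ?_)
      have : (0 : ℝ) < ((2 * m + 1 + j).choose j : ℝ) := by
        exact_mod_cast Nat.choose_pos (Nat.le_add_left j _)
      rw [Real.log_div this.ne' (by positivity), Real.log_pow]
      ring
    · intro j _
      have : (0 : ℝ) < ((2 * m + 1 + j).choose j : ℝ) := by
        exact_mod_cast Nat.choose_pos (Nat.le_add_left j _)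
      positivity
  rw [hlogbase, hlogprod]
  unfold archPsi
  rw [← hu]
  have e : (n : ℝ) ^ 2 * (θ * u + Gch (2 * μ) θ - 2 * θ ^ 2 * log 2) +
      (θ * c2 + (θ * c1 + K * (2 * |u| + c1)) + θ * c3 + 2 * (log 16 * (K + 1) * θ)) * (n * L) =
      (θ * c2) * (n * L) + ((n : ℝ) ^ 2 * (θ * u) + (θ * c1 + K * (2 * |u| + c1)) * (n * L)) +
      ((n : ℝ) ^ 2 * Gch (2 * μ) θ + (θ * c3) * (n * L)) +
      (-((n : ℝ) ^ 2 * (2 * θ ^ 2 * log 2)) + 2 * (log 16 * (K + 1) * θ) * (n * L)) := by ring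
  rw [e]
  linarith only [T1, T3, T4, T5]

end Pool.Agent.D23
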