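import Mathlib

/-!
# Products over half-integers: the inequality behind the pointwise domination

`R(t) = κ (t)_{2n} (t)_{3n} (t+n)_{2n} / (t+4n)_{6n}`, `κ = (6n)! / ((2n)!² (3n)!)`.
-/

open Finset

namespace Pool.Agent.D23

/-- products over half-integers -/
noncomputable def PP (a b : ℕ) (z : ℝ) : ℝ := ∏ k ∈ Ico a b, (((k : ℝ) + 1 / 2) ^ 2 + z)

lemma PP_pos (a b : ℕ) {z : ℝ} (hz : 0 ≤ z) : 0 < PP a b z :=
  prod_pos fun k _ => by positivity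

lemma PP_mul {a b c : ℕ} (hab : a ≤ b) (hbc : b ≤ c) (z : ℝ) : PP a b z * PP b c z = PP a c z :=
  prod_Ico_consecutive _ hab hbc

lemma sum_half_sq (n : ℕ) : ∑ k ∈ range n, ((k : ℝ) + 1 / 2) ^ 2 = (n : ℝ) ^ 3 / 3 - n / 12 := by
  induction n with
  | zero => simp
  | succ n ih =>
    rw [sum_range_succ, ih]
    push_cast
    ring

/-- arithmetic and geometric mean -/
lemma PP_upper (n : ℕ) (hn : 1 ≤ n) (z : ℝ) (hz : 0 ≤ z) : PP 0 n z ≤ ((n : ℝ) ^ 2 / 3 + z) ^ n := by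
  have hn' : (1 : ℝ) ≤ n := by exact_mod_cast hn
  set A : ℝ := (n : ℝ) ^ 2 / 3 + z with hA
  have hA0 : 0 < A := by positivity
  have h1 : ∀ k ∈ range n, ((k : ℝ) + 1 / 2) ^ 2 + z
      ≤ A * Real.exp ((((k : ℝ) + 1 / 2) ^ 2 + z) / A - 1) := by
    intro k _
    have h2 := Real.add_one_le_exp ((((k : ℝ) + 1 / 2) ^ 2 + z) / A - 1)
    rw [sub_add_cancel] at h2
    calc ((k : ℝ) + 1 / 2) ^ 2 + z = A * ((((k : ℝ) + 1 / 2) ^ 2 + z) / A) := by field_simp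
      _ ≤ _ := mul_le_mul_of_nonneg_left h2 hA0.le
  have h3 : PP 0 n z ≤ ∏ k ∈ range n, A * Real.exp ((((k : ℝ) + 1 / 2) ^ 2 + z) / A - 1) := by
    rw [PP, ← range_eq_Ico]
    exact prod_le_prod (fun k _ => by positivity) h1
  refine h3.trans ?_
  rw [prod_mul_distrib, prod_const, card_range, ← Real.exp_sum]
  have h4 : ∑ k ∈ range n, ((((k : ℝ) + 1 / 2) ^ 2 + z) / A - 1) ≤ 0 := by
    rw [sum_sub_distrib, ← sum_div, sum_add_distrib, sum_half_sq, sum_const, sum_const, card_range,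
      nsmul_eq_mul, nsmul_eq_mul, mul_one, sub_nonpos, div_le_iff₀ hA0, hA]
    have : (n : ℝ) * ((n : ℝ) ^ 2 / 3 + z) = (n : ℝ) ^ 3 / 3 + n * z := by ring
    rw [this]
    have : (0 : ℝ) ≤ n / 12 := by positivity
    linarith
  have h5 : Real.exp (∑ k ∈ range n, ((((k : ℝ) + 1 / 2) ^ 2 + z) / A - 1)) ≤ 1 := by
    rw [Real.exp_le_one_iff]
    exact h4
  calc A ^ n * Real.exp (∑ k ∈ range n, ((((k : ℝ) + 1 / 2) ^ 2 + z) / A - 1)) ≤ A ^ n * 1 :=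
        mul_le_mul_of_nonneg_left h5 (by positivity)
    _ = A ^ n := mul_one _

/-- the geometric mean is superadditive -/
lemma superadd {ι : Type*} (s : Finset ι) (a : ι → ℝ) (ha : ∀ i ∈ s, 0 < a i) (g z q : ℝ)
    (hg : 0 < g) (hz : 0 ≤ z) (hq : 0 < q) (hq1 : q ≤ 1) (h : q * g ^ s.card ≤ ∏ i ∈ s, a i) :
    q * (g + z) ^ s.card ≤ ∏ i ∈ s, (a i + z) := by
  set t : ℝ := g / (g + z) with ht
  have hgz : 0 < g + z := by linarith
  have ht0 : 0 < t := by positivity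
  have ht1 : t ≤ 1 := by
    rw [ht, div_le_one hgz]
    linarith
  have h1 : ∀ i ∈ s, (g + z) * (a i / g) ^ t ≤ a i + z := by
    intro i hi
    have h2 := Real.geom_mean_le_arith_mean2_weighted ht0.le (by linarith : 0 ≤ 1 - t)
      (div_nonneg (ha i hi).le hg.le) zero_le_one (by ring : t + (1 - t) = 1)
    rw [Real.one_rpow, mul_one, mul_one] at h2
    calc (g + z) * (a i / g) ^ t ≤ (g + z) * (t * (a i / g) + (1 - t)) :=
          mul_le_mul_of_nonneg_left h2 hgz.le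
      _ = a i + z := by
          rw [ht]
          field_simp
          ring
  have h3 : ∏ i ∈ s, (g + z) * (a i / g) ^ t ≤ ∏ i ∈ s, (a i + z) := by
    apply prod_le_prod _ h1
    intro i hi
    have := ha i hi
    positivity
  refine le_trans ?_ h3
  rw [prod_mul_distrib, prod_const, Real.finsetProd_rpow s (fun i => a i / g)
    (fun i hi => (div_pos (ha i hi) hg).le) t, mul_comm]
  apply mul_le_mul_of_nonneg_left _ (by positivity)
  have h4 : q ≤ ∏ i ∈ s, a i / g := by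
    rw [prod_div_distrib, prod_const, le_div_iff₀ (by positivity)]
    exact h
  calc q = q ^ (1 : ℝ) := (Real.rpow_one q).symm
    _ ≤ q ^ t := Real.rpow_le_rpow_of_exponent_ge hq hq1 ht1
    _ ≤ (∏ i ∈ s, a i / g) ^ t := Real.rpow_le_rpow hq.le h4 ht0.le

lemma exp_pow_ge (b : ℕ) (hb : 1 ≤ b) : ((b : ℝ) + 1) ^ b ≤ (b : ℝ) ^ b * Real.exp 1 := by
  have hb' : (0 : ℝ) < b := by exact_mod_cast hb
  have h1 : (b : ℝ) + 1 ≤ b * Real.exp (1 / b) := by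
    have := Real.add_one_le_exp (1 / (b : ℝ))
    calc (b : ℝ) + 1 = b * (1 / b + 1) := by field_simp; ring
      _ ≤ _ := mul_le_mul_of_nonneg_left this hb'.le
  calc ((b : ℝ) + 1) ^ b ≤ (b * Real.exp (1 / b)) ^ b := pow_le_pow_left₀ (by positivity) h1 b
    _ = (b : ℝ) ^ b * Real.exp 1 := by
        rw [mul_pow, ← Real.exp_nat_mul]
        congr 2
        field_simp

/-- products of squares of half-integers from below -/
lemma half_lower (a b : ℕ) (ha : 1 ≤ a) (hab : a ≤ b) :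
    (a : ℝ) / b * ((b : ℝ) ^ b / (a : ℝ) ^ a * Real.exp ((a : ℝ) - b)) ^ 2
      ≤ ∏ k ∈ Ico a b, ((k : ℝ) + 1 / 2) ^ 2 := by
  have ha' : (0 : ℝ) < a := by exact_mod_cast ha
  induction b, hab using Nat.le_induction with
  | base =>
    rw [Ico_self, prod_empty, sub_self, Real.exp_zero, div_self ha'.ne', div_self (by positivity)]
    norm_num
  | succ b hb ih =>
    have hb1 : 1 ≤ b := ha.trans hb
    have hb' : (0 : ℝ) < b := by exact_mod_cast hb1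
    rw [prod_Ico_succ_top hb]
    have h1 := exp_pow_ge b hb1
    have h2 : (((b : ℝ) + 1) ^ b) ^ 2 ≤ ((b : ℝ) ^ b * Real.exp 1) ^ 2 :=
      pow_le_pow_left₀ (by positivity) h1 2
    have h3 : ((b + 1 : ℕ) : ℝ) = (b : ℝ) + 1 := by push_cast; ring
    rw [h3]
    have h4 : Real.exp ((a : ℝ) - (b + 1)) = Real.exp ((a : ℝ) - b) * (Real.exp 1)⁻¹ := by
      rw [← Real.exp_neg, ← Real.exp_add]
      congr 1
      ring
    rw [h4]
    set e := Real.exp 1 with he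
    have he0 : 0 < e := Real.exp_pos 1
    set w := Real.exp ((a : ℝ) - b) with hw
    have hw0 : 0 < w := Real.exp_pos _
    have h5 : (b : ℝ) * (b + 1) ≤ ((b : ℝ) + 1 / 2) ^ 2 := by nlinarith
    calc (a : ℝ) / (b + 1) * (((b : ℝ) + 1) ^ (b + 1) / (a : ℝ) ^ a * (w * e⁻¹)) ^ 2
        = (a : ℝ) * (b + 1) * (w / ((a : ℝ) ^ a)) ^ 2 * ((((b : ℝ) + 1) ^ b) ^ 2 * (e⁻¹) ^ 2) := by
          have e5 : ((b : ℝ) + 1) ^ (b + 1) = (b + 1) * (b + 1) ^ b := by ring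
          rw [e5]
          field_simp
      _ ≤ (a : ℝ) * (b + 1) * (w / ((a : ℝ) ^ a)) ^ 2 * (((b : ℝ) ^ b * e) ^ 2 * (e⁻¹) ^ 2) := by
          apply mul_le_mul_of_nonneg_left _ (by positivity)
          exact mul_le_mul_of_nonneg_right h2 (by positivity)
      _ = ((a : ℝ) / b * ((b : ℝ) ^ b / (a : ℝ) ^ a * w) ^ 2) * (b * (b + 1)) := by
          field_simp
      _ ≤ ((a : ℝ) / b * ((b : ℝ) ^ b / (a : ℝ) ^ a * w) ^ 2) * ((b : ℝ) + 1 / 2) ^ 2 :=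
          mul_le_mul_of_nonneg_left h5 (by positivity)
      _ ≤ (∏ k ∈ Ico a b, ((k : ℝ) + 1 / 2) ^ 2) * ((b : ℝ) + 1 / 2) ^ 2 :=
          mul_le_mul_of_nonneg_right ih (by positivity)

lemma PP_lower1 (n : ℕ) (hn : 1 ≤ n) (z : ℝ) (hz : 0 ≤ z) :
    1 / 2 * (16 * ((n : ℝ) ^ 2 * Real.exp (-2)) + z) ^ n ≤ PP n (2 * n) z := by
  have hn' : (0 : ℝ) < n := by exact_mod_cast hn
  have hcard : (Ico n (2 * n)).card = n := by rw [Nat.card_Ico]; omega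
  have h := superadd (Ico n (2 * n)) (fun k => ((k : ℝ) + 1 / 2) ^ 2) (fun k _ => by positivity)
    (16 * ((n : ℝ) ^ 2 * Real.exp (-2))) z (1 / 2) (by positivity) hz (by norm_num) (by norm_num) ?_
  · rw [hcard] at h
    exact h
  · rw [hcard]
    refine le_trans (le_of_eq ?_) (half_lower n (2 * n) hn (by omega))
    push_cast
    have e1 : (n : ℝ) / (2 * n) = 1 / 2 := by field_simp
    have e2 : (2 * (n : ℝ)) ^ (2 * n) / (n : ℝ) ^ n = (4 * n) ^ n := by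
      rw [div_eq_iff (by positivity), pow_mul, ← mul_pow]
      congr 1
      ring
    have e3 : Real.exp ((n : ℝ) - 2 * n) = (Real.exp (-1)) ^ n := by
      rw [← Real.exp_nat_mul]
      congr 1
      ring
    have e4 : Real.exp (-2) = (Real.exp (-1)) ^ 2 := by
      rw [← Real.exp_nat_mul]
      norm_num
    have e5 : ∀ E : ℝ, (16 * ((n : ℝ) ^ 2 * E ^ 2)) ^ n = ((4 * (n : ℝ)) ^ n * E ^ n) ^ 2 := by
      intro E
      have e6 : 16 * ((n : ℝ) ^ 2 * E ^ 2) = (4 * (n : ℝ) * E) ^ 2 := by ring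
      rw [e6, ← mul_pow (4 * (n : ℝ)) E n, pow_right_comm]
    rw [e1, e2, e3, e4, e5]

lemma PP_lower2 (n : ℕ) (hn : 1 ≤ n) (z : ℝ) (hz : 0 ≤ z) :
    1 / 3 * (243 * ((n : ℝ) ^ 2 * Real.exp (-2)) + z) ^ (6 * n) ≤ PP (3 * n) (9 * n) z := by
  have hn' : (0 : ℝ) < n := by exact_mod_cast hn
  have hcard : (Ico (3 * n) (9 * n)).card = 6 * n := by rw [Nat.card_Ico]; omega
  have h := superadd (Ico (3 * n) (9 * n)) (fun k => ((k : ℝ) + 1 / 2) ^ 2) (fun k _ => by positivity)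
    (243 * ((n : ℝ) ^ 2 * Real.exp (-2))) z (1 / 3) (by positivity) hz (by norm_num) (by norm_num) ?_
  · rw [hcard] at h
    exact h
  · rw [hcard]
    refine le_trans (le_of_eq ?_) (half_lower (3 * n) (9 * n) (by omega) (by omega))
    push_cast
    have e1 : 3 * (n : ℝ) / (9 * n) = 1 / 3 := by
      field_simp
      norm_num
    have e2 : (9 * (n : ℝ)) ^ (9 * n) / (3 * (n : ℝ)) ^ (3 * n) = (14348907 * (n : ℝ) ^ 6) ^ n := by
      rw [div_eq_iff (by positivity), pow_mul, pow_mul, ← mul_pow]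
      congr 1
      ring
    have e3 : Real.exp (3 * (n : ℝ) - 9 * n) = ((Real.exp (-1)) ^ 6) ^ n := by
      rw [← Real.exp_nat_mul, ← Real.exp_nat_mul]
      congr 1
      push_cast
      ring
    have e4 : Real.exp (-2) = (Real.exp (-1)) ^ 2 := by
      rw [← Real.exp_nat_mul]
      norm_num
    have e5 : ∀ E : ℝ, (243 * ((n : ℝ) ^ 2 * E ^ 2)) ^ (6 * n)
        = ((14348907 * (n : ℝ) ^ 6) ^ n * (E ^ 6) ^ n) ^ 2 := by
      intro E
      have e6 : (243 * ((n : ℝ) ^ 2 * E ^ 2)) ^ 6 = (14348907 * (n : ℝ) ^ 6 * E ^ 6) ^ 2 := by ring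
      rw [pow_mul, e6, ← mul_pow (14348907 * (n : ℝ) ^ 6) (E ^ 6) n, pow_right_comm]
    rw [e1, e2, e3, e4, e5]

lemma exp_two_le : Real.exp 2 / 3 ≤ 24631 / 10000 := by
  have h1 := Real.exp_one_lt_d9
  have h2 : Real.exp 2 = (Real.exp 1) ^ 2 := by
    rw [← Real.exp_nat_mul]
    norm_num
  have h3 := Real.exp_pos 1
  rw [h2]
  nlinarith

/-- the real inequality -/
lemma poly_ineq (v : ℝ) (hv : 0 ≤ v) :
    (116600000 : ℝ) ^ 2 * (Real.exp 2 / 3 + v) ≤ (16 + v) ^ 2 * (243 + v) ^ 6 := by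
  have h1 : (116600000 : ℝ) ^ 2 * (Real.exp 2 / 3 + v) ≤ (116600000 : ℝ) ^ 2 * (24631 / 10000 + v) := by
    apply mul_le_mul_of_nonneg_left _ (by positivity)
    linarith [exp_two_le]
  have h2 : (243 : ℝ) ^ 6 + 6 * 243 ^ 5 * v + 15 * 243 ^ 4 * v ^ 2 ≤ (243 + v) ^ 6 := by
    have : (243 + v) ^ 6 = (243 : ℝ) ^ 6 + 6 * 243 ^ 5 * v + 15 * 243 ^ 4 * v ^ 2
      + (20 * 243 ^ 3 * v ^ 3 + 15 * 243 ^ 2 * v ^ 4 + 6 * 243 * v ^ 5 + v ^ 6) := by ring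
    rw [this]
    have : 0 ≤ 20 * 243 ^ 3 * v ^ 3 + 15 * 243 ^ 2 * v ^ 4 + 6 * 243 * v ^ 5 + v ^ 6 := by positivity
    linarith
  have h3 : (116600000 : ℝ) ^ 2 * (24631 / 10000 + v)
      ≤ (16 + v) ^ 2 * ((243 : ℝ) ^ 6 + 6 * 243 ^ 5 * v + 15 * 243 ^ 4 * v ^ 2) := by
    have h4 : 0 ≤ (v - 317 / 50) ^ 2 * (473950000000000 + 7420000000000 * v + 52301766015 * v ^ 2) := by
      positivity
    nlinarith [h4, hv, mul_nonneg hv hv]
  have h5 : (16 + v) ^ 2 * ((243 : ℝ) ^ 6 + 6 * 243 ^ 5 * v + 15 * 243 ^ 4 * v ^ 2)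
      ≤ (16 + v) ^ 2 * (243 + v) ^ 6 := mul_le_mul_of_nonneg_left h2 (by positivity)
  linarith

lemma pow_split (A w X : ℝ) (n : ℕ) : A ^ (2 * n) * w ^ (7 * n) * X ^ n = (A ^ 2 * w ^ 7 * X) ^ n := by
  rw [mul_pow, mul_pow, ← pow_mul, ← pow_mul]

lemma pow_split2 (A B : ℝ) (n : ℕ) : (A ^ 2 * B ^ 6) ^ n = (A ^ n) ^ 2 * B ^ (6 * n) := by
  rw [mul_pow, ← pow_mul, ← pow_mul, ← pow_mul, mul_comm 2 n]

/-- the quotient of products -/
lemma PP_key (n : ℕ) (hn : 1 ≤ n) (z : ℝ) (hz : 0 ≤ z) :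
    (116600000 : ℝ) ^ (2 * n) * ((n : ℝ) ^ 2 * Real.exp (-2)) ^ (7 * n) * PP 0 n z
      ≤ 12 * (PP n (2 * n) z) ^ 2 * PP (3 * n) (9 * n) z := by
  have hn' : (0 : ℝ) < n := by exact_mod_cast hn
  set w : ℝ := (n : ℝ) ^ 2 * Real.exp (-2) with hw
  have hw0 : 0 < w := by positivity
  have h1 := PP_upper n hn z hz
  have h2 := PP_lower1 n hn z hz
  have h3 := PP_lower2 n hn z hz
  rw [← hw] at h2 h3
  have h4 : (116600000 : ℝ) ^ 2 * w ^ 7 * ((n : ℝ) ^ 2 / 3 + z) ≤ (16 * w + z) ^ 2 * (243 * w + z) ^ 6 := by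
    have h5 := poly_ineq (z / w) (by positivity)
    have h6 : (n : ℝ) ^ 2 / 3 + z = w * (Real.exp 2 / 3 + z / w) := by
      have e1 : w * Real.exp 2 = (n : ℝ) ^ 2 := by
        rw [hw, mul_assoc, ← Real.exp_add]
        norm_num
      have e2 : w * (z / w) = z := by field_simp
      rw [mul_add, e2, ← mul_div_assoc, e1]
    have h7 : (16 * w + z) ^ 2 * (243 * w + z) ^ 6 = w ^ 8 * ((16 + z / w) ^ 2 * (243 + z / w) ^ 6) := by
      field_simp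
    rw [h6, h7]
    calc (116600000 : ℝ) ^ 2 * w ^ 7 * (w * (Real.exp 2 / 3 + z / w))
        = w ^ 8 * ((116600000 : ℝ) ^ 2 * (Real.exp 2 / 3 + z / w)) := by ring
      _ ≤ _ := mul_le_mul_of_nonneg_left h5 (by positivity)
  have h8 : (116600000 : ℝ) ^ (2 * n) * w ^ (7 * n) * ((n : ℝ) ^ 2 / 3 + z) ^ n
      ≤ ((16 * w + z) ^ n) ^ 2 * (243 * w + z) ^ (6 * n) := by
    calc (116600000 : ℝ) ^ (2 * n) * w ^ (7 * n) * ((n : ℝ) ^ 2 / 3 + z) ^ n
        = ((116600000 : ℝ) ^ 2 * w ^ 7 * ((n : ℝ) ^ 2 / 3 + z)) ^ n := pow_split _ _ _ _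
      _ ≤ ((16 * w + z) ^ 2 * (243 * w + z) ^ 6) ^ n := pow_le_pow_left₀ (by positivity) h4 n
      _ = ((16 * w + z) ^ n) ^ 2 * (243 * w + z) ^ (6 * n) := pow_split2 _ _ _
  have h9 : (16 * w + z) ^ n ≤ 2 * PP n (2 * n) z := by linarith
  have h10 : (243 * w + z) ^ (6 * n) ≤ 3 * PP (3 * n) (9 * n) z := by linarith
  calc (116600000 : ℝ) ^ (2 * n) * w ^ (7 * n) * PP 0 n z
      ≤ (116600000 : ℝ) ^ (2 * n) * w ^ (7 * n) * ((n : ℝ) ^ 2 / 3 + z) ^ n :=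
        mul_le_mul_of_nonneg_left h1 (by positivity)
    _ ≤ ((16 * w + z) ^ n) ^ 2 * (243 * w + z) ^ (6 * n) := h8
    _ ≤ (2 * PP n (2 * n) z) ^ 2 * (3 * PP (3 * n) (9 * n) z) := by
        have := PP_pos n (2 * n) hz
        apply mul_le_mul (pow_le_pow_left₀ (by positivity) h9 2) h10 (by positivity) (by positivity)
    _ = 12 * (PP n (2 * n) z) ^ 2 * PP (3 * n) (9 * n) z := by ring

end Pool.Agent.D23
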