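import Pool.Agent.D23.Growth

/-!
The functional `∑ c_j ∫ g^(j) Ker` does not change when the line crosses an integer where `g`
vanishes to a high order; consequence for rational functions with a discrete Pearson equation.
-/

open Finset Filter Topology Complex MeasureTheory
open scoped BigOperators

namespace Pool.Agent.D23

open Pool.Agent.Z3

/-- combination of the kernel integrals of the first derivatives -/
noncomputable def Lf (c : ℕ → ℂ) (s : ℕ) (m : ℤ) (g : ℂ → ℂ) : ℂ :=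
  ∑ j ∈ range (s + 1), c j * Iint m (iteratedDeriv j g)

theorem Iint_comp_add_one (m : ℤ) (g : ℂ → ℂ) :
    Iint m (fun t => g (t + 1)) = Iint (m + 1) g := by
  unfold Iint
  refine integral_congr_ae (Eventually.of_forall fun y => ?_)
  simp only
  congr 2
  push_cast
  ring

theorem Lf_comp_add_one (c : ℕ → ℂ) (s : ℕ) (m : ℤ) (g : ℂ → ℂ) :
    Lf c s m (fun t => g (t + 1)) = Lf c s (m + 1) g := by
  unfold Lf
  refine sum_congr rfl (fun j _ => ?_)
  rw [← Iint_comp_add_one m (iteratedDeriv j g), iteratedDeriv_comp_add_const]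

/-- crossing an integer at which the derivatives of order `1, ..., s + 1` vanish -/
theorem Lf_shift (c : ℕ → ℂ) (s : ℕ) {x0 : ℝ} {g : ℂ → ℂ} (h : HG x0 g) (m : ℤ)
    (hm : x0 < (m : ℝ) - 1 / 2) (hz : ∀ j, 1 ≤ j → j ≤ s + 1 → iteratedDeriv j g (m : ℂ) = 0) :
    Lf c s (m + 1) g = Lf c s m g := by
  unfold Lf
  refine sum_congr rfl (fun j hj => ?_)
  rw [mem_range] at hj
  have h1 : HG ((x0 + ((m : ℝ) - 1 / 2)) / 2) (iteratedDeriv j g) :=
    h.iteratedDeriv (by linarith) j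
  have h2 := h1.shift m (by linarith)
  rw [← iteratedDeriv_succ, hz (j + 1) (by omega) (by omega), neg_zero, sub_eq_zero] at h2
  rw [h2]

/-- a product with a high power of `t - m` has vanishing derivatives at `m` -/
theorem iteratedDeriv_zero_of_factor {U : Set ℂ} (hU : IsOpen U) {x : ℂ} (hx : x ∈ U) :
    ∀ (j e : ℕ) (q g : ℂ → ℂ), j < e → DifferentiableOn ℂ q U →
      (∀ t ∈ U, g t = (t - x) ^ e * q t) → iteratedDeriv j g x = 0 := by
  intro j
  induction j with
  | zero =>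
    intro e q g hj _ hg
    rw [iteratedDeriv_zero, hg x hx, sub_self, zero_pow (by omega), zero_mul]
  | succ j ih =>
    intro e q g hj hq hg
    rw [iteratedDeriv_succ']
    obtain ⟨e', rfl⟩ : ∃ e', e = e' + 1 := ⟨e - 1, by omega⟩
    refine ih e' (fun t => ((e' : ℂ) + 1) * q t + (t - x) * _root_.deriv q t) (_root_.deriv g)
      (by omega) ?_ ?_
    · refine DifferentiableOn.add (hq.const_mul _) (DifferentiableOn.mul ?_ (hq.deriv hU))
      exact differentiableOn_id.sub (differentiableOn_const _)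
    · intro t ht
      have h1 : HasDerivAt (fun t => (t - x) ^ (e' + 1) * q t)
          (((e' + 1 : ℕ) : ℂ) * (t - x) ^ (e' + 1 - 1) * 1 * q t +
            (t - x) ^ (e' + 1) * _root_.deriv q t) t :=
        (((hasDerivAt_id t).sub_const x).pow (e' + 1)).mul
          ((hq.differentiableAt (hU.mem_nhds ht)).hasDerivAt)
      have h2 : g =ᶠ[𝓝 t] fun t => (t - x) ^ (e' + 1) * q t := by
        filter_upwards [hU.mem_nhds ht] with z hz using hg z hz
      rw [h2.deriv_eq, h1.deriv]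
      simp only [Nat.add_sub_cancel]
      push_cast
      ring

theorem HG.contDiffAt {x0 : ℝ} {g : ℂ → ℂ} (h : HG x0 g) {t : ℂ} (ht : x0 < t.re) (n : ℕ) :
    ContDiffAt ℂ n g t :=
  (h.1.contDiffOn (n := (n : WithTop ℕ∞)) (isOpen_half x0)).contDiffAt
    ((isOpen_half x0).mem_nhds ht)

theorem iteratedDeriv_congr_half {x0 : ℝ} {f g : ℂ → ℂ} (hfg : ∀ t : ℂ, x0 < t.re → f t = g t)
    (j : ℕ) {t : ℂ} (ht : x0 < t.re) : iteratedDeriv j f t = iteratedDeriv j g t := by
  have h : f =ᶠ[𝓝 t] g := by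
    filter_upwards [(isOpen_half x0).mem_nhds ht] with z hz using hfg z hz
  exact h.iteratedDeriv_eq j

theorem Iint_congr {x0 : ℝ} {f g : ℂ → ℂ} (hfg : ∀ t : ℂ, x0 < t.re → f t = g t) (m : ℤ)
    (hm : x0 < (m : ℝ) - 1 / 2) : Iint m f = Iint m g := by
  unfold Iint
  refine integral_congr_ae (Eventually.of_forall fun y => ?_)
  simp only
  rw [hfg _ (by rw [line_re]; exact hm)]

theorem Lf_congr (c : ℕ → ℂ) (s : ℕ) {x0 : ℝ} {f g : ℂ → ℂ}
    (hfg : ∀ t : ℂ, x0 < t.re → f t = g t) (m : ℤ) (hm : x0 < (m : ℝ) - 1 / 2) :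
    Lf c s m f = Lf c s m g := by
  unfold Lf
  refine sum_congr rfl (fun j _ => ?_)
  rw [Iint_congr (fun t ht => iteratedDeriv_congr_half hfg j ht) m hm]

theorem Iint_add {x0 : ℝ} {f g : ℂ → ℂ} (hf : HG x0 f) (hg : HG x0 g) (m : ℤ)
    (hm : x0 < (m : ℝ) - 1 / 2) : Iint m (fun t => f t + g t) = Iint m f + Iint m g := by
  unfold Iint
  rw [← integral_add (hf.integrable m hm) (hg.integrable m hm)]
  refine integral_congr_ae (Eventually.of_forall fun y => ?_)
  simp only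
  ring

theorem Iint_const_mul (c : ℂ) (f : ℂ → ℂ) (m : ℤ) :
    Iint m (fun t => c * f t) = c * Iint m f := by
  unfold Iint
  rw [← integral_const_mul]
  refine integral_congr_ae (Eventually.of_forall fun y => ?_)
  simp only
  ring

theorem Lf_add (c : ℕ → ℂ) (s : ℕ) {x0 : ℝ} {f g : ℂ → ℂ} (hf : HG x0 f) (hg : HG x0 g) (m : ℤ)
    (hm : x0 < (m : ℝ) - 1 / 2) : Lf c s m (fun t => f t + g t) = Lf c s m f + Lf c s m g := by
  unfold Lf
  rw [← sum_add_distrib]
  refine sum_congr rfl (fun j _ => ?_)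
  have hx : x0 < (x0 + ((m : ℝ) - 1 / 2)) / 2 := by linarith
  rw [← mul_add, ← Iint_add (hf.iteratedDeriv hx j) (hg.iteratedDeriv hx j) m (by linarith)]
  congr 1
  refine Iint_congr (fun t ht => ?_) m (by linarith : (x0 + ((m : ℝ) - 1 / 2)) / 2 < _)
  have ht' : x0 < t.re := lt_trans hx ht
  have := iteratedDeriv_add (x := t) (hf.contDiffAt ht' j) (hg.contDiffAt ht' j)
  exact this

theorem Lf_const_mul (c : ℕ → ℂ) (s : ℕ) (b : ℂ) (f : ℂ → ℂ) (m : ℤ) :
    Lf c s m (fun t => b * f t) = b * Lf c s m f := by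
  unfold Lf
  rw [mul_sum]
  refine sum_congr rfl (fun j _ => ?_)
  rw [mul_left_comm, ← Iint_const_mul b (iteratedDeriv j f)]
  congr 2
  funext t
  exact iteratedDeriv_const_mul_field b f

/-- the functional as a linear form in the polynomial factor -/
noncomputable def Lam (c : ℕ → ℂ) (s : ℕ) (m : ℤ) (x0 : ℝ) (R : ℂ → ℂ) (hR : HG x0 R)
    (hm : x0 < (m : ℝ) - 1 / 2) : Polynomial ℂ →ₗ[ℂ] ℂ where
  toFun P := Lf c s m (fun t => P.eval t * R t)
  map_add' P Q := by
    rw [← Lf_add c s ((HG_poly x0 P).mul hR) ((HG_poly x0 Q).mul hR) m hm]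
    congr 1
    funext t
    rw [Polynomial.eval_add, add_mul]
  map_smul' b P := by
    rw [RingHom.id_apply, smul_eq_mul, ← Lf_const_mul]
    congr 1
    funext t
    rw [Polynomial.eval_smul, smul_eq_mul, mul_assoc]

theorem Lam_apply (c : ℕ → ℂ) (s : ℕ) (m : ℤ) (x0 : ℝ) (R : ℂ → ℂ) (hR : HG x0 R)
    (hm : x0 < (m : ℝ) - 1 / 2) (P : Polynomial ℂ) :
    Lam c s m x0 R hR hm P = Lf c s m (fun t => P.eval t * R t) := rfl

/-- the line may be moved across an integer where `R` has a zero of order `s + 2` -/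
theorem Lf_mul_shift (c : ℕ → ℂ) (s : ℕ) (m : ℤ) (x0 : ℝ) (R : ℂ → ℂ) (hR : HG x0 R)
    (hm : x0 < (m : ℝ) - 1 / 2) (q : ℂ → ℂ) (hq : HG x0 q)
    (hRq : ∀ t : ℂ, x0 < t.re → R t = (t - m) ^ (s + 2) * q t) (P : Polynomial ℂ) :
    Lf c s (m + 1) (fun t => P.eval t * R t) = Lf c s m (fun t => P.eval t * R t) := by
  refine Lf_shift c s ((HG_poly x0 P).mul hR) m hm (fun j _ hj => ?_)
  refine iteratedDeriv_zero_of_factor (isOpen_half x0) (x := (m : ℂ)) ?_ j (s + 2)
    (fun t => P.eval t * q t) _ (by omega) ((HG_poly x0 P).mul hq).1 (fun t ht => ?_)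
  · change x0 < ((m : ℂ)).re
    rw [Complex.intCast_re]
    linarith
  · rw [hRq t ht]
    ring

/-- **Discrete Pearson equation** for the functional attached to a function with
`R (t + 1) ∏ (t + b i) = R t ∏ (t + a i)`. -/
theorem Lam_pearson (c : ℕ → ℂ) (s : ℕ) (m : ℤ) (x0 : ℝ) (R : ℂ → ℂ) (hR : HG x0 R)
    (hm : x0 < (m : ℝ) - 1 / 2) (q : ℂ → ℂ) (hq : HG x0 q)
    (hRq : ∀ t : ℂ, x0 < t.re → R t = (t - m) ^ (s + 2) * q t) {K : ℕ} (a b : Fin K → ℂ)
    (hrec : ∀ t : ℂ, x0 < t.re → R (t + 1) * ∏ i, (t + b i) = R t * ∏ i, (t + a i))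
    (S : Polynomial ℂ) :
    Lam c s m x0 R hR hm (S.comp (Polynomial.X + 1) * ∏ i, (Polynomial.X + Polynomial.C (a i))) =
      Lam c s m x0 R hR hm (S * ∏ i, (Polynomial.X + Polynomial.C (b i - 1))) := by
  rw [Lam_apply, Lam_apply, ← Lf_mul_shift c s m x0 R hR hm q hq hRq
    (S * ∏ i, (Polynomial.X + Polynomial.C (b i - 1))), ← Lf_comp_add_one]
  refine Lf_congr c s (fun t ht => ?_) m hm
  have h1 := hrec t ht
  simp only [Polynomial.eval_mul, Polynomial.eval_comp, Polynomial.eval_add, Polynomial.eval_X,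
    Polynomial.eval_one, Polynomial.eval_prod, Polynomial.eval_C]
  have h2 : ∏ i, (t + 1 + (b i - 1)) = ∏ i, (t + b i) :=
    prod_congr rfl (fun i _ => by ring)
  rw [h2]
  linear_combination (-(S.eval (t + 1))) * h1

end Pool.Agent.D23
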