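import Pool.Agent.D23.IPoly

/-!
The Volkenborn functional on rational polynomials: `volk m P = ∑ coeff * bernoulli` of `P (X + m)`.
It is the integral of `P` against the kernel on the line `Re t = m - 1/2`.
-/

open Finset Polynomial

namespace Pool.Agent.D23

/-- the linear functional `X ^ n ↦ bernoulli n` -/
noncomputable def volk0 : ℚ[X] →ₗ[ℚ] ℚ :=
  Polynomial.lsum (fun n => (LinearMap.id : ℚ →ₗ[ℚ] ℚ).smulRight (_root_.bernoulli n))

theorem volk0_apply (P : ℚ[X]) : volk0 P = P.sum (fun n a => a * _root_.bernoulli n) := by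
  unfold volk0
  simp [Polynomial.lsum_apply]

theorem volk0_X_pow (n : ℕ) : volk0 (X ^ n) = _root_.bernoulli n := by
  rw [volk0_apply, ← monomial_one_right_eq_X_pow, sum_monomial_index _ _ (by simp), one_mul]

/-- translation by a constant as a linear map -/
noncomputable def trans (a : ℚ) : ℚ[X] →ₗ[ℚ] ℚ[X] where
  toFun P := P.comp (X + C a)
  map_add' P Q := add_comp
  map_smul' c P := by simp

theorem trans_apply (a : ℚ) (P : ℚ[X]) : trans a P = P.comp (X + C a) := rfl

/-- the Volkenborn functional at the integer `m` -/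
noncomputable def volk (m : ℤ) : ℚ[X] →ₗ[ℚ] ℚ := volk0 ∘ₗ trans (m : ℚ)

theorem volk_apply (m : ℤ) (P : ℚ[X]) : volk m P = volk0 (P.comp (X + C (m : ℚ))) := rfl

theorem volk_zero (P : ℚ[X]) : volk 0 P = volk0 P := by
  rw [volk_apply]
  simp

/-- (i) the integral against the kernel -/
theorem IP_eq_volk (m : ℤ) (P : ℚ[X]) :
    IP m (P.map (algebraMap ℚ ℂ)) = ((volk m P : ℚ) : ℂ) := by
  have h0 : ∀ Q : ℚ[X], IP 0 (Q.map (algebraMap ℚ ℂ)) = ((volk0 Q : ℚ) : ℂ) := by
    intro Q
    induction Q using Polynomial.induction_on' with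
    | add p q hp hq => rw [Polynomial.map_add, map_add, map_add, hp, hq]; push_cast; ring
    | monomial n a =>
      rw [← smul_X_eq_monomial, map_smul, volk0_X_pow, smul_eq_C_mul, Polynomial.map_mul,
        map_C, Polynomial.map_pow, map_X, ← smul_eq_C_mul, map_smul, IP_X_pow]
      simp
  rw [volk_apply, ← h0, Polynomial.map_comp, Polynomial.map_add, map_X, map_C]
  have h1 := IP_comp 0 m (P.map (algebraMap ℚ ℂ))
  rw [zero_add] at h1
  rw [← h1]
  congr 2

theorem volk_comp (m n : ℤ) (P : ℚ[X]) : volk m (P.comp (X + C (n : ℚ))) = volk (m + n) P := by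
  rw [volk_apply, volk_apply, comp_assoc]
  congr 2
  simp only [add_comp, X_comp, C_comp]
  rw [add_assoc, ← C_add]
  push_cast
  rfl

/-- (ii) the shift -/
theorem volk_shift (m : ℤ) (P : ℚ[X]) : volk (m + 1) P - volk m P = P.derivative.eval (m : ℚ) := by
  have h1 := IP_shift m (P.map (algebraMap ℚ ℂ))
  rw [IP_eq_volk, IP_eq_volk, derivative_map, eval_map_algebraMap] at h1
  have h2 : aeval ((m : ℤ) : ℂ) (derivative P) = (((derivative P).eval (m : ℚ) : ℚ) : ℂ) := by
    have := Polynomial.aeval_algebraMap_apply ℂ (m : ℚ) (derivative P)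
    simpa using this
  rw [h2] at h1
  have h3 : ((volk (m + 1) P : ℚ) : ℂ) - ((volk m P : ℚ) : ℂ) =
      (((derivative P).eval (m : ℚ) : ℚ) : ℂ) := by
    linear_combination -h1
  exact_mod_cast h3

theorem volk0_delta (P : ℚ[X]) : volk0 (P.comp (X + 1)) - volk0 P = P.derivative.eval 0 := by
  have h1 := volk_shift 0 P
  rw [← volk_zero P]
  have h2 := volk_comp 0 1 P
  rw [volk_zero] at h2
  have h3 : (X + 1 : ℚ[X]) = X + C ((1 : ℤ) : ℚ) := by simp
  rw [h3, h2]
  simpa using h1

/-- the binomial polynomial `X (X - 1) ... (X - j + 1) / j!` -/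
noncomputable def bin (j : ℕ) : ℚ[X] := C ((j.factorial : ℚ)⁻¹) * descPochhammer ℚ j

theorem bin_zero : bin 0 = 1 := by simp [bin]

theorem bin_eval_nat (j n : ℕ) : (bin j).eval (n : ℚ) = (n.choose j : ℚ) := by
  rw [bin, eval_mul, eval_C, descPochhammer_eval_eq_descFactorial, Nat.descFactorial_eq_factorial_mul_choose]
  have : (j.factorial : ℚ) ≠ 0 := by exact_mod_cast j.factorial_ne_zero
  push_cast
  field_simp

theorem natDegree_bin (j : ℕ) : (bin j).natDegree = j := by
  have : (j.factorial : ℚ)⁻¹ ≠ 0 := inv_ne_zero (by exact_mod_cast j.factorial_ne_zero)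
  rw [bin, natDegree_C_mul this]
  exact descPochhammer_natDegree ℚ j

/-- two rational polynomials that agree on the natural numbers are equal -/
theorem poly_ext_nat {P Q : ℚ[X]} (h : ∀ n : ℕ, P.eval (n : ℚ) = Q.eval (n : ℚ)) : P = Q := by
  refine Polynomial.eq_of_infinite_eval_eq P Q ?_
  refine Set.Infinite.mono (s := Set.range (fun n : ℕ => (n : ℚ))) ?_ ?_
  · rintro x ⟨n, rfl⟩
    exact h n
  · exact Set.infinite_range_of_injective Nat.cast_injective

theorem bin_delta (j : ℕ) : (bin (j + 1)).comp (X + 1) - bin (j + 1) = bin j := by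
  refine poly_ext_nat (fun n => ?_)
  rw [eval_sub, eval_comp, eval_add, eval_X, eval_one, bin_eval_nat, bin_eval_nat]
  have h1 : ((n : ℚ) + 1) = ((n + 1 : ℕ) : ℚ) := by push_cast; ring
  rw [h1, bin_eval_nat, Nat.choose_succ_succ]
  push_cast
  ring

theorem bin_deriv_zero (j : ℕ) : (derivative (bin (j + 1))).eval 0 = (-1) ^ j / ((j : ℚ) + 1) := by
  have h1 : descPochhammer ℚ (j + 1) = X * (descPochhammer ℚ j).comp (X - 1) :=
    descPochhammer_succ_left ℚ j
  rw [bin, h1, derivative_C_mul, derivative_mul, derivative_X, one_mul]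
  simp only [eval_mul, eval_C, eval_add, eval_X, zero_mul, add_zero, eval_comp, eval_sub, eval_one,
    zero_sub]
  have h2 : (descPochhammer ℚ j).eval (-1) = (-1) ^ j * (j.factorial : ℚ) := by
    induction j with
    | zero => simp
    | succ j ih =>
      rw [descPochhammer_succ_right, eval_mul, ih]
      · simp only [eval_sub, eval_X, eval_natCast, Nat.factorial_succ]
        push_cast
        ring
      · exact descPochhammer_succ_left ℚ j
  rw [h2, Nat.factorial_succ]
  have h3 : (j.factorial : ℚ) ≠ 0 := by exact_mod_cast j.factorial_ne_zero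
  have h4 : ((j : ℚ) + 1) ≠ 0 := by positivity
  push_cast
  field_simp

/-- (iii) the values on the Newton basis -/
theorem volk0_bin (j : ℕ) : volk0 (bin j) = (-1) ^ j / ((j : ℚ) + 1) := by
  rw [← bin_delta j, map_sub, volk0_delta, bin_deriv_zero]

/-- every rational polynomial is a combination of the binomial polynomials, with coefficients the
iterated differences at zero -/
theorem eq_sum_bin (P : ℚ[X]) (N : ℕ) (hN : P.natDegree < N) :
    ∃ c : ℕ → ℚ, P = ∑ j ∈ range N, C (c j) * bin j := by
  induction N generalizing P with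
  | zero => omega
  | succ N ih =>
    rcases Nat.eq_zero_or_pos N with h0 | h0
    · subst h0
      refine ⟨fun _ => P.coeff 0, ?_⟩
      rw [sum_range_one, bin_zero, mul_one]
      exact eq_C_of_natDegree_eq_zero (by omega)
    · have hb : (bin N).coeff N ≠ 0 := by
        have h1 := natDegree_bin N
        have h2 : (bin N) ≠ 0 := by
          intro h3
          rw [h3, natDegree_zero] at h1
          omega
        have h3 : (bin N).leadingCoeff ≠ 0 := leadingCoeff_ne_zero.mpr h2
        rwa [leadingCoeff, h1] at h3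
      set a : ℚ := P.coeff N / (bin N).coeff N with ha
      have hdeg : (P - C a * bin N).natDegree < N := by
        have h1 : (P - C a * bin N).natDegree ≤ N := by
          refine (natDegree_sub_le _ _).trans (max_le (by omega) ?_)
          refine (natDegree_C_mul_le _ _).trans ?_
          rw [natDegree_bin]
        rcases Nat.lt_or_ge (P - C a * bin N).natDegree N with h | h
        · exact h
        · exfalso
          have h2 : (P - C a * bin N).natDegree = N := le_antisymm h1 h
          have h3 : (P - C a * bin N).coeff N = 0 := by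
            rw [coeff_sub, coeff_C_mul, ha]
            field_simp
            ring
          have h4 : (P - C a * bin N) = 0 := by
            rw [← leadingCoeff_eq_zero, leadingCoeff, h2, h3]
          rw [h4, natDegree_zero] at h2
          omega
      obtain ⟨c, hc⟩ := ih _ hdeg
      refine ⟨fun j => if j = N then a else c j, ?_⟩
      rw [sum_range_succ]
      simp only [if_true]
      have h5 : ∑ j ∈ range N, C (if j = N then a else c j) * bin j =
          ∑ j ∈ range N, C (c j) * bin j := by
        refine sum_congr rfl (fun j hj => ?_)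
        rw [if_neg (by rw [mem_range] at hj; omega)]
      rw [h5, ← hc]
      ring

/-- every polynomial is a difference -/
theorem exists_delta (P : ℚ[X]) : ∃ Q : ℚ[X], Q.comp (X + 1) - Q = P := by
  obtain ⟨c, hc⟩ := eq_sum_bin P (P.natDegree + 1) (Nat.lt_succ_self _)
  refine ⟨∑ j ∈ range (P.natDegree + 1), C (c j) * bin (j + 1), ?_⟩
  rw [Polynomial.sum_comp, ← sum_sub_distrib]
  conv_rhs => rw [hc]
  refine sum_congr rfl (fun j _ => ?_)
  rw [mul_comp, C_comp, ← mul_sub, bin_delta]

/-- the functional is determined by its shift property -/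
theorem volk0_unique (L : ℚ[X] →ₗ[ℚ] ℚ)
    (hL : ∀ P : ℚ[X], L (P.comp (X + 1)) - L P = P.derivative.eval 0) (P : ℚ[X]) :
    L P = volk0 P := by
  obtain ⟨Q, hQ⟩ := exists_delta P
  rw [← hQ, map_sub, map_sub, hL, volk0_delta]

/-- composition with an affine polynomial as a linear map -/
noncomputable def aff (s p : ℚ) : ℚ[X] →ₗ[ℚ] ℚ[X] where
  toFun P := P.comp (C s + C p * X)
  map_add' P Q := add_comp
  map_smul' c P := by simp

theorem aff_apply (s p : ℚ) (P : ℚ[X]) : aff s p P = P.comp (C s + C p * X) := rfl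

/-- **Distribution relation.** -/
theorem volk0_distribution (p : ℕ) (hp : 0 < p) (P : ℚ[X]) :
    volk0 P = (1 / (p : ℚ)) * ∑ s ∈ range p, volk0 (P.comp (C (s : ℚ) + C (p : ℚ) * X)) := by
  have hp0 : (p : ℚ) ≠ 0 := by exact_mod_cast hp.ne'
  set L : ℚ[X] →ₗ[ℚ] ℚ := (1 / (p : ℚ)) • ∑ s ∈ range p, volk0 ∘ₗ aff (s : ℚ) (p : ℚ) with hL
  have hLa : ∀ Q : ℚ[X], L Q =
      (1 / (p : ℚ)) * ∑ s ∈ range p, volk0 (Q.comp (C (s : ℚ) + C (p : ℚ) * X)) := by
    intro Q
    rw [hL]
    simp [LinearMap.sum_apply, aff_apply]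
  rw [← hLa]
  refine (volk0_unique L (fun Q => ?_) P).symm
  rw [hLa, hLa, ← mul_sub, ← sum_sub_distrib]
  have h1 : ∀ s ∈ range p, volk0 ((Q.comp (X + 1)).comp (C (s : ℚ) + C (p : ℚ) * X)) -
      volk0 (Q.comp (C (s : ℚ) + C (p : ℚ) * X)) =
      volk0 (Q.comp (C ((s + 1 : ℕ) : ℚ) + C (p : ℚ) * X)) -
      volk0 (Q.comp (C (s : ℚ) + C (p : ℚ) * X)) := by
    intro s _
    rw [comp_assoc]
    congr 3
    simp only [add_comp, X_comp, one_comp]
    push_cast
    rw [C_add, C_1]
    ring
  rw [sum_congr rfl h1, sum_range_sub (fun s : ℕ => volk0 (Q.comp (C (s : ℚ) + C (p : ℚ) * X)))]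
  have h2 : Q.comp (C ((p : ℕ) : ℚ) + C (p : ℚ) * X) =
      (Q.comp (C ((0 : ℕ) : ℚ) + C (p : ℚ) * X)).comp (X + 1) := by
    rw [comp_assoc]
    congr 1
    simp only [add_comp, mul_comp, C_comp, X_comp]
    push_cast
    rw [C_0]
    ring
  rw [h2, volk0_delta, derivative_comp]
  simp only [Nat.cast_zero, C_0, zero_add, derivative_mul, derivative_C, zero_mul, derivative_X,
    mul_one, eval_mul, eval_comp, eval_C, eval_X, mul_zero]
  field_simp

end Pool.Agent.D23
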