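import Pool.Agent.D23.RForm
import Pool.Agent.D23.Tele
import Pool.Agent.D23.Volk

/-!
# Kernel representation and linear form of the functional Lf
-/

open Finset Filter Topology Complex MeasureTheory Polynomial
open scoped BigOperators

namespace Pool.Agent.D23

open Pool.Agent.Z3 (PolyGrowth line_re line_im Iint H Ker zeta3)

section
variable (Q : ℂ[X]) (K : Finset ℕ) (α : ℕ → ℂ) (a : ℕ)

theorem iteratedDeriv_rfd (ha : ∀ k ∈ K, a ≤ k) (j : ℕ) (t : ℂ) (ht : -(a : ℝ) < t.re) :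
    iteratedDeriv j (rfd Q K α 0) t = rfd Q K α j t := by
  induction j generalizing t with
  | zero => rw [iteratedDeriv_zero]
  | succ j ih =>
    rw [iteratedDeriv_succ]
    have h1 : iteratedDeriv j (rfd Q K α 0) =ᶠ[𝓝 t] rfd Q K α j := by
      filter_upwards [(isOpen_half (-(a : ℝ))).mem_nhds ht] with z hz using ih z hz
    rw [h1.deriv_eq]
    exact (rfd_hasDeriv Q K α a ha j t ht).deriv

theorem Lf_rfd (ha : ∀ k ∈ K, a ≤ k) (c : ℕ → ℂ) (s : ℕ) (m : ℤ) (hm : 1 ≤ m + a) :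
    Lf c s m (rfd Q K α 0) = ∑ j ∈ range (s + 1), c j * Iint m (rfd Q K α j) := by
  unfold Lf
  refine sum_congr rfl (fun j _ => ?_)
  congr 1
  have hm' : (1 : ℝ) ≤ (m : ℝ) + a := by exact_mod_cast hm
  exact Iint_congr (x0 := -(a : ℝ)) (fun t ht => iteratedDeriv_rfd Q K α a ha j t ht) m
    (by linarith)

/-- rational functions with simple poles: analytic and of polynomial growth -/
theorem HG_rfd (ha : ∀ k ∈ K, a ≤ k) (x0 : ℝ) (hx : -(a : ℝ) < x0) (j : ℕ) :
    HG x0 (rfd Q K α j) := by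
  unfold rfd
  refine HG.add (HG_poly x0 _) (HG.sum K _ (fun k hk => ?_))
  have h1 : (a : ℝ) ≤ k := by exact_mod_cast ha k hk
  have h2 := ((HG_inv (x0 := x0) (k : ℝ) (by linarith)).pow (j + 1)).const_mul
    (α k * ((-1) ^ j * (j.factorial : ℂ)))
  refine h2.congr (fun t _ => ?_)
  rw [Complex.ofReal_natCast, div_pow, one_pow]
  ring

end

/-- kernel of the functional for s = 1 -/
theorem Lf_one (c : ℕ → ℂ) {x0 : ℝ} {g : ℂ → ℂ} (h : HG x0 g) (m : ℤ)
    (hm : x0 < (m : ℝ) - 1 / 2) :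
    Lf c 1 m g = ∫ y : ℝ, g (ln m y) *
      ((c 0 - 2 * Real.pi * c 1 * (Th y : ℂ) * Complex.I) * (Ker y : ℂ)) := by
  have hx : x0 < (x0 + ((m : ℝ) - 1 / 2)) / 2 := by linarith
  have hx2 : (x0 + ((m : ℝ) - 1 / 2)) / 2 < (m : ℝ) - 1 / 2 := by linarith
  have h1 := h.deriv hx
  have hd : ∀ t : ℂ, t.re = (m : ℝ) - 1 / 2 → HasDerivAt g (deriv g t) t := fun t ht =>
    (h.differentiableAt (by rw [ht]; exact hm)).hasDerivAt
  have hc' : ∀ t : ℂ, t.re = (m : ℝ) - 1 / 2 → ContinuousAt (deriv g) t := fun t ht =>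
    (h1.differentiableAt (by rw [ht]; exact hx2)).continuousAt
  have h2 := Lf_eq (c 0) (-2 * c 1) m g (deriv g) hd hc' (h.polyGrowth m hm) (h1.polyGrowth m hx2)
  unfold Lf
  rw [sum_range_succ, sum_range_one, iteratedDeriv_zero, iteratedDeriv_one]
  have h3 : c 0 * Iint m g + c 1 * Iint m (deriv g) =
      c 0 * Iint m g - -2 * c 1 / 2 * Iint m (deriv g) := by ring
  rw [h3, h2]
  congr 1
  funext y
  ring

/-- kernel of the functional for s = 2 -/
theorem Lf_two (c : ℕ → ℂ) {x0 : ℝ} {g : ℂ → ℂ} (h : HG x0 g) (m : ℤ)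
    (hm : x0 < (m : ℝ) - 1 / 2) :
    Lf c 2 m g = ∫ y : ℝ, g (ln m y) *
      ((c 0 - 2 * Real.pi * c 1 * (Th y : ℂ) * Complex.I +
        2 * Real.pi ^ 2 * c 2 * (1 - 3 * (Th y : ℂ) ^ 2)) * (Ker y : ℂ)) := by
  have hx : x0 < (2 * x0 + ((m : ℝ) - 1 / 2)) / 3 := by linarith
  have hx1 : (2 * x0 + ((m : ℝ) - 1 / 2)) / 3 < (x0 + 2 * ((m : ℝ) - 1 / 2)) / 3 := by linarith
  have hx2 : (x0 + 2 * ((m : ℝ) - 1 / 2)) / 3 < (m : ℝ) - 1 / 2 := by linarith
  have h1 := h.deriv hx
  have h2 := h1.deriv hx1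
  have hd : ∀ t : ℂ, t.re = (m : ℝ) - 1 / 2 → HasDerivAt g (deriv g t) t := fun t ht =>
    (h.differentiableAt (by rw [ht]; exact hm)).hasDerivAt
  have hd' : ∀ t : ℂ, t.re = (m : ℝ) - 1 / 2 → HasDerivAt (deriv g) (deriv (deriv g) t) t :=
    fun t ht => (h1.differentiableAt (by rw [ht]; linarith)).hasDerivAt
  have hc' : ∀ t : ℂ, t.re = (m : ℝ) - 1 / 2 → ContinuousAt (deriv (deriv g)) t := fun t ht =>
    (h2.differentiableAt (by rw [ht]; exact hx2)).continuousAt
  have h3 := Iint_deriv2 m g (deriv g) (deriv (deriv g)) hd hd' hc' (h.polyGrowth m hm)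
    (h1.polyGrowth m (by linarith)) (h2.polyGrowth m hx2)
  have h4 := Lf_one c h m hm
  have h5 : Lf c 2 m g = Lf c 1 m g + c 2 * Iint m (deriv (deriv g)) := by
    unfold Lf
    rw [sum_range_succ _ 2, iteratedDeriv_succ, iteratedDeriv_one]
  have hc : ∀ t : ℂ, t.re = (m : ℝ) - 1 / 2 → ContinuousAt g t := fun t ht =>
    (hd t ht).continuousAt
  have hgr := h.polyGrowth m hm
  rw [h5, h4, h3, ← integral_const_mul, ← integral_add]
  · congr 1
    funext y
    ring
  · have i1 := (integrable_line_mul m g (fun _ => 1) 1 continuous_const (fun _ => by simp) hc hgr).const_mul (c 0)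
    have i2 := (integrable_line_mul m g Th 1 continuous_Th (fun y => (abs_Th y).le) hc hgr).const_mul
      (-2 * Real.pi * c 1 * Complex.I)
    refine (i1.add i2).congr (Filter.Eventually.of_forall fun y => ?_)
    simp only [Pi.add_apply]
    push_cast
    ring
  · have i3 := (integrable_line_mul m g (fun y => 1 - 3 * Th y ^ 2) 3 (by
      have := continuous_Th
      fun_prop) (fun y => by
        have h2 := Th_sq_lt y
        rw [abs_le]
        constructor <;> nlinarith [sq_nonneg (Th y)]) hc hgr).const_mul (2 * Real.pi ^ 2 * c 2)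
    refine i3.congr (Filter.Eventually.of_forall fun y => ?_)
    simp only
    push_cast
    ring

/-! ### partial fractions -/

/-- the denominator -/
noncomputable def den {F : Type*} [Field F] (K : Finset ℕ) : F[X] := ∏ k ∈ K, (X + C (k : F))

theorem den_eq_nodal {F : Type*} [Field F] (K : Finset ℕ) :
    (den K : F[X]) = Lagrange.nodal K (fun k : ℕ => -(k : F)) := by
  unfold den Lagrange.nodal
  apply prod_congr rfl
  intro k _
  rw [map_neg, sub_neg_eq_add]

theorem den_monic {F : Type*} [Field F] (K : Finset ℕ) : (den K : F[X]).Monic :=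
  monic_prod_of_monic _ _ (fun _ _ => monic_X_add_C _)

theorem den_natDegree {F : Type*} [Field F] (K : Finset ℕ) : (den K : F[X]).natDegree = K.card := by
  unfold den
  rw [natDegree_prod_of_monic _ _ (fun _ _ => monic_X_add_C _)]
  simp only [natDegree_X_add_C, sum_const, smul_eq_mul, mul_one]

/-- residue at -k of S / den -/
noncomputable def res {F : Type*} [Field F] (K : Finset ℕ) (S : F[X]) (k : ℕ) : F :=
  (∏ j ∈ K.erase k, ((j : F) - k))⁻¹ * S.eval (-(k : F))

theorem pf_eval {F : Type*} [Field F] [CharZero F] (K : Finset ℕ) (S : F[X]) (t : F)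
    (ht : ∀ k ∈ K, t + (k : F) ≠ 0) :
    S.eval t / (den K).eval t = (S /ₘ den K).eval t + ∑ k ∈ K, res K S k / (t + (k : F)) := by
  classical
  have hinj : Set.InjOn (fun k : ℕ => -(k : F)) K := by
    intro x _ y _ h
    simpa using h
  have hne : (den K).eval t ≠ 0 := by
    unfold den
    rw [eval_prod, prod_ne_zero_iff]
    intro k hk
    simpa using ht k hk
  have h1 := Polynomial.modByMonic_add_div S (den K)
  have hdeg : (S %ₘ den K).degree < K.card := by
    have h2 := Polynomial.degree_modByMonic_lt S (den_monic (F := F) K)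
    rwa [degree_eq_natDegree (den_monic K).ne_zero, den_natDegree] at h2
  have hval : ∀ k ∈ K, (S %ₘ den K).eval (-(k : F)) = S.eval (-(k : F)) := by
    intro k hk
    have h3 : (den K : F[X]).eval (-(k : F)) = 0 := by
      unfold den
      rw [eval_prod]
      exact prod_eq_zero hk (by simp)
    have h4 := congrArg (Polynomial.eval (-(k : F))) h1
    rw [eval_add, eval_mul, h3, zero_mul, add_zero] at h4
    exact h4
  have h5 := Lagrange.eq_interpolate_of_eval_eq _ hinj hdeg hval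
  have h6 := Lagrange.eval_interpolate_not_at_node (s := K) (v := fun k : ℕ => -(k : F))
    (r := fun k : ℕ => S.eval (-(k : F))) (x := t) (fun k hk => by
      intro h
      apply ht k hk
      rw [h]
      ring)
  rw [← h5, ← den_eq_nodal] at h6
  have h7 : S.eval t = (S %ₘ den K).eval t + (den K).eval t * (S /ₘ den K).eval t := by
    conv_lhs => rw [← h1]
    rw [eval_add, eval_mul]
  rw [h7, h6, add_div, mul_div_cancel_left₀ _ hne, mul_div_cancel_left₀ _ hne, add_comm]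
  congr 1
  apply sum_congr rfl
  intro k _
  unfold res Lagrange.nodalWeight
  rw [prod_inv_distrib, sub_neg_eq_add, div_eq_mul_inv]
  have h8 : ∏ j ∈ K.erase k, (-(k : F) - -(j : F)) = ∏ j ∈ K.erase k, ((j : F) - k) := by
    apply prod_congr rfl
    intro j _
    ring
  rw [h8]
  ring

theorem den_map (K : Finset ℕ) : (den K : ℚ[X]).map (algebraMap ℚ ℂ) = den K := by
  unfold den
  rw [Polynomial.map_prod]
  apply prod_congr rfl
  intro k _
  simp

theorem res_map (K : Finset ℕ) (S : ℚ[X]) (k : ℕ) :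
    res K (S.map (algebraMap ℚ ℂ)) k = ((res K S k : ℚ) : ℂ) := by
  unfold res
  have h : (-(k : ℂ)) = algebraMap ℚ ℂ (-(k : ℚ)) := by simp
  rw [h, eval_map_apply]
  simp

/-- the rational function S / den as a function of the complex variable -/
noncomputable def RF (K : Finset ℕ) (S : ℚ[X]) (t : ℂ) : ℂ :=
  aeval t S / ∏ k ∈ K, (t + (k : ℂ))

theorem RF_eq (K : Finset ℕ) (S : ℚ[X]) (t : ℂ) (ht : ∀ k ∈ K, t + (k : ℂ) ≠ 0) :
    RF K S t = rfd ((S /ₘ den K).map (algebraMap ℚ ℂ)) K (fun k => ((res K S k : ℚ) : ℂ)) 0 t := by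
  have h := pf_eval K (S.map (algebraMap ℚ ℂ)) t ht
  have h2 : (den K : ℂ[X]).eval t = ∏ k ∈ K, (t + (k : ℂ)) := by
    unfold den
    rw [eval_prod]
    apply prod_congr rfl
    intro k _
    simp
  unfold RF rfd
  rw [aeval_def, ← eval_map, ← h2, h, ← den_map, ← map_divByMonic _ (den_monic K)]
  simp only [Function.iterate_zero, id_eq, pow_zero, Nat.factorial_zero, Nat.cast_one, mul_one,
    zero_add, pow_one, res_map]

/-- coefficient of the zeta value -/
noncomputable def qq (K : Finset ℕ) (S : ℚ[X]) : ℚ := ∑ k ∈ K, res K S k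

/-- the rational part which goes with zeta(j+2) -/
noncomputable def pp (K : Finset ℕ) (m : ℤ) (S : ℚ[X]) (j : ℕ) : ℚ :=
  (-1) ^ j / ((j + 1).factorial : ℚ) * volk m (derivative^[j] (S /ₘ den K)) -
    ∑ k ∈ K, res K S k * H (j + 2) (m + k - 1).toNat

/-- THE LINEAR FORM in 1, zeta(2), .., zeta(s+2), rational data -/
theorem Lf_form (K : Finset ℕ) (S : ℚ[X]) (a : ℕ) (ha : ∀ k ∈ K, a ≤ k) (m : ℤ) (hm : 1 ≤ m + a)
    (s : ℕ) (c : ℕ → ℂ) :
    Lf (fun j => (-1) ^ j / ((j + 1).factorial : ℂ) * c j) s m (RF K S) =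
      (∑ j ∈ range (s + 1), c j * (zt (j + 2) : ℂ)) * ((qq K S : ℚ) : ℂ) +
      ∑ j ∈ range (s + 1), c j * ((pp K m S j : ℚ) : ℂ) := by
  have hm' : (1 : ℝ) ≤ (m : ℝ) + a := by exact_mod_cast hm
  have h1 : Lf (fun j => (-1) ^ j / ((j + 1).factorial : ℂ) * c j) s m (RF K S) =
      Lf (fun j => (-1) ^ j / ((j + 1).factorial : ℂ) * c j) s m
        (rfd ((S /ₘ den K).map (algebraMap ℚ ℂ)) K (fun k => ((res K S k : ℚ) : ℂ)) 0) :=
    Lf_congr _ s (x0 := -(a : ℝ)) (fun t ht => RF_eq K S t (fun k hk =>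
      ne_zero_of_re (ha k hk) ht)) m (by linarith)
  rw [h1, Lf_rfd _ K _ a ha _ s m hm, form_general _ K _ a ha m hm (s + 1) c]
  congr 1
  · unfold qq
    push_cast
    rfl
  · apply sum_congr rfl
    intro j _
    unfold pp
    have h2 : derivative^[j] ((S /ₘ den K).map (algebraMap ℚ ℂ)) =
        (derivative^[j] (S /ₘ den K)).map (algebraMap ℚ ℂ) := by
      rw [Polynomial.iterate_derivative_map]
    rw [h2, IP_eq_volk]
    push_cast
    rfl

/-- the linear form for 1, zeta(2), zeta(3) under a rational relation -/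
theorem Lf_rat (K : Finset ℕ) (S : ℚ[X]) (a : ℕ) (ha : ∀ k ∈ K, a ≤ k) (m : ℤ) (hm : 1 ≤ m + a)
    (s : ℕ) (c : ℕ → ℚ) (z : ℚ) (hz : ∑ j ∈ range (s + 1), (c j : ℝ) * zt (j + 2) = z) :
    Lf (fun j => (-1) ^ j / ((j + 1).factorial : ℂ) * (c j : ℂ)) s m (RF K S) =
      ((z * qq K S + ∑ j ∈ range (s + 1), c j * pp K m S j : ℚ) : ℂ) := by
  rw [Lf_form K S a ha m hm s (fun j => (c j : ℂ))]
  have h1 : (∑ j ∈ range (s + 1), (c j : ℂ) * (zt (j + 2) : ℂ)) = ((z : ℝ) : ℂ) := by
    rw [← hz]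
    push_cast
    rfl
  rw [h1]
  push_cast
  rfl

end Pool.Agent.D23
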