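import Mathlib
import Pool.Agent.D23.Rep

/-!
The family: three zero blocks `[0,2n)`, `[0,3n)`, `[n,3n)` and simple poles at `-k`, `4n ≤ k < 10n`.
-/

open Polynomial Finset

namespace Pool.Agent.D23

/-- the poles are the points `-k` -/
def KP (n : ℕ) : Finset ℕ := Ico (4 * n) (10 * n)

/-- the normalising constant -/
def kap (n : ℕ) : ℚ :=
  ((6 * n).factorial : ℚ) / (((2 * n).factorial : ℚ) ^ 2 * ((3 * n).factorial : ℚ))

/-- the product of the zero blocks -/
noncomputable def num (R : Type*) [CommRing R] (n : ℕ) : R[X] :=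
  (∏ i ∈ range (2 * n), (X + C (i : R))) * (∏ i ∈ range (3 * n), (X + C (i : R))) *
    ∏ i ∈ Ico n (3 * n), (X + C (i : R))

/-- `kap * num * f` -/
noncomputable def SS (n : ℕ) (f : ℚ[X]) : ℚ[X] := C (kap n) * num ℚ n * f

/-- number of `i < N` in the class of `s` -/
def cN (N p s : ℕ) : ℕ := ((range N).filter (fun i => i % p = s)).card

/-- zeros minus poles in the class of `s` -/
def ph (n p s : ℕ) : ℤ :=
  (cN (2 * n) p s : ℤ) + 2 * cN (3 * n) p s - cN n p s - cN (10 * n) p s + cN (4 * n) p s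

/-- valuation of `kap` for `10 n < p ^ 2` -/
def ee (n p : ℕ) : ℤ := ((6 * n / p : ℕ) : ℤ) - 2 * ((2 * n / p : ℕ) : ℤ) - ((3 * n / p : ℕ) : ℤ)

/-- the weight of a class -/
def ww (n p s : ℕ) : ℤ := 2 - ee n p - ph n p s

/-- the class of `s` contains a pole `-k` with `2 n + p ≤ k` -/
def polar (n p s : ℕ) : Prop := ∃ k, 4 * n ≤ k ∧ k < 10 * n ∧ k % p = s ∧ 2 * n + p ≤ k

/-- the class of the integer `t`: the `s < p` with `t + s` divisible by `p` -/
def cl (p : ℕ) (t : ℤ) : ℕ := ((-t) % (p : ℤ)).toNat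

/-- `f` is divisible by `p ^ (u s)` at all integers of the class of `s` -/
def Van (p : ℕ) (f : ℤ[X]) (u : ℕ → ℕ) : Prop := ∀ t : ℤ, (p : ℤ) ^ (u (cl p t)) ∣ f.eval t

theorem add_divByMonic {F : Type*} [Field F] {q : F[X]} (hq : q.Monic) (a b : F[X]) :
    (a + b) /ₘ q = a /ₘ q + b /ₘ q := by
  refine (div_modByMonic_unique (a /ₘ q + b /ₘ q) (a %ₘ q + b %ₘ q) hq ⟨?_, ?_⟩).1
  · have h1 := modByMonic_add_div a q
    have h2 := modByMonic_add_div b q
    linear_combination h1 + h2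
  · exact (degree_add_le _ _).trans_lt (max_lt (degree_modByMonic_lt a hq) (degree_modByMonic_lt b hq))

theorem smul_divByMonic {F : Type*} [Field F] {q : F[X]} (hq : q.Monic) (c : F) (a : F[X]) :
    (c • a) /ₘ q = c • (a /ₘ q) := by
  refine (div_modByMonic_unique (c • (a /ₘ q)) (c • (a %ₘ q)) hq ⟨?_, ?_⟩).1
  · have h1 := modByMonic_add_div a q
    rw [mul_smul_comm, ← smul_add, h1]
  · exact (degree_smul_le _ _).trans_lt (degree_modByMonic_lt a hq)

theorem res_add (K : Finset ℕ) (a b : ℚ[X]) (k : ℕ) : res K (a + b) k = res K a k + res K b k := by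
  unfold res
  rw [eval_add, mul_add]

theorem res_smul (K : Finset ℕ) (c : ℚ) (a : ℚ[X]) (k : ℕ) : res K (c • a) k = c * res K a k := by
  unfold res
  rw [eval_smul, smul_eq_mul]
  ring

theorem qq_add (K : Finset ℕ) (a b : ℚ[X]) : qq K (a + b) = qq K a + qq K b := by
  unfold qq
  simp_rw [res_add, sum_add_distrib]

theorem qq_smul (K : Finset ℕ) (c : ℚ) (a : ℚ[X]) : qq K (c • a) = c * qq K a := by
  unfold qq
  simp_rw [res_smul, mul_sum]

theorem pp_add (K : Finset ℕ) (m : ℤ) (a b : ℚ[X]) (j : ℕ) :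
    pp K m (a + b) j = pp K m a j + pp K m b j := by
  unfold pp
  rw [add_divByMonic (den_monic K), iterate_map_add, map_add]
  simp_rw [res_add, add_mul, sum_add_distrib]
  ring

theorem pp_smul (K : Finset ℕ) (m : ℤ) (c : ℚ) (a : ℚ[X]) (j : ℕ) :
    pp K m (c • a) j = c * pp K m a j := by
  unfold pp
  rw [smul_divByMonic (den_monic K), iterate_derivative_smul, map_smul, smul_eq_mul]
  simp_rw [res_smul, mul_assoc, ← mul_sum]
  ring

theorem SS_add (n : ℕ) (f g : ℚ[X]) : SS n (f + g) = SS n f + SS n g := by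
  unfold SS
  ring

theorem SS_smul (n : ℕ) (c : ℚ) (f : ℚ[X]) : SS n (c • f) = c • SS n f := by
  unfold SS
  rw [mul_smul_comm]

/-- the rational functional: value of the linear form when `c0 ζ(2) + c1 ζ(3) = z` -/
noncomputable def lr (n : ℕ) (z c0 c1 : ℚ) : ℚ[X] →ₗ[ℚ] ℚ where
  toFun f := z * qq (KP n) (SS n f) +
    (c0 * pp (KP n) (1 - 2 * n) (SS n f) 0 + c1 * pp (KP n) (1 - 2 * n) (SS n f) 1)
  map_add' f g := by
    rw [SS_add, qq_add, pp_add, pp_add]
    ring
  map_smul' c f := by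
    rw [SS_smul, qq_smul, pp_smul, pp_smul]
    simp only [RingHom.id_apply, smul_eq_mul]
    ring

theorem lr_apply (n : ℕ) (z c0 c1 : ℚ) (f : ℚ[X]) : lr n z c0 c1 f = z * qq (KP n) (SS n f) +
    (c0 * pp (KP n) (1 - 2 * n) (SS n f) 0 + c1 * pp (KP n) (1 - 2 * n) (SS n f) 1) := rfl

end Pool.Agent.D23
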