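import Pool.Agent.Z3.Shift

/-!
Positivity: a line functional `P ↦ ∫ P(c+iy) ρ(y) dy` with `ρ D = N W`, where `Re (S0 W)` is
nonnegative on the line, and positive off a finite set, for some polynomial `S0`, is not annihilated
by any nonzero polynomial.
-/

open Finset Polynomial MeasureTheory

namespace Pool.Agent.D23

/-- reflected conjugate polynomial: `refl c P (c + i y) = conj (P (c + i y))` -/
noncomputable def refl (c : ℝ) (P : ℂ[X]) : ℂ[X] :=
  (P.map (starRingEnd ℂ)).comp (C (2 * (c : ℂ)) - X)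

theorem refl_eval (c y : ℝ) (P : ℂ[X]) :
    (refl c P).eval ((c : ℂ) + (y : ℂ) * Complex.I) =
      (starRingEnd ℂ) (P.eval ((c : ℂ) + (y : ℂ) * Complex.I)) := by
  have h1 : (2 * (c : ℂ)) - ((c : ℂ) + (y : ℂ) * Complex.I) =
      (starRingEnd ℂ) ((c : ℂ) + (y : ℂ) * Complex.I) := by
    simp only [map_add, map_mul, Complex.conj_ofReal, Complex.conj_I]
    ring
  unfold refl
  rw [eval_comp, eval_sub, eval_C, eval_X, h1, eval_map_apply]

/-- a continuous nonnegative integrable function which is not zero has positive integral -/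
theorem integral_pos_of_cont (f : ℝ → ℝ) (hf : Continuous f) (hi : Integrable f)
    (h0 : ∀ y, 0 ≤ f y) (y0 : ℝ) (hy : f y0 ≠ 0) : 0 < ∫ y, f y := by
  rw [integral_pos_iff_support_of_nonneg h0 hi]
  exact (hf.isOpen_support).measure_pos volume ⟨y0, hy⟩

/-- a nonzero polynomial is nonzero somewhere on the line, outside a finite set -/
theorem exists_line_ne_zero (c : ℝ) (E : Finset ℝ) (P : ℂ[X]) (hP : P ≠ 0) :
    ∃ y : ℝ, y ∉ E ∧ P.eval ((c : ℂ) + (y : ℂ) * Complex.I) ≠ 0 := by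
  by_contra hcon
  push Not at hcon
  apply hP
  refine P.eq_zero_of_infinite_isRoot ?_
  refine Set.Infinite.mono
    (s := (fun y : ℝ => (c : ℂ) + (y : ℂ) * Complex.I) '' ((E : Set ℝ)ᶜ)) ?_ ?_
  · rintro z ⟨y, hy, rfl⟩
    exact hcon y (by simpa using hy)
  · refine Set.Infinite.image ?_ (E.finite_toSet.infinite_compl)
    intro a _ b _ hab
    have h := add_left_cancel hab
    have h2 := mul_right_cancel₀ Complex.I_ne_zero h
    exact_mod_cast h2

/-- **No nonzero polynomial annihilates the functional**, even on multiples of `D`. -/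
theorem hpos_line_dvd (c : ℝ) (ρ W : ℝ → ℂ) (D N : ℂ[X]) (hN : N ≠ 0)
    (hW : ∀ y : ℝ, ρ y * D.eval ((c : ℂ) + (y : ℂ) * Complex.I) =
      N.eval ((c : ℂ) + (y : ℂ) * Complex.I) * W y)
    (Λ : ℂ[X] →ₗ[ℂ] ℂ)
    (hΛ : ∀ P : ℂ[X], Λ P = ∫ y : ℝ, P.eval ((c : ℂ) + (y : ℂ) * Complex.I) * ρ y)
    (hcont : Continuous W)
    (hint : ∀ P : ℂ[X], Integrable (fun y : ℝ => P.eval ((c : ℂ) + (y : ℂ) * Complex.I) * W y))
    (S0 : ℂ[X]) (E : Finset ℝ)
    (h0 : ∀ y : ℝ, 0 ≤ (S0.eval ((c : ℂ) + (y : ℂ) * Complex.I) * W y).re)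
    (h1 : ∀ y : ℝ, y ∉ E → 0 < (S0.eval ((c : ℂ) + (y : ℂ) * Complex.I) * W y).re)
    (Q : ℂ[X]) (hQ : Q ≠ 0) : ∃ T : ℂ[X], Λ (Q * (D * T)) ≠ 0 := by
  set z : ℝ → ℂ := fun y => (c : ℂ) + (y : ℂ) * Complex.I with hz
  have hzc : Continuous z := continuous_const.add
    (Complex.continuous_ofReal.mul continuous_const)
  set V : ℂ[X] := Q * N with hV
  have hV0 : V ≠ 0 := mul_ne_zero hQ hN
  obtain ⟨y0, hy0, hy1⟩ := exists_line_ne_zero c E V hV0
  have hsq : ∀ (y : ℝ), (V * refl c V).eval (z y) = ((‖V.eval (z y)‖ ^ 2 : ℝ) : ℂ) := by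
    intro y
    rw [eval_mul, hz]
    simp only
    rw [refl_eval, Complex.mul_conj, Complex.normSq_eq_norm_sq]
  -- basic formula
  have hform : ∀ (y : ℝ), (Q * (D * refl c V * S0)).eval (z y) * ρ y =
      ((‖V.eval (z y)‖ ^ 2 : ℝ) : ℂ) * (S0.eval (z y) * W y) := by
    intro y
    have h2 := hW y
    have h3 : (Q * (D * refl c V * S0)).eval (z y) * ρ y =
        (V * refl c V).eval (z y) * (S0.eval (z y) * W y) := by
      simp only [hV, eval_mul]
      calc Q.eval (z y) * (D.eval (z y) * (refl c (Q * N)).eval (z y) * S0.eval (z y)) * ρ y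
          = Q.eval (z y) * (refl c (Q * N)).eval (z y) * S0.eval (z y) *
            (ρ y * D.eval (z y)) := by ring
        _ = _ := by rw [h2]; ring
    rw [h3, hsq]
  have hnc : Continuous (fun y : ℝ => ‖V.eval (z y)‖ ^ 2) :=
    ((V.continuous.comp hzc).norm).pow 2
  have hfi : Integrable (fun y : ℝ => ((‖V.eval (z y)‖ ^ 2 : ℝ) : ℂ) * (S0.eval (z y) * W y)) := by
    have h := hint (V * refl c V * S0)
    refine h.congr (Filter.Eventually.of_forall fun y => ?_)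
    simp only
    rw [eval_mul (p := V * refl c V)]
    have := hsq y
    rw [hz] at this
    simp only at this
    rw [this, mul_assoc]
  have hre : ∀ y : ℝ, (((‖V.eval (z y)‖ ^ 2 : ℝ) : ℂ) * (S0.eval (z y) * W y)).re =
      ‖V.eval (z y)‖ ^ 2 * (S0.eval (z y) * W y).re := by
    intro y
    rw [Complex.re_ofReal_mul]
  refine ⟨refl c V * S0, ?_⟩
  intro hcon
  rw [← mul_assoc D, hΛ] at hcon
  have h2 : (∫ y : ℝ, ((‖V.eval (z y)‖ ^ 2 : ℝ) : ℂ) * (S0.eval (z y) * W y)) = 0 := by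
    rw [← hcon]
    refine integral_congr_ae (Filter.Eventually.of_forall fun y => ?_)
    exact (hform y).symm
  have h3 := integral_re hfi
  simp only [RCLike.re_to_complex] at h3
  rw [h2, Complex.zero_re] at h3
  simp only [hre] at h3
  have h5 : Integrable (fun y : ℝ => ‖V.eval (z y)‖ ^ 2 * (S0.eval (z y) * W y).re) := by
    refine hfi.re.congr (Filter.Eventually.of_forall fun y => ?_)
    simp only [RCLike.re_to_complex]
    exact hre y
  have hcr : Continuous (fun y : ℝ => (S0.eval (z y) * W y).re) :=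
    Complex.continuous_re.comp ((S0.continuous.comp hzc).mul hcont)
  have h6 := integral_pos_of_cont (fun y : ℝ => ‖V.eval (z y)‖ ^ 2 * (S0.eval (z y) * W y).re)
    (hnc.mul hcr) h5 (fun y => mul_nonneg (sq_nonneg _) (h0 y)) y0
    (mul_ne_zero (pow_ne_zero 2 (norm_ne_zero_iff.mpr hy1)) (h1 y0 hy0).ne')
  linarith

/-- **No nonzero polynomial annihilates the functional.** -/
theorem hpos_line (c : ℝ) (ρ W : ℝ → ℂ) (D N : ℂ[X]) (hN : N ≠ 0)
    (hW : ∀ y : ℝ, ρ y * D.eval ((c : ℂ) + (y : ℂ) * Complex.I) =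
      N.eval ((c : ℂ) + (y : ℂ) * Complex.I) * W y)
    (Λ : ℂ[X] →ₗ[ℂ] ℂ)
    (hΛ : ∀ P : ℂ[X], Λ P = ∫ y : ℝ, P.eval ((c : ℂ) + (y : ℂ) * Complex.I) * ρ y)
    (hcont : Continuous W)
    (hint : ∀ P : ℂ[X], Integrable (fun y : ℝ => P.eval ((c : ℂ) + (y : ℂ) * Complex.I) * W y))
    (S0 : ℂ[X]) (E : Finset ℝ)
    (h0 : ∀ y : ℝ, 0 ≤ (S0.eval ((c : ℂ) + (y : ℂ) * Complex.I) * W y).re)
    (h1 : ∀ y : ℝ, y ∉ E → 0 < (S0.eval ((c : ℂ) + (y : ℂ) * Complex.I) * W y).re)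
    (Q : ℂ[X]) (hQ : Q ≠ 0) : ∃ T : ℂ[X], Λ (Q * T) ≠ 0 := by
  obtain ⟨T, hT⟩ := hpos_line_dvd c ρ W D N hN hW Λ hΛ hcont hint S0 E h0 h1 Q hQ
  exact ⟨_, hT⟩

/-- growth of a polynomial on a vertical line -/
theorem poly_line_growth (c : ℝ) (P : ℂ[X]) : ∃ (C : ℝ) (d : ℕ), ∀ y : ℝ,
    ‖P.eval ((c : ℂ) + (y : ℂ) * Complex.I)‖ ≤ C * (1 + |y|) ^ d := by
  induction P using Polynomial.induction_on' with
  | add p q hp hq =>
    obtain ⟨C1, d1, h1⟩ := hp
    obtain ⟨C2, d2, h2⟩ := hq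
    refine ⟨|C1| + |C2|, d1 + d2, fun y => ?_⟩
    have hb : (1 : ℝ) ≤ 1 + |y| := by linarith [abs_nonneg y]
    have e1 : (1 + |y|) ^ d1 ≤ (1 + |y|) ^ (d1 + d2) := pow_le_pow_right₀ hb (by omega)
    have e2 : (1 + |y|) ^ d2 ≤ (1 + |y|) ^ (d1 + d2) := pow_le_pow_right₀ hb (by omega)
    have p1 : (0 : ℝ) ≤ (1 + |y|) ^ d1 := by positivity
    have p2 : (0 : ℝ) ≤ (1 + |y|) ^ d2 := by positivity
    calc ‖(p + q).eval _‖ ≤ ‖p.eval ((c : ℂ) + (y : ℂ) * Complex.I)‖ +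
          ‖q.eval ((c : ℂ) + (y : ℂ) * Complex.I)‖ := by
          rw [eval_add]; exact norm_add_le _ _
      _ ≤ C1 * (1 + |y|) ^ d1 + C2 * (1 + |y|) ^ d2 := add_le_add (h1 y) (h2 y)
      _ ≤ |C1| * (1 + |y|) ^ (d1 + d2) + |C2| * (1 + |y|) ^ (d1 + d2) := by
          refine add_le_add ?_ ?_
          · exact (mul_le_mul_of_nonneg_right (le_abs_self _) p1).trans
              (mul_le_mul_of_nonneg_left e1 (abs_nonneg _))
          · exact (mul_le_mul_of_nonneg_right (le_abs_self _) p2).trans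
              (mul_le_mul_of_nonneg_left e2 (abs_nonneg _))
      _ = _ := by ring
  | monomial n a =>
    refine ⟨‖a‖ * (1 + |c|) ^ n, n, fun y => ?_⟩
    rw [eval_monomial, norm_mul, norm_pow]
    have h1 : ‖(c : ℂ) + (y : ℂ) * Complex.I‖ ≤ (1 + |c|) * (1 + |y|) := by
      calc ‖(c : ℂ) + (y : ℂ) * Complex.I‖ ≤ ‖(c : ℂ)‖ + ‖(y : ℂ) * Complex.I‖ := norm_add_le _ _
        _ = |c| + |y| := by
            rw [norm_mul, Complex.norm_I, mul_one, Complex.norm_real, Complex.norm_real,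
              Real.norm_eq_abs, Real.norm_eq_abs]
        _ ≤ _ := by nlinarith [abs_nonneg c, abs_nonneg y]
    calc ‖a‖ * ‖(c : ℂ) + (y : ℂ) * Complex.I‖ ^ n ≤ ‖a‖ * ((1 + |c|) * (1 + |y|)) ^ n := by
          gcongr
      _ = _ := by rw [mul_pow]; ring

/-- integrability of a polynomial against a bounded continuous multiple of the kernel -/
theorem poly_kernel_integrable (c : ℝ) (w : ℝ → ℂ) (hw : Continuous w) (B : ℝ)
    (hB : ∀ y, ‖w y‖ ≤ B) (P : ℂ[X]) :
    Integrable (fun y : ℝ => P.eval ((c : ℂ) + (y : ℂ) * Complex.I) * (w y * (Z3.Ker y : ℂ))) := by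
  obtain ⟨C, d, h⟩ := poly_line_growth c P
  have hzc : Continuous (fun y : ℝ => (c : ℂ) + (y : ℂ) * Complex.I) := continuous_const.add
    (Complex.continuous_ofReal.mul continuous_const)
  have h2 := Z3.integrable_Ker_mul
    (fun y : ℝ => P.eval ((c : ℂ) + (y : ℂ) * Complex.I) * w y)
    ((P.continuous.comp hzc).mul hw) (|C| * B) d ?_
  · refine h2.congr (Filter.Eventually.of_forall fun y => ?_)
    simp only
    ring
  · intro y
    rw [norm_mul]
    have hB0 : 0 ≤ B := (norm_nonneg _).trans (hB y)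
    have p1 : (0 : ℝ) ≤ (1 + |y|) ^ d := by positivity
    calc ‖P.eval ((c : ℂ) + (y : ℂ) * Complex.I)‖ * ‖w y‖
        ≤ (|C| * (1 + |y|) ^ d) * B := by
          refine mul_le_mul ((h y).trans ?_) (hB y) (norm_nonneg _) (by positivity)
          exact mul_le_mul_of_nonneg_right (le_abs_self _) p1
      _ = _ := by ring

/-- the kernel for `1, ζ(2), ζ(3)` -/
noncomputable def W1 (a1 a2 : ℝ) (y : ℝ) : ℂ :=
  ((a1 : ℂ) + ((a2 * Real.pi * Real.tanh (Real.pi * y) : ℝ) : ℂ) * Complex.I) * (Z3.Ker y : ℂ)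

theorem continuous_tanh_pi : Continuous (fun y : ℝ => Real.tanh (Real.pi * y)) := by
  have : (fun y : ℝ => Real.tanh (Real.pi * y)) =
      fun y => Real.sinh (Real.pi * y) / Real.cosh (Real.pi * y) := by
    funext y
    rw [Real.tanh_eq_sinh_div_cosh]
  rw [this]
  refine Continuous.div ?_ ?_ (fun y => (Real.cosh_pos _).ne')
  · exact Real.continuous_sinh.comp (continuous_const.mul continuous_id)
  · exact Real.continuous_cosh.comp (continuous_const.mul continuous_id)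

theorem abs_tanh_le (x : ℝ) : |Real.tanh x| ≤ 1 := by
  rw [Real.tanh_eq_sinh_div_cosh, abs_div, abs_of_pos (Real.cosh_pos x), div_le_one (Real.cosh_pos x)]
  rw [abs_le]
  constructor
  · have := Real.cosh_eq x
    have h2 := Real.sinh_eq x
    have := Real.exp_pos x
    have := Real.exp_pos (-x)
    linarith
  · have := Real.cosh_eq x
    have h2 := Real.sinh_eq x
    have := Real.exp_pos x
    have := Real.exp_pos (-x)
    linarith

theorem mul_tanh_pos (y : ℝ) (hy : y ≠ 0) : 0 < y * Real.tanh (Real.pi * y) := by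
  rw [Real.tanh_eq_sinh_div_cosh, ← mul_div_assoc]
  refine div_pos ?_ (Real.cosh_pos _)
  rcases lt_or_gt_of_ne hy with h | h
  · exact mul_pos_of_neg_of_neg h (Real.sinh_neg_iff.mpr (mul_neg_of_pos_of_neg Real.pi_pos h))
  · exact mul_pos h (Real.sinh_pos_iff.mpr (mul_pos Real.pi_pos h))

theorem continuous_W1 (a1 a2 : ℝ) : Continuous (W1 a1 a2) := by
  unfold W1
  refine Continuous.mul (continuous_const.add ?_)
    (Complex.continuous_ofReal.comp Z3.continuous_Ker)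
  exact (Complex.continuous_ofReal.comp (continuous_const.mul continuous_tanh_pi)).mul
    continuous_const

theorem W1_integrable (c a1 a2 : ℝ) (P : ℂ[X]) :
    Integrable (fun y : ℝ => P.eval ((c : ℂ) + (y : ℂ) * Complex.I) * W1 a1 a2 y) := by
  refine poly_kernel_integrable c
    (fun y => (a1 : ℂ) + ((a2 * Real.pi * Real.tanh (Real.pi * y) : ℝ) : ℂ) * Complex.I) ?_
    (|a1| + |a2| * Real.pi) ?_ P
  · exact continuous_const.add ((Complex.continuous_ofReal.comp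
      (continuous_const.mul continuous_tanh_pi)).mul continuous_const)
  · intro y
    refine (norm_add_le _ _).trans ?_
    rw [norm_mul, Complex.norm_I, mul_one, Complex.norm_real, Complex.norm_real,
      Real.norm_eq_abs, Real.norm_eq_abs, abs_mul, abs_mul, abs_of_pos Real.pi_pos]
    have := abs_tanh_le (Real.pi * y)
    have h2 : |a2| * Real.pi * |Real.tanh (Real.pi * y)| ≤ |a2| * Real.pi * 1 := by
      gcongr
    linarith

/-- **hpos for the kernel of `1, ζ(2), ζ(3)`.** -/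
theorem hpos_W1_dvd (c a1 a2 : ℝ) (ha : a1 ≠ 0 ∨ a2 ≠ 0) (ρ : ℝ → ℂ) (D N : ℂ[X]) (hN : N ≠ 0)
    (hW : ∀ y : ℝ, ρ y * D.eval ((c : ℂ) + (y : ℂ) * Complex.I) =
      N.eval ((c : ℂ) + (y : ℂ) * Complex.I) * W1 a1 a2 y)
    (Λ : ℂ[X] →ₗ[ℂ] ℂ)
    (hΛ : ∀ P : ℂ[X], Λ P = ∫ y : ℝ, P.eval ((c : ℂ) + (y : ℂ) * Complex.I) * ρ y)
    (Q : ℂ[X]) (hQ : Q ≠ 0) : ∃ T : ℂ[X], Λ (Q * (D * T)) ≠ 0 := by
  have hk : ∀ y, 0 < Z3.Ker y := Z3.Ker_pos
  by_cases h1 : a1 = 0
  · have h2 : a2 ≠ 0 := by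
      rcases ha with h | h
      · exact absurd h1 h
      · exact h
    have hre : ∀ y : ℝ, ((C (-a2 : ℂ) * (X - C (c : ℂ)) : ℂ[X]).eval
        ((c : ℂ) + (y : ℂ) * Complex.I) * W1 a1 a2 y).re =
        a2 ^ 2 * Real.pi * (y * Real.tanh (Real.pi * y)) * Z3.Ker y := by
      intro y
      have e : (C (-a2 : ℂ) * (X - C (c : ℂ)) : ℂ[X]).eval
          ((c : ℂ) + (y : ℂ) * Complex.I) * W1 a1 a2 y =
          ((a2 ^ 2 * Real.pi * (y * Real.tanh (Real.pi * y)) * Z3.Ker y : ℝ) : ℂ) := by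
        unfold W1
        rw [h1]
        simp only [eval_mul, eval_C, eval_sub, eval_X]
        have : Complex.I * Complex.I = -1 := Complex.I_mul_I
        push_cast
        linear_combination (-(a2 : ℂ) ^ 2 * Real.pi * y * Complex.tanh (Real.pi * y) *
          Z3.Ker y) * this
      rw [e, Complex.ofReal_re]
    refine hpos_line_dvd c ρ (W1 a1 a2) D N hN hW Λ hΛ (continuous_W1 a1 a2) (W1_integrable c a1 a2)
      (C (-a2 : ℂ) * (X - C (c : ℂ))) {0} ?_ ?_ Q hQ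
    · intro y
      rw [hre]
      have := (hk y).le
      have h3 : 0 ≤ y * Real.tanh (Real.pi * y) := by
        rcases eq_or_ne y 0 with rfl | hy
        · simp
        · exact (mul_tanh_pos y hy).le
      have := Real.pi_pos
      positivity
    · intro y hy
      rw [hre]
      have hy' : y ≠ 0 := by simpa using hy
      have := hk y
      have h3 := mul_tanh_pos y hy'
      have := Real.pi_pos
      have : 0 < a2 ^ 2 := by positivity
      positivity
  · have hre : ∀ y : ℝ, ((C (a1 : ℂ) : ℂ[X]).eval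
        ((c : ℂ) + (y : ℂ) * Complex.I) * W1 a1 a2 y).re = a1 ^ 2 * Z3.Ker y := by
      intro y
      unfold W1
      rw [eval_C, ← mul_assoc, Complex.re_mul_ofReal, Complex.re_ofReal_mul, Complex.add_re,
        Complex.ofReal_re, Complex.re_ofReal_mul, Complex.I_re]
      ring
    have hp : ∀ y : ℝ, 0 < a1 ^ 2 * Z3.Ker y := by
      intro y
      have := hk y
      positivity
    refine hpos_line_dvd c ρ (W1 a1 a2) D N hN hW Λ hΛ (continuous_W1 a1 a2) (W1_integrable c a1 a2)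
      (C (a1 : ℂ)) ∅ ?_ ?_ Q hQ
    · intro y
      rw [hre]
      exact (hp y).le
    · intro y _
      rw [hre]
      exact hp y

theorem hpos_W1 (c a1 a2 : ℝ) (ha : a1 ≠ 0 ∨ a2 ≠ 0) (ρ : ℝ → ℂ) (D N : ℂ[X]) (hN : N ≠ 0)
    (hW : ∀ y : ℝ, ρ y * D.eval ((c : ℂ) + (y : ℂ) * Complex.I) =
      N.eval ((c : ℂ) + (y : ℂ) * Complex.I) * W1 a1 a2 y)
    (Λ : ℂ[X] →ₗ[ℂ] ℂ)
    (hΛ : ∀ P : ℂ[X], Λ P = ∫ y : ℝ, P.eval ((c : ℂ) + (y : ℂ) * Complex.I) * ρ y)
    (Q : ℂ[X]) (hQ : Q ≠ 0) : ∃ T : ℂ[X], Λ (Q * T) ≠ 0 := by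
  obtain ⟨T, hT⟩ := hpos_W1_dvd c a1 a2 ha ρ D N hN hW Λ hΛ Q hQ
  exact ⟨_, hT⟩

end Pool.Agent.D23
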