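import Mathlib
import Pool.Agent.D23.ArchPP
import Pool.Agent.D23.ArchLog
import Pool.Agent.D23.Fam
import Pool.Agent.D23.Pos

/-!
# The pointwise domination on the vertical line `Re t = 1/2 - n`

`R(t) = κ (t)_{2n} (t)_{3n} (t+n)_{2n} / (t+4n)_{6n}`, `κ = (6n)! / ((2n)!² (3n)!)`.
-/

open Finset Polynomial

namespace Pool.Agent.D23

open Pool.Agent.Z3 (Ker)

lemma prod_refl_half (n : ℕ) (z : ℝ) :
    ∏ i ∈ Ico 0 n, (((i : ℝ) + 1 / 2 - n) ^ 2 + z) = PP 0 n z := by
  unfold PP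
  rw [← range_eq_Ico, ← Finset.prod_range_reflect]
  apply prod_congr rfl
  intro k hk
  have hk' := mem_range.mp hk
  have h : ((n - 1 - k : ℕ) : ℝ) = n - 1 - k := by
    rw [Nat.cast_sub (by omega), Nat.cast_sub (by omega)]
    norm_num
  rw [h]
  ring

lemma prod_shift_half (n a b : ℕ) (z : ℝ) :
    ∏ i ∈ Ico (n + a) (n + b), (((i : ℝ) + 1 / 2 - n) ^ 2 + z) = PP a b z := by
  unfold PP
  rw [add_comm n a, add_comm n b, ← Finset.prod_Ico_add]
  apply prod_congr rfl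
  intro k _
  push_cast
  ring

lemma prod_line_sq (n : ℕ) (y : ℝ) (s : Finset ℕ) :
    ‖∏ i ∈ s, (ln (1 - n) y + (i : ℂ))‖ ^ 2 = ∏ i ∈ s, (((i : ℝ) + 1 / 2 - n) ^ 2 + y ^ 2) := by
  rw [norm_prod, ← prod_pow]
  apply prod_congr rfl
  intro i _
  rw [← Complex.normSq_eq_norm_sq, Complex.normSq_apply]
  have h1 : (ln (1 - n) y + (i : ℂ)).re = (i : ℝ) + 1 / 2 - n := by
    rw [Complex.add_re, ln_re, Complex.natCast_re]
    push_cast
    ring
  have h2 : (ln (1 - n) y + (i : ℂ)).im = y := by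
    rw [Complex.add_im, ln_im, Complex.natCast_im, add_zero]
  rw [h1, h2]
  ring

/-- `(t)_{n+b}` on the line -/
lemma line_zero (n b : ℕ) (y : ℝ) :
    ‖∏ i ∈ Ico 0 (n + b), (ln (1 - n) y + (i : ℂ))‖ ^ 2 = PP 0 n (y ^ 2) * PP 0 b (y ^ 2) := by
  rw [prod_line_sq, ← prod_Ico_consecutive _ (Nat.zero_le n) (Nat.le_add_right n b), prod_refl_half,
    ← prod_shift_half n 0 b, add_zero]

lemma line_shift (n a b : ℕ) (y : ℝ) :
    ‖∏ i ∈ Ico (n + a) (n + b), (ln (1 - n) y + (i : ℂ))‖ ^ 2 = PP a b (y ^ 2) := by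
  rw [prod_line_sq, prod_shift_half]

/-! ### the weight from below -/

lemma sinh_le_mul_cosh (x : ℝ) (hx : 0 ≤ x) : Real.sinh x ≤ x * Real.cosh x := by
  have hd : ∀ x : ℝ, HasDerivAt (fun x => x * Real.cosh x - Real.sinh x) (x * Real.sinh x) x := by
    intro x
    refine (((hasDerivAt_id x).fun_mul (Real.hasDerivAt_cosh x)).fun_sub (Real.hasDerivAt_sinh x)).congr_deriv ?_
    simp
  have hm : MonotoneOn (fun x => x * Real.cosh x - Real.sinh x) (Set.Ici 0) := by
    apply monotoneOn_of_deriv_nonneg (convex_Ici 0)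
    · exact fun x _ => (hd x).continuousAt.continuousWithinAt
    · exact fun x _ => (hd x).differentiableAt.differentiableWithinAt
    · intro x hx
      rw [interior_Ici, Set.mem_Ioi] at hx
      rw [(hd x).deriv]
      exact mul_nonneg hx.le (Real.sinh_nonneg_iff.mpr hx.le)
  have h := hm (Set.mem_Ici.mpr le_rfl) (Set.mem_Ici.mpr hx) hx
  simp only [zero_mul, Real.sinh_zero, sub_zero] at h
  linarith

lemma fac_ge (x : ℝ) (hx : x ≠ 0) : 1 / Real.cosh x ^ 2 ≤ 2 * x / Real.sinh (2 * x) := by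
  have key : ∀ x : ℝ, 0 < x → 1 / Real.cosh x ^ 2 ≤ 2 * x / Real.sinh (2 * x) := by
    intro x hx
    have hc := Real.cosh_pos x
    have hs : 0 < Real.sinh x := Real.sinh_pos_iff.mpr hx
    rw [Real.sinh_two_mul, div_le_div_iff₀ (by positivity) (by positivity)]
    have := sinh_le_mul_cosh x hx.le
    nlinarith [mul_le_mul_of_nonneg_left this hc.le]
  rcases lt_or_gt_of_ne hx with h | h
  · have h1 := key (-x) (by linarith)
    rw [Real.cosh_neg, mul_neg, Real.sinh_neg, neg_div_neg_eq] at h1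
    exact h1
  · exact key x h

lemma prod_ge (N : ℕ) (y : ℝ) :
    4 ^ (2 * N) * (PP 0 N (y ^ 2)) ^ 2 ≤ ∏ l ∈ range (2 * N), (((l : ℝ) + 1) ^ 2 + (2 * y) ^ 2) := by
  induction N with
  | zero => simp [PP]
  | succ N ih =>
    have e1 : 2 * (N + 1) = 2 * N + 1 + 1 := by ring
    rw [e1, prod_range_succ, prod_range_succ]
    have e2 : PP 0 (N + 1) (y ^ 2) = PP 0 N (y ^ 2) * (((N : ℝ) + 1 / 2) ^ 2 + y ^ 2) :=
      prod_Ico_succ_top (Nat.zero_le N) _
    rw [e2]
    have hP := PP_pos 0 N (sq_nonneg y)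
    have hR : 0 ≤ ∏ l ∈ range (2 * N), (((l : ℝ) + 1) ^ 2 + (2 * y) ^ 2) :=
      prod_nonneg fun _ _ => by positivity
    have hA : 0 ≤ ((N : ℝ) + 1 / 2) ^ 2 + y ^ 2 := by positivity
    calc (4 : ℝ) ^ (2 * N + 1 + 1) * (PP 0 N (y ^ 2) * (((N : ℝ) + 1 / 2) ^ 2 + y ^ 2)) ^ 2
        = (4 ^ (2 * N) * (PP 0 N (y ^ 2)) ^ 2) * (4 * (((N : ℝ) + 1 / 2) ^ 2 + y ^ 2)) *
          (4 * (((N : ℝ) + 1 / 2) ^ 2 + y ^ 2)) := by ring
      _ ≤ (∏ l ∈ range (2 * N), (((l : ℝ) + 1) ^ 2 + (2 * y) ^ 2)) *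
          ((((2 * N : ℕ) : ℝ) + 1) ^ 2 + (2 * y) ^ 2) *
          ((((2 * N + 1 : ℕ) : ℝ) + 1) ^ 2 + (2 * y) ^ 2) := by
        apply mul_le_mul (mul_le_mul ih (le_of_eq ?_) (by positivity) hR) ?_ (by positivity)
          (by positivity)
        · push_cast
          ring
        · push_cast
          nlinarith [Nat.cast_nonneg (α := ℝ) N]

/-- the weight from below -/
theorem wt_ge (N : ℕ) (y : ℝ) :
    4 ^ (2 * N) * (PP 0 N (y ^ 2)) ^ 2 / Real.cosh (Real.pi * y) ^ 2 ≤ wt (2 * N) y := by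
  have hg := prod_ge N y
  have hc : 0 < Real.cosh (Real.pi * y) ^ 2 := by positivity
  have hR : 0 ≤ ∏ l ∈ range (2 * N), (((l : ℝ) + 1) ^ 2 + (2 * y) ^ 2) :=
      prod_nonneg fun _ _ => by positivity
  by_cases hy : y = 0
  · subst hy
    rw [wt_zero, mul_zero, Real.cosh_zero, one_pow, div_one]
    refine hg.trans (le_of_eq ?_)
    rw [← Finset.prod_range_add_one_eq_factorial]
    push_cast
    rw [← prod_pow]
    apply prod_congr rfl
    intro l _
    ring
  · rw [wt_prod _ _ hy]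
    have h1 := fac_ge (Real.pi * y) (mul_ne_zero Real.pi_ne_zero hy)
    have e : 2 * (Real.pi * y) = Real.pi * (2 * y) := by ring
    rw [e] at h1
    calc 4 ^ (2 * N) * (PP 0 N (y ^ 2)) ^ 2 / Real.cosh (Real.pi * y) ^ 2
        = 1 / Real.cosh (Real.pi * y) ^ 2 * (4 ^ (2 * N) * (PP 0 N (y ^ 2)) ^ 2) := by ring
      _ ≤ (Real.pi * (2 * y) / Real.sinh (Real.pi * (2 * y))) *
          ∏ l ∈ range (2 * N), (((l : ℝ) + 1) ^ 2 + (2 * y) ^ 2) := by
        apply mul_le_mul h1 hg (by positivity)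
        exact le_trans (by positivity) h1

/-! ### the domination -/

/-- the constant -/
noncomputable def Bn (n : ℕ) : ℝ :=
  4 * (kap n : ℝ) * (Real.exp 7 / ((n : ℝ) ^ 7 * (256 * 116600000))) ^ n

lemma kap_pos4 (n : ℕ) : 0 < kap n := by
  unfold kap
  positivity

/-- the rational function on the line -/
theorem norm_line_le (n : ℕ) (hn : 1 ≤ n) (y : ℝ) :
    ‖(kap n : ℂ) * ((∏ i ∈ Ico 0 (2 * n), (ln (1 - n) y + (i : ℂ))) *
      (∏ i ∈ Ico 0 (3 * n), (ln (1 - n) y + (i : ℂ))) *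
      (∏ i ∈ Ico n (3 * n), (ln (1 - n) y + (i : ℂ)))) /
      ∏ k ∈ Ico (4 * n) (10 * n), (ln (1 - n) y + (k : ℂ))‖ / Real.cosh (Real.pi * y) ^ 2
      ≤ Bn n * wt (4 * n) y := by
  have hn' : (0 : ℝ) < n := by exact_mod_cast hn
  set z : ℝ := y ^ 2 with hz
  have hz0 : 0 ≤ z := sq_nonneg y
  have n1 : ‖∏ i ∈ Ico 0 (2 * n), (ln (1 - n) y + (i : ℂ))‖ ^ 2 = PP 0 n z * PP 0 n z := by
    have h := line_zero n n y
    rwa [← two_mul] at h
  have n2 : ‖∏ i ∈ Ico 0 (3 * n), (ln (1 - n) y + (i : ℂ))‖ ^ 2 = PP 0 n z * PP 0 (2 * n) z := by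
    have h := line_zero n (2 * n) y
    rwa [show n + 2 * n = 3 * n by ring] at h
  have n3 : ‖∏ i ∈ Ico n (3 * n), (ln (1 - n) y + (i : ℂ))‖ ^ 2 = PP 0 (2 * n) z := by
    have h := line_shift n 0 (2 * n) y
    rwa [show n + 2 * n = 3 * n by ring, add_zero] at h
  have n4 : ‖∏ k ∈ Ico (4 * n) (10 * n), (ln (1 - n) y + (k : ℂ))‖ ^ 2 = PP (3 * n) (9 * n) z := by
    have h := line_shift n (3 * n) (9 * n) y
    rwa [show n + 3 * n = 4 * n by ring, show n + 9 * n = 10 * n by ring] at h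
  have p1 := PP_pos 0 n hz0
  have p2 := PP_pos 0 (2 * n) hz0
  have p3 := PP_pos (3 * n) (9 * n) hz0
  have p4 := PP_pos n (2 * n) hz0
  have hkey := PP_key n hn z hz0
  have hk : (0 : ℝ) < (kap n : ℝ) := by exact_mod_cast kap_pos4 n
  set V : ℝ := ‖(kap n : ℂ) * ((∏ i ∈ Ico 0 (2 * n), (ln (1 - n) y + (i : ℂ))) *
      (∏ i ∈ Ico 0 (3 * n), (ln (1 - n) y + (i : ℂ))) *
      (∏ i ∈ Ico n (3 * n), (ln (1 - n) y + (i : ℂ)))) /
      ∏ k ∈ Ico (4 * n) (10 * n), (ln (1 - n) y + (k : ℂ))‖ with hV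
  have hV2 : V ^ 2 = (kap n : ℝ) ^ 2 * (PP 0 n z ^ 3 * PP 0 (2 * n) z ^ 2) / PP (3 * n) (9 * n) z := by
    have hkn : ‖(kap n : ℂ)‖ ^ 2 = (kap n : ℝ) ^ 2 := by
      have : (kap n : ℂ) = ((kap n : ℝ) : ℂ) := by push_cast; rfl
      rw [this, Complex.norm_real, Real.norm_eq_abs, sq_abs]
    rw [hV, norm_div, norm_mul, norm_mul, norm_mul, div_pow, mul_pow, mul_pow, mul_pow, n1, n2, n3,
      n4, hkn]
    ring
  set D : ℝ := 116600000 ^ n * ((n : ℝ) * Real.exp (-1)) ^ (7 * n) with hD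
  have hD0 : 0 < D := by positivity
  have hD2 : (116600000 : ℝ) ^ (2 * n) * ((n : ℝ) ^ 2 * Real.exp (-2)) ^ (7 * n) = D ^ 2 := by
    have e4 : Real.exp (-2) = (Real.exp (-1)) ^ 2 := by
      rw [← Real.exp_nat_mul]
      norm_num
    have e6 : ∀ A w E : ℝ, A ^ (2 * n) * (w ^ 2 * E ^ 2) ^ (7 * n) = (A ^ n * (w * E) ^ (7 * n)) ^ 2 := by
      intro A w E
      rw [← mul_pow w E, mul_pow (A ^ n), ← pow_mul, ← pow_mul, ← pow_mul, mul_comm n 2,
        mul_comm (7 * n) 2]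
    rw [hD, e4, e6]
  rw [hD2] at hkey
  have hPP : PP 0 n z * PP n (2 * n) z = PP 0 (2 * n) z := PP_mul (Nat.zero_le n) (by omega) z
  have hV0 : 0 ≤ V := norm_nonneg _
  have hV3 : V ≤ 4 * (kap n : ℝ) * PP 0 (2 * n) z ^ 2 / D := by
    refine (pow_le_pow_iff_left₀ hV0 (by positivity) two_ne_zero).mp ?_
    rw [hV2, div_pow, div_le_div_iff₀ p3 (by positivity)]
    calc (kap n : ℝ) ^ 2 * (PP 0 n z ^ 3 * PP 0 (2 * n) z ^ 2) * D ^ 2
        = (kap n : ℝ) ^ 2 * PP 0 n z ^ 2 * PP 0 (2 * n) z ^ 2 * (D ^ 2 * PP 0 n z) := by ring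
      _ ≤ (kap n : ℝ) ^ 2 * PP 0 n z ^ 2 * PP 0 (2 * n) z ^ 2 *
          (12 * PP n (2 * n) z ^ 2 * PP (3 * n) (9 * n) z) :=
          mul_le_mul_of_nonneg_left hkey (by positivity)
      _ = 12 * (kap n : ℝ) ^ 2 * (PP 0 n z * PP n (2 * n) z) ^ 2 * PP 0 (2 * n) z ^ 2 *
          PP (3 * n) (9 * n) z := by ring
      _ ≤ 16 * (kap n : ℝ) ^ 2 * (PP 0 n z * PP n (2 * n) z) ^ 2 * PP 0 (2 * n) z ^ 2 *
          PP (3 * n) (9 * n) z := by
          gcongr
          norm_num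
      _ = (4 * (kap n : ℝ) * PP 0 (2 * n) z ^ 2) ^ 2 * PP (3 * n) (9 * n) z := by
          rw [hPP]
          ring
  have hw := wt_ge (2 * n) y
  rw [show 2 * (2 * n) = 4 * n by ring, ← hz] at hw
  have hc : 0 < Real.cosh (Real.pi * y) ^ 2 := by positivity
  calc V / Real.cosh (Real.pi * y) ^ 2
      ≤ (4 * (kap n : ℝ) * PP 0 (2 * n) z ^ 2 / D) / Real.cosh (Real.pi * y) ^ 2 := by gcongr
    _ = (4 * (kap n : ℝ) / (D * 4 ^ (4 * n))) *
        (4 ^ (4 * n) * PP 0 (2 * n) z ^ 2 / Real.cosh (Real.pi * y) ^ 2) := by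
        field_simp
    _ ≤ (4 * (kap n : ℝ) / (D * 4 ^ (4 * n))) * wt (4 * n) y :=
        mul_le_mul_of_nonneg_left hw (by positivity)
    _ = Bn n * wt (4 * n) y := by
        congr 1
        unfold Bn
        rw [div_eq_mul_inv, hD]
        congr 1
        have e7 : Real.exp 7 = (Real.exp (-1) ^ 7)⁻¹ := by
          rw [← Real.exp_nat_mul, ← Real.exp_neg]
          norm_num
        have e8 : (4 : ℝ) ^ (4 * n) = 256 ^ n := by
          rw [pow_mul]
          norm_num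
        have e9 : ∀ A N E : ℝ, (A ^ n * (N * E) ^ (7 * n) * 256 ^ n)⁻¹ =
            ((E ^ 7)⁻¹ / (N ^ 7 * (256 * A))) ^ n := by
          intro A N E
          rw [pow_mul (N * E) 7 n, ← mul_pow, ← mul_pow, ← inv_pow]
          congr 1
          rw [div_eq_mul_inv, ← mul_inv]
          congr 1
          ring
        rw [e7, e8, e9]

/-- the kernel function with the rational function is dominated by the weight -/
theorem dom_kernel (n : ℕ) (hn : 1 ≤ n) (c0 c1 : ℂ) (R : ℂ → ℂ) (y : ℝ)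
    (hR : R (ln (1 - n) y) = (kap n : ℂ) * ((∏ i ∈ Ico 0 (2 * n), (ln (1 - n) y + (i : ℂ))) *
      (∏ i ∈ Ico 0 (3 * n), (ln (1 - n) y + (i : ℂ))) *
      (∏ i ∈ Ico n (3 * n), (ln (1 - n) y + (i : ℂ)))) /
      ∏ k ∈ Ico (4 * n) (10 * n), (ln (1 - n) y + (k : ℂ))) :
    ‖R (ln (1 - n) y) * ((c0 - 2 * Real.pi * c1 * (Th y : ℂ) * Complex.I) * (Ker y : ℂ))‖ ≤
      ((‖c0‖ + 2 * Real.pi * ‖c1‖) * Real.pi * Bn n) * wt (4 * n) y := by
  have h := norm_line_le n hn y
  rw [← hR] at h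
  have hK : ‖(Ker y : ℂ)‖ ≤ Real.pi / Real.cosh (Real.pi * y) ^ 2 := by
    rw [Complex.norm_real, Real.norm_eq_abs, abs_of_nonneg (Pool.Agent.Z3.Ker_nonneg y)]
    unfold Ker
    gcongr
    have : 0 < Real.cosh (Real.pi * y) ^ 2 := by positivity
    linarith
  have hc : ‖c0 - 2 * Real.pi * c1 * (Th y : ℂ) * Complex.I‖ ≤ ‖c0‖ + 2 * Real.pi * ‖c1‖ := by
    refine (norm_sub_le _ _).trans ?_
    gcongr
    rw [norm_mul, norm_mul, norm_mul, norm_mul, Complex.norm_I, mul_one, Complex.norm_real,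
      Complex.norm_real, Complex.norm_ofNat, Real.norm_eq_abs, Real.norm_eq_abs,
      abs_of_pos Real.pi_pos]
    have h1 := (abs_Th y).le
    have h2 : 0 ≤ 2 * Real.pi * ‖c1‖ := by positivity
    nlinarith
  rw [norm_mul, norm_mul]
  calc ‖R (ln (1 - n) y)‖ * (‖c0 - 2 * Real.pi * c1 * (Th y : ℂ) * Complex.I‖ * ‖(Ker y : ℂ)‖)
      ≤ ‖R (ln (1 - n) y)‖ * ((‖c0‖ + 2 * Real.pi * ‖c1‖) *
        (Real.pi / Real.cosh (Real.pi * y) ^ 2)) := by
        gcongr
    _ = ((‖c0‖ + 2 * Real.pi * ‖c1‖) * Real.pi) *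
        (‖R (ln (1 - n) y)‖ / Real.cosh (Real.pi * y) ^ 2) := by ring
    _ ≤ ((‖c0‖ + 2 * Real.pi * ‖c1‖) * Real.pi) * (Bn n * wt (4 * n) y) :=
        mul_le_mul_of_nonneg_left h (by positivity)
    _ = _ := by ring

/-- the rational function of the family -/
theorem RF_fam (n : ℕ) (t : ℂ) : RF (KP n) (SS n 1) t =
    (kap n : ℂ) * ((∏ i ∈ Ico 0 (2 * n), (t + (i : ℂ))) * (∏ i ∈ Ico 0 (3 * n), (t + (i : ℂ))) *
      (∏ i ∈ Ico n (3 * n), (t + (i : ℂ)))) / ∏ k ∈ Ico (4 * n) (10 * n), (t + (k : ℂ)) := by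
  unfold RF KP SS num
  congr 1
  rw [mul_one, map_mul, map_mul, map_mul, map_prod, map_prod, map_prod, aeval_C, ← range_eq_Ico,
    ← range_eq_Ico]
  have h : ∀ i : ℕ, aeval t (X + C (i : ℚ) : ℚ[X]) = t + (i : ℂ) := by
    intro i
    rw [map_add, aeval_X, aeval_C]
    simp
  simp only [h]
  rfl

/-- the domination for the family with the kernel W1 -/
theorem dom_W1 (n : ℕ) (hn : 1 ≤ n) (c0 c1 : ℝ) (y : ℝ) :
    ‖RF (KP n) (SS n 1) (ln (1 - n) y) * W1 c0 c1 y‖ ≤
      ((|c0| + Real.pi * |c1|) * Real.pi * Bn n) * wt (4 * n) y := by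
  have h := norm_line_le n hn y
  rw [← RF_fam] at h
  have hK : ‖(Ker y : ℂ)‖ ≤ Real.pi / Real.cosh (Real.pi * y) ^ 2 := by
    rw [Complex.norm_real, Real.norm_eq_abs, abs_of_nonneg (Pool.Agent.Z3.Ker_nonneg y)]
    unfold Ker
    gcongr
    have : 0 < Real.cosh (Real.pi * y) ^ 2 := by positivity
    linarith
  have hc : ‖(c0 : ℂ) + ((c1 * Real.pi * Real.tanh (Real.pi * y) : ℝ) : ℂ) * Complex.I‖ ≤
      |c0| + Real.pi * |c1| := by
    refine (norm_add_le _ _).trans ?_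
    rw [norm_mul, Complex.norm_I, mul_one, Complex.norm_real, Complex.norm_real, Real.norm_eq_abs,
      Real.norm_eq_abs, abs_mul, abs_mul, abs_of_pos Real.pi_pos]
    have h1 := (abs_Th y).le
    unfold Th at h1
    have h2 : 0 ≤ |c1| * Real.pi := by positivity
    nlinarith
  unfold W1
  rw [norm_mul, norm_mul]
  calc ‖RF (KP n) (SS n 1) (ln (1 - n) y)‖ *
      (‖(c0 : ℂ) + ((c1 * Real.pi * Real.tanh (Real.pi * y) : ℝ) : ℂ) * Complex.I‖ * ‖(Ker y : ℂ)‖)
      ≤ ‖RF (KP n) (SS n 1) (ln (1 - n) y)‖ * ((|c0| + Real.pi * |c1|) *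
        (Real.pi / Real.cosh (Real.pi * y) ^ 2)) := by
        gcongr
    _ = ((|c0| + Real.pi * |c1|) * Real.pi) *
        (‖RF (KP n) (SS n 1) (ln (1 - n) y)‖ / Real.cosh (Real.pi * y) ^ 2) := by ring
    _ ≤ ((|c0| + Real.pi * |c1|) * Real.pi) * (Bn n * wt (4 * n) y) :=
        mul_le_mul_of_nonneg_left h (by positivity)
    _ = _ := by ring

/-! ### logarithms -/

lemma log_fact_lower (m : ℕ) : (m : ℝ) * Real.log m - m ≤ Real.log (m.factorial : ℝ) := by
  rcases Nat.eq_zero_or_pos m with rfl | h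
  · simp
  · have hm : (0 : ℝ) < m := by exact_mod_cast h
    have hf : (0 : ℝ) < (m.factorial : ℝ) := by exact_mod_cast m.factorial_pos
    have h1 := Real.pow_div_factorial_le_exp (m : ℝ) hm.le m
    have h2 := Real.log_le_log (by positivity) h1
    rw [Real.log_exp, Real.log_div (by positivity) hf.ne', Real.log_pow] at h2
    linarith

lemma log_six : Real.log 6 = Real.log 2 + Real.log 3 := by
  rw [← Real.log_mul (by norm_num) (by norm_num)]
  norm_num

lemma log_kap_le (n : ℕ) (hn : 1 ≤ n) : Real.log (kap n : ℝ) ≤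
    (n : ℝ) * (2 * Real.log 2 + 3 * Real.log 3 + 1) - n * Real.log n + (Real.log (6 * n) + 1) := by
  have hn' : (0 : ℝ) < n := by exact_mod_cast hn
  have h6 := log_fact_upper (6 * n) (by omega)
  have h2 := log_fact_lower (2 * n)
  have h3 := log_fact_lower (3 * n)
  have f6 : (0 : ℝ) < ((6 * n).factorial : ℝ) := by exact_mod_cast Nat.factorial_pos _
  have f2 : (0 : ℝ) < ((2 * n).factorial : ℝ) := by exact_mod_cast Nat.factorial_pos _
  have f3 : (0 : ℝ) < ((3 * n).factorial : ℝ) := by exact_mod_cast Nat.factorial_pos _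
  have e : Real.log (kap n : ℝ) = Real.log ((6 * n).factorial : ℝ) - (2 * Real.log ((2 * n).factorial : ℝ)
      + Real.log ((3 * n).factorial : ℝ)) := by
    unfold kap
    push_cast
    rw [Real.log_div f6.ne' (by positivity), Real.log_mul (by positivity) f3.ne', Real.log_pow]
    push_cast
    ring
  rw [e]
  push_cast at h6 h2 h3
  have l6 : Real.log (6 * (n : ℝ)) = Real.log 2 + Real.log 3 + Real.log n := by
    rw [Real.log_mul (by norm_num) hn'.ne', log_six]
  have l2 : Real.log (2 * (n : ℝ)) = Real.log 2 + Real.log n := Real.log_mul (by norm_num) hn'.ne'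
  have l3 : Real.log (3 * (n : ℝ)) = Real.log 3 + Real.log n := Real.log_mul (by norm_num) hn'.ne'
  rw [l6] at h6
  rw [l2] at h2
  rw [l3] at h3
  rw [l6]
  nlinarith

lemma log_num : 3 * Real.log 2 + 15 * Real.log 3 ≤ Real.log 116600000 := by
  have h : (2 : ℝ) ^ 3 * 3 ^ 15 ≤ 116600000 := by norm_num
  have h2 := Real.log_le_log (by norm_num) h
  rw [Real.log_mul (by norm_num) (by norm_num), Real.log_pow, Real.log_pow] at h2
  push_cast at h2
  exact h2

lemma Bn_pos (n : ℕ) (hn : 1 ≤ n) : 0 < Bn n := by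
  have hn' : (0 : ℝ) < n := by exact_mod_cast hn
  have hk : (0 : ℝ) < (kap n : ℝ) := by exact_mod_cast kap_pos4 n
  unfold Bn
  positivity

/-- the logarithm of the constant -/
theorem log_Bn_le (n : ℕ) (hn : 1 ≤ n) : Real.log (Bn n) ≤
    (8 - 9 * Real.log 2 - 12 * Real.log 3) * n - 8 * n * Real.log n +
      (Real.log (6 * n) + 1 + 2 * Real.log 2) := by
  have hn' : (0 : ℝ) < n := by exact_mod_cast hn
  have hk : (0 : ℝ) < (kap n : ℝ) := by exact_mod_cast kap_pos4 n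
  have h1 := log_kap_le n hn
  have h2 := log_num
  have e : Real.log (Bn n) = 2 * Real.log 2 + Real.log (kap n : ℝ) +
      n * (7 - (7 * Real.log n + (8 * Real.log 2 + Real.log 116600000))) := by
    unfold Bn
    have e4 : Real.log 4 = 2 * Real.log 2 := by
      have : (4 : ℝ) = 2 ^ 2 := by norm_num
      rw [this, Real.log_pow]
      norm_num
    have e256 : Real.log 256 = 8 * Real.log 2 := by
      have : (256 : ℝ) = 2 ^ 8 := by norm_num
      rw [this, Real.log_pow]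
      norm_num
    rw [Real.log_mul (by positivity) (by positivity), Real.log_mul (by norm_num) hk.ne', Real.log_pow,
      Real.log_div (by positivity) (by positivity), Real.log_exp, Real.log_mul (by positivity) (by norm_num),
      Real.log_pow, Real.log_mul (by norm_num) (by norm_num), e4, e256]
    norm_num
  rw [e]
  nlinarith

/-- the input of `arch_log` with `μ = 4`: any positive multiple of `Bn` -/
theorem log_mul_Bn_le (C : ℝ) (hC : 1 ≤ C) (n : ℕ) (hn : 1 ≤ n) : Real.log (C * Bn n) ≤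
    (8 - 9 * Real.log 2 - 12 * Real.log 3) * n - 2 * (4 : ℕ) * n * Real.log n +
      (2 * (Real.log C + Real.log 6 + 3 + 2 * Real.log 2)) * Real.log (n + 1) := by
  have hn' : (1 : ℝ) ≤ n := by exact_mod_cast hn
  have h1 := log_Bn_le n hn
  have hB := Bn_pos n hn
  rw [Real.log_mul (by positivity) hB.ne']
  have h2 : Real.log (6 * n) = Real.log 6 + Real.log n := Real.log_mul (by norm_num) (by positivity)
  have h3 : Real.log n ≤ Real.log (n + 1) := Real.log_le_log (by positivity) (by linarith)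
  have h4 : 1 / 2 ≤ Real.log ((n : ℝ) + 1) := by
    have h5 : Real.log 2 ≤ Real.log ((n : ℝ) + 1) := Real.log_le_log (by norm_num) (by linarith)
    have := Real.log_two_gt_d9
    linarith
  have hC0 : 0 ≤ Real.log C := Real.log_nonneg hC
  have h60 : 0 ≤ Real.log 6 := Real.log_nonneg (by norm_num)
  have h20 : 0 ≤ Real.log 2 := Real.log_nonneg (by norm_num)
  have h6 : Real.log C + Real.log 6 + 1 + 2 * Real.log 2 ≤
      2 * (Real.log C + Real.log 6 + 1 + 2 * Real.log 2) * Real.log ((n : ℝ) + 1) := by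
    nlinarith
  have h7 : Real.log n ≤ 4 * Real.log ((n : ℝ) + 1) := by linarith
  push_cast
  rw [h2] at h1
  nlinarith

/-- CONTRACT: pointwise domination with the factorial -/
theorem arch4_raw (c0 c1 : ℝ) : ∀ᶠ n : ℕ in Filter.atTop, ∀ y : ℝ,
    ‖RF (KP n) (SS n 1) (ln (1 - n) y) * W1 c0 c1 y‖ * ((8 * n + 1).factorial : ℝ) ≤
      Real.exp (-(24 / 10) * n) * wt (4 * n) y := by
  set C : ℝ := (|c0| + Real.pi * |c1|) * Real.pi + 1 with hC
  have hC1 : 1 ≤ C := by
    have : 0 ≤ (|c0| + Real.pi * |c1|) * Real.pi := by positivity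
    linarith
  have hlim : ∀ᶠ n : ℕ in Filter.atTop,
      (Real.log C + Real.log 54 + 2 + 5 * Real.log 2) + 3 * Real.log ((n : ℝ) + 1) ≤ (3 / 10) * n := by
    have h1 : Filter.Tendsto (fun x : ℝ => Real.log x / x) Filter.atTop (nhds 0) := by
      have := Real.isLittleO_log_id_atTop
      exact this.tendsto_div_nhds_zero
    have h2 : ∀ᶠ x : ℝ in Filter.atTop, Real.log x / x ≤ 1 / 20 := by
      have := h1.eventually (gt_mem_nhds (show (0 : ℝ) < 1 / 20 by norm_num))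
      filter_upwards [this] with x hx using hx.le
    have h3 : Filter.Tendsto (fun n : ℕ => (n : ℝ) + 1) Filter.atTop Filter.atTop :=
      Filter.tendsto_atTop_add_const_right _ _ tendsto_natCast_atTop_atTop
    have h4 := h3.eventually h2
    have h5 : ∀ᶠ n : ℕ in Filter.atTop,
        (Real.log C + Real.log 54 + 2 + 5 * Real.log 2) + 3 / 20 ≤ (3 / 20) * (n : ℝ) := by
      have h6 : Filter.Tendsto (fun n : ℕ => (3 / 20) * (n : ℝ)) Filter.atTop Filter.atTop :=
        Filter.Tendsto.const_mul_atTop (by norm_num) tendsto_natCast_atTop_atTop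
      exact h6.eventually (Filter.eventually_ge_atTop _)
    filter_upwards [h4, h5] with n h6 h7
    have h8 : (0 : ℝ) < (n : ℝ) + 1 := by positivity
    rw [div_le_iff₀ h8] at h6
    linarith
  filter_upwards [hlim, Filter.eventually_ge_atTop 1] with n h1 hn y
  have hn' : (1 : ℝ) ≤ n := by exact_mod_cast hn
  have hB := Bn_pos n hn
  have hw : 0 ≤ wt (4 * n) y := by
    unfold wt
    positivity
  have hdom := dom_W1 n hn c0 c1 y
  have hf : (0 : ℝ) < ((8 * n + 1).factorial : ℝ) := by exact_mod_cast Nat.factorial_pos _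
  have hkey : C * Bn n * ((8 * n + 1).factorial : ℝ) ≤ Real.exp (-(24 / 10) * n) := by
    rw [← Real.log_le_iff_le_exp (by positivity), Real.log_mul (by positivity) hf.ne',
      Real.log_mul (by positivity) hB.ne']
    have h2 := log_Bn_le n hn
    have h3 := log_fact_upper (8 * n) (by omega)
    have hf8 : (0 : ℝ) < ((8 * n).factorial : ℝ) := by exact_mod_cast Nat.factorial_pos _
    have h4 : Real.log ((8 * n + 1).factorial : ℝ) = Real.log (8 * n + 1) + Real.log ((8 * n).factorial : ℝ) := by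
      rw [Nat.factorial_succ]
      push_cast
      rw [Real.log_mul (by positivity) hf8.ne']
    rw [h4]
    push_cast at h3
    have l8 : Real.log (8 * (n : ℝ)) = 3 * Real.log 2 + Real.log n := by
      rw [Real.log_mul (by norm_num) (by positivity)]
      have : (8 : ℝ) = 2 ^ 3 := by norm_num
      rw [this, Real.log_pow]
      norm_num
    have l6 : Real.log (6 * (n : ℝ)) = Real.log 6 + Real.log n :=
      Real.log_mul (by norm_num) (by positivity)
    have l9 : Real.log (8 * (n : ℝ) + 1) ≤ Real.log 9 + Real.log ((n : ℝ) + 1) := by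
      rw [← Real.log_mul (by norm_num) (by positivity)]
      exact Real.log_le_log (by positivity) (by linarith)
    have l54 : Real.log 54 = Real.log 6 + Real.log 9 := by
      rw [← Real.log_mul (by norm_num) (by norm_num)]
      norm_num
    have l8c : Real.log (8 : ℝ) = 3 * Real.log 2 := by
      have : (8 : ℝ) = 2 ^ 3 := by norm_num
      rw [this, Real.log_pow]
      norm_num
    have lnn : Real.log (n : ℝ) ≤ Real.log ((n : ℝ) + 1) := Real.log_le_log (by positivity) (by linarith)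
    have l23 : 19 * Real.log 2 ≤ 12 * Real.log 3 := by
      have h5 : (2 : ℝ) ^ 19 ≤ 3 ^ 12 := by norm_num
      have h6 := Real.log_le_log (by norm_num) h5
      rw [Real.log_pow, Real.log_pow] at h6
      push_cast at h6
      exact h6
    have l2 := Real.log_two_gt_d9
    rw [l8] at h3
    rw [l6] at h2
    rw [l54] at h1
    have h7 : (15 * Real.log 2 - 12 * Real.log 3) * (n : ℝ) ≤ -(27 / 10) * n := by
      apply mul_le_mul_of_nonneg_right _ (by positivity)
      linarith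
    nlinarith
  calc ‖RF (KP n) (SS n 1) (ln (1 - n) y) * W1 c0 c1 y‖ * ((8 * n + 1).factorial : ℝ)
      ≤ (((|c0| + Real.pi * |c1|) * Real.pi * Bn n) * wt (4 * n) y) * ((8 * n + 1).factorial : ℝ) := by
        gcongr
    _ ≤ ((C * Bn n) * wt (4 * n) y) * ((8 * n + 1).factorial : ℝ) := by
        gcongr
        rw [hC]
        linarith
    _ = (C * Bn n * ((8 * n + 1).factorial : ℝ)) * wt (4 * n) y := by ring
    _ ≤ _ := mul_le_mul_of_nonneg_right hkey hw

end Pool.Agent.D23
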