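import Pool.Agent.D23.LinMap
import Pool.Agent.D23.Pos
import Pool.Agent.Z3D.Pade

/-!
# Link between the rational functional and the integral on the analytic line (general blocks)
-/

open Finset Filter Topology Complex MeasureTheory Polynomial
open scoped BigOperators

namespace Pool.Agent.D23

open Pool.Agent.Z3 (PolyGrowth line_re line_im Iint H Ker zeta3)

theorem RF_mul (K : Finset ℕ) (P N : ℚ[X]) (t : ℂ) : RF K (P * N) t = aeval t P * RF K N t := by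
  unfold RF
  rw [map_mul, mul_div_assoc]

theorem HG_RF (K : Finset ℕ) (S : ℚ[X]) (a : ℕ) (ha : ∀ k ∈ K, a ≤ k) (x0 : ℝ)
    (hx : -(a : ℝ) < x0) : HG x0 (RF K S) := by
  refine (HG_rfd ((S /ₘ den K).map (algebraMap ℚ ℂ)) K (fun k => ((res K S k : ℚ) : ℂ)) a ha x0 hx
    0).congr (fun t ht => ?_)
  exact RF_eq K S t (fun k hk => ne_zero_of_re (ha k hk) (hx.trans ht))

/-- moving the line across one integer with a triple zero -/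
theorem Lf_RF_step (K : Finset ℕ) (S : ℚ[X]) (a : ℕ) (ha : ∀ k ∈ K, a ≤ k) (i : ℕ)
    (hi : i < a) (h3 : (X + C (i : ℚ)) ^ 3 ∣ S) (c : ℕ → ℂ) :
    Lf c 1 (-(i : ℤ) + 1) (RF K S) = Lf c 1 (-(i : ℤ)) (RF K S) := by
  obtain ⟨Q, rfl⟩ := h3
  have hia : (i : ℝ) + 1 ≤ a := by exact_mod_cast hi
  have hx : -(a : ℝ) < -(a : ℝ) + 1 / 4 := by linarith
  have hm : -(a : ℝ) + 1 / 4 < ((-(i : ℤ) : ℤ) : ℝ) - 1 / 2 := by
    push_cast
    linarith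
  have h := Lf_mul_shift c 1 (-(i : ℤ)) (-(a : ℝ) + 1 / 4) (RF K ((X + C (i : ℚ)) ^ 3 * Q))
    (HG_RF K _ a ha _ hx) hm (RF K Q) (HG_RF K _ a ha _ hx) (fun t _ => by
      rw [RF_mul]
      simp) 1
  simpa only [eval_one, one_mul] using h

/-- moving the line across a block of triple zeros -/
theorem Lf_RF_move (K : Finset ℕ) (S : ℚ[X]) (a : ℕ) (ha : ∀ k ∈ K, a ≤ k) (u v : ℕ)
    (huv : u ≤ v) (hv : v ≤ a) (h3 : ∀ i, u ≤ i → i < v → (X + C (i : ℚ)) ^ 3 ∣ S) (c : ℕ → ℂ) :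
    Lf c 1 (1 - (u : ℤ)) (RF K S) = Lf c 1 (1 - (v : ℤ)) (RF K S) := by
  induction v with
  | zero =>
    have : u = 0 := by omega
    subst this
    rfl
  | succ v ih =>
    rcases Nat.lt_or_ge v u with h | h
    · have : u = v + 1 := by omega
      subst this
      rfl
    · rw [ih h (by omega) (fun i h1 h2 => h3 i h1 (by omega))]
      have h4 := Lf_RF_step K S a ha v (by omega) (h3 v h (by omega)) c
      have e1 : (1 - (v : ℤ)) = -(v : ℤ) + 1 := by ring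
      have e2 : (1 - ((v + 1 : ℕ) : ℤ)) = -(v : ℤ) := by push_cast; ring
      rw [e1, e2, h4]

/-- the kernel integral of the functional with the coefficients of the relation -/
theorem Lf_W1 (K : Finset ℕ) (N P : ℚ[X]) (a : ℕ) (ha : ∀ k ∈ K, a ≤ k) (m : ℤ) (hm : 1 ≤ m + a)
    (c0 c1 : ℝ) :
    Lf (fun j => if j = 0 then (c0 : ℂ) else -(c1 : ℂ) / 2) 1 m (RF K (P * N)) =
      ∫ y : ℝ, aeval (ln m y) P * (RF K N (ln m y) * W1 c0 c1 y) := by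
  have hm' : (1 : ℝ) ≤ (m : ℝ) + a := by exact_mod_cast hm
  rw [Lf_one _ (HG_RF K (P * N) a ha (-(a : ℝ) + 1 / 4) (by linarith)) m (by linarith)]
  congr 1
  funext y
  rw [RF_mul]
  simp only [if_true, one_ne_zero, if_false]
  unfold W1 Th
  push_cast
  ring

/-- **LINK**, perturbed form: any `z` -/
theorem link_pert (K : Finset ℕ) (N : ℚ[X]) (a : ℕ) (ha : ∀ k ∈ K, a ≤ k) (u v : ℕ)
    (huv : u ≤ v) (hv : v ≤ a) (h3 : ∀ i, u ≤ i → i < v → (X + C (i : ℚ)) ^ 3 ∣ N)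
    (z c0 c1 : ℚ) (P : ℚ[X]) :
    ((Lr K (1 - (v : ℤ)) N z c0 c1 P : ℚ) : ℂ) +
        ((c0 : ℂ) * (zt 2 : ℂ) + (c1 : ℂ) * (zt 3 : ℂ) - (z : ℂ)) * ((qq K (P * N) : ℚ) : ℂ) =
      ∫ y : ℝ, aeval (ln (1 - (u : ℤ)) y) P *
        (RF K N (ln (1 - (u : ℤ)) y) * W1 (c0 : ℝ) (c1 : ℝ) y) := by
  have h1 := Lf_W1 K N P a ha (1 - (u : ℤ)) (by omega) (c0 : ℝ) (c1 : ℝ)
  have h2 := Lf_RF_move K (P * N) a ha u v huv hv
    (fun i hi1 hi2 => Dvd.dvd.mul_left (h3 i hi1 hi2) P)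
    (fun j => if j = 0 then ((c0 : ℝ) : ℂ) else -((c1 : ℝ) : ℂ) / 2)
  rw [← h1, h2]
  have h4 := Lf_Lr_pert K N a ha (1 - (v : ℤ)) (by omega) z c0 c1 P
  rw [← h4]
  push_cast
  rfl

/-- **LINK**, exact relation -/
theorem link_exact (K : Finset ℕ) (N : ℚ[X]) (a : ℕ) (ha : ∀ k ∈ K, a ≤ k) (u v : ℕ)
    (huv : u ≤ v) (hv : v ≤ a) (h3 : ∀ i, u ≤ i → i < v → (X + C (i : ℚ)) ^ 3 ∣ N)
    (z c0 c1 : ℚ) (hz : (c0 : ℝ) * zt 2 + c1 * zt 3 = z) (P : ℚ[X]) :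
    ((Lr K (1 - (v : ℤ)) N z c0 c1 P : ℚ) : ℂ) =
      ∫ y : ℝ, aeval (ln (1 - (u : ℤ)) y) P *
        (RF K N (ln (1 - (u : ℤ)) y) * W1 (c0 : ℝ) (c1 : ℝ) y) := by
  rw [← link_pert K N a ha u v huv hv h3 z c0 c1 P]
  have h : ((c0 : ℂ) * (zt 2 : ℂ) + (c1 : ℂ) * (zt 3 : ℂ) - (z : ℂ)) = 0 := by
    have := congrArg (fun x : ℝ => (x : ℂ)) hz
    push_cast at this
    rw [this, sub_self]
  rw [h, zero_mul, add_zero]

/-- the determinant as a determinant of moments -/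
theorem link_det_exact (K : Finset ℕ) (N : ℚ[X]) (a : ℕ) (ha : ∀ k ∈ K, a ≤ k) (u v : ℕ)
    (huv : u ≤ v) (hv : v ≤ a) (h3 : ∀ i, u ≤ i → i < v → (X + C (i : ℚ)) ^ 3 ∣ N)
    (z c0 c1 : ℚ) (hz : (c0 : ℝ) * zt 2 + c1 * zt 3 = z) (M : ℕ) :
    (((Z3D.gram (Lr K (1 - (v : ℤ)) N z c0 c1) (fun i => (X : ℚ[X]) ^ i) M).det : ℚ) : ℂ) =
      (Matrix.of fun i j : Fin M => ∫ y : ℝ, (ln (1 - (u : ℤ)) y) ^ ((i : ℕ) + (j : ℕ)) *
        (RF K N (ln (1 - (u : ℤ)) y) * W1 (c0 : ℝ) (c1 : ℝ) y)).det := by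
  have h1 : (((Z3D.gram (Lr K (1 - (v : ℤ)) N z c0 c1) (fun i => (X : ℚ[X]) ^ i) M).det : ℚ) : ℂ) =
      ((Z3D.gram (Lr K (1 - (v : ℤ)) N z c0 c1) (fun i => (X : ℚ[X]) ^ i) M).map
        (algebraMap ℚ ℂ)).det := by
    rw [← RingHom.mapMatrix_apply, ← RingHom.map_det]
    rfl
  rw [h1]
  congr 1
  ext i j
  have h2 := link_exact K N a ha u v huv hv h3 z c0 c1 hz (X ^ ((i : ℕ) + (j : ℕ)))
  simp only [map_pow, aeval_X] at h2
  rw [Matrix.map_apply, Matrix.of_apply, ← h2]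
  unfold Z3D.gram
  simp only [Matrix.of_apply, ← pow_add]
  rfl

end Pool.Agent.D23
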