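import Pool.Agent.D23.Fam
import Pool.Agent.D23.LinkG

/-!
# LINK for the family
-/

open Finset Filter Topology Complex MeasureTheory Polynomial
open scoped BigOperators

namespace Pool.Agent.D23

/-- the rational function -/
noncomputable def RR (n : ℕ) (t : ℂ) : ℂ := RF (KP n) (SS n 1) t

/-- the weight on the line Re t = 1/2 - n -/
noncomputable def FF (n : ℕ) (c0 c1 : ℝ) (y : ℝ) : ℂ := RR n (ln (1 - n) y) * W1 c0 c1 y

theorem lr_eq (n : ℕ) (z c0 c1 : ℚ) :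
    lr n z c0 c1 = Lr (KP n) (1 - ((2 * n : ℕ) : ℤ)) (C (kap n) * num ℚ n) z c0 c1 := by
  refine LinearMap.ext fun f => ?_
  have h1 : SS n f = f * (C (kap n) * num ℚ n) := by
    unfold SS
    ring
  have h2 : (1 - ((2 * n : ℕ) : ℤ)) = 1 - 2 * (n : ℤ) := by push_cast; ring
  rw [lr_apply, Lr_apply, h1, h2, add_assoc]

theorem triple_zone (n i : ℕ) (h1 : n ≤ i) (h2 : i < 2 * n) :
    (X + C (i : ℚ)) ^ 3 ∣ C (kap n) * num ℚ n := by
  have e : (X + C (i : ℚ)) ^ 3 = (X + C (i : ℚ)) * (X + C (i : ℚ)) * (X + C (i : ℚ)) := by ring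
  rw [e]
  refine Dvd.dvd.mul_left ?_ _
  unfold num
  refine mul_dvd_mul (mul_dvd_mul ?_ ?_) ?_
  · exact dvd_prod_of_mem (fun i : ℕ => (X + C (i : ℚ))) (mem_range.mpr h2)
  · exact dvd_prod_of_mem (fun i : ℕ => (X + C (i : ℚ))) (mem_range.mpr (by omega))
  · exact dvd_prod_of_mem (fun i : ℕ => (X + C (i : ℚ))) (mem_Ico.mpr ⟨h1, by omega⟩)

theorem SS_one (n : ℕ) : SS n 1 = C (kap n) * num ℚ n := by
  unfold SS
  rw [mul_one]

theorem KP_ge (n : ℕ) : ∀ k ∈ KP n, 4 * n ≤ k := by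
  intro k hk
  unfold KP at hk
  exact (mem_Ico.mp hk).1

theorem link (n : ℕ) (z c0 c1 : ℚ) (hz : (c0 : ℝ) * zt 2 + c1 * zt 3 = z) (f : ℚ[X]) :
    ((lr n z c0 c1 f : ℚ) : ℂ) = ∫ y : ℝ, aeval (ln (1 - n) y) f * FF n c0 c1 y := by
  rw [lr_eq, link_exact (KP n) _ (4 * n) (KP_ge n) n (2 * n) (by omega) (by omega)
    (fun i => triple_zone n i) z c0 c1 hz f, ← SS_one]
  rfl

theorem link_det (n : ℕ) (z c0 c1 : ℚ) (hz : (c0 : ℝ) * zt 2 + c1 * zt 3 = z) (M : ℕ) :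
    (((Z3D.gram (lr n z c0 c1) (fun i => (X : ℚ[X]) ^ i) M).det : ℚ) : ℂ) =
      (Matrix.of fun i j : Fin M => ∫ y : ℝ, (((1 / 2 - n : ℝ) : ℂ) + y * Complex.I) ^ ((i : ℕ) + (j : ℕ)) *
        FF n c0 c1 y).det := by
  rw [lr_eq, link_det_exact (KP n) _ (4 * n) (KP_ge n) n (2 * n) (by omega) (by omega)
    (fun i => triple_zone n i) z c0 c1 hz M, ← SS_one]
  have h : ∀ y : ℝ, ln (1 - (n : ℤ)) y = ((1 / 2 - n : ℝ) : ℂ) + y * Complex.I := by
    intro y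
    unfold ln
    push_cast
    ring
  unfold FF RR
  simp only [h]

end Pool.Agent.D23
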