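import Mathlib
import Pool.Agent.D23.Arch4
import Pool.Agent.D23.Link

/-!
# The contract of the module ARCH4 in terms of `FF`
-/

namespace Pool.Agent.D23

theorem norm_FF_le (n : ℕ) (hn : 1 ≤ n) (c0 c1 : ℝ) (y : ℝ) :
    ‖FF n c0 c1 y‖ ≤ ((|c0| + Real.pi * |c1|) * Real.pi * Bn n) * wt (4 * n) y :=
  dom_W1 n hn c0 c1 y

/-- pointwise domination -/
theorem arch4 (c0 c1 : ℝ) : ∀ᶠ n : ℕ in Filter.atTop, ∀ y : ℝ,
    ‖FF n c0 c1 y‖ * ((8 * n + 1).factorial : ℝ) ≤ Real.exp (-(24 / 10) * n) * wt (4 * n) y :=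
  arch4_raw c0 c1

end Pool.Agent.D23
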