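import Mathlib
import Pool.Agent.D23.Fam
import Pool.Agent.Z3D.Pade

/-! The normalised determinant. -/

open Polynomial Finset
open scoped Nat

namespace Pool.Agent.D23

/-- the normalised determinant -/
noncomputable def Dlt (n : ℕ) (z c0 c1 : ℚ) (M : ℕ) : ℚ :=
  (Z3D.gram (lr n z c0 c1) (fun i => (X : ℚ[X]) ^ i) M).det / ∏ j ∈ range M, ((j ! : ℕ) : ℚ) ^ 2

end Pool.Agent.D23
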