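import Mathlib
import Pool.Agent.D23.ArchLog
import Pool.Agent.D23.Dlt

/-! The archimedean bound of the normalised determinant, from the pointwise domination. -/

open Finset MeasureTheory Polynomial Filter
open scoped Nat

namespace Pool.Agent.D23

theorem log_three_lt : Real.log 3 < 1.09863 := by
  have h1 : Real.log ((3 : ℝ) ^ 12) ≤ Real.log ((2 : ℝ) ^ 19 * (1 + 0.013645)) :=
    Real.log_le_log (by norm_num) (by norm_num)
  rw [Real.log_pow, Real.log_mul (by norm_num) (by norm_num), Real.log_pow] at h1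
  have h2 : Real.log (1 + 0.013645) ≤ 0.013645 := by
    have := Real.log_le_sub_one_of_pos (show (0 : ℝ) < 1 + 0.013645 by norm_num)
    linarith
  have h3 := Real.log_two_lt_d9
  push_cast at h1
  linarith

theorem archPsi_44 (C4 : ℝ) : archPsi 4 4 (C4 + 8 - 8 * Real.log 8) < 4 * C4 - 25.62 := by
  have h3 := log_three_lt
  have h2 := Real.log_two_gt_d9
  have e4 : Real.log 4 = 2 * Real.log 2 := by
    rw [show (4 : ℝ) = 2 ^ 2 by norm_num, Real.log_pow]; norm_num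
  have e8 : Real.log 8 = 3 * Real.log 2 := by
    rw [show (8 : ℝ) = 2 ^ 3 by norm_num, Real.log_pow]; norm_num
  have e12 : Real.log 12 = 2 * Real.log 2 + Real.log 3 := by
    rw [show (12 : ℝ) = 4 * 3 by norm_num, Real.log_mul (by norm_num) (by norm_num), e4]
  unfold archPsi Gch
  push_cast
  norm_num
  simp only [e4, e8, e12]
  linarith

theorem log_factorial_ge (m : ℕ) (hm : 1 ≤ m) : (m : ℝ) * Real.log m - m ≤ Real.log (m ! : ℝ) := by
  have hm' : (0 : ℝ) < m := by exact_mod_cast hm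
  have hf : (0 : ℝ) < (m ! : ℝ) := by exact_mod_cast m.factorial_pos
  have h1 := Real.pow_div_factorial_le_exp (m : ℝ) hm'.le m
  have h2 := Real.log_le_log (by positivity) h1
  rw [Real.log_exp, Real.log_div (by positivity) hf.ne', Real.log_pow] at h2
  linarith

theorem arch_of (C4 κ : ℝ) (hκ : 4 * C4 - 25.62 ≤ κ) (z c0 c1 : ℚ) (F : ℕ → ℝ → ℂ)
    (hFm : ∀ n, AEStronglyMeasurable (F n) volume)
    (h4 : ∀ᶠ n : ℕ in atTop, ∀ y, ‖F n y‖ * ((8 * n + 1)! : ℝ) ≤ Real.exp (C4 * n) * wt (4 * n) y)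
    (hl : ∀ n, 1 ≤ n → ∀ M, (((Z3D.gram (lr n z c0 c1) (fun i => (X : ℚ[X]) ^ i) M).det : ℚ) : ℂ) =
      (Matrix.of fun i j : Fin M => ∫ y : ℝ, (((1 / 2 - n : ℝ) : ℂ) + y * Complex.I) ^ ((i : ℕ) + (j : ℕ)) *
        F n y).det) :
    ∀ᶠ n : ℕ in atTop, ∀ M, 4 * n ≤ M + 2 → M ≤ 4 * n → Dlt n z c0 c1 M ≠ 0 →
      Real.log |((Dlt n z c0 c1 M : ℚ) : ℝ)| ≤ κ * (n : ℝ) ^ 2 := by
  set B : ℕ → ℝ := fun n => Real.exp (C4 * n) / ((8 * n + 1)! : ℝ) with hBdef
  have hB0 : ∀ n, 1 ≤ n → 0 < B n := by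
    intro n _
    have : (0 : ℝ) < ((8 * n + 1)! : ℝ) := by exact_mod_cast Nat.factorial_pos _
    positivity
  have hB : ∀ n : ℕ, 1 ≤ n → Real.log (B n) ≤ (C4 + 8 - 8 * Real.log 8) * n -
      2 * (4 : ℕ) * n * Real.log n + 0 * Real.log (n + 1) := by
    intro n hn
    have hn' : (0 : ℝ) < n := by exact_mod_cast hn
    have hf : (0 : ℝ) < ((8 * n + 1)! : ℝ) := by exact_mod_cast Nat.factorial_pos _
    have h1 := log_factorial_ge (8 * n) (by omega)
    have h2 : Real.log ((8 * n)! : ℝ) ≤ Real.log ((8 * n + 1)! : ℝ) := by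
      refine Real.log_le_log (by exact_mod_cast Nat.factorial_pos _) ?_
      exact_mod_cast Nat.factorial_le (Nat.le_succ _)
    have h3 : Real.log ((8 * n : ℕ) : ℝ) = Real.log 8 + Real.log n := by
      push_cast
      rw [Real.log_mul (by norm_num) hn'.ne']
    rw [h3] at h1
    rw [hBdef]
    simp only
    rw [Real.log_div (Real.exp_pos _).ne' hf.ne', Real.log_exp]
    push_cast at h1 ⊢
    linarith
  obtain ⟨C, hC0, hC⟩ := arch_log 4 4 2 (by norm_num) (by norm_num) (C4 + 8 - 8 * Real.log 8) 0 le_rfl B hB0 hB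
  have hψ := archPsi_44 C4
  set ψ := archPsi 4 4 (C4 + 8 - 8 * Real.log 8) with hψdef
  have hδ : 0 < κ - ψ := by linarith
  -- C n log (n+1) ≤ (κ - ψ) n ^ 2
  have hsmall : ∀ᶠ n : ℕ in atTop, C * ((n : ℝ) * Real.log (n + 1)) ≤ (κ - ψ) * (n : ℝ) ^ 2 := by
    have hc : 0 < (κ - ψ) / (2 * (C + 1)) := by positivity
    have h1 := (Real.isLittleO_log_id_atTop.def hc)
    have h2 : Tendsto (fun n : ℕ => (n : ℝ) + 1) atTop atTop :=
      tendsto_atTop_add_const_right _ _ tendsto_natCast_atTop_atTop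
    have h3 := h2.eventually h1
    filter_upwards [h3, eventually_ge_atTop 1] with n hn hn1
    have hn' : (1 : ℝ) ≤ n := by exact_mod_cast hn1
    have hl0 : 0 ≤ Real.log ((n : ℝ) + 1) := Real.log_nonneg (by linarith)
    simp only [id, Real.norm_eq_abs] at hn
    rw [abs_of_nonneg hl0, abs_of_nonneg (by linarith : (0 : ℝ) ≤ (n : ℝ) + 1)] at hn
    have h5 : Real.log ((n : ℝ) + 1) ≤ (κ - ψ) / (2 * (C + 1)) * (2 * n) :=
      hn.trans (by gcongr; linarith)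
    calc C * ((n : ℝ) * Real.log (n + 1)) ≤ (C + 1) * ((n : ℝ) * ((κ - ψ) / (2 * (C + 1)) * (2 * n))) := by
          have : 0 ≤ (n : ℝ) * Real.log (n + 1) := by positivity
          gcongr
          linarith
      _ = (κ - ψ) * (n : ℝ) ^ 2 := by field_simp
  filter_upwards [h4, hsmall, eventually_ge_atTop 1] with n hn4 hns hn1 M hM2 hM1 hD
  have hf : (0 : ℝ) < ((8 * n + 1)! : ℝ) := by exact_mod_cast Nat.factorial_pos _
  have hdom : ∀ y, ‖F n y‖ ≤ B n * wt (4 * n) y := by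
    intro y
    have h := hn4 y
    rw [hBdef]
    simp only
    rw [div_mul_eq_mul_div, le_div_iff₀ hf]
    exact h
  have h1 := arch_det (4 * n) M (1 / 2 - n : ℝ) (F n) (hFm n) (B n) hdom
  rw [← hl n hn1 M] at h1
  have h2 := h1.trans (hC n hn1 M hM1 (by omega))
  have hP : (0 : ℝ) < ∏ j ∈ range M, ((j ! : ℕ) : ℝ) ^ 2 :=
    Finset.prod_pos (fun j _ => by
      have : (0 : ℝ) < (j ! : ℝ) := by exact_mod_cast j.factorial_pos
      positivity)
  have h3 : |((Dlt n z c0 c1 M : ℚ) : ℝ)| ≤ Real.exp ((n : ℝ) ^ 2 * ψ + C * (n * Real.log (n + 1))) := by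
    have e : ((Dlt n z c0 c1 M : ℚ) : ℝ) =
        (((Z3D.gram (lr n z c0 c1) (fun i => (X : ℚ[X]) ^ i) M).det : ℚ) : ℝ) / ∏ j ∈ range M, ((j ! : ℕ) : ℝ) ^ 2 := by
      unfold Dlt
      push_cast
      rfl
    rw [e, abs_div, abs_of_pos hP, div_le_iff₀ hP, mul_comm]
    have e2 : ‖(((Z3D.gram (lr n z c0 c1) (fun i => (X : ℚ[X]) ^ i) M).det : ℚ) : ℂ)‖ =
        |(((Z3D.gram (lr n z c0 c1) (fun i => (X : ℚ[X]) ^ i) M).det : ℚ) : ℝ)| := by
      have : (((Z3D.gram (lr n z c0 c1) (fun i => (X : ℚ[X]) ^ i) M).det : ℚ) : ℂ) =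
        (((((Z3D.gram (lr n z c0 c1) (fun i => (X : ℚ[X]) ^ i) M).det : ℚ) : ℝ)) : ℂ) :=
        (Complex.ofReal_ratCast _).symm
      rw [this, Complex.norm_real, Real.norm_eq_abs]
    rw [e2] at h2
    exact h2
  have hD' : (0 : ℝ) < |((Dlt n z c0 c1 M : ℚ) : ℝ)| := abs_pos.mpr (by exact_mod_cast hD)
  have h5 := Real.log_le_log hD' h3
  rw [Real.log_exp] at h5
  have e : κ * (n : ℝ) ^ 2 = (n : ℝ) ^ 2 * ψ + (κ - ψ) * (n : ℝ) ^ 2 := by ring
  linarith

end Pool.Agent.D23
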