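import Mathlib
import Pool.Agent.D23.ArchOf
import Pool.Agent.D23.Arch4F

/-! The archimedean bound for the family. -/

open Finset MeasureTheory Polynomial Filter
open scoped Nat

namespace Pool.Agent.D23

open Pool.Agent.Z3 (Ker)

theorem SS_one_aeval (n : ℕ) (t : ℂ) : aeval t (SS n 1) =
    (kap n : ℂ) * ((∏ i ∈ Ico 0 (2 * n), (t + (i : ℂ))) *
      (∏ i ∈ Ico 0 (3 * n), (t + (i : ℂ))) * (∏ i ∈ Ico n (3 * n), (t + (i : ℂ)))) := by
  rw [SS_one]
  unfold num
  simp only [map_mul, map_prod, map_add, aeval_X, aeval_C, range_eq_Ico]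
  simp

theorem RR_eq (n : ℕ) (t : ℂ) : RR n t =
    (kap n : ℂ) * ((∏ i ∈ Ico 0 (2 * n), (t + (i : ℂ))) *
      (∏ i ∈ Ico 0 (3 * n), (t + (i : ℂ))) * (∏ i ∈ Ico n (3 * n), (t + (i : ℂ)))) /
      ∏ k ∈ Ico (4 * n) (10 * n), (t + (k : ℂ)) := by
  unfold RR RF
  rw [SS_one_aeval]
  congr 1

theorem continuous_FF (n : ℕ) (c0 c1 : ℝ) : Continuous (FF n c0 c1) := by
  unfold FF
  refine Continuous.mul ?_ (continuous_W1 c0 c1)
  have h : (fun y : ℝ => RR n (ln (1 - n) y)) = fun y : ℝ =>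
      (kap n : ℂ) * ((∏ i ∈ Ico 0 (2 * n), (ln (1 - n) y + (i : ℂ))) *
      (∏ i ∈ Ico 0 (3 * n), (ln (1 - n) y + (i : ℂ))) * (∏ i ∈ Ico n (3 * n), (ln (1 - n) y + (i : ℂ)))) /
      ∏ k ∈ Ico (4 * n) (10 * n), (ln (1 - n) y + (k : ℂ)) := by
    funext y
    rw [RR_eq]
  rw [h]
  have hl := continuous_ln (1 - n)
  refine Continuous.div (by fun_prop) (by fun_prop) (fun y => ?_)
  rw [prod_ne_zero_iff]
  intro k hk h0
  have h1 := congrArg Complex.re h0
  rw [Complex.add_re, ln_re, Complex.natCast_re, Complex.zero_re] at h1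
  have h2 : 4 * n ≤ k := (mem_Ico.mp hk).1
  have h3 : (4 : ℝ) * n ≤ k := by exact_mod_cast h2
  have h4 : (0 : ℝ) ≤ n := Nat.cast_nonneg n
  push_cast at h1
  linarith

theorem log_kap_le5 (n : ℕ) (hn : 1 ≤ n) : Real.log (kap n : ℝ) ≤
    n * (6 * Real.log 6 - 4 * Real.log 2 - 3 * Real.log 3 + 1) - n * Real.log n +
      (Real.log (6 * n) + 1) := by
  have hn' : (0 : ℝ) < n := by exact_mod_cast hn
  have f1 : (0 : ℝ) < ((6 * n)! : ℝ) := by exact_mod_cast Nat.factorial_pos _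
  have f2 : (0 : ℝ) < ((2 * n)! : ℝ) := by exact_mod_cast Nat.factorial_pos _
  have f3 : (0 : ℝ) < ((3 * n)! : ℝ) := by exact_mod_cast Nat.factorial_pos _
  have e : (kap n : ℝ) = ((6 * n)! : ℝ) / (((2 * n)! : ℝ) ^ 2 * ((3 * n)! : ℝ)) := by
    unfold kap
    push_cast
    rfl
  rw [e, Real.log_div f1.ne' (by positivity), Real.log_mul (by positivity) f3.ne', Real.log_pow]
  have h1 := log_fact_upper (6 * n) (by omega)
  have h2 := log_factorial_ge (2 * n) (by omega)
  have h3 := log_factorial_ge (3 * n) (by omega)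
  have g : ∀ a : ℕ, 0 < a → Real.log ((a * n : ℕ) : ℝ) = Real.log a + Real.log n := by
    intro a ha
    have ha' : (0 : ℝ) < a := by exact_mod_cast ha
    push_cast
    rw [Real.log_mul ha'.ne' hn'.ne']
  have e6 : Real.log (6 * (n : ℝ)) = Real.log 6 + Real.log n :=
    Real.log_mul (by norm_num) hn'.ne'
  rw [g 6 (by norm_num)] at h1
  rw [g 2 (by norm_num)] at h2
  rw [g 3 (by norm_num)] at h3
  rw [e6]
  push_cast at h1 h2 h3 ⊢
  nlinarith

theorem log_num_ge : 18 * Real.log 2 + 3 * Real.log 3 + 2.801 < Real.log 116600000 := by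
  have h0 : (116600000 : ℝ) = 2 ^ 18 * 3 ^ 3 * (2 ^ 4 * (116600000 / 113246208)) := by norm_num
  rw [h0, Real.log_mul (by norm_num) (by norm_num), Real.log_mul (by norm_num) (by norm_num),
    Real.log_mul (by norm_num) (by norm_num), Real.log_pow, Real.log_pow, Real.log_pow]
  have h1 := Real.one_sub_inv_le_log_of_pos (show (0 : ℝ) < 116600000 / 113246208 by norm_num)
  have h2 := Real.log_two_gt_d9
  have h3 : (0.02876 : ℝ) ≤ 1 - (116600000 / 113246208)⁻¹ := by norm_num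
  push_cast
  linarith

/-- the domination with the factorial normalisation -/
theorem arch4_strong (c0 c1 : ℝ) : ∀ᶠ n : ℕ in atTop, ∀ y : ℝ,
    ‖FF n c0 c1 y‖ * ((8 * n + 1)! : ℝ) ≤ Real.exp (-(28 / 10) * n) * wt (4 * n) y := by
  set D : ℝ := (|c0| + Real.pi * |c1|) * Real.pi + 1 with hD
  have hD0 : 0 < D := by positivity
  -- error term
  have hsmall : ∀ᶠ n : ℕ in atTop, Real.log D + Real.log 4 + (Real.log (6 * n) + 1) +
      (Real.log (8 * n + 1) + (Real.log (8 * n) + 1)) ≤ 0.001 * (n : ℝ) := by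
    have h1 := (Real.isLittleO_log_id_atTop.def (show (0 : ℝ) < 0.0001 by norm_num))
    have h2 : Tendsto (fun n : ℕ => (n : ℝ)) atTop atTop := tendsto_natCast_atTop_atTop
    have h3 := h2.eventually h1
    have h4 : ∀ᶠ n : ℕ in atTop, Real.log D + Real.log 4 + Real.log 6 + Real.log 9 + Real.log 8 + 2 ≤ 0.0007 * (n : ℝ) := by
      have := h2.eventually_ge_atTop ((Real.log D + Real.log 4 + Real.log 6 + Real.log 9 + Real.log 8 + 2) / 0.0007)
      filter_upwards [this] with n hn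
      rw [div_le_iff₀ (by norm_num)] at hn
      linarith
    filter_upwards [h3, h4, eventually_ge_atTop 1] with n hn hn4 hn1
    have hn' : (1 : ℝ) ≤ n := by exact_mod_cast hn1
    have hn0 : (0 : ℝ) < n := by linarith
    have hl0 : 0 ≤ Real.log (n : ℝ) := Real.log_nonneg hn'
    simp only [id, Real.norm_eq_abs] at hn
    rw [abs_of_nonneg hl0, abs_of_nonneg hn0.le] at hn
    have e6 : Real.log (6 * (n : ℝ)) = Real.log 6 + Real.log n := Real.log_mul (by norm_num) hn0.ne'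
    have e8 : Real.log (8 * (n : ℝ)) = Real.log 8 + Real.log n := Real.log_mul (by norm_num) hn0.ne'
    have e9 : Real.log (8 * (n : ℝ) + 1) ≤ Real.log 9 + Real.log n := by
      rw [← Real.log_mul (by norm_num) hn0.ne']
      exact Real.log_le_log (by positivity) (by linarith)
    linarith
  filter_upwards [hsmall, eventually_ge_atTop 1] with n hs hn1 y
  have hn0 : (0 : ℝ) < n := by exact_mod_cast hn1
  have hf : (0 : ℝ) < ((8 * n + 1)! : ℝ) := by exact_mod_cast Nat.factorial_pos _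
  have hk : (0 : ℝ) < (kap n : ℝ) := by exact_mod_cast kap_pos4 n
  have hB0 : 0 < Bn n := by unfold Bn; positivity
  have h1 := norm_FF_le n hn1 c0 c1 y
  have hw := wt_nonneg (4 * n) y
  have h2 : ‖FF n c0 c1 y‖ ≤ D * Bn n * wt (4 * n) y := by
    refine h1.trans ?_
    have : (|c0| + Real.pi * |c1|) * Real.pi ≤ D := by rw [hD]; linarith
    gcongr
  have h3 : D * Bn n * ((8 * n + 1)! : ℝ) ≤ Real.exp (-(28 / 10) * n) := by
    rw [← Real.log_le_iff_le_exp (by positivity)]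
    rw [Real.log_mul (by positivity) hf.ne', Real.log_mul hD0.ne' hB0.ne']
    have hBlog : Real.log (Bn n) = Real.log 4 + Real.log (kap n : ℝ) +
        n * (7 - (7 * Real.log n + (8 * Real.log 2 + Real.log 116600000))) := by
      unfold Bn
      rw [Real.log_mul (by positivity) (by positivity), Real.log_mul (by norm_num) hk.ne',
        Real.log_pow, Real.log_div (by positivity) (by positivity), Real.log_exp,
        Real.log_mul (by positivity) (by norm_num), Real.log_mul (by norm_num) (by norm_num),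
        Real.log_pow, show (256 : ℝ) = 2 ^ 8 by norm_num, Real.log_pow]
      norm_num
    have h4 := log_kap_le5 n hn1
    have h5 := log_fact_upper (8 * n) (by omega)
    have f8 : (0 : ℝ) < ((8 * n)! : ℝ) := by exact_mod_cast Nat.factorial_pos _
    have h6 : Real.log ((8 * n + 1)! : ℝ) = Real.log (8 * n + 1) + Real.log ((8 * n)! : ℝ) := by
      rw [Nat.factorial_succ]
      push_cast
      rw [Real.log_mul (by positivity) f8.ne']
    have e8 : Real.log (8 * (n : ℝ)) = 3 * Real.log 2 + Real.log n := by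
      rw [Real.log_mul (by norm_num) hn0.ne', show (8 : ℝ) = 2 ^ 3 by norm_num, Real.log_pow]
      norm_num
    have e6 : Real.log 6 = Real.log 2 + Real.log 3 := by
      rw [show (6 : ℝ) = 2 * 3 by norm_num, Real.log_mul (by norm_num) (by norm_num)]
    push_cast at h5
    have h7 := log_num_ge
    have h8 : (n : ℝ) * (18 * Real.log 2 + 3 * Real.log 3 + 2.801) ≤ n * Real.log 116600000 := by
      gcongr
    rw [hBlog, h6]
    rw [e6] at h4
    have h9 : (8 : ℝ) * n * Real.log (8 * n) = n * (24 * Real.log 2) + 8 * n * Real.log n := by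
      rw [e8]; ring
    rw [h9] at h5
    nlinarith
  calc ‖FF n c0 c1 y‖ * ((8 * n + 1)! : ℝ) ≤ D * Bn n * wt (4 * n) y * ((8 * n + 1)! : ℝ) := by gcongr
    _ = D * Bn n * ((8 * n + 1)! : ℝ) * wt (4 * n) y := by ring
    _ ≤ _ := by gcongr

theorem arch_strong (z c0 c1 : ℚ) (hz : (c0 : ℝ) * zt 2 + c1 * zt 3 = z) :
    ∀ᶠ n : ℕ in atTop, ∀ M : ℕ, 4 * n ≤ M + 2 → M ≤ 4 * n → Dlt n z c0 c1 M ≠ 0 →
    Real.log |((Dlt n z c0 c1 M : ℚ) : ℝ)| ≤ -(368 / 10) * (n : ℝ) ^ 2 := by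
  refine arch_of (-(28 / 10)) (-(368 / 10)) (by norm_num) z c0 c1 (fun n => FF n c0 c1)
    (fun n => (continuous_FF n c0 c1).aestronglyMeasurable) (arch4_strong c0 c1) ?_
  intro n _ M
  exact link_det n z c0 c1 hz M

theorem arch (z c0 c1 : ℚ) (hz : (c0 : ℝ) * zt 2 + c1 * zt 3 = z) :
    ∀ᶠ n : ℕ in atTop, ∀ M : ℕ, 4 * n ≤ M + 2 → M ≤ 4 * n → Dlt n z c0 c1 M ≠ 0 →
    Real.log |((Dlt n z c0 c1 M : ℚ) : ℝ)| ≤ -(351 / 10) * (n : ℝ) ^ 2 := by
  filter_upwards [arch_strong z c0 c1 hz] with n hn M h1 h2 h3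
  have := hn M h1 h2 h3
  nlinarith [sq_nonneg (n : ℝ)]

end Pool.Agent.D23
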