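import Pool.Agent.D23.ArchPert

/-!
Determinants of a line functional plus a small multiple of a finite sum of evaluations, in a basis
of monic polynomials `Pm (j - r_j) * Q_{r_j}` with extra nodes near the poles: each row may use its
own domination `|F| |Q|^2 ≤ B_j wt`.
-/

open MeasureTheory Set Real Polynomial Finset

namespace Pool.Agent.D23

/-- entries bounded by `l_i l_j + e a_i a_j` -/
theorem norm_det_le_two {M : ℕ} (X : Matrix (Fin M) (Fin M) ℂ) (e : ℝ) (he : 0 ≤ e)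
    (l a : Fin M → ℝ) (h : ∀ i j, ‖X i j‖ ≤ l i * l j + e * (a i * a j)) :
    ‖X.det‖ ≤ (M.factorial : ℝ) * ∏ i, (l i ^ 2 + e * a i ^ 2) := by
  have hw : ∀ i j, ‖X i j‖ ≤ 1 * (√(l i ^ 2 + e * a i ^ 2) * √(l j ^ 2 + e * a j ^ 2)) := by
    intro i j
    have hi : 0 ≤ l i ^ 2 + e * a i ^ 2 := by positivity
    have h1 : l i * l j + e * (a i * a j) ≤ √(l i ^ 2 + e * a i ^ 2) * √(l j ^ 2 + e * a j ^ 2) := by
      rw [← Real.sqrt_mul hi]
      refine Real.le_sqrt_of_sq_le ?_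
      have h2 : 0 ≤ e * (l i * a j - l j * a i) ^ 2 := by positivity
      nlinarith
    rw [one_mul]
    exact (h i j).trans h1
  have h3 := Z3D.norm_det_le X 1 (fun i => √(l i ^ 2 + e * a i ^ 2)) hw
  refine h3.trans (le_of_eq ?_)
  rw [one_pow, one_mul]
  congr 1
  refine Finset.prod_congr rfl (fun i _ => ?_)
  have hi : 0 ≤ l i ^ 2 + e * a i ^ 2 := by positivity
  rw [Real.sq_sqrt hi]

/-- Cauchy-Schwarz for the line integral of a product of two functions against `F` -/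
theorem norm_integral_mul_le (f g F : ℝ → ℂ) (U V : ℝ) (hU : 0 < U) (hV : 0 < V)
    (hf : Integrable (fun y => ‖f y‖ ^ 2 * ‖F y‖)) (hg : Integrable (fun y => ‖g y‖ ^ 2 * ‖F y‖))
    (hfU : ∫ y, ‖f y‖ ^ 2 * ‖F y‖ ≤ U) (hgV : ∫ y, ‖g y‖ ^ 2 * ‖F y‖ ≤ V) :
    ‖∫ y, (f y * g y) * F y‖ ≤ √U * √V := by
  set p : ℝ := √U with hp
  set q : ℝ := √V with hq
  have hp0 : 0 < p := Real.sqrt_pos.mpr hU
  have hq0 : 0 < q := Real.sqrt_pos.mpr hV
  have hp2 : p ^ 2 = U := Real.sq_sqrt hU.le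
  have hq2 : q ^ 2 = V := Real.sq_sqrt hV.le
  set G : ℝ → ℝ := fun y => (1 / 2) * ((q / p) * (‖f y‖ ^ 2 * ‖F y‖) + (p / q) * (‖g y‖ ^ 2 * ‖F y‖))
    with hG
  have hGi : Integrable G := ((hf.const_mul _).add (hg.const_mul _)).const_mul _
  have hle : ∀ y : ℝ, ‖(f y * g y) * F y‖ ≤ G y := by
    intro y
    rw [norm_mul, norm_mul]
    set a := ‖f y‖ with ha
    set b := ‖g y‖ with hb
    have hab : a * b ≤ ((q / p) * a ^ 2 + (p / q) * b ^ 2) / 2 := by
      have h1 : 0 ≤ (q * a - p * b) ^ 2 / (p * q) := by positivity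
      have h2 : (q * a - p * b) ^ 2 / (p * q) = (q / p) * a ^ 2 + (p / q) * b ^ 2 - 2 * (a * b) := by
        field_simp
        ring
      linarith
    calc a * b * ‖F y‖ ≤ (((q / p) * a ^ 2 + (p / q) * b ^ 2) / 2) * ‖F y‖ :=
          mul_le_mul_of_nonneg_right hab (norm_nonneg _)
      _ = G y := by
        simp only [hG]
        ring
  calc ‖∫ y, (f y * g y) * F y‖ ≤ ∫ y, G y :=
        norm_integral_le_of_norm_le hGi (Filter.Eventually.of_forall hle)
    _ = (1 / 2) * ((q / p) * (∫ y, ‖f y‖ ^ 2 * ‖F y‖) + (p / q) * ∫ y, ‖g y‖ ^ 2 * ‖F y‖) := by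
      simp only [hG]
      rw [integral_const_mul, integral_add (hf.const_mul _) (hg.const_mul _), integral_const_mul,
        integral_const_mul]
    _ ≤ (1 / 2) * ((q / p) * U + (p / q) * V) := by
      have h1 : 0 ≤ q / p := by positivity
      have h2 : 0 ≤ p / q := by positivity
      gcongr
    _ = p * q := by
      rw [← hp2, ← hq2]
      field_simp
      ring

/-- norm of `Pm * Q` against a function `F` with `|F| |Q|^2 ≤ B wt` on the line -/
theorem node_norm (m : ℕ) (c : ℝ) (j : ℕ) (Q : ℂ[X]) (F : ℝ → ℂ)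
    (hFm : AEStronglyMeasurable F volume) (B : ℝ)
    (hF : ∀ y : ℝ, ‖F y‖ * ‖Q.eval ((c : ℂ) + y * Complex.I)‖ ^ 2 ≤ B * wt m y) :
    Integrable (fun y : ℝ => ‖(Pm m c j * Q).eval ((c : ℂ) + y * Complex.I)‖ ^ 2 * ‖F y‖) ∧
      ∫ y : ℝ, ‖(Pm m c j * Q).eval ((c : ℂ) + y * Complex.I)‖ ^ 2 * ‖F y‖ ≤ B * hn m j := by
  have hle : ∀ y : ℝ, ‖(Pm m c j * Q).eval ((c : ℂ) + y * Complex.I)‖ ^ 2 * ‖F y‖ ≤
      B * (‖(Pm m c j).eval ((c : ℂ) + y * Complex.I)‖ ^ 2 * wt m y) := by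
    intro y
    rw [eval_mul, norm_mul, mul_pow]
    calc ‖(Pm m c j).eval ((c : ℂ) + y * Complex.I)‖ ^ 2 * ‖Q.eval ((c : ℂ) + y * Complex.I)‖ ^ 2 *
          ‖F y‖ = ‖(Pm m c j).eval ((c : ℂ) + y * Complex.I)‖ ^ 2 *
          (‖F y‖ * ‖Q.eval ((c : ℂ) + y * Complex.I)‖ ^ 2) := by ring
      _ ≤ ‖(Pm m c j).eval ((c : ℂ) + y * Complex.I)‖ ^ 2 * (B * wt m y) :=
          mul_le_mul_of_nonneg_left (hF y) (by positivity)
      _ = B * (‖(Pm m c j).eval ((c : ℂ) + y * Complex.I)‖ ^ 2 * wt m y) := by ring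
  have hi : Integrable (fun y : ℝ => B *
      (‖(Pm m c j).eval ((c : ℂ) + y * Complex.I)‖ ^ 2 * wt m y)) := (Pm_integrable m c j).const_mul B
  have hmeas : AEStronglyMeasurable
      (fun y : ℝ => ‖(Pm m c j * Q).eval ((c : ℂ) + y * Complex.I)‖ ^ 2 * ‖F y‖) volume := by
    refine AEStronglyMeasurable.mul ?_ hFm.norm
    refine Continuous.aestronglyMeasurable ?_
    have h1 : Continuous (fun y : ℝ => (Pm m c j * Q).eval ((c : ℂ) + y * Complex.I)) :=
      (Pm m c j * Q).continuous.comp (by fun_prop)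
    exact h1.norm.pow 2
  have hint : Integrable (fun y : ℝ => ‖(Pm m c j * Q).eval ((c : ℂ) + y * Complex.I)‖ ^ 2 * ‖F y‖) :=
    hi.mono' hmeas (Filter.Eventually.of_forall fun y => by
      rw [Real.norm_eq_abs, abs_of_nonneg (by positivity)]
      exact hle y)
  refine ⟨hint, ?_⟩
  calc ∫ y : ℝ, ‖(Pm m c j * Q).eval ((c : ℂ) + y * Complex.I)‖ ^ 2 * ‖F y‖ ≤
      ∫ y : ℝ, B * (‖(Pm m c j).eval ((c : ℂ) + y * Complex.I)‖ ^ 2 * wt m y) :=
        integral_mono hint hi hle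
    _ = B * hn m j := by rw [integral_const_mul, Pm_integral]

/-- **Bound with nodes.** `P j` monic of degree `j`, `P j = Pm (j - r j) * Q j`, `Q j` of degree
`r j`; row bounds `B j * hn (j - r j)` on the line and `A j` at the poles. -/
theorem arch_det_node (m M : ℕ) (c : ℝ) (F : ℝ → ℂ) (hFm : AEStronglyMeasurable F volume)
    (B0 : ℝ) (hF0 : ∀ y, ‖F y‖ ≤ B0 * wt m y)
    (Q : ℕ → ℂ[X]) (r : ℕ → ℕ) (hr : ∀ j, r j ≤ j) (hQm : ∀ j, (Q j).Monic)
    (hQd : ∀ j, (Q j).natDegree = r j) (B : ℕ → ℝ) (hB : ∀ j < M, 0 < B j)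
    (hF : ∀ j < M, ∀ y : ℝ, ‖F y‖ * ‖(Q j).eval ((c : ℂ) + y * Complex.I)‖ ^ 2 ≤ B j * wt m y)
    {ι : Type*} (S : Finset ι) (w x : ι → ℂ) (ε : ℂ) (A : ℕ → ℝ)
    (hA : ∀ j < M, ∑ k ∈ S, ‖w k‖ * ‖(Pm m c (j - r j) * Q j).eval (x k)‖ ^ 2 ≤ A j) :
    ‖(Matrix.of fun i j : Fin M => (∫ y : ℝ, ((c : ℂ) + y * Complex.I) ^ ((i : ℕ) + (j : ℕ)) * F y) +
        ε * ∑ k ∈ S, w k * x k ^ ((i : ℕ) + (j : ℕ))).det‖ ≤
      (M.factorial : ℝ) * ∏ j ∈ range M, (B j * hn m (j - r j) + ‖ε‖ * A j) := by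
  have hw0 : 0 < wt m 0 := by
    rw [wt_zero]
    have : (0 : ℝ) < m.factorial := by exact_mod_cast m.factorial_pos
    positivity
  have hB0 : 0 ≤ B0 := by
    have h := (norm_nonneg _).trans (hF0 0)
    by_contra hneg
    push Not at hneg
    nlinarith
  have hA0 : ∀ j < M, 0 ≤ A j := fun j hj =>
    (Finset.sum_nonneg (fun k _ => by positivity)).trans (hA j hj)
  set Λ := lfun m c F hFm B0 hB0 hF0 with hΛ
  set P : ℕ → ℂ[X] := fun j => Pm m c (j - r j) * Q j with hP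
  have hPm : ∀ j, (P j).Monic := fun j => (Pm_monic m c (j - r j)).mul (hQm j)
  have hPd : ∀ j, (P j).natDegree = j := by
    intro j
    have h1 := (Pm_monic m c (j - r j)).natDegree_mul (hQm j)
    simp only [hP]
    rw [h1, Pm_natDegree, hQd]
    have := hr j
    omega
  have h1 : (Matrix.of fun i j : Fin M =>
      (∫ y : ℝ, ((c : ℂ) + y * Complex.I) ^ ((i : ℕ) + (j : ℕ)) * F y) +
        ε * ∑ k ∈ S, w k * x k ^ ((i : ℕ) + (j : ℕ))) =
      Z3D.gram (Λ + ε • evf S w x) (fun i => X ^ i) M := by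
    ext i j
    simp only [Matrix.of_apply, Z3D.gram, LinearMap.add_apply, LinearMap.smul_apply, smul_eq_mul,
      evf_apply, hΛ, lfun, LinearMap.coe_mk, AddHom.coe_mk]
    congr 1
    · congr 1
      ext y
      rw [← pow_add, eval_pow, eval_X]
    · congr 1
      refine Finset.sum_congr rfl (fun k _ => ?_)
      rw [← pow_add, eval_pow, eval_X]
  rw [h1, ← Z3D.det_gram (Λ + ε • evf S w x) P hPm hPd M]
  have h2 := norm_det_le_two (Z3D.gram (Λ + ε • evf S w x) P M) ‖ε‖ (norm_nonneg _)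
    (fun i => √(B i * hn m (i - r i))) (fun i => √(A i)) (fun i j => ?_)
  · refine h2.trans (le_of_eq ?_)
    congr 1
    rw [← Fin.prod_univ_eq_prod_range (fun j => B j * hn m (j - r j) + ‖ε‖ * A j)]
    refine Finset.prod_congr rfl (fun i _ => ?_)
    have h3 : 0 ≤ B i * hn m (i - r i) := mul_nonneg (hB i i.2).le (hn_pos m _).le
    rw [Real.sq_sqrt h3, Real.sq_sqrt (hA0 i i.2)]
  · simp only [Z3D.gram, Matrix.of_apply, LinearMap.add_apply, LinearMap.smul_apply, smul_eq_mul]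
    have h3 : ‖evf S w x (P i * P j)‖ ≤ √(A i) * √(A j) := by
      rw [evf_apply]
      have h4 := norm_sum_le_weight S w (fun k => (P i).eval (x k))
        (fun k => (P j).eval (x k)) _ _ (hA i i.2) (hA j j.2)
      refine le_trans (le_of_eq ?_) h4
      congr 1
      refine Finset.sum_congr rfl (fun k _ => ?_)
      rw [eval_mul]
    have ni := node_norm m c (i - r i) (Q i) F hFm (B i) (hF i i.2)
    have nj := node_norm m c (j - r j) (Q j) F hFm (B j) (hF j j.2)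
    have h5 : ‖Λ (P i * P j)‖ ≤ √(B i * hn m (i - r i)) * √(B j * hn m (j - r j)) := by
      have h6 := norm_integral_mul_le (fun y : ℝ => (P i).eval ((c : ℂ) + y * Complex.I))
        (fun y : ℝ => (P j).eval ((c : ℂ) + y * Complex.I)) F _ _
        (mul_pos (hB i i.2) (hn_pos m (i - r i))) (mul_pos (hB j j.2) (hn_pos m (j - r j)))
        ni.1 nj.1 ni.2 nj.2
      refine le_trans (le_of_eq ?_) h6
      simp only [hΛ, lfun, LinearMap.coe_mk, AddHom.coe_mk, eval_mul]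
    calc ‖Λ (P i * P j) + ε * evf S w x (P i * P j)‖
        ≤ ‖Λ (P i * P j)‖ + ‖ε‖ * ‖evf S w x (P i * P j)‖ := by
          refine (norm_add_le _ _).trans (le_of_eq ?_)
          rw [norm_mul]
      _ ≤ √(B i * hn m (i - r i)) * √(B j * hn m (j - r j)) + ‖ε‖ * (√(A i) * √(A j)) :=
          add_le_add h5 (mul_le_mul_of_nonneg_left h3 (norm_nonneg _))

end Pool.Agent.D23
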