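import Mathlib
import Pool.Agent.D23.ArchPP

/-!
# Products over half-integers: general blocks
-/

open Finset

namespace Pool.Agent.D23

lemma sum_half_sq_Ico (a b : ℕ) (hab : a ≤ b) : ∑ k ∈ Ico a b, ((k : ℝ) + 1 / 2) ^ 2 =
    ((b : ℝ) ^ 3 / 3 - b / 12) - ((a : ℝ) ^ 3 / 3 - a / 12) := by
  rw [← sum_half_sq, ← sum_half_sq, sum_Ico_eq_sub _ hab]

/-- arithmetic and geometric mean on a block -/
lemma PP_upperG (a b n : ℕ) (hab : a < b) (hn : 1 ≤ n) (z : ℝ) (hz : 0 ≤ z) (A : ℝ)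
    (hA : (b : ℝ) ^ 3 - (a : ℝ) ^ 3 ≤ 3 * ((b : ℝ) - a) * A) :
    PP (a * n) (b * n) z ≤ (A * (n : ℝ) ^ 2 + z) ^ ((b - a) * n) := by
  have hn' : (1 : ℝ) ≤ n := by exact_mod_cast hn
  have hab' : (a : ℝ) < b := by exact_mod_cast hab
  have ha0 : (0 : ℝ) ≤ a := Nat.cast_nonneg a
  have hba : 0 < (b : ℝ) - a := by linarith
  have hA0 : 0 < A := by
    have h1 : 0 < (b : ℝ) ^ 3 - (a : ℝ) ^ 3 := by
      have : (a : ℝ) ^ 3 < (b : ℝ) ^ 3 := pow_lt_pow_left₀ hab' ha0 (by norm_num)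
      linarith
    have h2 : 0 < 3 * ((b : ℝ) - a) * A := lt_of_lt_of_le h1 hA
    exact pos_of_mul_pos_right h2 (by positivity)
  set B : ℝ := A * (n : ℝ) ^ 2 + z with hB
  have hB0 : 0 < B := by positivity
  have hcard : (Ico (a * n) (b * n)).card = (b - a) * n := by
    rw [Nat.card_Ico, Nat.sub_mul]
  have hle : a * n ≤ b * n := Nat.mul_le_mul_right n hab.le
  have h1 : ∀ k ∈ Ico (a * n) (b * n), ((k : ℝ) + 1 / 2) ^ 2 + z
      ≤ B * Real.exp ((((k : ℝ) + 1 / 2) ^ 2 + z) / B - 1) := by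
    intro k _
    have h2 := Real.add_one_le_exp ((((k : ℝ) + 1 / 2) ^ 2 + z) / B - 1)
    rw [sub_add_cancel] at h2
    calc ((k : ℝ) + 1 / 2) ^ 2 + z = B * ((((k : ℝ) + 1 / 2) ^ 2 + z) / B) := by field_simp
      _ ≤ _ := mul_le_mul_of_nonneg_left h2 hB0.le
  have h3 : PP (a * n) (b * n) z ≤
      ∏ k ∈ Ico (a * n) (b * n), B * Real.exp ((((k : ℝ) + 1 / 2) ^ 2 + z) / B - 1) :=
    prod_le_prod (fun k _ => by positivity) h1
  refine h3.trans ?_
  rw [prod_mul_distrib, prod_const, hcard, ← Real.exp_sum]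
  have h4 : ∑ k ∈ Ico (a * n) (b * n), ((((k : ℝ) + 1 / 2) ^ 2 + z) / B - 1) ≤ 0 := by
    rw [sum_sub_distrib, ← sum_div, sum_add_distrib, sum_half_sq_Ico _ _ hle, sum_const, sum_const,
      hcard, nsmul_eq_mul, nsmul_eq_mul, mul_one, sub_nonpos, div_le_iff₀ hB0, hB]
    push_cast [Nat.cast_sub hab.le]
    have e1 : ((b : ℝ) * n) ^ 3 / 3 - b * n / 12 - (((a : ℝ) * n) ^ 3 / 3 - a * n / 12) =
        (n : ℝ) ^ 3 * ((b : ℝ) ^ 3 - (a : ℝ) ^ 3) / 3 - ((b : ℝ) - a) * n / 12 := by ring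
    rw [e1]
    have h5 : (n : ℝ) ^ 3 * ((b : ℝ) ^ 3 - (a : ℝ) ^ 3) ≤ (n : ℝ) ^ 3 * (3 * ((b : ℝ) - a) * A) :=
      mul_le_mul_of_nonneg_left hA (by positivity)
    have h6 : 0 ≤ ((b : ℝ) - a) * n / 12 := by positivity
    nlinarith
  have h5 : Real.exp (∑ k ∈ Ico (a * n) (b * n), ((((k : ℝ) + 1 / 2) ^ 2 + z) / B - 1)) ≤ 1 := by
    rw [Real.exp_le_one_iff]
    exact h4
  calc B ^ ((b - a) * n) * Real.exp (∑ k ∈ Ico (a * n) (b * n), ((((k : ℝ) + 1 / 2) ^ 2 + z) / B - 1))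
      ≤ B ^ ((b - a) * n) * 1 := mul_le_mul_of_nonneg_left h5 (by positivity)
    _ = _ := mul_one _

/-- superadditivity on a block -/
lemma PP_lowerG (a b n : ℕ) (ha : 1 ≤ a) (hab : a < b) (hn : 1 ≤ n) (z : ℝ) (hz : 0 ≤ z) (G : ℝ)
    (hG0 : 0 < G) (hG : G ^ (b - a) * ((a : ℝ) ^ a) ^ 2 ≤ ((b : ℝ) ^ b) ^ 2) :
    (a : ℝ) / b * (G * ((n : ℝ) ^ 2 * Real.exp (-2)) + z) ^ ((b - a) * n) ≤ PP (a * n) (b * n) z := by
  have hn' : (0 : ℝ) < n := by exact_mod_cast hn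
  have ha' : (0 : ℝ) < a := by exact_mod_cast ha
  have hab' : (a : ℝ) < b := by exact_mod_cast hab
  have hb' : (0 : ℝ) < b := by linarith
  have hcard : (Ico (a * n) (b * n)).card = (b - a) * n := by
    rw [Nat.card_Ico, Nat.sub_mul]
  have hle : a * n ≤ b * n := Nat.mul_le_mul_right n hab.le
  have h := superadd (Ico (a * n) (b * n)) (fun k => ((k : ℝ) + 1 / 2) ^ 2) (fun k _ => by positivity)
    (G * ((n : ℝ) ^ 2 * Real.exp (-2))) z ((a : ℝ) / b) (by positivity) hz (by positivity)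
    (by rw [div_le_one hb']; exact hab'.le) ?_
  · rw [hcard] at h
    exact h
  · rw [hcard]
    refine le_trans ?_ (half_lower (a * n) (b * n) (Nat.mul_pos ha hn) hle)
    push_cast
    have e1 : (a : ℝ) * n / (b * n) = a / b := by field_simp
    rw [e1]
    apply mul_le_mul_of_nonneg_left _ (by positivity)
    have e2 : (b : ℝ) - a = ((b - a : ℕ) : ℝ) := by rw [Nat.cast_sub hab.le]
    have e3 : Real.exp ((a : ℝ) * n - b * n) = (Real.exp (-1)) ^ ((b - a) * n) := by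
      rw [← Real.exp_nat_mul]
      congr 1
      push_cast [Nat.cast_sub hab.le]
      ring
    have e4 : Real.exp (-2) = (Real.exp (-1)) ^ 2 := by
      rw [← Real.exp_nat_mul]
      norm_num
    rw [e3, e4]
    set E := Real.exp (-1) with hE
    have hE0 : 0 < E := Real.exp_pos _
    set d := b - a with hd
    have hbd : b = a + d := by omega
    have e5 : ((b : ℝ) * n) ^ (b * n) / ((a : ℝ) * n) ^ (a * n) =
        ((b : ℝ) ^ b / (a : ℝ) ^ a) ^ n * (n : ℝ) ^ (d * n) := by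
      rw [div_eq_iff (by positivity), mul_pow, mul_pow, div_pow, ← pow_mul, ← pow_mul]
      have e6 : (n : ℝ) ^ (b * n) = (n : ℝ) ^ (d * n) * (n : ℝ) ^ (a * n) := by
        rw [← pow_add]
        congr 1
        rw [hbd]
        ring
      rw [e6]
      field_simp
    rw [e5]
    calc (G * ((n : ℝ) ^ 2 * E ^ 2)) ^ (d * n)
        = (G ^ d) ^ n * (((n : ℝ) ^ (d * n)) * E ^ (d * n)) ^ 2 := by
          rw [mul_pow G, pow_mul G d n, ← mul_pow (n : ℝ) E 2, ← mul_pow (n : ℝ) E (d * n),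
            pow_right_comm ((n : ℝ) * E) 2 (d * n)]
      _ ≤ ((((b : ℝ) ^ b / (a : ℝ) ^ a)) ^ 2) ^ n * (((n : ℝ) ^ (d * n)) * E ^ (d * n)) ^ 2 := by
          apply mul_le_mul_of_nonneg_right _ (by positivity)
          apply pow_le_pow_left₀ (by positivity)
          rw [div_pow, le_div_iff₀ (by positivity)]
          exact hG
      _ = (((b : ℝ) ^ b / (a : ℝ) ^ a) ^ n * (n : ℝ) ^ (d * n) * E ^ (d * n)) ^ 2 := by
          ring

end Pool.Agent.D23
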