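import Pool.Agent.D23.ArchDet

/-!
Determinants of a line functional plus a small multiple of a finite sum of evaluations:
`|det| ≤ M! ∏ (B + |ε| A_j) h_j`.
-/

open MeasureTheory Set Real Polynomial Finset

namespace Pool.Agent.D23

/-- entries bounded by `z_i z_j (B + e a_i a_j)` -/
theorem norm_det_le_rows {M : ℕ} (X : Matrix (Fin M) (Fin M) ℂ) (B e : ℝ) (hB : 0 ≤ B) (he : 0 ≤ e)
    (z a : Fin M → ℝ) (hz : ∀ i, 0 ≤ z i)
    (h : ∀ i j, ‖X i j‖ ≤ z i * z j * (B + e * (a i * a j))) :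
    ‖X.det‖ ≤ (M.factorial : ℝ) * ∏ i, ((B + e * a i ^ 2) * z i ^ 2) := by
  have hw : ∀ i j, ‖X i j‖ ≤ 1 * ((z i * √(B + e * a i ^ 2)) * (z j * √(B + e * a j ^ 2))) := by
    intro i j
    have hi : 0 ≤ B + e * a i ^ 2 := by positivity
    have hj : 0 ≤ B + e * a j ^ 2 := by positivity
    have h1 : B + e * (a i * a j) ≤ √(B + e * a i ^ 2) * √(B + e * a j ^ 2) := by
      rw [← Real.sqrt_mul hi]
      refine Real.le_sqrt_of_sq_le ?_
      have h2 : 0 ≤ B * e * (a i - a j) ^ 2 := by positivity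
      nlinarith
    have hzz : 0 ≤ z i * z j := mul_nonneg (hz i) (hz j)
    calc ‖X i j‖ ≤ z i * z j * (B + e * (a i * a j)) := h i j
      _ ≤ z i * z j * (√(B + e * a i ^ 2) * √(B + e * a j ^ 2)) :=
          mul_le_mul_of_nonneg_left h1 hzz
      _ = 1 * ((z i * √(B + e * a i ^ 2)) * (z j * √(B + e * a j ^ 2))) := by ring
  have h3 := Z3D.norm_det_le X 1 (fun i => z i * √(B + e * a i ^ 2)) hw
  refine h3.trans (le_of_eq ?_)
  rw [one_pow, one_mul]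
  congr 1
  refine Finset.prod_congr rfl (fun i _ => ?_)
  have hi : 0 ≤ B + e * a i ^ 2 := by positivity
  rw [mul_pow, Real.sq_sqrt hi]
  ring

/-- Cauchy-Schwarz for a weighted sum of products of values -/
theorem norm_sum_le_weight {ι : Type*} (S : Finset ι) (w u v : ι → ℂ) (U V : ℝ)
    (hU : ∑ k ∈ S, ‖w k‖ * ‖u k‖ ^ 2 ≤ U) (hV : ∑ k ∈ S, ‖w k‖ * ‖v k‖ ^ 2 ≤ V) :
    ‖∑ k ∈ S, w k * (u k * v k)‖ ≤ √U * √V := by
  have h1 : ‖∑ k ∈ S, w k * (u k * v k)‖ ≤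
      ∑ k ∈ S, (√‖w k‖ * ‖u k‖) * (√‖w k‖ * ‖v k‖) := by
    refine (norm_sum_le _ _).trans (Finset.sum_le_sum (fun k _ => ?_))
    rw [norm_mul, norm_mul]
    have h2 : √‖w k‖ * √‖w k‖ = ‖w k‖ := Real.mul_self_sqrt (norm_nonneg _)
    calc ‖w k‖ * (‖u k‖ * ‖v k‖) = (√‖w k‖ * √‖w k‖) * (‖u k‖ * ‖v k‖) := by rw [h2]
      _ ≤ (√‖w k‖ * ‖u k‖) * (√‖w k‖ * ‖v k‖) := le_of_eq (by ring)
  have h4 := Finset.sum_mul_sq_le_sq_mul_sq S (fun k => √‖w k‖ * ‖u k‖) (fun k => √‖w k‖ * ‖v k‖)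
  have h5 : ∀ (g : ι → ℂ), ∑ k ∈ S, (√‖w k‖ * ‖g k‖) ^ 2 = ∑ k ∈ S, ‖w k‖ * ‖g k‖ ^ 2 := by
    intro g
    refine Finset.sum_congr rfl (fun k _ => ?_)
    rw [mul_pow, Real.sq_sqrt (norm_nonneg _)]
  rw [h5, h5] at h4
  have hU0 : 0 ≤ U := (Finset.sum_nonneg (fun k _ => by positivity)).trans hU
  have hV0 : 0 ≤ V := (Finset.sum_nonneg (fun k _ => by positivity)).trans hV
  refine h1.trans ?_
  rw [← Real.sqrt_mul hU0]
  refine Real.le_sqrt_of_sq_le (h4.trans ?_)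
  exact mul_le_mul hU hV (Finset.sum_nonneg (fun k _ => by positivity)) hU0

/-- sum of evaluations as a linear functional -/
noncomputable def evf {ι : Type*} (S : Finset ι) (w x : ι → ℂ) : ℂ[X] →ₗ[ℂ] ℂ where
  toFun P := ∑ k ∈ S, w k * P.eval (x k)
  map_add' P Q := by
    rw [← Finset.sum_add_distrib]
    refine Finset.sum_congr rfl (fun k _ => ?_)
    rw [eval_add]
    ring
  map_smul' a P := by
    rw [RingHom.id_apply, smul_eq_mul, Finset.mul_sum]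
    refine Finset.sum_congr rfl (fun k _ => ?_)
    rw [eval_smul, smul_eq_mul]
    ring

theorem evf_apply {ι : Type*} (S : Finset ι) (w x : ι → ℂ) (P : ℂ[X]) :
    evf S w x P = ∑ k ∈ S, w k * P.eval (x k) := rfl

/-- **Perturbed bound, abstract functional.** -/
theorem gram_pert (m M : ℕ) (c : ℝ) (Λ : ℂ[X] →ₗ[ℂ] ℂ) (B : ℝ) (hB : 0 ≤ B)
    (hΛ : ∀ i j, i < M → j < M → ‖Λ (Pm m c i * Pm m c j)‖ ≤ B * (√(hn m i) * √(hn m j)))
    {ι : Type*} (S : Finset ι) (w x : ι → ℂ) (ε : ℂ) (A : ℕ → ℝ)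
    (hA : ∀ j < M, ∑ k ∈ S, ‖w k‖ * ‖(Pm m c j).eval (x k)‖ ^ 2 ≤ A j * hn m j) :
    ‖(Z3D.gram (Λ + ε • evf S w x) (fun i => X ^ i) M).det‖ ≤
      (M.factorial : ℝ) * ∏ j ∈ range M, ((B + ‖ε‖ * A j) * hn m j) := by
  have hA0 : ∀ j < M, 0 ≤ A j := by
    intro j hj
    have h1 : 0 ≤ A j * hn m j := (Finset.sum_nonneg (fun k _ => by positivity)).trans (hA j hj)
    exact nonneg_of_mul_nonneg_left h1 (hn_pos m j)
  rw [← Z3D.det_gram (Λ + ε • evf S w x) (Pm m c) (Pm_monic m c) (Pm_natDegree m c) M]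
  have h2 := norm_det_le_rows (Z3D.gram (Λ + ε • evf S w x) (Pm m c) M) B ‖ε‖ hB (norm_nonneg _)
    (fun i => √(hn m i)) (fun i => √(A i)) (fun i => Real.sqrt_nonneg _) (fun i j => ?_)
  · refine h2.trans (le_of_eq ?_)
    congr 1
    rw [← Fin.prod_univ_eq_prod_range (fun j => (B + ‖ε‖ * A j) * hn m j)]
    refine Finset.prod_congr rfl (fun i _ => ?_)
    rw [Real.sq_sqrt (hn_pos m i).le, Real.sq_sqrt (hA0 i i.2)]
  · simp only [Z3D.gram, Matrix.of_apply, LinearMap.add_apply, LinearMap.smul_apply, smul_eq_mul]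
    have h3 : ‖evf S w x (Pm m c i * Pm m c j)‖ ≤
        √(A i * hn m i) * √(A j * hn m j) := by
      rw [evf_apply]
      have h4 := norm_sum_le_weight S w (fun k => (Pm m c i).eval (x k))
        (fun k => (Pm m c j).eval (x k)) _ _ (hA i i.2) (hA j j.2)
      refine le_trans (le_of_eq ?_) h4
      congr 1
      refine Finset.sum_congr rfl (fun k _ => ?_)
      rw [eval_mul]
    rw [Real.sqrt_mul (hA0 i i.2), Real.sqrt_mul (hA0 j j.2)] at h3
    calc ‖Λ (Pm m c i * Pm m c j) + ε * evf S w x (Pm m c i * Pm m c j)‖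
        ≤ ‖Λ (Pm m c i * Pm m c j)‖ + ‖ε‖ * ‖evf S w x (Pm m c i * Pm m c j)‖ := by
          refine (norm_add_le _ _).trans (le_of_eq ?_)
          rw [norm_mul]
      _ ≤ B * (√(hn m i) * √(hn m j)) +
          ‖ε‖ * (√(A i) * √(hn m i) * (√(A j) * √(hn m j))) :=
          add_le_add (hΛ i j i.2 j.2) (mul_le_mul_of_nonneg_left h3 (norm_nonneg _))
      _ = √(hn m i) * √(hn m j) * (B + ‖ε‖ * (√(A i) * √(A j))) := by ring

/-- **Perturbed archimedean bound** for a function dominated by the weight. -/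
theorem arch_det_pert (m M : ℕ) (c : ℝ) (F : ℝ → ℂ) (hFm : AEStronglyMeasurable F volume) (B : ℝ)
    (hF : ∀ y, ‖F y‖ ≤ B * wt m y) {ι : Type*} (S : Finset ι) (w x : ι → ℂ) (ε : ℂ) (A : ℕ → ℝ)
    (hA : ∀ j < M, ∑ k ∈ S, ‖w k‖ * ‖(Pm m c j).eval (x k)‖ ^ 2 ≤ A j * hn m j) :
    ‖(Matrix.of fun i j : Fin M => (∫ y : ℝ, ((c : ℂ) + y * Complex.I) ^ ((i : ℕ) + (j : ℕ)) * F y) +
        ε * ∑ k ∈ S, w k * x k ^ ((i : ℕ) + (j : ℕ))).det‖ ≤
      (M.factorial : ℝ) * ∏ j ∈ range M, ((B + ‖ε‖ * A j) * hn m j) := by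
  have hw0 : 0 < wt m 0 := by
    rw [wt_zero]
    have : (0 : ℝ) < m.factorial := by exact_mod_cast m.factorial_pos
    positivity
  have hB : 0 ≤ B := by
    have h := (norm_nonneg _).trans (hF 0)
    by_contra hneg
    push Not at hneg
    nlinarith
  set Λ := lfun m c F hFm B hB hF with hΛ
  have h1 : (Matrix.of fun i j : Fin M =>
      (∫ y : ℝ, ((c : ℂ) + y * Complex.I) ^ ((i : ℕ) + (j : ℕ)) * F y) +
        ε * ∑ k ∈ S, w k * x k ^ ((i : ℕ) + (j : ℕ))) =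
      Z3D.gram (Λ + ε • evf S w x) (fun i => X ^ i) M := by
    ext i j
    simp only [Matrix.of_apply, Z3D.gram, LinearMap.add_apply, LinearMap.smul_apply, smul_eq_mul,
      evf_apply, hΛ, lfun, LinearMap.coe_mk, AddHom.coe_mk]
    congr 1
    · congr 1
      ext y
      rw [← pow_add, eval_pow, eval_X]
    · congr 1
      refine Finset.sum_congr rfl (fun k _ => ?_)
      rw [← pow_add, eval_pow, eval_X]
  rw [h1]
  refine gram_pert m M c Λ B hB (fun i j _ _ => ?_) S w x ε A hA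
  simp only [hΛ, lfun, LinearMap.coe_mk, AddHom.coe_mk]
  exact entry_le m c F B hF i j

end Pool.Agent.D23
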