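import Pool.Agent.D23.PSum

/-!
# The product formula: lower bound of nonzero rational numbers from bounds for all primes

Uniform in an index: `D n i` is a family of rational numbers; the cost of the primes
`p ≤ K n`, `K n < p ^ 2` is given by a list of items, all the small primes satisfy a crude bound and
the primes above `K n` do not divide the denominators.
-/

open Finset Filter Topology

namespace Pool.Agent.D23

/-- the exponent of a prime in the denominator, through the norm -/
theorem padicNorm_den (p : ℕ) [hp : Fact p.Prime] (x : ℚ) (h : p ∣ x.den) :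
    padicNorm p x = (p : ℚ) ^ (x.den.factorization p) := by
  have hx : x ≠ 0 := by
    rintro rfl
    simp at h
    exact hp.out.one_lt.ne' h
  have hnum : x.num ≠ 0 := Rat.num_ne_zero.mpr hx
  have h1 : ¬ (p : ℤ) ∣ x.num := by
    intro h2
    have h3 : p ∣ x.num.natAbs := by
      rwa [← Int.natCast_dvd]
    have h4 := Nat.dvd_gcd h3 h
    rw [x.reduced] at h4
    exact hp.out.one_lt.ne' (Nat.dvd_one.mp h4)
  rw [padicNorm.eq_zpow_of_nonzero hx, padicValRat_def, padicValInt.eq_zero_of_not_dvd h1]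
  have h5 : padicValNat p x.den = x.den.factorization p :=
    (Nat.factorization_def _ hp.out).symm
  rw [h5]
  simp

/-- **Product formula**, lower bound: `|x| ≥ exp (-∑ ...)` over the primes of the denominator -/
theorem exp_le_abs (x : ℚ) (hx : x ≠ 0) :
    Real.exp (-∑ p ∈ x.den.primeFactors, (x.den.factorization p : ℝ) * Real.log p) ≤ |(x : ℝ)| := by
  have h1 : ∑ p ∈ x.den.primeFactors, (x.den.factorization p : ℝ) * Real.log p =
      Real.log (x.den : ℝ) := by
    have h2 : x.den = ∏ p ∈ x.den.primeFactors, p ^ x.den.factorization p :=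
      (Nat.prod_factorization_pow_eq_self x.den_nz).symm
    conv_rhs => rw [h2]
    push_cast
    rw [Real.log_prod]
    · refine sum_congr rfl fun p _ => ?_
      rw [Real.log_pow]
    · intro p hp
      have : (p : ℝ) ≠ 0 := by exact_mod_cast (Nat.prime_of_mem_primeFactors hp).ne_zero
      positivity
  have hd : (0 : ℝ) < x.den := by exact_mod_cast x.den_pos
  rw [h1, Real.exp_neg, Real.exp_log hd]
  have h3 : |(x : ℝ)| = |(x.num : ℝ)| / x.den := by
    rw [Rat.cast_def, abs_div, Nat.abs_cast]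
  rw [h3, inv_eq_one_div]
  refine div_le_div_of_nonneg_right ?_ hd.le
  have h4 : (1 : ℤ) ≤ |x.num| := Int.one_le_abs (Rat.num_ne_zero.mpr hx)
  exact_mod_cast h4

/-- **Arithmetic lower bound**, uniform in the index. -/
theorem arith_gen (hth : Tendsto (fun x : ℝ => Chebyshev.theta x / x) atTop (𝓝 1))
    {ι : Type*} (D : ℕ → ι → ℚ) (ok : ℕ → ι → Prop) (L : List (ℝ × ℝ × ℝ × ℝ))
    (hL : ∀ x ∈ L, 0 ≤ x.2.2.1 ∧ x.2.2.1 ≤ x.2.2.2 ∧ 0 ≤ x.1 + x.2.1 * x.2.2.1 ∧
      0 ≤ x.1 + x.2.1 * x.2.2.2) (g : ℝ) (hg : 0 ≤ g) (K C : ℕ) (hC : 1 ≤ C)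
    (hsmall : ∀ n : ℕ, 1 ≤ n → ∀ i, ok n i → ∀ p : ℕ, p.Prime → p ^ 2 ≤ K * n →
      padicNorm p (D n i) ≤ ((C * n : ℕ) : ℚ) ^ (C * n))
    (htab : ∀ n : ℕ, 1 ≤ n → ∀ i, ok n i → ∀ p : ℕ, p.Prime → K * n < p ^ 2 → p ≤ K * n →
      ∃ x ∈ L, ∃ e : ℕ, padicNorm p (D n i) ≤ (p : ℚ) ^ e ∧
        (e : ℝ) ≤ x.1 * n + x.2.1 * p + g ∧ x.2.2.1 * n < (p : ℝ) ∧ (p : ℝ) ≤ x.2.2.2 * n)
    (hhuge : ∀ n : ℕ, 1 ≤ n → ∀ i, ok n i → ∀ p : ℕ, p.Prime → K * n < p ^ 2 → K * n < p →
      padicNorm p (D n i) ≤ 1) {e : ℝ} (he : 0 < e) :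
    ∀ᶠ n : ℕ in atTop, ∀ i, ok n i → D n i ≠ 0 →
      Real.exp (-((L.map ival).sum + e) * (n : ℝ) ^ 2) ≤ |(D n i : ℝ)| := by
  classical
  set C' : ℝ := 2 * C + Real.sqrt K + 1 with hC'
  have hC0 : (0 : ℝ) ≤ C' := by positivity
  filter_upwards [psum hth L hL hg hC0 he, eventually_ge_atTop 2, eventually_ge_atTop C]
    with n hn hn2 hnC i hi hD
  have hn1 : 1 ≤ n := by omega
  have hnR : (2 : ℝ) ≤ n := by exact_mod_cast hn2
  set x := D n i with hx
  refine le_trans ?_ (exp_le_abs x hD)
  refine Real.exp_le_exp.mpr ?_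
  rw [neg_mul]
  refine neg_le_neg ?_
  have key : ∀ p ∈ x.den.primeFactors, ∀ B : ℕ, padicNorm p x ≤ (B : ℚ) →
      (x.den.factorization p : ℝ) * Real.log p ≤ Real.log B := by
    intro p hp B hB
    have hpp := Nat.prime_of_mem_primeFactors hp
    have : Fact p.Prime := ⟨hpp⟩
    rw [padicNorm_den p x (Nat.dvd_of_mem_primeFactors hp)] at hB
    have h1 : (p : ℝ) ^ (x.den.factorization p) ≤ (B : ℝ) := by exact_mod_cast hB
    have h2 : (0 : ℝ) < (p : ℝ) ^ (x.den.factorization p) := by
      have : (0 : ℝ) < p := by exact_mod_cast hpp.pos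
      positivity
    rw [← Real.log_pow]
    exact Real.log_le_log h2 h1
  refine hn x.den.primeFactors ((range (Nat.sqrt (K * n) + 1)).filter Nat.Prime)
    (fun p => (x.den.factorization p : ℝ)) (fun p hp => Nat.prime_of_mem_primeFactors hp) ?_ ?_ ?_
  · intro p hp
    have hpp := Nat.prime_of_mem_primeFactors hp
    have : Fact p.Prime := ⟨hpp⟩
    by_cases h1 : p ^ 2 ≤ K * n
    · left
      rw [mem_filter, mem_range]
      refine ⟨?_, hpp⟩
      have : p ≤ Nat.sqrt (K * n) := by
        rw [Nat.le_sqrt]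
        nlinarith
      omega
    · push Not at h1
      right
      have h2 : p ≤ K * n := by
        by_contra h3
        push Not at h3
        have h4 := hhuge n hn1 i hi p hpp h1 h3
        rw [← hx, padicNorm_den p x (Nat.dvd_of_mem_primeFactors hp)] at h4
        have h5 : (x.den.factorization p) ≠ 0 := by
          have := (Nat.Prime.factorization_pos_of_dvd hpp x.den_nz (Nat.dvd_of_mem_primeFactors hp))
          omega
        have h6 : (1 : ℚ) < (p : ℚ) ^ (x.den.factorization p) :=
          one_lt_pow₀ (by exact_mod_cast hpp.one_lt) h5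
        linarith
      obtain ⟨y, hy, e', h3, h4, h5, h6⟩ := htab n hn1 i hi p hpp h1 h2
      refine ⟨y, hy, le_trans ?_ h4, h5, h6⟩
      rw [← hx, padicNorm_den p x (Nat.dvd_of_mem_primeFactors hp)] at h3
      have h7 : x.den.factorization p ≤ e' := by
        by_contra h8
        push Not at h8
        have h9 : (p : ℚ) ^ e' < (p : ℚ) ^ (x.den.factorization p) :=
          pow_lt_pow_right₀ (by exact_mod_cast hpp.one_lt) h8
        linarith
      exact_mod_cast h7
  · have h1 : ((range (Nat.sqrt (K * n) + 1)).filter Nat.Prime).card ≤ Nat.sqrt (K * n) := by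
      have h2 : (range (Nat.sqrt (K * n) + 1)).filter Nat.Prime ⊆ Ico 1 (Nat.sqrt (K * n) + 1) := by
        intro p hp
        rw [mem_filter, mem_range] at hp
        rw [mem_Ico]
        exact ⟨hp.2.one_lt.le, hp.1⟩
      refine (card_le_card h2).trans ?_
      rw [Nat.card_Ico]
      omega
    have h3 : (Nat.sqrt (K * n) : ℝ) ≤ Real.sqrt ((K * n : ℕ) : ℝ) := Real.nat_sqrt_le_real_sqrt
    rw [Nat.cast_mul, Real.sqrt_mul (Nat.cast_nonneg K)] at h3
    have h4 : (((range (Nat.sqrt (K * n) + 1)).filter Nat.Prime).card : ℝ) ≤ Nat.sqrt (K * n) := by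
      exact_mod_cast h1
    refine h4.trans (h3.trans (mul_le_mul_of_nonneg_right ?_ (Real.sqrt_nonneg _)))
    rw [hC']
    have : (0 : ℝ) ≤ C := Nat.cast_nonneg C
    linarith
  · intro p hp
    rw [mem_filter, mem_range] at hp
    obtain ⟨hp1, hpp⟩ := hp
    have h1 : p ^ 2 ≤ K * n := by
      have : p ≤ Nat.sqrt (K * n) := by omega
      rw [Nat.le_sqrt] at this
      nlinarith
    have hlogn : 0 ≤ Real.log n := Real.log_natCast_nonneg n
    by_cases hpd : p ∈ x.den.primeFactors
    · have h2 := hsmall n hn1 i hi p hpp h1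
      rw [← hx] at h2
      have h3 := key p hpd ((C * n) ^ (C * n)) (by exact_mod_cast h2)
      refine h3.trans ?_
      push_cast
      rw [Real.log_pow]
      have hCn : Real.log ((C : ℝ) * n) ≤ 2 * Real.log n := by
        have h4 : ((C : ℝ) * n) ≤ (n : ℝ) ^ 2 := by
          have : (C : ℝ) ≤ n := by exact_mod_cast hnC
          nlinarith
        have h5 : (0 : ℝ) < (C : ℝ) * n := by
          have : (1 : ℝ) ≤ C := by exact_mod_cast hC
          positivity
        have h6 := Real.log_le_log h5 h4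
        rwa [Real.log_pow] at h6
      push_cast
      have h7 : (0 : ℝ) ≤ (C : ℝ) * n := by positivity
      calc (C : ℝ) * n * Real.log ((C : ℝ) * n) ≤ (C : ℝ) * n * (2 * Real.log n) :=
            mul_le_mul_of_nonneg_left hCn h7
        _ = (2 * C) * n * Real.log n := by ring
        _ ≤ C' * n * Real.log n := by
            refine mul_le_mul_of_nonneg_right (mul_le_mul_of_nonneg_right ?_ (by positivity)) hlogn
            rw [hC']
            have := Real.sqrt_nonneg (K : ℝ)
            linarith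
    · have h2 : x.den.factorization p = 0 := by
        rw [← Nat.support_factorization, Finsupp.notMem_support_iff] at hpd
        exact hpd
      rw [h2]
      simp only [Nat.cast_zero, zero_mul]
      positivity

end Pool.Agent.D23
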