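import Pool.Agent.D23.Cap

/-!
# BIG with polar classes: rows of small index are integral, and the classes of `T` are offers
-/

open Finset Polynomial

namespace Pool.Agent.D23

open Pool.Agent.Z3D (ccost uses gram offer gseq gseq_mem le_offer padicNorm_det_le)
open Pool.Agent.Z3.TermAux

section
variable {p : ℕ} [hp : Fact p.Prime]

/-- **BIG** for one polynomial, polar classes allowed -/
theorem entry_bigT (h2p : p ≠ 2) {r : ℕ} (Zb : Fin r → Finset ℕ) (K : Finset ℕ) (κ : ℚ)
    (hκ : padicNorm p κ ≤ 1) (GZ : ℤ[X]) (g : ℕ → ℤ) (hg0 : ∀ s, 0 ≤ g s)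
    (hG : ∀ x : ℤ, padicNorm p ((GZ.map (Int.castRingHom ℚ)).eval (x : ℚ)) ≤
      (p : ℚ) ^ (-g (cls p x)))
    (hK : ∀ k ∈ K, k < p ^ 2) (m : ℤ) (hm : ∀ k ∈ K, 1 ≤ m + k) (hmk : ∀ k ∈ K, m + k ≤ (p : ℤ) ^ 2)
    (N : ℕ) (hN : (GZ * numZ Zb).natDegree < K.card + N) (hN0 : 0 < N) (hNp : N < p)
    (T : Finset ℕ) (hT : ∀ k ∈ K, (p : ℤ) < m + k → k % p ∈ T)
    (hphi : ∀ k ∈ K, m + k ≤ p → k % p ∈ T ∨ -1 ≤ phi Zb K p (k % p))
    (B : ℤ) (hb : 0 ≤ B) (hB : ∀ t ∈ T, 2 - phi Zb K p t - g t ≤ B) (z c0 c1 : ℤ) :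
    padicNorm p (Lr K m (C κ * numP Zb) z c0 c1 (GZ.map (Int.castRingHom ℚ))) ≤ (p : ℚ) ^ B := by
  have hp0 := ppos (p := p)
  have hp1 := pone (p := p)
  have hκ' : padicNorm p κ ≤ (p : ℚ) ^ (-(0 : ℤ)) := by simpa using hκ
  set G := GZ.map (Int.castRingHom ℚ) with hGdef
  have hS : G * (C κ * numP Zb) = C κ * G * numP Zb := by ring
  have hS2 : G * (C κ * numP Zb) = C κ * (GZ * numZ Zb).map (Int.castRingHom ℚ) := by
    rw [Polynomial.map_mul, numZ_map, ← hGdef]
    ring
  have hGk : ∀ k ∈ K, padicNorm p (G.eval (-(k : ℚ))) ≤ (p : ℚ) ^ (-g (k % p)) := by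
    intro k _
    have h := hG (-(k : ℤ))
    rw [cls_neg] at h
    push_cast at h
    exact h
  have hv := padicNorm_pol_big p m κ (GZ * numZ Zb) K N hN hN0 hNp
  rw [← hS2] at hv
  have hκp : padicNorm p κ ≤ (p : ℚ) ^ B := by
    refine hκ.trans ?_
    calc (1 : ℚ) = (p : ℚ) ^ (0 : ℤ) := by simp
      _ ≤ (p : ℚ) ^ B := zpow_le_zpow_right₀ hp1.le hb
  rw [Lr_apply]
  refine asm K m _ z c0 c1 B (hv.1.trans hκp) ?_ ?_
  · rw [padicNorm.mul, norm_half h2p, one_mul]
    exact hv.2.trans hκp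
  · intro k hk
    have h1 := hm k hk
    have h3 := hmk k hk
    have hr := res_norm Zb K κ G 0 g hκ' k hk hK (hGk k hk)
    rw [← hS] at hr
    refine ⟨?_, ?_⟩
    · exact cast_toNat_lt (by omega) (by push_cast; omega)
    · by_cases hkT : k % p ∈ T
      · refine Or.inl (hr.trans ?_)
        apply zpow_le_zpow_right₀ hp1.le
        have h5 := hB _ hkT
        omega
      · have h4 : m + k ≤ (p : ℤ) := by
          by_contra hcon
          push Not at hcon
          exact hkT (hT k hk hcon)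
        refine Or.inr ⟨cast_toNat_lt (by omega) (by omega), hr.trans ?_⟩
        apply zpow_le_zpow_right₀ hp1.le
        have h5 := (hphi k hk h4).resolve_left hkT
        have h6 := hg0 (k % p)
        omega

theorem sum_base_le (p M D : ℕ) :
    ∑ i ∈ range M, (if i + M + D < p then (0 : ℤ) else 1) ≤ ((2 * M + D - p : ℕ) : ℤ) := by
  have h8 : ∀ N : ℕ, N ≤ M → ∑ i ∈ range N, (if i + M + D < p then (0 : ℤ) else 1) ≤
      ((N + M + D - p : ℕ) : ℤ) := by
    intro N
    induction N with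
    | zero => intro _; simp
    | succ N ih =>
      intro hN
      rw [sum_range_succ]
      have := ih (by omega)
      split_ifs with h9
      · have : ((N + M + D - p : ℕ) : ℤ) ≤ ((N + 1 + M + D - p : ℕ) : ℤ) := by
          exact_mod_cast (by omega : N + M + D - p ≤ N + 1 + M + D - p)
        linarith
      · have h10 : N + 1 + M + D - p = (N + M + D - p) + 1 := by omega
        rw [h10]
        push_cast
        linarith
  have h9 := h8 M le_rfl
  have h10 : M + M + D - p = 2 * M + D - p := by omega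
  rw [h10] at h9
  exact h9

/-- **BIG** with the classes of `T` as offers. -/
theorem det_bigT (L : ℚ[X] →ₗ[ℚ] ℚ) (w : ℕ → ℤ) (T : Finset ℕ) (hT : ∀ t ∈ T, t < p) (M D : ℕ)
    (h : ∀ s : ℕ → ℕ, (∀ j, s j < p) → ∀ i j, i < M → j < M → ∀ B : ℤ, 0 ≤ B →
      (i + j + D + 1 < p ∨ 1 ≤ B) → (∀ t ∈ T, w t - uses s t i - uses s t j ≤ B) →
      padicNorm p (L (nod s i * nod s j)) ≤ (p : ℚ) ^ B) :
    padicNorm p (gram L (fun i => X ^ i) M).det ≤
      (p : ℚ) ^ (((2 * M + D - p : ℕ) : ℤ) + ∑ t ∈ T, ccost (w t)) := by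
  have hp1 := (pone (p := p)).le
  by_cases hS : T.Nonempty
  · set s := gseq T hS w with hs
    have hsp : ∀ j, s j < p := fun j => hT _ (gseq_mem T hS w j)
    rw [det_nod L s M]
    have hb := padicNorm_det_le p (gram L (nod s) M)
      (fun i => max (offer T hS w i) (if (i : ℕ) + M + D < p then (0 : ℤ) else 1)) ?_
    · refine hb.trans (zpow_le_zpow_right₀ hp1 ?_)
      rw [Fin.sum_univ_eq_sum_range
        (fun i => max (offer T hS w i) (if (i : ℕ) + M + D < p then (0 : ℤ) else 1)) M]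
      have h1 := sum_offer_max_le T hS w 0 M
      have h2 := sum_base_le p M D
      have h3 : ∑ i ∈ range M, max (offer T hS w i) (if (i : ℕ) + M + D < p then (0 : ℤ) else 1) ≤
          ∑ i ∈ range M, (if (i : ℕ) + M + D < p then (0 : ℤ) else 1) +
            ∑ i ∈ range M, max (offer T hS w i) 0 := by
        rw [← sum_add_distrib]
        refine sum_le_sum (fun i _ => ?_)
        split_ifs <;> omega
      simp only [zero_mul, zero_add, sub_zero] at h1
      linarith
    · intro i j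
      have hi := i.2
      have hj := j.2
      refine sq_le_of_half p (padicNorm.nonneg _)
        (h s hsp i j hi hj ((max (offer T hS w i) (if (i : ℕ) + M + D < p then (0 : ℤ) else 1) +
          max (offer T hS w j) (if (j : ℕ) + M + D < p then (0 : ℤ) else 1)) / 2) ?_ ?_ ?_) ?_
      · have h1 : (0 : ℤ) ≤ (if (i : ℕ) + M + D < p then (0 : ℤ) else 1) := by split_ifs <;> simp
        have h2 : (0 : ℤ) ≤ (if (j : ℕ) + M + D < p then (0 : ℤ) else 1) := by split_ifs <;> simp
        omega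
      · by_cases h5 : (i : ℕ) + j + D + 1 < p
        · exact Or.inl h5
        · right
          rw [if_neg (by omega), if_neg (by omega)]
          omega
      · intro t ht
        have h1 := le_offer T hS w i ht
        have h2 := le_offer T hS w j ht
        rw [← hs] at h1 h2
        have h3 := le_max_left (offer T hS w i) (if (i : ℕ) + M + D < p then (0 : ℤ) else 1)
        have h4 := le_max_left (offer T hS w j) (if (j : ℕ) + M + D < p then (0 : ℤ) else 1)
        omega
      · omega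
  · rw [not_nonempty_iff_eq_empty] at hS
    subst hS
    rw [det_nod L (fun _ => 0) M]
    have hb := padicNorm_det_le p (gram L (nod (fun _ => 0)) M)
      (fun i => (if (i : ℕ) + M + D < p then (0 : ℤ) else 1)) ?_
    · refine hb.trans (zpow_le_zpow_right₀ hp1 ?_)
      rw [Fin.sum_univ_eq_sum_range (fun i => (if (i : ℕ) + M + D < p then (0 : ℤ) else 1)) M]
      have h2 := sum_base_le p M D
      simpa using h2
    · intro i j
      have hi := i.2
      have hj := j.2
      refine sq_le_of_half p (padicNorm.nonneg _)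
        (h (fun _ => 0) (fun _ => hp.out.pos) i j hi hj
          (((if (i : ℕ) + M + D < p then (0 : ℤ) else 1) +
          (if (j : ℕ) + M + D < p then (0 : ℤ) else 1)) / 2) ?_ ?_ (by simp)) ?_
      · split_ifs <;> norm_num
      · by_cases h5 : (i : ℕ) + j + D + 1 < p
        · exact Or.inl h5
        · right
          rw [if_neg (by omega), if_neg (by omega)]
          norm_num
      · omega

/-- **Determinant, BIG** with polar classes -/
theorem det_BIGT {r : ℕ} (Zb : Fin r → Finset ℕ) (K : Finset ℕ) (κ : ℚ) (m : ℤ) (z c0 c1 : ℤ)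
    (M D : ℕ) (h2p : p ≠ 2) (hκ : padicNorm p κ ≤ 1)
    (hK : ∀ k ∈ K, k < p ^ 2) (hm : ∀ k ∈ K, 1 ≤ m + k) (hmk : ∀ k ∈ K, m + k ≤ (p : ℤ) ^ 2)
    (hD : ∑ b, (Zb b).card ≤ K.card + D) (hM : 0 < M) (hNp : 2 * M + D < p ^ 2)
    (T : Finset ℕ) (hTp : ∀ t ∈ T, t < p) (hT : ∀ k ∈ K, (p : ℤ) < m + k → k % p ∈ T)
    (hphi2 : ∀ k ∈ K, m + k ≤ p → -2 ≤ phi Zb K p (k % p))
    (hphi : ∀ k ∈ K, m + k ≤ p → k % p ∈ T ∨ -1 ≤ phi Zb K p (k % p)) :
    padicNorm p (gram (Lr K m (C κ * numP Zb) z c0 c1) (fun i => X ^ i) M).det ≤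
      (p : ℚ) ^ (((2 * M + D - p : ℕ) : ℤ) + ∑ t ∈ T, ccost (2 - phi Zb K p t)) := by
  have hκ' : padicNorm p κ ≤ (p : ℚ) ^ (-(0 : ℤ)) := by simpa using hκ
  refine det_bigT _ (fun t => 2 - phi Zb K p t) T hTp M D ?_
  intro s hs i j hi hj B hb hb2 hB
  have hGn : ∀ x : ℤ, padicNorm p (((nodZ s i * nodZ s j).map (Int.castRingHom ℚ)).eval (x : ℚ)) ≤
      (p : ℚ) ^ (-((uses s (cls p x) i : ℤ) + uses s (cls p x) j)) := by
    intro x
    rw [Polynomial.map_mul, nodZ_map, nodZ_map]
    exact nod_mul_norm s hs i j x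
  have hg0 : ∀ t, (0 : ℤ) ≤ (uses s t i : ℤ) + uses s t j := fun t => by positivity
  rcases hb2 with h1 | h1
  · have hdeg : (nodZ s i * nodZ s j * numZ Zb).natDegree < K.card + (i + j + D + 1) := by
      have h1 := natDegree_mul_le (p := nodZ s i * nodZ s j) (q := numZ Zb)
      have h2 := natDegree_mul_le (p := nodZ s i) (q := nodZ s j)
      rw [nodZ_natDegree, nodZ_natDegree] at h2
      rw [numZ_natDegree] at h1
      omega
    have h3 := entry_bigT h2p Zb K κ hκ (nodZ s i * nodZ s j)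
      (fun t => (uses s t i : ℤ) + uses s t j) hg0 hGn hK m hm hmk (i + j + D + 1) hdeg
      (by omega) h1 T hT hphi B hb (fun t ht => by have := hB t ht; omega) z c0 c1
    rw [Polynomial.map_mul, nodZ_map, nodZ_map] at h3
    exact h3
  · have h3 := entry_cap h2p Zb K κ 0 hκ' (nodZ s i * nodZ s j)
      (fun t => (uses s t i : ℤ) + uses s t j) hg0 hGn hK m hm hmk (2 * M + D)
      (entry_deg Zb K M D hD s i j hi hj) (by omega) hNp T hT hphi2 B (by omega)
      (fun t ht => by have := hB t ht; omega) z c0 c1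
    rw [Polynomial.map_mul, nodZ_map, nodZ_map] at h3
    exact h3

end

end Pool.Agent.D23
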