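import Pool.Agent.Z3D.DetBound
import Pool.Agent.Z3D.Greedy
import Pool.Agent.Z3D.Pade

/-!
# D23: p-adic bounds of the Hankel determinant from p-adic bounds of the entries
(steps (7) and (8) of d23_PADIC.md)
-/

set_option autoImplicit false

open Finset Polynomial

namespace Pool.Agent.D23

open Pool.Agent.Z3D

/-- the Newton polynomial with nodes `-s 0, ..., -s (i-1)` -/
noncomputable def nod (s : ℕ → ℕ) (i : ℕ) : ℚ[X] := ∏ j ∈ range i, (X + C (s j : ℚ))

theorem nod_monic (s : ℕ → ℕ) (i : ℕ) : (nod s i).Monic :=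
  monic_prod_of_monic _ _ (fun _ _ => monic_X_add_C _)

theorem nod_natDegree (s : ℕ → ℕ) (i : ℕ) : (nod s i).natDegree = i := by
  unfold nod
  rw [natDegree_prod_of_monic _ _ (fun _ _ => monic_X_add_C _),
    sum_congr rfl (fun j _ => natDegree_X_add_C (s j : ℚ))]
  simp

theorem det_nod (L : ℚ[X] →ₗ[ℚ] ℚ) (s : ℕ → ℕ) (M : ℕ) :
    (gram L (fun i => X ^ i) M).det = (gram L (nod s) M).det :=
  (det_gram L (nod s) (nod_monic s) (nod_natDegree s) M).symm

/-- a refined bound of the greedy sums, with every offer cut at the level `lam` from below -/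
theorem sum_offer_max_le (S : Finset ℕ) (hS : S.Nonempty) (w : ℕ → ℤ) (lam : ℤ) (M : ℕ) :
    ∑ i ∈ range M, max (offer S hS w i) lam ≤ lam * M + ∑ t ∈ S, ccost (w t - lam) := by
  have h1 : ∀ M : ℕ, ∑ i ∈ range M, max (offer S hS w i) lam ≤
      lam * M + ∑ t ∈ S, cost (w t - lam) (uses (gseq S hS w) t M) := by
    intro M
    induction M with
    | zero => simp [uses_zero, cost_zero]
    | succ M ih =>
      rw [sum_range_succ]
      have h2 : ∑ t ∈ S, cost (w t - lam) (uses (gseq S hS w) t (M + 1)) =
          ∑ t ∈ S, cost (w t - lam) (uses (gseq S hS w) t M) +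
            max (w (gseq S hS w M) - lam - 2 * (uses (gseq S hS w) (gseq S hS w M) M : ℤ)) 0 := by
        have h3 : ∀ t ∈ S, cost (w t - lam) (uses (gseq S hS w) t (M + 1)) =
            cost (w t - lam) (uses (gseq S hS w) t M) +
              if gseq S hS w M = t then
                max (w (gseq S hS w M) - lam - 2 * (uses (gseq S hS w) (gseq S hS w M) M : ℤ)) 0
              else 0 := by
          intro t _
          rw [uses_succ]
          split_ifs with h
          · rw [cost_succ, h]
          · rw [Nat.add_zero, add_zero]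
        rw [sum_congr rfl h3, sum_add_distrib, sum_ite_eq, if_pos (gseq_mem S hS w M)]
      rw [h2]
      have h4 : max (offer S hS w M) lam - lam =
          max (w (gseq S hS w M) - lam - 2 * (uses (gseq S hS w) (gseq S hS w M) M : ℤ)) 0 := by
        have h5 : w (gseq S hS w M) - lam - 2 * (uses (gseq S hS w) (gseq S hS w M) M : ℤ) =
            offer S hS w M - lam := by
          unfold offer
          ring
        rw [h5]
        rcases le_total (offer S hS w M) lam with h6 | h6
        · rw [max_eq_right h6, max_eq_right (by linarith)]; ring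
        · rw [max_eq_left h6, max_eq_left (by linarith)]
      push_cast
      linarith
  refine (h1 M).trans ?_
  have := sum_le_sum (fun t (_ : t ∈ S) => cost_le (w t - lam) (uses (gseq S hS w) t M))
  linarith

section
variable (p : ℕ) [hp : Fact p.Prime] (L : ℚ[X] →ₗ[ℚ] ℚ)

private theorem p_pos : (0 : ℚ) < p := by exact_mod_cast hp.out.pos

private theorem one_le_p : (1 : ℚ) ≤ p := by exact_mod_cast hp.out.one_lt.le

theorem sq_le_of_half {x : ℚ} {B c : ℤ} (hx : 0 ≤ x) (h : x ≤ (p : ℚ) ^ B) (hB : 2 * B ≤ c) :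
    x ^ 2 ≤ (p : ℚ) ^ c := by
  calc x ^ 2 ≤ ((p : ℚ) ^ B) ^ 2 := pow_le_pow_left₀ hx h 2
    _ = (p : ℚ) ^ (2 * B) := by rw [mul_comm, zpow_mul]; norm_cast
    _ ≤ (p : ℚ) ^ c := zpow_le_zpow_right₀ (one_le_p p) hB

/-- **LIN.** The Hankel determinant from the class bounds of the entries. -/
theorem det_lin (w : ℕ → ℤ) (M : ℕ)
    (h : ∀ s : ℕ → ℕ, (∀ j, s j < p) → ∀ i j, i < M → j < M → ∀ B : ℤ,
      (∀ t < p, w t - uses s t i - uses s t j ≤ B) →
      padicNorm p (L (nod s i * nod s j)) ≤ (p : ℚ) ^ B) (lam : ℤ) :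
    padicNorm p (gram L (fun i => X ^ i) M).det ≤
      (p : ℚ) ^ (lam * M + ∑ t ∈ range p, ccost (w t - lam)) := by
  have hS : (range p).Nonempty := nonempty_range_iff.mpr hp.out.ne_zero
  set s := gseq (range p) hS w with hs
  have hsp : ∀ j, s j < p := fun j => mem_range.mp (gseq_mem (range p) hS w j)
  rw [det_nod L s M]
  have hb := padicNorm_det_le p (gram L (nod s) M) (fun i => offer (range p) hS w i) ?_
  · refine hb.trans (zpow_le_zpow_right₀ (one_le_p p) ?_)
    rw [Fin.sum_univ_eq_sum_range (fun i => offer (range p) hS w i) M]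
    exact sum_offer_le (range p) hS w lam M
  · intro i j
    have hi := i.2
    have hj := j.2
    refine sq_le_of_half p (padicNorm.nonneg _)
      (h s hsp i j hi hj ((offer (range p) hS w i + offer (range p) hS w j) / 2) ?_) ?_
    · intro t ht
      have h1 := le_offer (range p) hS w i (mem_range.mpr ht)
      have h2 := le_offer (range p) hS w j (mem_range.mpr ht)
      rw [← hs] at h1 h2
      omega
    · omega

/-- **CAP.** Only the classes of `T` are bounded by their weights, everything else by `b`. -/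
theorem det_cap (w : ℕ → ℤ) (T : Finset ℕ) (hT : ∀ t ∈ T, t < p) (b : ℤ) (M : ℕ)
    (h : ∀ s : ℕ → ℕ, (∀ j, s j < p) → ∀ i j, i < M → j < M → ∀ B : ℤ, b ≤ B →
      (∀ t ∈ T, w t - uses s t i - uses s t j ≤ B) →
      padicNorm p (L (nod s i * nod s j)) ≤ (p : ℚ) ^ B) :
    padicNorm p (gram L (fun i => X ^ i) M).det ≤
      (p : ℚ) ^ (b * M + ∑ t ∈ T, ccost (w t - b)) := by
  by_cases hS : T.Nonempty
  · set s := gseq T hS w with hs
    have hsp : ∀ j, s j < p := fun j => hT _ (gseq_mem T hS w j)
    rw [det_nod L s M]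
    have hb := padicNorm_det_le p (gram L (nod s) M) (fun i => max (offer T hS w i) b) ?_
    · refine hb.trans (zpow_le_zpow_right₀ (one_le_p p) ?_)
      rw [Fin.sum_univ_eq_sum_range (fun i => max (offer T hS w i) b) M]
      exact sum_offer_max_le T hS w b M
    · intro i j
      have hi := i.2
      have hj := j.2
      refine sq_le_of_half p (padicNorm.nonneg _)
        (h s hsp i j hi hj ((max (offer T hS w i) b + max (offer T hS w j) b) / 2) ?_ ?_) ?_
      · have h1 := le_max_right (offer T hS w i) b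
        have h2 := le_max_right (offer T hS w j) b
        omega
      · intro t ht
        have h1 := le_offer T hS w i ht
        have h2 := le_offer T hS w j ht
        rw [← hs] at h1 h2
        have h3 := le_max_left (offer T hS w i) b
        have h4 := le_max_left (offer T hS w j) b
        omega
      · omega
  · rw [not_nonempty_iff_eq_empty] at hS
    subst hS
    rw [det_nod L (fun _ => 0) M]
    have hb := padicNorm_det_le p (gram L (nod (fun _ => 0)) M) (fun _ => b) ?_
    · refine hb.trans (zpow_le_zpow_right₀ (one_le_p p) ?_)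
      simp [mul_comm]
    · intro i j
      exact sq_le_of_half p (padicNorm.nonneg _)
        (h (fun _ => 0) (fun _ => hp.out.pos) i j i.2 j.2 b le_rfl (by simp)) (by omega)

/-- **BIG.** Rows with small index are integral, the other entries cost at most one `p`. -/
theorem det_big (M D : ℕ) (_hD : M + D ≤ p)
    (h1 : ∀ i j, i < M → j < M → padicNorm p (L (X ^ i * X ^ j)) ≤ p)
    (h0 : ∀ i j, i < M → j < M → i + j + D + 1 < p → padicNorm p (L (X ^ i * X ^ j)) ≤ 1) :
    padicNorm p (gram L (fun i => X ^ i) M).det ≤ (p : ℚ) ^ (((2 * M + D - p : ℕ)) : ℤ) := by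
  have hp0 := p_pos p
  rw [Matrix.det_apply]
  refine padicNorm.sum_le' (fun σ _ => ?_) (zpow_pos hp0 _).le
  set A := gram L (fun i => X ^ i) M with hA
  have h4 : ∀ s : Finset (Fin M), padicNorm p (∏ i ∈ s, A (σ i) i) =
      ∏ i ∈ s, padicNorm p (A (σ i) i) := by
    intro s
    induction s using Finset.induction_on with
    | empty => simp
    | insert a s ha ih => rw [prod_insert ha, prod_insert ha, padicNorm.mul, ih]
  have h2 : padicNorm p (Equiv.Perm.sign σ • ∏ i, A (σ i) i) = ∏ i, padicNorm p (A (σ i) i) := by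
    rcases Int.units_eq_one_or (Equiv.Perm.sign σ) with h3 | h3
    · rw [h3, one_smul, h4]
    · rw [h3, Units.neg_smul, one_smul, padicNorm.neg, h4]
  rw [h2]
  have h5 : ∀ i : Fin M, padicNorm p (A (σ i) i) ≤
      (p : ℚ) ^ (if (i : ℕ) + M + D < p then (0 : ℤ) else 1) := by
    intro i
    split_ifs with hi
    · rw [zpow_zero]
      refine h0 _ _ (σ i).2 i.2 ?_
      have := (σ i).2
      omega
    · rw [zpow_one]
      exact h1 _ _ (σ i).2 i.2
  refine (prod_le_prod (fun i _ => padicNorm.nonneg _) (fun i _ => h5 i)).trans ?_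
  have h6 : ∀ s : Finset (Fin M), ∀ f : Fin M → ℤ, ∏ i ∈ s, (p : ℚ) ^ (f i) =
      (p : ℚ) ^ (∑ i ∈ s, f i) := by
    intro s f
    induction s using Finset.induction_on with
    | empty => simp
    | insert a s ha ih => rw [prod_insert ha, sum_insert ha, ih, zpow_add₀ hp0.ne']
  rw [h6]
  refine zpow_le_zpow_right₀ (one_le_p p) ?_
  have h7 : ∑ i : Fin M, (if (i : ℕ) + M + D < p then (0 : ℤ) else 1) =
      ∑ i ∈ range M, (if i + M + D < p then (0 : ℤ) else 1) :=
    Fin.sum_univ_eq_sum_range (fun i => if i + M + D < p then (0 : ℤ) else 1) M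
  rw [h7]
  have h8 : ∀ N : ℕ, N ≤ M → ∑ i ∈ range N, (if i + M + D < p then (0 : ℤ) else 1) ≤
      ((N + M + D - p : ℕ) : ℤ) := by
    intro N
    induction N with
    | zero => intro _; simp
    | succ N ih =>
      intro hN
      rw [sum_range_succ]
      have := ih (by omega)
      split_ifs with h9
      · have : ((N + M + D - p : ℕ) : ℤ) ≤ ((N + 1 + M + D - p : ℕ) : ℤ) := by
          exact_mod_cast (by omega : N + M + D - p ≤ N + 1 + M + D - p)
        linarith
      · have h10 : N + 1 + M + D - p = (N + M + D - p) + 1 := by omega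
        rw [h10]
        push_cast
        linarith
  have h9 := h8 M le_rfl
  have h10 : M + M + D - p = 2 * M + D - p := by omega
  rw [h10] at h9
  exact h9

end

/-- closed form of the normalisation -/
theorem two_sum_div (p : ℕ) (hp : 0 < p) (M : ℕ) :
    2 * ∑ i ∈ range M, ((i / p : ℕ) : ℤ) =
      2 * ((M / p : ℕ) : ℤ) * M - p * (((M / p : ℕ) : ℤ) * (((M / p : ℕ) : ℤ) + 1)) := by
  induction M with
  | zero => simp
  | succ M ih =>
    rw [sum_range_succ, mul_add, ih]
    rw [Nat.succ_div]
    split_ifs with h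
    · obtain ⟨q, hq⟩ := h
      have h1 : M / p = q - 1 := by
        have hq0 : 0 < q := by
          rcases Nat.eq_zero_or_pos q with h0 | h0
          · subst h0; simp at hq
          · exact h0
        have h2 : M = p * (q - 1) + (p - 1) := by
          have h3 : p * q = p * (q - 1) + p := by
            conv_lhs => rw [show q = (q - 1) + 1 by omega]
            ring
          omega
        rw [h2, Nat.mul_add_div hp, Nat.div_eq_of_lt (by omega)]
        simp
      have hq0 : 0 < q := by
        rcases Nat.eq_zero_or_pos q with h0 | h0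
        · subst h0; simp at hq
        · exact h0
      have hM : (M : ℤ) + 1 = p * q := by exact_mod_cast hq
      rw [h1]
      have h2 : ((q - 1 : ℕ) : ℤ) = q - 1 := by push_cast [hq0]; ring
      have hM2 : (M : ℤ) = p * q - 1 := by linarith
      rw [Nat.cast_add, Nat.cast_add, h2, Nat.cast_one, hM2]
      ring
    · rw [Nat.add_zero, Nat.cast_add M 1, Nat.cast_one]
      ring

theorem padicNorm_factorial (p : ℕ) [hp : Fact p.Prime] {i : ℕ} (hi : i < p ^ 2) :
    padicNorm p (i.factorial : ℚ) = (p : ℚ) ^ (-((i / p : ℕ) : ℤ)) := by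
  have h1 : padicValNat p i.factorial = i / p := by
    rcases Nat.eq_zero_or_pos i with h0 | h0
    · subst h0; simp
    · rw [padicValNat_factorial (b := 2) (Nat.log_lt_of_lt_pow h0.ne' hi)]
      simp
  rw [padicNorm.eq_zpow_of_nonzero (by exact_mod_cast i.factorial_ne_zero)]
  congr 2
  rw [padicValRat.of_nat, h1]

/-- the normalisation by the squares of the factorials -/
theorem padicNorm_norm_le (p : ℕ) [hp : Fact p.Prime] (d : ℚ) (M : ℕ) (hM : M ≤ p ^ 2) (c : ℤ)
    (hd : padicNorm p d ≤ (p : ℚ) ^ c) :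
    padicNorm p (d / ∏ i ∈ range M, (i.factorial : ℚ) ^ 2) ≤
      (p : ℚ) ^ (c + 2 * ((M / p : ℕ) : ℤ) * M - p * (((M / p : ℕ) : ℤ) * (((M / p : ℕ) : ℤ) + 1))) := by
  have hp0 : (0 : ℚ) < p := by exact_mod_cast hp.out.pos
  have h1 : padicNorm p (∏ i ∈ range M, (i.factorial : ℚ) ^ 2) =
      (p : ℚ) ^ (-(2 * ∑ i ∈ range M, ((i / p : ℕ) : ℤ))) := by
    have h2 : ∀ N : ℕ, N ≤ M → padicNorm p (∏ i ∈ range N, (i.factorial : ℚ) ^ 2) =
        (p : ℚ) ^ (-(2 * ∑ i ∈ range N, ((i / p : ℕ) : ℤ))) := by
      intro N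
      induction N with
      | zero => intro _; simp
      | succ N ih =>
        intro hN
        rw [prod_range_succ, padicNorm.mul, ih (by omega), sum_range_succ, pow_two, padicNorm.mul,
          padicNorm_factorial p (by omega : N < p ^ 2), ← zpow_add₀ hp0.ne', ← zpow_add₀ hp0.ne']
        congr 1
        ring
    exact h2 M le_rfl
  rw [padicNorm.div, h1, div_le_iff₀ (zpow_pos hp0 _), ← zpow_add₀ hp0.ne']
  refine hd.trans (le_of_eq ?_)
  congr 1
  rw [two_sum_div p hp.out.pos M]
  ring

end Pool.Agent.D23
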