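import Pool.Agent.D23.Volk

/-!
Newton coefficients of rational polynomials, the values of the Volkenborn functional in terms of
them, and p-adic bounds.
-/

open Finset Polynomial

namespace Pool.Agent.D23

open Pool.Agent.Z3 (H)

/-- the Newton coefficient: the `j`-th forward difference at zero -/
def nc (P : ℚ[X]) (j : ℕ) : ℚ :=
  ∑ i ∈ range (j + 1), ((-1 : ℚ) ^ (j - i) * (j.choose i : ℚ)) * P.eval (i : ℚ)

theorem nc_eq_fwdDiff (P : ℚ[X]) (j : ℕ) :
    nc P j = (fwdDiff (1 : ℚ))^[j] (fun x => P.eval x) 0 := by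
  rw [fwdDiff_iter_eq_sum_shift, nc]
  refine sum_congr rfl (fun i _ => ?_)
  simp

theorem nc_eq_zero (P : ℚ[X]) (j : ℕ) (h : P.natDegree < j) : nc P j = 0 := by
  rw [nc_eq_fwdDiff]
  have := Polynomial.fwdDiff_iter_eq_zero_of_degree_lt h
  exact congrFun this 0

/-- Newton's formula at the natural numbers -/
theorem eval_nat_eq_sum_nc (P : ℚ[X]) (n : ℕ) :
    P.eval (n : ℚ) = ∑ j ∈ range (n + 1), nc P j * (n.choose j : ℚ) := by
  have h := shift_eq_sum_fwdDiff_iter (1 : ℚ) (fun x => P.eval x) n 0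
  simp only [nsmul_eq_mul, mul_one, zero_add] at h
  rw [h]
  refine sum_congr rfl (fun j _ => ?_)
  rw [nc_eq_fwdDiff, mul_comm]

theorem newton (P : ℚ[X]) (N : ℕ) (hN : P.natDegree < N) :
    P = ∑ j ∈ range N, C (nc P j) * bin j := by
  refine poly_ext_nat (fun n => ?_)
  rw [eval_finsetSum, eval_nat_eq_sum_nc]
  simp only [eval_mul, eval_C, bin_eval_nat]
  have h1 : ∑ j ∈ range (n + 1), nc P j * (n.choose j : ℚ) =
      ∑ j ∈ range (max (n + 1) N), nc P j * (n.choose j : ℚ) := by
    refine sum_subset (range_mono (le_max_left _ _)) (fun j _ hj => ?_)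
    rw [mem_range, not_lt] at hj
    rw [Nat.choose_eq_zero_of_lt (by omega)]
    simp
  have h2 : ∑ j ∈ range N, nc P j * (n.choose j : ℚ) =
      ∑ j ∈ range (max (n + 1) N), nc P j * (n.choose j : ℚ) := by
    refine sum_subset (range_mono (le_max_right _ _)) (fun j _ hj => ?_)
    rw [mem_range, not_lt] at hj
    rw [nc_eq_zero P j (by omega), zero_mul]
  rw [h1, h2]

theorem volk0_eq_sum_nc (P : ℚ[X]) (N : ℕ) (hN : P.natDegree < N) :
    volk0 P = ∑ j ∈ range N, nc P j * ((-1) ^ j / ((j : ℚ) + 1)) := by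
  conv_lhs => rw [newton P N hN]
  rw [map_sum]
  refine sum_congr rfl (fun j _ => ?_)
  rw [← smul_eq_C_mul, map_smul, volk0_bin, smul_eq_mul]

theorem H_one_succ (j : ℕ) : H 1 (j + 1) = H 1 j + 1 / ((j : ℚ) + 1) := by
  unfold H
  rw [sum_range_succ, pow_one]

theorem descPochhammer_eval_neg_one (j : ℕ) :
    (descPochhammer ℚ j).eval (-1) = (-1) ^ j * (j.factorial : ℚ) := by
  induction j with
  | zero => simp
  | succ j ih =>
    rw [descPochhammer_succ_right, eval_mul, ih]
    simp only [eval_sub, eval_X, eval_natCast, Nat.factorial_succ]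
    push_cast
    ring

theorem descPochhammer_deriv_neg_one (j : ℕ) :
    (derivative (descPochhammer ℚ j)).eval (-1) = (-1) ^ (j + 1) * (j.factorial : ℚ) * H 1 j := by
  induction j with
  | zero => simp [H]
  | succ j ih =>
    rw [descPochhammer_succ_right, derivative_mul, eval_add, eval_mul, eval_mul, ih,
      descPochhammer_eval_neg_one, H_one_succ]
    simp only [derivative_sub, derivative_X, derivative_natCast, sub_zero, eval_one, mul_one,
      eval_sub, eval_X, eval_natCast, Nat.factorial_succ]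
    have : ((j : ℚ) + 1) ≠ 0 := by positivity
    push_cast
    field_simp
    ring

theorem volk0_deriv_bin (j : ℕ) :
    volk0 (derivative (bin j)) = 2 * (-1) ^ (j + 1) * H 1 j / ((j : ℚ) + 1) := by
  have h0 : derivative (bin j) =
      (derivative (bin (j + 1))).comp (X + 1) - derivative (bin (j + 1)) := by
    conv_lhs => rw [← bin_delta j]
    rw [derivative_sub, derivative_comp]
    simp
  rw [h0, map_sub, volk0_delta]
  have h1 : descPochhammer ℚ (j + 1) = X * (descPochhammer ℚ j).comp (X - 1) :=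
    descPochhammer_succ_left ℚ j
  have h2 : derivative (derivative (X * (descPochhammer ℚ j).comp (X - 1))) =
      2 * (derivative (descPochhammer ℚ j)).comp (X - 1) +
      X * (derivative (derivative (descPochhammer ℚ j))).comp (X - 1) := by
    simp only [derivative_mul, derivative_X, derivative_comp, derivative_sub, derivative_one,
      sub_zero, one_mul, derivative_add]
    ring
  rw [bin, h1, derivative_C_mul, derivative_C_mul, h2]
  simp only [eval_mul, eval_C, eval_add, eval_X, zero_mul, add_zero, eval_comp, eval_sub, eval_one,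
    zero_sub, eval_ofNat]
  rw [descPochhammer_deriv_neg_one, Nat.factorial_succ]
  have h3 : (j.factorial : ℚ) ≠ 0 := by exact_mod_cast j.factorial_ne_zero
  have h4 : ((j : ℚ) + 1) ≠ 0 := by positivity
  push_cast
  field_simp

theorem volk0_deriv_eq_sum_nc (P : ℚ[X]) (N : ℕ) (hN : P.natDegree < N) :
    volk0 (derivative P) =
      ∑ j ∈ range N, nc P j * (2 * (-1) ^ (j + 1) * H 1 j / ((j : ℚ) + 1)) := by
  conv_lhs => rw [newton P N hN]
  rw [derivative_sum, map_sum]
  refine sum_congr rfl (fun j _ => ?_)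
  rw [derivative_C_mul, ← smul_eq_C_mul, map_smul, volk0_deriv_bin, smul_eq_mul]

/-! ### p-adic bounds -/

variable (p : ℕ) [hp : Fact p.Prime]

omit hp in
theorem padicNorm_neg_one_pow (k : ℕ) : padicNorm p ((-1 : ℚ) ^ k) = 1 := by
  rcases neg_one_pow_eq_or ℚ k with h | h <;> simp [h]

theorem padicNorm_nat_le_one (k : ℕ) : padicNorm p (k : ℚ) ≤ 1 := by
  exact_mod_cast padicNorm.of_int (p := p) (k : ℤ)

theorem padicNorm_nc_le (P : ℚ[X]) (B : ℚ) (hB : 0 ≤ B) (j : ℕ)
    (h : ∀ i, i ≤ j → padicNorm p (P.eval (i : ℚ)) ≤ B) : padicNorm p (nc P j) ≤ B := by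
  refine padicNorm.sum_le' (fun i hi => ?_) hB
  rw [mem_range] at hi
  rw [padicNorm.mul, padicNorm.mul, padicNorm_neg_one_pow, one_mul]
  calc padicNorm p (j.choose i : ℚ) * padicNorm p (P.eval (i : ℚ)) ≤ 1 * B :=
        mul_le_mul (padicNorm_nat_le_one p _) (h i (by omega)) (padicNorm.nonneg _) zero_le_one
    _ = B := one_mul B

/-- `1/m` costs at most one power of `p` below `p^2` -/
theorem padicNorm_inv_le (m : ℕ) (hm : 0 < m) (hmp : m < p ^ 2) :
    padicNorm p (1 / (m : ℚ)) ≤ p := by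
  have hp1 := hp.out.one_lt
  rw [padicNorm.div, padicNorm.one]
  have h1 : padicNorm p (m : ℚ) = (p : ℚ) ^ (-(padicValNat p m : ℤ)) := by
    rw [padicNorm.eq_zpow_of_nonzero (by exact_mod_cast hm.ne'), padicValRat.of_nat]
  have h2 : padicValNat p m ≤ 1 := by
    by_contra hcon
    have h3 : p ^ 2 ∣ m := (pow_dvd_pow p (by omega)).trans pow_padicValNat_dvd
    have := Nat.le_of_dvd hm h3
    omega
  rw [h1, one_div, ← zpow_neg, neg_neg]
  have h4 : (1 : ℚ) ≤ p := by exact_mod_cast hp1.le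
  calc (p : ℚ) ^ ((padicValNat p m : ℕ) : ℤ) ≤ (p : ℚ) ^ (1 : ℤ) :=
        zpow_le_zpow_right₀ h4 (by exact_mod_cast h2)
    _ = p := zpow_one _

theorem padicNorm_H_le (j : ℕ) (hj : j < p ^ 2) : padicNorm p (H 1 j) ≤ p := by
  unfold H
  refine padicNorm.sum_le' (fun i hi => ?_) (by positivity)
  rw [mem_range] at hi
  have := padicNorm_inv_le p (i + 1) (by omega) (by omega)
  rw [pow_one]
  push_cast at this
  exact this

theorem padicNorm_H_le_one (j : ℕ) (hj : j < p) : padicNorm p (H 1 j) ≤ 1 := by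
  unfold H
  refine padicNorm.sum_le' (fun i hi => ?_) zero_le_one
  rw [mem_range] at hi
  rw [pow_one, padicNorm.div, padicNorm.one]
  have h1 : padicNorm p ((i : ℚ) + 1) = 1 := by
    have h2 : ¬ p ∣ (i + 1) := by
      intro h
      have := Nat.le_of_dvd (by omega) h
      omega
    have := (padicNorm.nat_eq_one_iff (p := p) (i + 1)).mpr h2
    push_cast at this
    exact this
  rw [h1]
  norm_num

/-- LIN: the Volkenborn value costs one power of `p` -/
theorem padicNorm_volk0_le (P : ℚ[X]) (N : ℕ) (hN : P.natDegree < N) (hNp : N < p ^ 2) (B : ℚ)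
    (hB : 0 ≤ B) (h : ∀ i, i < N → padicNorm p (P.eval (i : ℚ)) ≤ B) :
    padicNorm p (volk0 P) ≤ B * p := by
  rw [volk0_eq_sum_nc P N hN]
  refine padicNorm.sum_le' (fun j hj => ?_) (by positivity)
  rw [mem_range] at hj
  have h1 := padicNorm_nc_le p P B hB j (fun i hi => h i (by omega))
  have h2 := padicNorm_inv_le p (j + 1) (by omega) (by omega)
  push_cast at h2
  rw [div_eq_mul_one_div, padicNorm.mul, padicNorm.mul, padicNorm_neg_one_pow, one_mul]
  exact mul_le_mul h1 h2 (padicNorm.nonneg _) hB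

/-- LIN: the value of the derivative costs two powers of `p` -/
theorem padicNorm_volk0_deriv_le (P : ℚ[X]) (N : ℕ) (hN : P.natDegree < N) (hNp : N < p ^ 2)
    (B : ℚ) (hB : 0 ≤ B) (h : ∀ i, i < N → padicNorm p (P.eval (i : ℚ)) ≤ B) :
    padicNorm p (volk0 (derivative P)) ≤ B * p ^ 2 := by
  rw [volk0_deriv_eq_sum_nc P N hN]
  refine padicNorm.sum_le' (fun j hj => ?_) (by positivity)
  rw [mem_range] at hj
  have h1 := padicNorm_nc_le p P B hB j (fun i hi => h i (by omega))
  have h2 := padicNorm_inv_le p (j + 1) (by omega) (by omega)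
  have h3 := padicNorm_H_le p j (by omega)
  have h4 : padicNorm p (2 : ℚ) ≤ 1 := by exact_mod_cast padicNorm_nat_le_one p 2
  push_cast at h2
  rw [div_eq_mul_one_div, padicNorm.mul, padicNorm.mul, padicNorm.mul, padicNorm.mul,
    padicNorm_neg_one_pow, mul_one]
  have hpp : (0 : ℚ) ≤ p := by positivity
  calc padicNorm p (nc P j) * (padicNorm p 2 * padicNorm p (H 1 j) *
        padicNorm p (1 / ((j : ℚ) + 1))) ≤ B * (1 * p * p) := by
        refine mul_le_mul h1 ?_ (by
          have := padicNorm.nonneg (p := p) 2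
          have := padicNorm.nonneg (p := p) (H 1 j)
          have := padicNorm.nonneg (p := p) (1 / ((j : ℚ) + 1))
          positivity) hB
        refine mul_le_mul ?_ h2 (padicNorm.nonneg _) (by positivity)
        exact mul_le_mul h4 h3 (padicNorm.nonneg _) zero_le_one
    _ = B * p ^ 2 := by ring

/-! ### polynomials with integer coefficients -/

omit hp in
theorem nc_add (P Q : ℚ[X]) (j : ℕ) : nc (P + Q) j = nc P j + nc Q j := by
  unfold nc
  rw [← sum_add_distrib]
  refine sum_congr rfl (fun i _ => ?_)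
  rw [eval_add]
  ring

omit hp in
theorem nc_C_mul (a : ℚ) (P : ℚ[X]) (j : ℕ) : nc (C a * P) j = a * nc P j := by
  unfold nc
  rw [mul_sum]
  refine sum_congr rfl (fun i _ => ?_)
  rw [eval_mul, eval_C]
  ring

omit hp in
theorem nc_sum {ι : Type*} (S : Finset ι) (f : ι → ℚ[X]) (j : ℕ) :
    nc (∑ i ∈ S, f i) j = ∑ i ∈ S, nc (f i) j := by
  classical
  induction S using Finset.induction_on with
  | empty => simp [nc]
  | insert a s ha ih => rw [sum_insert ha, sum_insert ha, nc_add, ih]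

omit hp in
theorem nc_bin (k j : ℕ) : nc (bin k) j = if j = k then 1 else 0 := by
  have h := fwdDiff_iter_choose_zero k j
  rw [fwdDiff_iter_eq_sum_shift] at h
  unfold nc
  have h2 : (∑ i ∈ range (j + 1), ((-1 : ℚ) ^ (j - i) * (j.choose i : ℚ)) *
      (bin k).eval (i : ℚ)) =
      ((∑ i ∈ range (j + 1), ((-1 : ℤ) ^ (j - i) * (j.choose i : ℤ)) • ((0 + i • 1).choose k : ℤ) : ℤ) : ℚ) := by
    push_cast
    refine sum_congr rfl (fun i _ => ?_)
    rw [bin_eval_nat]
    simp
  rw [h2, h]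
  split_ifs <;> simp

omit hp in
theorem X_mul_bin (k : ℕ) :
    X * bin k = C ((k : ℚ) + 1) * bin (k + 1) + C (k : ℚ) * bin k := by
  refine poly_ext_nat (fun n => ?_)
  simp only [eval_mul, eval_add, eval_X, eval_C, bin_eval_nat]
  have h2 : ((n.choose (k + 1) : ℕ) : ℚ) * ((k : ℚ) + 1) = (n.choose k : ℚ) * ((n : ℚ) - k) := by
    rcases Nat.lt_or_ge n k with h | h
    · rw [Nat.choose_eq_zero_of_lt h, Nat.choose_eq_zero_of_lt (by omega)]
      simp
    · have h3 := Nat.choose_succ_right_eq n k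
      have h4 : ((n.choose (k + 1) * (k + 1) : ℕ) : ℚ) = ((n.choose k * (n - k) : ℕ) : ℚ) := by
        rw [h3]
      push_cast [Nat.cast_sub h] at h4
      exact h4
  linear_combination -h2

omit hp in
theorem nc_X_mul (P : ℚ[X]) (j : ℕ) :
    nc (X * P) j = (j : ℚ) * nc P (j - 1) + (j : ℚ) * nc P j := by
  have hP := newton P (max (P.natDegree + 1) (j + 2)) (lt_of_lt_of_le (Nat.lt_succ_self _)
    (le_max_left _ _))
  set N := max (P.natDegree + 1) (j + 2) with hN
  have hjN : j + 2 ≤ N := le_max_right _ _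
  have h1 : X * P = ∑ k ∈ range N, (C (nc P k * ((k : ℚ) + 1)) * bin (k + 1) +
      C (nc P k * (k : ℚ)) * bin k) := by
    conv_lhs => rw [hP]
    rw [mul_sum]
    refine sum_congr rfl (fun k _ => ?_)
    rw [C_mul, C_mul]
    linear_combination C (nc P k) * X_mul_bin k
  rw [h1, nc_sum]
  have h2 : ∀ k ∈ range N, nc (C (nc P k * ((k : ℚ) + 1)) * bin (k + 1) +
      C (nc P k * (k : ℚ)) * bin k) j =
      (if j = k + 1 then nc P k * ((k : ℚ) + 1) else 0) + (if j = k then nc P k * (k : ℚ) else 0) := by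
    intro k _
    rw [nc_add, nc_C_mul, nc_C_mul, nc_bin, nc_bin]
    split_ifs <;> simp
  rw [sum_congr rfl h2, sum_add_distrib]
  have h3 : ∑ k ∈ range N, (if j = k then nc P k * (k : ℚ) else 0) = nc P j * (j : ℚ) := by
    rw [sum_ite_eq]
    rw [if_pos (by rw [mem_range]; omega)]
  have h4 : ∑ k ∈ range N, (if j = k + 1 then nc P k * ((k : ℚ) + 1) else 0) =
      (j : ℚ) * nc P (j - 1) := by
    rcases Nat.eq_zero_or_pos j with h0 | h0
    · subst h0
      simp
    · obtain ⟨i, rfl⟩ : ∃ i, j = i + 1 := ⟨j - 1, by omega⟩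
      have h5 : ∀ k ∈ range N, (if i + 1 = k + 1 then nc P k * ((k : ℚ) + 1) else 0) =
          (if i = k then nc P k * ((k : ℚ) + 1) else 0) := by
        intro k _
        by_cases h : i = k
        · rw [if_pos h, if_pos (by omega)]
        · rw [if_neg h, if_neg (by omega)]
      rw [sum_congr rfl h5, sum_ite_eq, if_pos (by rw [mem_range]; omega), Nat.add_sub_cancel]
      push_cast
      ring
  rw [h3, h4]
  ring

omit hp in
/-- the Newton coefficients of an integer polynomial are divisible by the factorials -/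
theorem nc_int (Q : ℤ[X]) (j : ℕ) :
    ∃ z : ℤ, nc (Q.map (Int.castRingHom ℚ)) j = (j.factorial : ℚ) * z := by
  induction Q using Polynomial.induction_on' generalizing j with
  | add P Q hP hQ =>
    obtain ⟨z, hz⟩ := hP j
    obtain ⟨w, hw⟩ := hQ j
    refine ⟨z + w, ?_⟩
    rw [Polynomial.map_add, nc_add, hz, hw]
    push_cast
    ring
  | monomial n a =>
    induction n generalizing j with
    | zero =>
      have h1 : (monomial 0 a : ℤ[X]).map (Int.castRingHom ℚ) = C (a : ℚ) * bin 0 := by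
        rw [bin_zero, mul_one, monomial_zero_left, map_C]
        simp
      rw [h1, nc_C_mul, nc_bin]
      by_cases h : j = 0
      · subst h
        exact ⟨a, by simp⟩
      · exact ⟨0, by simp [h]⟩
    | succ n ih =>
      have h1 : (monomial (n + 1) a : ℤ[X]).map (Int.castRingHom ℚ) =
          X * (monomial n a : ℤ[X]).map (Int.castRingHom ℚ) := by
        rw [map_monomial, map_monomial, X_mul_monomial]
      rw [h1, nc_X_mul]
      obtain ⟨z, hz⟩ := ih (j - 1)
      obtain ⟨w, hw⟩ := ih j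
      rcases Nat.eq_zero_or_pos j with h0 | h0
      · subst h0
        exact ⟨0, by simp⟩
      · obtain ⟨i, rfl⟩ : ∃ i, j = i + 1 := ⟨j - 1, by omega⟩
        rw [Nat.add_sub_cancel] at hz ⊢
        refine ⟨z + (i + 1 : ℤ) * w, ?_⟩
        rw [hz, hw, Nat.factorial_succ]
        push_cast
        ring

theorem padicNorm_int_le_one (z : ℤ) : padicNorm p (z : ℚ) ≤ 1 := padicNorm.of_int z

theorem padicNorm_factorial_le (j : ℕ) (hj : p ≤ j) :
    padicNorm p (j.factorial : ℚ) ≤ 1 / p := by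
  have h1 : p ∣ j.factorial := (hp.out.dvd_factorial).mpr hj
  obtain ⟨k, hk⟩ := h1
  rw [hk]
  push_cast
  rw [padicNorm.mul, padicNorm.padicNorm_p_of_prime]
  calc (p : ℚ)⁻¹ * padicNorm p (k : ℚ) ≤ (p : ℚ)⁻¹ * 1 :=
        mul_le_mul_of_nonneg_left (padicNorm_nat_le_one p k) (by positivity)
    _ = 1 / p := by rw [mul_one, one_div]

/-- CAP, entrywise -/
theorem padicNorm_cap_entry (j : ℕ) (hj : j + 1 < p ^ 2) (z : ℤ) :
    padicNorm p ((j.factorial : ℚ) * z * (1 / ((j : ℚ) + 1))) ≤ p ∧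
    padicNorm p ((j.factorial : ℚ) * z * (H 1 j * (1 / ((j : ℚ) + 1)))) ≤ p := by
  have hp1 : (1 : ℚ) ≤ p := by exact_mod_cast hp.out.one_lt.le
  have hp0 : (0 : ℚ) < p := by linarith
  have h2 := padicNorm_inv_le p (j + 1) (by omega) hj
  push_cast at h2
  have hz := padicNorm_int_le_one p z
  have hf := padicNorm_nat_le_one p j.factorial
  have n1 := padicNorm.nonneg (p := p) (j.factorial : ℚ)
  have n2 := padicNorm.nonneg (p := p) (z : ℚ)
  have n3 := padicNorm.nonneg (p := p) (1 / ((j : ℚ) + 1))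
  have n4 := padicNorm.nonneg (p := p) (H 1 j)
  constructor
  · rw [padicNorm.mul, padicNorm.mul]
    calc padicNorm p (j.factorial : ℚ) * padicNorm p (z : ℚ) * padicNorm p (1 / ((j : ℚ) + 1))
        ≤ 1 * 1 * p := by gcongr
      _ = p := by ring
  · rw [padicNorm.mul, padicNorm.mul, padicNorm.mul]
    rcases Nat.lt_or_ge j p with h | h
    · have h3 := padicNorm_H_le_one p j h
      calc padicNorm p (j.factorial : ℚ) * padicNorm p (z : ℚ) *
          (padicNorm p (H 1 j) * padicNorm p (1 / ((j : ℚ) + 1)))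
          ≤ 1 * 1 * (1 * p) := by gcongr
        _ = p := by ring
    · have h3 := padicNorm_H_le p j (by omega)
      have h4 := padicNorm_factorial_le p j h
      calc padicNorm p (j.factorial : ℚ) * padicNorm p (z : ℚ) *
          (padicNorm p (H 1 j) * padicNorm p (1 / ((j : ℚ) + 1)))
          ≤ (1 / p) * 1 * (p * p) := by gcongr
        _ = p := by field_simp

/-- CAP: a constant times an integer polynomial -/
theorem padicNorm_volk0_cap (κ : ℚ) (Q : ℤ[X]) (N : ℕ)
    (hN : (Q.map (Int.castRingHom ℚ)).natDegree < N) (hNp : N < p ^ 2) :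
    padicNorm p (volk0 (C κ * Q.map (Int.castRingHom ℚ))) ≤ padicNorm p κ * p ∧
    padicNorm p (volk0 (derivative (C κ * Q.map (Int.castRingHom ℚ)))) ≤ padicNorm p κ * p := by
  have n0 := padicNorm.nonneg (p := p) κ
  have hC : ∀ R : ℚ[X], volk0 (C κ * R) = κ * volk0 R := by
    intro R
    rw [← smul_eq_C_mul, map_smul, smul_eq_mul]
  rw [derivative_C_mul, hC, hC, padicNorm.mul, padicNorm.mul]
  constructor
  · refine mul_le_mul_of_nonneg_left ?_ n0
    rw [volk0_eq_sum_nc _ N hN]
    refine padicNorm.sum_le' (fun j hj => ?_) (by positivity)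
    rw [mem_range] at hj
    obtain ⟨z, hz⟩ := nc_int Q j
    have h1 := (padicNorm_cap_entry p j (by omega) z).1
    have h2 : nc (Q.map (Int.castRingHom ℚ)) j * ((-1) ^ j / ((j : ℚ) + 1)) =
        (-1) ^ j * ((j.factorial : ℚ) * z * (1 / ((j : ℚ) + 1))) := by
      rw [hz]; ring
    rw [h2, padicNorm.mul, padicNorm_neg_one_pow, one_mul]
    exact h1
  · refine mul_le_mul_of_nonneg_left ?_ n0
    rw [volk0_deriv_eq_sum_nc _ N hN]
    refine padicNorm.sum_le' (fun j hj => ?_) (by positivity)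
    rw [mem_range] at hj
    obtain ⟨z, hz⟩ := nc_int Q j
    have h1 := (padicNorm_cap_entry p j (by omega) z).2
    have h2 : nc (Q.map (Int.castRingHom ℚ)) j * (2 * (-1) ^ (j + 1) * H 1 j / ((j : ℚ) + 1)) =
        (-1) ^ (j + 1) * (((2 : ℕ) : ℚ) * ((j.factorial : ℚ) * z * (H 1 j * (1 / ((j : ℚ) + 1))))) := by
      rw [hz]; push_cast; ring
    rw [h2, padicNorm.mul, padicNorm_neg_one_pow, one_mul, padicNorm.mul]
    have h3 := padicNorm_nat_le_one p 2
    have n1 := padicNorm.nonneg (p := p) ((j.factorial : ℚ) * z * (H 1 j * (1 / ((j : ℚ) + 1))))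
    calc padicNorm p ((2 : ℕ) : ℚ) *
        padicNorm p ((j.factorial : ℚ) * z * (H 1 j * (1 / ((j : ℚ) + 1)))) ≤ 1 * p := by gcongr
      _ = p := one_mul _

/-- BIG: small degree, no cost at all -/
theorem padicNorm_volk0_big (κ : ℚ) (Q : ℤ[X]) (N : ℕ)
    (hN : (Q.map (Int.castRingHom ℚ)).natDegree < N) (hNp : N < p) :
    padicNorm p (volk0 (C κ * Q.map (Int.castRingHom ℚ))) ≤ padicNorm p κ ∧
    padicNorm p (volk0 (derivative (C κ * Q.map (Int.castRingHom ℚ)))) ≤ padicNorm p κ := by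
  have n0 := padicNorm.nonneg (p := p) κ
  have hC : ∀ R : ℚ[X], volk0 (C κ * R) = κ * volk0 R := by
    intro R
    rw [← smul_eq_C_mul, map_smul, smul_eq_mul]
  rw [derivative_C_mul, hC, hC, padicNorm.mul, padicNorm.mul]
  have hunit : ∀ j, j < N → padicNorm p (1 / ((j : ℚ) + 1)) = 1 := by
    intro j hj
    have h2 : ¬ p ∣ (j + 1) := by
      intro h
      have := Nat.le_of_dvd (by omega) h
      omega
    have h3 := (padicNorm.nat_eq_one_iff (p := p) (j + 1)).mpr h2
    push_cast at h3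
    rw [padicNorm.div, padicNorm.one, h3]
    norm_num
  constructor
  · refine (mul_le_mul_of_nonneg_left ?_ n0).trans_eq (mul_one _)
    rw [volk0_eq_sum_nc _ N hN]
    refine padicNorm.sum_le' (fun j hj => ?_) zero_le_one
    rw [mem_range] at hj
    obtain ⟨z, hz⟩ := nc_int Q j
    have h2 : nc (Q.map (Int.castRingHom ℚ)) j * ((-1) ^ j / ((j : ℚ) + 1)) =
        (-1) ^ j * ((j.factorial : ℚ) * z * (1 / ((j : ℚ) + 1))) := by
      rw [hz]; ring
    rw [h2, padicNorm.mul, padicNorm_neg_one_pow, one_mul, padicNorm.mul, padicNorm.mul, hunit j hj,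
      mul_one]
    have hz := padicNorm_int_le_one p z
    have hf := padicNorm_nat_le_one p j.factorial
    have n2 := padicNorm.nonneg (p := p) (z : ℚ)
    calc padicNorm p (j.factorial : ℚ) * padicNorm p (z : ℚ) ≤ 1 * 1 := by gcongr
      _ = 1 := one_mul _
  · refine (mul_le_mul_of_nonneg_left ?_ n0).trans_eq (mul_one _)
    rw [volk0_deriv_eq_sum_nc _ N hN]
    refine padicNorm.sum_le' (fun j hj => ?_) zero_le_one
    rw [mem_range] at hj
    obtain ⟨z, hz⟩ := nc_int Q j
    have h2 : nc (Q.map (Int.castRingHom ℚ)) j * (2 * (-1) ^ (j + 1) * H 1 j / ((j : ℚ) + 1)) =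
        (-1) ^ (j + 1) * (((2 * j.factorial : ℕ) : ℚ) * z * H 1 j * (1 / ((j : ℚ) + 1))) := by
      rw [hz]; push_cast; ring
    rw [h2, padicNorm.mul, padicNorm_neg_one_pow, one_mul, padicNorm.mul, padicNorm.mul,
      padicNorm.mul, hunit j hj, mul_one]
    have hz := padicNorm_int_le_one p z
    have hf := padicNorm_nat_le_one p (2 * j.factorial)
    have hH := padicNorm_H_le_one p j (by omega)
    have n2 := padicNorm.nonneg (p := p) (z : ℚ)
    have n3 := padicNorm.nonneg (p := p) (H 1 j)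
    calc padicNorm p ((2 * j.factorial : ℕ) : ℚ) * padicNorm p (z : ℚ) * padicNorm p (H 1 j)
        ≤ 1 * 1 * 1 := by gcongr
      _ = 1 := by norm_num

/-! ### the same for `volk m` -/

omit hp in
theorem volk_derivative (m : ℤ) (P : ℚ[X]) :
    volk m (derivative P) = volk0 (derivative (P.comp (X + C (m : ℚ)))) := by
  rw [volk_apply, derivative_comp]
  simp

omit hp in
theorem natDegree_trans (m : ℤ) (P : ℚ[X]) : (P.comp (X + C (m : ℚ))).natDegree = P.natDegree := by
  rw [natDegree_comp, natDegree_X_add_C, mul_one]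

omit hp in
theorem volk_eq_sum_nc (m : ℤ) (P : ℚ[X]) (N : ℕ) (hN : P.natDegree < N) :
    volk m P = ∑ j ∈ range N, nc (P.comp (X + C (m : ℚ))) j * ((-1) ^ j / ((j : ℚ) + 1)) := by
  rw [volk_apply, volk0_eq_sum_nc _ N (by rwa [natDegree_trans])]

omit hp in
theorem volk_deriv_eq_sum_nc (m : ℤ) (P : ℚ[X]) (N : ℕ) (hN : P.natDegree < N) :
    volk m (derivative P) = ∑ j ∈ range N, nc (P.comp (X + C (m : ℚ))) j *
      (2 * (-1) ^ (j + 1) * H 1 j / ((j : ℚ) + 1)) := by
  rw [volk_derivative, volk0_deriv_eq_sum_nc _ N (by rwa [natDegree_trans])]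

omit hp in
theorem eval_trans (m : ℤ) (P : ℚ[X]) (i : ℕ) :
    (P.comp (X + C (m : ℚ))).eval (i : ℚ) = P.eval (((m + i : ℤ) : ℚ)) := by
  rw [eval_comp]
  congr 1
  simp only [eval_add, eval_X, eval_C]
  push_cast
  ring

/-- LIN for `volk m` -/
theorem padicNorm_volk_le (m : ℤ) (P : ℚ[X]) (N : ℕ) (hN : P.natDegree < N) (hNp : N < p ^ 2)
    (B : ℚ) (hB : 0 ≤ B) (h : ∀ i : ℕ, i < N → padicNorm p (P.eval ((m + i : ℤ) : ℚ)) ≤ B) :
    padicNorm p (volk m P) ≤ B * p := by
  rw [volk_apply]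
  refine padicNorm_volk0_le p _ N (by rwa [natDegree_trans]) hNp B hB (fun i hi => ?_)
  rw [eval_trans]
  exact h i hi

theorem padicNorm_volk_deriv_le (m : ℤ) (P : ℚ[X]) (N : ℕ) (hN : P.natDegree < N)
    (hNp : N < p ^ 2) (B : ℚ) (hB : 0 ≤ B)
    (h : ∀ i : ℕ, i < N → padicNorm p (P.eval ((m + i : ℤ) : ℚ)) ≤ B) :
    padicNorm p (volk m (derivative P)) ≤ B * p ^ 2 := by
  rw [volk_derivative]
  refine padicNorm_volk0_deriv_le p _ N (by rwa [natDegree_trans]) hNp B hB (fun i hi => ?_)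
  rw [eval_trans]
  exact h i hi

omit hp in
theorem trans_map (m : ℤ) (κ : ℚ) (Q : ℤ[X]) :
    (C κ * Q.map (Int.castRingHom ℚ)).comp (X + C (m : ℚ)) =
      C κ * (Q.comp (X + C m)).map (Int.castRingHom ℚ) := by
  rw [mul_comp, C_comp, Polynomial.map_comp, Polynomial.map_add, map_X, map_C]
  simp

/-- CAP for `volk m` -/
theorem padicNorm_volk_cap (m : ℤ) (κ : ℚ) (Q : ℤ[X]) (N : ℕ) (hN : Q.natDegree < N)
    (hNp : N < p ^ 2) :
    padicNorm p (volk m (C κ * Q.map (Int.castRingHom ℚ))) ≤ padicNorm p κ * p ∧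
    padicNorm p (volk m (derivative (C κ * Q.map (Int.castRingHom ℚ)))) ≤
      padicNorm p κ * p := by
  rw [volk_derivative, volk_apply, trans_map]
  refine padicNorm_volk0_cap p κ _ N ?_ hNp
  refine lt_of_le_of_lt natDegree_map_le ?_
  rw [natDegree_comp, natDegree_X_add_C, mul_one]
  exact hN

/-- BIG for `volk m` -/
theorem padicNorm_volk_big (m : ℤ) (κ : ℚ) (Q : ℤ[X]) (N : ℕ) (hN : Q.natDegree < N)
    (hNp : N < p) :
    padicNorm p (volk m (C κ * Q.map (Int.castRingHom ℚ))) ≤ padicNorm p κ ∧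
    padicNorm p (volk m (derivative (C κ * Q.map (Int.castRingHom ℚ)))) ≤ padicNorm p κ := by
  rw [volk_derivative, volk_apply, trans_map]
  refine padicNorm_volk0_big p κ _ N ?_ hNp
  refine lt_of_le_of_lt natDegree_map_le ?_
  rw [natDegree_comp, natDegree_X_add_C, mul_one]
  exact hN

end Pool.Agent.D23
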