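import Pool.Agent.D23.Rep
import Pool.Agent.D23.Newton

/-!
Division by the monic integral denominator; the polynomial parts of a constant times an integer
polynomial over the denominator.
-/

open Finset Polynomial

namespace Pool.Agent.D23

/-- the denominator over the integers -/
noncomputable def denZ (K : Finset ℕ) : ℤ[X] := ∏ k ∈ K, (X + C (k : ℤ))

theorem denZ_monic (K : Finset ℕ) : (denZ K).Monic :=
  monic_prod_of_monic _ _ (fun _ _ => monic_X_add_C _)

theorem denZ_natDegree (K : Finset ℕ) : (denZ K).natDegree = K.card := by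
  unfold denZ
  rw [natDegree_prod_of_monic _ _ (fun _ _ => monic_X_add_C _)]
  simp only [natDegree_X_add_C, sum_const, smul_eq_mul, mul_one]

theorem denZ_map (K : Finset ℕ) : (denZ K).map (Int.castRingHom ℚ) = den K := by
  unfold denZ den
  rw [Polynomial.map_prod]
  refine prod_congr rfl (fun k _ => ?_)
  rw [Polynomial.map_add, map_X, map_C]
  simp

theorem divByMonic_int (κ : ℚ) (T : ℤ[X]) (K : Finset ℕ) :
    (C κ * T.map (Int.castRingHom ℚ)) /ₘ den K =
      C κ * (T /ₘ denZ K).map (Int.castRingHom ℚ) := by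
  have h1 := modByMonic_add_div (T.map (Int.castRingHom ℚ)) (den K : ℚ[X])
  rw [map_divByMonic _ (denZ_monic K), denZ_map]
  refine (div_modByMonic_unique _ (C κ * (T.map (Int.castRingHom ℚ) %ₘ den K)) (den_monic K)
    ⟨?_, ?_⟩).1
  · conv_rhs => rw [← h1]
    ring
  · refine lt_of_le_of_lt ?_ (degree_modByMonic_lt (T.map (Int.castRingHom ℚ)) (den_monic K))
    rw [← smul_eq_C_mul]
    exact degree_smul_le _ _

theorem natDegree_divZ (T : ℤ[X]) (K : Finset ℕ) :
    (T /ₘ denZ K).natDegree = T.natDegree - K.card := by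
  rw [natDegree_divByMonic _ (denZ_monic K), denZ_natDegree]

/-- CAP for the polynomial part of `κ T / den` -/
theorem padicNorm_pol_cap (p : ℕ) [Fact p.Prime] (m : ℤ) (κ : ℚ) (T : ℤ[X]) (K : Finset ℕ)
    (N : ℕ) (hN : T.natDegree < K.card + N) (hN0 : 0 < N) (hNp : N < p ^ 2) :
    padicNorm p (volk m ((C κ * T.map (Int.castRingHom ℚ)) /ₘ den K)) ≤ padicNorm p κ * p ∧
    padicNorm p (volk m (derivative ((C κ * T.map (Int.castRingHom ℚ)) /ₘ den K))) ≤
      padicNorm p κ * p := by
  rw [divByMonic_int]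
  exact padicNorm_volk_cap p m κ _ N (by rw [natDegree_divZ]; omega) hNp

/-- BIG for the polynomial part of `κ T / den` -/
theorem padicNorm_pol_big (p : ℕ) [Fact p.Prime] (m : ℤ) (κ : ℚ) (T : ℤ[X]) (K : Finset ℕ)
    (N : ℕ) (hN : T.natDegree < K.card + N) (hN0 : 0 < N) (hNp : N < p) :
    padicNorm p (volk m ((C κ * T.map (Int.castRingHom ℚ)) /ₘ den K)) ≤ padicNorm p κ ∧
    padicNorm p (volk m (derivative ((C κ * T.map (Int.castRingHom ℚ)) /ₘ den K))) ≤
      padicNorm p κ := by
  rw [divByMonic_int]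
  exact padicNorm_volk_big p m κ _ N (by rw [natDegree_divZ]; omega) hNp

/-- the values of the polynomial part at integers -/
theorem padicNorm_pol_eval (p : ℕ) [Fact p.Prime] (κ : ℚ) (T : ℤ[X]) (K : Finset ℕ) (t : ℤ) :
    padicNorm p (((C κ * T.map (Int.castRingHom ℚ)) /ₘ den K).eval (t : ℚ)) ≤
      padicNorm p κ := by
  rw [divByMonic_int, eval_mul, eval_C, padicNorm.mul]
  have h : ((T /ₘ denZ K).map (Int.castRingHom ℚ)).eval (t : ℚ) = (((T /ₘ denZ K).eval t : ℤ) : ℚ) := by
    simp
  rw [h]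
  exact (mul_le_mul_of_nonneg_left (padicNorm.of_int _) (padicNorm.nonneg _)).trans_eq (mul_one _)

end Pool.Agent.D23
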