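import Pool.Agent.D23.Lin
import Pool.Agent.D23.IntDiv
import Pool.Agent.D23.DetCost

/-!
# The bounds CAP and BIG of the entries, and the composition with the determinant bounds
-/

open Finset Polynomial

namespace Pool.Agent.D23

open Pool.Agent.Z3 (H)
open Pool.Agent.Z3.TermAux
open Pool.Agent.Z3D (uses uses_zero uses_succ ccost gram)

/-- the fixed part of the numerator over the integers -/
noncomputable def numZ {r : ℕ} (Zb : Fin r → Finset ℕ) : ℤ[X] := ∏ b, ∏ i ∈ Zb b, (X + C (i : ℤ))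

theorem numZ_map {r : ℕ} (Zb : Fin r → Finset ℕ) :
    (numZ Zb).map (Int.castRingHom ℚ) = numP Zb := by
  unfold numZ numP
  rw [Polynomial.map_prod]
  refine prod_congr rfl (fun b _ => ?_)
  rw [Polynomial.map_prod]
  refine prod_congr rfl (fun i _ => ?_)
  rw [Polynomial.map_add, map_X, map_C]
  simp

theorem numZ_monic {r : ℕ} (Zb : Fin r → Finset ℕ) : (numZ Zb).Monic :=
  monic_prod_of_monic _ _ (fun _ _ => monic_prod_of_monic _ _ (fun _ _ => monic_X_add_C _))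

theorem numZ_natDegree {r : ℕ} (Zb : Fin r → Finset ℕ) :
    (numZ Zb).natDegree = ∑ b, (Zb b).card := by
  unfold numZ
  rw [natDegree_prod_of_monic _ _ (fun _ _ => monic_prod_of_monic _ _ (fun _ _ => monic_X_add_C _))]
  refine sum_congr rfl (fun b _ => ?_)
  rw [natDegree_prod_of_monic _ _ (fun _ _ => monic_X_add_C _)]
  simp only [natDegree_X_add_C, sum_const, smul_eq_mul, mul_one]

/-- node polynomials over the integers -/
noncomputable def nodZ (s : ℕ → ℕ) (i : ℕ) : ℤ[X] := ∏ j ∈ range i, (X + C (s j : ℤ))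

theorem nodZ_map (s : ℕ → ℕ) (i : ℕ) : (nodZ s i).map (Int.castRingHom ℚ) = nod s i := by
  unfold nodZ nod
  rw [Polynomial.map_prod]
  refine prod_congr rfl (fun j _ => ?_)
  rw [Polynomial.map_add, map_X, map_C]
  simp

theorem nodZ_monic (s : ℕ → ℕ) (i : ℕ) : (nodZ s i).Monic :=
  monic_prod_of_monic _ _ (fun _ _ => monic_X_add_C _)

theorem nodZ_natDegree (s : ℕ → ℕ) (i : ℕ) : (nodZ s i).natDegree = i := by
  unfold nodZ
  rw [natDegree_prod_of_monic _ _ (fun _ _ => monic_X_add_C _)]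
  simp only [natDegree_X_add_C, sum_const, card_range, smul_eq_mul, mul_one]

section
variable {p : ℕ} [hp : Fact p.Prime]

theorem cast_toNat_lt {x : ℤ} {n : ℕ} (h0 : 0 ≤ x) (h : x < n) : x.toNat < n := by omega

/-- **CAP** for one polynomial with integer coefficients -/
theorem entry_cap (h2p : p ≠ 2) {r : ℕ} (Zb : Fin r → Finset ℕ) (K : Finset ℕ) (κ : ℚ) (e0 : ℤ)
    (hκ : padicNorm p κ ≤ (p : ℚ) ^ (-e0)) (GZ : ℤ[X]) (g : ℕ → ℤ) (hg0 : ∀ s, 0 ≤ g s)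
    (hG : ∀ x : ℤ, padicNorm p ((GZ.map (Int.castRingHom ℚ)).eval (x : ℚ)) ≤
      (p : ℚ) ^ (-g (cls p x)))
    (hK : ∀ k ∈ K, k < p ^ 2) (m : ℤ) (hm : ∀ k ∈ K, 1 ≤ m + k) (hmk : ∀ k ∈ K, m + k ≤ (p : ℤ) ^ 2)
    (N : ℕ) (hN : (GZ * numZ Zb).natDegree < K.card + N) (hN0 : 0 < N) (hNp : N < p ^ 2)
    (T : Finset ℕ) (hT : ∀ k ∈ K, (p : ℤ) < m + k → k % p ∈ T)
    (hphi : ∀ k ∈ K, m + k ≤ p → -2 ≤ phi Zb K p (k % p))
    (B : ℤ) (hb : 1 - e0 ≤ B) (hB : ∀ t ∈ T, 2 - e0 - phi Zb K p t - g t ≤ B) (z c0 c1 : ℤ) :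
    padicNorm p (Lr K m (C κ * numP Zb) z c0 c1 (GZ.map (Int.castRingHom ℚ))) ≤ (p : ℚ) ^ B := by
  have hp0 := ppos (p := p)
  have hp1 := pone (p := p)
  set G := GZ.map (Int.castRingHom ℚ) with hGdef
  have hS : G * (C κ * numP Zb) = C κ * G * numP Zb := by ring
  have hS2 : G * (C κ * numP Zb) = C κ * (GZ * numZ Zb).map (Int.castRingHom ℚ) := by
    rw [Polynomial.map_mul, numZ_map, ← hGdef]
    ring
  have hGk : ∀ k ∈ K, padicNorm p (G.eval (-(k : ℚ))) ≤ (p : ℚ) ^ (-g (k % p)) := by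
    intro k _
    have h := hG (-(k : ℤ))
    rw [cls_neg] at h
    push_cast at h
    exact h
  have hv := padicNorm_pol_cap p m κ (GZ * numZ Zb) K N hN hN0 hNp
  rw [← hS2] at hv
  have hκp : padicNorm p κ * p ≤ (p : ℚ) ^ B := by
    calc padicNorm p κ * p ≤ (p : ℚ) ^ (-e0) * p := mul_le_mul_of_nonneg_right hκ hp0.le
      _ = (p : ℚ) ^ (-e0 + 1) := by rw [zpow_add_one₀ hp0.ne']
      _ ≤ (p : ℚ) ^ B := zpow_le_zpow_right₀ hp1.le (by omega)
  rw [Lr_apply]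
  refine asm K m _ z c0 c1 B (hv.1.trans hκp) ?_ ?_
  · rw [padicNorm.mul, norm_half h2p, one_mul]
    exact hv.2.trans hκp
  · intro k hk
    have h1 := hm k hk
    have h3 := hmk k hk
    have hr := res_norm Zb K κ G e0 g hκ k hk hK (hGk k hk)
    rw [← hS] at hr
    refine ⟨?_, ?_⟩
    · exact cast_toNat_lt (by omega) (by push_cast; omega)
    · rcases le_or_gt (m + k) (p : ℤ) with h4 | h4
      · refine Or.inr ⟨cast_toNat_lt (by omega) (by omega), hr.trans ?_⟩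
        apply zpow_le_zpow_right₀ hp1.le
        have h5 := hphi k hk h4
        have h6 := hg0 (k % p)
        omega
      · refine Or.inl (hr.trans ?_)
        apply zpow_le_zpow_right₀ hp1.le
        have h5 := hB _ (hT k hk h4)
        omega

/-- integer values have norm at most one -/
theorem norm_evalZ (GZ : ℤ[X]) (x : ℤ) :
    padicNorm p ((GZ.map (Int.castRingHom ℚ)).eval (x : ℚ)) ≤ (p : ℚ) ^ (-(0 : ℤ)) := by
  have h : (GZ.map (Int.castRingHom ℚ)).eval (x : ℚ) = ((GZ.eval x : ℤ) : ℚ) := by simp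
  rw [h, neg_zero, zpow_zero]
  exact padicNorm.of_int _

/-- **BIG** for one polynomial with integer coefficients: all entries below `p ^ (1 - e0)`, and
below `p ^ (-e0)` if the degree is small -/
theorem entry_big (h2p : p ≠ 2) {r : ℕ} (Zb : Fin r → Finset ℕ) (K : Finset ℕ) (κ : ℚ) (e0 : ℤ)
    (hκ : padicNorm p κ ≤ (p : ℚ) ^ (-e0)) (GZ : ℤ[X])
    (hK : ∀ k ∈ K, k < p ^ 2) (m : ℤ) (hm : ∀ k ∈ K, 1 ≤ m + k) (hmk : ∀ k ∈ K, m + k ≤ (p : ℤ))
    (N : ℕ) (hN : (GZ * numZ Zb).natDegree < K.card + N) (hN0 : 0 < N) (hNp : N < p)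
    (hphi : ∀ k ∈ K, -1 ≤ phi Zb K p (k % p)) (z c0 c1 : ℤ) :
    padicNorm p (Lr K m (C κ * numP Zb) z c0 c1 (GZ.map (Int.castRingHom ℚ))) ≤
      (p : ℚ) ^ (-e0) := by
  have hp0 := ppos (p := p)
  have hp1 := pone (p := p)
  set G := GZ.map (Int.castRingHom ℚ) with hGdef
  have hS : G * (C κ * numP Zb) = C κ * G * numP Zb := by ring
  have hS2 : G * (C κ * numP Zb) = C κ * (GZ * numZ Zb).map (Int.castRingHom ℚ) := by
    rw [Polynomial.map_mul, numZ_map, ← hGdef]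
    ring
  have hGk : ∀ k ∈ K, padicNorm p (G.eval (-(k : ℚ))) ≤ (p : ℚ) ^ (-(0 : ℤ)) := by
    intro k _
    have h := norm_evalZ (p := p) GZ (-(k : ℤ))
    push_cast at h
    exact h
  have hv := padicNorm_pol_big p m κ (GZ * numZ Zb) K N hN hN0 hNp
  rw [← hS2] at hv
  rw [Lr_apply]
  refine asm K m _ z c0 c1 (-e0) (hv.1.trans hκ) ?_ ?_
  · rw [padicNorm.mul, norm_half h2p, one_mul]
    exact hv.2.trans hκ
  · intro k hk
    have h1 := hm k hk
    have h3 := hmk k hk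
    have hr := res_norm Zb K κ G e0 (fun _ => 0) hκ k hk hK (hGk k hk)
    rw [← hS] at hr
    have hpp : (p : ℤ) ≤ ((p ^ 2 : ℕ) : ℤ) := by
      have : p ≤ p ^ 2 := Nat.le_self_pow (by norm_num) p
      exact_mod_cast this
    refine ⟨cast_toNat_lt (by omega) (by omega), Or.inr
      ⟨cast_toNat_lt (by omega) (by omega), hr.trans ?_⟩⟩
    apply zpow_le_zpow_right₀ hp1.le
    have h5 := hphi k hk
    omega

theorem nod_eq_Gn (s : ℕ → ℕ) (i : ℕ) : nod s i = Gn s i := rfl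

variable {r : ℕ} (Zb : Fin r → Finset ℕ) (K : Finset ℕ) (κ : ℚ) (e0 : ℤ) (m : ℤ) (z c0 c1 : ℤ)
  (M D : ℕ)

/-- class control for products of node polynomials -/
theorem nod_mul_norm (s : ℕ → ℕ) (hs : ∀ j, s j < p) (i j : ℕ) (x : ℤ) :
    padicNorm p ((nod s i * nod s j).eval (x : ℚ)) ≤
      (p : ℚ) ^ (-((uses s (cls p x) i : ℤ) + uses s (cls p x) j)) := by
  have hp0 := ppos (p := p)
  rw [eval_mul, padicNorm.mul, nod_eq_Gn, nod_eq_Gn]
  refine (mul_le_mul (Gn_norm s hs i x) (Gn_norm s hs j x) (padicNorm.nonneg _)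
    (by positivity)).trans (le_of_eq ?_)
  rw [← zpow_add₀ hp0.ne']
  congr 1
  ring

/-- degree of the polynomial part of an entry -/
theorem entry_deg (hD : ∑ b, (Zb b).card ≤ K.card + D) (s : ℕ → ℕ) (i j : ℕ) (hi : i < M)
    (hj : j < M) :
    (nodZ s i * nodZ s j * numZ Zb).natDegree < K.card + (2 * M + D) := by
  have h1 := natDegree_mul_le (p := nodZ s i * nodZ s j) (q := numZ Zb)
  have h2 := natDegree_mul_le (p := nodZ s i) (q := nodZ s j)
  rw [nodZ_natDegree, nodZ_natDegree] at h2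
  rw [numZ_natDegree] at h1
  omega

theorem entry_deg' (hD : ∑ b, (Zb b).card ≤ K.card + D) (hκ0 : κ ≠ 0) (s : ℕ → ℕ)
    (i j : ℕ) (hi : i < M) (hj : j < M) :
    (nod s i * nod s j * (C κ * numP Zb) /ₘ den K).natDegree < 2 * M + D := by
  have h1 := entry_deg Zb K M D hD s i j hi hj
  have h2 : nod s i * nod s j * (C κ * numP Zb) =
      C κ * (nodZ s i * nodZ s j * numZ Zb).map (Int.castRingHom ℚ) := by
    rw [Polynomial.map_mul, Polynomial.map_mul, numZ_map, nodZ_map, nodZ_map]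
    ring
  rw [h2, divByMonic_int, natDegree_C_mul hκ0]
  refine (natDegree_map_le).trans_lt ?_
  rw [natDegree_divZ]
  omega

/-- **Determinant, LIN.** -/
theorem det_LIN (h2p : p ≠ 2) (hκ0 : κ ≠ 0) (hκ : padicNorm p κ ≤ (p : ℚ) ^ (-e0))
    (hK : ∀ k ∈ K, k < p ^ 2) (hm : ∀ k ∈ K, 1 ≤ m + k)
    (hD : ∑ b, (Zb b).card ≤ K.card + D)
    (hNp : 2 * M + D < p ^ 2) (hNK : ∀ k ∈ K, m + (2 * M + D : ℕ) + k ≤ (p : ℤ) ^ 2) (lam : ℤ) :
    padicNorm p (gram (Lr K m (C κ * numP Zb) z c0 c1) (fun i => X ^ i) M).det ≤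
      (p : ℚ) ^ (lam * M + ∑ t ∈ range p, ccost (2 - e0 - phi Zb K p t - lam)) := by
  refine det_lin p _ (fun t => 2 - e0 - phi Zb K p t) M ?_ lam
  intro s hs i j hi hj B hB
  exact entry_lin h2p Zb K κ e0 hκ (nod s i * nod s j)
    (fun t => (uses s t i : ℤ) + uses s t j) (nod_mul_norm s hs i j) hK m hm (2 * M + D)
    (entry_deg' Zb K κ M D hD hκ0 s i j hi hj) hNp hNK B
    (fun t ht => by have := hB t ht; omega) z c0 c1

/-- **Determinant, CAP.** -/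
theorem det_CAP (h2p : p ≠ 2) (hκ : padicNorm p κ ≤ (p : ℚ) ^ (-e0))
    (hK : ∀ k ∈ K, k < p ^ 2) (hm : ∀ k ∈ K, 1 ≤ m + k) (hmk : ∀ k ∈ K, m + k ≤ (p : ℤ) ^ 2)
    (hD : ∑ b, (Zb b).card ≤ K.card + D) (hM : 0 < M) (hNp : 2 * M + D < p ^ 2)
    (T : Finset ℕ) (hTp : ∀ t ∈ T, t < p) (hT : ∀ k ∈ K, (p : ℤ) < m + k → k % p ∈ T)
    (hphi : ∀ k ∈ K, m + k ≤ p → -2 ≤ phi Zb K p (k % p)) :
    padicNorm p (gram (Lr K m (C κ * numP Zb) z c0 c1) (fun i => X ^ i) M).det ≤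
      (p : ℚ) ^ ((1 - e0) * M + ∑ t ∈ T, ccost (2 - e0 - phi Zb K p t - (1 - e0))) := by
  refine det_cap p _ (fun t => 2 - e0 - phi Zb K p t) T hTp (1 - e0) M ?_
  intro s hs i j hi hj B hb hB
  have h1 := entry_cap h2p Zb K κ e0 hκ (nodZ s i * nodZ s j)
    (fun t => (uses s t i : ℤ) + uses s t j) (fun t => by positivity)
    (fun x => by
      rw [Polynomial.map_mul, nodZ_map, nodZ_map]
      exact nod_mul_norm s hs i j x) hK m hm hmk (2 * M + D)
    (entry_deg Zb K M D hD s i j hi hj) (by omega) hNp T hT hphi B hb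
    (fun t ht => by have := hB t ht; omega) z c0 c1
  rw [Polynomial.map_mul, nodZ_map, nodZ_map] at h1
  exact h1

/-- **Determinant, BIG** (`e0 = 0`). -/
theorem det_BIG (h2p : p ≠ 2) (hκ : padicNorm p κ ≤ 1)
    (hK : ∀ k ∈ K, k < p ^ 2) (hm : ∀ k ∈ K, 1 ≤ m + k) (hmk : ∀ k ∈ K, m + k ≤ (p : ℤ))
    (hD : ∑ b, (Zb b).card ≤ K.card + D) (hMD : M + D ≤ p) (hNp : 2 * M + D < p ^ 2)
    (hphi : ∀ k ∈ K, -1 ≤ phi Zb K p (k % p)) :
    padicNorm p (gram (Lr K m (C κ * numP Zb) z c0 c1) (fun i => X ^ i) M).det ≤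
      (p : ℚ) ^ (((2 * M + D - p : ℕ)) : ℤ) := by
  have hκ' : padicNorm p κ ≤ (p : ℚ) ^ (-(0 : ℤ)) := by simpa using hκ
  have hpp : (p : ℤ) ≤ (p : ℤ) ^ 2 := by
    have : p ≤ p ^ 2 := Nat.le_self_pow (by norm_num) p
    exact_mod_cast this
  have hX : ∀ i j : ℕ, ((X ^ i * X ^ j : ℤ[X])).map (Int.castRingHom ℚ) = X ^ i * X ^ j := by
    intro i j
    simp
  have hdeg : ∀ i j : ℕ, (X ^ i * X ^ j * numZ Zb : ℤ[X]).natDegree ≤ i + j + (K.card + D) := by
    intro i j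
    have h1 := natDegree_mul_le (p := (X ^ i * X ^ j : ℤ[X])) (q := numZ Zb)
    have h2 : (X ^ i * X ^ j : ℤ[X]).natDegree = i + j := by
      rw [← pow_add, natDegree_X_pow]
    rw [h2, numZ_natDegree] at h1
    omega
  refine det_big p _ M D hMD ?_ ?_
  · intro i j hi hj
    have h1 := entry_cap h2p Zb K κ 0 hκ' (X ^ i * X ^ j) (fun _ => 0) (fun _ => le_rfl)
      (fun x => norm_evalZ _ x) hK m hm (fun k hk => (hmk k hk).trans hpp) (2 * M + D)
      (by have := hdeg i j; omega) (by omega) hNp ∅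
      (fun k hk h => absurd (hmk k hk) (not_le.mpr h))
      (fun k hk _ => by have := hphi k hk; omega) 1 (by norm_num) (by simp) z c0 c1
    rw [hX, zpow_one] at h1
    exact h1
  · intro i j hi hj hij
    have h1 := entry_big h2p Zb K κ 0 hκ' (X ^ i * X ^ j) hK m hm hmk (i + j + D + 1)
      (by have := hdeg i j; omega) (by omega) hij hphi z c0 c1
    rw [hX, neg_zero, zpow_zero] at h1
    exact h1

end

end Pool.Agent.D23
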