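import Pool.Agent.D23.Cap

/-!
# Exact nodes

The far poles `F 0, .., F (b-1)` themselves are used as first nodes: the entries of the later rows
have no residue there.
-/

open Finset Polynomial

namespace Pool.Agent.D23

open Pool.Agent.Z3 (H)
open Pool.Agent.Z3.TermAux
open Pool.Agent.Z3D (uses uses_zero uses_succ ccost gram)

section
variable {p : ℕ} [hp : Fact p.Prime]
variable {r : ℕ} (Zb : Fin r → Finset ℕ) (K : Finset ℕ) (κ : ℚ) (e0 : ℤ) (m : ℤ) (z c0 c1 : ℤ)
  (M D : ℕ)

/-- one entry: poles are either killed exactly, or harmless -/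
theorem entry_capx (h2p : p ≠ 2) (hκ : padicNorm p κ ≤ (p : ℚ) ^ (-e0)) (GZ : ℤ[X])
    (hK : ∀ k ∈ K, k < p ^ 2) (hm : ∀ k ∈ K, 1 ≤ m + k) (hmk : ∀ k ∈ K, m + k ≤ (p : ℤ) ^ 2)
    (N : ℕ) (hN : (GZ * numZ Zb).natDegree < K.card + N) (hN0 : 0 < N) (hNp : N < p ^ 2)
    (B : ℤ) (hb : 1 - e0 ≤ B)
    (h : ∀ k ∈ K, GZ.eval (-(k : ℤ)) = 0 ∨ (m + k ≤ p ∧ -2 ≤ phi Zb K p (k % p)) ∨
      2 - e0 - phi Zb K p (k % p) ≤ B) :
    padicNorm p (Lr K m (C κ * numP Zb) z c0 c1 (GZ.map (Int.castRingHom ℚ))) ≤ (p : ℚ) ^ B := by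
  have hp0 := ppos (p := p)
  have hp1 := pone (p := p)
  set G := GZ.map (Int.castRingHom ℚ) with hGdef
  have hS : G * (C κ * numP Zb) = C κ * G * numP Zb := by ring
  have hS2 : G * (C κ * numP Zb) = C κ * (GZ * numZ Zb).map (Int.castRingHom ℚ) := by
    rw [Polynomial.map_mul, numZ_map, ← hGdef]
    ring
  have hGk : ∀ k ∈ K, padicNorm p (G.eval (-(k : ℚ))) ≤ (p : ℚ) ^ (-(0 : ℤ)) := by
    intro k _
    have h := norm_evalZ (p := p) GZ (-(k : ℤ))
    push_cast at h
    exact h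
  have hv := padicNorm_pol_cap p m κ (GZ * numZ Zb) K N hN hN0 hNp
  rw [← hS2] at hv
  have hκp : padicNorm p κ * p ≤ (p : ℚ) ^ B := by
    calc padicNorm p κ * p ≤ (p : ℚ) ^ (-e0) * p := mul_le_mul_of_nonneg_right hκ hp0.le
      _ = (p : ℚ) ^ (-e0 + 1) := by rw [zpow_add_one₀ hp0.ne']
      _ ≤ (p : ℚ) ^ B := zpow_le_zpow_right₀ hp1.le (by omega)
  rw [Lr_apply]
  refine asm K m _ z c0 c1 B (hv.1.trans hκp) ?_ ?_
  · rw [padicNorm.mul, norm_half h2p, one_mul]
    exact hv.2.trans hκp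
  · intro k hk
    have h1 := hm k hk
    have h3 := hmk k hk
    have hr := res_norm Zb K κ G e0 (fun _ => 0) hκ k hk hK (hGk k hk)
    rw [← hS] at hr
    refine ⟨cast_toNat_lt (by omega) (by push_cast; omega), ?_⟩
    rcases h k hk with h4 | ⟨h4, h5⟩ | h4
    · refine Or.inl ?_
      have h5 : res K (G * (C κ * numP Zb)) k = 0 := by
        unfold res
        have h6 : G.eval (-(k : ℚ)) = 0 := by
          have h7 : G.eval ((Int.castRingHom ℚ) (-(k : ℤ))) =
              (Int.castRingHom ℚ) (GZ.eval (-(k : ℤ))) := by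
            rw [hGdef]
            exact eval_map_apply _ _
          rw [h4] at h7
          simpa using h7
        rw [eval_mul, h6, zero_mul, mul_zero]
      rw [h5, padicNorm.zero]
      positivity
    · refine Or.inr ⟨cast_toNat_lt (by omega) (by omega), hr.trans ?_⟩
      apply zpow_le_zpow_right₀ hp1.le
      omega
    · refine Or.inl (hr.trans ?_)
      apply zpow_le_zpow_right₀ hp1.le
      omega

theorem nodZ_eval_zero (s : ℕ → ℕ) (i j : ℕ) (hj : j < i) : (nodZ s i).eval (-(s j : ℤ)) = 0 := by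
  unfold nodZ
  rw [eval_prod]
  exact prod_eq_zero (mem_range.mpr hj) (by simp)

/-- **Determinant, CAP with exact nodes.** -/
theorem det_CAPX (h2p : p ≠ 2) (hκ : padicNorm p κ ≤ (p : ℚ) ^ (-e0))
    (hK : ∀ k ∈ K, k < p ^ 2) (hm : ∀ k ∈ K, 1 ≤ m + k) (hmk : ∀ k ∈ K, m + k ≤ (p : ℤ) ^ 2)
    (hD : ∑ b, (Zb b).card ≤ K.card + D) (hM : 0 < M) (hNp : 2 * M + D < p ^ 2)
    (F : ℕ → ℕ) (b : ℕ) (hbM : b ≤ M) (W : ℤ) (hW : 1 - e0 ≤ W)
    (hF : ∀ k ∈ K, ((∃ j < b, F j = k) ∧ 2 - e0 - phi Zb K p (k % p) ≤ W) ∨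
      (m + k ≤ p ∧ -2 ≤ phi Zb K p (k % p)) ∨ 1 ≤ phi Zb K p (k % p)) :
    padicNorm p (gram (Lr K m (C κ * numP Zb) z c0 c1) (fun i => X ^ i) M).det ≤
      (p : ℚ) ^ ((1 - e0) * M + (W - (1 - e0)) * b) := by
  have hp0 := ppos (p := p)
  have hp1 := pone (p := p)
  rw [← Z3D.det_gram _ (fun i => nod F i) (fun i => by
    rw [← nodZ_map]
    exact (nodZ_monic F i).map _) (fun i => by
    rw [← nodZ_map, (nodZ_monic F i).natDegree_map, nodZ_natDegree])]
  have key := Z3D.padicNorm_det_le p (gram (Lr K m (C κ * numP Zb) z c0 c1) (fun i => nod F i) M)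
    (fun i => if (i : ℕ) < b then W else 1 - e0) ?_
  · refine key.trans (le_of_eq ?_)
    congr 1
    rw [Fin.sum_univ_eq_sum_range (fun i => if i < b then W else 1 - e0) M]
    have e1 : ∀ i ∈ range M, (if i < b then W else 1 - e0) =
        (1 - e0) + (if i < b then W - (1 - e0) else 0) := by
      intro i _
      split_ifs <;> ring
    rw [sum_congr rfl e1, sum_add_distrib, sum_const, card_range, nsmul_eq_mul, ← sum_filter,
      sum_const, nsmul_eq_mul]
    have e2 : (range M).filter (fun i => i < b) = range b := by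
      ext i
      simp only [mem_filter, mem_range]
      omega
    rw [e2, card_range]
    ring
  · intro i j
    have hent : gram (Lr K m (C κ * numP Zb) z c0 c1) (fun i => nod F i) M i j =
        Lr K m (C κ * numP Zb) z c0 c1
          ((nodZ F i * nodZ F j).map (Int.castRingHom ℚ)) := by
      rw [Polynomial.map_mul, nodZ_map, nodZ_map]
      rfl
    rw [hent]
    by_cases hij : (i : ℕ) < b ∧ (j : ℕ) < b
    · have h1 := entry_capx Zb K κ e0 m z c0 c1 h2p hκ (nodZ F i * nodZ F j) hK hm hmk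
        (2 * M + D) (entry_deg Zb K M D hD F i j i.2 j.2) (by omega) hNp W hW
        (fun k hk => by
          rcases hF k hk with h | h | h
          · exact Or.inr (Or.inr h.2)
          · exact Or.inr (Or.inl h)
          · exact Or.inr (Or.inr (by omega)))
      simp only [hij.1, hij.2, if_true]
      calc _ ≤ ((p : ℚ) ^ W) ^ 2 := pow_le_pow_left₀ (padicNorm.nonneg _) h1 2
        _ = (p : ℚ) ^ (W + W) := by rw [sq, ← zpow_add₀ hp0.ne']
    · have h1 := entry_capx Zb K κ e0 m z c0 c1 h2p hκ (nodZ F i * nodZ F j) hK hm hmk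
        (2 * M + D) (entry_deg Zb K M D hD F i j i.2 j.2) (by omega) hNp (1 - e0) le_rfl
        (fun k hk => by
          rcases hF k hk with h | h | h
          · left
            obtain ⟨l, hl, rfl⟩ := h.1
            rw [eval_mul]
            rcases not_and_or.mp hij with h2 | h2
            · rw [nodZ_eval_zero F i l (by omega), zero_mul]
            · rw [nodZ_eval_zero F j l (by omega), mul_zero]
          · exact Or.inr (Or.inl h)
          · exact Or.inr (Or.inr (by omega)))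
      calc _ ≤ ((p : ℚ) ^ (1 - e0)) ^ 2 := pow_le_pow_left₀ (padicNorm.nonneg _) h1 2
        _ = (p : ℚ) ^ ((1 - e0) + (1 - e0)) := by rw [sq, ← zpow_add₀ hp0.ne']
        _ ≤ _ := by
          apply zpow_le_zpow_right₀ hp1.le
          split_ifs <;> omega

end

end Pool.Agent.D23
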