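import Pool.Agent.Z3.SumA

/-!
# Sums of `(a n + b p) log p` over primes `lo n < p ≤ hi n`
-/

set_option autoImplicit false

open Finset Filter Topology

namespace Pool.Agent.D23

/-- sum of `p log p` over the primes `p ≤ N` -/
noncomputable def T1 (N : ℕ) : ℝ := ∑ p ∈ (Ioc 0 N).filter Nat.Prime, (p : ℝ) * Real.log p

theorem theta_nat (N : ℕ) :
    Chebyshev.theta (N : ℝ) = ∑ p ∈ (Ioc 0 N).filter Nat.Prime, Real.log p := by
  unfold Chebyshev.theta
  rw [Nat.floor_natCast]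

theorem T1_eq (N : ℕ) :
    T1 N = N * Chebyshev.theta (N : ℝ) - ∑ m ∈ range N, Chebyshev.theta (m : ℝ) := by
  induction N with
  | zero => simp [T1]
  | succ N ih =>
    have hI : Ioc 0 (N + 1) = insert (N + 1) (Ioc 0 N) := by
      ext x
      simp only [mem_Ioc, mem_insert]
      omega
    have hnot : N + 1 ∉ (Ioc 0 N).filter Nat.Prime := by simp
    rw [sum_range_succ]
    unfold T1 at ih ⊢
    rw [theta_nat, hI, filter_insert]
    split_ifs with hp
    · rw [sum_insert hnot, sum_insert hnot, ih, ← theta_nat]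
      push_cast
      ring
    · rw [ih, ← theta_nat]
      push_cast
      ring

theorem theta_sub_isLittleO (hth : Tendsto (fun x : ℝ => Chebyshev.theta x / x) atTop (𝓝 1)) :
    (fun m : ℕ => Chebyshev.theta (m : ℝ) - m) =o[atTop] (fun m : ℕ => (m : ℝ)) := by
  have h1 : Tendsto (fun m : ℕ => Chebyshev.theta (m : ℝ) / m) atTop (𝓝 1) :=
    hth.comp tendsto_natCast_atTop_atTop
  rw [Asymptotics.isLittleO_iff_tendsto']
  · have h2 := h1.sub_const 1
    rw [sub_self] at h2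
    refine h2.congr' ?_
    filter_upwards [eventually_gt_atTop 0] with m hm
    have : (m : ℝ) ≠ 0 := by exact_mod_cast hm.ne'
    field_simp
  · filter_upwards [eventually_gt_atTop 0] with m hm h0
    have : (m : ℝ) ≠ 0 := by exact_mod_cast hm.ne'
    exact absurd h0 this

theorem sum_range_real (N : ℕ) : ∑ m ∈ range N, (m : ℝ) = (N : ℝ) * (N - 1) / 2 := by
  induction N with
  | zero => simp
  | succ N ih =>
    rw [sum_range_succ, ih]
    push_cast
    ring

theorem sum_theta_tendsto (hth : Tendsto (fun x : ℝ => Chebyshev.theta x / x) atTop (𝓝 1)) :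
    Tendsto (fun N : ℕ => (∑ m ∈ range N, Chebyshev.theta (m : ℝ)) / (N : ℝ) ^ 2) atTop
      (𝓝 (1 / 2)) := by
  have hdiv : Tendsto (fun N : ℕ => ∑ m ∈ range N, (m : ℝ)) atTop atTop := by
    have h : Tendsto (fun N : ℕ => (N : ℝ) - 1) atTop atTop :=
      tendsto_atTop_add_const_right _ _ tendsto_natCast_atTop_atTop
    refine tendsto_atTop_mono' _ ?_ h
    filter_upwards [eventually_ge_atTop 2] with N hN
    have hN' : (2 : ℝ) ≤ N := by exact_mod_cast hN
    rw [sum_range_real]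
    nlinarith
  have h1 := (theta_sub_isLittleO hth).sum_range (fun m => Nat.cast_nonneg m) hdiv
  have hN1 : Tendsto (fun N : ℕ => (1 : ℝ) / N) atTop (𝓝 0) := tendsto_one_div_atTop_nhds_zero_nat
  have h2 : Tendsto (fun N : ℕ => (∑ m ∈ range N, (m : ℝ)) / (N : ℝ) ^ 2) atTop (𝓝 (1 / 2)) := by
    have h3 := (hN1.const_mul (-1 / 2)).const_add (1 / 2)
    rw [mul_zero, add_zero] at h3
    refine h3.congr' ?_
    filter_upwards [eventually_gt_atTop 0] with N hN
    have : (N : ℝ) ≠ 0 := by exact_mod_cast hN.ne'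
    rw [sum_range_real]
    field_simp
    ring
  have h4 : Tendsto (fun N : ℕ => (∑ m ∈ range N, (Chebyshev.theta (m : ℝ) - m)) /
      ∑ m ∈ range N, (m : ℝ)) atTop (𝓝 0) := h1.tendsto_div_nhds_zero
  have h5 := (h4.mul h2).add h2
  rw [zero_mul, zero_add] at h5
  refine h5.congr' ?_
  filter_upwards [eventually_ge_atTop 2] with N hN
  have hN' : (2 : ℝ) ≤ N := by exact_mod_cast hN
  have hs : ∑ m ∈ range N, (m : ℝ) ≠ 0 := by
    rw [sum_range_real]
    have : (0 : ℝ) < (N : ℝ) * (N - 1) := mul_pos (by linarith) (by linarith)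
    positivity
  rw [sum_sub_distrib]
  field_simp
  ring

/-- the sum of `p log p` over `p ≤ N` is asymptotic to `N² / 2` -/
theorem T1_tendsto (hth : Tendsto (fun x : ℝ => Chebyshev.theta x / x) atTop (𝓝 1)) :
    Tendsto (fun N : ℕ => T1 N / (N : ℝ) ^ 2) atTop (𝓝 (1 / 2)) := by
  have h1 : Tendsto (fun m : ℕ => Chebyshev.theta (m : ℝ) / m) atTop (𝓝 1) :=
    hth.comp tendsto_natCast_atTop_atTop
  have h2 := h1.sub (sum_theta_tendsto hth)
  rw [show (1 : ℝ) - 1 / 2 = 1 / 2 by norm_num] at h2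
  refine h2.congr' ?_
  filter_upwards [eventually_gt_atTop 0] with N hN
  have : (N : ℝ) ≠ 0 := by exact_mod_cast hN.ne'
  rw [T1_eq]
  field_simp

/-- the sum of `p log p` over the primes `p ≤ lam n` -/
theorem T1_lin (hth : Tendsto (fun x : ℝ => Chebyshev.theta x / x) atTop (𝓝 1)) (lam : ℝ)
    (hl : 0 ≤ lam) :
    Tendsto (fun n : ℕ => T1 ⌊lam * n⌋₊ / (n : ℝ) ^ 2) atTop (𝓝 (lam ^ 2 / 2)) := by
  rcases hl.eq_or_lt with h | h
  · subst h
    simp [T1]
  have h1 : Tendsto (fun n : ℕ => lam * (n : ℝ)) atTop atTop :=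
    tendsto_natCast_atTop_atTop.const_mul_atTop h
  have h2 : Tendsto (fun n : ℕ => ⌊lam * (n : ℝ)⌋₊) atTop atTop :=
    tendsto_nat_floor_atTop.comp h1
  have h3 := (T1_tendsto hth).comp h2
  have h4 : Tendsto (fun n : ℕ => ((⌊lam * (n : ℝ)⌋₊ : ℕ) : ℝ) / n) atTop (𝓝 lam) :=
    (tendsto_nat_floor_mul_div_atTop hl).comp tendsto_natCast_atTop_atTop
  have h5 := h3.mul (h4.pow 2)
  rw [show (1 : ℝ) / 2 * lam ^ 2 = lam ^ 2 / 2 by ring] at h5
  refine h5.congr' ?_
  filter_upwards [eventually_gt_atTop 0, h2.eventually_gt_atTop 0] with n hn hfl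
  have h6 : (n : ℝ) ≠ 0 := by exact_mod_cast hn.ne'
  have h7 : ((⌊lam * (n : ℝ)⌋₊ : ℕ) : ℝ) ≠ 0 := by exact_mod_cast hfl.ne'
  simp only [Function.comp_apply]
  field_simp

/-- value of an item `(a, b, lo, hi)` -/
noncomputable def ival (x : ℝ × ℝ × ℝ × ℝ) : ℝ :=
  x.1 * (x.2.2.2 - x.2.2.1) + x.2.1 * (x.2.2.2 ^ 2 - x.2.2.1 ^ 2) / 2

/-- the sum over all primes of an item -/
noncomputable def isum (g : ℝ) (x : ℝ × ℝ × ℝ × ℝ) (n : ℕ) : ℝ :=
  ∑ p ∈ (Ioc ⌊x.2.2.1 * n⌋₊ ⌊x.2.2.2 * n⌋₊).filter Nat.Prime,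
    (x.1 * n + x.2.1 * p + g) * Real.log p

theorem sum_Ioc_sub (F : ℕ → ℝ) {a b : ℕ} (hab : a ≤ b) :
    ∑ p ∈ (Ioc a b).filter Nat.Prime, F p =
      ∑ p ∈ (Ioc 0 b).filter Nat.Prime, F p - ∑ p ∈ (Ioc 0 a).filter Nat.Prime, F p := by
  have h : Ioc 0 b = Ioc 0 a ∪ Ioc a b := (Ioc_union_Ioc_eq_Ioc (Nat.zero_le a) hab).symm
  rw [h, filter_union, sum_union, add_sub_cancel_left]
  rw [disjoint_left]
  intro p h1 h2
  simp only [mem_filter, mem_Ioc] at h1 h2
  omega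

theorem isum_tendsto (hth : Tendsto (fun x : ℝ => Chebyshev.theta x / x) atTop (𝓝 1)) (g : ℝ)
    (x : ℝ × ℝ × ℝ × ℝ) (h0 : 0 ≤ x.2.2.1) (h1 : x.2.2.1 ≤ x.2.2.2) :
    Tendsto (fun n : ℕ => isum g x n / (n : ℝ) ^ 2) atTop (𝓝 (ival x)) := by
  have h2 := (Z3.theta_lin hth x.2.2.2 (h0.trans h1)).sub (Z3.theta_lin hth x.2.2.1 h0)
  have h3 := (T1_lin hth x.2.2.2 (h0.trans h1)).sub (T1_lin hth x.2.2.1 h0)
  have hN1 : Tendsto (fun N : ℕ => (1 : ℝ) / N) atTop (𝓝 0) := tendsto_one_div_atTop_nhds_zero_nat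
  have h4 := ((h2.const_mul x.1).add (h3.const_mul x.2.1)).add ((h2.mul hN1).const_mul g)
  rw [mul_zero, mul_zero, add_zero] at h4
  have e : x.1 * (x.2.2.2 - x.2.2.1) + x.2.1 * (x.2.2.2 ^ 2 / 2 - x.2.2.1 ^ 2 / 2) = ival x := by
    unfold ival
    ring
  rw [e] at h4
  refine h4.congr' ?_
  filter_upwards [eventually_gt_atTop 0] with n hn
  have hn' : (n : ℝ) ≠ 0 := by exact_mod_cast hn.ne'
  have hle : ⌊x.2.2.1 * (n : ℝ)⌋₊ ≤ ⌊x.2.2.2 * (n : ℝ)⌋₊ :=
    Nat.floor_le_floor (mul_le_mul_of_nonneg_right h1 (Nat.cast_nonneg n))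
  have e1 : isum g x n = (x.1 * n + g) *
      (Chebyshev.theta (x.2.2.2 * n) - Chebyshev.theta (x.2.2.1 * n)) +
      x.2.1 * (T1 ⌊x.2.2.2 * (n : ℝ)⌋₊ - T1 ⌊x.2.2.1 * (n : ℝ)⌋₊) := by
    unfold isum T1 Chebyshev.theta
    rw [← sum_Ioc_sub (fun p => Real.log p) hle, ← sum_Ioc_sub (fun p => (p : ℝ) * Real.log p) hle,
      mul_sum, mul_sum, ← sum_add_distrib]
    refine sum_congr rfl fun p _ => ?_
    ring
  rw [e1]
  field_simp
  ring

/-- the sum over a finite set of primes, each of which lies in some item with a linear bound -/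
theorem sum_le_items (n : ℕ) (f : ℕ → ℝ) (g : ℝ) (hg : 0 ≤ g) (L : List (ℝ × ℝ × ℝ × ℝ)) :
    (∀ x ∈ L, 0 ≤ x.2.2.1 ∧ x.2.2.1 ≤ x.2.2.2 ∧ 0 ≤ x.1 + x.2.1 * x.2.2.1 ∧
      0 ≤ x.1 + x.2.1 * x.2.2.2) → ∀ P : Finset ℕ,
    (∀ p ∈ P, p.Prime ∧ ∃ x ∈ L, f p ≤ x.1 * n + x.2.1 * p + g ∧ x.2.2.1 * n < (p : ℝ) ∧
      (p : ℝ) ≤ x.2.2.2 * n) →
    ∑ p ∈ P, f p * Real.log (p : ℝ) ≤ (L.map (fun x => isum g x n)).sum := by
  classical
  induction L with
  | nil =>
    intro _ P hP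
    have : P = ∅ := by
      rw [Finset.eq_empty_iff_forall_notMem]
      intro p hp
      obtain ⟨_, x, hx, _⟩ := hP p hp
      simp at hx
    subst this
    simp
  | cons y L ih =>
    intro hL P hP
    obtain ⟨hy0, hy1, hy2, hy3⟩ := hL y (List.mem_cons_self)
    rw [List.map_cons, List.sum_cons,
      ← Finset.sum_filter_add_sum_filter_not P (fun p => f p ≤ y.1 * n + y.2.1 * p + g ∧
        y.2.2.1 * n < (p : ℝ) ∧ (p : ℝ) ≤ y.2.2.2 * n)]
    refine add_le_add ?_ ?_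
    · have hnn : ∀ p : ℕ, y.2.2.1 * n < (p : ℝ) → (p : ℝ) ≤ y.2.2.2 * n →
          0 ≤ y.1 * n + y.2.1 * p + g := by
        intro p h1 h2
        have hn : (0 : ℝ) ≤ n := Nat.cast_nonneg n
        rcases le_total 0 y.2.1 with hb | hb
        · have : y.2.1 * (y.2.2.1 * n) ≤ y.2.1 * p := mul_le_mul_of_nonneg_left h1.le hb
          have h3 : 0 ≤ (y.1 + y.2.1 * y.2.2.1) * n := mul_nonneg hy2 hn
          nlinarith
        · have : y.2.1 * (y.2.2.2 * n) ≤ y.2.1 * p := mul_le_mul_of_nonpos_left h2 hb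
          have h3 : 0 ≤ (y.1 + y.2.1 * y.2.2.2) * n := mul_nonneg hy3 hn
          nlinarith
      calc ∑ p ∈ P.filter (fun p => f p ≤ y.1 * n + y.2.1 * p + g ∧
            y.2.2.1 * n < (p : ℝ) ∧ (p : ℝ) ≤ y.2.2.2 * n), f p * Real.log (p : ℝ)
          ≤ ∑ p ∈ P.filter (fun p => f p ≤ y.1 * n + y.2.1 * p + g ∧
            y.2.2.1 * n < (p : ℝ) ∧ (p : ℝ) ≤ y.2.2.2 * n),
            (y.1 * n + y.2.1 * p + g) * Real.log (p : ℝ) := by
            refine Finset.sum_le_sum fun p hp => ?_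
            rw [mem_filter] at hp
            exact mul_le_mul_of_nonneg_right hp.2.1 (Real.log_natCast_nonneg p)
        _ ≤ isum g y n := by
            unfold isum
            refine Finset.sum_le_sum_of_subset_of_nonneg ?_ ?_
            · intro p hp
              rw [mem_filter] at hp
              have h1 : (0 : ℝ) ≤ y.2.2.1 * n := mul_nonneg hy0 (Nat.cast_nonneg n)
              rw [mem_filter, mem_Ioc]
              exact ⟨⟨(Nat.floor_lt h1).mpr hp.2.2.1, Nat.le_floor hp.2.2.2⟩, (hP p hp.1).1⟩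
            · intro p hp _
              rw [mem_filter, mem_Ioc] at hp
              have h1 : (0 : ℝ) ≤ y.2.2.1 * n := mul_nonneg hy0 (Nat.cast_nonneg n)
              have h2 : (0 : ℝ) ≤ y.2.2.2 * n :=
                mul_nonneg (hy0.trans hy1) (Nat.cast_nonneg n)
              refine mul_nonneg (hnn p ((Nat.floor_lt h1).mp hp.1.1) ?_)
                (Real.log_natCast_nonneg p)
              exact (Nat.le_floor_iff h2).mp hp.1.2
    · refine ih (fun x hx => hL x (List.mem_cons_of_mem _ hx)) _ ?_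
      intro p hp
      rw [mem_filter] at hp
      obtain ⟨h1, x, hx, h2⟩ := hP p hp.1
      refine ⟨h1, x, ?_, h2⟩
      rcases List.mem_cons.mp hx with h | h
      · subst h
        exact absurd h2 hp.2
      · exact h

theorem items_lim (hth : Tendsto (fun x : ℝ => Chebyshev.theta x / x) atTop (𝓝 1)) (g : ℝ)
    (L : List (ℝ × ℝ × ℝ × ℝ)) (hL : ∀ x ∈ L, 0 ≤ x.2.2.1 ∧ x.2.2.1 ≤ x.2.2.2) :
    Tendsto (fun n : ℕ => (L.map (fun x => isum g x n)).sum / (n : ℝ) ^ 2) atTop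
      (𝓝 (L.map ival).sum) := by
  induction L with
  | nil => simp
  | cons y L ih =>
    simp only [List.map_cons, List.sum_cons]
    have hy := hL y (List.mem_cons_self)
    have h1 := ih (fun x hx => hL x (List.mem_cons_of_mem _ hx))
    refine ((isum_tendsto hth g y hy.1 hy.2).add h1).congr fun n => ?_
    ring

/-- `n^(3/2) log n` is negligible against `n²` -/
theorem err_tendsto (C : ℝ) :
    Tendsto (fun n : ℕ => C * Real.sqrt n * (C * n * Real.log n) / (n : ℝ) ^ 2) atTop (𝓝 0) := by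
  have h1 : Tendsto (fun x : ℝ => Real.log x / x ^ (1 / 2 : ℝ)) atTop (𝓝 0) :=
    (isLittleO_log_rpow_atTop (by norm_num)).tendsto_div_nhds_zero
  have h2 := ((h1.comp tendsto_natCast_atTop_atTop).const_mul (C ^ 2))
  rw [mul_zero] at h2
  refine h2.congr' ?_
  filter_upwards [eventually_gt_atTop 0] with n hn
  have hn' : (0 : ℝ) < n := by exact_mod_cast hn
  have hs : (0 : ℝ) < Real.sqrt n := Real.sqrt_pos.mpr hn'
  simp only [Function.comp_apply]
  rw [← Real.sqrt_eq_rpow]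
  have h3 : Real.sqrt n * Real.sqrt n = n := Real.mul_self_sqrt hn'.le
  rw [mul_div_assoc', div_eq_div_iff hs.ne' (by positivity)]
  have h4 : (n : ℝ) ^ 2 = Real.sqrt n * Real.sqrt n * n := by rw [h3, sq]
  rw [h4]
  ring

/-- **Sum of `f p log p`** over a finite set of primes: `O(√n)` exceptional primes with cost
`O(n log n)` each, all the others in the items with cost at most `a n + b p + g`. -/
theorem psum (hth : Tendsto (fun x : ℝ => Chebyshev.theta x / x) atTop (𝓝 1))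
    (L : List (ℝ × ℝ × ℝ × ℝ))
    (hL : ∀ x ∈ L, 0 ≤ x.2.2.1 ∧ x.2.2.1 ≤ x.2.2.2 ∧ 0 ≤ x.1 + x.2.1 * x.2.2.1 ∧
      0 ≤ x.1 + x.2.1 * x.2.2.2) {g C e : ℝ} (hg : 0 ≤ g) (hC : 0 ≤ C) (he : 0 < e) :
    ∀ᶠ n : ℕ in atTop, ∀ (P R : Finset ℕ) (f : ℕ → ℝ), (∀ p ∈ P, p.Prime) →
      (∀ p ∈ P, p ∈ R ∨ ∃ x ∈ L, f p ≤ x.1 * n + x.2.1 * p + g ∧ x.2.2.1 * n < (p : ℝ) ∧
        (p : ℝ) ≤ x.2.2.2 * n) → ((R.card : ℝ) ≤ C * Real.sqrt n) →
      (∀ p ∈ R, f p * Real.log p ≤ C * n * Real.log n) →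
      ∑ p ∈ P, f p * Real.log p ≤ ((L.map ival).sum + e) * (n : ℝ) ^ 2 := by
  classical
  have h1 := (items_lim hth g L (fun x hx => ⟨(hL x hx).1, (hL x hx).2.1⟩)).add (err_tendsto C)
  rw [add_zero] at h1
  have h2 := h1.eventually_lt_const (show (L.map ival).sum < (L.map ival).sum + e by linarith)
  filter_upwards [h2, eventually_gt_atTop 0] with n hn hn0 P R f hP hPR hRc hRf
  have hn' : (0 : ℝ) < (n : ℝ) ^ 2 := by
    have : (0 : ℝ) < n := by exact_mod_cast hn0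
    positivity
  rw [← add_div, div_lt_iff₀ hn'] at hn
  refine le_trans ?_ hn.le
  rw [← sum_filter_add_sum_filter_not P (fun p => p ∉ R)]
  refine add_le_add ?_ ?_
  · refine sum_le_items n f g hg L hL _ fun p hp => ?_
    rw [mem_filter] at hp
    refine ⟨hP p hp.1, ?_⟩
    rcases hPR p hp.1 with h | h
    · exact absurd h hp.2
    · exact h
  · have hlog : 0 ≤ Real.log n := Real.log_natCast_nonneg n
    have hnn : (0 : ℝ) ≤ n := Nat.cast_nonneg n
    have hCn : 0 ≤ C * n * Real.log n := mul_nonneg (mul_nonneg hC hnn) hlog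
    calc ∑ p ∈ P.filter (fun p => ¬ p ∉ R), f p * Real.log p
        ≤ ∑ _p ∈ P.filter (fun p => ¬ p ∉ R), C * n * Real.log n := by
          refine sum_le_sum fun p hp => ?_
          rw [mem_filter, not_not] at hp
          exact hRf p hp.2
      _ ≤ ∑ _p ∈ R, C * n * Real.log n := by
          refine sum_le_sum_of_subset_of_nonneg ?_ fun _ _ _ => hCn
          intro p hp
          rw [mem_filter, not_not] at hp
          exact hp.2
      _ = (R.card : ℝ) * (C * n * Real.log n) := by rw [sum_const, nsmul_eq_mul]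
      _ ≤ C * Real.sqrt n * (C * n * Real.log n) := mul_le_mul_of_nonneg_right hRc hCn

end Pool.Agent.D23
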