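import Pool.Agent.Z3D.Greedy
import Pool.Agent.D23.PSum

/-!
# Class sums on a cell of `n / p`: certificates by linear forms
-/

set_option autoImplicit false

open Finset

namespace Pool.Agent.D23.Cell

/-- number of `i` in `[A, B)` in the class `s` modulo `p` -/
def icnt (A B p s : ℕ) : ℕ := ((Ico A B).filter (fun i => i % p = s)).card

theorem icnt_eq {p s : ℕ} (A B : ℕ) (hp : 0 < p) (hs : s < p) :
    (icnt A B p s : ℤ) = max (⌈((B : ℚ) - s) / p⌉ - ⌈((A : ℚ) - s) / p⌉) 0 := by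
  rw [← Nat.Ico_filter_modEq_card A B hp s]
  unfold icnt
  congr 2
  refine filter_congr fun i _ => ?_
  unfold Nat.ModEq
  rw [Nat.mod_eq_of_lt hs]

theorem le_icnt {p s : ℕ} (A B : ℕ) (hp : 0 < p) (hs : s < p) (m k : ℤ)
    (h1 : (A : ℤ) ≤ m * p + s) (h2 : (m + k - 1) * p + s < (B : ℤ)) : k ≤ icnt A B p s := by
  rw [icnt_eq A B hp hs]
  refine le_max_of_le_left ?_
  have hp' : (0 : ℚ) < p := by exact_mod_cast hp
  have h3 : ⌈((A : ℚ) - s) / p⌉ ≤ m := by
    rw [Int.ceil_le, div_le_iff₀ hp']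
    have : (A : ℚ) ≤ m * p + s := by exact_mod_cast h1
    linarith
  have h4 : m + k - 1 < ⌈((B : ℚ) - s) / p⌉ := by
    rw [Int.lt_ceil, lt_div_iff₀ hp']
    have : ((m + k - 1 : ℤ) : ℚ) * p + s < B := by exact_mod_cast h2
    linarith
  omega

theorem icnt_le {p s : ℕ} (A B : ℕ) (hp : 0 < p) (hs : s < p) (m k : ℤ) (hk : 0 ≤ k)
    (h1 : (m - 1) * p + s < (A : ℤ)) (h2 : (B : ℤ) ≤ (m + k) * p + s) :
    (icnt A B p s : ℤ) ≤ k := by
  rw [icnt_eq A B hp hs]
  refine max_le ?_ hk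
  have hp' : (0 : ℚ) < p := by exact_mod_cast hp
  have h3 : m - 1 < ⌈((A : ℚ) - s) / p⌉ := by
    rw [Int.lt_ceil, lt_div_iff₀ hp']
    have : ((m - 1 : ℤ) : ℚ) * p + s < A := by exact_mod_cast h1
    linarith
  have h4 : ⌈((B : ℚ) - s) / p⌉ ≤ m + k := by
    rw [Int.ceil_le, div_le_iff₀ hp']
    have : (B : ℚ) ≤ ((m + k : ℤ) : ℚ) * p + s := by exact_mod_cast h2
    linarith
  omega

/-- value of the linear form `u n + v p` -/
def ev (f : ℤ × ℤ) (n p : ℕ) : ℤ := f.1 * n + f.2 * p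

/-- value of a linear form with natural coefficients -/
def nf (f : ℕ × ℕ) (n p : ℕ) : ℕ := f.1 * n + f.2 * p

theorem nf_cast (f : ℕ × ℕ) (n p : ℕ) : (nf f n p : ℤ) = f.1 * n + f.2 * p := by
  unfold nf
  push_cast
  ring

/-- the ends `a1 / b1`, `a2 / b2` of a cell -/
structure Box where
  a1 : ℤ
  b1 : ℤ
  a2 : ℤ
  b2 : ℤ

/-- `a1 / b1 ≤ n / p < a2 / b2` -/
def Box.In (c : Box) (n p : ℕ) : Prop :=
  0 < c.a2 * c.b1 - c.a1 * c.b2 ∧ c.a1 * p ≤ c.b1 * n ∧ c.b2 * n < c.a2 * p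

/-- the form is nonnegative at both ends -/
def Box.nn (c : Box) (u v : ℤ) : Bool :=
  decide (0 ≤ u * c.a1 + v * c.b1) && decide (0 ≤ u * c.a2 + v * c.b2)

/-- the form is positive at the lower end and nonnegative at the upper end -/
def Box.po (c : Box) (u v : ℤ) : Bool :=
  decide (0 < u * c.a1 + v * c.b1) && decide (0 ≤ u * c.a2 + v * c.b2)

theorem Box.nn_sound {c : Box} {n p : ℕ} (h : c.In n p) {u v : ℤ} (hc : c.nn u v = true) :
    0 ≤ u * n + v * p := by
  obtain ⟨h1, h2, h3⟩ := h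
  simp only [Box.nn, Bool.and_eq_true, decide_eq_true_eq] at hc
  have e : (c.a2 * c.b1 - c.a1 * c.b2) * (u * n + v * p) =
      (u * c.a1 + v * c.b1) * (c.a2 * p - c.b2 * n) +
        (u * c.a2 + v * c.b2) * (c.b1 * n - c.a1 * p) := by ring
  have h4 : 0 ≤ (c.a2 * c.b1 - c.a1 * c.b2) * (u * n + v * p) := by
    rw [e]
    exact add_nonneg (mul_nonneg hc.1 (by linarith)) (mul_nonneg hc.2 (by linarith))
  exact nonneg_of_mul_nonneg_right h4 h1

theorem Box.po_sound {c : Box} {n p : ℕ} (h : c.In n p) {u v : ℤ} (hc : c.po u v = true) :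
    0 < u * n + v * p := by
  obtain ⟨h1, h2, h3⟩ := h
  simp only [Box.po, Bool.and_eq_true, decide_eq_true_eq] at hc
  have e : (c.a2 * c.b1 - c.a1 * c.b2) * (u * n + v * p) =
      (u * c.a1 + v * c.b1) * (c.a2 * p - c.b2 * n) +
        (u * c.a2 + v * c.b2) * (c.b1 * n - c.a1 * p) := by ring
  have h4 : 0 < (c.a2 * c.b1 - c.a1 * c.b2) * (u * n + v * p) := by
    rw [e]
    exact add_pos_of_pos_of_nonneg (mul_pos hc.1 (by linarith)) (mul_nonneg hc.2 (by linarith))
  exact pos_of_mul_pos_right_of_pos h4 h1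
where
  pos_of_mul_pos_right_of_pos {a b : ℤ} (h : 0 < a * b) (ha : 0 < a) : 0 < b := by
    by_contra hb
    push Not at hb
    exact absurd h (not_lt.mpr (mul_nonpos_of_nonneg_of_nonpos ha.le hb))

/-- the family: blocks of zeros and of poles, ends are linear forms in `n, p` -/
structure Fam where
  zb : List ((ℕ × ℕ) × (ℕ × ℕ))
  pb : List ((ℕ × ℕ) × (ℕ × ℕ))
  tb : (ℕ × ℕ) × (ℕ × ℕ)

/-- count of a block in the class `s` -/
def bc (n p s : ℕ) (b : (ℕ × ℕ) × (ℕ × ℕ)) : ℤ := icnt (nf b.1 n p) (nf b.2 n p) p s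

/-- zeros minus poles in the class `s` -/
def Fam.phi (F : Fam) (n p s : ℕ) : ℤ :=
  (F.zb.map (bc n p s)).sum - (F.pb.map (bc n p s)).sum

/-- an arc of classes, with certificates for the blocks: `up` is its upper end -/
structure Arc where
  u : ℤ
  v : ℤ
  zc : List (ℤ × ℤ)
  pc : List (ℤ × ℤ)
  t : Option ℤ

/-- at least `k.2` elements of the zero block, the first one being `k.1 p + s` -/
def zchk (c : Box) (l1 l2 u v : ℤ) (b : (ℕ × ℕ) × (ℕ × ℕ)) (k : ℤ × ℤ) : Bool :=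
  c.nn (l1 - b.1.1) (l2 + k.1 - b.1.2) && c.nn (b.2.1 - u) (b.2.2 - v - (k.1 + k.2 - 1))

/-- at most `k.2` elements of the pole block, the first possible one being `k.1 p + s` -/
def pchk (c : Box) (l1 l2 u v : ℤ) (b : (ℕ × ℕ) × (ℕ × ℕ)) (k : ℤ × ℤ) : Bool :=
  decide (0 ≤ k.2) && c.nn (b.1.1 - u) (b.1.2 - v - (k.1 - 1)) &&
    c.nn (l1 - b.2.1) (l2 + (k.1 + k.2) - b.2.2)

/-- all blocks of a list -/
def allchk (f : (ℕ × ℕ) × (ℕ × ℕ) → ℤ × ℤ → Bool) :
    List ((ℕ × ℕ) × (ℕ × ℕ)) → List (ℤ × ℤ) → Bool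
  | [], [] => true
  | b :: bs, k :: ks => f b k && allchk f bs ks
  | _, _ => false

/-- check of the arcs from the lower end `(l1, l2)` on -/
def chk (F : Fam) (c : Box) : ℤ → ℤ → List Arc → Bool
  | l1, l2, [] => decide (l1 = 0) && decide (l2 = 1)
  | l1, l2, a :: l => c.nn (a.u - l1) (a.v - l2) &&
      allchk (zchk c l1 l2 a.u a.v) F.zb a.zc && allchk (pchk c l1 l2 a.u a.v) F.pb a.pc &&
      (match a.t with
        | none => true
        | some m => pchk c l1 l2 a.u a.v F.tb (m, 0)) && chk F c a.u a.v l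

/-- lower bound for `phi` on the arc -/
def Arc.low (a : Arc) : ℤ := (a.zc.map Prod.snd).sum - (a.pc.map Prod.snd).sum

/-- coefficient of `n` of the total -/
def totn (g : Arc → ℤ) : ℤ → List Arc → ℤ
  | _, [] => 0
  | l1, a :: l => (a.u - l1) * g a + totn g a.u l

/-- coefficient of `p` of the total -/
def totp (g : Arc → ℤ) : ℤ → List Arc → ℤ
  | _, [] => 0
  | l2, a :: l => (a.v - l2) * g a + totp g a.v l

section
variable {F : Fam} {c : Box} {n p : ℕ}

theorem zall_sound (h : c.In n p) (hp : 0 < p) {l1 l2 u v : ℤ} {s : ℕ} (hs : s < p)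
    (hlo : l1 * n + l2 * p ≤ s) (hup : (s : ℤ) < u * n + v * p) :
    ∀ (bs : List ((ℕ × ℕ) × (ℕ × ℕ))) (ks : List (ℤ × ℤ)),
      allchk (zchk c l1 l2 u v) bs ks = true →
      (ks.map Prod.snd).sum ≤ (bs.map (bc n p s)).sum
  | [], [], _ => by simp
  | [], _ :: _, hc => by simp [allchk] at hc
  | _ :: _, [], hc => by simp [allchk] at hc
  | b :: bs, k :: ks, hc => by
    simp only [allchk, zchk, Bool.and_eq_true] at hc
    have h1 := Box.nn_sound h hc.1.1
    have h2 := Box.nn_sound h hc.1.2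
    have ih := zall_sound h hp hs hlo hup bs ks hc.2
    simp only [List.map_cons, List.sum_cons]
    refine add_le_add ?_ ih
    refine le_icnt _ _ hp hs k.1 k.2 ?_ ?_
    · rw [nf_cast]
      linarith
    · rw [nf_cast]
      linarith

theorem pall_sound (h : c.In n p) (hp : 0 < p) {l1 l2 u v : ℤ} {s : ℕ} (hs : s < p)
    (hlo : l1 * n + l2 * p ≤ s) (hup : (s : ℤ) < u * n + v * p) :
    ∀ (bs : List ((ℕ × ℕ) × (ℕ × ℕ))) (ks : List (ℤ × ℤ)),
      allchk (pchk c l1 l2 u v) bs ks = true →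
      (bs.map (bc n p s)).sum ≤ (ks.map Prod.snd).sum
  | [], [], _ => by simp
  | [], _ :: _, hc => by simp [allchk] at hc
  | _ :: _, [], hc => by simp [allchk] at hc
  | b :: bs, k :: ks, hc => by
    simp only [allchk, pchk, Bool.and_eq_true, decide_eq_true_eq] at hc
    have h1 := Box.nn_sound h hc.1.1.2
    have h2 := Box.nn_sound h hc.1.2
    have ih := pall_sound h hp hs hlo hup bs ks hc.2
    simp only [List.map_cons, List.sum_cons]
    refine add_le_add ?_ ih
    refine icnt_le _ _ hp hs k.1 k.2 hc.1.1.1 ?_ ?_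
    · rw [nf_cast]
      linarith
    · rw [nf_cast]
      linarith

theorem chk_le (h : c.In n p) : ∀ (l : List Arc) (l1 l2 : ℤ), chk F c l1 l2 l = true →
    l1 * n + l2 * p ≤ p
  | [], l1, l2, hc => by
    simp only [chk, Bool.and_eq_true, decide_eq_true_eq] at hc
    rw [hc.1, hc.2]
    simp
  | a :: l, l1, l2, hc => by
    simp only [chk, Bool.and_eq_true] at hc
    have h1 := Box.nn_sound h hc.1.1.1.1
    have h2 := chk_le h l a.u a.v hc.2
    linarith

/-- **Sum over all classes** of a function bounded on every arc. -/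
theorem sum_le_tot (h : c.In n p) (hp : 0 < p) (f : ℕ → ℤ) (g : Arc → ℤ)
    (hfg : ∀ (a : Arc) (s : ℕ), s < p → a.low ≤ F.phi n p s →
      ((∃ m, a.t = some m) → bc n p s F.tb = 0) → f s ≤ g a) :
    ∀ (l : List Arc) (l1 l2 : ℤ), chk F c l1 l2 l = true → 0 ≤ l1 * n + l2 * p →
      ∑ s ∈ Ico (l1 * n + l2 * p).toNat p, f s ≤ totn g l1 l * n + totp g l2 l * p
  | [], l1, l2, hc, _ => by
    simp only [chk, Bool.and_eq_true, decide_eq_true_eq] at hc
    rw [hc.1, hc.2]
    simp [totn, totp]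
  | a :: l, l1, l2, hc, hnn => by
    have hc0 := hc
    simp only [chk, Bool.and_eq_true] at hc
    obtain ⟨⟨⟨⟨hc1, hc2⟩, hc3⟩, hc4⟩, hc5⟩ := hc
    have h1 := Box.nn_sound h hc1
    have hup : 0 ≤ a.u * (n : ℤ) + a.v * p := by linarith
    have hle := chk_le h l a.u a.v hc5
    have ih := sum_le_tot h hp f g hfg l a.u a.v hc5 hup
    set x := (l1 * (n : ℤ) + l2 * p).toNat with hx
    set y := (a.u * (n : ℤ) + a.v * p).toNat with hy
    have hxz : (x : ℤ) = l1 * (n : ℤ) + l2 * p := Int.toNat_of_nonneg hnn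
    have hyz : (y : ℤ) = a.u * (n : ℤ) + a.v * p := Int.toNat_of_nonneg hup
    have hxy : x ≤ y := by
      have : (x : ℤ) ≤ y := by rw [hxz, hyz]; linarith
      exact_mod_cast this
    have hyp : y ≤ p := by
      have : (y : ℤ) ≤ p := by rw [hyz]; exact hle
      exact_mod_cast this
    rw [← sum_Ico_consecutive f hxy hyp]
    have h2 : ∑ s ∈ Ico x y, f s ≤ ∑ _s ∈ Ico x y, g a := by
      refine sum_le_sum fun s hs => ?_
      rw [mem_Ico] at hs
      have hs1 : l1 * (n : ℤ) + l2 * p ≤ s := by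
        rw [← hxz]
        exact_mod_cast hs.1
      have hs2 : (s : ℤ) < a.u * (n : ℤ) + a.v * p := by
        rw [← hyz]
        exact_mod_cast hs.2
      have hsp : s < p := by omega
      refine hfg a s hsp ?_ ?_
      · have h3 := zall_sound h hp hsp hs1 hs2 F.zb a.zc hc2
        have h4 := pall_sound h hp hsp hs1 hs2 F.pb a.pc hc3
        unfold Arc.low Fam.phi
        linarith
      · rintro ⟨m, hm⟩
        rw [hm] at hc4
        simp only [pchk, Bool.and_eq_true, decide_eq_true_eq] at hc4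
        have h5 := Box.nn_sound h hc4.1.2
        have h6 := Box.nn_sound h hc4.2
        have h7 : (icnt (nf F.tb.1 n p) (nf F.tb.2 n p) p s : ℤ) ≤ 0 := by
          refine icnt_le _ _ hp hsp m 0 le_rfl ?_ ?_
          · rw [nf_cast]
            linarith
          · rw [nf_cast]
            linarith
        have h8 : (0 : ℤ) ≤ (icnt (nf F.tb.1 n p) (nf F.tb.2 n p) p s : ℤ) := Int.natCast_nonneg _
        unfold bc
        linarith
    rw [sum_const, Nat.card_Ico, nsmul_eq_mul, Nat.cast_sub hxy, hxz, hyz] at h2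
    simp only [totn, totp]
    linarith

theorem sum_range_le (h : c.In n p) (hp : 0 < p) (f : ℕ → ℤ) (g : Arc → ℤ)
    (hfg : ∀ (a : Arc) (s : ℕ), s < p → a.low ≤ F.phi n p s →
      ((∃ m, a.t = some m) → bc n p s F.tb = 0) → f s ≤ g a) (l : List Arc)
    (hc : chk F c 0 0 l = true) :
    ∑ s ∈ range p, f s ≤ totn g 0 l * n + totp g 0 l * p := by
  have := sum_le_tot h hp f g hfg l 0 0 hc (by simp)
  simpa using this

end

/-- monotonicity of the closed form of the total cost -/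
theorem ccost_mono {x y : ℤ} (h : x ≤ y) : Z3D.ccost x ≤ Z3D.ccost y := by
  unfold Z3D.ccost
  split_ifs with h1 h2 h2
  · exact le_rfl
  · push Not at h2
    positivity
  · omega
  · push Not at h1 h2
    refine Int.ediv_le_ediv (by norm_num) ?_
    nlinarith

theorem ccost_nonneg (x : ℤ) : 0 ≤ Z3D.ccost x := by
  unfold Z3D.ccost
  split_ifs with h1
  · exact le_rfl
  · positivity

end Pool.Agent.D23.Cell
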