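import Pool.Agent.D23.Fam
import Pool.Agent.D23.Cells

/-!
# Bridge between the counts of the family and the counts of the cell checker
-/

set_option autoImplicit false

open Finset

namespace Pool.Agent.D23

theorem icnt_eq_cN (A B p s : ℕ) (h : A ≤ B) :
    (Cell.icnt A B p s : ℤ) = cN B p s - cN A p s := by
  have h1 : cN A p s + Cell.icnt A B p s = cN B p s := by
    unfold cN Cell.icnt
    rw [card_filter, card_filter, card_filter, range_eq_Ico, range_eq_Ico]
    exact sum_Ico_consecutive _ (Nat.zero_le A) h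
  have h2 : ((cN A p s + Cell.icnt A B p s : ℕ) : ℤ) = cN B p s := by rw [h1]
  push_cast at h2
  linarith

theorem ph_eq (n p s : ℕ) : ph n p s = (Cell.icnt 0 (2 * n) p s : ℤ) +
    (Cell.icnt 0 (3 * n) p s : ℤ) + (Cell.icnt n (3 * n) p s : ℤ) -
    (Cell.icnt (4 * n) (10 * n) p s : ℤ) := by
  rw [icnt_eq_cN 0 (2 * n) p s (Nat.zero_le _), icnt_eq_cN 0 (3 * n) p s (Nat.zero_le _),
    icnt_eq_cN n (3 * n) p s (by omega), icnt_eq_cN (4 * n) (10 * n) p s (by omega)]
  have h0 : cN 0 p s = 0 := by simp [cN]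
  rw [h0]
  unfold ph
  push_cast
  ring

theorem polar_pos (n p s : ℕ) (h : polar n p s) : 0 < Cell.icnt (2 * n + p) (10 * n) p s := by
  obtain ⟨k, _, h2, h3, h4⟩ := h
  unfold Cell.icnt
  rw [card_pos]
  exact ⟨k, by simp [h2, h3, h4]⟩

/-- no polar class for a prime above `8 n` -/
theorem not_polar (n p s : ℕ) (h : 8 * n ≤ p) : ¬ polar n p s := by
  rintro ⟨k, _, h2, _, h4⟩
  omega

end Pool.Agent.D23
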