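import Pool.Agent.D23.CellList

/-!
# The cells of the family `2 3 3 4 / 0 0 1 10`, for `1 / 10 ≤ n / p < 5`
-/

set_option autoImplicit false

namespace Pool.Agent.D23.Cell

/-- zero blocks `[0,2n)`, `[0,3n)`, `[n,3n)`, pole block `[4n,10n)`, far poles `[2n+p,10n)` -/
def par : Par :=
  ⟨⟨[((0, 0), (2, 0)), ((0, 0), (3, 0)), ((1, 0), (3, 0))], [((4, 0), (10, 0))], ((2, 1), (10, 0))⟩,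
    6, [2, 2, 3], 4, 1, 6⟩

/-- the cells -/
def recs : List Rec := [
⟨⟨1, 10, 1, 9⟩, 2, 0, 0, 0, [0, 0, 0, 0],
    [⟨10, -1, [(0, 1), (0, 1), (1, 0)], [(1, 1)], some 2⟩,
     ⟨1, 0, [(0, 1), (0, 1), (1, 0)], [(1, 0)], some 1⟩,
     ⟨2, 0, [(0, 1), (0, 1), (0, 1)], [(1, 0)], some 1⟩,
     ⟨3, 0, [(0, 0), (0, 1), (0, 1)], [(1, 0)], some 1⟩,
     ⟨4, 0, [(0, 0), (0, 0), (0, 0)], [(1, 0)], some 1⟩,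
     ⟨0, 1, [(0, 0), (0, 0), (0, 0)], [(0, 1)], some 1⟩], 0, 0⟩,
  ⟨⟨1, 9, 1, 8⟩, 2, 0, 0, 0, [0, 0, 0, 0],
    [⟨1, 0, [(0, 1), (0, 1), (1, 0)], [(1, 1)], some 2⟩,
     ⟨10, -1, [(0, 1), (0, 1), (0, 1)], [(1, 1)], some 2⟩,
     ⟨2, 0, [(0, 1), (0, 1), (0, 1)], [(1, 0)], some 1⟩,
     ⟨3, 0, [(0, 0), (0, 1), (0, 1)], [(1, 0)], some 1⟩,
     ⟨4, 0, [(0, 0), (0, 0), (0, 0)], [(1, 0)], some 1⟩,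
     ⟨0, 1, [(0, 0), (0, 0), (0, 0)], [(0, 1)], some 1⟩], 9, -1⟩,
  ⟨⟨1, 8, 1, 7⟩, 2, 0, 0, 0, [0, 0, 0, 0],
    [⟨1, 0, [(0, 1), (0, 1), (1, 0)], [(1, 1)], some 2⟩,
     ⟨2, 0, [(0, 1), (0, 1), (0, 1)], [(1, 1)], some 2⟩,
     ⟨10, -1, [(0, 0), (0, 1), (0, 1)], [(1, 1)], none⟩,
     ⟨3, 0, [(0, 0), (0, 1), (0, 1)], [(1, 0)], some 1⟩,
     ⟨4, 0, [(0, 0), (0, 0), (0, 0)], [(1, 0)], some 1⟩,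
     ⟨0, 1, [(0, 0), (0, 0), (0, 0)], [(0, 1)], some 1⟩], 17, -2⟩,
  ⟨⟨1, 7, 1, 6⟩, 1, 0, 0, 0, [0, 0, 0, 0],
    [⟨1, 0, [(0, 1), (0, 1), (1, 0)], [(1, 1)], some 2⟩,
     ⟨2, 0, [(0, 1), (0, 1), (0, 1)], [(1, 1)], some 2⟩,
     ⟨3, 0, [(0, 0), (0, 1), (0, 1)], [(1, 1)], none⟩,
     ⟨10, -1, [(0, 0), (0, 0), (0, 0)], [(1, 1)], none⟩,
     ⟨4, 0, [(0, 0), (0, 0), (0, 0)], [(1, 0)], some 1⟩,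
     ⟨0, 1, [(0, 0), (0, 0), (0, 0)], [(0, 1)], some 1⟩], 18, -2⟩,
  ⟨⟨1, 6, 1, 5⟩, 1, 0, 0, 1, [1, 0, 0, 0],
    [⟨1, 0, [(0, 1), (0, 1), (1, 0)], [(1, 1)], some 2⟩,
     ⟨2, 0, [(0, 1), (0, 1), (0, 1)], [(1, 1)], some 2⟩,
     ⟨3, 0, [(0, 0), (0, 1), (0, 1)], [(1, 1)], none⟩,
     ⟨4, 0, [(0, 0), (0, 0), (0, 0)], [(1, 1)], none⟩,
     ⟨10, -1, [(0, 0), (0, 0), (0, 0)], [(0, 2)], none⟩,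
     ⟨0, 1, [(0, 0), (0, 0), (0, 0)], [(0, 1)], some 1⟩], 26, -4⟩,
  ⟨⟨1, 5, 2, 9⟩, 0, 0, 0, 1, [1, 0, 0, 0],
    [⟨10, -2, [(0, 1), (0, 1), (1, 0)], [(1, 2)], none⟩,
     ⟨1, 0, [(0, 1), (0, 1), (1, 0)], [(1, 1)], some 2⟩,
     ⟨2, 0, [(0, 1), (0, 1), (0, 1)], [(1, 1)], some 2⟩,
     ⟨3, 0, [(0, 0), (0, 1), (0, 1)], [(1, 1)], none⟩,
     ⟨4, 0, [(0, 0), (0, 0), (0, 0)], [(1, 1)], none⟩,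
     ⟨0, 1, [(0, 0), (0, 0), (0, 0)], [(0, 2)], none⟩], -4, 2⟩,
  ⟨⟨2, 9, 1, 4⟩, 0, 0, 0, 1, [1, 0, 0, 0],
    [⟨1, 0, [(0, 1), (0, 1), (1, 0)], [(1, 2)], none⟩,
     ⟨10, -2, [(0, 1), (0, 1), (0, 1)], [(1, 2)], none⟩,
     ⟨2, 0, [(0, 1), (0, 1), (0, 1)], [(1, 1)], some 2⟩,
     ⟨3, 0, [(0, 0), (0, 1), (0, 1)], [(1, 1)], none⟩,
     ⟨4, 0, [(0, 0), (0, 0), (0, 0)], [(1, 1)], none⟩,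
     ⟨0, 1, [(0, 0), (0, 0), (0, 0)], [(0, 2)], none⟩], -13, 4⟩,
  ⟨⟨1, 4, 2, 7⟩, 0, 0, 1, 1, [1, 0, 0, 0],
    [⟨4, -1, [(0, 1), (0, 1), (1, 0)], [(2, 1)], none⟩,
     ⟨1, 0, [(0, 1), (0, 1), (1, 0)], [(1, 2)], none⟩,
     ⟨2, 0, [(0, 1), (0, 1), (0, 1)], [(1, 2)], none⟩,
     ⟨10, -2, [(0, 0), (0, 1), (0, 1)], [(1, 2)], none⟩,
     ⟨3, 0, [(0, 0), (0, 1), (0, 1)], [(1, 1)], none⟩,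
     ⟨0, 1, [(0, 0), (0, 0), (0, 0)], [(1, 1)], none⟩], 7, -1⟩,
  ⟨⟨2, 7, 3, 10⟩, 0, -1, 1, 1, [1, 0, 0, 0],
    [⟨4, -1, [(0, 1), (0, 1), (1, 0)], [(2, 1)], none⟩,
     ⟨1, 0, [(0, 1), (0, 1), (1, 0)], [(1, 2)], none⟩,
     ⟨2, 0, [(0, 1), (0, 1), (0, 1)], [(1, 2)], none⟩,
     ⟨3, 0, [(0, 0), (0, 1), (0, 1)], [(1, 2)], none⟩,
     ⟨10, -2, [(0, 0), (0, 0), (0, 0)], [(1, 2)], none⟩,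
     ⟨0, 1, [(0, 0), (0, 0), (0, 0)], [(1, 1)], none⟩], 7, -1⟩,
  ⟨⟨3, 10, 1, 3⟩, 0, -1, 1, 1, [1, 0, 0, 0],
    [⟨10, -3, [(0, 1), (0, 1), (1, 0)], [(2, 2)], none⟩,
     ⟨4, -1, [(0, 1), (0, 1), (1, 0)], [(2, 1)], none⟩,
     ⟨1, 0, [(0, 1), (0, 1), (1, 0)], [(1, 2)], none⟩,
     ⟨2, 0, [(0, 1), (0, 1), (0, 1)], [(1, 2)], none⟩,
     ⟨3, 0, [(0, 0), (0, 1), (0, 1)], [(1, 2)], none⟩,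
     ⟨0, 1, [(0, 0), (0, 0), (0, 0)], [(1, 2)], none⟩], -3, 2⟩,
  ⟨⟨1, 3, 3, 8⟩, 0, -1, 1, 1, [2, 0, 0, 1],
    [⟨3, -1, [(0, 1), (0, 2), (1, 1)], [(2, 2)], none⟩,
     ⟨1, 0, [(0, 1), (0, 1), (1, 0)], [(2, 2)], none⟩,
     ⟨4, -1, [(0, 1), (0, 1), (0, 1)], [(2, 2)], none⟩,
     ⟨10, -3, [(0, 1), (0, 1), (0, 1)], [(1, 3)], none⟩,
     ⟨2, 0, [(0, 1), (0, 1), (0, 1)], [(1, 2)], none⟩,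
     ⟨0, 1, [(0, 0), (0, 1), (0, 1)], [(1, 2)], none⟩], 3, 0⟩,
  ⟨⟨3, 8, 2, 5⟩, 0, -1, 1, 1, [2, 0, 0, 1],
    [⟨3, -1, [(0, 1), (0, 2), (1, 1)], [(2, 2)], none⟩,
     ⟨1, 0, [(0, 1), (0, 1), (1, 0)], [(2, 2)], none⟩,
     ⟨4, -1, [(0, 1), (0, 1), (0, 1)], [(2, 2)], none⟩,
     ⟨2, 0, [(0, 1), (0, 1), (0, 1)], [(1, 3)], none⟩,
     ⟨10, -3, [(0, 0), (0, 1), (0, 1)], [(1, 3)], none⟩,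
     ⟨0, 1, [(0, 0), (0, 1), (0, 1)], [(1, 2)], none⟩], 11, -3⟩,
  ⟨⟨2, 5, 3, 7⟩, 0, -2, 1, 1, [2, 0, 0, 1],
    [⟨10, -4, [(0, 1), (0, 2), (1, 1)], [(2, 3)], none⟩,
     ⟨3, -1, [(0, 1), (0, 2), (1, 1)], [(2, 2)], none⟩,
     ⟨1, 0, [(0, 1), (0, 1), (1, 0)], [(2, 2)], none⟩,
     ⟨4, -1, [(0, 1), (0, 1), (0, 1)], [(2, 2)], none⟩,
     ⟨2, 0, [(0, 1), (0, 1), (0, 1)], [(1, 3)], none⟩,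
     ⟨0, 1, [(0, 0), (0, 1), (0, 1)], [(1, 3)], none⟩], -9, 5⟩,
  ⟨⟨3, 7, 4, 9⟩, 0, -2, 1, 1, [2, 0, 0, 1],
    [⟨3, -1, [(0, 1), (0, 2), (1, 1)], [(2, 3)], none⟩,
     ⟨10, -4, [(0, 1), (0, 1), (1, 0)], [(2, 3)], none⟩,
     ⟨1, 0, [(0, 1), (0, 1), (1, 0)], [(2, 2)], none⟩,
     ⟨4, -1, [(0, 1), (0, 1), (0, 1)], [(2, 2)], none⟩,
     ⟨2, 0, [(0, 1), (0, 1), (0, 1)], [(1, 3)], none⟩,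
     ⟨0, 1, [(0, 0), (0, 1), (0, 1)], [(1, 3)], none⟩], -2, 2⟩,
  ⟨⟨4, 9, 1, 2⟩, 0, -2, 1, 1, [2, 0, 0, 1],
    [⟨3, -1, [(0, 1), (0, 2), (1, 1)], [(2, 3)], none⟩,
     ⟨1, 0, [(0, 1), (0, 1), (1, 0)], [(2, 3)], none⟩,
     ⟨10, -4, [(0, 1), (0, 1), (0, 1)], [(2, 3)], none⟩,
     ⟨4, -1, [(0, 1), (0, 1), (0, 1)], [(2, 2)], none⟩,
     ⟨2, 0, [(0, 1), (0, 1), (0, 1)], [(1, 3)], none⟩,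
     ⟨0, 1, [(0, 0), (0, 1), (0, 1)], [(1, 3)], none⟩], -2, 2⟩,
  ⟨⟨1, 2, 5, 9⟩, 0, -2, 2, 0, [3, 1, 1, 1],
    [⟨2, -1, [(0, 2), (0, 2), (1, 1)], [(3, 3)], none⟩,
     ⟨4, -2, [(0, 1), (0, 2), (1, 1)], [(3, 3)], none⟩,
     ⟨10, -5, [(0, 1), (0, 2), (1, 1)], [(2, 4)], none⟩,
     ⟨1, 0, [(0, 1), (0, 2), (1, 1)], [(2, 3)], none⟩,
     ⟨3, -1, [(0, 1), (0, 2), (0, 2)], [(2, 3)], none⟩,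
     ⟨0, 1, [(0, 1), (0, 1), (0, 1)], [(2, 3)], none⟩], 6, 0⟩,
  ⟨⟨5, 9, 4, 7⟩, 0, -2, 2, 0, [3, 1, 1, 1],
    [⟨2, -1, [(0, 2), (0, 2), (1, 1)], [(3, 3)], none⟩,
     ⟨4, -2, [(0, 1), (0, 2), (1, 1)], [(3, 3)], none⟩,
     ⟨1, 0, [(0, 1), (0, 2), (1, 1)], [(2, 4)], none⟩,
     ⟨10, -5, [(0, 1), (0, 2), (0, 2)], [(2, 4)], none⟩,
     ⟨3, -1, [(0, 1), (0, 2), (0, 2)], [(2, 3)], none⟩,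
     ⟨0, 1, [(0, 1), (0, 1), (0, 1)], [(2, 3)], none⟩], 6, 0⟩,
  ⟨⟨4, 7, 3, 5⟩, 0, -2, 2, 0, [3, 1, 1, 1],
    [⟨2, -1, [(0, 2), (0, 2), (1, 1)], [(3, 3)], none⟩,
     ⟨4, -2, [(0, 1), (0, 2), (1, 1)], [(3, 3)], none⟩,
     ⟨1, 0, [(0, 1), (0, 2), (1, 1)], [(2, 4)], none⟩,
     ⟨3, -1, [(0, 1), (0, 2), (0, 2)], [(2, 4)], none⟩,
     ⟨10, -5, [(0, 1), (0, 1), (0, 1)], [(2, 4)], none⟩,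
     ⟨0, 1, [(0, 1), (0, 1), (0, 1)], [(2, 3)], none⟩], 13, -4⟩,
  ⟨⟨3, 5, 5, 8⟩, 0, -3, 2, 0, [3, 1, 1, 1],
    [⟨10, -6, [(0, 2), (0, 2), (1, 1)], [(3, 4)], none⟩,
     ⟨2, -1, [(0, 2), (0, 2), (1, 1)], [(3, 3)], none⟩,
     ⟨4, -2, [(0, 1), (0, 2), (1, 1)], [(3, 3)], none⟩,
     ⟨1, 0, [(0, 1), (0, 2), (1, 1)], [(2, 4)], none⟩,
     ⟨3, -1, [(0, 1), (0, 2), (0, 2)], [(2, 4)], none⟩,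
     ⟨0, 1, [(0, 1), (0, 1), (0, 1)], [(2, 4)], none⟩], -7, 8⟩,
  ⟨⟨5, 8, 2, 3⟩, 0, -3, 2, 0, [3, 1, 1, 1],
    [⟨2, -1, [(0, 2), (0, 2), (1, 1)], [(3, 4)], none⟩,
     ⟨10, -6, [(0, 1), (0, 2), (1, 1)], [(3, 4)], none⟩,
     ⟨4, -2, [(0, 1), (0, 2), (1, 1)], [(3, 3)], none⟩,
     ⟨1, 0, [(0, 1), (0, 2), (1, 1)], [(2, 4)], none⟩,
     ⟨3, -1, [(0, 1), (0, 2), (0, 2)], [(2, 4)], none⟩,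
     ⟨0, 1, [(0, 1), (0, 1), (0, 1)], [(2, 4)], none⟩], 1, 3⟩,
  ⟨⟨2, 3, 7, 10⟩, 0, -3, 2, 0, [4, 1, 1, 2],
    [⟨3, -2, [(0, 2), (0, 3), (1, 2)], [(3, 4)], none⟩,
     ⟨2, -1, [(0, 2), (0, 2), (1, 1)], [(3, 4)], none⟩,
     ⟨1, 0, [(0, 1), (0, 2), (1, 1)], [(3, 4)], none⟩,
     ⟨4, -2, [(0, 1), (0, 2), (0, 2)], [(3, 4)], none⟩,
     ⟨10, -6, [(0, 1), (0, 2), (0, 2)], [(2, 5)], none⟩,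
     ⟨0, 1, [(0, 1), (0, 2), (0, 2)], [(2, 4)], none⟩], 7, -1⟩,
  ⟨⟨7, 10, 5, 7⟩, 0, -3, 2, 0, [4, 1, 1, 2],
    [⟨10, -7, [(0, 2), (0, 3), (1, 2)], [(3, 5)], none⟩,
     ⟨3, -2, [(0, 2), (0, 3), (1, 2)], [(3, 4)], none⟩,
     ⟨2, -1, [(0, 2), (0, 2), (1, 1)], [(3, 4)], none⟩,
     ⟨1, 0, [(0, 1), (0, 2), (1, 1)], [(3, 4)], none⟩,
     ⟨4, -2, [(0, 1), (0, 2), (0, 2)], [(3, 4)], none⟩,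
     ⟨0, 1, [(0, 1), (0, 2), (0, 2)], [(2, 5)], none⟩], -3, 6⟩,
  ⟨⟨5, 7, 3, 4⟩, 0, -4, 2, 0, [4, 1, 1, 2],
    [⟨3, -2, [(0, 2), (0, 3), (1, 2)], [(3, 5)], none⟩,
     ⟨10, -7, [(0, 2), (0, 2), (1, 1)], [(3, 5)], none⟩,
     ⟨2, -1, [(0, 2), (0, 2), (1, 1)], [(3, 4)], none⟩,
     ⟨1, 0, [(0, 1), (0, 2), (1, 1)], [(3, 4)], none⟩,
     ⟨4, -2, [(0, 1), (0, 2), (0, 2)], [(3, 4)], none⟩,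
     ⟨0, 1, [(0, 1), (0, 2), (0, 2)], [(2, 5)], none⟩], -3, 6⟩,
  ⟨⟨3, 4, 7, 9⟩, 0, -4, 3, 0, [4, 1, 1, 2],
    [⟨4, -3, [(0, 2), (0, 3), (1, 2)], [(4, 4)], none⟩,
     ⟨3, -2, [(0, 2), (0, 3), (1, 2)], [(3, 5)], none⟩,
     ⟨2, -1, [(0, 2), (0, 2), (1, 1)], [(3, 5)], none⟩,
     ⟨10, -7, [(0, 1), (0, 2), (1, 1)], [(3, 5)], none⟩,
     ⟨1, 0, [(0, 1), (0, 2), (1, 1)], [(3, 4)], none⟩,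
     ⟨0, 1, [(0, 1), (0, 2), (0, 2)], [(3, 4)], none⟩], 17, -9⟩,
  ⟨⟨7, 9, 4, 5⟩, 0, -4, 3, 0, [4, 1, 1, 2],
    [⟨4, -3, [(0, 2), (0, 3), (1, 2)], [(4, 4)], none⟩,
     ⟨3, -2, [(0, 2), (0, 3), (1, 2)], [(3, 5)], none⟩,
     ⟨2, -1, [(0, 2), (0, 2), (1, 1)], [(3, 5)], none⟩,
     ⟨1, 0, [(0, 1), (0, 2), (1, 1)], [(3, 5)], none⟩,
     ⟨10, -7, [(0, 1), (0, 2), (0, 2)], [(3, 5)], none⟩,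
     ⟨0, 1, [(0, 1), (0, 2), (0, 2)], [(3, 4)], none⟩], 8, -2⟩,
  ⟨⟨4, 5, 5, 6⟩, 0, -4, 3, 0, [4, 1, 1, 2],
    [⟨10, -8, [(0, 2), (0, 3), (1, 2)], [(4, 5)], none⟩,
     ⟨4, -3, [(0, 2), (0, 3), (1, 2)], [(4, 4)], none⟩,
     ⟨3, -2, [(0, 2), (0, 3), (1, 2)], [(3, 5)], none⟩,
     ⟨2, -1, [(0, 2), (0, 2), (1, 1)], [(3, 5)], none⟩,
     ⟨1, 0, [(0, 1), (0, 2), (1, 1)], [(3, 5)], none⟩,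
     ⟨0, 1, [(0, 1), (0, 2), (0, 2)], [(3, 5)], none⟩], -2, 6⟩,
  ⟨⟨5, 6, 6, 7⟩, 0, -5, 3, 1, [5, 1, 1, 2],
    [⟨4, -3, [(0, 2), (0, 3), (1, 2)], [(4, 5)], none⟩,
     ⟨10, -8, [(0, 2), (0, 3), (1, 2)], [(3, 6)], none⟩,
     ⟨3, -2, [(0, 2), (0, 3), (1, 2)], [(3, 5)], none⟩,
     ⟨2, -1, [(0, 2), (0, 2), (1, 1)], [(3, 5)], none⟩,
     ⟨1, 0, [(0, 1), (0, 2), (1, 1)], [(3, 5)], none⟩,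
     ⟨0, 1, [(0, 1), (0, 2), (0, 2)], [(3, 5)], none⟩], 0, 1⟩,
  ⟨⟨6, 7, 7, 8⟩, 0, -6, 3, 1, [5, 1, 1, 2],
    [⟨4, -3, [(0, 2), (0, 3), (1, 2)], [(4, 5)], none⟩,
     ⟨3, -2, [(0, 2), (0, 3), (1, 2)], [(3, 6)], none⟩,
     ⟨10, -8, [(0, 2), (0, 2), (1, 1)], [(3, 6)], none⟩,
     ⟨2, -1, [(0, 2), (0, 2), (1, 1)], [(3, 5)], none⟩,
     ⟨1, 0, [(0, 1), (0, 2), (1, 1)], [(3, 5)], none⟩,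
     ⟨0, 1, [(0, 1), (0, 2), (0, 2)], [(3, 5)], none⟩], 0, 1⟩,
  ⟨⟨7, 8, 8, 9⟩, 0, -6, 3, 1, [5, 1, 1, 2],
    [⟨4, -3, [(0, 2), (0, 3), (1, 2)], [(4, 5)], none⟩,
     ⟨3, -2, [(0, 2), (0, 3), (1, 2)], [(3, 6)], none⟩,
     ⟨2, -1, [(0, 2), (0, 2), (1, 1)], [(3, 6)], none⟩,
     ⟨10, -8, [(0, 1), (0, 2), (1, 1)], [(3, 6)], none⟩,
     ⟨1, 0, [(0, 1), (0, 2), (1, 1)], [(3, 5)], none⟩,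
     ⟨0, 1, [(0, 1), (0, 2), (0, 2)], [(3, 5)], none⟩], 8, -6⟩,
  ⟨⟨8, 9, 9, 10⟩, 0, -6, 3, 1, [5, 1, 1, 2],
    [⟨4, -3, [(0, 2), (0, 3), (1, 2)], [(4, 5)], none⟩,
     ⟨3, -2, [(0, 2), (0, 3), (1, 2)], [(3, 6)], none⟩,
     ⟨2, -1, [(0, 2), (0, 2), (1, 1)], [(3, 6)], none⟩,
     ⟨1, 0, [(0, 1), (0, 2), (1, 1)], [(3, 6)], none⟩,
     ⟨10, -8, [(0, 1), (0, 2), (0, 2)], [(3, 6)], none⟩,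
     ⟨0, 1, [(0, 1), (0, 2), (0, 2)], [(3, 5)], none⟩], -1, 2⟩,
  ⟨⟨9, 10, 1, 1⟩, 0, -6, 3, 1, [5, 1, 1, 2],
    [⟨10, -9, [(0, 2), (0, 3), (1, 2)], [(4, 6)], none⟩,
     ⟨4, -3, [(0, 2), (0, 3), (1, 2)], [(4, 5)], none⟩,
     ⟨3, -2, [(0, 2), (0, 3), (1, 2)], [(3, 6)], none⟩,
     ⟨2, -1, [(0, 2), (0, 2), (1, 1)], [(3, 6)], none⟩,
     ⟨1, 0, [(0, 1), (0, 2), (1, 1)], [(3, 6)], none⟩,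
     ⟨0, 1, [(0, 1), (0, 2), (0, 2)], [(3, 6)], none⟩], -11, 11⟩,
  ⟨⟨1, 1, 11, 10⟩, 0, -6, 4, -1, [6, 2, 2, 3],
    [⟨1, -1, [(0, 3), (0, 4), (2, 2)], [(5, 6)], none⟩,
     ⟨2, -2, [(0, 3), (0, 4), (1, 3)], [(5, 6)], none⟩,
     ⟨3, -3, [(0, 2), (0, 4), (1, 3)], [(5, 6)], none⟩,
     ⟨4, -4, [(0, 2), (0, 3), (1, 2)], [(5, 6)], none⟩,
     ⟨10, -10, [(0, 2), (0, 3), (1, 2)], [(4, 7)], none⟩,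
     ⟨0, 1, [(0, 2), (0, 3), (1, 2)], [(4, 6)], none⟩], 11, -3⟩,
  ⟨⟨11, 10, 10, 9⟩, 0, -6, 4, -1, [6, 2, 2, 3],
    [⟨10, -11, [(0, 3), (0, 4), (2, 2)], [(5, 7)], none⟩,
     ⟨1, -1, [(0, 3), (0, 4), (2, 2)], [(5, 6)], none⟩,
     ⟨2, -2, [(0, 3), (0, 4), (1, 3)], [(5, 6)], none⟩,
     ⟨3, -3, [(0, 2), (0, 4), (1, 3)], [(5, 6)], none⟩,
     ⟨4, -4, [(0, 2), (0, 3), (1, 2)], [(5, 6)], none⟩,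
     ⟨0, 1, [(0, 2), (0, 3), (1, 2)], [(4, 7)], none⟩], 1, 8⟩,
  ⟨⟨10, 9, 9, 8⟩, 0, -6, 4, -1, [6, 2, 2, 3],
    [⟨1, -1, [(0, 3), (0, 4), (2, 2)], [(5, 7)], none⟩,
     ⟨10, -11, [(0, 3), (0, 4), (1, 3)], [(5, 7)], none⟩,
     ⟨2, -2, [(0, 3), (0, 4), (1, 3)], [(5, 6)], none⟩,
     ⟨3, -3, [(0, 2), (0, 4), (1, 3)], [(5, 6)], none⟩,
     ⟨4, -4, [(0, 2), (0, 3), (1, 2)], [(5, 6)], none⟩,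
     ⟨0, 1, [(0, 2), (0, 3), (1, 2)], [(4, 7)], none⟩], -8, 18⟩,
  ⟨⟨9, 8, 8, 7⟩, 0, -6, 4, -1, [6, 2, 2, 3],
    [⟨1, -1, [(0, 3), (0, 4), (2, 2)], [(5, 7)], none⟩,
     ⟨2, -2, [(0, 3), (0, 4), (1, 3)], [(5, 7)], none⟩,
     ⟨10, -11, [(0, 2), (0, 4), (1, 3)], [(5, 7)], none⟩,
     ⟨3, -3, [(0, 2), (0, 4), (1, 3)], [(5, 6)], none⟩,
     ⟨4, -4, [(0, 2), (0, 3), (1, 2)], [(5, 6)], none⟩,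
     ⟨0, 1, [(0, 2), (0, 3), (1, 2)], [(4, 7)], none⟩], 0, 9⟩,
  ⟨⟨8, 7, 7, 6⟩, 0, -7, 4, -1, [6, 2, 2, 3],
    [⟨1, -1, [(0, 3), (0, 4), (2, 2)], [(5, 7)], none⟩,
     ⟨2, -2, [(0, 3), (0, 4), (1, 3)], [(5, 7)], none⟩,
     ⟨3, -3, [(0, 2), (0, 4), (1, 3)], [(5, 7)], none⟩,
     ⟨10, -11, [(0, 2), (0, 3), (1, 2)], [(5, 7)], none⟩,
     ⟨4, -4, [(0, 2), (0, 3), (1, 2)], [(5, 6)], none⟩,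
     ⟨0, 1, [(0, 2), (0, 3), (1, 2)], [(4, 7)], none⟩], 0, 9⟩,
  ⟨⟨7, 6, 6, 5⟩, 0, -8, 4, 0, [7, 2, 2, 3],
    [⟨1, -1, [(0, 3), (0, 4), (2, 2)], [(5, 7)], none⟩,
     ⟨2, -2, [(0, 3), (0, 4), (1, 3)], [(5, 7)], none⟩,
     ⟨3, -3, [(0, 2), (0, 4), (1, 3)], [(5, 7)], none⟩,
     ⟨4, -4, [(0, 2), (0, 3), (1, 2)], [(5, 7)], none⟩,
     ⟨10, -11, [(0, 2), (0, 3), (1, 2)], [(4, 8)], none⟩,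
     ⟨0, 1, [(0, 2), (0, 3), (1, 2)], [(4, 7)], none⟩], 2, 2⟩,
  ⟨⟨6, 5, 11, 9⟩, 0, -8, 4, 0, [7, 2, 2, 3],
    [⟨10, -12, [(0, 3), (0, 4), (2, 2)], [(5, 8)], none⟩,
     ⟨1, -1, [(0, 3), (0, 4), (2, 2)], [(5, 7)], none⟩,
     ⟨2, -2, [(0, 3), (0, 4), (1, 3)], [(5, 7)], none⟩,
     ⟨3, -3, [(0, 2), (0, 4), (1, 3)], [(5, 7)], none⟩,
     ⟨4, -4, [(0, 2), (0, 3), (1, 2)], [(5, 7)], none⟩,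
     ⟨0, 1, [(0, 2), (0, 3), (1, 2)], [(4, 8)], none⟩], -8, 14⟩,
  ⟨⟨11, 9, 5, 4⟩, 0, -8, 4, 0, [7, 2, 2, 3],
    [⟨1, -1, [(0, 3), (0, 4), (2, 2)], [(5, 8)], none⟩,
     ⟨10, -12, [(0, 3), (0, 4), (1, 3)], [(5, 8)], none⟩,
     ⟨2, -2, [(0, 3), (0, 4), (1, 3)], [(5, 7)], none⟩,
     ⟨3, -3, [(0, 2), (0, 4), (1, 3)], [(5, 7)], none⟩,
     ⟨4, -4, [(0, 2), (0, 3), (1, 2)], [(5, 7)], none⟩,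
     ⟨0, 1, [(0, 2), (0, 3), (1, 2)], [(4, 8)], none⟩], -17, 25⟩,
  ⟨⟨5, 4, 9, 7⟩, 0, -8, 5, 0, [7, 2, 2, 3],
    [⟨4, -5, [(0, 3), (0, 4), (2, 2)], [(6, 7)], none⟩,
     ⟨1, -1, [(0, 3), (0, 4), (2, 2)], [(5, 8)], none⟩,
     ⟨2, -2, [(0, 3), (0, 4), (1, 3)], [(5, 8)], none⟩,
     ⟨10, -12, [(0, 2), (0, 4), (1, 3)], [(5, 8)], none⟩,
     ⟨3, -3, [(0, 2), (0, 4), (1, 3)], [(5, 7)], none⟩,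
     ⟨0, 1, [(0, 2), (0, 3), (1, 2)], [(5, 7)], none⟩], 3, 0⟩,
  ⟨⟨9, 7, 13, 10⟩, 0, -9, 5, 0, [7, 2, 2, 3],
    [⟨4, -5, [(0, 3), (0, 4), (2, 2)], [(6, 7)], none⟩,
     ⟨1, -1, [(0, 3), (0, 4), (2, 2)], [(5, 8)], none⟩,
     ⟨2, -2, [(0, 3), (0, 4), (1, 3)], [(5, 8)], none⟩,
     ⟨3, -3, [(0, 2), (0, 4), (1, 3)], [(5, 8)], none⟩,
     ⟨10, -12, [(0, 2), (0, 3), (1, 2)], [(5, 8)], none⟩,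
     ⟨0, 1, [(0, 2), (0, 3), (1, 2)], [(5, 7)], none⟩], 3, 0⟩,
  ⟨⟨13, 10, 4, 3⟩, 0, -9, 5, 0, [7, 2, 2, 3],
    [⟨10, -13, [(0, 3), (0, 4), (2, 2)], [(6, 8)], none⟩,
     ⟨4, -5, [(0, 3), (0, 4), (2, 2)], [(6, 7)], none⟩,
     ⟨1, -1, [(0, 3), (0, 4), (2, 2)], [(5, 8)], none⟩,
     ⟨2, -2, [(0, 3), (0, 4), (1, 3)], [(5, 8)], none⟩,
     ⟨3, -3, [(0, 2), (0, 4), (1, 3)], [(5, 8)], none⟩,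
     ⟨0, 1, [(0, 2), (0, 3), (1, 2)], [(5, 8)], none⟩], -7, 13⟩,
  ⟨⟨4, 3, 11, 8⟩, 0, -9, 5, 0, [8, 2, 2, 4],
    [⟨3, -4, [(0, 3), (0, 5), (2, 3)], [(6, 8)], none⟩,
     ⟨1, -1, [(0, 3), (0, 4), (2, 2)], [(6, 8)], none⟩,
     ⟨4, -5, [(0, 3), (0, 4), (1, 3)], [(6, 8)], none⟩,
     ⟨10, -13, [(0, 3), (0, 4), (1, 3)], [(5, 9)], none⟩,
     ⟨2, -2, [(0, 3), (0, 4), (1, 3)], [(5, 8)], none⟩,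
     ⟨0, 1, [(0, 2), (0, 4), (1, 3)], [(5, 8)], none⟩], -1, 5⟩,
  ⟨⟨11, 8, 7, 5⟩, 0, -9, 5, 0, [8, 2, 2, 4],
    [⟨3, -4, [(0, 3), (0, 5), (2, 3)], [(6, 8)], none⟩,
     ⟨1, -1, [(0, 3), (0, 4), (2, 2)], [(6, 8)], none⟩,
     ⟨4, -5, [(0, 3), (0, 4), (1, 3)], [(6, 8)], none⟩,
     ⟨2, -2, [(0, 3), (0, 4), (1, 3)], [(5, 9)], none⟩,
     ⟨10, -13, [(0, 2), (0, 4), (1, 3)], [(5, 9)], none⟩,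
     ⟨0, 1, [(0, 2), (0, 4), (1, 3)], [(5, 8)], none⟩], 7, -6⟩,
  ⟨⟨7, 5, 10, 7⟩, 0, -10, 5, 0, [8, 2, 2, 4],
    [⟨10, -14, [(0, 3), (0, 5), (2, 3)], [(6, 9)], none⟩,
     ⟨3, -4, [(0, 3), (0, 5), (2, 3)], [(6, 8)], none⟩,
     ⟨1, -1, [(0, 3), (0, 4), (2, 2)], [(6, 8)], none⟩,
     ⟨4, -5, [(0, 3), (0, 4), (1, 3)], [(6, 8)], none⟩,
     ⟨2, -2, [(0, 3), (0, 4), (1, 3)], [(5, 9)], none⟩,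
     ⟨0, 1, [(0, 2), (0, 4), (1, 3)], [(5, 9)], none⟩], -13, 22⟩,
  ⟨⟨10, 7, 13, 9⟩, 0, -10, 5, 0, [8, 2, 2, 4],
    [⟨3, -4, [(0, 3), (0, 5), (2, 3)], [(6, 9)], none⟩,
     ⟨10, -14, [(0, 3), (0, 4), (2, 2)], [(6, 9)], none⟩,
     ⟨1, -1, [(0, 3), (0, 4), (2, 2)], [(6, 8)], none⟩,
     ⟨4, -5, [(0, 3), (0, 4), (1, 3)], [(6, 8)], none⟩,
     ⟨2, -2, [(0, 3), (0, 4), (1, 3)], [(5, 9)], none⟩,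
     ⟨0, 1, [(0, 2), (0, 4), (1, 3)], [(5, 9)], none⟩], -6, 12⟩,
  ⟨⟨13, 9, 3, 2⟩, 0, -10, 5, 0, [8, 2, 2, 4],
    [⟨3, -4, [(0, 3), (0, 5), (2, 3)], [(6, 9)], none⟩,
     ⟨1, -1, [(0, 3), (0, 4), (2, 2)], [(6, 9)], none⟩,
     ⟨10, -14, [(0, 3), (0, 4), (1, 3)], [(6, 9)], none⟩,
     ⟨4, -5, [(0, 3), (0, 4), (1, 3)], [(6, 8)], none⟩,
     ⟨2, -2, [(0, 3), (0, 4), (1, 3)], [(5, 9)], none⟩,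
     ⟨0, 1, [(0, 2), (0, 4), (1, 3)], [(5, 9)], none⟩], -6, 12⟩,
  ⟨⟨3, 2, 14, 9⟩, 0, -10, 6, -1, [9, 3, 3, 4],
    [⟨2, -3, [(0, 4), (0, 5), (2, 3)], [(7, 9)], none⟩,
     ⟨4, -6, [(0, 3), (0, 5), (2, 3)], [(7, 9)], none⟩,
     ⟨10, -15, [(0, 3), (0, 5), (2, 3)], [(6, 10)], none⟩,
     ⟨1, -1, [(0, 3), (0, 5), (2, 3)], [(6, 9)], none⟩,
     ⟨3, -4, [(0, 3), (0, 5), (1, 4)], [(6, 9)], none⟩,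
     ⟨0, 1, [(0, 3), (0, 4), (1, 3)], [(6, 9)], none⟩], 2, 6⟩,
  ⟨⟨14, 9, 11, 7⟩, 0, -10, 6, -1, [9, 3, 3, 4],
    [⟨2, -3, [(0, 4), (0, 5), (2, 3)], [(7, 9)], none⟩,
     ⟨4, -6, [(0, 3), (0, 5), (2, 3)], [(7, 9)], none⟩,
     ⟨1, -1, [(0, 3), (0, 5), (2, 3)], [(6, 10)], none⟩,
     ⟨10, -15, [(0, 3), (0, 5), (1, 4)], [(6, 10)], none⟩,
     ⟨3, -4, [(0, 3), (0, 5), (1, 4)], [(6, 9)], none⟩,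
     ⟨0, 1, [(0, 3), (0, 4), (1, 3)], [(6, 9)], none⟩], 2, 6⟩,
  ⟨⟨11, 7, 8, 5⟩, 0, -10, 6, -1, [9, 3, 3, 4],
    [⟨2, -3, [(0, 4), (0, 5), (2, 3)], [(7, 9)], none⟩,
     ⟨4, -6, [(0, 3), (0, 5), (2, 3)], [(7, 9)], none⟩,
     ⟨1, -1, [(0, 3), (0, 5), (2, 3)], [(6, 10)], none⟩,
     ⟨3, -4, [(0, 3), (0, 5), (1, 4)], [(6, 10)], none⟩,
     ⟨10, -15, [(0, 3), (0, 4), (1, 3)], [(6, 10)], none⟩,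
     ⟨0, 1, [(0, 3), (0, 4), (1, 3)], [(6, 9)], none⟩], 9, -5⟩,
  ⟨⟨8, 5, 13, 8⟩, 0, -11, 6, -1, [9, 3, 3, 4],
    [⟨10, -16, [(0, 4), (0, 5), (2, 3)], [(7, 10)], none⟩,
     ⟨2, -3, [(0, 4), (0, 5), (2, 3)], [(7, 9)], none⟩,
     ⟨4, -6, [(0, 3), (0, 5), (2, 3)], [(7, 9)], none⟩,
     ⟨1, -1, [(0, 3), (0, 5), (2, 3)], [(6, 10)], none⟩,
     ⟨3, -4, [(0, 3), (0, 5), (1, 4)], [(6, 10)], none⟩,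
     ⟨0, 1, [(0, 3), (0, 4), (1, 3)], [(6, 10)], none⟩], -11, 27⟩,
  ⟨⟨13, 8, 5, 3⟩, 0, -11, 6, -1, [9, 3, 3, 4],
    [⟨2, -3, [(0, 4), (0, 5), (2, 3)], [(7, 10)], none⟩,
     ⟨10, -16, [(0, 3), (0, 5), (2, 3)], [(7, 10)], none⟩,
     ⟨4, -6, [(0, 3), (0, 5), (2, 3)], [(7, 9)], none⟩,
     ⟨1, -1, [(0, 3), (0, 5), (2, 3)], [(6, 10)], none⟩,
     ⟨3, -4, [(0, 3), (0, 5), (1, 4)], [(6, 10)], none⟩,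
     ⟨0, 1, [(0, 3), (0, 4), (1, 3)], [(6, 10)], none⟩], -3, 14⟩,
  ⟨⟨5, 3, 17, 10⟩, 0, -11, 6, -1, [10, 3, 3, 5],
    [⟨3, -5, [(0, 4), (0, 6), (2, 4)], [(7, 10)], none⟩,
     ⟨2, -3, [(0, 4), (0, 5), (2, 3)], [(7, 10)], none⟩,
     ⟨1, -1, [(0, 3), (0, 5), (2, 3)], [(7, 10)], none⟩,
     ⟨4, -6, [(0, 3), (0, 5), (1, 4)], [(7, 10)], none⟩,
     ⟨10, -16, [(0, 3), (0, 5), (1, 4)], [(6, 11)], none⟩,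
     ⟨0, 1, [(0, 3), (0, 5), (1, 4)], [(6, 10)], none⟩], 3, 4⟩,
  ⟨⟨17, 10, 12, 7⟩, 0, -11, 6, -1, [10, 3, 3, 5],
    [⟨10, -17, [(0, 4), (0, 6), (2, 4)], [(7, 11)], none⟩,
     ⟨3, -5, [(0, 4), (0, 6), (2, 4)], [(7, 10)], none⟩,
     ⟨2, -3, [(0, 4), (0, 5), (2, 3)], [(7, 10)], none⟩,
     ⟨1, -1, [(0, 3), (0, 5), (2, 3)], [(7, 10)], none⟩,
     ⟨4, -6, [(0, 3), (0, 5), (1, 4)], [(7, 10)], none⟩,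
     ⟨0, 1, [(0, 3), (0, 5), (1, 4)], [(6, 11)], none⟩], -7, 21⟩,
  ⟨⟨12, 7, 7, 4⟩, 0, -12, 6, -1, [10, 3, 3, 5],
    [⟨3, -5, [(0, 4), (0, 6), (2, 4)], [(7, 11)], none⟩,
     ⟨10, -17, [(0, 4), (0, 5), (2, 3)], [(7, 11)], none⟩,
     ⟨2, -3, [(0, 4), (0, 5), (2, 3)], [(7, 10)], none⟩,
     ⟨1, -1, [(0, 3), (0, 5), (2, 3)], [(7, 10)], none⟩,
     ⟨4, -6, [(0, 3), (0, 5), (1, 4)], [(7, 10)], none⟩,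
     ⟨0, 1, [(0, 3), (0, 5), (1, 4)], [(6, 11)], none⟩], -7, 21⟩,
  ⟨⟨7, 4, 16, 9⟩, 0, -12, 7, -1, [10, 3, 3, 5],
    [⟨4, -7, [(0, 4), (0, 6), (2, 4)], [(8, 10)], none⟩,
     ⟨3, -5, [(0, 4), (0, 6), (2, 4)], [(7, 11)], none⟩,
     ⟨2, -3, [(0, 4), (0, 5), (2, 3)], [(7, 11)], none⟩,
     ⟨10, -17, [(0, 3), (0, 5), (2, 3)], [(7, 11)], none⟩,
     ⟨1, -1, [(0, 3), (0, 5), (2, 3)], [(7, 10)], none⟩,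
     ⟨0, 1, [(0, 3), (0, 5), (1, 4)], [(7, 10)], none⟩], 13, -14⟩,
  ⟨⟨16, 9, 9, 5⟩, 0, -12, 7, -1, [10, 3, 3, 5],
    [⟨4, -7, [(0, 4), (0, 6), (2, 4)], [(8, 10)], none⟩,
     ⟨3, -5, [(0, 4), (0, 6), (2, 4)], [(7, 11)], none⟩,
     ⟨2, -3, [(0, 4), (0, 5), (2, 3)], [(7, 11)], none⟩,
     ⟨1, -1, [(0, 3), (0, 5), (2, 3)], [(7, 11)], none⟩,
     ⟨10, -17, [(0, 3), (0, 5), (1, 4)], [(7, 11)], none⟩,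
     ⟨0, 1, [(0, 3), (0, 5), (1, 4)], [(7, 10)], none⟩], 4, 2⟩,
  ⟨⟨9, 5, 11, 6⟩, 0, -12, 7, -1, [10, 3, 3, 5],
    [⟨10, -18, [(0, 4), (0, 6), (2, 4)], [(8, 11)], none⟩,
     ⟨4, -7, [(0, 4), (0, 6), (2, 4)], [(8, 10)], none⟩,
     ⟨3, -5, [(0, 4), (0, 6), (2, 4)], [(7, 11)], none⟩,
     ⟨2, -3, [(0, 4), (0, 5), (2, 3)], [(7, 11)], none⟩,
     ⟨1, -1, [(0, 3), (0, 5), (2, 3)], [(7, 11)], none⟩,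
     ⟨0, 1, [(0, 3), (0, 5), (1, 4)], [(7, 11)], none⟩], -6, 20⟩,
  ⟨⟨11, 6, 13, 7⟩, 0, -13, 7, 0, [11, 3, 3, 5],
    [⟨4, -7, [(0, 4), (0, 6), (2, 4)], [(8, 11)], none⟩,
     ⟨10, -18, [(0, 4), (0, 6), (2, 4)], [(7, 12)], none⟩,
     ⟨3, -5, [(0, 4), (0, 6), (2, 4)], [(7, 11)], none⟩,
     ⟨2, -3, [(0, 4), (0, 5), (2, 3)], [(7, 11)], none⟩,
     ⟨1, -1, [(0, 3), (0, 5), (2, 3)], [(7, 11)], none⟩,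
     ⟨0, 1, [(0, 3), (0, 5), (1, 4)], [(7, 11)], none⟩], -4, 9⟩,
  ⟨⟨13, 7, 15, 8⟩, 0, -14, 7, 0, [11, 3, 3, 5],
    [⟨4, -7, [(0, 4), (0, 6), (2, 4)], [(8, 11)], none⟩,
     ⟨3, -5, [(0, 4), (0, 6), (2, 4)], [(7, 12)], none⟩,
     ⟨10, -18, [(0, 4), (0, 5), (2, 3)], [(7, 12)], none⟩,
     ⟨2, -3, [(0, 4), (0, 5), (2, 3)], [(7, 11)], none⟩,
     ⟨1, -1, [(0, 3), (0, 5), (2, 3)], [(7, 11)], none⟩,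
     ⟨0, 1, [(0, 3), (0, 5), (1, 4)], [(7, 11)], none⟩], -4, 9⟩,
  ⟨⟨15, 8, 17, 9⟩, 0, -14, 7, 0, [11, 3, 3, 5],
    [⟨4, -7, [(0, 4), (0, 6), (2, 4)], [(8, 11)], none⟩,
     ⟨3, -5, [(0, 4), (0, 6), (2, 4)], [(7, 12)], none⟩,
     ⟨2, -3, [(0, 4), (0, 5), (2, 3)], [(7, 12)], none⟩,
     ⟨10, -18, [(0, 3), (0, 5), (2, 3)], [(7, 12)], none⟩,
     ⟨1, -1, [(0, 3), (0, 5), (2, 3)], [(7, 11)], none⟩,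
     ⟨0, 1, [(0, 3), (0, 5), (1, 4)], [(7, 11)], none⟩], 4, -6⟩,
  ⟨⟨17, 9, 19, 10⟩, 0, -14, 7, 0, [11, 3, 3, 5],
    [⟨4, -7, [(0, 4), (0, 6), (2, 4)], [(8, 11)], none⟩,
     ⟨3, -5, [(0, 4), (0, 6), (2, 4)], [(7, 12)], none⟩,
     ⟨2, -3, [(0, 4), (0, 5), (2, 3)], [(7, 12)], none⟩,
     ⟨1, -1, [(0, 3), (0, 5), (2, 3)], [(7, 12)], none⟩,
     ⟨10, -18, [(0, 3), (0, 5), (1, 4)], [(7, 12)], none⟩,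
     ⟨0, 1, [(0, 3), (0, 5), (1, 4)], [(7, 11)], none⟩], -5, 11⟩,
  ⟨⟨19, 10, 2, 1⟩, 0, -14, 7, 0, [11, 3, 3, 5],
    [⟨10, -19, [(0, 4), (0, 6), (2, 4)], [(8, 12)], none⟩,
     ⟨4, -7, [(0, 4), (0, 6), (2, 4)], [(8, 11)], none⟩,
     ⟨3, -5, [(0, 4), (0, 6), (2, 4)], [(7, 12)], none⟩,
     ⟨2, -3, [(0, 4), (0, 5), (2, 3)], [(7, 12)], none⟩,
     ⟨1, -1, [(0, 3), (0, 5), (2, 3)], [(7, 12)], none⟩,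
     ⟨0, 1, [(0, 3), (0, 5), (1, 4)], [(7, 12)], none⟩], -15, 30⟩,
  ⟨⟨2, 1, 21, 10⟩, 0, -14, 8, -2, [12, 4, 4, 6],
    [⟨1, -2, [(0, 5), (0, 7), (3, 4)], [(9, 12)], none⟩,
     ⟨2, -4, [(0, 5), (0, 7), (2, 5)], [(9, 12)], none⟩,
     ⟨3, -6, [(0, 4), (0, 7), (2, 5)], [(9, 12)], none⟩,
     ⟨4, -8, [(0, 4), (0, 6), (2, 4)], [(9, 12)], none⟩,
     ⟨10, -20, [(0, 4), (0, 6), (2, 4)], [(8, 13)], none⟩,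
     ⟨0, 1, [(0, 4), (0, 6), (2, 4)], [(8, 12)], none⟩], 7, 2⟩,
  ⟨⟨21, 10, 19, 9⟩, 0, -14, 8, -2, [12, 4, 4, 6],
    [⟨10, -21, [(0, 5), (0, 7), (3, 4)], [(9, 13)], none⟩,
     ⟨1, -2, [(0, 5), (0, 7), (3, 4)], [(9, 12)], none⟩,
     ⟨2, -4, [(0, 5), (0, 7), (2, 5)], [(9, 12)], none⟩,
     ⟨3, -6, [(0, 4), (0, 7), (2, 5)], [(9, 12)], none⟩,
     ⟨4, -8, [(0, 4), (0, 6), (2, 4)], [(9, 12)], none⟩,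
     ⟨0, 1, [(0, 4), (0, 6), (2, 4)], [(8, 13)], none⟩], -3, 23⟩,
  ⟨⟨19, 9, 17, 8⟩, 0, -14, 8, -2, [12, 4, 4, 6],
    [⟨1, -2, [(0, 5), (0, 7), (3, 4)], [(9, 13)], none⟩,
     ⟨10, -21, [(0, 5), (0, 7), (2, 5)], [(9, 13)], none⟩,
     ⟨2, -4, [(0, 5), (0, 7), (2, 5)], [(9, 12)], none⟩,
     ⟨3, -6, [(0, 4), (0, 7), (2, 5)], [(9, 12)], none⟩,
     ⟨4, -8, [(0, 4), (0, 6), (2, 4)], [(9, 12)], none⟩,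
     ⟨0, 1, [(0, 4), (0, 6), (2, 4)], [(8, 13)], none⟩], -12, 42⟩,
  ⟨⟨17, 8, 15, 7⟩, 0, -14, 8, -2, [12, 4, 4, 6],
    [⟨1, -2, [(0, 5), (0, 7), (3, 4)], [(9, 13)], none⟩,
     ⟨2, -4, [(0, 5), (0, 7), (2, 5)], [(9, 13)], none⟩,
     ⟨10, -21, [(0, 4), (0, 7), (2, 5)], [(9, 13)], none⟩,
     ⟨3, -6, [(0, 4), (0, 7), (2, 5)], [(9, 12)], none⟩,
     ⟨4, -8, [(0, 4), (0, 6), (2, 4)], [(9, 12)], none⟩,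
     ⟨0, 1, [(0, 4), (0, 6), (2, 4)], [(8, 13)], none⟩], -4, 25⟩,
  ⟨⟨15, 7, 13, 6⟩, 0, -15, 8, -2, [12, 4, 4, 6],
    [⟨1, -2, [(0, 5), (0, 7), (3, 4)], [(9, 13)], none⟩,
     ⟨2, -4, [(0, 5), (0, 7), (2, 5)], [(9, 13)], none⟩,
     ⟨3, -6, [(0, 4), (0, 7), (2, 5)], [(9, 13)], none⟩,
     ⟨10, -21, [(0, 4), (0, 6), (2, 4)], [(9, 13)], none⟩,
     ⟨4, -8, [(0, 4), (0, 6), (2, 4)], [(9, 12)], none⟩,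
     ⟨0, 1, [(0, 4), (0, 6), (2, 4)], [(8, 13)], none⟩], -4, 25⟩,
  ⟨⟨13, 6, 11, 5⟩, 0, -16, 8, -1, [13, 4, 4, 6],
    [⟨1, -2, [(0, 5), (0, 7), (3, 4)], [(9, 13)], none⟩,
     ⟨2, -4, [(0, 5), (0, 7), (2, 5)], [(9, 13)], none⟩,
     ⟨3, -6, [(0, 4), (0, 7), (2, 5)], [(9, 13)], none⟩,
     ⟨4, -8, [(0, 4), (0, 6), (2, 4)], [(9, 13)], none⟩,
     ⟨10, -21, [(0, 4), (0, 6), (2, 4)], [(8, 14)], none⟩,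
     ⟨0, 1, [(0, 4), (0, 6), (2, 4)], [(8, 13)], none⟩], -2, 12⟩,
  ⟨⟨11, 5, 20, 9⟩, 0, -16, 8, -1, [13, 4, 4, 6],
    [⟨10, -22, [(0, 5), (0, 7), (3, 4)], [(9, 14)], none⟩,
     ⟨1, -2, [(0, 5), (0, 7), (3, 4)], [(9, 13)], none⟩,
     ⟨2, -4, [(0, 5), (0, 7), (2, 5)], [(9, 13)], none⟩,
     ⟨3, -6, [(0, 4), (0, 7), (2, 5)], [(9, 13)], none⟩,
     ⟨4, -8, [(0, 4), (0, 6), (2, 4)], [(9, 13)], none⟩,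
     ⟨0, 1, [(0, 4), (0, 6), (2, 4)], [(8, 14)], none⟩], -12, 34⟩,
  ⟨⟨20, 9, 9, 4⟩, 0, -16, 8, -1, [13, 4, 4, 6],
    [⟨1, -2, [(0, 5), (0, 7), (3, 4)], [(9, 14)], none⟩,
     ⟨10, -22, [(0, 5), (0, 7), (2, 5)], [(9, 14)], none⟩,
     ⟨2, -4, [(0, 5), (0, 7), (2, 5)], [(9, 13)], none⟩,
     ⟨3, -6, [(0, 4), (0, 7), (2, 5)], [(9, 13)], none⟩,
     ⟨4, -8, [(0, 4), (0, 6), (2, 4)], [(9, 13)], none⟩,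
     ⟨0, 1, [(0, 4), (0, 6), (2, 4)], [(8, 14)], none⟩], -21, 54⟩,
  ⟨⟨9, 4, 16, 7⟩, 0, -16, 9, -1, [13, 4, 4, 6],
    [⟨4, -9, [(0, 5), (0, 7), (3, 4)], [(10, 13)], none⟩,
     ⟨1, -2, [(0, 5), (0, 7), (3, 4)], [(9, 14)], none⟩,
     ⟨2, -4, [(0, 5), (0, 7), (2, 5)], [(9, 14)], none⟩,
     ⟨10, -22, [(0, 4), (0, 7), (2, 5)], [(9, 14)], none⟩,
     ⟨3, -6, [(0, 4), (0, 7), (2, 5)], [(9, 13)], none⟩,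
     ⟨0, 1, [(0, 4), (0, 6), (2, 4)], [(9, 13)], none⟩], -1, 9⟩,
  ⟨⟨16, 7, 23, 10⟩, 0, -17, 9, -1, [13, 4, 4, 6],
    [⟨4, -9, [(0, 5), (0, 7), (3, 4)], [(10, 13)], none⟩,
     ⟨1, -2, [(0, 5), (0, 7), (3, 4)], [(9, 14)], none⟩,
     ⟨2, -4, [(0, 5), (0, 7), (2, 5)], [(9, 14)], none⟩,
     ⟨3, -6, [(0, 4), (0, 7), (2, 5)], [(9, 14)], none⟩,
     ⟨10, -22, [(0, 4), (0, 6), (2, 4)], [(9, 14)], none⟩,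
     ⟨0, 1, [(0, 4), (0, 6), (2, 4)], [(9, 13)], none⟩], -1, 9⟩,
  ⟨⟨23, 10, 7, 3⟩, 0, -17, 9, -1, [13, 4, 4, 6],
    [⟨10, -23, [(0, 5), (0, 7), (3, 4)], [(10, 14)], none⟩,
     ⟨4, -9, [(0, 5), (0, 7), (3, 4)], [(10, 13)], none⟩,
     ⟨1, -2, [(0, 5), (0, 7), (3, 4)], [(9, 14)], none⟩,
     ⟨2, -4, [(0, 5), (0, 7), (2, 5)], [(9, 14)], none⟩,
     ⟨3, -6, [(0, 4), (0, 7), (2, 5)], [(9, 14)], none⟩,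
     ⟨0, 1, [(0, 4), (0, 6), (2, 4)], [(9, 14)], none⟩], -11, 32⟩,
  ⟨⟨7, 3, 19, 8⟩, 0, -17, 9, -1, [14, 4, 4, 7],
    [⟨3, -7, [(0, 5), (0, 8), (3, 5)], [(10, 14)], none⟩,
     ⟨1, -2, [(0, 5), (0, 7), (3, 4)], [(10, 14)], none⟩,
     ⟨4, -9, [(0, 5), (0, 7), (2, 5)], [(10, 14)], none⟩,
     ⟨10, -23, [(0, 5), (0, 7), (2, 5)], [(9, 15)], none⟩,
     ⟨2, -4, [(0, 5), (0, 7), (2, 5)], [(9, 14)], none⟩,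
     ⟨0, 1, [(0, 4), (0, 7), (2, 5)], [(9, 14)], none⟩], -5, 18⟩,
  ⟨⟨19, 8, 12, 5⟩, 0, -17, 9, -1, [14, 4, 4, 7],
    [⟨3, -7, [(0, 5), (0, 8), (3, 5)], [(10, 14)], none⟩,
     ⟨1, -2, [(0, 5), (0, 7), (3, 4)], [(10, 14)], none⟩,
     ⟨4, -9, [(0, 5), (0, 7), (2, 5)], [(10, 14)], none⟩,
     ⟨2, -4, [(0, 5), (0, 7), (2, 5)], [(9, 15)], none⟩,
     ⟨10, -23, [(0, 4), (0, 7), (2, 5)], [(9, 15)], none⟩,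
     ⟨0, 1, [(0, 4), (0, 7), (2, 5)], [(9, 14)], none⟩], 3, -1⟩,
  ⟨⟨12, 5, 17, 7⟩, 0, -18, 9, -1, [14, 4, 4, 7],
    [⟨10, -24, [(0, 5), (0, 8), (3, 5)], [(10, 15)], none⟩,
     ⟨3, -7, [(0, 5), (0, 8), (3, 5)], [(10, 14)], none⟩,
     ⟨1, -2, [(0, 5), (0, 7), (3, 4)], [(10, 14)], none⟩,
     ⟨4, -9, [(0, 5), (0, 7), (2, 5)], [(10, 14)], none⟩,
     ⟨2, -4, [(0, 5), (0, 7), (2, 5)], [(9, 15)], none⟩,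
     ⟨0, 1, [(0, 4), (0, 7), (2, 5)], [(9, 15)], none⟩], -17, 47⟩,
  ⟨⟨17, 7, 22, 9⟩, 0, -18, 9, -1, [14, 4, 4, 7],
    [⟨3, -7, [(0, 5), (0, 8), (3, 5)], [(10, 15)], none⟩,
     ⟨10, -24, [(0, 5), (0, 7), (3, 4)], [(10, 15)], none⟩,
     ⟨1, -2, [(0, 5), (0, 7), (3, 4)], [(10, 14)], none⟩,
     ⟨4, -9, [(0, 5), (0, 7), (2, 5)], [(10, 14)], none⟩,
     ⟨2, -4, [(0, 5), (0, 7), (2, 5)], [(9, 15)], none⟩,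
     ⟨0, 1, [(0, 4), (0, 7), (2, 5)], [(9, 15)], none⟩], -10, 30⟩,
  ⟨⟨22, 9, 5, 2⟩, 0, -18, 9, -1, [14, 4, 4, 7],
    [⟨3, -7, [(0, 5), (0, 8), (3, 5)], [(10, 15)], none⟩,
     ⟨1, -2, [(0, 5), (0, 7), (3, 4)], [(10, 15)], none⟩,
     ⟨10, -24, [(0, 5), (0, 7), (2, 5)], [(10, 15)], none⟩,
     ⟨4, -9, [(0, 5), (0, 7), (2, 5)], [(10, 14)], none⟩,
     ⟨2, -4, [(0, 5), (0, 7), (2, 5)], [(9, 15)], none⟩,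
     ⟨0, 1, [(0, 4), (0, 7), (2, 5)], [(9, 15)], none⟩], -10, 30⟩,
  ⟨⟨5, 2, 23, 9⟩, 0, -18, 10, -2, [15, 5, 5, 7],
    [⟨2, -5, [(0, 6), (0, 8), (3, 5)], [(11, 15)], none⟩,
     ⟨4, -10, [(0, 5), (0, 8), (3, 5)], [(11, 15)], none⟩,
     ⟨10, -25, [(0, 5), (0, 8), (3, 5)], [(10, 16)], none⟩,
     ⟨1, -2, [(0, 5), (0, 8), (3, 5)], [(10, 15)], none⟩,
     ⟨3, -7, [(0, 5), (0, 8), (2, 6)], [(10, 15)], none⟩,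
     ⟨0, 1, [(0, 5), (0, 7), (2, 5)], [(10, 15)], none⟩], -2, 20⟩,
  ⟨⟨23, 9, 18, 7⟩, 0, -18, 10, -2, [15, 5, 5, 7],
    [⟨2, -5, [(0, 6), (0, 8), (3, 5)], [(11, 15)], none⟩,
     ⟨4, -10, [(0, 5), (0, 8), (3, 5)], [(11, 15)], none⟩,
     ⟨1, -2, [(0, 5), (0, 8), (3, 5)], [(10, 16)], none⟩,
     ⟨10, -25, [(0, 5), (0, 8), (2, 6)], [(10, 16)], none⟩,
     ⟨3, -7, [(0, 5), (0, 8), (2, 6)], [(10, 15)], none⟩,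
     ⟨0, 1, [(0, 5), (0, 7), (2, 5)], [(10, 15)], none⟩], -2, 20⟩,
  ⟨⟨18, 7, 13, 5⟩, 0, -18, 10, -2, [15, 5, 5, 7],
    [⟨2, -5, [(0, 6), (0, 8), (3, 5)], [(11, 15)], none⟩,
     ⟨4, -10, [(0, 5), (0, 8), (3, 5)], [(11, 15)], none⟩,
     ⟨1, -2, [(0, 5), (0, 8), (3, 5)], [(10, 16)], none⟩,
     ⟨3, -7, [(0, 5), (0, 8), (2, 6)], [(10, 16)], none⟩,
     ⟨10, -25, [(0, 5), (0, 7), (2, 5)], [(10, 16)], none⟩,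
     ⟨0, 1, [(0, 5), (0, 7), (2, 5)], [(10, 15)], none⟩], 5, 2⟩,
  ⟨⟨13, 5, 21, 8⟩, 0, -19, 10, -2, [15, 5, 5, 7],
    [⟨10, -26, [(0, 6), (0, 8), (3, 5)], [(11, 16)], none⟩,
     ⟨2, -5, [(0, 6), (0, 8), (3, 5)], [(11, 15)], none⟩,
     ⟨4, -10, [(0, 5), (0, 8), (3, 5)], [(11, 15)], none⟩,
     ⟨1, -2, [(0, 5), (0, 8), (3, 5)], [(10, 16)], none⟩,
     ⟨3, -7, [(0, 5), (0, 8), (2, 6)], [(10, 16)], none⟩,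
     ⟨0, 1, [(0, 5), (0, 7), (2, 5)], [(10, 16)], none⟩], -15, 54⟩,
  ⟨⟨21, 8, 8, 3⟩, 0, -19, 10, -2, [15, 5, 5, 7],
    [⟨2, -5, [(0, 6), (0, 8), (3, 5)], [(11, 16)], none⟩,
     ⟨10, -26, [(0, 5), (0, 8), (3, 5)], [(11, 16)], none⟩,
     ⟨4, -10, [(0, 5), (0, 8), (3, 5)], [(11, 15)], none⟩,
     ⟨1, -2, [(0, 5), (0, 8), (3, 5)], [(10, 16)], none⟩,
     ⟨3, -7, [(0, 5), (0, 8), (2, 6)], [(10, 16)], none⟩,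
     ⟨0, 1, [(0, 5), (0, 7), (2, 5)], [(10, 16)], none⟩], -7, 33⟩,
  ⟨⟨8, 3, 27, 10⟩, 0, -19, 10, -2, [16, 5, 5, 8],
    [⟨3, -8, [(0, 6), (0, 9), (3, 6)], [(11, 16)], none⟩,
     ⟨2, -5, [(0, 6), (0, 8), (3, 5)], [(11, 16)], none⟩,
     ⟨1, -2, [(0, 5), (0, 8), (3, 5)], [(11, 16)], none⟩,
     ⟨4, -10, [(0, 5), (0, 8), (2, 6)], [(11, 16)], none⟩,
     ⟨10, -26, [(0, 5), (0, 8), (2, 6)], [(10, 17)], none⟩,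
     ⟨0, 1, [(0, 5), (0, 8), (2, 6)], [(10, 16)], none⟩], -1, 17⟩,
  ⟨⟨27, 10, 19, 7⟩, 0, -19, 10, -2, [16, 5, 5, 8],
    [⟨10, -27, [(0, 6), (0, 9), (3, 6)], [(11, 17)], none⟩,
     ⟨3, -8, [(0, 6), (0, 9), (3, 6)], [(11, 16)], none⟩,
     ⟨2, -5, [(0, 6), (0, 8), (3, 5)], [(11, 16)], none⟩,
     ⟨1, -2, [(0, 5), (0, 8), (3, 5)], [(11, 16)], none⟩,
     ⟨4, -10, [(0, 5), (0, 8), (2, 6)], [(11, 16)], none⟩,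
     ⟨0, 1, [(0, 5), (0, 8), (2, 6)], [(10, 17)], none⟩], -11, 44⟩,
  ⟨⟨19, 7, 11, 4⟩, 0, -20, 10, -2, [16, 5, 5, 8],
    [⟨3, -8, [(0, 6), (0, 9), (3, 6)], [(11, 17)], none⟩,
     ⟨10, -27, [(0, 6), (0, 8), (3, 5)], [(11, 17)], none⟩,
     ⟨2, -5, [(0, 6), (0, 8), (3, 5)], [(11, 16)], none⟩,
     ⟨1, -2, [(0, 5), (0, 8), (3, 5)], [(11, 16)], none⟩,
     ⟨4, -10, [(0, 5), (0, 8), (2, 6)], [(11, 16)], none⟩,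
     ⟨0, 1, [(0, 5), (0, 8), (2, 6)], [(10, 17)], none⟩], -11, 44⟩,
  ⟨⟨11, 4, 25, 9⟩, 0, -20, 11, -2, [16, 5, 5, 8],
    [⟨4, -11, [(0, 6), (0, 9), (3, 6)], [(12, 16)], none⟩,
     ⟨3, -8, [(0, 6), (0, 9), (3, 6)], [(11, 17)], none⟩,
     ⟨2, -5, [(0, 6), (0, 8), (3, 5)], [(11, 17)], none⟩,
     ⟨10, -27, [(0, 5), (0, 8), (3, 5)], [(11, 17)], none⟩,
     ⟨1, -2, [(0, 5), (0, 8), (3, 5)], [(11, 16)], none⟩,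
     ⟨0, 1, [(0, 5), (0, 8), (2, 6)], [(11, 16)], none⟩], 9, -11⟩,
  ⟨⟨25, 9, 14, 5⟩, 0, -20, 11, -2, [16, 5, 5, 8],
    [⟨4, -11, [(0, 6), (0, 9), (3, 6)], [(12, 16)], none⟩,
     ⟨3, -8, [(0, 6), (0, 9), (3, 6)], [(11, 17)], none⟩,
     ⟨2, -5, [(0, 6), (0, 8), (3, 5)], [(11, 17)], none⟩,
     ⟨1, -2, [(0, 5), (0, 8), (3, 5)], [(11, 17)], none⟩,
     ⟨10, -27, [(0, 5), (0, 8), (2, 6)], [(11, 17)], none⟩,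
     ⟨0, 1, [(0, 5), (0, 8), (2, 6)], [(11, 16)], none⟩], 0, 14⟩,
  ⟨⟨14, 5, 17, 6⟩, 0, -20, 11, -2, [16, 5, 5, 8],
    [⟨10, -28, [(0, 6), (0, 9), (3, 6)], [(12, 17)], none⟩,
     ⟨4, -11, [(0, 6), (0, 9), (3, 6)], [(12, 16)], none⟩,
     ⟨3, -8, [(0, 6), (0, 9), (3, 6)], [(11, 17)], none⟩,
     ⟨2, -5, [(0, 6), (0, 8), (3, 5)], [(11, 17)], none⟩,
     ⟨1, -2, [(0, 5), (0, 8), (3, 5)], [(11, 17)], none⟩,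
     ⟨0, 1, [(0, 5), (0, 8), (2, 6)], [(11, 17)], none⟩], -10, 42⟩,
  ⟨⟨17, 6, 20, 7⟩, 0, -21, 11, -1, [17, 5, 5, 8],
    [⟨4, -11, [(0, 6), (0, 9), (3, 6)], [(12, 17)], none⟩,
     ⟨10, -28, [(0, 6), (0, 9), (3, 6)], [(11, 18)], none⟩,
     ⟨3, -8, [(0, 6), (0, 9), (3, 6)], [(11, 17)], none⟩,
     ⟨2, -5, [(0, 6), (0, 8), (3, 5)], [(11, 17)], none⟩,
     ⟨1, -2, [(0, 5), (0, 8), (3, 5)], [(11, 17)], none⟩,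
     ⟨0, 1, [(0, 5), (0, 8), (2, 6)], [(11, 17)], none⟩], -8, 25⟩,
  ⟨⟨20, 7, 23, 8⟩, 0, -22, 11, -1, [17, 5, 5, 8],
    [⟨4, -11, [(0, 6), (0, 9), (3, 6)], [(12, 17)], none⟩,
     ⟨3, -8, [(0, 6), (0, 9), (3, 6)], [(11, 18)], none⟩,
     ⟨10, -28, [(0, 6), (0, 8), (3, 5)], [(11, 18)], none⟩,
     ⟨2, -5, [(0, 6), (0, 8), (3, 5)], [(11, 17)], none⟩,
     ⟨1, -2, [(0, 5), (0, 8), (3, 5)], [(11, 17)], none⟩,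
     ⟨0, 1, [(0, 5), (0, 8), (2, 6)], [(11, 17)], none⟩], -8, 25⟩,
  ⟨⟨23, 8, 26, 9⟩, 0, -22, 11, -1, [17, 5, 5, 8],
    [⟨4, -11, [(0, 6), (0, 9), (3, 6)], [(12, 17)], none⟩,
     ⟨3, -8, [(0, 6), (0, 9), (3, 6)], [(11, 18)], none⟩,
     ⟨2, -5, [(0, 6), (0, 8), (3, 5)], [(11, 18)], none⟩,
     ⟨10, -28, [(0, 5), (0, 8), (3, 5)], [(11, 18)], none⟩,
     ⟨1, -2, [(0, 5), (0, 8), (3, 5)], [(11, 17)], none⟩,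
     ⟨0, 1, [(0, 5), (0, 8), (2, 6)], [(11, 17)], none⟩], 0, 2⟩,
  ⟨⟨26, 9, 29, 10⟩, 0, -22, 11, -1, [17, 5, 5, 8],
    [⟨4, -11, [(0, 6), (0, 9), (3, 6)], [(12, 17)], none⟩,
     ⟨3, -8, [(0, 6), (0, 9), (3, 6)], [(11, 18)], none⟩,
     ⟨2, -5, [(0, 6), (0, 8), (3, 5)], [(11, 18)], none⟩,
     ⟨1, -2, [(0, 5), (0, 8), (3, 5)], [(11, 18)], none⟩,
     ⟨10, -28, [(0, 5), (0, 8), (2, 6)], [(11, 18)], none⟩,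
     ⟨0, 1, [(0, 5), (0, 8), (2, 6)], [(11, 17)], none⟩], -9, 28⟩,
  ⟨⟨29, 10, 3, 1⟩, 0, -22, 11, -1, [17, 5, 5, 8],
    [⟨10, -29, [(0, 6), (0, 9), (3, 6)], [(12, 18)], none⟩,
     ⟨4, -11, [(0, 6), (0, 9), (3, 6)], [(12, 17)], none⟩,
     ⟨3, -8, [(0, 6), (0, 9), (3, 6)], [(11, 18)], none⟩,
     ⟨2, -5, [(0, 6), (0, 8), (3, 5)], [(11, 18)], none⟩,
     ⟨1, -2, [(0, 5), (0, 8), (3, 5)], [(11, 18)], none⟩,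
     ⟨0, 1, [(0, 5), (0, 8), (2, 6)], [(11, 18)], none⟩], -19, 57⟩,
  ⟨⟨3, 1, 31, 10⟩, 0, -22, 12, -3, [18, 6, 6, 9],
    [⟨1, -3, [(0, 7), (0, 10), (4, 6)], [(13, 18)], none⟩,
     ⟨2, -6, [(0, 7), (0, 10), (3, 7)], [(13, 18)], none⟩,
     ⟨3, -9, [(0, 6), (0, 10), (3, 7)], [(13, 18)], none⟩,
     ⟨4, -12, [(0, 6), (0, 9), (3, 6)], [(13, 18)], none⟩,
     ⟨10, -30, [(0, 6), (0, 9), (3, 6)], [(12, 19)], none⟩,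
     ⟨0, 1, [(0, 6), (0, 9), (3, 6)], [(12, 18)], none⟩], 3, 15⟩,
  ⟨⟨31, 10, 28, 9⟩, 0, -22, 12, -3, [18, 6, 6, 9],
    [⟨10, -31, [(0, 7), (0, 10), (4, 6)], [(13, 19)], none⟩,
     ⟨1, -3, [(0, 7), (0, 10), (4, 6)], [(13, 18)], none⟩,
     ⟨2, -6, [(0, 7), (0, 10), (3, 7)], [(13, 18)], none⟩,
     ⟨3, -9, [(0, 6), (0, 10), (3, 7)], [(13, 18)], none⟩,
     ⟨4, -12, [(0, 6), (0, 9), (3, 6)], [(13, 18)], none⟩,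
     ⟨0, 1, [(0, 6), (0, 9), (3, 6)], [(12, 19)], none⟩], -7, 46⟩,
  ⟨⟨28, 9, 25, 8⟩, 0, -22, 12, -3, [18, 6, 6, 9],
    [⟨1, -3, [(0, 7), (0, 10), (4, 6)], [(13, 19)], none⟩,
     ⟨10, -31, [(0, 7), (0, 10), (3, 7)], [(13, 19)], none⟩,
     ⟨2, -6, [(0, 7), (0, 10), (3, 7)], [(13, 18)], none⟩,
     ⟨3, -9, [(0, 6), (0, 10), (3, 7)], [(13, 18)], none⟩,
     ⟨4, -12, [(0, 6), (0, 9), (3, 6)], [(13, 18)], none⟩,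
     ⟨0, 1, [(0, 6), (0, 9), (3, 6)], [(12, 19)], none⟩], -16, 74⟩,
  ⟨⟨25, 8, 22, 7⟩, 0, -22, 12, -3, [18, 6, 6, 9],
    [⟨1, -3, [(0, 7), (0, 10), (4, 6)], [(13, 19)], none⟩,
     ⟨2, -6, [(0, 7), (0, 10), (3, 7)], [(13, 19)], none⟩,
     ⟨10, -31, [(0, 6), (0, 10), (3, 7)], [(13, 19)], none⟩,
     ⟨3, -9, [(0, 6), (0, 10), (3, 7)], [(13, 18)], none⟩,
     ⟨4, -12, [(0, 6), (0, 9), (3, 6)], [(13, 18)], none⟩,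
     ⟨0, 1, [(0, 6), (0, 9), (3, 6)], [(12, 19)], none⟩], -8, 49⟩,
  ⟨⟨22, 7, 19, 6⟩, 0, -23, 12, -3, [18, 6, 6, 9],
    [⟨1, -3, [(0, 7), (0, 10), (4, 6)], [(13, 19)], none⟩,
     ⟨2, -6, [(0, 7), (0, 10), (3, 7)], [(13, 19)], none⟩,
     ⟨3, -9, [(0, 6), (0, 10), (3, 7)], [(13, 19)], none⟩,
     ⟨10, -31, [(0, 6), (0, 9), (3, 6)], [(13, 19)], none⟩,
     ⟨4, -12, [(0, 6), (0, 9), (3, 6)], [(13, 18)], none⟩,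
     ⟨0, 1, [(0, 6), (0, 9), (3, 6)], [(12, 19)], none⟩], -8, 49⟩,
  ⟨⟨19, 6, 16, 5⟩, 0, -24, 12, -2, [19, 6, 6, 9],
    [⟨1, -3, [(0, 7), (0, 10), (4, 6)], [(13, 19)], none⟩,
     ⟨2, -6, [(0, 7), (0, 10), (3, 7)], [(13, 19)], none⟩,
     ⟨3, -9, [(0, 6), (0, 10), (3, 7)], [(13, 19)], none⟩,
     ⟨4, -12, [(0, 6), (0, 9), (3, 6)], [(13, 19)], none⟩,
     ⟨10, -31, [(0, 6), (0, 9), (3, 6)], [(12, 20)], none⟩,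
     ⟨0, 1, [(0, 6), (0, 9), (3, 6)], [(12, 19)], none⟩], -6, 30⟩,
  ⟨⟨16, 5, 29, 9⟩, 0, -24, 12, -2, [19, 6, 6, 9],
    [⟨10, -32, [(0, 7), (0, 10), (4, 6)], [(13, 20)], none⟩,
     ⟨1, -3, [(0, 7), (0, 10), (4, 6)], [(13, 19)], none⟩,
     ⟨2, -6, [(0, 7), (0, 10), (3, 7)], [(13, 19)], none⟩,
     ⟨3, -9, [(0, 6), (0, 10), (3, 7)], [(13, 19)], none⟩,
     ⟨4, -12, [(0, 6), (0, 9), (3, 6)], [(13, 19)], none⟩,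
     ⟨0, 1, [(0, 6), (0, 9), (3, 6)], [(12, 20)], none⟩], -16, 62⟩,
  ⟨⟨29, 9, 13, 4⟩, 0, -24, 12, -2, [19, 6, 6, 9],
    [⟨1, -3, [(0, 7), (0, 10), (4, 6)], [(13, 20)], none⟩,
     ⟨10, -32, [(0, 7), (0, 10), (3, 7)], [(13, 20)], none⟩,
     ⟨2, -6, [(0, 7), (0, 10), (3, 7)], [(13, 19)], none⟩,
     ⟨3, -9, [(0, 6), (0, 10), (3, 7)], [(13, 19)], none⟩,
     ⟨4, -12, [(0, 6), (0, 9), (3, 6)], [(13, 19)], none⟩,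
     ⟨0, 1, [(0, 6), (0, 9), (3, 6)], [(12, 20)], none⟩], -25, 91⟩,
  ⟨⟨13, 4, 23, 7⟩, 0, -24, 13, -2, [19, 6, 6, 9],
    [⟨4, -13, [(0, 7), (0, 10), (4, 6)], [(14, 19)], none⟩,
     ⟨1, -3, [(0, 7), (0, 10), (4, 6)], [(13, 20)], none⟩,
     ⟨2, -6, [(0, 7), (0, 10), (3, 7)], [(13, 20)], none⟩,
     ⟨10, -32, [(0, 6), (0, 10), (3, 7)], [(13, 20)], none⟩,
     ⟨3, -9, [(0, 6), (0, 10), (3, 7)], [(13, 19)], none⟩,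
     ⟨0, 1, [(0, 6), (0, 9), (3, 6)], [(13, 19)], none⟩], -5, 26⟩,
  ⟨⟨23, 7, 33, 10⟩, 0, -25, 13, -2, [19, 6, 6, 9],
    [⟨4, -13, [(0, 7), (0, 10), (4, 6)], [(14, 19)], none⟩,
     ⟨1, -3, [(0, 7), (0, 10), (4, 6)], [(13, 20)], none⟩,
     ⟨2, -6, [(0, 7), (0, 10), (3, 7)], [(13, 20)], none⟩,
     ⟨3, -9, [(0, 6), (0, 10), (3, 7)], [(13, 20)], none⟩,
     ⟨10, -32, [(0, 6), (0, 9), (3, 6)], [(13, 20)], none⟩,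
     ⟨0, 1, [(0, 6), (0, 9), (3, 6)], [(13, 19)], none⟩], -5, 26⟩,
  ⟨⟨33, 10, 10, 3⟩, 0, -25, 13, -2, [19, 6, 6, 9],
    [⟨10, -33, [(0, 7), (0, 10), (4, 6)], [(14, 20)], none⟩,
     ⟨4, -13, [(0, 7), (0, 10), (4, 6)], [(14, 19)], none⟩,
     ⟨1, -3, [(0, 7), (0, 10), (4, 6)], [(13, 20)], none⟩,
     ⟨2, -6, [(0, 7), (0, 10), (3, 7)], [(13, 20)], none⟩,
     ⟨3, -9, [(0, 6), (0, 10), (3, 7)], [(13, 20)], none⟩,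
     ⟨0, 1, [(0, 6), (0, 9), (3, 6)], [(13, 20)], none⟩], -15, 59⟩,
  ⟨⟨10, 3, 27, 8⟩, 0, -25, 13, -2, [20, 6, 6, 10],
    [⟨3, -10, [(0, 7), (0, 11), (4, 7)], [(14, 20)], none⟩,
     ⟨1, -3, [(0, 7), (0, 10), (4, 6)], [(14, 20)], none⟩,
     ⟨4, -13, [(0, 7), (0, 10), (3, 7)], [(14, 20)], none⟩,
     ⟨10, -33, [(0, 7), (0, 10), (3, 7)], [(13, 21)], none⟩,
     ⟨2, -6, [(0, 7), (0, 10), (3, 7)], [(13, 20)], none⟩,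
     ⟨0, 1, [(0, 6), (0, 10), (3, 7)], [(13, 20)], none⟩], -9, 39⟩,
  ⟨⟨27, 8, 17, 5⟩, 0, -25, 13, -2, [20, 6, 6, 10],
    [⟨3, -10, [(0, 7), (0, 11), (4, 7)], [(14, 20)], none⟩,
     ⟨1, -3, [(0, 7), (0, 10), (4, 6)], [(14, 20)], none⟩,
     ⟨4, -13, [(0, 7), (0, 10), (3, 7)], [(14, 20)], none⟩,
     ⟨2, -6, [(0, 7), (0, 10), (3, 7)], [(13, 21)], none⟩,
     ⟨10, -33, [(0, 6), (0, 10), (3, 7)], [(13, 21)], none⟩,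
     ⟨0, 1, [(0, 6), (0, 10), (3, 7)], [(13, 20)], none⟩], -1, 12⟩,
  ⟨⟨17, 5, 24, 7⟩, 0, -26, 13, -2, [20, 6, 6, 10],
    [⟨10, -34, [(0, 7), (0, 11), (4, 7)], [(14, 21)], none⟩,
     ⟨3, -10, [(0, 7), (0, 11), (4, 7)], [(14, 20)], none⟩,
     ⟨1, -3, [(0, 7), (0, 10), (4, 6)], [(14, 20)], none⟩,
     ⟨4, -13, [(0, 7), (0, 10), (3, 7)], [(14, 20)], none⟩,
     ⟨2, -6, [(0, 7), (0, 10), (3, 7)], [(13, 21)], none⟩,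
     ⟨0, 1, [(0, 6), (0, 10), (3, 7)], [(13, 21)], none⟩], -21, 80⟩,
  ⟨⟨24, 7, 31, 9⟩, 0, -26, 13, -2, [20, 6, 6, 10],
    [⟨3, -10, [(0, 7), (0, 11), (4, 7)], [(14, 21)], none⟩,
     ⟨10, -34, [(0, 7), (0, 10), (4, 6)], [(14, 21)], none⟩,
     ⟨1, -3, [(0, 7), (0, 10), (4, 6)], [(14, 20)], none⟩,
     ⟨4, -13, [(0, 7), (0, 10), (3, 7)], [(14, 20)], none⟩,
     ⟨2, -6, [(0, 7), (0, 10), (3, 7)], [(13, 21)], none⟩,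
     ⟨0, 1, [(0, 6), (0, 10), (3, 7)], [(13, 21)], none⟩], -14, 56⟩,
  ⟨⟨31, 9, 7, 2⟩, 0, -26, 13, -2, [20, 6, 6, 10],
    [⟨3, -10, [(0, 7), (0, 11), (4, 7)], [(14, 21)], none⟩,
     ⟨1, -3, [(0, 7), (0, 10), (4, 6)], [(14, 21)], none⟩,
     ⟨10, -34, [(0, 7), (0, 10), (3, 7)], [(14, 21)], none⟩,
     ⟨4, -13, [(0, 7), (0, 10), (3, 7)], [(14, 20)], none⟩,
     ⟨2, -6, [(0, 7), (0, 10), (3, 7)], [(13, 21)], none⟩,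
     ⟨0, 1, [(0, 6), (0, 10), (3, 7)], [(13, 21)], none⟩], -14, 56⟩,
  ⟨⟨7, 2, 32, 9⟩, 0, -26, 14, -3, [21, 7, 7, 10],
    [⟨2, -7, [(0, 8), (0, 11), (4, 7)], [(15, 21)], none⟩,
     ⟨4, -14, [(0, 7), (0, 11), (4, 7)], [(15, 21)], none⟩,
     ⟨10, -35, [(0, 7), (0, 11), (4, 7)], [(14, 22)], none⟩,
     ⟨1, -3, [(0, 7), (0, 11), (4, 7)], [(14, 21)], none⟩,
     ⟨3, -10, [(0, 7), (0, 11), (3, 8)], [(14, 21)], none⟩,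
     ⟨0, 1, [(0, 7), (0, 10), (3, 7)], [(14, 21)], none⟩], -6, 42⟩,
  ⟨⟨32, 9, 25, 7⟩, 0, -26, 14, -3, [21, 7, 7, 10],
    [⟨2, -7, [(0, 8), (0, 11), (4, 7)], [(15, 21)], none⟩,
     ⟨4, -14, [(0, 7), (0, 11), (4, 7)], [(15, 21)], none⟩,
     ⟨1, -3, [(0, 7), (0, 11), (4, 7)], [(14, 22)], none⟩,
     ⟨10, -35, [(0, 7), (0, 11), (3, 8)], [(14, 22)], none⟩,
     ⟨3, -10, [(0, 7), (0, 11), (3, 8)], [(14, 21)], none⟩,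
     ⟨0, 1, [(0, 7), (0, 10), (3, 7)], [(14, 21)], none⟩], -6, 42⟩,
  ⟨⟨25, 7, 18, 5⟩, 0, -26, 14, -3, [21, 7, 7, 10],
    [⟨2, -7, [(0, 8), (0, 11), (4, 7)], [(15, 21)], none⟩,
     ⟨4, -14, [(0, 7), (0, 11), (4, 7)], [(15, 21)], none⟩,
     ⟨1, -3, [(0, 7), (0, 11), (4, 7)], [(14, 22)], none⟩,
     ⟨3, -10, [(0, 7), (0, 11), (3, 8)], [(14, 22)], none⟩,
     ⟨10, -35, [(0, 7), (0, 10), (3, 7)], [(14, 22)], none⟩,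
     ⟨0, 1, [(0, 7), (0, 10), (3, 7)], [(14, 21)], none⟩], 1, 17⟩,
  ⟨⟨18, 5, 29, 8⟩, 0, -27, 14, -3, [21, 7, 7, 10],
    [⟨10, -36, [(0, 8), (0, 11), (4, 7)], [(15, 22)], none⟩,
     ⟨2, -7, [(0, 8), (0, 11), (4, 7)], [(15, 21)], none⟩,
     ⟨4, -14, [(0, 7), (0, 11), (4, 7)], [(15, 21)], none⟩,
     ⟨1, -3, [(0, 7), (0, 11), (4, 7)], [(14, 22)], none⟩,
     ⟨3, -10, [(0, 7), (0, 11), (3, 8)], [(14, 22)], none⟩,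
     ⟨0, 1, [(0, 7), (0, 10), (3, 7)], [(14, 22)], none⟩], -19, 89⟩,
  ⟨⟨29, 8, 11, 3⟩, 0, -27, 14, -3, [21, 7, 7, 10],
    [⟨2, -7, [(0, 8), (0, 11), (4, 7)], [(15, 22)], none⟩,
     ⟨10, -36, [(0, 7), (0, 11), (4, 7)], [(15, 22)], none⟩,
     ⟨4, -14, [(0, 7), (0, 11), (4, 7)], [(15, 21)], none⟩,
     ⟨1, -3, [(0, 7), (0, 11), (4, 7)], [(14, 22)], none⟩,
     ⟨3, -10, [(0, 7), (0, 11), (3, 8)], [(14, 22)], none⟩,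
     ⟨0, 1, [(0, 7), (0, 10), (3, 7)], [(14, 22)], none⟩], -11, 60⟩,
  ⟨⟨11, 3, 37, 10⟩, 0, -27, 14, -3, [22, 7, 7, 11],
    [⟨3, -11, [(0, 8), (0, 12), (4, 8)], [(15, 22)], none⟩,
     ⟨2, -7, [(0, 8), (0, 11), (4, 7)], [(15, 22)], none⟩,
     ⟨1, -3, [(0, 7), (0, 11), (4, 7)], [(15, 22)], none⟩,
     ⟨4, -14, [(0, 7), (0, 11), (3, 8)], [(15, 22)], none⟩,
     ⟨10, -36, [(0, 7), (0, 11), (3, 8)], [(14, 23)], none⟩,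
     ⟨0, 1, [(0, 7), (0, 11), (3, 8)], [(14, 22)], none⟩], -5, 38⟩,
  ⟨⟨37, 10, 26, 7⟩, 0, -27, 14, -3, [22, 7, 7, 11],
    [⟨10, -37, [(0, 8), (0, 12), (4, 8)], [(15, 23)], none⟩,
     ⟨3, -11, [(0, 8), (0, 12), (4, 8)], [(15, 22)], none⟩,
     ⟨2, -7, [(0, 8), (0, 11), (4, 7)], [(15, 22)], none⟩,
     ⟨1, -3, [(0, 7), (0, 11), (4, 7)], [(15, 22)], none⟩,
     ⟨4, -14, [(0, 7), (0, 11), (3, 8)], [(15, 22)], none⟩,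
     ⟨0, 1, [(0, 7), (0, 11), (3, 8)], [(14, 23)], none⟩], -15, 75⟩,
  ⟨⟨26, 7, 15, 4⟩, 0, -28, 14, -3, [22, 7, 7, 11],
    [⟨3, -11, [(0, 8), (0, 12), (4, 8)], [(15, 23)], none⟩,
     ⟨10, -37, [(0, 8), (0, 11), (4, 7)], [(15, 23)], none⟩,
     ⟨2, -7, [(0, 8), (0, 11), (4, 7)], [(15, 22)], none⟩,
     ⟨1, -3, [(0, 7), (0, 11), (4, 7)], [(15, 22)], none⟩,
     ⟨4, -14, [(0, 7), (0, 11), (3, 8)], [(15, 22)], none⟩,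
     ⟨0, 1, [(0, 7), (0, 11), (3, 8)], [(14, 23)], none⟩], -15, 75⟩,
  ⟨⟨15, 4, 34, 9⟩, 0, -28, 15, -3, [22, 7, 7, 11],
    [⟨4, -15, [(0, 8), (0, 12), (4, 8)], [(16, 22)], none⟩,
     ⟨3, -11, [(0, 8), (0, 12), (4, 8)], [(15, 23)], none⟩,
     ⟨2, -7, [(0, 8), (0, 11), (4, 7)], [(15, 23)], none⟩,
     ⟨10, -37, [(0, 7), (0, 11), (4, 7)], [(15, 23)], none⟩,
     ⟨1, -3, [(0, 7), (0, 11), (4, 7)], [(15, 22)], none⟩,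
     ⟨0, 1, [(0, 7), (0, 11), (3, 8)], [(15, 22)], none⟩], 5, 0⟩,
  ⟨⟨34, 9, 19, 5⟩, 0, -28, 15, -3, [22, 7, 7, 11],
    [⟨4, -15, [(0, 8), (0, 12), (4, 8)], [(16, 22)], none⟩,
     ⟨3, -11, [(0, 8), (0, 12), (4, 8)], [(15, 23)], none⟩,
     ⟨2, -7, [(0, 8), (0, 11), (4, 7)], [(15, 23)], none⟩,
     ⟨1, -3, [(0, 7), (0, 11), (4, 7)], [(15, 23)], none⟩,
     ⟨10, -37, [(0, 7), (0, 11), (3, 8)], [(15, 23)], none⟩,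
     ⟨0, 1, [(0, 7), (0, 11), (3, 8)], [(15, 22)], none⟩], -4, 34⟩,
  ⟨⟨19, 5, 23, 6⟩, 0, -28, 15, -3, [22, 7, 7, 11],
    [⟨10, -38, [(0, 8), (0, 12), (4, 8)], [(16, 23)], none⟩,
     ⟨4, -15, [(0, 8), (0, 12), (4, 8)], [(16, 22)], none⟩,
     ⟨3, -11, [(0, 8), (0, 12), (4, 8)], [(15, 23)], none⟩,
     ⟨2, -7, [(0, 8), (0, 11), (4, 7)], [(15, 23)], none⟩,
     ⟨1, -3, [(0, 7), (0, 11), (4, 7)], [(15, 23)], none⟩,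
     ⟨0, 1, [(0, 7), (0, 11), (3, 8)], [(15, 23)], none⟩], -14, 72⟩,
  ⟨⟨23, 6, 27, 7⟩, 0, -29, 15, -2, [23, 7, 7, 11],
    [⟨4, -15, [(0, 8), (0, 12), (4, 8)], [(16, 23)], none⟩,
     ⟨10, -38, [(0, 8), (0, 12), (4, 8)], [(15, 24)], none⟩,
     ⟨3, -11, [(0, 8), (0, 12), (4, 8)], [(15, 23)], none⟩,
     ⟨2, -7, [(0, 8), (0, 11), (4, 7)], [(15, 23)], none⟩,
     ⟨1, -3, [(0, 7), (0, 11), (4, 7)], [(15, 23)], none⟩,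
     ⟨0, 1, [(0, 7), (0, 11), (3, 8)], [(15, 23)], none⟩], -12, 49⟩,
  ⟨⟨27, 7, 31, 8⟩, 0, -30, 15, -2, [23, 7, 7, 11],
    [⟨4, -15, [(0, 8), (0, 12), (4, 8)], [(16, 23)], none⟩,
     ⟨3, -11, [(0, 8), (0, 12), (4, 8)], [(15, 24)], none⟩,
     ⟨10, -38, [(0, 8), (0, 11), (4, 7)], [(15, 24)], none⟩,
     ⟨2, -7, [(0, 8), (0, 11), (4, 7)], [(15, 23)], none⟩,
     ⟨1, -3, [(0, 7), (0, 11), (4, 7)], [(15, 23)], none⟩,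
     ⟨0, 1, [(0, 7), (0, 11), (3, 8)], [(15, 23)], none⟩], -12, 49⟩,
  ⟨⟨31, 8, 35, 9⟩, 0, -30, 15, -2, [23, 7, 7, 11],
    [⟨4, -15, [(0, 8), (0, 12), (4, 8)], [(16, 23)], none⟩,
     ⟨3, -11, [(0, 8), (0, 12), (4, 8)], [(15, 24)], none⟩,
     ⟨2, -7, [(0, 8), (0, 11), (4, 7)], [(15, 24)], none⟩,
     ⟨10, -38, [(0, 7), (0, 11), (4, 7)], [(15, 24)], none⟩,
     ⟨1, -3, [(0, 7), (0, 11), (4, 7)], [(15, 23)], none⟩,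
     ⟨0, 1, [(0, 7), (0, 11), (3, 8)], [(15, 23)], none⟩], -4, 18⟩,
  ⟨⟨35, 9, 39, 10⟩, 0, -30, 15, -2, [23, 7, 7, 11],
    [⟨4, -15, [(0, 8), (0, 12), (4, 8)], [(16, 23)], none⟩,
     ⟨3, -11, [(0, 8), (0, 12), (4, 8)], [(15, 24)], none⟩,
     ⟨2, -7, [(0, 8), (0, 11), (4, 7)], [(15, 24)], none⟩,
     ⟨1, -3, [(0, 7), (0, 11), (4, 7)], [(15, 24)], none⟩,
     ⟨10, -38, [(0, 7), (0, 11), (3, 8)], [(15, 24)], none⟩,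
     ⟨0, 1, [(0, 7), (0, 11), (3, 8)], [(15, 23)], none⟩], -13, 53⟩,
  ⟨⟨39, 10, 4, 1⟩, 0, -30, 15, -2, [23, 7, 7, 11],
    [⟨10, -39, [(0, 8), (0, 12), (4, 8)], [(16, 24)], none⟩,
     ⟨4, -15, [(0, 8), (0, 12), (4, 8)], [(16, 23)], none⟩,
     ⟨3, -11, [(0, 8), (0, 12), (4, 8)], [(15, 24)], none⟩,
     ⟨2, -7, [(0, 8), (0, 11), (4, 7)], [(15, 24)], none⟩,
     ⟨1, -3, [(0, 7), (0, 11), (4, 7)], [(15, 24)], none⟩,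
     ⟨0, 1, [(0, 7), (0, 11), (3, 8)], [(15, 24)], none⟩], -23, 92⟩,
  ⟨⟨4, 1, 41, 10⟩, 0, -30, 16, -4, [24, 8, 8, 12],
    [⟨1, -4, [(0, 9), (0, 13), (5, 8)], [(17, 24)], none⟩,
     ⟨2, -8, [(0, 9), (0, 13), (4, 9)], [(17, 24)], none⟩,
     ⟨3, -12, [(0, 8), (0, 13), (4, 9)], [(17, 24)], none⟩,
     ⟨4, -16, [(0, 8), (0, 12), (4, 8)], [(17, 24)], none⟩,
     ⟨10, -40, [(0, 8), (0, 12), (4, 8)], [(16, 25)], none⟩,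
     ⟨0, 1, [(0, 8), (0, 12), (4, 8)], [(16, 24)], none⟩], -1, 36⟩,
  ⟨⟨41, 10, 37, 9⟩, 0, -30, 16, -4, [24, 8, 8, 12],
    [⟨10, -41, [(0, 9), (0, 13), (5, 8)], [(17, 25)], none⟩,
     ⟨1, -4, [(0, 9), (0, 13), (5, 8)], [(17, 24)], none⟩,
     ⟨2, -8, [(0, 9), (0, 13), (4, 9)], [(17, 24)], none⟩,
     ⟨3, -12, [(0, 8), (0, 13), (4, 9)], [(17, 24)], none⟩,
     ⟨4, -16, [(0, 8), (0, 12), (4, 8)], [(17, 24)], none⟩,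
     ⟨0, 1, [(0, 8), (0, 12), (4, 8)], [(16, 25)], none⟩], -11, 77⟩,
  ⟨⟨37, 9, 33, 8⟩, 0, -30, 16, -4, [24, 8, 8, 12],
    [⟨1, -4, [(0, 9), (0, 13), (5, 8)], [(17, 25)], none⟩,
     ⟨10, -41, [(0, 9), (0, 13), (4, 9)], [(17, 25)], none⟩,
     ⟨2, -8, [(0, 9), (0, 13), (4, 9)], [(17, 24)], none⟩,
     ⟨3, -12, [(0, 8), (0, 13), (4, 9)], [(17, 24)], none⟩,
     ⟨4, -16, [(0, 8), (0, 12), (4, 8)], [(17, 24)], none⟩,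
     ⟨0, 1, [(0, 8), (0, 12), (4, 8)], [(16, 25)], none⟩], -20, 114⟩,
  ⟨⟨33, 8, 29, 7⟩, 0, -30, 16, -4, [24, 8, 8, 12],
    [⟨1, -4, [(0, 9), (0, 13), (5, 8)], [(17, 25)], none⟩,
     ⟨2, -8, [(0, 9), (0, 13), (4, 9)], [(17, 25)], none⟩,
     ⟨10, -41, [(0, 8), (0, 13), (4, 9)], [(17, 25)], none⟩,
     ⟨3, -12, [(0, 8), (0, 13), (4, 9)], [(17, 24)], none⟩,
     ⟨4, -16, [(0, 8), (0, 12), (4, 8)], [(17, 24)], none⟩,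
     ⟨0, 1, [(0, 8), (0, 12), (4, 8)], [(16, 25)], none⟩], -12, 81⟩,
  ⟨⟨29, 7, 25, 6⟩, 0, -31, 16, -4, [24, 8, 8, 12],
    [⟨1, -4, [(0, 9), (0, 13), (5, 8)], [(17, 25)], none⟩,
     ⟨2, -8, [(0, 9), (0, 13), (4, 9)], [(17, 25)], none⟩,
     ⟨3, -12, [(0, 8), (0, 13), (4, 9)], [(17, 25)], none⟩,
     ⟨10, -41, [(0, 8), (0, 12), (4, 8)], [(17, 25)], none⟩,
     ⟨4, -16, [(0, 8), (0, 12), (4, 8)], [(17, 24)], none⟩,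
     ⟨0, 1, [(0, 8), (0, 12), (4, 8)], [(16, 25)], none⟩], -12, 81⟩,
  ⟨⟨25, 6, 21, 5⟩, 0, -32, 16, -3, [25, 8, 8, 12],
    [⟨1, -4, [(0, 9), (0, 13), (5, 8)], [(17, 25)], none⟩,
     ⟨2, -8, [(0, 9), (0, 13), (4, 9)], [(17, 25)], none⟩,
     ⟨3, -12, [(0, 8), (0, 13), (4, 9)], [(17, 25)], none⟩,
     ⟨4, -16, [(0, 8), (0, 12), (4, 8)], [(17, 25)], none⟩,
     ⟨10, -41, [(0, 8), (0, 12), (4, 8)], [(16, 26)], none⟩,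
     ⟨0, 1, [(0, 8), (0, 12), (4, 8)], [(16, 25)], none⟩], -10, 56⟩,
  ⟨⟨21, 5, 38, 9⟩, 0, -32, 16, -3, [25, 8, 8, 12],
    [⟨10, -42, [(0, 9), (0, 13), (5, 8)], [(17, 26)], none⟩,
     ⟨1, -4, [(0, 9), (0, 13), (5, 8)], [(17, 25)], none⟩,
     ⟨2, -8, [(0, 9), (0, 13), (4, 9)], [(17, 25)], none⟩,
     ⟨3, -12, [(0, 8), (0, 13), (4, 9)], [(17, 25)], none⟩,
     ⟨4, -16, [(0, 8), (0, 12), (4, 8)], [(17, 25)], none⟩,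
     ⟨0, 1, [(0, 8), (0, 12), (4, 8)], [(16, 26)], none⟩], -20, 98⟩,
  ⟨⟨38, 9, 17, 4⟩, 0, -32, 16, -3, [25, 8, 8, 12],
    [⟨1, -4, [(0, 9), (0, 13), (5, 8)], [(17, 26)], none⟩,
     ⟨10, -42, [(0, 9), (0, 13), (4, 9)], [(17, 26)], none⟩,
     ⟨2, -8, [(0, 9), (0, 13), (4, 9)], [(17, 25)], none⟩,
     ⟨3, -12, [(0, 8), (0, 13), (4, 9)], [(17, 25)], none⟩,
     ⟨4, -16, [(0, 8), (0, 12), (4, 8)], [(17, 25)], none⟩,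
     ⟨0, 1, [(0, 8), (0, 12), (4, 8)], [(16, 26)], none⟩], -29, 136⟩,
  ⟨⟨17, 4, 30, 7⟩, 0, -32, 17, -3, [25, 8, 8, 12],
    [⟨4, -17, [(0, 9), (0, 13), (5, 8)], [(18, 25)], none⟩,
     ⟨1, -4, [(0, 9), (0, 13), (5, 8)], [(17, 26)], none⟩,
     ⟨2, -8, [(0, 9), (0, 13), (4, 9)], [(17, 26)], none⟩,
     ⟨10, -42, [(0, 8), (0, 13), (4, 9)], [(17, 26)], none⟩,
     ⟨3, -12, [(0, 8), (0, 13), (4, 9)], [(17, 25)], none⟩,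
     ⟨0, 1, [(0, 8), (0, 12), (4, 8)], [(17, 25)], none⟩], -9, 51⟩,
  ⟨⟨30, 7, 43, 10⟩, 0, -33, 17, -3, [25, 8, 8, 12],
    [⟨4, -17, [(0, 9), (0, 13), (5, 8)], [(18, 25)], none⟩,
     ⟨1, -4, [(0, 9), (0, 13), (5, 8)], [(17, 26)], none⟩,
     ⟨2, -8, [(0, 9), (0, 13), (4, 9)], [(17, 26)], none⟩,
     ⟨3, -12, [(0, 8), (0, 13), (4, 9)], [(17, 26)], none⟩,
     ⟨10, -42, [(0, 8), (0, 12), (4, 8)], [(17, 26)], none⟩,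
     ⟨0, 1, [(0, 8), (0, 12), (4, 8)], [(17, 25)], none⟩], -9, 51⟩,
  ⟨⟨43, 10, 13, 3⟩, 0, -33, 17, -3, [25, 8, 8, 12],
    [⟨10, -43, [(0, 9), (0, 13), (5, 8)], [(18, 26)], none⟩,
     ⟨4, -17, [(0, 9), (0, 13), (5, 8)], [(18, 25)], none⟩,
     ⟨1, -4, [(0, 9), (0, 13), (5, 8)], [(17, 26)], none⟩,
     ⟨2, -8, [(0, 9), (0, 13), (4, 9)], [(17, 26)], none⟩,
     ⟨3, -12, [(0, 8), (0, 13), (4, 9)], [(17, 26)], none⟩,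
     ⟨0, 1, [(0, 8), (0, 12), (4, 8)], [(17, 26)], none⟩], -19, 94⟩,
  ⟨⟨13, 3, 35, 8⟩, 0, -33, 17, -3, [26, 8, 8, 13],
    [⟨3, -13, [(0, 9), (0, 14), (5, 9)], [(18, 26)], none⟩,
     ⟨1, -4, [(0, 9), (0, 13), (5, 8)], [(18, 26)], none⟩,
     ⟨4, -17, [(0, 9), (0, 13), (4, 9)], [(18, 26)], none⟩,
     ⟨10, -43, [(0, 9), (0, 13), (4, 9)], [(17, 27)], none⟩,
     ⟨2, -8, [(0, 9), (0, 13), (4, 9)], [(17, 26)], none⟩,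
     ⟨0, 1, [(0, 8), (0, 13), (4, 9)], [(17, 26)], none⟩], -13, 68⟩,
  ⟨⟨35, 8, 22, 5⟩, 0, -33, 17, -3, [26, 8, 8, 13],
    [⟨3, -13, [(0, 9), (0, 14), (5, 9)], [(18, 26)], none⟩,
     ⟨1, -4, [(0, 9), (0, 13), (5, 8)], [(18, 26)], none⟩,
     ⟨4, -17, [(0, 9), (0, 13), (4, 9)], [(18, 26)], none⟩,
     ⟨2, -8, [(0, 9), (0, 13), (4, 9)], [(17, 27)], none⟩,
     ⟨10, -43, [(0, 8), (0, 13), (4, 9)], [(17, 27)], none⟩,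
     ⟨0, 1, [(0, 8), (0, 13), (4, 9)], [(17, 26)], none⟩], -5, 33⟩,
  ⟨⟨22, 5, 31, 7⟩, 0, -34, 17, -3, [26, 8, 8, 13],
    [⟨10, -44, [(0, 9), (0, 14), (5, 9)], [(18, 27)], none⟩,
     ⟨3, -13, [(0, 9), (0, 14), (5, 9)], [(18, 26)], none⟩,
     ⟨1, -4, [(0, 9), (0, 13), (5, 8)], [(18, 26)], none⟩,
     ⟨4, -17, [(0, 9), (0, 13), (4, 9)], [(18, 26)], none⟩,
     ⟨2, -8, [(0, 9), (0, 13), (4, 9)], [(17, 27)], none⟩,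
     ⟨0, 1, [(0, 8), (0, 13), (4, 9)], [(17, 27)], none⟩], -25, 121⟩,
  ⟨⟨31, 7, 40, 9⟩, 0, -34, 17, -3, [26, 8, 8, 13],
    [⟨3, -13, [(0, 9), (0, 14), (5, 9)], [(18, 27)], none⟩,
     ⟨10, -44, [(0, 9), (0, 13), (5, 8)], [(18, 27)], none⟩,
     ⟨1, -4, [(0, 9), (0, 13), (5, 8)], [(18, 26)], none⟩,
     ⟨4, -17, [(0, 9), (0, 13), (4, 9)], [(18, 26)], none⟩,
     ⟨2, -8, [(0, 9), (0, 13), (4, 9)], [(17, 27)], none⟩,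
     ⟨0, 1, [(0, 8), (0, 13), (4, 9)], [(17, 27)], none⟩], -18, 90⟩,
  ⟨⟨40, 9, 9, 2⟩, 0, -34, 17, -3, [26, 8, 8, 13],
    [⟨3, -13, [(0, 9), (0, 14), (5, 9)], [(18, 27)], none⟩,
     ⟨1, -4, [(0, 9), (0, 13), (5, 8)], [(18, 27)], none⟩,
     ⟨10, -44, [(0, 9), (0, 13), (4, 9)], [(18, 27)], none⟩,
     ⟨4, -17, [(0, 9), (0, 13), (4, 9)], [(18, 26)], none⟩,
     ⟨2, -8, [(0, 9), (0, 13), (4, 9)], [(17, 27)], none⟩,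
     ⟨0, 1, [(0, 8), (0, 13), (4, 9)], [(17, 27)], none⟩], -18, 90⟩,
  ⟨⟨9, 2, 41, 9⟩, 0, -34, 18, -4, [27, 9, 9, 13],
    [⟨2, -9, [(0, 10), (0, 14), (5, 9)], [(19, 27)], none⟩,
     ⟨4, -18, [(0, 9), (0, 14), (5, 9)], [(19, 27)], none⟩,
     ⟨10, -45, [(0, 9), (0, 14), (5, 9)], [(18, 28)], none⟩,
     ⟨1, -4, [(0, 9), (0, 14), (5, 9)], [(18, 27)], none⟩,
     ⟨3, -13, [(0, 9), (0, 14), (4, 10)], [(18, 27)], none⟩,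
     ⟨0, 1, [(0, 9), (0, 13), (4, 9)], [(18, 27)], none⟩], -10, 72⟩,
  ⟨⟨41, 9, 32, 7⟩, 0, -34, 18, -4, [27, 9, 9, 13],
    [⟨2, -9, [(0, 10), (0, 14), (5, 9)], [(19, 27)], none⟩,
     ⟨4, -18, [(0, 9), (0, 14), (5, 9)], [(19, 27)], none⟩,
     ⟨1, -4, [(0, 9), (0, 14), (5, 9)], [(18, 28)], none⟩,
     ⟨10, -45, [(0, 9), (0, 14), (4, 10)], [(18, 28)], none⟩,
     ⟨3, -13, [(0, 9), (0, 14), (4, 10)], [(18, 27)], none⟩,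
     ⟨0, 1, [(0, 9), (0, 13), (4, 9)], [(18, 27)], none⟩], -10, 72⟩,
  ⟨⟨32, 7, 23, 5⟩, 0, -34, 18, -4, [27, 9, 9, 13],
    [⟨2, -9, [(0, 10), (0, 14), (5, 9)], [(19, 27)], none⟩,
     ⟨4, -18, [(0, 9), (0, 14), (5, 9)], [(19, 27)], none⟩,
     ⟨1, -4, [(0, 9), (0, 14), (5, 9)], [(18, 28)], none⟩,
     ⟨3, -13, [(0, 9), (0, 14), (4, 10)], [(18, 28)], none⟩,
     ⟨10, -45, [(0, 9), (0, 13), (4, 9)], [(18, 28)], none⟩,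
     ⟨0, 1, [(0, 9), (0, 13), (4, 9)], [(18, 27)], none⟩], -3, 40⟩,
  ⟨⟨23, 5, 37, 8⟩, 0, -35, 18, -4, [27, 9, 9, 13],
    [⟨10, -46, [(0, 10), (0, 14), (5, 9)], [(19, 28)], none⟩,
     ⟨2, -9, [(0, 10), (0, 14), (5, 9)], [(19, 27)], none⟩,
     ⟨4, -18, [(0, 9), (0, 14), (5, 9)], [(19, 27)], none⟩,
     ⟨1, -4, [(0, 9), (0, 14), (5, 9)], [(18, 28)], none⟩,
     ⟨3, -13, [(0, 9), (0, 14), (4, 10)], [(18, 28)], none⟩,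
     ⟨0, 1, [(0, 9), (0, 13), (4, 9)], [(18, 28)], none⟩], -23, 132⟩,
  ⟨⟨37, 8, 14, 3⟩, 0, -35, 18, -4, [27, 9, 9, 13],
    [⟨2, -9, [(0, 10), (0, 14), (5, 9)], [(19, 28)], none⟩,
     ⟨10, -46, [(0, 9), (0, 14), (5, 9)], [(19, 28)], none⟩,
     ⟨4, -18, [(0, 9), (0, 14), (5, 9)], [(19, 27)], none⟩,
     ⟨1, -4, [(0, 9), (0, 14), (5, 9)], [(18, 28)], none⟩,
     ⟨3, -13, [(0, 9), (0, 14), (4, 10)], [(18, 28)], none⟩,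
     ⟨0, 1, [(0, 9), (0, 13), (4, 9)], [(18, 28)], none⟩], -15, 95⟩,
  ⟨⟨14, 3, 47, 10⟩, 0, -35, 18, -4, [28, 9, 9, 14],
    [⟨3, -14, [(0, 10), (0, 15), (5, 10)], [(19, 28)], none⟩,
     ⟨2, -9, [(0, 10), (0, 14), (5, 9)], [(19, 28)], none⟩,
     ⟨1, -4, [(0, 9), (0, 14), (5, 9)], [(19, 28)], none⟩,
     ⟨4, -18, [(0, 9), (0, 14), (4, 10)], [(19, 28)], none⟩,
     ⟨10, -46, [(0, 9), (0, 14), (4, 10)], [(18, 29)], none⟩,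
     ⟨0, 1, [(0, 9), (0, 14), (4, 10)], [(18, 28)], none⟩], -9, 67⟩,
  ⟨⟨47, 10, 33, 7⟩, 0, -35, 18, -4, [28, 9, 9, 14],
    [⟨10, -47, [(0, 10), (0, 15), (5, 10)], [(19, 29)], none⟩,
     ⟨3, -14, [(0, 10), (0, 15), (5, 10)], [(19, 28)], none⟩,
     ⟨2, -9, [(0, 10), (0, 14), (5, 9)], [(19, 28)], none⟩,
     ⟨1, -4, [(0, 9), (0, 14), (5, 9)], [(19, 28)], none⟩,
     ⟨4, -18, [(0, 9), (0, 14), (4, 10)], [(19, 28)], none⟩,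
     ⟨0, 1, [(0, 9), (0, 14), (4, 10)], [(18, 29)], none⟩], -19, 114⟩,
  ⟨⟨33, 7, 19, 4⟩, 0, -36, 18, -4, [28, 9, 9, 14],
    [⟨3, -14, [(0, 10), (0, 15), (5, 10)], [(19, 29)], none⟩,
     ⟨10, -47, [(0, 10), (0, 14), (5, 9)], [(19, 29)], none⟩,
     ⟨2, -9, [(0, 10), (0, 14), (5, 9)], [(19, 28)], none⟩,
     ⟨1, -4, [(0, 9), (0, 14), (5, 9)], [(19, 28)], none⟩,
     ⟨4, -18, [(0, 9), (0, 14), (4, 10)], [(19, 28)], none⟩,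
     ⟨0, 1, [(0, 9), (0, 14), (4, 10)], [(18, 29)], none⟩], -19, 114⟩,
  ⟨⟨19, 4, 43, 9⟩, 0, -36, 19, -4, [28, 9, 9, 14],
    [⟨4, -19, [(0, 10), (0, 15), (5, 10)], [(20, 28)], none⟩,
     ⟨3, -14, [(0, 10), (0, 15), (5, 10)], [(19, 29)], none⟩,
     ⟨2, -9, [(0, 10), (0, 14), (5, 9)], [(19, 29)], none⟩,
     ⟨10, -47, [(0, 9), (0, 14), (5, 9)], [(19, 29)], none⟩,
     ⟨1, -4, [(0, 9), (0, 14), (5, 9)], [(19, 28)], none⟩,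
     ⟨0, 1, [(0, 9), (0, 14), (4, 10)], [(19, 28)], none⟩], 1, 19⟩,
  ⟨⟨43, 9, 24, 5⟩, 0, -36, 19, -4, [28, 9, 9, 14],
    [⟨4, -19, [(0, 10), (0, 15), (5, 10)], [(20, 28)], none⟩,
     ⟨3, -14, [(0, 10), (0, 15), (5, 10)], [(19, 29)], none⟩,
     ⟨2, -9, [(0, 10), (0, 14), (5, 9)], [(19, 29)], none⟩,
     ⟨1, -4, [(0, 9), (0, 14), (5, 9)], [(19, 29)], none⟩,
     ⟨10, -47, [(0, 9), (0, 14), (4, 10)], [(19, 29)], none⟩,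
     ⟨0, 1, [(0, 9), (0, 14), (4, 10)], [(19, 28)], none⟩], -8, 62⟩,
  ⟨⟨24, 5, 29, 6⟩, 0, -36, 19, -4, [28, 9, 9, 14],
    [⟨10, -48, [(0, 10), (0, 15), (5, 10)], [(20, 29)], none⟩,
     ⟨4, -19, [(0, 10), (0, 15), (5, 10)], [(20, 28)], none⟩,
     ⟨3, -14, [(0, 10), (0, 15), (5, 10)], [(19, 29)], none⟩,
     ⟨2, -9, [(0, 10), (0, 14), (5, 9)], [(19, 29)], none⟩,
     ⟨1, -4, [(0, 9), (0, 14), (5, 9)], [(19, 29)], none⟩,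
     ⟨0, 1, [(0, 9), (0, 14), (4, 10)], [(19, 29)], none⟩], -18, 110⟩,
  ⟨⟨29, 6, 34, 7⟩, 0, -37, 19, -3, [29, 9, 9, 14],
    [⟨4, -19, [(0, 10), (0, 15), (5, 10)], [(20, 29)], none⟩,
     ⟨10, -48, [(0, 10), (0, 15), (5, 10)], [(19, 30)], none⟩,
     ⟨3, -14, [(0, 10), (0, 15), (5, 10)], [(19, 29)], none⟩,
     ⟨2, -9, [(0, 10), (0, 14), (5, 9)], [(19, 29)], none⟩,
     ⟨1, -4, [(0, 9), (0, 14), (5, 9)], [(19, 29)], none⟩,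
     ⟨0, 1, [(0, 9), (0, 14), (4, 10)], [(19, 29)], none⟩], -16, 81⟩,
  ⟨⟨34, 7, 39, 8⟩, 0, -38, 19, -3, [29, 9, 9, 14],
    [⟨4, -19, [(0, 10), (0, 15), (5, 10)], [(20, 29)], none⟩,
     ⟨3, -14, [(0, 10), (0, 15), (5, 10)], [(19, 30)], none⟩,
     ⟨10, -48, [(0, 10), (0, 14), (5, 9)], [(19, 30)], none⟩,
     ⟨2, -9, [(0, 10), (0, 14), (5, 9)], [(19, 29)], none⟩,
     ⟨1, -4, [(0, 9), (0, 14), (5, 9)], [(19, 29)], none⟩,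
     ⟨0, 1, [(0, 9), (0, 14), (4, 10)], [(19, 29)], none⟩], -16, 81⟩,
  ⟨⟨39, 8, 44, 9⟩, 0, -38, 19, -3, [29, 9, 9, 14],
    [⟨4, -19, [(0, 10), (0, 15), (5, 10)], [(20, 29)], none⟩,
     ⟨3, -14, [(0, 10), (0, 15), (5, 10)], [(19, 30)], none⟩,
     ⟨2, -9, [(0, 10), (0, 14), (5, 9)], [(19, 30)], none⟩,
     ⟨10, -48, [(0, 9), (0, 14), (5, 9)], [(19, 30)], none⟩,
     ⟨1, -4, [(0, 9), (0, 14), (5, 9)], [(19, 29)], none⟩,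
     ⟨0, 1, [(0, 9), (0, 14), (4, 10)], [(19, 29)], none⟩], -8, 42⟩,
  ⟨⟨44, 9, 49, 10⟩, 0, -38, 19, -3, [29, 9, 9, 14],
    [⟨4, -19, [(0, 10), (0, 15), (5, 10)], [(20, 29)], none⟩,
     ⟨3, -14, [(0, 10), (0, 15), (5, 10)], [(19, 30)], none⟩,
     ⟨2, -9, [(0, 10), (0, 14), (5, 9)], [(19, 30)], none⟩,
     ⟨1, -4, [(0, 9), (0, 14), (5, 9)], [(19, 30)], none⟩,
     ⟨10, -48, [(0, 9), (0, 14), (4, 10)], [(19, 30)], none⟩,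
     ⟨0, 1, [(0, 9), (0, 14), (4, 10)], [(19, 29)], none⟩], -17, 86⟩,
  ⟨⟨49, 10, 5, 1⟩, 0, -38, 19, -3, [29, 9, 9, 14],
    [⟨10, -49, [(0, 10), (0, 15), (5, 10)], [(20, 30)], none⟩,
     ⟨4, -19, [(0, 10), (0, 15), (5, 10)], [(20, 29)], none⟩,
     ⟨3, -14, [(0, 10), (0, 15), (5, 10)], [(19, 30)], none⟩,
     ⟨2, -9, [(0, 10), (0, 14), (5, 9)], [(19, 30)], none⟩,
     ⟨1, -4, [(0, 9), (0, 14), (5, 9)], [(19, 30)], none⟩,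
     ⟨0, 1, [(0, 9), (0, 14), (4, 10)], [(19, 30)], none⟩], -27, 135⟩]

theorem recs_chk : recs.all (fun r => r.chk par 12) = true := by decide +kernel

theorem recs_link : link 1 10 recs = true := by decide +kernel

theorem recs_end : lastEnd 1 10 recs = (5, 1) := by decide +kernel

theorem recs_sum : (recs.map Rec.qval).sum ≤ 309 / 10 := by decide +kernel

end Pool.Agent.D23.Cell
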