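import Pool.Agent.D23.Cells

/-!
# From a checked cell to a linear bound for the cost of a prime
-/

set_option autoImplicit false

open Finset

namespace Pool.Agent.D23.Cell

/-- `2 * ∑_{i < M} ⌊i / p⌋` in closed form -/
def nrm (M p : ℕ) : ℤ := 2 * (M / p : ℕ) * M - (M / p : ℕ) * ((M / p : ℕ) + 1) * p

theorem nrm_eq_sum (M p : ℕ) (hp : 0 < p) : 2 * ∑ i ∈ range M, ((i / p : ℕ) : ℤ) = nrm M p := by
  induction M with
  | zero => simp [nrm]
  | succ M ih =>
    rw [sum_range_succ, mul_add, ih]
    unfold nrm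
    by_cases h : p ∣ M + 1
    · obtain ⟨k, hk⟩ := h
      have hk0 : 1 ≤ k := by
        rcases Nat.eq_zero_or_pos k with h0 | h0
        · rw [h0] at hk
          omega
        · exact h0
      have h1 : (M + 1) / p = k := by
        rw [hk]
        exact Nat.mul_div_cancel_left k hp
      have h2 : M / p = k - 1 := by
        have h3 : M = p * (k - 1) + (p - 1) := by
          obtain ⟨j, rfl⟩ : ∃ j, k = j + 1 := ⟨k - 1, by omega⟩
          have : p * (j + 1) = p * j + p := by ring
          simp only [Nat.add_sub_cancel]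
          omega
        rw [h3, Nat.mul_add_div hp, Nat.div_eq_of_lt (by omega), Nat.add_zero]
      rw [h1, h2]
      have hM : (M : ℤ) = p * k - 1 := by
        have : ((M + 1 : ℕ) : ℤ) = ((p * k : ℕ) : ℤ) := by rw [hk]
        push_cast at this
        linarith
      push_cast [Nat.cast_sub hk0]
      rw [hM]
      ring
    · have h1 : (M + 1) / p = M / p := by
        rw [Nat.succ_div_of_not_dvd h]
      rw [h1]
      push_cast
      ring

theorem nrm_nonneg (M p : ℕ) (hp : 0 < p) : 0 ≤ nrm M p := by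
  rw [← nrm_eq_sum M p hp]
  positivity

theorem nrm_le {M p : ℕ} {J d : ℤ} (h1 : J * p ≤ M + d) (h2 : (M : ℤ) < (J + 1) * p + d)
    (hd : 0 ≤ d) (hdp : d < p) : nrm M p ≤ 2 * J * M - J * (J + 1) * p + 2 * d := by
  have hp : 0 < p := by
    have : (0 : ℤ) < p := by linarith
    exact_mod_cast this
  have h3 : (M / p : ℕ) * (p : ℤ) ≤ M := by exact_mod_cast Nat.div_mul_le_self M p
  have h4 : (M : ℤ) < ((M / p : ℕ) + 1) * p := by
    exact_mod_cast Nat.lt_succ_mul_of_div_lt' M p hp
  unfold nrm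
  set K : ℤ := ((M / p : ℕ) : ℤ) with hK
  have hp' : (0 : ℤ) < p := by exact_mod_cast hp
  have h5 : K ≤ J + 1 := by
    by_contra hcon
    push Not at hcon
    have : (J + 2) * (p : ℤ) ≤ K * p := mul_le_mul_of_nonneg_right (by omega) hp'.le
    linarith
  have h6 : J - 1 ≤ K := by
    by_contra hcon
    push Not at hcon
    have : (K + 1) * (p : ℤ) ≤ (J - 1) * p := mul_le_mul_of_nonneg_right (by omega) hp'.le
    linarith
  have h7 : K = J - 1 ∨ K = J ∨ K = J + 1 := by omega
  rcases h7 with h | h | h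
  · rw [h]
    nlinarith
  · rw [h]
    linarith
  · rw [h]
    nlinarith
where
  Nat.lt_succ_mul_of_div_lt' (M p : ℕ) (hp : 0 < p) : M < (M / p + 1) * p := by
    have := Nat.lt_mul_div_succ M hp
    rwa [mul_comm] at this

/-- `k M` against `k θ n` -/
theorem mul_near {k M x d : ℤ} (h1 : M ≤ x + d) (h2 : x ≤ M + d) : k * M ≤ k * x + |k| * d := by
  rcases le_total 0 k with h | h
  · rw [abs_of_nonneg h]
    nlinarith
  · rw [abs_of_nonpos h]
    nlinarith

/-- **A LIN cell.** -/
theorem lin_item {F : Fam} {c : Box} {n p M : ℕ} {th lam J d e el : ℤ} {l : List Arc}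
    (h : c.In n p) (hM1 : (M : ℤ) ≤ th * n + d) (hM2 : th * n ≤ M + d) (hd : 0 ≤ d) (hdp : d < p)
    (hJ1 : c.nn th (-J) = true) (hJ2 : c.po (-th) (J + 1) = true) (he : el ≤ e)
    (hc : chk F c 0 0 l = true) :
    lam * M + ∑ s ∈ range p, Z3D.ccost (2 - F.phi n p s - e - lam) + nrm M p ≤
      ((lam + 2 * J) * th + totn (fun a => Z3D.ccost (2 - a.low - el - lam)) 0 l) * n +
      (totp (fun a => Z3D.ccost (2 - a.low - el - lam)) 0 l - J * (J + 1)) * p +
      (|lam + 2 * J| * d + 2 * d) := by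
  have hp : 0 < p := by
    have : (0 : ℤ) < p := by linarith
    exact_mod_cast this
  have h1 := sum_range_le h hp (fun s => Z3D.ccost (2 - F.phi n p s - e - lam))
    (fun a => Z3D.ccost (2 - a.low - el - lam)) (fun a s _ ha _ => ccost_mono (by linarith)) l hc
  have h2 := Box.nn_sound h hJ1
  have h3 := Box.po_sound h hJ2
  have h4 : nrm M p ≤ 2 * J * M - J * (J + 1) * p + 2 * d :=
    nrm_le (by linarith) (by linarith) hd hdp
  have h5 := mul_near (k := lam + 2 * J) hM1 hM2
  linarith

/-- **A CAP cell**: only the classes in which the block `F.tb` is not empty count. -/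
theorem cap_item {F : Fam} {c : Box} {n p M : ℕ} {th J d e el : ℤ} {l : List Arc}
    (h : c.In n p) (hM1 : (M : ℤ) ≤ th * n + d) (hM2 : th * n ≤ M + d) (hd : 0 ≤ d) (hdp : d < p)
    (hJ1 : c.nn th (-J) = true) (hJ2 : c.po (-th) (J + 1) = true) (he : el ≤ e)
    (hc : chk F c 0 0 l = true) :
    (1 - e) * M + ∑ s ∈ range p with 0 < bc n p s F.tb, Z3D.ccost (1 - F.phi n p s) + nrm M p ≤
      ((1 - el + 2 * J) * th + totn (fun a => if a.t.isSome then 0 else
        Z3D.ccost (1 - a.low)) 0 l) * n +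
      (totp (fun a => if a.t.isSome then 0 else Z3D.ccost (1 - a.low)) 0 l - J * (J + 1)) * p +
      (|1 - el + 2 * J| * d + 2 * d) := by
  have hp : 0 < p := by
    have : (0 : ℤ) < p := by linarith
    exact_mod_cast this
  have h1 := sum_range_le h hp
    (fun s => if 0 < bc n p s F.tb then Z3D.ccost (1 - F.phi n p s) else 0)
    (fun a => if a.t.isSome then 0 else Z3D.ccost (1 - a.low)) (fun a s _ ha hb => ?_) l hc
  · have h2 := Box.nn_sound h hJ1
    have h3 := Box.po_sound h hJ2
    have h4 : nrm M p ≤ 2 * J * M - J * (J + 1) * p + 2 * d :=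
      nrm_le (by linarith) (by linarith) hd hdp
    have h5 := mul_near (k := 1 - el + 2 * J) hM1 hM2
    have h6 : (1 - e) * (M : ℤ) ≤ (1 - el) * M :=
      mul_le_mul_of_nonneg_right (by linarith) (Int.natCast_nonneg M)
    rw [sum_filter]
    linarith
  · by_cases ht : a.t.isSome
    · obtain ⟨m, hm⟩ := Option.isSome_iff_exists.1 ht
      rw [hb ⟨m, hm⟩, if_pos ht, if_neg (lt_irrefl _)]
    · rw [if_neg ht]
      split_ifs with h3
      · exact ccost_mono (by linarith)
      · exact ccost_nonneg _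

end Pool.Agent.D23.Cell
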