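import Pool.Agent.D23.CellTail

/-!
# Lists of checked cells, and the resulting items for the sum over primes
-/

set_option autoImplicit false

open Finset

namespace Pool.Agent.D23.Cell

/-- a cell with its data: `kind` is `0` for LIN, `1` for CAP, `2` for BIG; `ec` are the certificates
for the valuation of the normalising constant; `al n + be p` is the resulting bound -/
structure Rec where
  c : Box
  kind : ℕ
  lam : ℤ
  J : ℤ
  e0 : ℤ
  ec : List ℤ
  arcs : List Arc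
  al : ℤ
  be : ℤ

/-- parameters of the family: blocks, `κ = (kn n)! / ∏ (kd n)!`, `M = th n + O(1)`, degree
`dg n`, and all harmonic sums integral for `p > W n` -/
structure Par where
  F : Fam
  kn : ℕ
  kd : List ℕ
  th : ℤ
  dg : ℤ
  W : ℤ

/-- the valuation of `κ` for `p² > kn n` -/
def Par.e0 (Q : Par) (n p : ℕ) : ℤ :=
  ((Q.kn * n / p : ℕ) : ℤ) - (Q.kd.map (fun k => ((k * n / p : ℕ) : ℤ))).sum

/-- check of `⌊k n / p⌋ ≤ f` -/
def fchk (c : Box) : List ℕ → List ℤ → Bool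
  | [], [] => true
  | k :: ks, f :: fs => c.po (-k) (f + 1) && fchk c ks fs
  | _, _ => false

theorem fchk_sound {c : Box} {n p : ℕ} (h : c.In n p) (hp : 0 < p) :
    ∀ (ks : List ℕ) (fs : List ℤ), fchk c ks fs = true →
      (ks.map (fun k => ((k * n / p : ℕ) : ℤ))).sum ≤ fs.sum
  | [], [], _ => by simp
  | [], _ :: _, hc => by simp [fchk] at hc
  | _ :: _, [], hc => by simp [fchk] at hc
  | k :: ks, f :: fs, hc => by
    simp only [fchk, Bool.and_eq_true] at hc
    have h1 := Box.po_sound h hc.1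
    have ih := fchk_sound h hp ks fs hc.2
    simp only [List.map_cons, List.sum_cons]
    refine add_le_add ?_ ih
    have h2 : ((k * n / p : ℕ) : ℤ) * p ≤ k * n := by
      exact_mod_cast Nat.div_mul_le_self (k * n) p
    have hp' : (0 : ℤ) < p := by exact_mod_cast hp
    by_contra hcon
    push Not at hcon
    have h3 : (f + 1) * (p : ℤ) ≤ ((k * n / p : ℕ) : ℤ) * p :=
      mul_le_mul_of_nonneg_right (by omega) hp'.le
    linarith

/-- certificate for the lower bound of the valuation of `κ` -/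
def e0chk (Q : Par) (c : Box) (e : ℤ) : List ℤ → Bool
  | [] => false
  | f :: fs => c.nn Q.kn (-f) && fchk c Q.kd fs && decide (e ≤ f - fs.sum)

theorem e0chk_sound {Q : Par} {c : Box} {n p : ℕ} (h : c.In n p) (hp : 0 < p) {e : ℤ} :
    ∀ (l : List ℤ), e0chk Q c e l = true → e ≤ Q.e0 n p
  | [], hc => by simp [e0chk] at hc
  | f :: fs, hc => by
    simp only [e0chk, Bool.and_eq_true, decide_eq_true_eq] at hc
    have h1 := Box.nn_sound h hc.1.1
    have h2 := fchk_sound h hp Q.kd fs hc.1.2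
    have hp' : (0 : ℤ) < p := by exact_mod_cast hp
    have h3 : f ≤ ((Q.kn * n / p : ℕ) : ℤ) := by
      have h4 : (Q.kn : ℤ) * n < (((Q.kn * n / p : ℕ) : ℤ) + 1) * p := by
        have h9 : Q.kn * n < (Q.kn * n / p + 1) * p := by
          have := Nat.lt_mul_div_succ (Q.kn * n) hp
          rwa [mul_comm p] at this
        exact_mod_cast h9
      by_contra hcon
      push Not at hcon
      have h5 : (((Q.kn * n / p : ℕ) : ℤ) + 1) * p ≤ f * p :=
        mul_le_mul_of_nonneg_right (by omega) hp'.le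
      linarith
    unfold Par.e0
    linarith [hc.2]

/-- **Check of a cell.** -/
def Rec.chk (Q : Par) (G : ℤ) (r : Rec) : Bool :=
  decide (0 < r.c.a2 * r.c.b1 - r.c.a1 * r.c.b2) && decide (0 < r.c.a1) && decide (0 < r.c.b1) &&
  decide (0 < r.c.a2) && decide (0 < r.c.b2) && r.c.nn r.al r.be &&
  r.c.nn Q.th (-r.J) && r.c.po (-Q.th) (r.J + 1) &&
  match r.kind with
  | 0 => e0chk Q r.c r.e0 r.ec && Cell.chk Q.F r.c 0 0 r.arcs &&
      decide ((r.lam + 2 * r.J) * Q.th +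
        totn (fun a => Z3D.ccost (2 - a.low - r.e0 - r.lam)) 0 r.arcs ≤ r.al) &&
      decide (totp (fun a => Z3D.ccost (2 - a.low - r.e0 - r.lam)) 0 r.arcs - r.J * (r.J + 1) ≤
        r.be) && decide (|r.lam + 2 * r.J| * 3 + 2 * 3 ≤ G)
  | 1 => e0chk Q r.c r.e0 r.ec && Cell.chk Q.F r.c 0 0 r.arcs &&
      decide ((1 - r.e0 + 2 * r.J) * Q.th +
        totn (fun a => if a.t.isSome then 0 else Z3D.ccost (1 - a.low)) 0 r.arcs ≤ r.al) &&
      decide (totp (fun a => if a.t.isSome then 0 else Z3D.ccost (1 - a.low)) 0 r.arcs -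
        r.J * (r.J + 1) ≤ r.be) && decide (|1 - r.e0 + 2 * r.J| * 3 + 2 * 3 ≤ G)
  | _ => e0chk Q r.c r.e0 r.ec && Cell.chk Q.F r.c 0 0 r.arcs && decide (r.J = 0) &&
      r.c.po (-Q.W) 1 &&
      r.c.nn (r.al - totn (fun a => if a.t.isSome then 0 else Z3D.ccost (2 - a.low - r.e0)) 0 r.arcs)
        (r.be - totp (fun a => if a.t.isSome then 0 else Z3D.ccost (2 - a.low - r.e0)) 0 r.arcs) &&
      r.c.nn (r.al - 2 * Q.th - Q.dg -
          totn (fun a => if a.t.isSome then 0 else Z3D.ccost (2 - a.low - r.e0)) 0 r.arcs)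
        (r.be + 1 -
          totp (fun a => if a.t.isSome then 0 else Z3D.ccost (2 - a.low - r.e0)) 0 r.arcs) &&
      decide (12 ≤ G)

/-- `Ok T`: the cost of the prime `p` is at most `T`; the three rules -/
structure Costs (Q : Par) (n p M : ℕ) (Ok : ℤ → Prop) : Prop where
  mono : ∀ S T : ℤ, S ≤ T → Ok S → Ok T
  lin : ∀ lam : ℤ, Ok (lam * M + ∑ s ∈ range p, Z3D.ccost (2 - Q.F.phi n p s - Q.e0 n p - lam) +
    nrm M p)
  cap : Ok ((1 - Q.e0 n p) * M +
    ∑ s ∈ range p with 0 < bc n p s Q.F.tb, Z3D.ccost (1 - Q.F.phi n p s) + nrm M p)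
  big : Q.W * n < p → Ok (max 0 (2 * M + Q.dg * n - p) +
    ∑ s ∈ range p with 0 < bc n p s Q.F.tb, Z3D.ccost (2 - Q.F.phi n p s - Q.e0 n p) + nrm M p)

/-- the sum over the classes of the block `F.tb` -/
theorem tb_sum_le {F : Fam} {c : Box} {n p : ℕ} {x y : ℤ} {l : List Arc} (h : c.In n p)
    (hp : 0 < p) (hxy : x ≤ y) (hc : chk F c 0 0 l = true) :
    ∑ s ∈ range p with 0 < bc n p s F.tb, Z3D.ccost (x - F.phi n p s) ≤
      totn (fun a => if a.t.isSome then 0 else Z3D.ccost (y - a.low)) 0 l * n +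
        totp (fun a => if a.t.isSome then 0 else Z3D.ccost (y - a.low)) 0 l * p := by
  rw [sum_filter]
  refine sum_range_le h hp
    (fun s => if 0 < bc n p s F.tb then Z3D.ccost (x - F.phi n p s) else 0)
    (fun a => if a.t.isSome then 0 else Z3D.ccost (y - a.low)) (fun a s _ ha hb => ?_) l hc
  by_cases ht : a.t.isSome
  · obtain ⟨m, hm⟩ := Option.isSome_iff_exists.1 ht
    rw [hb ⟨m, hm⟩, if_pos ht, if_neg (lt_irrefl _)]
  · rw [if_neg ht]
    split_ifs with h3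
    · exact ccost_mono (by linarith)
    · exact ccost_nonneg _

theorem Rec.sound {Q : Par} {G : ℤ} {r : Rec} (hr : r.chk Q G = true) {n p M : ℕ} {Ok : ℤ → Prop}
    (hT : Costs Q n p M Ok) (hp : 3 < p) (hM1 : (M : ℤ) ≤ Q.th * n + 3)
    (hM2 : Q.th * n ≤ M + 3) (h1 : r.c.a1 * p ≤ r.c.b1 * n) (h2 : r.c.b2 * n < r.c.a2 * p) :
    Ok (r.al * n + r.be * p + G) ∧ 0 ≤ r.al * n + r.be * p + G := by
  have hp0 : 0 < p := by omega
  have hdp : (3 : ℤ) < p := by exact_mod_cast hp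
  simp only [Rec.chk, Bool.and_eq_true, decide_eq_true_eq] at hr
  obtain ⟨⟨⟨⟨⟨⟨⟨⟨hD, ha1⟩, hb1⟩, ha2⟩, hb2⟩, hnn⟩, hJ1⟩, hJ2⟩, hk⟩ := hr
  have hin : r.c.In n p := ⟨hD, h1, h2⟩
  have hn0 : (0 : ℤ) ≤ n := Int.natCast_nonneg n
  have hpp : (0 : ℤ) ≤ p := Int.natCast_nonneg p
  have hnn' := Box.nn_sound hin hnn
  split at hk
  · simp only [Bool.and_eq_true, decide_eq_true_eq] at hk
    obtain ⟨⟨⟨⟨he, hc⟩, hal⟩, hbe⟩, hG⟩ := hk
    have h3 := lin_item (M := M) (lam := r.lam) hin hM1 hM2 (by norm_num) hdp hJ1 hJ2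
      (e0chk_sound hin hp0 r.ec he) hc
    have h4 := hT.lin r.lam
    have h5 := mul_le_mul_of_nonneg_right hal hn0
    have h6 := mul_le_mul_of_nonneg_right hbe hpp
    have h7 := abs_nonneg (r.lam + 2 * r.J)
    exact ⟨hT.mono _ _ (by linarith) h4, by linarith⟩
  · simp only [Bool.and_eq_true, decide_eq_true_eq] at hk
    obtain ⟨⟨⟨⟨he, hc⟩, hal⟩, hbe⟩, hG⟩ := hk
    have h3 := cap_item (M := M) hin hM1 hM2 (by norm_num) hdp hJ1 hJ2
      (e0chk_sound hin hp0 r.ec he) hc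
    have h4 := hT.cap
    have h5 := mul_le_mul_of_nonneg_right hal hn0
    have h6 := mul_le_mul_of_nonneg_right hbe hpp
    have h7 := abs_nonneg (1 - r.e0 + 2 * r.J)
    exact ⟨hT.mono _ _ (by linarith) h4, by linarith⟩
  · simp only [Bool.and_eq_true, decide_eq_true_eq] at hk
    obtain ⟨⟨⟨⟨⟨⟨he, hc⟩, hJ0⟩, hW⟩, hk1⟩, hk2⟩, hG⟩ := hk
    have h3 := Box.po_sound hin hW
    have h4 := hT.big (by linarith)
    have h5 := Box.nn_sound hin hk1
    have h6 := Box.nn_sound hin hk2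
    have h7 := Box.po_sound hin hJ2
    rw [hJ0] at h7
    have h8 : nrm M p ≤ 6 := by
      have := nrm_le (M := M) (p := p) (J := 0) (d := 3) (by linarith) (by linarith) (by norm_num)
        hdp
      linarith
    have h9 := tb_sum_le (x := 2 - Q.e0 n p) (y := 2 - r.e0) hin hp0
      (by linarith [e0chk_sound hin hp0 r.ec he]) hc
    have e1 : ∀ s, 2 - Q.e0 n p - Q.F.phi n p s = 2 - Q.F.phi n p s - Q.e0 n p := fun s => by ring
    have e2 : ∀ a : Arc, 2 - r.e0 - a.low = 2 - a.low - r.e0 := fun a => by ring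
    simp only [e1, e2] at h9
    refine ⟨hT.mono _ _ ?_ h4, by linarith⟩
    rcases le_total (2 * (M : ℤ) + Q.dg * n - p) 0 with h10 | h10
    · rw [max_eq_left h10]
      linarith
    · rw [max_eq_right h10]
      linarith

/-- the item of a cell for the sum over primes -/
noncomputable def Rec.item (r : Rec) : ℝ × ℝ × ℝ × ℝ :=
  (r.al, r.be, (r.c.b2 : ℝ) / r.c.a2, (r.c.b1 : ℝ) / r.c.a1)

/-- the value of the item as a rational number -/
def Rec.qval (r : Rec) : ℚ :=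
  r.al * ((r.c.b1 : ℚ) / r.c.a1 - (r.c.b2 : ℚ) / r.c.a2) +
    r.be * (((r.c.b1 : ℚ) / r.c.a1) ^ 2 - ((r.c.b2 : ℚ) / r.c.a2) ^ 2) / 2

theorem Rec.ival_item (r : Rec) : ival r.item = (r.qval : ℝ) := by
  unfold ival Rec.item Rec.qval
  push_cast
  ring

theorem sum_ival (l : List Rec) : ((l.map Rec.item).map ival).sum = ((l.map Rec.qval).sum : ℚ) := by
  induction l with
  | nil => simp
  | cons r l ih =>
    simp only [List.map_cons, List.sum_cons]
    rw [ih, Rec.ival_item]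
    push_cast
    ring

/-- the conditions of `psum` for the item of a checked cell -/
theorem Rec.item_ok {Q : Par} {G : ℤ} {r : Rec} (hr : r.chk Q G = true) :
    0 ≤ r.item.2.2.1 ∧ r.item.2.2.1 ≤ r.item.2.2.2 ∧ 0 ≤ r.item.1 + r.item.2.1 * r.item.2.2.1 ∧
      0 ≤ r.item.1 + r.item.2.1 * r.item.2.2.2 := by
  simp only [Rec.chk, Bool.and_eq_true, decide_eq_true_eq] at hr
  obtain ⟨⟨⟨⟨⟨⟨⟨⟨hD, ha1⟩, hb1⟩, ha2⟩, hb2⟩, hnn⟩, hJ1⟩, hJ2⟩, hk⟩ := hr
  simp only [Box.nn, Bool.and_eq_true, decide_eq_true_eq] at hnn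
  have ha1' : (0 : ℝ) < r.c.a1 := by exact_mod_cast ha1
  have hb1' : (0 : ℝ) < r.c.b1 := by exact_mod_cast hb1
  have ha2' : (0 : ℝ) < r.c.a2 := by exact_mod_cast ha2
  have hb2' : (0 : ℝ) < r.c.b2 := by exact_mod_cast hb2
  have hD' : (0 : ℝ) < r.c.a2 * r.c.b1 - r.c.a1 * r.c.b2 := by exact_mod_cast hD
  have h1 : (0 : ℝ) ≤ r.al * r.c.a1 + r.be * r.c.b1 := by exact_mod_cast hnn.1
  have h2 : (0 : ℝ) ≤ r.al * r.c.a2 + r.be * r.c.b2 := by exact_mod_cast hnn.2
  simp only [Rec.item]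
  refine ⟨by positivity, ?_, ?_, ?_⟩
  · rw [div_le_div_iff₀ ha2' ha1']
    linarith
  · have e : (r.al : ℝ) + r.be * ((r.c.b2 : ℝ) / r.c.a2) =
      (r.al * r.c.a2 + r.be * r.c.b2) / r.c.a2 := by field_simp
    rw [e]
    positivity
  · have e : (r.al : ℝ) + r.be * ((r.c.b1 : ℝ) / r.c.a1) =
      (r.al * r.c.a1 + r.be * r.c.b1) / r.c.a1 := by field_simp
    rw [e]
    positivity

/-- consecutive cells: the upper end of each is the lower end of the next one -/
def link : ℤ → ℤ → List Rec → Bool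
  | _, _, [] => true
  | a, b, r :: l => decide (a * r.c.b1 = r.c.a1 * b) && decide (0 < r.c.b1) &&
      decide (0 < r.c.b2) && link r.c.a2 r.c.b2 l

/-- the upper end of the last cell -/
def lastEnd : ℤ → ℤ → List Rec → ℤ × ℤ
  | a, b, [] => (a, b)
  | _, _, r :: l => lastEnd r.c.a2 r.c.b2 l

/-- every `n / p` between the ends lies in one of the cells -/
theorem link_cover {n p : ℕ} : ∀ (l : List Rec) (a b : ℤ), 0 < b → link a b l = true →
    a * p ≤ b * n → (lastEnd a b l).2 * n < (lastEnd a b l).1 * p →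
    ∃ r ∈ l, r.c.a1 * p ≤ r.c.b1 * n ∧ r.c.b2 * n < r.c.a2 * p
  | [], a, b, _, _, h1, h2 => by
    simp only [lastEnd] at h2
    linarith
  | r :: l, a, b, hb, hc, h1, h2 => by
    simp only [link, Bool.and_eq_true, decide_eq_true_eq] at hc
    obtain ⟨⟨⟨h3, h4⟩, h5⟩, h6⟩ := hc
    have h7 : r.c.a1 * p ≤ r.c.b1 * n := by
      have h8 : (r.c.a1 * b) * (p : ℤ) ≤ (r.c.b1 * b) * n := by
        rw [← h3]
        nlinarith
      have h9 : b * (r.c.a1 * p) ≤ b * (r.c.b1 * n) := by linarith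
      exact le_of_mul_le_mul_left h9 hb
    by_cases h10 : r.c.b2 * n < r.c.a2 * (p : ℤ)
    · exact ⟨r, List.mem_cons_self, h7, h10⟩
    · push Not at h10
      obtain ⟨r', hr', h11⟩ := link_cover l r.c.a2 r.c.b2 h5 h6 h10 (by simpa [lastEnd] using h2)
      exact ⟨r', List.mem_cons_of_mem _ hr', h11⟩

end Pool.Agent.D23.Cell
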