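import Pool.Agent.D23.CellItem

/-!
# The tail: primes much smaller than `n`
-/

set_option autoImplicit false

open Finset

namespace Pool.Agent.D23.Cell

theorem four_ccost_le (v : ℤ) : 4 * Z3D.ccost v ≤ (v + 1) ^ 2 := by
  unfold Z3D.ccost
  split_ifs with h
  · nlinarith [sq_nonneg (v + 1)]
  · have := Int.mul_ediv_self_le (x := (v + 1) ^ 2) (k := 4) (by norm_num)
    linarith

/-- **Tail bound**: weights in `[-1, 3]` with sum at most `a p`, one threshold. -/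
theorem tail_bound {p M : ℕ} (w : ℕ → ℤ) (hw : ∀ s < p, -1 ≤ w s ∧ w s ≤ 3) {a : ℤ}
    (ha2 : a ≤ 2) (hA : ∑ s ∈ range p, w s ≤ a * p) :
    4 * ((a - 2 * (M / p : ℕ)) * M + ∑ s ∈ range p, Z3D.ccost (w s - (a - 2 * (M / p : ℕ))) +
      nrm M p) ≤ 4 * a * M + 5 * p := by
  set J : ℤ := ((M / p : ℕ) : ℤ) with hJ
  have hJ0 : 0 ≤ J := Int.natCast_nonneg _
  have h1 : 4 * ∑ s ∈ range p, Z3D.ccost (w s - (a - 2 * J)) ≤
      (4 * J - 2 * a + 4) * ∑ s ∈ range p, w s + (3 + (2 * J - a + 1) ^ 2) * p := by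
    rw [mul_sum, mul_sum]
    have h2 : ∑ s ∈ range p, 4 * Z3D.ccost (w s - (a - 2 * J)) ≤
        ∑ s ∈ range p, ((4 * J - 2 * a + 4) * w s + (3 + (2 * J - a + 1) ^ 2)) := by
      refine sum_le_sum fun s hs => (four_ccost_le _).trans ?_
      obtain ⟨h3, h4⟩ := hw s (mem_range.1 hs)
      nlinarith [mul_nonneg (show 0 ≤ w s + 1 by linarith) (show 0 ≤ 3 - w s by linarith)]
    refine h2.trans (le_of_eq ?_)
    rw [sum_add_distrib, sum_const, card_range, nsmul_eq_mul]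
    ring
  have h5 : (4 * J - 2 * a + 4) * ∑ s ∈ range p, w s ≤ (4 * J - 2 * a + 4) * (a * p) :=
    mul_le_mul_of_nonneg_left hA (by linarith)
  have hp' : (0 : ℤ) ≤ p := Int.natCast_nonneg p
  have h6 : (4 + 2 * a - a ^ 2) * (p : ℤ) ≤ 5 * p := by
    refine mul_le_mul_of_nonneg_right ?_ hp'
    nlinarith [sq_nonneg (a - 1)]
  unfold nrm
  rw [← hJ]
  nlinarith

end Pool.Agent.D23.Cell
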