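import Pool.Agent.D23.Rep
import Pool.Agent.Z3.Term

/-!
# p-adic size of the residues and of the polynomial part

The rational function is `κ G ∏_b ∏_{i in Zb b} (t + i) / ∏_{k in K} (t + k)`; the p-adic size of
`G` at an integer `x` is controlled by a function `g` of the class of `-x` mod `p`.
-/

open Finset Polynomial

namespace Pool.Agent.D23

open Pool.Agent.Z3 (H)
open Pool.Agent.Z3.TermAux

/-- the fixed part of the numerator -/
noncomputable def numP {r : ℕ} (Zb : Fin r → Finset ℕ) : ℚ[X] := ∏ b, ∏ i ∈ Zb b, (X + C (i : ℚ))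

/-- number of zeros minus number of poles in a class -/
def phi {r : ℕ} (Zb : Fin r → Finset ℕ) (K : Finset ℕ) (p s : ℕ) : ℤ :=
  ∑ b, (cnt (Zb b) p s : ℤ) - (cnt K p s : ℤ)

/-- residue class of -x -/
def cls (p : ℕ) (x : ℤ) : ℕ := ((-x) % (p : ℤ)).toNat

theorem cls_lt (p : ℕ) (hp : 0 < p) (x : ℤ) : cls p x < p := by
  unfold cls
  have h1 := Int.emod_lt_of_pos (-x) (show (0 : ℤ) < p by exact_mod_cast hp)
  have h2 := Int.emod_nonneg (-x) (show (p : ℤ) ≠ 0 by exact_mod_cast hp.ne')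
  omega

theorem cls_neg (p k : ℕ) : cls p (-(k : ℤ)) = k % p := by
  unfold cls
  rw [neg_neg]
  omega

theorem dvd_iff_cls (p : ℕ) (hp : 0 < p) (x : ℤ) (i : ℕ) :
    (p : ℤ) ∣ x + i ↔ i % p = cls p x := by
  unfold cls
  have hp0 : (p : ℤ) ≠ 0 := by exact_mod_cast hp.ne'
  have h2 := Int.emod_nonneg (-x) hp0
  have h3 : (p : ℤ) ∣ x + i ↔ (i : ℤ) % p = (-x) % p := by
    have h4 : (-x) ≡ (i : ℤ) [ZMOD p] ↔ (p : ℤ) ∣ (i : ℤ) - (-x) := Int.modEq_iff_dvd
    rw [sub_neg_eq_add, add_comm] at h4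
    rw [← h4]
    exact ⟨fun h => h.symm, fun h => h.symm⟩
  rw [h3]
  omega

section
variable {p : ℕ} [hp : Fact p.Prime]

theorem ppos : (0 : ℚ) < p := by exact_mod_cast hp.out.pos

theorem pone : (1 : ℚ) < p := by exact_mod_cast hp.out.one_lt

/-- product of factors of norm at most 1/p on a class -/
theorem prod_le_class (S : Finset ℕ) (f : ℕ → ℚ) (s : ℕ)
    (h1 : ∀ i ∈ S, padicNorm p (f i) ≤ if i % p = s then (p : ℚ)⁻¹ else 1) :
    padicNorm p (∏ i ∈ S, f i) ≤ (p : ℚ) ^ (-(cnt S p s : ℤ)) := by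
  rw [padicNorm_prod]
  refine (prod_le_prod (fun i _ => padicNorm.nonneg _) h1).trans (le_of_eq ?_)
  rw [prod_ite, prod_const, prod_const_one, mul_one]
  unfold cnt
  rw [zpow_neg, zpow_natCast, inv_pow]

theorem prod_eq_class (S : Finset ℕ) (f : ℕ → ℚ) (s : ℕ)
    (h1 : ∀ i ∈ S, padicNorm p (f i) = if i % p = s then (p : ℚ)⁻¹ else 1) :
    padicNorm p (∏ i ∈ S, f i) = (p : ℚ) ^ (-(cnt S p s : ℤ)) := by
  rw [padicNorm_prod, prod_congr rfl h1, prod_ite, prod_const, prod_const_one, mul_one]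
  unfold cnt
  rw [zpow_neg, zpow_natCast, inv_pow]

theorem norm_int_le (x : ℤ) (i : ℕ) :
    padicNorm p ((x : ℚ) + i) ≤ if i % p = cls p x then (p : ℚ)⁻¹ else 1 := by
  have e : ((x : ℚ) + i) = ((x + i : ℤ) : ℚ) := by push_cast; ring
  rw [e]
  split_ifs with h
  · have h2 := (dvd_iff_cls p hp.out.pos x i).mpr h
    have h3 : padicNorm p ((x + i : ℤ) : ℚ) ≤ (p : ℚ) ^ (-(1 : ℕ) : ℤ) :=
      (padicNorm.dvd_iff_norm_le (n := 1)).mp (by simpa using h2)
    simpa using h3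
  · exact padicNorm.of_int _

/-- exact norm of a positive integer below p^2 -/
theorem norm_int_eq (x : ℤ) (i : ℕ) (h0 : 0 < x + i) (h2 : x + i < (p : ℤ) ^ 2) :
    padicNorm p ((x : ℚ) + i) = if i % p = cls p x then (p : ℚ)⁻¹ else 1 := by
  obtain ⟨n, hn⟩ : ∃ n : ℕ, x + i = n := ⟨(x + i).toNat, by omega⟩
  have e : ((x : ℚ) + i) = ((n : ℕ) : ℚ) - ((0 : ℕ) : ℚ) := by
    have : ((x + i : ℤ) : ℚ) = ((n : ℤ) : ℚ) := by rw [hn]
    push_cast at this
    rw [this]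
    simp
  have hn2 : n < p ^ 2 := by
    have : (n : ℤ) < (p : ℤ) ^ 2 := by rw [← hn]; exact h2
    exact_mod_cast this
  have hn0 : n ≠ 0 := by omega
  have hpp : 0 < p ^ 2 := pow_pos hp.out.pos 2
  rw [e]
  have hd := dvd_iff_cls p hp.out.pos x i
  rw [hn] at hd
  split_ifs with h
  · refine norm_sub_eq p n 0 hp.out hn2 hpp hn0 ?_
    have h3 : p ∣ n := by exact_mod_cast hd.mpr h
    rw [Nat.mod_eq_zero_of_dvd h3, Nat.zero_mod]
  · refine norm_sub_ne p n 0 hp.out ?_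
    intro h3
    rw [Nat.zero_mod] at h3
    exact h (hd.mp (by exact_mod_cast Nat.dvd_of_mod_eq_zero h3))

theorem padicNorm_prod_fin {r : ℕ} (f : Fin r → ℚ) :
    padicNorm p (∏ b, f b) = ∏ b, padicNorm p (f b) := by
  have : ∀ s : Finset (Fin r), padicNorm p (∏ b ∈ s, f b) = ∏ b ∈ s, padicNorm p (f b) := by
    intro s
    induction s using Finset.induction_on with
    | empty => simp
    | insert a s ha ih => rw [prod_insert ha, prod_insert ha, padicNorm.mul, ih]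
  exact this _

theorem zpow_prod {r : ℕ} (e : Fin r → ℤ) : ∏ b, (p : ℚ) ^ (e b) = (p : ℚ) ^ (∑ b, e b) := by
  have : ∀ s : Finset (Fin r), ∏ b ∈ s, (p : ℚ) ^ (e b) = (p : ℚ) ^ (∑ b ∈ s, e b) := by
    intro s
    induction s using Finset.induction_on with
    | empty => simp
    | insert a s ha ih => rw [prod_insert ha, sum_insert ha, ih, zpow_add₀ (ppos (p := p)).ne']
  exact this _

/-- the fixed numerator at an integer -/
theorem numP_le {r : ℕ} (Zb : Fin r → Finset ℕ) (x : ℤ) :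
    padicNorm p ((numP Zb).eval (x : ℚ)) ≤ (p : ℚ) ^ (-∑ b, (cnt (Zb b) p (cls p x) : ℤ)) := by
  unfold numP
  rw [eval_prod, padicNorm_prod_fin, ← sum_neg_distrib, ← zpow_prod]
  refine prod_le_prod (fun b _ => padicNorm.nonneg _) (fun b _ => ?_)
  rw [eval_prod]
  refine prod_le_class (Zb b) _ (cls p x) (fun i _ => ?_)
  simp only [eval_add, eval_X, eval_C]
  exact norm_int_le x i

/-- the denominator at an integer to the right of all poles -/
theorem den_norm (K : Finset ℕ) (x : ℤ) (h0 : ∀ k ∈ K, 0 < x + k) (h2 : ∀ k ∈ K, x + k < (p : ℤ) ^ 2) :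
    padicNorm p ((den K : ℚ[X]).eval (x : ℚ)) = (p : ℚ) ^ (-(cnt K p (cls p x) : ℤ)) := by
  unfold den
  rw [eval_prod]
  refine prod_eq_class K _ (cls p x) (fun i hi => ?_)
  simp only [eval_add, eval_X, eval_C]
  exact norm_int_eq x i (h0 i hi) (h2 i hi)

/-- the derivative of the denominator at a pole -/
theorem den_erase_norm (K : Finset ℕ) (k : ℕ) (hk : k ∈ K) (h2 : ∀ i ∈ K, i < p ^ 2) :
    padicNorm p (∏ j ∈ K.erase k, ((j : ℚ) - k)) = (p : ℚ) ^ (-((cnt K p (k % p) : ℤ) - 1)) := by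
  rw [norm_prod p hp.out (K.erase k) k (fun i hi => h2 i (mem_of_mem_erase hi)) (h2 k hk)
    (notMem_erase _ _), cnt_erase K p k hk]

variable {r : ℕ} (Zb : Fin r → Finset ℕ) (K : Finset ℕ) (κ : ℚ) (G : ℚ[X]) (e0 : ℤ) (g : ℕ → ℤ)

theorem norm_inv_eq (x : ℚ) : padicNorm p x⁻¹ = (padicNorm p x)⁻¹ := by
  rw [← one_div, padicNorm.div, padicNorm.one, one_div]

/-- (1) the residues -/
theorem res_norm (hκ : padicNorm p κ ≤ (p : ℚ) ^ (-e0)) (k : ℕ) (hk : k ∈ K)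
    (h2 : ∀ i ∈ K, i < p ^ 2)
    (hG : padicNorm p (G.eval (-(k : ℚ))) ≤ (p : ℚ) ^ (-g (k % p))) :
    padicNorm p (res K (C κ * G * numP Zb) k) ≤
      (p : ℚ) ^ (-(e0 + g (k % p) + phi Zb K p (k % p) + 1)) := by
  have hp0 := ppos (p := p)
  unfold res
  rw [padicNorm.mul, norm_inv_eq, den_erase_norm K k hk h2, eval_mul, eval_mul, eval_C,
    padicNorm.mul, padicNorm.mul]
  have h3 := numP_le (p := p) Zb (-(k : ℤ))
  rw [cls_neg] at h3
  push_cast at h3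
  calc ((p : ℚ) ^ (-((cnt K p (k % p) : ℤ) - 1)))⁻¹ *
        (padicNorm p κ * padicNorm p (G.eval (-(k : ℚ))) * padicNorm p ((numP Zb).eval (-(k : ℚ))))
      ≤ ((p : ℚ) ^ (-((cnt K p (k % p) : ℤ) - 1)))⁻¹ *
        ((p : ℚ) ^ (-e0) * (p : ℚ) ^ (-g (k % p)) *
          (p : ℚ) ^ (-∑ b, (cnt (Zb b) p (k % p) : ℤ))) := by
        apply mul_le_mul_of_nonneg_left _ (by positivity)
        apply mul_le_mul (mul_le_mul hκ hG (padicNorm.nonneg _) (by positivity)) h3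
          (padicNorm.nonneg _) (by positivity)
    _ = _ := by
        rw [← zpow_neg, ← zpow_add₀ hp0.ne', ← zpow_add₀ hp0.ne', ← zpow_add₀ hp0.ne']
        congr 1
        unfold phi
        ring

/-- (2) the values at integers to the right of the poles -/
theorem val_norm (hκ : padicNorm p κ ≤ (p : ℚ) ^ (-e0)) (x : ℤ) (h0 : ∀ k ∈ K, 0 < x + k)
    (h2 : ∀ k ∈ K, x + k < (p : ℤ) ^ 2)
    (hG : padicNorm p (G.eval (x : ℚ)) ≤ (p : ℚ) ^ (-g (cls p x))) :
    padicNorm p ((C κ * G * numP Zb).eval (x : ℚ) / (den K).eval (x : ℚ)) ≤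
      (p : ℚ) ^ (-(e0 + g (cls p x) + phi Zb K p (cls p x))) := by
  have hp0 := ppos (p := p)
  rw [padicNorm.div, den_norm K x h0 h2, eval_mul, eval_mul, eval_C, padicNorm.mul, padicNorm.mul]
  have h3 := numP_le (p := p) Zb x
  rw [div_eq_mul_inv]
  calc padicNorm p κ * padicNorm p (G.eval (x : ℚ)) * padicNorm p ((numP Zb).eval (x : ℚ)) *
        ((p : ℚ) ^ (-(cnt K p (cls p x) : ℤ)))⁻¹
      ≤ (p : ℚ) ^ (-e0) * (p : ℚ) ^ (-g (cls p x)) *
          (p : ℚ) ^ (-∑ b, (cnt (Zb b) p (cls p x) : ℤ)) *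
        ((p : ℚ) ^ (-(cnt K p (cls p x) : ℤ)))⁻¹ := by
        apply mul_le_mul_of_nonneg_right _ (by positivity)
        apply mul_le_mul (mul_le_mul hκ hG (padicNorm.nonneg _) (by positivity)) h3
          (padicNorm.nonneg _) (by positivity)
    _ = _ := by
        rw [← zpow_neg, ← zpow_add₀ hp0.ne', ← zpow_add₀ hp0.ne', ← zpow_add₀ hp0.ne']
        congr 1
        unfold phi
        ring

/-- (3) the values of the polynomial part -/
theorem pol_norm (hκ : padicNorm p κ ≤ (p : ℚ) ^ (-e0)) (mu : ℤ)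
    (hmu : ∀ s < p, mu ≤ e0 + g s + phi Zb K p s)
    (h2 : ∀ i ∈ K, i < p ^ 2)
    (hGk : ∀ k ∈ K, padicNorm p (G.eval (-(k : ℚ))) ≤ (p : ℚ) ^ (-g (k % p)))
    (x : ℤ) (h0 : ∀ k ∈ K, 0 < x + k) (h3 : ∀ k ∈ K, x + k < (p : ℤ) ^ 2)
    (hG : padicNorm p (G.eval (x : ℚ)) ≤ (p : ℚ) ^ (-g (cls p x))) :
    padicNorm p ((C κ * G * numP Zb /ₘ den K).eval (x : ℚ)) ≤ (p : ℚ) ^ (-mu) := by
  have hp0 := ppos (p := p)
  have hp1 := pone (p := p)
  have hne : ∀ k ∈ K, (x : ℚ) + (k : ℚ) ≠ 0 := by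
    intro k hk
    have h4 := h0 k hk
    have h5 : (x + k : ℤ) ≠ 0 := by omega
    exact_mod_cast h5
  have h4 := pf_eval K (C κ * G * numP Zb) (x : ℚ) hne
  have h5 : (C κ * G * numP Zb /ₘ den K).eval (x : ℚ) =
      (C κ * G * numP Zb).eval (x : ℚ) / (den K).eval (x : ℚ) -
      ∑ k ∈ K, res K (C κ * G * numP Zb) k / ((x : ℚ) + k) := by
    rw [h4]
    ring
  rw [h5]
  refine padicNorm.sub.trans (max_le ?_ ?_)
  · refine (val_norm Zb K κ G e0 g hκ x h0 h3 hG).trans ?_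
    apply zpow_le_zpow_right₀ hp1.le
    have := hmu _ (cls_lt p hp.out.pos x)
    omega
  · apply padicNorm.sum_le' _ (by positivity)
    intro k hk
    have h6 := res_norm Zb K κ G e0 g hκ k hk h2 (hGk k hk)
    have h7 := hmu (k % p) (Nat.mod_lt _ hp.out.pos)
    rw [padicNorm.div, norm_int_eq x k (h0 k hk) (h3 k hk)]
    have h8 : (p : ℚ)⁻¹ ≤ (if k % p = cls p x then (p : ℚ)⁻¹ else 1) := by
      split_ifs
      · exact le_rfl
      · exact inv_le_one_of_one_le₀ hp1.le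
    have h9 : (0 : ℚ) < (if k % p = cls p x then (p : ℚ)⁻¹ else 1) :=
      lt_of_lt_of_le (inv_pos.mpr hp0) h8
    rw [div_le_iff₀ h9]
    calc padicNorm p (res K (C κ * G * numP Zb) k)
        ≤ (p : ℚ) ^ (-(e0 + g (k % p) + phi Zb K p (k % p) + 1)) := h6
      _ ≤ (p : ℚ) ^ (-mu - 1) := by
          apply zpow_le_zpow_right₀ hp1.le
          omega
      _ = (p : ℚ) ^ (-mu) * (p : ℚ)⁻¹ := by
          rw [zpow_sub_one₀ hp0.ne']
      _ ≤ _ := mul_le_mul_of_nonneg_left h8 (by positivity)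

end

end Pool.Agent.D23
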