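import Pool.Agent.D23.Fam
import Pool.Agent.D23.Poles
import Pool.Agent.D23.DetCost

/-!
# Class counts for the family
-/

open Polynomial Finset
open scoped Nat

namespace Pool.Agent.D23

theorem cN_eq (N p s : ℕ) (hs : s < p) : cN N p s = N / p + if s < N % p then 1 else 0 := by
  have h1 := Nat.count_modEq_card N (r := p) (by omega) s
  rw [Nat.count_eq_card_filter_range, Nat.mod_eq_of_lt hs] at h1
  rw [← h1]
  unfold cN
  congr 1
  refine filter_congr fun i _ => ?_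
  unfold Nat.ModEq
  rw [Nat.mod_eq_of_lt hs]

theorem cl_lt (p : ℕ) (hp : 0 < p) (t : ℤ) : cl p t < p := cls_lt p hp t

theorem cl_neg (p k : ℕ) (_hp : 0 < p) : cl p (-(k : ℤ)) = k % p := cls_neg p k

theorem dvd_add_iff (p : ℕ) (hp : 0 < p) (t : ℤ) (i : ℕ) : (p : ℤ) ∣ t + i ↔ i % p = cl p t :=
  dvd_iff_cls p hp t i

theorem cN_add_cnt (a b p s : ℕ) (hab : a ≤ b) : cN b p s = cN a p s + Z3.TermAux.cnt (Ico a b) p s := by
  unfold cN Z3.TermAux.cnt
  rw [← card_union_of_disjoint]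
  · congr 1
    ext i
    simp only [mem_filter, mem_union, mem_range, mem_Ico]
    constructor
    · rintro ⟨h1, h2⟩
      by_cases h3 : i < a
      · exact Or.inl ⟨h3, h2⟩
      · exact Or.inr ⟨⟨by omega, h1⟩, h2⟩
    · rintro (⟨h1, h2⟩ | ⟨⟨h0, h1⟩, h2⟩)
      · exact ⟨by omega, h2⟩
      · exact ⟨h1, h2⟩
  · rw [disjoint_left]
    intro i hi hi'
    rw [mem_filter, mem_range] at hi
    rw [mem_filter, mem_Ico] at hi'
    omega

theorem cN_mono (a b p s : ℕ) (hab : a ≤ b) : cN a p s ≤ cN b p s := by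
  rw [cN_add_cnt a b p s hab]
  omega

/-- a block of length `L` has at least `L / p` and at most `L / p + 1` elements in a class -/
theorem cN_block (a L p s : ℕ) (hs : s < p) :
    cN a p s + L / p ≤ cN (a + L) p s ∧ cN (a + L) p s ≤ cN a p s + L / p + 1 := by
  have hp : 0 < p := by omega
  rw [cN_eq a p s hs, cN_eq (a + L) p s hs]
  have h1 := Nat.add_div (a := a) (b := L) hp
  have h2 := Nat.add_mod_eq_ite (m := a) (n := L) (k := p)
  have h3 := Nat.mod_lt a hp
  have h4 := Nat.mod_lt L hp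
  rw [h1, h2]
  split_ifs <;> omega

theorem norm_block_le (p : ℕ) [Fact p.Prime] (a b : ℕ) (hab : a ≤ b) (t : ℤ) :
    padicNorm p (∏ i ∈ Ico a b, ((t : ℚ) + i)) ≤
      (p : ℚ) ^ (-((cN b p (cl p t) : ℤ) - cN a p (cl p t))) := by
  have h1 := prod_le_class (p := p) (Ico a b) (fun i => (t : ℚ) + i) (cl p t)
    (fun i _ => norm_int_le t i)
  have h2 := cN_add_cnt a b p (cl p t) hab
  have h3 : ((cN b p (cl p t) : ℤ) - cN a p (cl p t)) =
      (Z3.TermAux.cnt (Ico a b) p (cl p t) : ℤ) := by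
    rw [h2]
    push_cast
    ring
  rw [h3]
  exact h1

/-- norm of a nonzero integer below p^2 in absolute value -/
theorem norm_int_eq_abs (p : ℕ) [hp : Fact p.Prime] (t : ℤ) (i : ℕ) (h0 : t + (i : ℤ) ≠ 0)
    (h2 : (t + (i : ℤ)).natAbs < p ^ 2) :
    padicNorm p ((t : ℚ) + i) = if i % p = cl p t then (p : ℚ)⁻¹ else 1 := by
  have e1 : padicNorm p ((t : ℚ) + i) = padicNorm p (((0 : ℤ) : ℚ) + ((t + (i : ℤ)).natAbs : ℕ)) := by
    have e2 : ((t : ℚ) + i) = ((t + (i : ℤ) : ℤ) : ℚ) := by push_cast; ring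
    rw [e2, Int.cast_zero, zero_add]
    rcases Int.natAbs_eq (t + (i : ℤ)) with h | h
    · have h' : ((t + (i : ℤ) : ℤ) : ℚ) = (((t + (i : ℤ)).natAbs : ℤ) : ℚ) := by
        exact_mod_cast congrArg (Int.cast (R := ℚ)) h
      rw [h', Int.cast_natCast]
    · have h' : ((t + (i : ℤ) : ℤ) : ℚ) = -(((t + (i : ℤ)).natAbs : ℤ) : ℚ) := by
        exact_mod_cast congrArg (Int.cast (R := ℚ)) h
      rw [h', padicNorm.neg, Int.cast_natCast]
  rw [e1, norm_int_eq (p := p) 0 (t + (i : ℤ)).natAbs (by omega) (by exact_mod_cast (by simpa using h2))]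
  have h3 := dvd_iff_cls p hp.out.pos 0 (t + (i : ℤ)).natAbs
  have h4 := dvd_iff_cls p hp.out.pos t i
  rw [zero_add, Int.dvd_natCast, Int.natAbs_natCast] at h3
  have h5 : (p : ℤ) ∣ t + i ↔ p ∣ (t + (i : ℤ)).natAbs := by
    rw [← Int.natCast_dvd]
  have h6 : (t + (i : ℤ)).natAbs % p = cls p 0 ↔ i % p = cl p t := by
    rw [← h3, ← h5]
    exact h4
  by_cases h7 : i % p = cl p t
  · rw [if_pos h7, if_pos (h6.2 h7)]
  · rw [if_neg h7, if_neg (fun h => h7 (h6.1 h))]

theorem norm_block_eq (p : ℕ) [Fact p.Prime] (a b : ℕ) (hab : a ≤ b) (t : ℤ)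
    (h : ∀ i ∈ Ico a b, t + (i : ℤ) ≠ 0 ∧ (t + (i : ℤ)).natAbs < p ^ 2) :
    padicNorm p (∏ i ∈ Ico a b, ((t : ℚ) + i)) =
      (p : ℚ) ^ (-((cN b p (cl p t) : ℤ) - cN a p (cl p t))) := by
  have h1 := prod_eq_class (p := p) (Ico a b) (fun i => (t : ℚ) + i) (cl p t)
    (fun i hi => norm_int_eq_abs p t i (h i hi).1 (h i hi).2)
  have h2 := cN_add_cnt a b p (cl p t) hab
  have h3 : ((cN b p (cl p t) : ℤ) - cN a p (cl p t)) =
      (Z3.TermAux.cnt (Ico a b) p (cl p t) : ℤ) := by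
    rw [h2]
    push_cast
    ring
  rw [h3]
  exact h1

theorem norm_erase_eq (p : ℕ) [Fact p.Prime] (a b k : ℕ) (hk : k ∈ Ico a b) (hb : b < p ^ 2) :
    padicNorm p (∏ j ∈ (Ico a b).erase k, ((j : ℚ) - k)) =
      (p : ℚ) ^ (-((cN b p (k % p) : ℤ) - cN a p (k % p) - 1)) := by
  have hab : a ≤ b := by
    rw [mem_Ico] at hk
    omega
  rw [den_erase_norm (p := p) (Ico a b) k hk (fun i hi => by
    rw [mem_Ico] at hi
    omega)]
  have h2 := cN_add_cnt a b p (k % p) hab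
  congr 2
  rw [h2]
  push_cast
  ring

theorem norm_kap (n p : ℕ) [hp : Fact p.Prime] (hn : 6 * n < p ^ 2) :
    padicNorm p (kap n) = (p : ℚ) ^ (-(ee n p)) := by
  have hp0 : (p : ℚ) ≠ 0 := by exact_mod_cast hp.out.ne_zero
  unfold kap ee
  rw [padicNorm.div, padicNorm.mul, padicNorm_factorial p (by omega : 6 * n < p ^ 2),
    padicNorm_factorial p (by omega : 3 * n < p ^ 2), sq, padicNorm.mul,
    padicNorm_factorial p (by omega : 2 * n < p ^ 2), ← zpow_add₀ hp0, ← zpow_add₀ hp0,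
    ← zpow_sub₀ hp0]
  congr 1
  ring

theorem ph_add_ee (n p s : ℕ) (hs : s < p) : -1 ≤ ee n p + ph n p s := by
  have h1 := (cN_block 0 (2 * n) p s hs).1
  have h2 := (cN_block 0 (3 * n) p s hs).1
  have h3 := (cN_block n (2 * n) p s hs).1
  have h4 := (cN_block (4 * n) (6 * n) p s hs).2
  rw [zero_add] at h1 h2
  rw [show n + 2 * n = 3 * n by ring] at h3
  rw [show 4 * n + 6 * n = 10 * n by ring] at h4
  unfold ee ph
  omega

/-- every class has weight at most 3 -/
theorem ww_le (n p s : ℕ) (hs : s < p) : ww n p s ≤ 3 := by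
  have h := ph_add_ee n p s hs
  unfold ww
  omega

/-- two different numbers in a class -/
theorem add_le_of_mod_eq {p s i j : ℕ} (hi : i % p = s) (hj : j % p = s) (h : i < j) :
    i + p ≤ j := by
  have h1 := Nat.div_add_mod i p
  have h2 := Nat.div_add_mod j p
  rw [hi] at h1
  rw [hj] at h2
  have h3 : i / p < j / p := by
    by_contra h4
    push Not at h4
    have h5 := Nat.mul_le_mul_left p h4
    omega
  have h6 := Nat.mul_le_mul_left p (Nat.succ_le_of_lt h3)
  rw [Nat.mul_succ] at h6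
  omega

/-- polar in terms of the counts -/
theorem polar_iff (n p s : ℕ) (hs : s < p) :
    polar n p s ↔ cN (4 * n) p s + 1 ≤ cN (10 * n) p s ∧ cN (2 * n) p s + 2 ≤ cN (10 * n) p s := by
  have h4 := cN_add_cnt (4 * n) (10 * n) p s (by omega)
  have h2 := cN_add_cnt (2 * n) (10 * n) p s (by omega)
  rw [h4]
  constructor
  · rintro ⟨k, k1, k2, k3, k4⟩
    have h5 : 0 < Z3.TermAux.cnt (Ico (4 * n) (10 * n)) p s := by
      unfold Z3.TermAux.cnt
      exact card_pos.2 ⟨k, by rw [mem_filter, mem_Ico]; exact ⟨⟨k1, k2⟩, k3⟩⟩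
    have h6 : 2 ≤ Z3.TermAux.cnt (Ico (2 * n) (10 * n)) p s := by
      unfold Z3.TermAux.cnt
      have h7 : ({k - p, k} : Finset ℕ) ⊆ (Ico (2 * n) (10 * n)).filter (fun i => i % p = s) := by
        intro i hi
        rw [mem_insert, mem_singleton] at hi
        rw [mem_filter, mem_Ico]
        rcases hi with rfl | rfl
        · refine ⟨⟨by omega, by omega⟩, ?_⟩
          rw [← k3]
          have : k = (k - p) + p := by omega
          conv_rhs => rw [this, Nat.add_mod_right]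
        · exact ⟨⟨by omega, k2⟩, k3⟩
      have h8 := card_le_card h7
      rw [card_pair (by omega)] at h8
      exact h8
    omega
  · rintro ⟨h5, h6⟩
    have h7 : 0 < Z3.TermAux.cnt (Ico (4 * n) (10 * n)) p s := by omega
    have h8 : 1 < Z3.TermAux.cnt (Ico (2 * n) (10 * n)) p s := by omega
    unfold Z3.TermAux.cnt at h7 h8
    obtain ⟨k, hk⟩ := card_pos.1 h7
    rw [mem_filter, mem_Ico] at hk
    obtain ⟨i, hi, j, hj, hij⟩ := one_lt_card.1 h8
    rw [mem_filter, mem_Ico] at hi hj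
    -- the larger one
    obtain ⟨l, hl1, hl2, hl3⟩ : ∃ l, l < 10 * n ∧ l % p = s ∧ 2 * n + p ≤ l := by
      rcases lt_or_gt_of_ne hij with h9 | h9
      · have := add_le_of_mod_eq hi.2 hj.2 h9
        exact ⟨j, hj.1.2, hj.2, by omega⟩
      · have := add_le_of_mod_eq hj.2 hi.2 h9
        exact ⟨i, hi.1.2, hi.2, by omega⟩
    by_cases h9 : 4 * n ≤ l
    · exact ⟨l, h9, hl1, hl2, hl3⟩
    · exact ⟨k, hk.1.1, hk.1.2, hk.2, by omega⟩

/-- a class without polar pole has at most one pole -/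
theorem ph_of_not_polar (n p s : ℕ) (_hs : s < p) (h : ¬ polar n p s) : -1 ≤ ph n p s := by
  have h4 := cN_add_cnt (4 * n) (10 * n) p s (by omega)
  have h5 : Z3.TermAux.cnt (Ico (4 * n) (10 * n)) p s ≤ 1 := by
    unfold Z3.TermAux.cnt
    rw [card_le_one]
    intro i hi j hj
    rw [mem_filter, mem_Ico] at hi hj
    by_contra hij
    apply h
    rcases lt_or_gt_of_ne hij with h9 | h9
    · have := add_le_of_mod_eq hi.2 hj.2 h9
      exact ⟨j, hj.1.1, hj.1.2, hj.2, by omega⟩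
    · have := add_le_of_mod_eq hj.2 hi.2 h9
      exact ⟨i, hi.1.1, hi.1.2, hi.2, by omega⟩
  have h6 := cN_mono n (3 * n) p s (by omega)
  unfold ph
  omega

end Pool.Agent.D23
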