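import Mathlib

/-!
# Hankel determinants of a linear functional on polynomials: singularity and the gap lemma
-/

set_option autoImplicit false

namespace Pool.Agent.D23

open Polynomial Finset

variable {K : Type*} [Field K]

/-- the Hankel matrix of `l` -/
noncomputable def hank (l : K[X] →ₗ[K] K) (M : ℕ) : Matrix (Fin M) (Fin M) K :=
  Matrix.of fun i j => l (X ^ ((i : ℕ) + (j : ℕ)))

theorem hank_zero (l : K[X] →ₗ[K] K) : (hank l 0).det = 1 := Matrix.det_fin_zero

theorem l_mul_C (l : K[X] →ₗ[K] K) (P T : K[X]) (c : K) :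
    l (P * (C c * T)) = c * l (P * T) := by
  rw [show P * (C c * T) = c • (P * T) by rw [smul_eq_C_mul]; ring, map_smul, smul_eq_mul]

/-- orthogonality to monomials gives orthogonality to polynomials of small degree -/
theorem orth_of_mono (l : K[X] →ₗ[K] K) {P : K[X]} {M : ℕ}
    (h : ∀ i < M, l (P * X ^ i) = 0) {T : K[X]} (hT : T.degree < (M : WithBot ℕ)) :
    l (P * T) = 0 := by
  by_cases hT0 : T = 0
  · rw [hT0, mul_zero, map_zero]
  rw [← natDegree_lt_iff_degree_lt hT0] at hT
  rw [T.as_sum_range_C_mul_X_pow' hT, mul_sum, map_sum]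
  refine sum_eq_zero fun i hi => ?_
  rw [l_mul_C, h i (mem_range.1 hi), mul_zero]

/-- the entries of `hank l M` applied to a coefficient vector -/
theorem hank_mulVec (l : K[X] →ₗ[K] K) {M : ℕ} (P : K[X]) (hP : P.degree < (M : WithBot ℕ))
    (i : Fin M) :
    (hank l M).mulVec (fun j => P.coeff (j : ℕ)) i = l (P * X ^ (i : ℕ)) := by
  have e : P = ∑ j : Fin M, C (P.coeff (j : ℕ)) * X ^ (j : ℕ) := by
    by_cases hP0 : P = 0
    · subst hP0
      simp
    · rw [← natDegree_lt_iff_degree_lt hP0] at hP
      conv_lhs => rw [P.as_sum_range_C_mul_X_pow' hP]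
      rw [Finset.sum_range fun j => C (P.coeff j) * X ^ j]
  conv_rhs => rw [e, sum_mul, map_sum]
  unfold Matrix.mulVec dotProduct
  refine sum_congr rfl fun j _ => ?_
  rw [show C (P.coeff (j : ℕ)) * X ^ (j : ℕ) * X ^ (i : ℕ) =
    X ^ (i : ℕ) * (C (P.coeff (j : ℕ)) * X ^ (j : ℕ)) by ring, l_mul_C, ← pow_add]
  simp only [hank, Matrix.of_apply]
  ring

/-- a singular Hankel matrix gives a polynomial orthogonal to all polynomials of small degree -/
theorem sing (l : K[X] →ₗ[K] K) {M : ℕ} (h : (hank l M).det = 0) :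
    ∃ P : K[X], P ≠ 0 ∧ P.degree < (M : WithBot ℕ) ∧ ∀ i < M, l (P * X ^ i) = 0 := by
  obtain ⟨v, hv, hMv⟩ := Matrix.exists_mulVec_eq_zero_iff.2 h
  set P := ((degreeLTEquiv K M).symm v) with hPdef
  have hPm : (P : K[X]).degree < (M : WithBot ℕ) := mem_degreeLT.1 P.2
  have hco : (fun j : Fin M => (P : K[X]).coeff (j : ℕ)) = v := by
    have := (degreeLTEquiv K M).apply_symm_apply v
    exact this
  refine ⟨P, ?_, hPm, ?_⟩
  · intro h0
    apply hv
    rw [← hco, h0]
    funext j
    simp
  · intro i hi
    rw [← hank_mulVec l (P : K[X]) hPm ⟨i, hi⟩, hco, hMv]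
    rfl

/-- if the Hankel matrix is nonsingular, only `0` is orthogonal to everything of small degree -/
theorem nons (l : K[X] →ₗ[K] K) {M : ℕ} (h : (hank l M).det ≠ 0) {P : K[X]}
    (hP : P.degree < (M : WithBot ℕ)) (ho : ∀ i < M, l (P * X ^ i) = 0) : P = 0 := by
  have hv : (hank l M).mulVec (fun j => P.coeff (j : ℕ)) = 0 := by
    funext i
    rw [hank_mulVec l P hP i, ho i i.2]
    rfl
  have h0 := Matrix.eq_zero_of_mulVec_eq_zero h hv
  ext j
  rw [coeff_zero]
  by_cases hj : j < M
  · exact congrFun h0 ⟨j, hj⟩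
  · refine coeff_eq_zero_of_degree_lt (hP.trans_le ?_)
    exact_mod_cast not_lt.1 hj

/-- if the Hankel matrix is nonsingular, there is a monic orthogonal polynomial of degree `m` -/
theorem exists_monic (l : K[X] →ₗ[K] K) {m : ℕ} (h : (hank l m).det ≠ 0) :
    ∃ Q : K[X], Q.Monic ∧ Q.natDegree = m ∧ ∀ i < m, l (Q * X ^ i) = 0 := by
  set w : Fin m → K := fun i => -l (X ^ (m + (i : ℕ))) with hw
  set v : Fin m → K := (hank l m)⁻¹.mulVec w with hv
  have hvw : (hank l m).mulVec v = w := by
    rw [hv, Matrix.mulVec_mulVec, Matrix.mul_nonsing_inv _ (isUnit_iff_ne_zero.2 h),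
      Matrix.one_mulVec]
  set P := ((degreeLTEquiv K m).symm v) with hPdef
  have hPm : (P : K[X]).degree < (m : WithBot ℕ) := mem_degreeLT.1 P.2
  have hco : (fun j : Fin m => (P : K[X]).coeff (j : ℕ)) = v := by
    have := (degreeLTEquiv K m).apply_symm_apply v
    exact this
  refine ⟨X ^ m + (P : K[X]), monic_X_pow_add hPm, ?_, ?_⟩
  · rw [natDegree_add_eq_left_of_degree_lt (by rwa [degree_X_pow]), natDegree_X_pow]
  · intro i hi
    have h1 : l ((P : K[X]) * X ^ i) = -l (X ^ (m + i)) := by
      have := hank_mulVec l (P : K[X]) hPm ⟨i, hi⟩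
      rw [hco, hvw] at this
      exact this.symm
    rw [add_mul, map_add, h1, ← pow_add]
    ring

/-- the gap lemma -/
theorem gap (l : K[X] →ₗ[K] K) {m k : ℕ} (h : (hank l m).det ≠ 0)
    (hz : ∀ j, 1 ≤ j → j ≤ k → (hank l (m + j)).det = 0) :
    ∃ Q : K[X], Q.Monic ∧ Q.natDegree = m ∧
      ∀ T : K[X], T.degree < ((m + k : ℕ) : WithBot ℕ) → l (Q * T) = 0 := by
  obtain ⟨Q, hQm, hQd, hQ⟩ := exists_monic l h
  have key : ∀ j ≤ k, ∀ i < m + j, l (Q * X ^ i) = 0 := by
    intro j
    induction j with
    | zero =>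
      intro _ i hi
      exact hQ i (by simpa using hi)
    | succ j ih =>
      intro hj i hi
      have ih' := ih (by omega)
      by_cases hi2 : i < m + j
      · exact ih' i hi2
      have hi3 : i = m + j := by omega
      subst hi3
      obtain ⟨P, hP0, hPd, hPo⟩ := sing l (hz (j + 1) (by omega) hj)
      -- divide
      set S := P /ₘ Q with hS
      set R0 := P %ₘ Q with hR0
      have hdiv : R0 + Q * S = P := modByMonic_add_div P Q
      have hR0d : R0.degree < (m : WithBot ℕ) := by
        have := degree_modByMonic_lt P hQm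
        rwa [degree_eq_natDegree hQm.ne_zero, hQd] at this
      have hPnd : P.natDegree < m + (j + 1) := (natDegree_lt_iff_degree_lt hP0).2 hPd
      have hSnd : S.natDegree = P.natDegree - m := by
        rw [hS, natDegree_divByMonic P hQm, hQd]
      have hQT : ∀ T : K[X], T.degree < ((m + j : ℕ) : WithBot ℕ) → l (Q * T) = 0 :=
        fun T hT => orth_of_mono l ih' hT
      have hR0z : R0 = 0 := by
        refine nons l h hR0d fun i hi => ?_
        have h1 : l (P * X ^ i) = 0 := hPo i (by omega)
        rw [← hdiv, add_mul, map_add, mul_assoc] at h1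
        have h2 : l (Q * (S * X ^ i)) = 0 := by
          apply hQT
          refine (degree_mul_le _ _).trans_lt ?_
          by_cases hS0 : S = 0
          · rw [hS0, degree_zero, WithBot.bot_add]
            exact WithBot.bot_lt_coe _
          · rw [degree_eq_natDegree hS0, degree_X_pow]
            have : S.natDegree + i < m + j := by omega
            exact_mod_cast this
        rw [h2, add_zero] at h1
        exact h1
      rw [hR0z, zero_add] at hdiv
      have hS0 : S ≠ 0 := by
        intro h0
        rw [h0, mul_zero] at hdiv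
        exact hP0 hdiv.symm
      have hmP : m ≤ P.natDegree := by
        rw [← hdiv, hQm.natDegree_mul' hS0, hQd]
        omega
      set s := S.natDegree with hs
      have hsj : s ≤ j := by omega
      have h1 : l (P * X ^ (m + j - s)) = 0 := hPo _ (by omega)
      rw [← hdiv, mul_assoc] at h1
      -- split the leading term
      have hlead : S = C S.leadingCoeff * X ^ s + S.eraseLead := by
        rw [add_comm]
        exact (eraseLead_add_C_mul_X_pow S).symm
      have hsplit : Q * (S * X ^ (m + j - s)) =
          Q * (C S.leadingCoeff * X ^ (m + j)) + Q * (S.eraseLead * X ^ (m + j - s)) := by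
        conv_lhs => rw [hlead]
        have : X ^ s * X ^ (m + j - s) = (X : K[X]) ^ (m + j) := by
          rw [← pow_add]
          congr 1
          omega
        rw [← this]
        ring
      rw [hsplit, map_add] at h1
      have h2 : l (Q * (S.eraseLead * X ^ (m + j - s))) = 0 := by
        apply hQT
        refine (degree_mul_le _ _).trans_lt ?_
        by_cases he : S.eraseLead = 0
        · rw [he, degree_zero, WithBot.bot_add]
          exact WithBot.bot_lt_coe _
        · rw [degree_eq_natDegree he, degree_X_pow]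
          have h3 : S.eraseLead.natDegree < s := by
            have hle := eraseLead_natDegree_lt_or_eraseLead_eq_zero S
            rcases hle with hle | hle
            · exact hle
            · exact absurd hle he
          have : S.eraseLead.natDegree + (m + j - s) < m + j := by omega
          exact_mod_cast this
      rw [h2, add_zero, l_mul_C] at h1
      rcases mul_eq_zero.1 h1 with h3 | h3
      · exact absurd (leadingCoeff_eq_zero.1 h3) hS0
      · exact h3
  exact ⟨Q, hQm, hQd, fun T hT => orth_of_mono l (key k le_rfl) hT⟩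

/-- window form: if no monic `Q` of degree `m < M1` is orthogonal to everything of degree
`< m + k`, then every window `(M0, M0 + k]` with `M0 < M1` contains a nonsingular size -/
theorem window (l : K[X] →ₗ[K] K) {k M1 : ℕ}
    (hno : ∀ Q : K[X], Q.Monic → Q.natDegree < M1 →
      ∃ T : K[X], T.degree < ((Q.natDegree + k : ℕ) : WithBot ℕ) ∧ l (Q * T) ≠ 0) :
    ∀ M0 < M1, ∃ M, M0 < M ∧ M ≤ M0 + k ∧ (hank l M).det ≠ 0 := by
  intro M0
  induction M0 with
  | zero =>
    intro hM0
    by_contra hcon
    push Not at hcon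
    obtain ⟨Q, hQm, hQd, hQ⟩ := gap l (m := 0) (k := k) (by rw [hank_zero]; exact one_ne_zero)
      (fun j hj hjk => hcon (0 + j) (by omega) (by omega))
    obtain ⟨T, hT, hlT⟩ := hno Q hQm (by omega)
    rw [hQd] at hT
    exact hlT (hQ T hT)
  | succ M0 ih =>
    intro hM0
    obtain ⟨M, h1, h2, h3⟩ := ih (by omega)
    by_cases hM : M0 + 1 < M
    · exact ⟨M, hM, by omega, h3⟩
    have hMe : M = M0 + 1 := by omega
    subst hMe
    by_contra hcon
    push Not at hcon
    obtain ⟨Q, hQm, hQd, hQ⟩ := gap l (m := M0 + 1) (k := k) h3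
      (fun j hj hjk => hcon (M0 + 1 + j) (by omega) (by omega))
    obtain ⟨T, hT, hlT⟩ := hno Q hQm (by omega)
    rw [hQd] at hT
    exact hlT (hQ T hT)

end Pool.Agent.D23
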