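import Pool.Agent.D23.Lin
import Pool.Agent.D23.DetCost

/-!
# LIN: one prime, from the classes to the normalised determinant
-/

open Finset Polynomial

namespace Pool.Agent.D23

open Pool.Agent.Z3D (ccost uses gram)

section
variable {p : ℕ} [hp : Fact p.Prime]

theorem Gn_eq_nod (s : ℕ → ℕ) (i : ℕ) : Gn s i = nod s i := rfl

theorem numP_monic {r : ℕ} (Zb : Fin r → Finset ℕ) : (numP Zb).Monic :=
  monic_prod_of_monic _ _ (fun _ _ => monic_prod_of_monic _ _ (fun _ _ => monic_X_add_C _))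

theorem numP_natDegree {r : ℕ} (Zb : Fin r → Finset ℕ) :
    (numP Zb).natDegree = ∑ b, (Zb b).card := by
  unfold numP
  rw [natDegree_prod_of_monic _ _
    (fun _ _ => monic_prod_of_monic _ _ (fun _ _ => monic_X_add_C _))]
  refine sum_congr rfl (fun b _ => ?_)
  rw [natDegree_prod_of_monic _ _ (fun _ _ => monic_X_add_C _)]
  simp only [natDegree_X_add_C, sum_const, smul_eq_mul, mul_one]

theorem natDegree_entry_le {r : ℕ} (Zb : Fin r → Finset ℕ) (K : Finset ℕ) (κ : ℚ) (P : ℚ[X]) :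
    (P * (C κ * numP Zb) /ₘ den K).natDegree ≤ P.natDegree + ∑ b, (Zb b).card - K.card := by
  rw [natDegree_divByMonic _ (den_monic K), den_natDegree]
  have h1 : (P * (C κ * numP Zb)).natDegree ≤ P.natDegree + ∑ b, (Zb b).card := by
    refine natDegree_mul_le.trans ?_
    refine Nat.add_le_add_left ((natDegree_C_mul_le _ _).trans ?_) _
    rw [numP_natDegree]
  omega

/-- **LIN**, composed: the Hankel determinant of the rational functional. -/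
theorem det_Lr_lin (h2p : p ≠ 2) {r : ℕ} (Zb : Fin r → Finset ℕ) (K : Finset ℕ) (κ : ℚ) (e0 : ℤ)
    (hκ : padicNorm p κ ≤ (p : ℚ) ^ (-e0)) (hK : ∀ k ∈ K, k < p ^ 2) (m : ℤ)
    (hm : ∀ k ∈ K, 1 ≤ m + k) (M N : ℕ) (hN : 2 * M + ∑ b, (Zb b).card < N + 2 + K.card)
    (hN0 : 0 < N) (hNp : N < p ^ 2) (hNK : ∀ k ∈ K, m + N + k ≤ (p : ℤ) ^ 2) (z c0 c1 : ℤ)
    (lam : ℤ) :
    padicNorm p (gram (Lr K m (C κ * numP Zb) z c0 c1) (fun i => X ^ i) M).det ≤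
      (p : ℚ) ^ (lam * M + ∑ t ∈ range p, ccost (2 - e0 - phi Zb K p t - lam)) := by
  refine det_lin p (Lr K m (C κ * numP Zb) z c0 c1) (fun t => 2 - e0 - phi Zb K p t) M
    (fun s hs i j hi hj B hB => ?_) lam
  rw [← Gn_eq_nod, ← Gn_eq_nod]
  refine elin h2p Zb K κ e0 hκ s hs i j hK m hm N ?_ hNp hNK B hB z c0 c1
  refine (natDegree_entry_le Zb K κ (Gn s i * Gn s j)).trans_lt ?_
  have h1 : (Gn s i * Gn s j).natDegree = i + j := by
    rw [(Gn_monic s i).natDegree_mul (Gn_monic s j), Gn_natDegree, Gn_natDegree]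
  rw [h1]
  omega

/-- the same with the normalisation by the squares of the factorials -/
theorem det_Lr_lin_norm (h2p : p ≠ 2) {r : ℕ} (Zb : Fin r → Finset ℕ) (K : Finset ℕ) (κ : ℚ)
    (e0 : ℤ) (hκ : padicNorm p κ ≤ (p : ℚ) ^ (-e0)) (hK : ∀ k ∈ K, k < p ^ 2) (m : ℤ)
    (hm : ∀ k ∈ K, 1 ≤ m + k) (M N : ℕ) (hN : 2 * M + ∑ b, (Zb b).card < N + 2 + K.card)
    (hN0 : 0 < N) (hNp : N < p ^ 2) (hNK : ∀ k ∈ K, m + N + k ≤ (p : ℤ) ^ 2) (hM : M ≤ p ^ 2)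
    (z c0 c1 : ℤ) (lam : ℤ) :
    padicNorm p ((gram (Lr K m (C κ * numP Zb) z c0 c1) (fun i => X ^ i) M).det /
        ∏ i ∈ range M, (i.factorial : ℚ) ^ 2) ≤
      (p : ℚ) ^ (lam * M + ∑ t ∈ range p, ccost (2 - e0 - phi Zb K p t - lam) +
        2 * ((M / p : ℕ) : ℤ) * M - p * (((M / p : ℕ) : ℤ) * (((M / p : ℕ) : ℤ) + 1))) :=
  padicNorm_norm_le p _ M hM _
    (det_Lr_lin h2p Zb K κ e0 hκ hK m hm M N hN hN0 hNp hNK z c0 c1 lam)

end

end Pool.Agent.D23
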