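import Pool.Agent.Z3.Shift

/-!
Functions that are analytic and of polynomial growth on a right half plane.
-/

open Finset Filter Topology Complex MeasureTheory
open scoped BigOperators

namespace Pool.Agent.D23

open Pool.Agent.Z3

/-- analytic and of polynomial growth on the half plane `x0 < Re t` -/
def HG (x0 : ℝ) (g : ℂ → ℂ) : Prop :=
  DifferentiableOn ℂ g {t | x0 < t.re} ∧
    ∃ (C : ℝ) (d : ℕ), ∀ t : ℂ, x0 < t.re → ‖g t‖ ≤ C * (1 + ‖t‖) ^ d

theorem isOpen_half (x0 : ℝ) : IsOpen {t : ℂ | x0 < t.re} :=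
  isOpen_lt continuous_const Complex.continuous_re

theorem HG.mono {x0 x1 : ℝ} {g : ℂ → ℂ} (h : HG x0 g) (hx : x0 ≤ x1) : HG x1 g := by
  obtain ⟨h1, C, d, h2⟩ := h
  refine ⟨h1.mono (fun t ht => ?_), C, d, fun t ht => h2 t (lt_of_le_of_lt hx ht)⟩
  exact lt_of_le_of_lt hx ht

theorem HG.differentiableAt {x0 : ℝ} {g : ℂ → ℂ} (h : HG x0 g) {t : ℂ} (ht : x0 < t.re) :
    DifferentiableAt ℂ g t :=
  h.1.differentiableAt ((isOpen_half x0).mem_nhds ht)

/-- the constant may be taken nonnegative and the exponent enlarged -/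
theorem HG.bound {x0 : ℝ} {g : ℂ → ℂ} (h : HG x0 g) :
    ∃ (C : ℝ) (d : ℕ), 0 ≤ C ∧ ∀ e : ℕ, d ≤ e → ∀ t : ℂ, x0 < t.re →
      ‖g t‖ ≤ C * (1 + ‖t‖) ^ e := by
  obtain ⟨_, C, d, h2⟩ := h
  refine ⟨|C|, d, abs_nonneg C, fun e he t ht => ?_⟩
  have h3 : (1 : ℝ) ≤ 1 + ‖t‖ := by linarith [norm_nonneg t]
  calc ‖g t‖ ≤ C * (1 + ‖t‖) ^ d := h2 t ht
    _ ≤ |C| * (1 + ‖t‖) ^ d := by
        have := le_abs_self C
        gcongr
    _ ≤ |C| * (1 + ‖t‖) ^ e := by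
        have := pow_le_pow_right₀ h3 he
        gcongr

theorem HG.congr {x0 : ℝ} {f g : ℂ → ℂ} (h : HG x0 f) (hfg : ∀ t : ℂ, x0 < t.re → g t = f t) :
    HG x0 g := by
  obtain ⟨h1, C, d, h2⟩ := h
  exact ⟨h1.congr (fun t ht => hfg t ht), C, d, fun t ht => by rw [hfg t ht]; exact h2 t ht⟩

theorem HG.const (x0 : ℝ) (c : ℂ) : HG x0 (fun _ => c) :=
  ⟨differentiableOn_const c, ‖c‖, 0, fun t _ => by simp⟩

theorem HG.id (x0 : ℝ) : HG x0 (fun t => t) :=
  ⟨differentiableOn_id, 1, 1, fun t _ => by rw [one_mul, pow_one]; linarith⟩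

theorem HG.add {x0 : ℝ} {f g : ℂ → ℂ} (hf : HG x0 f) (hg : HG x0 g) :
    HG x0 (fun t => f t + g t) := by
  obtain ⟨C, d, hC, h1⟩ := hf.bound
  obtain ⟨C', d', hC', h2⟩ := hg.bound
  refine ⟨hf.1.add hg.1, C + C', max d d', fun t ht => ?_⟩
  calc ‖f t + g t‖ ≤ ‖f t‖ + ‖g t‖ := norm_add_le _ _
    _ ≤ C * (1 + ‖t‖) ^ (max d d') + C' * (1 + ‖t‖) ^ (max d d') :=
        add_le_add (h1 _ (le_max_left _ _) t ht) (h2 _ (le_max_right _ _) t ht)
    _ = (C + C') * (1 + ‖t‖) ^ (max d d') := by ring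

theorem HG.mul {x0 : ℝ} {f g : ℂ → ℂ} (hf : HG x0 f) (hg : HG x0 g) :
    HG x0 (fun t => f t * g t) := by
  obtain ⟨C, d, hC, h1⟩ := hf.bound
  obtain ⟨C', d', hC', h2⟩ := hg.bound
  refine ⟨hf.1.mul hg.1, C * C', d + d', fun t ht => ?_⟩
  have h3 : (0 : ℝ) ≤ 1 + ‖t‖ := by linarith [norm_nonneg t]
  calc ‖f t * g t‖ = ‖f t‖ * ‖g t‖ := norm_mul _ _
    _ ≤ (C * (1 + ‖t‖) ^ d) * (C' * (1 + ‖t‖) ^ d') :=
        mul_le_mul (h1 _ le_rfl t ht) (h2 _ le_rfl t ht) (norm_nonneg _) (by positivity)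
    _ = (C * C') * (1 + ‖t‖) ^ (d + d') := by rw [pow_add]; ring

theorem HG.const_mul {x0 : ℝ} {f : ℂ → ℂ} (c : ℂ) (hf : HG x0 f) :
    HG x0 (fun t => c * f t) := (HG.const x0 c).mul hf

theorem HG.neg {x0 : ℝ} {f : ℂ → ℂ} (hf : HG x0 f) : HG x0 (fun t => - f t) :=
  (hf.const_mul (-1)).congr (fun t _ => by ring)

theorem HG.sub {x0 : ℝ} {f g : ℂ → ℂ} (hf : HG x0 f) (hg : HG x0 g) :
    HG x0 (fun t => f t - g t) :=
  (hf.add hg.neg).congr (fun t _ => by ring)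

theorem HG.sum {x0 : ℝ} {ι : Type*} (S : Finset ι) (f : ι → ℂ → ℂ)
    (h : ∀ i ∈ S, HG x0 (f i)) : HG x0 (fun t => ∑ i ∈ S, f i t) := by
  classical
  induction S using Finset.induction_on with
  | empty => simpa using HG.const x0 0
  | insert a s ha ih =>
    have h1 := (h a (mem_insert_self a s)).add (ih (fun i hi => h i (mem_insert_of_mem hi)))
    exact h1.congr (fun t _ => by rw [sum_insert ha])

theorem HG.prod {x0 : ℝ} {ι : Type*} (S : Finset ι) (f : ι → ℂ → ℂ)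
    (h : ∀ i ∈ S, HG x0 (f i)) : HG x0 (fun t => ∏ i ∈ S, f i t) := by
  classical
  induction S using Finset.induction_on with
  | empty => simpa using HG.const x0 1
  | insert a s ha ih =>
    have h1 := (h a (mem_insert_self a s)).mul (ih (fun i hi => h i (mem_insert_of_mem hi)))
    exact h1.congr (fun t _ => by rw [prod_insert ha])

theorem HG.pow {x0 : ℝ} {f : ℂ → ℂ} (hf : HG x0 f) (n : ℕ) : HG x0 (fun t => f t ^ n) := by
  induction n with
  | zero => simpa using HG.const x0 1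
  | succ n ih => exact (ih.mul hf).congr (fun t _ => by rw [pow_succ])

theorem HG_poly (x0 : ℝ) (P : Polynomial ℂ) : HG x0 (fun t => P.eval t) := by
  have h : HG x0 (fun t => ∑ i ∈ range (P.natDegree + 1), P.coeff i * t ^ i) :=
    HG.sum _ _ (fun i _ => ((HG.id x0).pow i).const_mul _)
  exact h.congr (fun t _ => by rw [Polynomial.eval_eq_sum_range])

/-- simple pole at `-k` to the left of the half plane -/
theorem HG_inv {x0 : ℝ} (k : ℝ) (hk : -k < x0) : HG x0 (fun t => 1 / (t + (k : ℂ))) := by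
  have hre : ∀ t : ℂ, x0 < t.re → x0 + k < (t + (k : ℂ)).re := by
    intro t ht
    rw [add_re, ofReal_re]
    linarith
  have hne : ∀ t : ℂ, x0 < t.re → t + (k : ℂ) ≠ 0 := by
    intro t ht h0
    have := hre t ht
    rw [h0, zero_re] at this
    linarith
  refine ⟨?_, 1 / (x0 + k), 0, fun t ht => ?_⟩
  · exact (differentiableOn_const _).div (differentiableOn_id.add (differentiableOn_const _))
      (fun t ht => hne t ht)
  · rw [pow_zero, mul_one, norm_div, norm_one]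
    have h1 := (Complex.abs_re_le_norm (t + (k : ℂ)))
    have h2 := hre t ht
    have h3 : x0 + k ≤ ‖t + (k : ℂ)‖ := by
      have := le_abs_self (t + (k : ℂ)).re
      linarith
    exact one_div_le_one_div_of_le (by linarith) h3

theorem HG.comp_add {x0 : ℝ} {g : ℂ → ℂ} (h : HG x0 g) (a : ℝ) (ha : 0 ≤ a) :
    HG x0 (fun t => g (t + (a : ℂ))) := by
  obtain ⟨C, d, hC, h1⟩ := h.bound
  refine ⟨?_, C * (1 + a) ^ d, d, fun t ht => ?_⟩
  · refine h.1.comp (differentiableOn_id.add (differentiableOn_const _)) (fun t ht => ?_)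
    have h3 : x0 < t.re := ht
    change x0 < (t + (a : ℂ)).re
    rw [add_re, ofReal_re]
    linarith
  · have h2 : x0 < (t + (a : ℂ)).re := by
      rw [add_re, ofReal_re]; linarith
    have h3 : 1 + ‖t + (a : ℂ)‖ ≤ (1 + a) * (1 + ‖t‖) := by
      have h4 : ‖t + (a : ℂ)‖ ≤ ‖t‖ + a := by
        refine (norm_add_le _ _).trans ?_
        rw [Complex.norm_real, Real.norm_eq_abs, abs_of_nonneg ha]
      nlinarith [norm_nonneg t]
    calc ‖g (t + (a : ℂ))‖ ≤ C * (1 + ‖t + (a : ℂ)‖) ^ d := h1 d le_rfl _ h2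
      _ ≤ C * ((1 + a) * (1 + ‖t‖)) ^ d := by
          have h5 : (0 : ℝ) ≤ 1 + ‖t + (a : ℂ)‖ := by positivity
          gcongr
      _ = C * (1 + a) ^ d * (1 + ‖t‖) ^ d := by rw [mul_pow]; ring

/-- Cauchy estimate -/
theorem HG.deriv {x0 x1 : ℝ} {g : ℂ → ℂ} (h : HG x0 g) (hx : x0 < x1) : HG x1 (deriv g) := by
  obtain ⟨C, d, hC, h1⟩ := h.bound
  set δ : ℝ := (x1 - x0) / 2 with hδ
  have hδ0 : 0 < δ := by rw [hδ]; linarith
  refine ⟨(h.1.deriv (isOpen_half x0)).mono (fun t ht => lt_trans hx ht),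
    C * (1 + δ) ^ d / δ, d, fun t ht => ?_⟩
  have hball : ∀ z ∈ Metric.closedBall t δ, x0 < z.re := by
    intro z hz
    rw [Metric.mem_closedBall, dist_eq_norm] at hz
    have h2 := (Complex.abs_re_le_norm (z - t)).trans hz
    rw [sub_re] at h2
    have h3 := (abs_le.mp h2).1
    have h4 : 2 * δ = x1 - x0 := by rw [hδ]; ring
    linarith
  have hd : DiffContOnCl ℂ g (Metric.ball t δ) := by
    refine DifferentiableOn.diffContOnCl ?_
    rw [closure_ball t hδ0.ne']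
    exact h.1.mono (fun z hz => hball z hz)
  have h5 := Complex.norm_deriv_le_of_forall_mem_sphere_norm_le (c := t) (R := δ)
    (C := C * (1 + δ) ^ d * (1 + ‖t‖) ^ d) hδ0 hd ?_
  · calc ‖_root_.deriv g t‖ ≤ C * (1 + δ) ^ d * (1 + ‖t‖) ^ d / δ := h5
      _ = C * (1 + δ) ^ d / δ * (1 + ‖t‖) ^ d := by ring
  · intro z hz
    have hz2 : z ∈ Metric.closedBall t δ := Metric.sphere_subset_closedBall hz
    have h6 := h1 d le_rfl z (hball z hz2)
    have h7 : ‖z‖ ≤ ‖t‖ + δ := by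
      have h8 : ‖z‖ ≤ ‖t‖ + ‖z - t‖ := by
        have := norm_add_le t (z - t)
        rwa [add_sub_cancel] at this
      rw [mem_closedBall_iff_norm] at hz2
      linarith
    have h9 : 1 + ‖z‖ ≤ (1 + δ) * (1 + ‖t‖) := by nlinarith [norm_nonneg t]
    calc ‖g z‖ ≤ C * (1 + ‖z‖) ^ d := h6
      _ ≤ C * ((1 + δ) * (1 + ‖t‖)) ^ d := by
          have h5 : (0 : ℝ) ≤ 1 + ‖z‖ := by positivity
          gcongr
      _ = C * (1 + δ) ^ d * (1 + ‖t‖) ^ d := by rw [mul_pow]; ring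

theorem HG.iteratedDeriv {x0 x1 : ℝ} {g : ℂ → ℂ} (h : HG x0 g) (hx : x0 < x1) (j : ℕ) :
    HG x1 (iteratedDeriv j g) := by
  induction j generalizing x0 x1 with
  | zero =>
    rw [iteratedDeriv_zero]
    exact h.mono hx.le
  | succ j ih =>
    rw [iteratedDeriv_succ]
    have h1 : x0 < (x0 + x1) / 2 := by linarith
    exact (ih h h1).deriv (by linarith)

theorem HG.polyGrowth {x0 : ℝ} {g : ℂ → ℂ} (h : HG x0 g) (m : ℤ) (hm : x0 < (m : ℝ) - 1 / 2) :
    PolyGrowth m g := by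
  obtain ⟨C, d, hC, h1⟩ := h.bound
  refine ⟨C * (|(m : ℝ)| + 3 / 2) ^ d, d, fun t ht1 ht2 => ?_⟩
  have h2 : ‖t‖ ≤ |(m : ℝ)| + 1 / 2 + |t.im| := by
    have h3 := Complex.norm_le_abs_re_add_abs_im t
    have h4 : |t.re| ≤ |(m : ℝ)| + 1 / 2 := by
      rw [abs_le]
      have h5 := neg_abs_le (m : ℝ)
      have h6 := le_abs_self (m : ℝ)
      constructor <;> linarith
    linarith
  have h3 : 1 + ‖t‖ ≤ (|(m : ℝ)| + 3 / 2) * (1 + |t.im|) := by
    nlinarith [abs_nonneg t.im, abs_nonneg (m : ℝ)]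
  calc ‖g t‖ ≤ C * (1 + ‖t‖) ^ d := h1 d le_rfl t (lt_of_lt_of_le hm ht1)
    _ ≤ C * ((|(m : ℝ)| + 3 / 2) * (1 + |t.im|)) ^ d := by
        have h5 : (0 : ℝ) ≤ 1 + ‖t‖ := by positivity
        gcongr
    _ = C * (|(m : ℝ)| + 3 / 2) ^ d * (1 + |t.im|) ^ d := by rw [mul_pow]; ring

/-- `Iint_shift` for functions of class `HG` -/
theorem HG.shift {x0 : ℝ} {g : ℂ → ℂ} (h : HG x0 g) (m : ℤ) (hm : x0 < (m : ℝ) - 1 / 2) :
    Iint m g - Iint (m + 1) g = - _root_.deriv g (m : ℂ) :=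
  Iint_shift m g {t | x0 < t.re} (isOpen_half x0) (fun _ h1 _ => lt_of_lt_of_le hm h1) h.1
    (h.polyGrowth m hm)

/-- integrability against the kernel on the line `Re t = m - 1/2` -/
theorem HG.integrable {x0 : ℝ} {g : ℂ → ℂ} (h : HG x0 g) (m : ℤ) (hm : x0 < (m : ℝ) - 1 / 2) :
    Integrable (fun y : ℝ => g ((m : ℂ) - 1 / 2 + (y : ℂ) * Complex.I) * (Ker y : ℂ)) :=
  line_integrable m g {t | x0 < t.re} (isOpen_half x0) (fun _ h1 _ => lt_of_lt_of_le hm h1) h.1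
    (h.polyGrowth m hm) m (Or.inl rfl)

end Pool.Agent.D23
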