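import Mathlib
import Pool.Agent.D23.ArchLog

/-! Uniform logarithmic bound of `M! ∏ hn` (no sequence `B`), for the measure and for exponents. -/

open Finset

namespace Pool.Agent.D23

theorem hn_prod_log (μ θ K : ℕ) (hμ : 1 ≤ μ) (hθ : 1 ≤ θ) :
    ∃ C : ℝ, 0 ≤ C ∧ ∀ n : ℕ, 1 ≤ n → ∀ M : ℕ, M ≤ θ * n → θ * n ≤ M + K →
      (M.factorial : ℝ) * ∏ j ∈ range M, hn (μ * n) j ≤
        (∏ j ∈ range M, ((j.factorial : ℝ)) ^ 2) *
          Real.exp (2 * μ * n * M * Real.log n + (n : ℝ) ^ 2 * archPsi μ θ 0 +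
            C * (n * Real.log (n + 1))) := by
  obtain ⟨C, hC0, hC⟩ := arch_log μ θ K hμ hθ 0 0 le_rfl
    (fun n => Real.exp (-(2 * μ * n * Real.log n))) (fun n _ => Real.exp_pos _)
    (fun n _ => by rw [Real.log_exp]; linarith)
  refine ⟨C, hC0, fun n hn1 M h1 h2 => ?_⟩
  have h := hC n hn1 M h1 h2
  have hE : (0 : ℝ) < Real.exp (-(2 * μ * n * Real.log n)) ^ M := by positivity
  have e1 : Real.exp (-(2 * μ * n * Real.log n)) ^ M = Real.exp (-(2 * μ * n * M * Real.log n)) := by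
    rw [← Real.exp_nat_mul]
    congr 1
    ring
  have e2 : Real.exp (2 * μ * n * M * Real.log n) * Real.exp (-(2 * μ * n * M * Real.log n)) = 1 := by
    rw [← Real.exp_add]
    simp
  have hX : (0 : ℝ) < Real.exp (2 * μ * n * M * Real.log n) := Real.exp_pos _
  simp only [e1] at h
  have h3 := mul_le_mul_of_nonneg_left h hX.le
  have e3 : Real.exp (2 * μ * n * M * Real.log n) * ((M.factorial : ℝ) *
      (Real.exp (-(2 * μ * n * M * Real.log n)) * ∏ j ∈ range M, hn (μ * n) j)) =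
      (Real.exp (2 * μ * n * M * Real.log n) * Real.exp (-(2 * μ * n * M * Real.log n))) *
        ((M.factorial : ℝ) * ∏ j ∈ range M, hn (μ * n) j) := by ring
  have e4 : Real.exp (2 * μ * n * M * Real.log n) * ((∏ j ∈ range M, ((j.factorial : ℝ)) ^ 2) *
      Real.exp ((n : ℝ) ^ 2 * archPsi μ θ 0 + C * (n * Real.log (n + 1)))) =
      (∏ j ∈ range M, ((j.factorial : ℝ)) ^ 2) *
        Real.exp (2 * μ * n * M * Real.log n + (n : ℝ) ^ 2 * archPsi μ θ 0 +
            C * (n * Real.log (n + 1))) := by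
    rw [add_assoc (2 * μ * n * M * Real.log n), Real.exp_add (2 * μ * n * M * Real.log n)]
    ring
  rw [e3, e4, e2, one_mul] at h3
  exact h3

end Pool.Agent.D23
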