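import Pool.Agent.Z3.Form

/-!
# The integral against the kernel on polynomials and simple poles

`Iint m g` is the integral of `g` against pi/(2 cosh(pi y)^2) over the line Re t = m - 1/2.
Here: closure properties of `PolyGrowth`, the values on polynomials (Bernoulli numbers), the values
of the derivatives of simple poles, and the linear form in 1, zeta(2), zeta(3).
-/

open Finset Filter Topology Complex MeasureTheory Polynomial
open scoped BigOperators

namespace Pool.Agent.D23

open Pool.Agent.Z3 (PolyGrowth line_re line_im Iint H Ker zeta3)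

theorem growth_const (m : ℤ) (c : ℂ) : PolyGrowth m (fun _ => c) :=
  ⟨‖c‖, 0, fun t _ _ => by simp⟩

theorem growth_id (m : ℤ) : PolyGrowth m (fun t => t) := by
  refine ⟨|(m : ℝ)| + 2, 1, fun t h1 h2 => ?_⟩
  have h3 : |t.re| ≤ |(m : ℝ)| + 1 / 2 := by
    rw [abs_le]
    constructor
    · have := neg_abs_le (m : ℝ)
      linarith
    · have := le_abs_self (m : ℝ)
      linarith
  have h4 := Complex.norm_le_abs_re_add_abs_im t
  have h5 := abs_nonneg t.im
  have h6 := abs_nonneg (m : ℝ)
  rw [pow_one]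
  nlinarith

theorem growth_nonneg {m : ℤ} {g : ℂ → ℂ} {C : ℝ} {d : ℕ}
    (h : ∀ t : ℂ, (m : ℝ) - 1 / 2 ≤ t.re → t.re ≤ (m : ℝ) + 1 / 2 → ‖g t‖ ≤ C * (1 + |t.im|) ^ d) :
    0 ≤ C := by
  have := h (m : ℂ) (by simp) (by simp)
  simp only [Complex.intCast_im, abs_zero, add_zero, one_pow, mul_one] at this
  exact (norm_nonneg _).trans this

theorem growth_add {m : ℤ} {f g : ℂ → ℂ} (hf : PolyGrowth m f) (hg : PolyGrowth m g) :
    PolyGrowth m (fun t => f t + g t) := by
  obtain ⟨C, d, h⟩ := hf
  obtain ⟨C', d', h'⟩ := hg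
  have hC := growth_nonneg h
  have hC' := growth_nonneg h'
  refine ⟨C + C', max d d', fun t h1 h2 => ?_⟩
  have h3 : (1 : ℝ) ≤ 1 + |t.im| := by linarith [abs_nonneg t.im]
  calc ‖f t + g t‖ ≤ ‖f t‖ + ‖g t‖ := norm_add_le _ _
    _ ≤ C * (1 + |t.im|) ^ d + C' * (1 + |t.im|) ^ d' := add_le_add (h t h1 h2) (h' t h1 h2)
    _ ≤ C * (1 + |t.im|) ^ (max d d') + C' * (1 + |t.im|) ^ (max d d') := by
      exact add_le_add (mul_le_mul_of_nonneg_left (pow_le_pow_right₀ h3 (le_max_left _ _)) hC)
        (mul_le_mul_of_nonneg_left (pow_le_pow_right₀ h3 (le_max_right _ _)) hC')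
    _ = _ := by ring

theorem growth_mul {m : ℤ} {f g : ℂ → ℂ} (hf : PolyGrowth m f) (hg : PolyGrowth m g) :
    PolyGrowth m (fun t => f t * g t) := by
  obtain ⟨C, d, h⟩ := hf
  obtain ⟨C', d', h'⟩ := hg
  have hC := growth_nonneg h
  refine ⟨C * C', d + d', fun t h1 h2 => ?_⟩
  calc ‖f t * g t‖ = ‖f t‖ * ‖g t‖ := norm_mul _ _
    _ ≤ (C * (1 + |t.im|) ^ d) * (C' * (1 + |t.im|) ^ d') :=
      mul_le_mul (h t h1 h2) (h' t h1 h2) (norm_nonneg _) (by positivity)
    _ = _ := by ring

theorem growth_poly (m : ℤ) (P : ℂ[X]) : PolyGrowth m (fun t => P.eval t) := by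
  induction P using Polynomial.induction_on' with
  | add p q hp hq =>
    have := growth_add hp hq
    simpa only [eval_add] using this
  | monomial n a =>
    induction n with
    | zero => simpa using growth_const m a
    | succ n ih =>
      have := growth_mul ih (growth_id m)
      refine (congrArg (PolyGrowth m) ?_).mp this
      funext t
      simp only [eval_monomial]
      ring

theorem growth_sum {ι : Type*} (m : ℤ) (S : Finset ι) (f : ι → ℂ → ℂ)
    (h : ∀ i ∈ S, PolyGrowth m (f i)) : PolyGrowth m (fun t => ∑ i ∈ S, f i t) := by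
  classical
  induction S using Finset.induction_on with
  | empty => simpa using growth_const m 0
  | insert a S ha ih =>
    have h1 := growth_add (h a (mem_insert_self a S)) (ih (fun i hi => h i (mem_insert_of_mem hi)))
    refine (congrArg (PolyGrowth m) ?_).mp h1
    funext t
    rw [sum_insert ha]

/-- integrability on the line from continuity there and polynomial growth -/
theorem integrable_line (m : ℤ) (g : ℂ → ℂ)
    (hc : ∀ t : ℂ, t.re = (m : ℝ) - 1 / 2 → ContinuousAt g t) (hgr : PolyGrowth m g) :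
    Integrable (fun y : ℝ => g ((m : ℂ) - 1 / 2 + (y : ℂ) * Complex.I) * (Ker y : ℂ)) := by
  obtain ⟨C, d, hC⟩ := hgr
  refine Z3.integrable_Ker_mul (fun y : ℝ => g ((m : ℂ) - 1 / 2 + (y : ℂ) * Complex.I)) ?_ C d ?_
  · rw [continuous_iff_continuousAt]
    intro y
    exact ContinuousAt.comp (f := fun y : ℝ => (m : ℂ) - 1 / 2 + (y : ℂ) * Complex.I)
      (hc _ (line_re m y)) (Continuous.continuousAt (continuous_const.add
        (Complex.continuous_ofReal.mul continuous_const)))
  · intro y
    have := hC ((m : ℂ) - 1 / 2 + (y : ℂ) * Complex.I) (by rw [line_re])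
      (by rw [line_re]; linarith)
    rwa [line_im] at this

theorem integrable_poly (m : ℤ) (P : ℂ[X]) :
    Integrable (fun y : ℝ => P.eval ((m : ℂ) - 1 / 2 + (y : ℂ) * Complex.I) * (Ker y : ℂ)) :=
  integrable_line m (fun t => P.eval t) (fun _ _ => P.continuous.continuousAt) (growth_poly m P)

theorem Iint_poly_add (m : ℤ) (P Q : ℂ[X]) :
    Iint m (fun t => (P + Q).eval t) = Iint m (fun t => P.eval t) + Iint m (fun t => Q.eval t) := by
  unfold Iint
  rw [← integral_add (integrable_poly m P) (integrable_poly m Q)]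
  congr 1
  funext y
  simp only [eval_add, add_mul]

theorem Iint_poly_smul (m : ℤ) (c : ℂ) (P : ℂ[X]) :
    Iint m (fun t => (c • P).eval t) = c * Iint m (fun t => P.eval t) := by
  unfold Iint
  rw [← integral_const_mul]
  congr 1
  funext y
  simp only [eval_smul, smul_eq_mul, mul_assoc]

/-- the integral on polynomials as a linear map -/
noncomputable def IP (m : ℤ) : ℂ[X] →ₗ[ℂ] ℂ where
  toFun P := Iint m (fun t => P.eval t)
  map_add' := Iint_poly_add m
  map_smul' c P := by simpa using Iint_poly_smul m c P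

theorem IP_apply (m : ℤ) (P : ℂ[X]) : IP m P = Iint m (fun t => P.eval t) := rfl

theorem IP_shift (m : ℤ) (P : ℂ[X]) : IP m P - IP (m + 1) P = - P.derivative.eval (m : ℂ) := by
  rw [IP_apply, IP_apply, Z3.Iint_shift m (fun t => P.eval t) Set.univ isOpen_univ
    (fun _ _ _ => Set.mem_univ _) P.differentiable.differentiableOn (growth_poly m P),
    Polynomial.deriv]

theorem IP_comp (m n : ℤ) (P : ℂ[X]) : IP m (P.comp (X + C (n : ℂ))) = IP (m + n) P := by
  rw [IP_apply, IP_apply]
  unfold Iint
  congr 1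
  funext y
  have e : (m : ℂ) - 1 / 2 + (y : ℂ) * Complex.I + (n : ℂ) =
      ((m + n : ℤ) : ℂ) - 1 / 2 + (y : ℂ) * Complex.I := by push_cast; ring
  simp only [eval_comp, eval_add, eval_X, eval_C, e]

theorem IP_one (m : ℤ) : IP m 1 = 1 := by
  rw [IP_apply]
  unfold Iint
  simp only [eval_one, one_mul]
  exact Z3.integral_Ker_complex

/-- the moments on the line Re t = - 1/2 are the Bernoulli numbers -/
theorem IP_X_pow (n : ℕ) : IP 0 (X ^ n) = ((_root_.bernoulli n : ℚ) : ℂ) := by
  induction n using Nat.strong_induction_on with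
  | _ n ih =>
    have h1 := IP_shift 0 (X ^ (n + 1))
    have h2 := IP_comp 0 1 (X ^ (n + 1))
    have h3 : (X ^ (n + 1) : ℂ[X]).comp (X + C ((1 : ℤ) : ℂ)) =
        ∑ k ∈ range (n + 2), ((n + 1).choose k : ℂ) • X ^ k := by
      simp only [pow_comp, X_comp, Int.cast_one, map_one]
      rw [add_pow]
      apply sum_congr rfl
      intro k _
      rw [one_pow, mul_one, smul_eq_C_mul, mul_comm]
      simp
    rw [h3, map_sum, sum_range_succ, Nat.choose_self] at h2
    simp only [map_smul, smul_eq_mul, Nat.cast_one, one_mul, zero_add] at h1 h2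
    have h4 : ∑ k ∈ range (n + 1), ((n + 1).choose k : ℂ) * IP 0 (X ^ k) =
        (derivative (X ^ (n + 1) : ℂ[X])).eval ((0 : ℤ) : ℂ) := by
      linear_combination h2 - h1
    have h5 := _root_.sum_bernoulli (n + 1)
    rw [sum_range_succ, Nat.choose_succ_self_right] at h4 h5
    have h6 : ∑ k ∈ range n, ((n + 1).choose k : ℂ) * IP 0 (X ^ k) =
        ((∑ k ∈ range n, ((n + 1).choose k : ℚ) * _root_.bernoulli k : ℚ) : ℂ) := by
      push_cast
      apply sum_congr rfl
      intro k hk
      rw [ih k (mem_range.mp hk)]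
    have h7 : (derivative (X ^ (n + 1) : ℂ[X])).eval ((0 : ℤ) : ℂ) =
        (((if n + 1 = 1 then 1 else 0 : ℚ)) : ℂ) := by
      rcases Nat.eq_zero_or_pos n with h | h
      · subst h; simp
      · have : n + 1 ≠ 1 := by omega
        rw [if_neg this]
        simp [zero_pow (show n ≠ 0 by omega)]
    rw [h6, h7, ← h5] at h4
    have h8 : ((n : ℂ) + 1) ≠ 0 := by exact_mod_cast Nat.succ_ne_zero n
    apply mul_left_cancel₀ h8
    push_cast at h4 ⊢
    linear_combination h4

end Pool.Agent.D23
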