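import Pool.Agent.D23.DetCost

/-!
# The total cost of one prime: the trivial bound and the quadratic bound
-/

open Finset

namespace Pool.Agent.D23

open Pool.Agent.Z3D (ccost)

/-- the total cost of the prime `p`: LIN at the level `lam`, with the normalisation -/
def Tcost (p M : ℕ) (w : ℕ → ℤ) (lam : ℤ) : ℤ :=
  lam * M + ∑ t ∈ range p, ccost (w t - lam) +
    2 * ((M / p : ℕ) : ℤ) * M - p * (((M / p : ℕ) : ℤ) * (((M / p : ℕ) : ℤ) + 1))

theorem ccost_two_mul (J : ℕ) : ccost (2 * (J : ℤ)) = J * (J + 1) := by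
  unfold ccost
  rcases Nat.eq_zero_or_pos J with h | h
  · subst h; simp
  · have : ¬ (2 * (J : ℤ) ≤ 0) := by omega
    rw [if_neg this]
    have e : (2 * (J : ℤ) + 1) ^ 2 = 4 * (J * (J + 1)) + 1 := by ring
    rw [e]
    omega

theorem ccost_mono' {x y : ℤ} (h : x ≤ y) : ccost x ≤ ccost y := by
  unfold ccost
  split_ifs with h1 h2 h2
  · exact le_rfl
  · positivity
  · omega
  · refine Int.ediv_le_ediv (by norm_num) ?_
    nlinarith

/-- **Trivial bound**: all weights at most `b` -/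
theorem Tcost_triv (p M : ℕ) (w : ℕ → ℤ) (b : ℤ) (h : ∀ t < p, w t ≤ b) :
    Tcost p M w (b - 2 * ((M / p : ℕ) : ℤ)) ≤ b * M := by
  unfold Tcost
  set J : ℕ := M / p with hJ
  have h1 : ∑ t ∈ range p, ccost (w t - (b - 2 * (J : ℤ))) ≤ p * (J * (J + 1)) := by
    calc ∑ t ∈ range p, ccost (w t - (b - 2 * (J : ℤ)))
        ≤ ∑ _t ∈ range p, ((J : ℤ) * (J + 1)) := by
          refine sum_le_sum (fun t ht => ?_)
          rw [← ccost_two_mul]
          have := h t (mem_range.mp ht)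
          exact ccost_mono' (by omega)
      _ = p * (J * (J + 1)) := by rw [sum_const, card_range, nsmul_eq_mul]
  have e : (b - 2 * (J : ℤ)) * M + p * (J * (J + 1)) + 2 * (J : ℤ) * M - p * (J * (J + 1)) =
      b * M := by ring
  linarith

theorem ccost_le_sq (x : ℤ) : ((ccost x : ℤ) : ℚ) ≤ ((x : ℚ) + 1) ^ 2 / 4 := by
  unfold ccost
  split_ifs with h
  · push_cast
    positivity
  · have h1 : (x + 1) ^ 2 / 4 * 4 ≤ (x + 1) ^ 2 := Int.ediv_mul_le _ (by norm_num)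
    have h2 : (((x + 1) ^ 2 / 4 : ℤ) : ℚ) * 4 ≤ ((x : ℚ) + 1) ^ 2 := by exact_mod_cast h1
    linarith

/-- **Quadratic bound** -/
theorem exists_Tcost_le (p M : ℕ) (hp : 0 < p) (w : ℕ → ℤ) :
    ∃ lam : ℤ, ((Tcost p M w lam : ℤ) : ℚ) ≤
      M * (∑ t ∈ range p, (w t : ℚ)) / p +
        (∑ t ∈ range p, (w t : ℚ) ^ 2 - (∑ t ∈ range p, (w t : ℚ)) ^ 2 / p) / 4 + 5 * p / 16 := by
  have hp' : (0 : ℚ) < p := by exact_mod_cast hp
  set W : ℚ := ∑ t ∈ range p, (w t : ℚ) with hW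
  set S2 : ℚ := ∑ t ∈ range p, (w t : ℚ) ^ 2 with hS2
  set y : ℚ := W / p + 1 - 2 * M / p with hy
  refine ⟨round y, ?_⟩
  set lam : ℤ := round y with hlam
  have hr := abs_sub_round y
  obtain ⟨ε, hε⟩ : ∃ ε : ℚ, ε = (lam : ℚ) - y := ⟨_, rfl⟩
  have hε2 : ε ^ 2 ≤ 1 / 4 := by
    have h1 : |ε| ≤ 1 / 2 := by rw [hε, abs_sub_comm]; exact hr
    have h2 := sq_le_sq' (by linarith [(abs_le.mp h1).1]) (abs_le.mp h1).2
    linarith
  have h1 : ((∑ t ∈ range p, ccost (w t - lam) : ℤ) : ℚ) ≤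
      (S2 - 2 * ((lam : ℚ) - 1) * W + p * ((lam : ℚ) - 1) ^ 2) / 4 := by
    push_cast
    calc ∑ t ∈ range p, ((ccost (w t - lam) : ℤ) : ℚ)
        ≤ ∑ t ∈ range p, (((w t : ℚ)) ^ 2 / 4 - ((lam : ℚ) - 1) / 2 * (w t : ℚ) +
            ((lam : ℚ) - 1) ^ 2 / 4) := by
          refine sum_le_sum (fun t _ => ?_)
          refine (ccost_le_sq (w t - lam)).trans (le_of_eq ?_)
          push_cast
          ring
      _ = _ := by
          rw [sum_add_distrib, sum_sub_distrib, ← sum_div, ← mul_sum, ← hW, ← hS2, sum_const,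
            card_range, nsmul_eq_mul]
          ring
  set J : ℕ := M / p with hJ
  have hr0 : ((M : ℚ) - p * J) - ((M : ℚ) - p * J) ^ 2 / p ≤ p / 4 := by
    have : ((M : ℚ) - p * J) - ((M : ℚ) - p * J) ^ 2 / p =
        p / 4 - ((M : ℚ) - p * J - p / 2) ^ 2 / p := by
      field_simp
      ring
    rw [this]
    have : 0 ≤ ((M : ℚ) - p * J - p / 2) ^ 2 / p := by positivity
    linarith
  have hlamv : (lam : ℚ) = W / p + 1 - 2 * M / p + ε := by rw [hε, hy]; ring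
  have h2 : ((Tcost p M w lam : ℤ) : ℚ) = lam * M + ((∑ t ∈ range p, ccost (w t - lam) : ℤ) : ℚ) +
      2 * J * M - p * (J * (J + 1)) := by
    unfold Tcost
    rw [← hJ]
    push_cast
    ring
  rw [h2]
  have e : (lam : ℚ) * M + (S2 - 2 * ((lam : ℚ) - 1) * W + p * ((lam : ℚ) - 1) ^ 2) / 4 +
      2 * J * M - p * (J * (J + 1)) =
      M * W / p + (S2 - W ^ 2 / p) / 4 + p * ε ^ 2 / 4 +
        (((M : ℚ) - p * J) - ((M : ℚ) - p * J) ^ 2 / p) := by
    rw [hlamv]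
    field_simp
    ring
  have h3 : p * ε ^ 2 / 4 ≤ p / 16 := by nlinarith
  linarith

/-- the quadratic bound for weights in an interval `[a, b]` -/
theorem exists_Tcost_range (p M : ℕ) (hp : 0 < p) (w : ℕ → ℤ) (a b : ℤ)
    (ha : ∀ t < p, a ≤ w t) (hb : ∀ t < p, w t ≤ b) :
    ∃ lam : ℤ, ((Tcost p M w lam : ℤ) : ℚ) ≤
      M * (∑ t ∈ range p, (w t : ℚ)) / p + p * (((b : ℚ) - a) ^ 2 + 5) / 16 := by
  have hp' : (0 : ℚ) < p := by exact_mod_cast hp
  obtain ⟨lam, hl⟩ := exists_Tcost_le p M hp w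
  refine ⟨lam, hl.trans ?_⟩
  set W : ℚ := ∑ t ∈ range p, (w t : ℚ) with hW
  have h1 : ∑ t ∈ range p, (w t : ℚ) ^ 2 ≤ ((a : ℚ) + b) * W - p * (a * b) := by
    calc ∑ t ∈ range p, (w t : ℚ) ^ 2 ≤ ∑ t ∈ range p, (((a : ℚ) + b) * (w t : ℚ) - a * b) := by
          refine sum_le_sum (fun t ht => ?_)
          have h2 : (a : ℚ) ≤ w t := by exact_mod_cast ha t (mem_range.mp ht)
          have h3 : (w t : ℚ) ≤ b := by exact_mod_cast hb t (mem_range.mp ht)
          nlinarith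
      _ = _ := by rw [sum_sub_distrib, ← mul_sum, ← hW, sum_const, card_range, nsmul_eq_mul]
  have h2 : ((a : ℚ) + b) * W - p * (a * b) - W ^ 2 / p =
      p * ((b : ℚ) - a) ^ 2 / 4 - (W - p * ((a : ℚ) + b) / 2) ^ 2 / p := by
    field_simp
    ring
  have h3 : 0 ≤ (W - p * ((a : ℚ) + b) / 2) ^ 2 / p := by positivity
  have h4 : (∑ t ∈ range p, (w t : ℚ) ^ 2 - W ^ 2 / p) / 4 ≤ p * ((b : ℚ) - a) ^ 2 / 16 := by
    linarith
  linarith

end Pool.Agent.D23
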