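import Pool.Agent.D23.Dlt
import Pool.Agent.D23.Cls
import Pool.Agent.D23.BigT
import Pool.Agent.D23.Tail
import Pool.Agent.D23.CellBridge
import Pool.Agent.D23.CellData

/-!
# The family `2 3 3 4 / 0 0 1 10`: the p-adic bounds of the normalised determinant
-/

open Finset Polynomial

namespace Pool.Agent.D23

open Pool.Agent.Z3D (ccost uses gram)
open Pool.Agent.Z3.TermAux

/-- the three zero blocks -/
def ZP (n : ℕ) : Fin 3 → Finset ℕ := ![range (2 * n), range (3 * n), Ico n (3 * n)]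

theorem kap_ne (n : ℕ) : kap n ≠ 0 := by
  unfold kap
  positivity

theorem KP_card (n : ℕ) : (KP n).card = 6 * n := by
  unfold KP
  rw [Nat.card_Ico]
  omega

theorem ZP_card (n : ℕ) : ∑ b, (ZP n b).card = 7 * n := by
  unfold ZP
  rw [Fin.sum_univ_three]
  simp
  omega

theorem mem_KP {n k : ℕ} (h : k ∈ KP n) : 4 * n ≤ k ∧ k < 10 * n := by
  unfold KP at h
  exact mem_Ico.mp h

theorem num_eq_numP (n : ℕ) : num ℚ n = numP (ZP n) := by
  unfold num numP ZP
  rw [Fin.prod_univ_three]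
  rfl

theorem lr_eq_Lr (n : ℕ) (z c0 c1 : ℚ) :
    lr n z c0 c1 = Lr (KP n) (1 - 2 * n) (C (kap n) * numP (ZP n)) z c0 c1 := by
  refine LinearMap.ext (fun f => ?_)
  rw [lr_apply, Lr_apply, ← num_eq_numP]
  have h : SS n f = f * (C (kap n) * num ℚ n) := by
    unfold SS
    ring
  rw [h]
  ring

theorem phi_eq_ph (n p s : ℕ) : phi (ZP n) (KP n) p s = ph n p s := by
  have h1 : ∀ a b : ℕ, a ≤ b → (cnt (Ico a b) p s : ℤ) = (cN b p s : ℤ) - cN a p s := by
    intro a b hab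
    have h2 := cN_add_cnt a b p s hab
    omega
  unfold phi ZP KP ph
  rw [Fin.sum_univ_three]
  have h3 : ∀ N : ℕ, cnt (range N) p s = cN N p s := fun N => rfl
  simp only [Matrix.cons_val_zero, Matrix.cons_val_one, Matrix.cons_val]
  rw [h3, h3, h1 n (3 * n) (by omega), h1 (4 * n) (10 * n) (by omega)]
  ring

/-- the valuation of `kap` is at most one -/
theorem ee_le_one (n p : ℕ) (hp : 0 < p) : ee n p ≤ 1 := by
  unfold ee
  have h1 : 6 * n / p ≤ 3 * (2 * n / p) + 2 := by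
    have h2 : 6 * n < (3 * (2 * n / p) + 2 + 1) * p := by
      have h3 := Nat.lt_mul_div_succ (2 * n) hp
      nlinarith
    have := (Nat.div_lt_iff_lt_mul hp).mpr h2
    omega
  have h4 : 6 * n / p ≤ 2 * (3 * n / p) + 1 := by
    have h2 : 6 * n < (2 * (3 * n / p) + 1 + 1) * p := by
      have h3 := Nat.lt_mul_div_succ (3 * n) hp
      nlinarith
    have := (Nat.div_lt_iff_lt_mul hp).mpr h2
    omega
  omega

theorem ph_ge (n p s : ℕ) (hs : s < p) : -2 ≤ ph n p s := by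
  have h1 := ph_add_ee n p s hs
  have h2 := ee_le_one n p (by omega)
  omega

theorem phi_cell (n p s : ℕ) : Cell.par.F.phi n p s = ph n p s := by
  rw [ph_eq]
  simp [Cell.par, Cell.Fam.phi, Cell.bc, Cell.nf]
  ring

theorem e0_cell (n p : ℕ) : Cell.par.e0 n p = ee n p := by
  simp [Cell.par, Cell.Par.e0, ee]
  ring

theorem tb_cell (n p s : ℕ) :
    Cell.bc n p s Cell.par.F.tb = (Cell.icnt (2 * n + p) (10 * n) p s : ℤ) := by
  simp [Cell.par, Cell.bc, Cell.nf]

section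
variable {p : ℕ} [hp : Fact p.Prime]

theorem dlt_lin (n M : ℕ) (hn : 1 ≤ n) (hpn : 20 * n < p ^ 2) (hM : M ≤ 4 * n)
    (z c0 c1 : ℤ) (lam : ℤ) :
    padicNorm p (Dlt n z c0 c1 M) ≤ (p : ℚ) ^ (Tcost p M (ww n p) lam) := by
  have h2p : p ≠ 2 := by
    intro h
    rw [h] at hpn
    omega
  have h4 : ((20 * n : ℕ) : ℤ) < ((p ^ 2 : ℕ) : ℤ) := by exact_mod_cast hpn
  push_cast at h4
  have h1 := det_LIN (p := p) (ZP n) (KP n) (kap n) (ee n p) (1 - 2 * n) z c0 c1 M n h2p (kap_ne n)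
    (norm_kap n p (by omega)).le (fun k hk => by have := mem_KP hk; omega)
    (fun k hk => by have := mem_KP hk; omega) (by rw [ZP_card, KP_card]; omega) (by omega)
    (fun k hk => by
      have h3 := mem_KP hk
      push_cast
      omega) lam
  rw [← lr_eq_Lr] at h1
  have h5 : ∑ t ∈ range p, ccost (2 - ee n p - phi (ZP n) (KP n) p t - lam) =
      ∑ t ∈ range p, ccost (ww n p t - lam) := by
    refine sum_congr rfl (fun t _ => ?_)
    rw [phi_eq_ph]
    rfl
  rw [h5] at h1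
  exact padicNorm_norm_le p _ M (by omega) _ h1

theorem polar_mem {n s : ℕ} (hs : s < p) (h : polar n p s) :
    s ∈ (range p).filter (fun s => 0 < Cell.bc n p s Cell.par.F.tb) := by
  rw [mem_filter, mem_range, tb_cell]
  exact ⟨hs, by exact_mod_cast polar_pos n p s h⟩

theorem dlt_cap (n M : ℕ) (hn : 1 ≤ n) (hpn : 20 * n < p ^ 2) (hM0 : 0 < M) (hM : M ≤ 4 * n)
    (z c0 c1 : ℤ) :
    padicNorm p (Dlt n z c0 c1 M) ≤ (p : ℚ) ^ ((1 - ee n p) * M +
      ∑ t ∈ range p with 0 < Cell.bc n p t Cell.par.F.tb, ccost (1 - ph n p t) +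
        2 * ((M / p : ℕ) : ℤ) * M - p * (((M / p : ℕ) : ℤ) * (((M / p : ℕ) : ℤ) + 1))) := by
  have h2p : p ≠ 2 := by
    intro h
    rw [h] at hpn
    omega
  have h4 : ((20 * n : ℕ) : ℤ) < ((p ^ 2 : ℕ) : ℤ) := by exact_mod_cast hpn
  push_cast at h4
  set T := (range p).filter (fun s => 0 < Cell.bc n p s Cell.par.F.tb) with hTdef
  have h1 := det_CAP (p := p) (ZP n) (KP n) (kap n) (ee n p) (1 - 2 * n) z c0 c1 M n h2p
    (norm_kap n p (by omega)).le (fun k hk => by have := mem_KP hk; omega)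
    (fun k hk => by have := mem_KP hk; omega) (fun k hk => by have := mem_KP hk; omega)
    (by rw [ZP_card, KP_card]; omega) hM0 (by omega) T
    (fun t ht => mem_range.mp (mem_filter.mp ht).1)
    (fun k hk hk2 => by
      have h3 := mem_KP hk
      exact polar_mem (Nat.mod_lt _ hp.out.pos) ⟨k, h3.1, h3.2, rfl, by omega⟩)
    (fun k hk hk2 => by
      rw [phi_eq_ph]
      exact ph_ge n p _ (Nat.mod_lt _ hp.out.pos))
  rw [← lr_eq_Lr] at h1
  have h5 : ∑ t ∈ T, ccost (2 - ee n p - phi (ZP n) (KP n) p t - (1 - ee n p)) =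
      ∑ t ∈ T, ccost (1 - ph n p t) := by
    refine sum_congr rfl (fun t _ => ?_)
    rw [phi_eq_ph]
    congr 1
    ring
  rw [h5] at h1
  exact padicNorm_norm_le p _ M (by omega) _ h1

theorem dlt_big (n M : ℕ) (hn : 1 ≤ n) (hpn : 20 * n < p ^ 2) (hM0 : 0 < M) (hM : M ≤ 4 * n)
    (h6 : 6 * n < p) (z c0 c1 : ℤ) :
    padicNorm p (Dlt n z c0 c1 M) ≤ (p : ℚ) ^ (((2 * M + n - p : ℕ) : ℤ) +
      ∑ t ∈ range p with 0 < Cell.bc n p t Cell.par.F.tb, ccost (2 - ph n p t) +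
        2 * ((M / p : ℕ) : ℤ) * M - p * (((M / p : ℕ) : ℤ) * (((M / p : ℕ) : ℤ) + 1))) := by
  have h2p : p ≠ 2 := by
    intro h
    rw [h] at hpn
    omega
  have h4 : ((20 * n : ℕ) : ℤ) < ((p ^ 2 : ℕ) : ℤ) := by exact_mod_cast hpn
  push_cast at h4
  have he : ee n p = 0 := by
    unfold ee
    rw [Nat.div_eq_of_lt h6, Nat.div_eq_of_lt (by omega), Nat.div_eq_of_lt (by omega)]
    simp
  have hκ : padicNorm p (kap n) ≤ 1 := by
    rw [norm_kap n p (by omega), he]
    simp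
  set T := (range p).filter (fun s => 0 < Cell.bc n p s Cell.par.F.tb) with hTdef
  have h1 := det_BIGT (p := p) (ZP n) (KP n) (kap n) (1 - 2 * n) z c0 c1 M n h2p
    hκ (fun k hk => by have := mem_KP hk; omega)
    (fun k hk => by have := mem_KP hk; omega) (fun k hk => by have := mem_KP hk; omega)
    (by rw [ZP_card, KP_card]; omega) hM0 (by omega) T
    (fun t ht => mem_range.mp (mem_filter.mp ht).1)
    (fun k hk hk2 => by
      have h3 := mem_KP hk
      exact polar_mem (Nat.mod_lt _ hp.out.pos) ⟨k, h3.1, h3.2, rfl, by omega⟩)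
    (fun k hk hk2 => by
      rw [phi_eq_ph]
      exact ph_ge n p _ (Nat.mod_lt _ hp.out.pos))
    (fun k hk hk2 => by
      by_cases hpol : polar n p (k % p)
      · exact Or.inl (polar_mem (Nat.mod_lt _ hp.out.pos) hpol)
      · right
        rw [phi_eq_ph]
        exact ph_of_not_polar n p _ (Nat.mod_lt _ hp.out.pos) hpol)
  rw [← lr_eq_Lr] at h1
  have h5 : ∑ t ∈ T, ccost (2 - phi (ZP n) (KP n) p t) = ∑ t ∈ T, ccost (2 - ph n p t) := by
    refine sum_congr rfl (fun t _ => ?_)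
    rw [phi_eq_ph]
  rw [h5] at h1
  exact padicNorm_norm_le p _ M (by omega) _ h1

/-- **The three rules in the form of the cell checker.** -/
theorem costs_inst (n M : ℕ) (hn : 1 ≤ n) (hpn : 20 * n < p ^ 2) (hM0 : 0 < M) (hM : M ≤ 4 * n)
    (z c0 c1 : ℤ) :
    Cell.Costs Cell.par n p M (fun T => padicNorm p (Dlt n z c0 c1 M) ≤ (p : ℚ) ^ T) where
  mono S T hST h := h.trans (zpow_le_zpow_right₀ (pone (p := p)).le hST)
  lin lam := by
    refine (dlt_lin n M hn hpn hM z c0 c1 lam).trans (le_of_eq ?_)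
    congr 1
    unfold Tcost Cell.nrm
    have h1 : ∑ s ∈ range p, ccost (2 - Cell.par.F.phi n p s - Cell.par.e0 n p - lam) =
        ∑ t ∈ range p, ccost (ww n p t - lam) := by
      refine sum_congr rfl (fun t _ => ?_)
      rw [phi_cell, e0_cell]
      congr 1
      unfold ww
      ring
    rw [h1]
    ring
  cap := by
    refine (dlt_cap n M hn hpn hM0 hM z c0 c1).trans (le_of_eq ?_)
    congr 1
    unfold Cell.nrm
    simp only [phi_cell, e0_cell]
    ring
  big := by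
    intro h6
    have h6' : 6 * n < p := by
      have h7 : Cell.par.W = 6 := rfl
      rw [h7] at h6
      exact_mod_cast h6
    refine (dlt_big n M hn hpn hM0 hM h6' z c0 c1).trans (le_of_eq ?_)
    congr 1
    have he : Cell.par.e0 n p = 0 := by
      rw [e0_cell]
      unfold ee
      rw [Nat.div_eq_of_lt h6', Nat.div_eq_of_lt (by omega), Nat.div_eq_of_lt (by omega)]
      simp
    have hdg : Cell.par.dg = 1 := rfl
    have h8 : ((2 * M + n - p : ℕ) : ℤ) = max 0 (2 * (M : ℤ) + Cell.par.dg * n - p) := by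
      rw [hdg]
      omega
    unfold Cell.nrm
    simp only [phi_cell, he, sub_zero]
    rw [← h8]
    ring

/-- the trivial tail -/
theorem dlt_tail (n M : ℕ) (hn : 1 ≤ n) (hpn : 20 * n < p ^ 2) (hM : M ≤ 4 * n)
    (z c0 c1 : ℤ) : padicNorm p (Dlt n z c0 c1 M) ≤ (p : ℚ) ^ (3 * (M : ℤ)) := by
  refine (dlt_lin n M hn hpn hM z c0 c1 (3 - 2 * ((M / p : ℕ) : ℤ))).trans ?_
  exact zpow_le_zpow_right₀ (pone (p := p)).le
    (Tcost_triv p M (ww n p) 3 (fun t ht => ww_le n p t ht))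

/-- no cost above `9 n` -/
theorem dlt_huge (n M : ℕ) (hn : 1 ≤ n) (hpn : 20 * n < p ^ 2) (hM0 : 0 < M) (hM : M ≤ 4 * n)
    (h9 : 9 * n ≤ p) (z c0 c1 : ℤ) : padicNorm p (Dlt n z c0 c1 M) ≤ 1 := by
  refine (dlt_big n M hn hpn hM0 hM (by omega) z c0 c1).trans ?_
  have h1 : 2 * M + n - p = 0 := by omega
  have h2 : ∀ t, ¬ 0 < Cell.bc n p t Cell.par.F.tb := by
    intro t
    rw [tb_cell]
    unfold Cell.icnt
    rw [Ico_eq_empty (by omega)]
    simp
  have h3 : M / p = 0 := Nat.div_eq_of_lt (by omega)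
  rw [h1, h3]
  simp [h2]

end

end Pool.Agent.D23
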