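import Pool.Agent.Z3D.Pade
import Pool.Agent.D23.Gap

/-!
Hankel determinants of a linear functional satisfying a discrete Pearson equation
`Λ (S(X+1) A) = Λ (S B)` with monic `A`, `B` of the same degree `K`: among any `K - 1` consecutive
ones there is a nonzero one, as soon as no polynomial annihilates the functional.
-/

open Finset Polynomial

namespace Pool.Agent.D23

open Pool.Agent.Z3D

section Field
variable {F : Type*} [Field F]

/-- the coefficient just below the top of a shifted polynomial -/
theorem nextCoeff_comp (P : F[X]) (hP : P.Monic) (r : F) :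
    (P.comp (X + C r)).nextCoeff = P.nextCoeff + (P.natDegree : F) * r := by
  rcases Nat.eq_zero_or_pos P.natDegree with h0 | h0
  · have : P = 1 := hP.natDegree_eq_zero.mp h0
    subst this
    simp
  obtain ⟨m, hm⟩ : ∃ m, P.natDegree = m + 1 := ⟨P.natDegree - 1, by omega⟩
  have hd : (P.comp (X + C r)).natDegree = m + 1 := by
    rw [natDegree_comp, natDegree_X_add_C, mul_one, hm]
  rw [nextCoeff_of_natDegree_pos (by omega), nextCoeff_of_natDegree_pos (by omega), hd, hm]
  simp only [Nat.add_sub_cancel]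
  have h1 : P.comp (X + C r) = taylor r P := by rw [taylor_apply]
  rw [h1, taylor_coeff]
  have h2 : (hasseDeriv m P).natDegree ≤ 1 := by
    refine (natDegree_hasseDeriv_le P m).trans ?_
    omega
  rw [eq_X_add_C_of_natDegree_le_one h2, hasseDeriv_coeff, hasseDeriv_coeff]
  have h3 : P.coeff (1 + m) = 1 := by
    have := hP.coeff_natDegree
    rwa [hm, add_comm] at this
  rw [h3, zero_add, Nat.choose_self, add_comm 1 m, Nat.choose_succ_self_right]
  simp only [eval_add, eval_mul, eval_C, eval_X]
  push_cast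
  ring

/-- the difference of two monic polynomials of the same positive degree -/
theorem sub_monic (P P' : F[X]) (hP : P.Monic) (hP' : P'.Monic) {N : ℕ} (hd : P.natDegree = N + 1)
    (hd' : P'.natDegree = N + 1) :
    (P - P').degree < (N + 1 : ℕ) ∧ (P - P').coeff N = P.nextCoeff - P'.nextCoeff := by
  constructor
  · rw [degree_lt_iff_coeff_zero]
    intro k hk
    rcases Nat.lt_or_ge (N + 1) k with h | h
    · rw [coeff_sub, coeff_eq_zero_of_natDegree_lt (by omega),
        coeff_eq_zero_of_natDegree_lt (by omega), sub_zero]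
    · have hk2 : k = N + 1 := by omega
      subst hk2
      have h1 := hP.coeff_natDegree
      have h2 := hP'.coeff_natDegree
      rw [hd] at h1
      rw [hd'] at h2
      rw [coeff_sub, h1, h2, sub_self]
  · rw [nextCoeff_of_natDegree_pos (by omega), nextCoeff_of_natDegree_pos (by omega), hd, hd',
      coeff_sub]
    simp

/-- **Key lemma.** A polynomial that is orthogonal to all polynomials of degree below its own degree
plus `K - 1` is orthogonal to everything. -/
theorem ortho_all (Λ : F[X] →ₗ[F] F) (A B : F[X]) (hA : A.Monic) (hB : B.Monic) {K : ℕ}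
    (hAd : A.natDegree = K) (hBd : B.natDegree = K)
    (hpe : ∀ S : F[X], Λ (S.comp (X + 1) * A) = Λ (S * B)) {M : ℕ}
    (hlead : ∀ v : ℕ, M < v + K → (v : F) + (A.nextCoeff - B.nextCoeff) ≠ 0)
    (Q : F[X]) (hQ : Q.Monic) (hQM : Q.natDegree + K ≤ M + 1)
    (ho : ∀ U : F[X], U.degree < M → Λ (Q * U) = 0) (T : F[X]) : Λ (Q * T) = 0 := by
  set m := Q.natDegree with hm
  -- the induction on the degree
  have key : ∀ N : ℕ, ∀ T : F[X], T.degree < N → Λ (Q * T) = 0 := by
    intro N
    induction N with
    | zero =>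
      intro T hT
      exact ho T (hT.trans_le (by exact_mod_cast Nat.zero_le M))
    | succ N ih =>
      intro T hT
      rcases Nat.lt_or_ge N M with h | h
      · exact ho T (hT.trans_le (by exact_mod_cast h))
      -- `u = N - (m + K - 1)`
      obtain ⟨u, hu⟩ : ∃ u, N + 1 = m + u + K := ⟨N + 1 - m - K, by omega⟩
      have hX1 : (X + 1 : F[X]) = X + C 1 := by rw [C_1]
      have hXm : (X - 1 : F[X]) = X + C (-1) := by rw [C_neg, C_1, sub_eq_add_neg]
      set P1 : F[X] := (Q.comp (X + 1) * (X + 1) ^ u) * A with hP1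
      set P2 : F[X] := (Q.comp (X - 1) * X ^ u) * B with hP2
      have hQ1 : (Q.comp (X + 1)).Monic := by
        rw [hX1]; exact hQ.comp_X_add_C 1
      have hQ2 : (Q.comp (X - 1)).Monic := by
        rw [hXm]; exact hQ.comp_X_add_C (-1)
      have hX1m : ((X + 1 : F[X]) ^ u).Monic := by
        rw [hX1]; exact (monic_X_add_C 1).pow u
      have hXum : ((X : F[X]) ^ u).Monic := monic_X_pow u
      have hm1 : P1.Monic := (hQ1.mul hX1m).mul hA
      have hm2 : P2.Monic := (hQ2.mul hXum).mul hB
      have hd1 : P1.natDegree = N + 1 := by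
        rw [hP1, (hQ1.mul hX1m).natDegree_mul hA, hQ1.natDegree_mul hX1m, hX1,
          (monic_X_add_C (1 : F)).natDegree_pow, natDegree_comp, natDegree_X_add_C, hAd]
        omega
      have hd2 : P2.natDegree = N + 1 := by
        rw [hP2, (hQ2.mul hXum).natDegree_mul hB, hQ2.natDegree_mul hXum, hXm,
          natDegree_X_pow, natDegree_comp, natDegree_X_add_C, hBd]
        omega
      have hn1 : P1.nextCoeff = Q.nextCoeff + m + u + A.nextCoeff := by
        rw [hP1, (hQ1.mul hX1m).nextCoeff_mul hA, hQ1.nextCoeff_mul hX1m, hX1,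
          (monic_X_add_C (1 : F)).nextCoeff_pow, nextCoeff_X_add_C, nextCoeff_comp Q hQ]
        simp [hm]
      have hn2 : P2.nextCoeff = Q.nextCoeff - m + B.nextCoeff := by
        have hxu : ((X : F[X]) ^ u).nextCoeff = 0 := by
          have := (monic_X (R := F)).nextCoeff_pow u
          rw [this]
          have hx : (X : F[X]).nextCoeff = 0 := by
            have := nextCoeff_X_add_C (0 : F)
            rwa [C_0, add_zero] at this
          rw [hx, smul_zero]
        rw [hP2, (hQ2.mul hXum).nextCoeff_mul hB, hQ2.nextCoeff_mul hXum, hXm,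
          nextCoeff_comp Q hQ, hxu]
        simp [hm]
        ring
      obtain ⟨hdeg, hco⟩ := sub_monic P1 P2 hm1 hm2 hd1 hd2
      set δ : F := (P1 - P2).coeff N with hδ
      have hδ0 : δ ≠ 0 := by
        rw [hco, hn1, hn2]
        have := hlead (m + m + u) (by omega)
        push_cast at this
        intro h0
        apply this
        rw [← h0]
        ring
      -- the functional vanishes on `Q * (P1 - P2)`
      have hz : Λ (Q * (P1 - P2)) = 0 := by
        have h1 := hpe (Q * Q.comp (X - 1) * X ^ u)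
        have h2 : (Q * Q.comp (X - 1) * X ^ u).comp (X + 1) * A = Q * P1 := by
          rw [mul_comp, mul_comp, comp_assoc, hP1]
          simp only [sub_comp, X_comp, one_comp, pow_comp, add_sub_cancel_right, comp_X]
          ring
        have h3 : Q * Q.comp (X - 1) * X ^ u * B = Q * P2 := by
          rw [hP2]; ring
        rw [h2, h3] at h1
        rw [mul_sub, map_sub, h1, sub_self]
      -- subtract
      set W : F[X] := T - C (T.coeff N / δ) * (P1 - P2) with hW
      have hWd : W.degree < (N : WithBot ℕ) := by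
        rw [degree_lt_iff_coeff_zero]
        intro k hk
        rw [hW, coeff_sub, coeff_C_mul]
        rcases Nat.lt_or_ge N k with h | h
        · have h4 : T.coeff k = 0 := (degree_lt_iff_coeff_zero _ _).mp hT k h
          have h5 : (P1 - P2).coeff k = 0 := (degree_lt_iff_coeff_zero _ _).mp hdeg k h
          rw [h4, h5]; simp
        · have hk2 : k = N := le_antisymm h hk
          subst hk2
          rw [← hδ, div_mul_cancel₀ _ hδ0, sub_self]
      have hTW : Q * T = Q * W + (T.coeff N / δ) • (Q * (P1 - P2)) := by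
        rw [hW, smul_eq_C_mul]; ring
      rw [hTW, map_add, map_smul, hz, smul_zero, add_zero]
      exact ih W hWd
  exact key (T.natDegree + 1) T
    (degree_le_natDegree.trans_lt (by exact_mod_cast Nat.lt_succ_self _))

/-- **One of `K - 1` consecutive Hankel determinants is nonzero.** -/
theorem window_gram (Λ : F[X] →ₗ[F] F) (A B : F[X]) (hA : A.Monic) (hB : B.Monic) {K : ℕ}
    (hAd : A.natDegree = K) (hBd : B.natDegree = K)
    (hpe : ∀ S : F[X], Λ (S.comp (X + 1) * A) = Λ (S * B)) (M : ℕ)
    (hlead : ∀ v : ℕ, M < v + K → (v : F) + (A.nextCoeff - B.nextCoeff) ≠ 0)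
    (hpos : ∀ Q : F[X], Q.Monic → ∃ T : F[X], Λ (Q * T) ≠ 0) :
    ∃ j, M + 1 < j + K ∧ j ≤ M ∧ (gram Λ (fun i => X ^ i) j).det ≠ 0 := by
  classical
  by_contra hcon
  push Not at hcon
  have hM : ∀ j, M + 1 < j + K → j ≤ M → ¬ ND Λ j := fun j h1 h2 h3 =>
    det_ne_zero_of_ND Λ h3 (hcon j h1 h2)
  set r := Nat.findGreatest (ND Λ) M with hr
  have hND : ND Λ r := Nat.findGreatest_spec (P := ND Λ) (Nat.zero_le M) (ND_zero Λ)
  have hrM : r ≤ M := Nat.findGreatest_le M
  have hrK : r + K ≤ M + 1 := by
    by_contra h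
    exact hM r (by omega) hrM hND
  obtain ⟨P, hP, hd, ho⟩ := long_ortho Λ hND
    (fun j h1 h2 => Nat.findGreatest_is_greatest h1 h2)
  rw [max_eq_right hrM] at ho
  have ho2 : ∀ U : F[X], U.degree < M → Λ (P * U) = 0 := ortho_of_pow Λ P M ho
  obtain ⟨T, hT⟩ := hpos P hP
  exact hT (ortho_all Λ A B hA hB hAd hBd hpe hlead P hP (by omega) ho2 T)

/-- the same for `A = ∏ (X + a_i)`, `B = ∏ (X + b_i)` with `∑ a_i - ∑ b_i = e` -/
theorem window_prod [CharZero F] (Λ : F[X] →ₗ[F] F) {K : ℕ} (a b : Fin K → F)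
    (hpe : ∀ S : F[X], Λ (S.comp (X + 1) * ∏ i, (X + C (a i))) = Λ (S * ∏ i, (X + C (b i))))
    (M : ℕ) (e : ℤ) (he : ∑ i, a i - ∑ i, b i = (e : F)) (hKM : (K : ℤ) ≤ M + e)
    (hpos : ∀ Q : F[X], Q.Monic → ∃ T : F[X], Λ (Q * T) ≠ 0) :
    ∃ j, M + 1 < j + K ∧ j ≤ M ∧ (gram Λ (fun i => X ^ i) j).det ≠ 0 := by
  have hm : ∀ c : Fin K → F, (∏ i, (X + C (c i))).Monic := fun c =>
    monic_prod_of_monic _ _ (fun i _ => monic_X_add_C _)
  have hd : ∀ c : Fin K → F, (∏ i, (X + C (c i))).natDegree = K := by
    intro c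
    rw [natDegree_prod_of_monic _ _ (fun i _ => monic_X_add_C _)]
    simp
  have hn : ∀ c : Fin K → F, (∏ i, (X + C (c i))).nextCoeff = ∑ i, c i := by
    intro c
    rw [Monic.nextCoeff_prod _ _ (fun i _ => monic_X_add_C _)]
    simp
  refine window_gram Λ _ _ (hm a) (hm b) (hd a) (hd b) hpe M ?_ hpos
  intro v hv
  rw [hn, hn, he]
  have : ((v : ℤ) + e) ≠ 0 := by omega
  exact_mod_cast this

/-- the Gram matrix of the powers is the Hankel matrix -/
theorem gram_eq_hank (Λ : F[X] →ₗ[F] F) (M : ℕ) : gram Λ (fun i => X ^ i) M = hank Λ M := by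
  ext i j
  simp only [gram, hank, Matrix.of_apply, pow_add]

end Field

end Pool.Agent.D23
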