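import Pool.Agent.D23.LinMap
import Pool.Agent.D23.Newton
import Pool.Agent.Z3D.Greedy

/-!
# The bound LIN: p-adic size of the values of the functional from the classes
-/

open Finset Polynomial

namespace Pool.Agent.D23

open Pool.Agent.Z3 (H)
open Pool.Agent.Z3.TermAux
open Pool.Agent.Z3D (uses uses_zero uses_succ)

section
variable {p : ℕ} [hp : Fact p.Prime]

theorem norm_half (h2 : p ≠ 2) : padicNorm p (1 / 2) = 1 := by
  have h3 : padicNorm p ((2 : ℕ) : ℚ) = 1 := by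
    rw [padicNorm.nat_eq_one_iff]
    intro h
    exact h2 ((Nat.prime_dvd_prime_iff_eq hp.out Nat.prime_two).mp h)
  rw [padicNorm.div, padicNorm.one]
  push_cast at h3
  rw [h3, div_one]

/-- **LIN** for one polynomial `G` whose size at the integers is controlled by the class. -/
theorem entry_lin (h2p : p ≠ 2) {r : ℕ} (Zb : Fin r → Finset ℕ) (K : Finset ℕ) (κ : ℚ) (e0 : ℤ)
    (hκ : padicNorm p κ ≤ (p : ℚ) ^ (-e0)) (G : ℚ[X]) (g : ℕ → ℤ)
    (hG : ∀ x : ℤ, padicNorm p (G.eval (x : ℚ)) ≤ (p : ℚ) ^ (-g (cls p x)))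
    (hK : ∀ k ∈ K, k < p ^ 2) (m : ℤ) (hm : ∀ k ∈ K, 1 ≤ m + k) (N : ℕ)
    (hN : (G * (C κ * numP Zb) /ₘ den K).natDegree < N) (hNp : N < p ^ 2)
    (hNK : ∀ k ∈ K, m + N + k ≤ (p : ℤ) ^ 2) (B : ℤ)
    (hB : ∀ s < p, 2 - e0 - phi Zb K p s - g s ≤ B) (z c0 c1 : ℤ) :
    padicNorm p (Lr K m (C κ * numP Zb) z c0 c1 G) ≤ (p : ℚ) ^ B := by
  have hp0 := ppos (p := p)
  have hp1 := pone (p := p)
  have hS : G * (C κ * numP Zb) = C κ * G * numP Zb := by ring
  have hGk : ∀ k ∈ K, padicNorm p (G.eval (-(k : ℚ))) ≤ (p : ℚ) ^ (-g (k % p)) := by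
    intro k _
    have h := hG (-(k : ℤ))
    rw [cls_neg] at h
    push_cast at h
    exact h
  have hmu : ∀ s < p, 2 - B ≤ e0 + g s + phi Zb K p s := by
    intro s hs
    have := hB s hs
    omega
  have hval : ∀ i < N, padicNorm p ((C κ * G * numP Zb /ₘ den K).eval ((m + (i : ℤ) : ℤ) : ℚ)) ≤
      (p : ℚ) ^ (-(2 - B)) := by
    intro i hi
    refine pol_norm Zb K κ G e0 g hκ (2 - B) hmu hK hGk (m + i) ?_ ?_ (hG _)
    · intro k hk
      have := hm k hk
      omega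
    · intro k hk
      have h1 := hNK k hk
      have h3 : (i : ℤ) < N := by exact_mod_cast hi
      omega
  rw [hS] at hN
  have hv1 := padicNorm_volk_le p m _ N hN hNp _ (by positivity) hval
  have hv2 := padicNorm_volk_deriv_le p m _ N hN hNp _ (by positivity) hval
  have e1 : (p : ℚ) ^ (-(2 - B)) * p = (p : ℚ) ^ (B - 1) := by
    rw [← zpow_add_one₀ hp0.ne']
    congr 1
    ring
  have e2 : (p : ℚ) ^ (-(2 - B)) * (p : ℚ) ^ 2 = (p : ℚ) ^ B := by
    rw [← zpow_natCast, ← zpow_add₀ hp0.ne']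
    congr 1
    push_cast
    ring
  rw [e1] at hv1
  rw [e2] at hv2
  rw [Lr_apply, hS]
  refine asm K m _ z c0 c1 B ?_ ?_ ?_
  · exact hv1.trans (zpow_le_zpow_right₀ hp1.le (by omega))
  · rw [padicNorm.mul, norm_half h2p, one_mul]
    exact hv2
  · intro k hk
    refine ⟨?_, Or.inl ?_⟩
    · have h1 := hNK k hk
      have h3 := hm k hk
      have h4 : ((m + k - 1).toNat : ℤ) < ((p ^ 2 : ℕ) : ℤ) := by
        push_cast
        omega
      exact_mod_cast h4
    · refine (res_norm Zb K κ G e0 g hκ k hk hK (hGk k hk)).trans ?_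
      apply zpow_le_zpow_right₀ hp1.le
      have := hmu (k % p) (Nat.mod_lt _ hp.out.pos)
      omega

/-- the node polynomial -/
noncomputable def Gn (s : ℕ → ℕ) (i : ℕ) : ℚ[X] := ∏ j ∈ range i, (X + C (s j : ℚ))

theorem Gn_monic (s : ℕ → ℕ) (i : ℕ) : (Gn s i).Monic :=
  monic_prod_of_monic _ _ (fun _ _ => monic_X_add_C _)

theorem Gn_natDegree (s : ℕ → ℕ) (i : ℕ) : (Gn s i).natDegree = i := by
  unfold Gn
  rw [natDegree_prod_of_monic _ _ (fun _ _ => monic_X_add_C _)]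
  simp only [natDegree_X_add_C, sum_const, card_range, smul_eq_mul, mul_one]

theorem Gn_norm (s : ℕ → ℕ) (hs : ∀ j, s j < p) (i : ℕ) (x : ℤ) :
    padicNorm p ((Gn s i).eval (x : ℚ)) ≤ (p : ℚ) ^ (-(uses s (cls p x) i : ℤ)) := by
  have hp0 := ppos (p := p)
  induction i with
  | zero => simp [Gn, uses_zero]
  | succ i ih =>
    unfold Gn at ih ⊢
    rw [prod_range_succ, eval_mul, padicNorm.mul, eval_add, eval_X, eval_C, uses_succ]
    have h1 := norm_int_le (p := p) x (s i)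
    rw [Nat.mod_eq_of_lt (hs i)] at h1
    split_ifs at h1 ⊢ with h
    · calc _ ≤ (p : ℚ) ^ (-(uses s (cls p x) i : ℤ)) * (p : ℚ)⁻¹ :=
            mul_le_mul ih h1 (padicNorm.nonneg _) (by positivity)
        _ = _ := by
            rw [← zpow_sub_one₀ hp0.ne']
            congr 1
            push_cast
            ring
    · calc _ ≤ (p : ℚ) ^ (-(uses s (cls p x) i : ℤ)) * 1 :=
            mul_le_mul ih h1 (padicNorm.nonneg _) (by positivity)
        _ = _ := by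
            rw [mul_one, Nat.add_zero]

/-- **ELIN**: the entries in the basis of node polynomials. -/
theorem elin (h2p : p ≠ 2) {r : ℕ} (Zb : Fin r → Finset ℕ) (K : Finset ℕ) (κ : ℚ) (e0 : ℤ)
    (hκ : padicNorm p κ ≤ (p : ℚ) ^ (-e0)) (s : ℕ → ℕ) (hs : ∀ j, s j < p) (i j : ℕ)
    (hK : ∀ k ∈ K, k < p ^ 2) (m : ℤ) (hm : ∀ k ∈ K, 1 ≤ m + k) (N : ℕ)
    (hN : (Gn s i * Gn s j * (C κ * numP Zb) /ₘ den K).natDegree < N) (hNp : N < p ^ 2)
    (hNK : ∀ k ∈ K, m + N + k ≤ (p : ℤ) ^ 2) (B : ℤ)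
    (hB : ∀ t < p, (2 - e0 - phi Zb K p t) - uses s t i - uses s t j ≤ B) (z c0 c1 : ℤ) :
    padicNorm p (Lr K m (C κ * numP Zb) z c0 c1 (Gn s i * Gn s j)) ≤ (p : ℚ) ^ B := by
  have hp0 := ppos (p := p)
  refine entry_lin h2p Zb K κ e0 hκ (Gn s i * Gn s j) (fun t => (uses s t i : ℤ) + uses s t j) ?_
    hK m hm N hN hNp hNK B ?_ z c0 c1
  · intro x
    rw [eval_mul, padicNorm.mul]
    refine (mul_le_mul (Gn_norm s hs i x) (Gn_norm s hs j x) (padicNorm.nonneg _)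
      (by positivity)).trans (le_of_eq ?_)
    rw [← zpow_add₀ hp0.ne']
    congr 1
    ring
  · intro t ht
    have := hB t ht
    omega

end

end Pool.Agent.D23
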