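import Pool.Agent.D23.NonvanF

/-!
# FINAL: linear independence of 1, zeta(2), zeta(3) from the arithmetic and the archimedean bound
-/

open Filter Topology

namespace Pool.Agent.D23

/-- the contradiction: the arithmetic lower bound and the archimedean upper bound of the
determinants exclude every integer relation -/
theorem lin_indep_of {A B : ℝ} (hAB : B < A)
    (harith : ∀ z c0 c1 : ℤ, ∀ᶠ n : ℕ in atTop, ∀ M : ℕ, 4 * n ≤ M + 2 → M ≤ 4 * n →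
      Dlt n z c0 c1 M ≠ 0 → A * (n : ℝ) ^ 2 ≤ Real.log |((Dlt n z c0 c1 M : ℚ) : ℝ)|)
    (harch : ∀ z c0 c1 : ℚ, (c0 : ℝ) * zt 2 + c1 * zt 3 = z →
      ∀ᶠ n : ℕ in atTop, ∀ M : ℕ, 4 * n ≤ M + 2 → M ≤ 4 * n → Dlt n z c0 c1 M ≠ 0 →
      Real.log |((Dlt n z c0 c1 M : ℚ) : ℝ)| ≤ B * (n : ℝ) ^ 2)
    (a0 a1 a2 : ℤ) (h : (a0 : ℝ) + a1 * zt 2 + a2 * zt 3 = 0) :
    a0 = 0 ∧ a1 = 0 ∧ a2 = 0 := by
  by_cases h12 : a1 = 0 ∧ a2 = 0
  · obtain ⟨h1, h2⟩ := h12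
    refine ⟨?_, h1, h2⟩
    rw [h1, h2] at h
    simpa using h
  · exfalso
    have hc : ((a1 : ℤ) : ℚ) ≠ 0 ∨ ((a2 : ℤ) : ℚ) ≠ 0 := by
      by_contra hcon
      push Not at hcon
      exact h12 ⟨by exact_mod_cast hcon.1, by exact_mod_cast hcon.2⟩
    have hz : (((a1 : ℤ) : ℚ) : ℝ) * zt 2 + (((a2 : ℤ) : ℚ) : ℝ) * zt 3 =
        ((((-a0 : ℤ) : ℤ) : ℚ) : ℝ) := by
      push_cast
      linarith
    obtain ⟨n, ⟨h1, h2⟩, hn⟩ := (((harith (-a0) a1 a2).and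
      (harch (((-a0 : ℤ) : ℚ)) ((a1 : ℤ) : ℚ) ((a2 : ℤ) : ℚ) hz)).and (eventually_ge_atTop 1)).exists
    obtain ⟨M, hM1, hM2, hM3⟩ := nonvan_any n hn (((-a0 : ℤ) : ℚ)) ((a1 : ℤ) : ℚ) ((a2 : ℤ) : ℚ) hc
    have e1 := h1 M hM1 hM2 hM3
    have e2 := h2 M hM1 hM2 hM3
    have hn' : (0 : ℝ) < (n : ℝ) ^ 2 := by
      have : (0 : ℝ) < n := by exact_mod_cast hn
      positivity
    have := mul_lt_mul_of_pos_right hAB hn'
    linarith

/-- the series for zeta(2) -/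
theorem zt_two : zt 2 = Real.pi ^ 2 / 6 := by
  have h := hasSum_zeta_two
  have h1 := h.summable.tsum_eq_zero_add
  rw [h.tsum_eq] at h1
  rw [h1]
  unfold zt
  simp

/-- from integer relations between 1, zeta(2), zeta(3) to 1, pi ^ 2, zeta(3) -/
theorem linInd_pi_of (h : ∀ a0 a1 a2 : ℤ, (a0 : ℝ) + a1 * zt 2 + a2 * zt 3 = 0 →
    a0 = 0 ∧ a1 = 0 ∧ a2 = 0) :
    LinearIndependent ℚ ![(1 : ℝ), Real.pi ^ 2, ∑' n : ℕ, 1 / ((n : ℝ) + 1) ^ 3] := by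
  rw [Fintype.linearIndependent_iff]
  intro g hg
  have hg' : (g 0 : ℝ) + (g 1 : ℝ) * Real.pi ^ 2 + (g 2 : ℝ) * ∑' n : ℕ, 1 / ((n : ℝ) + 1) ^ 3 = 0 := by
    simpa [Fin.sum_univ_three, Rat.smul_def] using hg
  have hd : ∀ i, ((g i).den : ℝ) ≠ 0 := fun i => by exact_mod_cast (g i).den_nz
  have hgr : ∀ i, (g i : ℝ) * ((g i).den : ℝ) = (g i).num := fun i => by
    have := Rat.mul_den_eq_num (g i)
    exact_mod_cast this
  have key := h ((g 0).num * (g 1).den * (g 2).den) (6 * ((g 1).num * (g 0).den * (g 2).den))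
    ((g 2).num * (g 0).den * (g 1).den) (by
      rw [zt_two]
      have e3 : zt 3 = ∑' n : ℕ, 1 / ((n : ℝ) + 1) ^ 3 := rfl
      rw [e3]
      push_cast
      rw [← hgr 0, ← hgr 1, ← hgr 2]
      linear_combination ((g 0).den : ℝ) * ((g 1).den : ℝ) * ((g 2).den : ℝ) * hg')
  have hdz : ∀ i, ((g i).den : ℤ) ≠ 0 := fun i => by exact_mod_cast (g i).den_nz
  obtain ⟨k0, k1, k2⟩ := key
  have n0 : (g 0).num = 0 := by
    rcases mul_eq_zero.1 k0 with hx | hx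
    · rcases mul_eq_zero.1 hx with hx | hx
      · exact hx
      · exact absurd hx (hdz 1)
    · exact absurd hx (hdz 2)
  have n1 : (g 1).num = 0 := by
    rcases mul_eq_zero.1 ((mul_eq_zero.1 k1).resolve_left (by norm_num)) with hx | hx
    · rcases mul_eq_zero.1 hx with hx | hx
      · exact hx
      · exact absurd hx (hdz 0)
    · exact absurd hx (hdz 2)
  have n2 : (g 2).num = 0 := by
    rcases mul_eq_zero.1 k2 with hx | hx
    · rcases mul_eq_zero.1 hx with hx | hx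
      · exact hx
      · exact absurd hx (hdz 0)
    · exact absurd hx (hdz 1)
  intro i
  fin_cases i
  · exact Rat.num_eq_zero.1 n0
  · exact Rat.num_eq_zero.1 n1
  · exact Rat.num_eq_zero.1 n2

end Pool.Agent.D23
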