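import Pool.Agent.D23.Poles

/-!
# The rational linear functional and the assembly of the p-adic bounds of its values

`Lr K m N z c0 c1 P = z * qq K (N P) + c0 * pp K m (N P) 0 + c1 * pp K m (N P) 1`.
-/

open Finset Polynomial

namespace Pool.Agent.D23

open Pool.Agent.Z3 (H)
open Pool.Agent.Z3.TermAux

theorem divByMonic_add' (P Q D : ℚ[X]) (hD : D.Monic) : (P + Q) /ₘ D = P /ₘ D + Q /ₘ D := by
  refine (div_modByMonic_unique (f := P + Q) (P /ₘ D + Q /ₘ D) (P %ₘ D + Q %ₘ D) hD ⟨?_, ?_⟩).1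
  · have h1 := modByMonic_add_div P D
    have h2 := modByMonic_add_div Q D
    linear_combination h1 + h2
  · refine (degree_add_le _ _).trans_lt (max_lt ?_ ?_)
    · exact degree_modByMonic_lt P hD
    · exact degree_modByMonic_lt Q hD

theorem divByMonic_smul' (c : ℚ) (P D : ℚ[X]) (hD : D.Monic) : (c • P) /ₘ D = c • (P /ₘ D) := by
  refine (div_modByMonic_unique (f := c • P) (c • (P /ₘ D)) (c • (P %ₘ D)) hD ⟨?_, ?_⟩).1
  · have h1 := modByMonic_add_div P D
    conv_rhs => rw [← h1]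
    rw [smul_add, mul_smul_comm]
  · exact (degree_smul_le _ _).trans_lt (degree_modByMonic_lt P hD)

theorem res_add_l (K : Finset ℕ) (P Q : ℚ[X]) (k : ℕ) : res K (P + Q) k = res K P k + res K Q k := by
  unfold res
  rw [eval_add]
  ring

theorem res_smul_l (K : Finset ℕ) (c : ℚ) (P : ℚ[X]) (k : ℕ) : res K (c • P) k = c * res K P k := by
  unfold res
  rw [eval_smul, smul_eq_mul]
  ring

theorem qq_add_l (K : Finset ℕ) (P Q : ℚ[X]) : qq K (P + Q) = qq K P + qq K Q := by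
  unfold qq
  rw [← sum_add_distrib]
  exact sum_congr rfl (fun k _ => res_add_l K P Q k)

theorem qq_smul_l (K : Finset ℕ) (c : ℚ) (P : ℚ[X]) : qq K (c • P) = c * qq K P := by
  unfold qq
  rw [mul_sum]
  exact sum_congr rfl (fun k _ => res_smul_l K c P k)

theorem pp_add_l (K : Finset ℕ) (m : ℤ) (P Q : ℚ[X]) (j : ℕ) :
    pp K m (P + Q) j = pp K m P j + pp K m Q j := by
  unfold pp
  rw [divByMonic_add' P Q _ (den_monic K), iterate_map_add, map_add]
  have h1 : ∑ k ∈ K, res K (P + Q) k * H (j + 2) (m + k - 1).toNat =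
      ∑ k ∈ K, res K P k * H (j + 2) (m + k - 1).toNat +
      ∑ k ∈ K, res K Q k * H (j + 2) (m + k - 1).toNat := by
    rw [← sum_add_distrib]
    refine sum_congr rfl (fun k _ => ?_)
    rw [res_add_l]
    ring
  rw [h1]
  ring

theorem pp_smul_l (K : Finset ℕ) (m : ℤ) (c : ℚ) (P : ℚ[X]) (j : ℕ) :
    pp K m (c • P) j = c * pp K m P j := by
  unfold pp
  rw [divByMonic_smul' c P _ (den_monic K), iterate_derivative_smul, map_smul, smul_eq_mul]
  have h1 : ∑ k ∈ K, res K (c • P) k * H (j + 2) (m + k - 1).toNat =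
      c * ∑ k ∈ K, res K P k * H (j + 2) (m + k - 1).toNat := by
    rw [mul_sum]
    refine sum_congr rfl (fun k _ => ?_)
    rw [res_smul_l]
    ring
  rw [h1]
  ring

/-- the rational linear functional; `N` is the fixed part of the numerator -/
noncomputable def Lr (K : Finset ℕ) (m : ℤ) (N : ℚ[X]) (z c0 c1 : ℚ) : ℚ[X] →ₗ[ℚ] ℚ where
  toFun P := z * qq K (P * N) + c0 * pp K m (P * N) 0 + c1 * pp K m (P * N) 1
  map_add' P Q := by
    rw [add_mul, qq_add_l, pp_add_l, pp_add_l]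
    ring
  map_smul' c P := by
    rw [smul_mul_assoc, qq_smul_l, pp_smul_l, pp_smul_l, RingHom.id_apply, smul_eq_mul]
    ring

theorem Lr_apply (K : Finset ℕ) (m : ℤ) (N : ℚ[X]) (z c0 c1 : ℚ) (P : ℚ[X]) :
    Lr K m N z c0 c1 P = z * qq K (P * N) + c0 * pp K m (P * N) 0 + c1 * pp K m (P * N) 1 := rfl

/-- the link with the kernel integral: with numerator N = κ * num -/
theorem Lf_Lr (K : Finset ℕ) (N : ℚ[X]) (a : ℕ) (ha : ∀ k ∈ K, a ≤ k) (m : ℤ) (hm : 1 ≤ m + a)
    (z c0 c1 : ℚ) (hz : (c0 : ℝ) * zt 2 + (c1 : ℝ) * zt 3 = z) (P : ℚ[X]) :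
    Lf (fun j => if j = 0 then (c0 : ℂ) else -(c1 : ℂ) / 2) 1 m (RF K (P * N)) =
      ((Lr K m N z c0 c1 P : ℚ) : ℂ) := by
  have h1 := Lf_rat K (P * N) a ha m hm 1 (fun j => if j = 0 then c0 else c1) z (by
    rw [sum_range_succ, sum_range_one]
    simpa using hz)
  rw [Lr_apply]
  have h2 : Lf (fun j => if j = 0 then (c0 : ℂ) else -(c1 : ℂ) / 2) 1 m (RF K (P * N)) =
      Lf (fun j => (-1) ^ j / ((j + 1).factorial : ℂ) * (((if j = 0 then c0 else c1 : ℚ)) : ℂ)) 1 m
        (RF K (P * N)) := by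
    unfold Lf
    refine sum_congr rfl (fun j hj => ?_)
    rw [mem_range] at hj
    congr 1
    interval_cases j
    · simp
    · simp [Nat.factorial]
      ring
  rw [h2, h1, sum_range_succ, sum_range_one]
  simp only [if_true, one_ne_zero, if_false]
  push_cast
  ring

/-- the same for an approximate relation: `z` is any rational number -/
theorem Lf_Lr_pert (K : Finset ℕ) (N : ℚ[X]) (a : ℕ) (ha : ∀ k ∈ K, a ≤ k) (m : ℤ)
    (hm : 1 ≤ m + a) (z c0 c1 : ℚ) (P : ℚ[X]) :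
    Lf (fun j => if j = 0 then (c0 : ℂ) else -(c1 : ℂ) / 2) 1 m (RF K (P * N)) =
      ((Lr K m N z c0 c1 P : ℚ) : ℂ) +
        ((c0 : ℂ) * (zt 2 : ℂ) + (c1 : ℂ) * (zt 3 : ℂ) - (z : ℂ)) * ((qq K (P * N) : ℚ) : ℂ) := by
  have h1 := Lf_form K (P * N) a ha m hm 1 (fun j => if j = 0 then (c0 : ℂ) else (c1 : ℂ))
  rw [Lr_apply]
  have h2 : Lf (fun j => if j = 0 then (c0 : ℂ) else -(c1 : ℂ) / 2) 1 m (RF K (P * N)) =
      Lf (fun j => (-1) ^ j / ((j + 1).factorial : ℂ) * (if j = 0 then (c0 : ℂ) else (c1 : ℂ))) 1 m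
        (RF K (P * N)) := by
    unfold Lf
    refine sum_congr rfl (fun j hj => ?_)
    rw [mem_range] at hj
    congr 1
    interval_cases j
    · simp
    · simp [Nat.factorial]
      ring
  rw [h2, h1, sum_range_succ, sum_range_one, sum_range_succ, sum_range_one]
  simp only [if_true, one_ne_zero, if_false]
  push_cast
  ring

section
variable {p : ℕ} [hp : Fact p.Prime]

theorem norm_intmul (z : ℤ) (x : ℚ) (B : ℚ) (h : padicNorm p x ≤ B) :
    padicNorm p ((z : ℚ) * x) ≤ B := by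
  rw [padicNorm.mul]
  calc padicNorm p (z : ℚ) * padicNorm p x ≤ 1 * padicNorm p x :=
        mul_le_mul_of_nonneg_right (padicNorm.of_int z) (padicNorm.nonneg _)
    _ = padicNorm p x := one_mul _
    _ ≤ B := h

/-- **Assembly.** Bounds of the polynomial part and of the residues give a bound of the value. -/
theorem asm (K : Finset ℕ) (m : ℤ) (S : ℚ[X]) (z c0 c1 : ℤ) (B : ℤ)
    (h1 : padicNorm p (volk m (S /ₘ den K)) ≤ (p : ℚ) ^ B)
    (h2 : padicNorm p (1 / 2 * volk m (derivative (S /ₘ den K))) ≤ (p : ℚ) ^ B)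
    (h3 : ∀ k ∈ K, (m + k - 1).toNat < p ^ 2 ∧ (padicNorm p (res K S k) ≤ (p : ℚ) ^ (B - 3) ∨
      ((m + k - 1).toNat < p ∧ padicNorm p (res K S k) ≤ (p : ℚ) ^ B))) :
    padicNorm p ((z : ℚ) * qq K S + (c0 : ℚ) * pp K m S 0 + (c1 : ℚ) * pp K m S 1) ≤
      (p : ℚ) ^ B := by
  have hp0 := ppos (p := p)
  have hp1 := pone (p := p)
  have hB : (0 : ℚ) ≤ (p : ℚ) ^ B := by positivity
  have hres : ∀ k ∈ K, ∀ r : ℕ, r ≤ 3 → padicNorm p (res K S k) * padicNorm p (H r (m + k - 1).toNat) ≤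
      (p : ℚ) ^ B := by
    intro k hk r hr
    obtain ⟨h4, h5⟩ := h3 k hk
    rcases h5 with h5 | ⟨h5, h6⟩
    · calc padicNorm p (res K S k) * padicNorm p (H r (m + k - 1).toNat)
          ≤ (p : ℚ) ^ (B - 3) * (p : ℚ) ^ r :=
            mul_le_mul h5 (norm_H_le p r _ hp.out h4) (padicNorm.nonneg _) (by positivity)
        _ = (p : ℚ) ^ (B - 3 + r) := by rw [← zpow_natCast, ← zpow_add₀ hp0.ne']
        _ ≤ (p : ℚ) ^ B := zpow_le_zpow_right₀ hp1.le (by omega)
    · calc padicNorm p (res K S k) * padicNorm p (H r (m + k - 1).toNat)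
          ≤ (p : ℚ) ^ B * 1 :=
            mul_le_mul h6 (norm_H_small p r _ hp.out h5) (padicNorm.nonneg _) (by positivity)
        _ = (p : ℚ) ^ B := mul_one _
  have hres0 : ∀ k ∈ K, padicNorm p (res K S k) ≤ (p : ℚ) ^ B := by
    intro k hk
    rcases (h3 k hk).2 with h5 | ⟨_, h6⟩
    · exact h5.trans (zpow_le_zpow_right₀ hp1.le (by omega))
    · exact h6
  have hs : ∀ r : ℕ, r ≤ 3 → padicNorm p (∑ k ∈ K, res K S k * H r (m + k - 1).toNat) ≤
      (p : ℚ) ^ B := by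
    intro r hr
    refine padicNorm.sum_le' (fun k hk => ?_) hB
    rw [padicNorm.mul]
    exact hres k hk r hr
  refine padicNorm.nonarchimedean.trans (max_le (padicNorm.nonarchimedean.trans (max_le ?_ ?_)) ?_)
  · apply norm_intmul
    unfold qq
    exact padicNorm.sum_le' hres0 hB
  · apply norm_intmul
    unfold pp
    refine padicNorm.sub.trans (max_le ?_ (hs 2 (by norm_num)))
    simpa using h1
  · apply norm_intmul
    unfold pp
    refine padicNorm.sub.trans (max_le ?_ (hs 3 (by norm_num)))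
    have h4 : (-1 : ℚ) ^ 1 / ((1 + 1).factorial : ℚ) * volk m (derivative^[1] (S /ₘ den K)) =
        -(1 / 2 * volk m (derivative (S /ₘ den K))) := by
      simp [Nat.factorial]
      ring
    rw [h4, padicNorm.neg]
    exact h2

end

end Pool.Agent.D23
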