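import Pool.Agent.D23.Key
import Pool.Agent.D23.Pos
import Pool.Agent.D23.Rep

/-!
Nonvanishing of one of three consecutive Hankel determinants of the functional attached to a
rational function with three zero blocks and one block of simple poles.
-/

open Finset Polynomial MeasureTheory

namespace Pool.Agent.D23

open Pool.Agent.Z3D

/-- product over a block -/
noncomputable def bl (a b : ℕ) (t : ℂ) : ℂ := ∏ i ∈ Ico a b, (t + (i : ℂ))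

noncomputable def blP (a b : ℕ) : ℂ[X] := ∏ i ∈ Ico a b, (X + C (i : ℂ))

theorem blP_eval (a b : ℕ) (t : ℂ) : (blP a b).eval t = bl a b t := by
  unfold blP bl
  rw [eval_prod]
  simp

theorem blP_monic (a b : ℕ) : (blP a b).Monic := monic_prod_of_monic _ _ (fun _ _ => monic_X_add_C _)

theorem bl_shift (a b : ℕ) (h : a ≤ b) (t : ℂ) :
    bl a b (t + 1) * (t + a) = bl a b t * (t + b) := by
  induction b, h using Nat.le_induction with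
  | base => simp [bl]
  | succ b hb ih =>
    unfold bl at ih ⊢
    rw [prod_Ico_succ_top hb, prod_Ico_succ_top hb]
    push_cast
    linear_combination (t + 1 + b) * ih

theorem bl_factor (a b k : ℕ) (h1 : a ≤ k) (h2 : k < b) (t : ℂ) :
    bl a b t = (t + k) * ∏ i ∈ (Ico a b).erase k, (t + (i : ℂ)) := by
  unfold bl
  rw [mul_prod_erase (Ico a b) (fun i : ℕ => t + (i : ℂ)) (mem_Ico.mpr ⟨h1, h2⟩)]

theorem bl_ne_zero (a b : ℕ) (t : ℂ) (ht : -(a : ℝ) < t.re) : bl a b t ≠ 0 := by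
  unfold bl
  rw [prod_ne_zero_iff]
  intro i hi h0
  rw [mem_Ico] at hi
  have h1 : (a : ℝ) ≤ i := by exact_mod_cast hi.1
  have h2 := congrArg Complex.re h0
  rw [Complex.add_re, Complex.natCast_re, Complex.zero_re] at h2
  linarith

/-- the rational function with zero blocks `[z1 i, z2 i)` and pole block `[p1, p2)` -/
noncomputable def RB (kap : ℂ) (z1 z2 : Fin 3 → ℕ) (p1 p2 : ℕ) (t : ℂ) : ℂ :=
  kap * (bl (z1 0) (z2 0) t * bl (z1 1) (z2 1) t * bl (z1 2) (z2 2) t) / bl p1 p2 t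

theorem HG_bl (x0 : ℝ) (a b : ℕ) : HG x0 (bl a b) :=
  (HG_poly x0 (blP a b)).congr (fun t _ => (blP_eval a b t).symm)

theorem HG_prod_add (x0 : ℝ) (s : Finset ℕ) : HG x0 (fun t => ∏ i ∈ s, (t + (i : ℂ))) := by
  refine HG.prod s _ (fun i _ => ?_)
  exact (HG.id x0).add (HG.const x0 _)

theorem HG_bl_inv (x0 : ℝ) (a b : ℕ) (h : -(a : ℝ) < x0) : HG x0 (fun t => 1 / bl a b t) := by
  have h1 : HG x0 (fun t => ∏ i ∈ Ico a b, (1 / (t + ((i : ℝ) : ℂ)))) := by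
    refine HG.prod _ _ (fun i hi => HG_inv (i : ℝ) ?_)
    rw [mem_Ico] at hi
    have h2 : (a : ℝ) ≤ i := by exact_mod_cast hi.1
    linarith
  refine h1.congr (fun t _ => ?_)
  unfold bl
  simp only [one_div, Complex.ofReal_natCast]
  rw [prod_inv_distrib]

theorem HG_RB (kap : ℂ) (z1 z2 : Fin 3 → ℕ) (p1 p2 : ℕ) (x0 : ℝ) (h : -(p1 : ℝ) < x0) :
    HG x0 (RB kap z1 z2 p1 p2) := by
  have h1 := ((((HG_bl x0 (z1 0) (z2 0)).mul (HG_bl x0 (z1 1) (z2 1))).mul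
    (HG_bl x0 (z1 2) (z2 2))).const_mul kap).mul (HG_bl_inv x0 p1 p2 h)
  refine h1.congr (fun t _ => ?_)
  unfold RB
  ring

/-- **Nonvanishing**, for a functional on a line inside the triple zone. -/
theorem nonvan_blocks (kap : ℂ) (hkap : kap ≠ 0) (z1 z2 : Fin 3 → ℕ) (p1 p2 : ℕ)
    (hz : ∀ i, z1 i ≤ z2 i) (hp : p1 ≤ p2) (k : ℕ) (hk : ∀ i, z1 i ≤ k ∧ k < z2 i)
    (x0 : ℝ) (hx0 : -(p1 : ℝ) < x0) (m : ℤ) (hmk : m = -(k : ℤ)) (hx1 : x0 < (m : ℝ) - 1 / 2)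
    (hR : HG x0 (RB kap z1 z2 p1 p2)) (a1 a2 : ℝ) (ha : a1 ≠ 0 ∨ a2 ≠ 0)
    (c : ℕ → ℂ) (hc0 : c 0 = a1) (hc1 : c 1 = -(a2 : ℂ) / 2) (M : ℕ)
    (hM : (p2 : ℤ) - p1 ≤ M + ∑ i, ((z2 i : ℤ) - z1 i)) :
    ∃ j, M < j + 3 ∧ j ≤ M ∧
      (gram (Lam c 1 m x0 (RB kap z1 z2 p1 p2) hR hx1) (fun i => X ^ i) j).det ≠ 0 := by
  set R := RB kap z1 z2 p1 p2 with hRdef
  set Λ := Lam c 1 m x0 R hR hx1 with hΛ
  set a : Fin 4 → ℂ := ![(z2 0 : ℂ), (z2 1 : ℂ), (z2 2 : ℂ), (p1 : ℂ)] with ha'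
  set b : Fin 4 → ℂ := ![(z1 0 : ℂ), (z1 1 : ℂ), (z1 2 : ℂ), (p2 : ℂ)] with hb'
  -- Pearson equation
  have hrec : ∀ t : ℂ, x0 < t.re → R (t + 1) * ∏ i, (t + b i) = R t * ∏ i, (t + a i) := by
    intro t ht
    have h0 := bl_shift (z1 0) (z2 0) (hz 0) t
    have h1 := bl_shift (z1 1) (z2 1) (hz 1) t
    have h2 := bl_shift (z1 2) (z2 2) (hz 2) t
    have h3 := bl_shift p1 p2 hp t
    have n1 : bl p1 p2 t ≠ 0 := bl_ne_zero p1 p2 t (by linarith)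
    have n2 : bl p1 p2 (t + 1) ≠ 0 := bl_ne_zero p1 p2 (t + 1) (by
      rw [Complex.add_re, Complex.one_re]; linarith)
    rw [Fin.prod_univ_four, Fin.prod_univ_four]
    simp only [ha', hb', hRdef, RB, Matrix.cons_val]
    have e1 : kap * (bl (z1 0) (z2 0) (t + 1) * bl (z1 1) (z2 1) (t + 1) *
        bl (z1 2) (z2 2) (t + 1)) / bl p1 p2 (t + 1) *
        ((t + (z1 0 : ℂ)) * (t + (z1 1 : ℂ)) * (t + (z1 2 : ℂ)) * (t + (p2 : ℂ))) =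
        kap * ((bl (z1 0) (z2 0) (t + 1) * (t + (z1 0 : ℂ))) *
          (bl (z1 1) (z2 1) (t + 1) * (t + (z1 1 : ℂ))) *
          (bl (z1 2) (z2 2) (t + 1) * (t + (z1 2 : ℂ)))) *
          ((t + (p2 : ℂ)) / bl p1 p2 (t + 1)) := by ring
    have e2 : (t + (p2 : ℂ)) / bl p1 p2 (t + 1) = (t + (p1 : ℂ)) / bl p1 p2 t := by
      rw [div_eq_div_iff n2 n1]
      linear_combination -h3
    rw [e1, h0, h1, h2, e2]
    ring
  -- factor of the triple zero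
  have hq : ∃ q : ℂ → ℂ, HG x0 q ∧ ∀ t : ℂ, x0 < t.re → R t = (t - m) ^ (1 + 2) * q t := by
    refine ⟨fun t => kap * ((∏ i ∈ (Ico (z1 0) (z2 0)).erase k, (t + (i : ℂ))) *
      (∏ i ∈ (Ico (z1 1) (z2 1)).erase k, (t + (i : ℂ))) *
      (∏ i ∈ (Ico (z1 2) (z2 2)).erase k, (t + (i : ℂ)))) * (1 / bl p1 p2 t), ?_, ?_⟩
    · exact ((((HG_prod_add x0 _).mul (HG_prod_add x0 _)).mul (HG_prod_add x0 _)).const_mul
        kap).mul (HG_bl_inv x0 p1 p2 hx0)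
    · intro t ht
      have hm : t - (m : ℂ) = t + k := by rw [hmk]; push_cast; ring
      simp only [hRdef, RB]
      rw [bl_factor (z1 0) (z2 0) k (hk 0).1 (hk 0).2, bl_factor (z1 1) (z2 1) k (hk 1).1 (hk 1).2,
        bl_factor (z1 2) (z2 2) k (hk 2).1 (hk 2).2, hm]
      ring
  obtain ⟨q, hq1, hq2⟩ := hq
  have hpe := Lam_pearson c 1 m x0 R hR hx1 q hq1 hq2 a b hrec
  -- positivity
  have hpos : ∀ Q : ℂ[X], Q.Monic → ∃ T : ℂ[X], Λ (Q * T) ≠ 0 := by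
    intro Q hQ
    have hcast : ∀ y : ℝ, (((m : ℝ) - 1 / 2 : ℝ) : ℂ) + (y : ℂ) * Complex.I = ln m y := by
      intro y
      unfold ln
      push_cast
      ring
    refine hpos_W1 ((m : ℝ) - 1 / 2) a1 a2 ha (fun y => R (ln m y) * W1 a1 a2 y) (blP p1 p2)
      (C kap * (blP (z1 0) (z2 0) * blP (z1 1) (z2 1) * blP (z1 2) (z2 2))) ?_ ?_ Λ ?_ Q
      hQ.ne_zero
    · exact mul_ne_zero (by rwa [Ne, C_eq_zero])
        (mul_ne_zero (mul_ne_zero (blP_monic _ _).ne_zero (blP_monic _ _).ne_zero)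
          (blP_monic _ _).ne_zero)
    · intro y
      rw [hcast]
      have n1 : bl p1 p2 (ln m y) ≠ 0 := bl_ne_zero p1 p2 _ (by rw [ln_re]; linarith)
      simp only [eval_mul, eval_C, blP_eval, hRdef, RB]
      field_simp
    · intro P
      rw [hΛ, Lam_apply, Lf_one c ((HG_poly x0 P).mul hR) m hx1]
      refine integral_congr_ae (Filter.Eventually.of_forall fun y => ?_)
      simp only
      rw [hcast, hc0, hc1]
      unfold W1 Th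
      push_cast
      ring
  have he : ∑ i, a i - ∑ i, (b i - 1) =
      (((∑ i, ((z2 i : ℤ) - z1 i)) - ((p2 : ℤ) - p1) + 4 : ℤ) : ℂ) := by
    rw [Fin.sum_univ_four, Fin.sum_univ_four, Fin.sum_univ_three]
    simp only [ha', hb', Matrix.cons_val]
    push_cast
    ring
  obtain ⟨j, h1, h2, h3⟩ := window_prod Λ a (fun i => b i - 1) hpe M
    ((∑ i, ((z2 i : ℤ) - z1 i)) - ((p2 : ℤ) - p1) + 4) he (by push_cast; linarith) hpos
  exact ⟨j, by omega, h2, h3⟩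

/-- the functionals on the lines `m - 1/2` and `m + 1/2` agree when `-m` is a triple zero -/
theorem Lam_line_succ (kap : ℂ) (z1 z2 : Fin 3 → ℕ) (p1 p2 : ℕ)
    (k : ℕ) (hk : ∀ i, z1 i ≤ k ∧ k < z2 i)
    (x0 : ℝ) (hx0 : -(p1 : ℝ) < x0) (m : ℤ) (hmk : m = -(k : ℤ)) (hx1 : x0 < (m : ℝ) - 1 / 2)
    (c : ℕ → ℂ) (P : ℂ[X]) :
    Lf c 1 (m + 1) (fun t => P.eval t * RB kap z1 z2 p1 p2 t) =
      Lf c 1 m (fun t => P.eval t * RB kap z1 z2 p1 p2 t) := by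
  refine Lf_mul_shift c 1 m x0 _ (HG_RB kap z1 z2 p1 p2 x0 hx0) hx1
    (fun t => kap * ((∏ i ∈ (Ico (z1 0) (z2 0)).erase k, (t + (i : ℂ))) *
      (∏ i ∈ (Ico (z1 1) (z2 1)).erase k, (t + (i : ℂ))) *
      (∏ i ∈ (Ico (z1 2) (z2 2)).erase k, (t + (i : ℂ)))) * (1 / bl p1 p2 t)) ?_ ?_ P
  · exact ((((HG_prod_add x0 _).mul (HG_prod_add x0 _)).mul (HG_prod_add x0 _)).const_mul
      kap).mul (HG_bl_inv x0 p1 p2 hx0)
  · intro t ht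
    have hm : t - (m : ℂ) = t + k := by rw [hmk]; push_cast; ring
    simp only [RB]
    rw [bl_factor (z1 0) (z2 0) k (hk 0).1 (hk 0).2, bl_factor (z1 1) (z2 1) k (hk 1).1 (hk 1).2,
      bl_factor (z1 2) (z2 2) k (hk 2).1 (hk 2).2, hm]
    ring

/-- all lines in the triple zone give the same functional -/
theorem Lf_line_eq (kap : ℂ) (z1 z2 : Fin 3 → ℕ) (p1 p2 : ℕ) (k0 k1 : ℕ)
    (hk : ∀ k, k0 ≤ k → k < k1 → ∀ i, z1 i ≤ k ∧ k < z2 i)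
    (x0 : ℝ) (hx0 : -(p1 : ℝ) < x0) (hx1 : x0 < 1 / 2 - (k1 : ℝ)) (c : ℕ → ℂ) (P : ℂ[X]) :
    ∀ d : ℕ, k0 + d ≤ k1 →
      Lf c 1 (1 - (k0 : ℤ) - d) (fun t => P.eval t * RB kap z1 z2 p1 p2 t) =
        Lf c 1 (1 - (k0 : ℤ)) (fun t => P.eval t * RB kap z1 z2 p1 p2 t) := by
  intro d
  induction d with
  | zero => intro _; simp
  | succ d ih =>
    intro hd
    rw [← ih (by omega)]
    have h1 := Lam_line_succ kap z1 z2 p1 p2 (k0 + d) (hk (k0 + d) (by omega) (by omega)) x0 hx0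
      (-((k0 + d : ℕ) : ℤ)) rfl (by
        have : ((k0 + d + 1 : ℕ) : ℝ) ≤ k1 := by exact_mod_cast hd
        push_cast at this ⊢
        linarith) c P
    have e1 : (1 : ℤ) - (k0 : ℤ) - ((d + 1 : ℕ) : ℤ) = -((k0 + d : ℕ) : ℤ) := by push_cast; ring
    have e2 : (1 : ℤ) - (k0 : ℤ) - (d : ℤ) = -((k0 + d : ℕ) : ℤ) + 1 := by push_cast; ring
    rw [e1, e2, h1]

/-- nonvanishing on any line of the triple zone `k0 ≤ k < k1` -/
theorem nonvan_line (kap : ℂ) (hkap : kap ≠ 0) (z1 z2 : Fin 3 → ℕ) (p1 p2 : ℕ)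
    (hz : ∀ i, z1 i ≤ z2 i) (hp : p1 ≤ p2) (k0 k1 : ℕ) (h01 : k0 < k1)
    (hk : ∀ k, k0 ≤ k → k < k1 → ∀ i, z1 i ≤ k ∧ k < z2 i)
    (x0 : ℝ) (hx0 : -(p1 : ℝ) < x0) (hx1 : x0 < 1 / 2 - (k1 : ℝ))
    (a1 a2 : ℝ) (ha : a1 ≠ 0 ∨ a2 ≠ 0)
    (c : ℕ → ℂ) (hc0 : c 0 = a1) (hc1 : c 1 = -(a2 : ℂ) / 2) (M : ℕ)
    (hM : (p2 : ℤ) - p1 ≤ M + ∑ i, ((z2 i : ℤ) - z1 i))
    (m : ℤ) (hm0 : 1 - (k1 : ℤ) ≤ m) (hm1 : m ≤ 1 - (k0 : ℤ)) :
    ∃ j, M < j + 3 ∧ j ≤ M ∧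
      (Matrix.of fun i l : Fin j => Lf c 1 m
        (fun t => (X ^ (i : ℕ) * X ^ (l : ℕ) : ℂ[X]).eval t * RB kap z1 z2 p1 p2 t)).det ≠ 0 := by
  have hk1 : ((k0 + 1 : ℕ) : ℝ) ≤ k1 := by exact_mod_cast h01
  have hxk : x0 < ((-(k0 : ℤ) : ℤ) : ℝ) - 1 / 2 := by push_cast at hk1 ⊢; linarith
  obtain ⟨j, h1, h2, h3⟩ := nonvan_blocks kap hkap z1 z2 p1 p2 hz hp k0 (hk k0 le_rfl h01) x0 hx0
    (-(k0 : ℤ)) rfl hxk (HG_RB kap z1 z2 p1 p2 x0 hx0) a1 a2 ha c hc0 hc1 M hM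
  refine ⟨j, h1, h2, ?_⟩
  have e : (Matrix.of fun i l : Fin j => Lf c 1 m
      (fun t => (X ^ (i : ℕ) * X ^ (l : ℕ) : ℂ[X]).eval t * RB kap z1 z2 p1 p2 t)) =
      gram (Lam c 1 (-(k0 : ℤ)) x0 (RB kap z1 z2 p1 p2) (HG_RB kap z1 z2 p1 p2 x0 hx0) hxk)
        (fun i => X ^ i) j := by
    ext i l
    simp only [gram, Matrix.of_apply, Lam_apply]
    obtain ⟨d, hd⟩ : ∃ d : ℕ, m = 1 - (k0 : ℤ) - d := ⟨(1 - (k0 : ℤ) - m).toNat, by omega⟩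
    have h4 := Lf_line_eq kap z1 z2 p1 p2 k0 k1 hk x0 hx0 hx1 c
      (X ^ (i : ℕ) * X ^ (l : ℕ)) d (by omega)
    have h5 := Lf_line_eq kap z1 z2 p1 p2 k0 k1 hk x0 hx0 hx1 c
      (X ^ (i : ℕ) * X ^ (l : ℕ)) 1 (by omega)
    have e1 : (1 : ℤ) - (k0 : ℤ) - ((1 : ℕ) : ℤ) = -(k0 : ℤ) := by push_cast; ring
    rw [e1] at h5
    rw [hd, h4, h5]
  rw [e]
  exact h3

end Pool.Agent.D23
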