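import Pool.Agent.D23.NonvanL
import Pool.Agent.D23.Link
import Pool.Agent.D23.Dlt

/-!
Module NONVAN for the family 2334/00110.
-/

open Finset Polynomial MeasureTheory

namespace Pool.Agent.D23

theorem kap_ne_zero (n : ℕ) : kap n ≠ 0 := by
  unfold kap
  have h1 : ((6 * n).factorial : ℚ) ≠ 0 := by exact_mod_cast Nat.factorial_ne_zero _
  have h2 : ((2 * n).factorial : ℚ) ≠ 0 := by exact_mod_cast Nat.factorial_ne_zero _
  have h3 : ((3 * n).factorial : ℚ) ≠ 0 := by exact_mod_cast Nat.factorial_ne_zero _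
  exact div_ne_zero h1 (mul_ne_zero (pow_ne_zero 2 h2) h3)

/-- one of the three determinants is nonzero, for every rational `z` -/
theorem nonvan_any (n : ℕ) (hn : 1 ≤ n) (z c0 c1 : ℚ) (hc : c0 ≠ 0 ∨ c1 ≠ 0) :
    ∃ M, 4 * n ≤ M + 2 ∧ M ≤ 4 * n ∧ Dlt n z c0 c1 M ≠ 0 := by
  obtain ⟨j, h1, h2, h3⟩ := nonvan_Lr (kap n) (kap_ne_zero n) (C (kap n) * num ℚ n)
    ![0, 0, n] ![2 * n, 3 * n, 3 * n] (4 * n) (10 * n)
    (by
      intro t
      unfold num bl
      simp only [map_mul, aeval_C, map_prod, map_add, aeval_X, Matrix.cons_val,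
        ← Nat.Ico_zero_eq_range, map_natCast, eq_ratCast]
      )
    (by
      intro i
      fin_cases i <;> simp
      omega) (by omega) n (2 * n) (by omega) (by omega)
    (by
      intro k hk1 hk2 i
      fin_cases i <;> simp <;> omega)
    z c0 c1 hc (4 * n)
    (by
      rw [Fin.sum_univ_three]
      simp only [Matrix.cons_val]
      push_cast
      omega)
    (1 - ((2 * n : ℕ) : ℤ)) le_rfl (by push_cast; omega)
  refine ⟨j, by omega, h2, ?_⟩
  unfold Dlt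
  rw [lr_eq]
  refine div_ne_zero h3 ?_
  rw [prod_ne_zero_iff]
  intro i _
  exact pow_ne_zero 2 (by exact_mod_cast Nat.factorial_ne_zero i)

theorem nonvan (n : ℕ) (hn : 1 ≤ n) (z c0 c1 : ℚ) (hc : c0 ≠ 0 ∨ c1 ≠ 0)
    (_hz : (c0 : ℝ) * zt 2 + c1 * zt 3 = z) :
    ∃ M, 4 * n ≤ M + 2 ∧ M ≤ 4 * n ∧ Dlt n z c0 c1 M ≠ 0 :=
  nonvan_any n hn z c0 c1 hc

end Pool.Agent.D23
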