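import Pool.Agent.D23.NonvanQ
import Pool.Agent.D23.LinkG

/-!
Nonvanishing of the rational Hankel determinants of `Lr`, for every rational `z` (no relation
between the zeta values is needed).
-/

open Finset Polynomial MeasureTheory

namespace Pool.Agent.D23

open Pool.Agent.Z3D

/-- **One of three consecutive rational Hankel determinants is nonzero.** -/
theorem nonvan_Lr (κ : ℚ) (hκ : κ ≠ 0) (N : ℚ[X]) (z1 z2 : Fin 3 → ℕ) (p1 p2 : ℕ)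
    (hN : ∀ t : ℂ, aeval t N =
      (κ : ℂ) * (bl (z1 0) (z2 0) t * bl (z1 1) (z2 1) t * bl (z1 2) (z2 2) t))
    (hz : ∀ i, z1 i ≤ z2 i) (hp : p1 ≤ p2) (k0 k1 : ℕ) (h01 : k0 < k1) (hkp : k1 ≤ p1)
    (hk : ∀ k, k0 ≤ k → k < k1 → ∀ i, z1 i ≤ k ∧ k < z2 i)
    (z c0 c1 : ℚ) (hc : c0 ≠ 0 ∨ c1 ≠ 0) (M : ℕ)
    (hM : (p2 : ℤ) - p1 ≤ M + ∑ i, ((z2 i : ℤ) - z1 i))
    (m : ℤ) (hm0 : 1 - (k1 : ℤ) ≤ m) (hm1 : m ≤ 1 - (k0 : ℤ)) :
    ∃ j, M < j + 3 ∧ j ≤ M ∧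
      (gram (Lr (Ico p1 p2) m N z c0 c1) (fun i => (X : ℚ[X]) ^ i) j).det ≠ 0 := by
  have hkp' : (k1 : ℝ) ≤ p1 := by exact_mod_cast hkp
  have hm : 1 ≤ m + (p1 : ℤ) := by
    have : (k1 : ℤ) ≤ p1 := by exact_mod_cast hkp
    linarith
  have hc' : (c0 : ℝ) ≠ 0 ∨ (c1 : ℝ) ≠ 0 := by
    rcases hc with h | h
    · exact Or.inl (by exact_mod_cast h)
    · exact Or.inr (by exact_mod_cast h)
  set lam : ℂ := (c0 : ℂ) * (zt 2 : ℂ) + (c1 : ℂ) * (zt 3 : ℂ) - (z : ℂ) with hlam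
  obtain ⟨j, h1, h2, h3⟩ := nonvan_line_q (κ : ℂ) (by exact_mod_cast hκ) z1 z2 p1 p2 hz hp k0 k1
    h01 hk (-(p1 : ℝ) + 1 / 4) (by linarith) (by linarith) (c0 : ℝ) (c1 : ℝ) hc'
    (fun j => if j = 0 then (c0 : ℂ) else -(c1 : ℂ) / 2) (by simp) (by simp) lam M hM m hm0 hm1
  refine ⟨j, h1, h2, ?_⟩
  -- numerator polynomials
  have hNmap : N.map (algebraMap ℚ ℂ) = numB (κ : ℂ) z1 z2 := by
    refine Polynomial.funext (fun t => ?_)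
    rw [numB_eval, ← hN t, aeval_def, eval_map]
  have hRF : ∀ (P : ℚ[X]) (t : ℂ), RF (Ico p1 p2) (P * N) t =
      (P.map (algebraMap ℚ ℂ)).eval t * RB (κ : ℂ) z1 z2 p1 p2 t := by
    intro P t
    rw [RF_mul]
    unfold RF RB
    rw [hN t, aeval_def, eval_map]
    rfl
  have hqq : ∀ P : ℚ[X], ((qq (Ico p1 p2) (P * N) : ℚ) : ℂ) =
      qF (κ : ℂ) z1 z2 p1 p2 (P.map (algebraMap ℚ ℂ)) := by
    intro P
    rw [qF_apply, ← hNmap, ← Polynomial.map_mul]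
    unfold qq
    push_cast
    exact sum_congr rfl (fun k _ => (res_map _ _ k).symm)
  have hent : ∀ P : ℚ[X], ((Lr (Ico p1 p2) m N z c0 c1 P : ℚ) : ℂ) =
      Lf (fun j => if j = 0 then (c0 : ℂ) else -(c1 : ℂ) / 2) 1 m
        (fun t => (P.map (algebraMap ℚ ℂ)).eval t * RB (κ : ℂ) z1 z2 p1 p2 t) -
      lam * qF (κ : ℂ) z1 z2 p1 p2 (P.map (algebraMap ℚ ℂ)) := by
    intro P
    have h4 := Lf_Lr_pert (Ico p1 p2) N p1 (fun k hk => (mem_Ico.mp hk).1) m hm z c0 c1 P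
    have h5 : RF (Ico p1 p2) (P * N) =
        fun t => (P.map (algebraMap ℚ ℂ)).eval t * RB (κ : ℂ) z1 z2 p1 p2 t := by
      funext t
      exact hRF P t
    rw [h5] at h4
    rw [h4, ← hqq P, hlam]
    ring
  intro h0
  apply h3
  have e : (Matrix.of fun i l : Fin j => Lf (fun j => if j = 0 then (c0 : ℂ) else -(c1 : ℂ) / 2) 1 m
      (fun t => (X ^ (i : ℕ) * X ^ (l : ℕ) : ℂ[X]).eval t * RB (κ : ℂ) z1 z2 p1 p2 t) -
        lam * qF (κ : ℂ) z1 z2 p1 p2 (X ^ (i : ℕ) * X ^ (l : ℕ))) =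
      (gram (Lr (Ico p1 p2) m N z c0 c1) (fun i => (X : ℚ[X]) ^ i) j).map (algebraMap ℚ ℂ) := by
    ext i l
    rw [Matrix.map_apply]
    simp only [gram, Matrix.of_apply]
    have h6 := hent ((X : ℚ[X]) ^ (i : ℕ) * X ^ (l : ℕ))
    have h7 : ((X : ℚ[X]) ^ (i : ℕ) * X ^ (l : ℕ)).map (algebraMap ℚ ℂ) =
        X ^ (i : ℕ) * X ^ (l : ℕ) := by
      simp
    rw [h7] at h6
    rw [← h6]
    rfl
  rw [e, ← RingHom.mapMatrix_apply, ← RingHom.map_det, h0, map_zero]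

end Pool.Agent.D23
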