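import Pool.Agent.D23.Nonvan

/-!
The sum of residues satisfies the same Pearson equation and vanishes on the multiples of the
denominator; hence the nonvanishing window holds for `Lf - lam * (sum of residues)` too.
-/

open Finset Polynomial MeasureTheory

namespace Pool.Agent.D23

open Pool.Agent.Z3D

/-- numerator of `RB` -/
noncomputable def numB (kap : ℂ) (z1 z2 : Fin 3 → ℕ) : ℂ[X] :=
  C kap * (blP (z1 0) (z2 0) * blP (z1 1) (z2 1) * blP (z1 2) (z2 2))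

theorem numB_eval (kap : ℂ) (z1 z2 : Fin 3 → ℕ) (t : ℂ) : (numB kap z1 z2).eval t =
    kap * (bl (z1 0) (z2 0) t * bl (z1 1) (z2 1) t * bl (z1 2) (z2 2) t) := by
  unfold numB
  simp only [eval_mul, eval_C, blP_eval]

/-- sum of the residues of `P * RB` -/
noncomputable def qF (kap : ℂ) (z1 z2 : Fin 3 → ℕ) (p1 p2 : ℕ) : ℂ[X] →ₗ[ℂ] ℂ where
  toFun P := ∑ k ∈ Ico p1 p2, res (Ico p1 p2) (P * numB kap z1 z2) k
  map_add' P Q := by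
    rw [← sum_add_distrib]
    refine sum_congr rfl (fun k _ => ?_)
    unfold res
    rw [add_mul, eval_add]
    ring
  map_smul' b P := by
    rw [RingHom.id_apply, smul_eq_mul, mul_sum]
    refine sum_congr rfl (fun k _ => ?_)
    unfold res
    rw [smul_mul_assoc, eval_smul, smul_eq_mul]
    ring

theorem qF_apply (kap : ℂ) (z1 z2 : Fin 3 → ℕ) (p1 p2 : ℕ) (P : ℂ[X]) :
    qF kap z1 z2 p1 p2 P = ∑ k ∈ Ico p1 p2, res (Ico p1 p2) (P * numB kap z1 z2) k := rfl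

/-- `qF` kills the multiples of the denominator -/
theorem qF_den (kap : ℂ) (z1 z2 : Fin 3 → ℕ) (p1 p2 : ℕ) (P : ℂ[X]) :
    qF kap z1 z2 p1 p2 (blP p1 p2 * P) = 0 := by
  rw [qF_apply]
  refine sum_eq_zero (fun k hk => ?_)
  unfold res
  rw [mem_Ico] at hk
  rw [eval_mul, eval_mul, blP_eval, bl_factor p1 p2 k hk.1 hk.2, neg_add_cancel]
  ring

theorem blP_comp (a b : ℕ) (h : a ≤ b) :
    (blP a b).comp (X + 1) * (X + C (a : ℂ)) = blP a b * (X + C (b : ℂ)) := by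
  refine Polynomial.funext (fun t => ?_)
  simp only [eval_mul, eval_comp, eval_add, eval_X, eval_one, eval_C, blP_eval]
  exact bl_shift a b h t

theorem erase_shift (p1 p2 k : ℕ) (h1 : p1 ≤ k) (h2 : k + 1 < p2) :
    (∏ j ∈ (Ico p1 p2).erase k, ((j : ℂ) - k)) * ((p1 : ℂ) - (k + 1)) =
      (∏ j ∈ (Ico p1 p2).erase (k + 1), ((j : ℂ) - ((k + 1 : ℕ) : ℂ))) * ((p2 : ℂ) - (k + 1)) := by
  have e0 : ∀ l : ℕ, l ∈ Ico p1 p2 →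
      blP p1 p2 = (X + C (l : ℂ)) * ∏ i ∈ (Ico p1 p2).erase l, (X + C (i : ℂ)) := by
    intro l hl
    unfold blP
    rw [mul_prod_erase (Ico p1 p2) (fun i : ℕ => (X + C (i : ℂ))) hl]
  have ha := e0 k (mem_Ico.mpr ⟨h1, by omega⟩)
  have hb := e0 (k + 1) (mem_Ico.mpr ⟨by omega, h2⟩)
  have hs := blP_comp p1 p2 (by omega)
  have hx : ((X + C (k : ℂ) : ℂ[X])).comp (X + 1) = X + C (((k + 1 : ℕ) : ℂ)) := by
    simp only [add_comp, X_comp, C_comp]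
    push_cast
    rw [C_add, C_1]
    ring
  have h3 : (X + C (((k + 1 : ℕ) : ℂ))) *
      ((∏ i ∈ (Ico p1 p2).erase k, (X + C (i : ℂ))).comp (X + 1) * (X + C (p1 : ℂ))) =
      (X + C (((k + 1 : ℕ) : ℂ))) *
      ((∏ i ∈ (Ico p1 p2).erase (k + 1), (X + C (i : ℂ))) * (X + C (p2 : ℂ))) := by
    rw [← mul_assoc, ← mul_assoc, ← hb, ← hx, ← mul_comp, ← ha]
    exact hs
  have h4 := mul_left_cancel₀ (X_add_C_ne_zero _) h3
  have h5 := congrArg (fun P : ℂ[X] => P.eval (-(((k + 1 : ℕ) : ℂ)))) h4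
  simp only [eval_mul, eval_comp, eval_add, eval_X, eval_one, eval_C, eval_prod] at h5
  have e1 : ∏ j ∈ (Ico p1 p2).erase k, ((j : ℂ) - k) =
      ∏ x ∈ (Ico p1 p2).erase k, (-((k + 1 : ℕ) : ℂ) + 1 + (x : ℂ)) :=
    prod_congr rfl (fun j _ => by push_cast; ring)
  have e2 : ∏ j ∈ (Ico p1 p2).erase (k + 1), ((j : ℂ) - ((k + 1 : ℕ) : ℂ)) =
      ∏ x ∈ (Ico p1 p2).erase (k + 1), (-((k + 1 : ℕ) : ℂ) + (x : ℂ)) :=
    prod_congr rfl (fun j _ => by push_cast; ring)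
  rw [e1, e2]
  push_cast at h5 ⊢
  linear_combination h5

theorem erase_ne_zero (K : Finset ℕ) (k : ℕ) : ∏ j ∈ K.erase k, ((j : ℂ) - k) ≠ 0 := by
  rw [prod_ne_zero_iff]
  intro j hj h0
  rw [mem_erase] at hj
  rw [sub_eq_zero] at h0
  exact hj.1 (by exact_mod_cast h0)

/-- Pearson equation for the sum of residues -/
theorem qF_pearson (kap : ℂ) (z1 z2 : Fin 3 → ℕ) (p1 p2 : ℕ) (hz : ∀ i, z1 i ≤ z2 i)
    (hp : p1 ≤ p2) (S : ℂ[X]) :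
    qF kap z1 z2 p1 p2 (S.comp (X + 1) *
      ((X + C (z2 0 : ℂ)) * (X + C (z2 1 : ℂ)) * (X + C (z2 2 : ℂ)) * (X + C (p1 : ℂ)))) =
    qF kap z1 z2 p1 p2 (S * ((X + C ((z1 0 : ℂ) - 1)) * (X + C ((z1 1 : ℂ) - 1)) *
      (X + C ((z1 2 : ℂ) - 1)) * (X + C ((p2 : ℂ) - 1)))) := by
  rcases Nat.eq_or_lt_of_le hp with h | h
  · subst h
    rw [qF_apply, qF_apply]
    simp
  rw [qF_apply, qF_apply]
  obtain ⟨L, rfl⟩ : ∃ L, p2 = L + 1 := ⟨p2 - 1, by omega⟩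
  rw [sum_eq_sum_Ico_succ_bot h, sum_Ico_succ_top (by omega : p1 ≤ L)]
  have hf : res (Ico p1 (L + 1)) (S.comp (X + 1) *
      ((X + C (z2 0 : ℂ)) * (X + C (z2 1 : ℂ)) * (X + C (z2 2 : ℂ)) * (X + C (p1 : ℂ))) *
      numB kap z1 z2) p1 = 0 := by
    unfold res
    simp only [eval_mul, eval_add, eval_X, eval_C, neg_add_cancel]
    ring
  have hg : res (Ico p1 (L + 1)) (S * ((X + C ((z1 0 : ℂ) - 1)) * (X + C ((z1 1 : ℂ) - 1)) *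
      (X + C ((z1 2 : ℂ) - 1)) * (X + C (((L + 1 : ℕ) : ℂ) - 1))) * numB kap z1 z2) L = 0 := by
    unfold res
    simp only [eval_mul, eval_add, eval_X, eval_C]
    have : -(L : ℂ) + (((L + 1 : ℕ) : ℂ) - 1) = 0 := by push_cast; ring
    rw [this]
    ring
  rw [hf, hg, zero_add, add_zero, ← Finset.sum_Ico_add' _ p1 L 1]
  refine sum_congr rfl (fun k hk => ?_)
  rw [mem_Ico] at hk
  have h0 := bl_shift (z1 0) (z2 0) (hz 0) (-((k + 1 : ℕ) : ℂ))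
  have h1 := bl_shift (z1 1) (z2 1) (hz 1) (-((k + 1 : ℕ) : ℂ))
  have h2 := bl_shift (z1 2) (z2 2) (hz 2) (-((k + 1 : ℕ) : ℂ))
  have hk1 : -((k + 1 : ℕ) : ℂ) + 1 = -(k : ℂ) := by push_cast; ring
  rw [hk1] at h0 h1 h2
  have he := erase_shift p1 (L + 1) k hk.1 (by omega)
  have hn1 := erase_ne_zero (Ico p1 (L + 1)) k
  have hn2 := erase_ne_zero (Ico p1 (L + 1)) (k + 1)
  unfold res
  simp only [eval_mul, eval_comp, eval_add, eval_X, eval_one, eval_C, numB_eval]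
  rw [hk1]
  set D1 := ∏ j ∈ (Ico p1 (L + 1)).erase k, ((j : ℂ) - k) with hD1
  set D2 := ∏ j ∈ (Ico p1 (L + 1)).erase (k + 1), ((j : ℂ) - ((k + 1 : ℕ) : ℂ)) with hD2
  have hDD : D2⁻¹ * ((p1 : ℂ) - (k + 1)) = D1⁻¹ * (((L + 1 : ℕ) : ℂ) - (k + 1)) := by
    field_simp
    linear_combination he
  have f1 : D2⁻¹ * (S.eval (-(k : ℂ)) * ((-((k + 1 : ℕ) : ℂ) + (z2 0 : ℂ)) *
      (-((k + 1 : ℕ) : ℂ) + (z2 1 : ℂ)) * (-((k + 1 : ℕ) : ℂ) + (z2 2 : ℂ)) *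
      (-((k + 1 : ℕ) : ℂ) + (p1 : ℂ))) *
      (kap * (bl (z1 0) (z2 0) (-((k + 1 : ℕ) : ℂ)) * bl (z1 1) (z2 1) (-((k + 1 : ℕ) : ℂ)) *
        bl (z1 2) (z2 2) (-((k + 1 : ℕ) : ℂ))))) =
      (D2⁻¹ * ((p1 : ℂ) - (k + 1))) * (S.eval (-(k : ℂ)) * kap *
        ((bl (z1 0) (z2 0) (-((k + 1 : ℕ) : ℂ)) * (-((k + 1 : ℕ) : ℂ) + (z2 0 : ℂ))) *
        (bl (z1 1) (z2 1) (-((k + 1 : ℕ) : ℂ)) * (-((k + 1 : ℕ) : ℂ) + (z2 1 : ℂ))) *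
        (bl (z1 2) (z2 2) (-((k + 1 : ℕ) : ℂ)) * (-((k + 1 : ℕ) : ℂ) + (z2 2 : ℂ))))) := by
    push_cast
    ring
  rw [f1, ← h0, ← h1, ← h2, hDD]
  push_cast
  ring

/-- **Nonvanishing for the perturbed functional.** -/
theorem nonvan_blocks_q (kap : ℂ) (hkap : kap ≠ 0) (z1 z2 : Fin 3 → ℕ) (p1 p2 : ℕ)
    (hz : ∀ i, z1 i ≤ z2 i) (hp : p1 ≤ p2) (k : ℕ) (hk : ∀ i, z1 i ≤ k ∧ k < z2 i)
    (x0 : ℝ) (hx0 : -(p1 : ℝ) < x0) (m : ℤ) (hmk : m = -(k : ℤ)) (hx1 : x0 < (m : ℝ) - 1 / 2)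
    (hR : HG x0 (RB kap z1 z2 p1 p2)) (a1 a2 : ℝ) (ha : a1 ≠ 0 ∨ a2 ≠ 0)
    (c : ℕ → ℂ) (hc0 : c 0 = a1) (hc1 : c 1 = -(a2 : ℂ) / 2) (lam : ℂ) (M : ℕ)
    (hM : (p2 : ℤ) - p1 ≤ M + ∑ i, ((z2 i : ℤ) - z1 i)) :
    ∃ j, M < j + 3 ∧ j ≤ M ∧
      (gram (Lam c 1 m x0 (RB kap z1 z2 p1 p2) hR hx1 - lam • qF kap z1 z2 p1 p2)
        (fun i => X ^ i) j).det ≠ 0 := by
  set R := RB kap z1 z2 p1 p2 with hRdef
  set Λ := Lam c 1 m x0 R hR hx1 with hΛ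
  set a : Fin 4 → ℂ := ![(z2 0 : ℂ), (z2 1 : ℂ), (z2 2 : ℂ), (p1 : ℂ)] with ha'
  set b : Fin 4 → ℂ := ![(z1 0 : ℂ), (z1 1 : ℂ), (z1 2 : ℂ), (p2 : ℂ)] with hb'
  have hrec : ∀ t : ℂ, x0 < t.re → R (t + 1) * ∏ i, (t + b i) = R t * ∏ i, (t + a i) := by
    intro t ht
    have h0 := bl_shift (z1 0) (z2 0) (hz 0) t
    have h1 := bl_shift (z1 1) (z2 1) (hz 1) t
    have h2 := bl_shift (z1 2) (z2 2) (hz 2) t
    have h3 := bl_shift p1 p2 hp t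
    have n1 : bl p1 p2 t ≠ 0 := bl_ne_zero p1 p2 t (by linarith)
    have n2 : bl p1 p2 (t + 1) ≠ 0 := bl_ne_zero p1 p2 (t + 1) (by
      rw [Complex.add_re, Complex.one_re]; linarith)
    rw [Fin.prod_univ_four, Fin.prod_univ_four]
    simp only [ha', hb', hRdef, RB, Matrix.cons_val]
    have e1 : kap * (bl (z1 0) (z2 0) (t + 1) * bl (z1 1) (z2 1) (t + 1) *
        bl (z1 2) (z2 2) (t + 1)) / bl p1 p2 (t + 1) *
        ((t + (z1 0 : ℂ)) * (t + (z1 1 : ℂ)) * (t + (z1 2 : ℂ)) * (t + (p2 : ℂ))) =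
        kap * ((bl (z1 0) (z2 0) (t + 1) * (t + (z1 0 : ℂ))) *
          (bl (z1 1) (z2 1) (t + 1) * (t + (z1 1 : ℂ))) *
          (bl (z1 2) (z2 2) (t + 1) * (t + (z1 2 : ℂ)))) *
          ((t + (p2 : ℂ)) / bl p1 p2 (t + 1)) := by ring
    have e2 : (t + (p2 : ℂ)) / bl p1 p2 (t + 1) = (t + (p1 : ℂ)) / bl p1 p2 t := by
      rw [div_eq_div_iff n2 n1]
      linear_combination -h3
    rw [e1, h0, h1, h2, e2]
    ring
  have hq : ∃ q : ℂ → ℂ, HG x0 q ∧ ∀ t : ℂ, x0 < t.re → R t = (t - m) ^ (1 + 2) * q t := by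
    refine ⟨fun t => kap * ((∏ i ∈ (Ico (z1 0) (z2 0)).erase k, (t + (i : ℂ))) *
      (∏ i ∈ (Ico (z1 1) (z2 1)).erase k, (t + (i : ℂ))) *
      (∏ i ∈ (Ico (z1 2) (z2 2)).erase k, (t + (i : ℂ)))) * (1 / bl p1 p2 t), ?_, ?_⟩
    · exact ((((HG_prod_add x0 _).mul (HG_prod_add x0 _)).mul (HG_prod_add x0 _)).const_mul
        kap).mul (HG_bl_inv x0 p1 p2 hx0)
    · intro t ht
      have hm : t - (m : ℂ) = t + k := by rw [hmk]; push_cast; ring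
      simp only [hRdef, RB]
      rw [bl_factor (z1 0) (z2 0) k (hk 0).1 (hk 0).2, bl_factor (z1 1) (z2 1) k (hk 1).1 (hk 1).2,
        bl_factor (z1 2) (z2 2) k (hk 2).1 (hk 2).2, hm]
      ring
  obtain ⟨q, hq1, hq2⟩ := hq
  have hpe := Lam_pearson c 1 m x0 R hR hx1 q hq1 hq2 a b hrec
  have hA4 : (∏ i, (X + C (a i)) : ℂ[X]) =
      (X + C (z2 0 : ℂ)) * (X + C (z2 1 : ℂ)) * (X + C (z2 2 : ℂ)) * (X + C (p1 : ℂ)) := by
    rw [Fin.prod_univ_four]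
    rfl
  have hB4 : (∏ i, (X + C (b i - 1)) : ℂ[X]) =
      (X + C ((z1 0 : ℂ) - 1)) * (X + C ((z1 1 : ℂ) - 1)) * (X + C ((z1 2 : ℂ) - 1)) *
        (X + C ((p2 : ℂ) - 1)) := by
    rw [Fin.prod_univ_four]
    rfl
  have hpq : ∀ S : ℂ[X], qF kap z1 z2 p1 p2 (S.comp (X + 1) * ∏ i, (X + C (a i))) =
      qF kap z1 z2 p1 p2 (S * ∏ i, (X + C (b i - 1))) := by
    intro S
    rw [hA4, hB4]
    exact qF_pearson kap z1 z2 p1 p2 hz hp S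
  set Λ' := Λ - lam • qF kap z1 z2 p1 p2 with hΛ'
  have hΛ'a : ∀ P, Λ' P = Λ P - lam * qF kap z1 z2 p1 p2 P := by
    intro P
    rw [hΛ', LinearMap.sub_apply, LinearMap.smul_apply, smul_eq_mul]
  have hpe' : ∀ S : ℂ[X], Λ' (S.comp (X + 1) * ∏ i, (X + C (a i))) =
      Λ' (S * ∏ i, (X + C (b i - 1))) := by
    intro S
    rw [hΛ'a, hΛ'a, hpe S, hpq S]
  have hpos : ∀ Q : ℂ[X], Q.Monic → ∃ T : ℂ[X], Λ' (Q * T) ≠ 0 := by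
    intro Q hQ
    have hcast : ∀ y : ℝ, (((m : ℝ) - 1 / 2 : ℝ) : ℂ) + (y : ℂ) * Complex.I = ln m y := by
      intro y
      unfold ln
      push_cast
      ring
    have h1 : ∃ T : ℂ[X], Λ (Q * (blP p1 p2 * T)) ≠ 0 := by
      refine hpos_W1_dvd ((m : ℝ) - 1 / 2) a1 a2 ha (fun y => R (ln m y) * W1 a1 a2 y)
        (blP p1 p2)
        (C kap * (blP (z1 0) (z2 0) * blP (z1 1) (z2 1) * blP (z1 2) (z2 2))) ?_ ?_ Λ ?_ Q
        hQ.ne_zero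
      · exact mul_ne_zero (by rwa [Ne, C_eq_zero])
          (mul_ne_zero (mul_ne_zero (blP_monic _ _).ne_zero (blP_monic _ _).ne_zero)
            (blP_monic _ _).ne_zero)
      · intro y
        rw [hcast]
        have n1 : bl p1 p2 (ln m y) ≠ 0 := bl_ne_zero p1 p2 _ (by rw [ln_re]; linarith)
        simp only [eval_mul, eval_C, blP_eval, hRdef, RB]
        field_simp
      · intro P
        rw [hΛ, Lam_apply, Lf_one c ((HG_poly x0 P).mul hR) m hx1]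
        refine integral_congr_ae (Filter.Eventually.of_forall fun y => ?_)
        simp only
        rw [hcast, hc0, hc1]
        unfold W1 Th
        push_cast
        ring
    obtain ⟨T, hT⟩ := h1
    refine ⟨blP p1 p2 * T, ?_⟩
    have h2 : Q * (blP p1 p2 * T) = blP p1 p2 * (Q * T) := by ring
    rw [hΛ'a]
    rw [show qF kap z1 z2 p1 p2 (Q * (blP p1 p2 * T)) = 0 by rw [h2]; exact qF_den _ _ _ _ _ _,
      mul_zero, sub_zero]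
    exact hT
  have he : ∑ i, a i - ∑ i, (b i - 1) =
      (((∑ i, ((z2 i : ℤ) - z1 i)) - ((p2 : ℤ) - p1) + 4 : ℤ) : ℂ) := by
    rw [Fin.sum_univ_four, Fin.sum_univ_four, Fin.sum_univ_three]
    simp only [ha', hb', Matrix.cons_val]
    push_cast
    ring
  obtain ⟨j, h1, h2, h3⟩ := window_prod Λ' a (fun i => b i - 1) hpe' M
    ((∑ i, ((z2 i : ℤ) - z1 i)) - ((p2 : ℤ) - p1) + 4) he (by push_cast; linarith) hpos
  exact ⟨j, by omega, h2, h3⟩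

/-- **Nonvanishing for the perturbed functional, on any line of the triple zone.** -/
theorem nonvan_line_q (kap : ℂ) (hkap : kap ≠ 0) (z1 z2 : Fin 3 → ℕ) (p1 p2 : ℕ)
    (hz : ∀ i, z1 i ≤ z2 i) (hp : p1 ≤ p2) (k0 k1 : ℕ) (h01 : k0 < k1)
    (hk : ∀ k, k0 ≤ k → k < k1 → ∀ i, z1 i ≤ k ∧ k < z2 i)
    (x0 : ℝ) (hx0 : -(p1 : ℝ) < x0) (hx1 : x0 < 1 / 2 - (k1 : ℝ))
    (a1 a2 : ℝ) (ha : a1 ≠ 0 ∨ a2 ≠ 0)
    (c : ℕ → ℂ) (hc0 : c 0 = a1) (hc1 : c 1 = -(a2 : ℂ) / 2) (lam : ℂ) (M : ℕ)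
    (hM : (p2 : ℤ) - p1 ≤ M + ∑ i, ((z2 i : ℤ) - z1 i))
    (m : ℤ) (hm0 : 1 - (k1 : ℤ) ≤ m) (hm1 : m ≤ 1 - (k0 : ℤ)) :
    ∃ j, M < j + 3 ∧ j ≤ M ∧
      (Matrix.of fun i l : Fin j => Lf c 1 m
        (fun t => (X ^ (i : ℕ) * X ^ (l : ℕ) : ℂ[X]).eval t * RB kap z1 z2 p1 p2 t) -
        lam * qF kap z1 z2 p1 p2 (X ^ (i : ℕ) * X ^ (l : ℕ))).det ≠ 0 := by
  have hk1 : ((k0 + 1 : ℕ) : ℝ) ≤ k1 := by exact_mod_cast h01
  have hxk : x0 < ((-(k0 : ℤ) : ℤ) : ℝ) - 1 / 2 := by push_cast at hk1 ⊢; linarith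
  obtain ⟨j, h1, h2, h3⟩ := nonvan_blocks_q kap hkap z1 z2 p1 p2 hz hp k0 (hk k0 le_rfl h01) x0
    hx0 (-(k0 : ℤ)) rfl hxk (HG_RB kap z1 z2 p1 p2 x0 hx0) a1 a2 ha c hc0 hc1 lam M hM
  refine ⟨j, h1, h2, ?_⟩
  have e : (Matrix.of fun i l : Fin j => Lf c 1 m
      (fun t => (X ^ (i : ℕ) * X ^ (l : ℕ) : ℂ[X]).eval t * RB kap z1 z2 p1 p2 t) -
        lam * qF kap z1 z2 p1 p2 (X ^ (i : ℕ) * X ^ (l : ℕ))) =
      gram (Lam c 1 (-(k0 : ℤ)) x0 (RB kap z1 z2 p1 p2) (HG_RB kap z1 z2 p1 p2 x0 hx0) hxk -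
        lam • qF kap z1 z2 p1 p2) (fun i => X ^ i) j := by
    ext i l
    simp only [gram, Matrix.of_apply, LinearMap.sub_apply, LinearMap.smul_apply, smul_eq_mul,
      Lam_apply]
    obtain ⟨d, hd⟩ : ∃ d : ℕ, m = 1 - (k0 : ℤ) - d := ⟨(1 - (k0 : ℤ) - m).toNat, by omega⟩
    have h4 := Lf_line_eq kap z1 z2 p1 p2 k0 k1 hk x0 hx0 hx1 c
      (X ^ (i : ℕ) * X ^ (l : ℕ)) d (by omega)
    have h5 := Lf_line_eq kap z1 z2 p1 p2 k0 k1 hk x0 hx0 hx1 c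
      (X ^ (i : ℕ) * X ^ (l : ℕ)) 1 (by omega)
    have e1 : (1 : ℤ) - (k0 : ℤ) - ((1 : ℕ) : ℤ) = -(k0 : ℤ) := by push_cast; ring
    rw [e1] at h5
    rw [hd, h4, h5]
  rw [e]
  exact h3

end Pool.Agent.D23
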