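import Pool.Agent.D23.IPoly

/-!
# Integration by parts on the line Re t = m - 1/2

`Th y = tanh (pi y)`; the integrals of `g'` and `g''` against the kernel are the integrals of `g`
against `-2 pi i Th Ker` and `2 pi^2 (1 - 3 Th^2) Ker`.
-/

open Finset Filter Topology Complex MeasureTheory
open scoped BigOperators

namespace Pool.Agent.D23

open Pool.Agent.Z3 (PolyGrowth line_re line_im Iint H Ker zeta3)

/-- tanh (pi y) -/
noncomputable def Th (y : ℝ) : ℝ := Real.tanh (Real.pi * y)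

theorem abs_Th (y : ℝ) : |Th y| < 1 := Real.abs_tanh_lt_one _

theorem Th_eq (y : ℝ) : Th y = Real.sinh (Real.pi * y) / Real.cosh (Real.pi * y) :=
  Real.tanh_eq_sinh_div_cosh _

theorem Th_neg (y : ℝ) : Th (-y) = - Th y := by
  unfold Th
  rw [mul_neg, Real.tanh_neg]

theorem Th_hasDeriv (y : ℝ) : HasDerivAt Th (Real.pi * (1 - Th y ^ 2)) y := by
  have h1 : HasDerivAt (fun y : ℝ => Real.pi * y) (Real.pi * 1) y :=
    (hasDerivAt_id y).const_mul Real.pi
  have hc : Real.cosh (Real.pi * y) ≠ 0 := (Real.cosh_pos _).ne'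
  have h2 := h1.sinh.fun_div h1.cosh hc
  have h3 : (fun y => Real.sinh (Real.pi * y) / Real.cosh (Real.pi * y)) = Th := by
    funext y
    exact (Th_eq y).symm
  rw [h3] at h2
  refine h2.congr_deriv ?_
  rw [Th_eq]
  field_simp

theorem continuous_Th : Continuous Th :=
  continuous_iff_continuousAt.mpr fun y => (Th_hasDeriv y).continuousAt

theorem Ker_hasDeriv (y : ℝ) : HasDerivAt Ker (-(2 * Real.pi) * Th y * Ker y) y := by
  have h1 : HasDerivAt (fun y : ℝ => Real.pi * y) (Real.pi * 1) y :=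
    (hasDerivAt_id y).const_mul Real.pi
  have hc : Real.cosh (Real.pi * y) ≠ 0 := (Real.cosh_pos _).ne'
  have hc2 : 2 * Real.cosh (Real.pi * y) ^ 2 ≠ 0 := by positivity
  have h2 := (hasDerivAt_const y Real.pi).fun_div ((h1.cosh.fun_pow 2).const_mul 2) hc2
  have h3 : (fun y => Real.pi / (2 * Real.cosh (Real.pi * y) ^ 2)) = Ker := rfl
  rw [h3] at h2
  refine h2.congr_deriv ?_
  rw [Th_eq]
  unfold Ker
  field_simp
  ring

/-- the third kernel function -/
noncomputable def Ke2 (y : ℝ) : ℝ := Real.pi * (1 - 3 * Th y ^ 2) * Ker y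

theorem ThKer_hasDeriv (y : ℝ) : HasDerivAt (fun y => Th y * Ker y) (Ke2 y) y := by
  refine ((Th_hasDeriv y).fun_mul (Ker_hasDeriv y)).congr_deriv ?_
  unfold Ke2
  ring

/-- the line as a function of the real parameter -/
noncomputable def ln (m : ℤ) (y : ℝ) : ℂ := (m : ℂ) - 1 / 2 + (y : ℂ) * Complex.I

theorem ln_re (m : ℤ) (y : ℝ) : (ln m y).re = (m : ℝ) - 1 / 2 := line_re m y

theorem ln_im (m : ℤ) (y : ℝ) : (ln m y).im = y := line_im m y

theorem ln_hasDeriv (m : ℤ) (y : ℝ) : HasDerivAt (ln m) Complex.I y := by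
  have h := ((Complex.ofRealCLM.hasDerivAt (x := y)).mul_const Complex.I).const_add
    ((m : ℂ) - 1 / 2)
  refine (h.congr_deriv ?_).congr_of_eventuallyEq ?_
  · simp
  · exact Filter.Eventually.of_forall fun z => rfl

theorem continuous_ln (m : ℤ) : Continuous (ln m) :=
  continuous_iff_continuousAt.mpr fun y => (ln_hasDeriv m y).continuousAt

/-- integrability of g times a bounded continuous function times the kernel -/
theorem integrable_line_mul (m : ℤ) (g : ℂ → ℂ) (b : ℝ → ℝ) (B : ℝ) (hb : Continuous b)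
    (hB : ∀ y, |b y| ≤ B) (hc : ∀ t : ℂ, t.re = (m : ℝ) - 1 / 2 → ContinuousAt g t)
    (hgr : PolyGrowth m g) :
    Integrable (fun y : ℝ => g (ln m y) * ((b y * Ker y : ℝ) : ℂ)) := by
  obtain ⟨C, d, hC⟩ := hgr
  have h1 := Z3.integrable_Ker_mul (fun y : ℝ => g (ln m y) * (b y : ℂ)) ?_ (C * B) d ?_
  · refine h1.congr (Filter.Eventually.of_forall fun y => ?_)
    simp only
    push_cast
    ring
  · refine Continuous.mul ?_ (Complex.continuous_ofReal.comp hb)
    rw [continuous_iff_continuousAt]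
    intro y
    exact ContinuousAt.comp (f := ln m) (hc _ (ln_re m y)) (continuous_ln m).continuousAt
  · intro y
    have h2 := hC (ln m y) (by rw [ln_re]) (by rw [ln_re]; linarith)
    rw [ln_im] at h2
    have hB0 : 0 ≤ B := (abs_nonneg _).trans (hB 0)
    calc ‖g (ln m y) * (b y : ℂ)‖ = ‖g (ln m y)‖ * |b y| := by
          rw [norm_mul, Complex.norm_real, Real.norm_eq_abs]
      _ ≤ (C * (1 + |y|) ^ d) * B := mul_le_mul h2 (hB y) (abs_nonneg _) ((norm_nonneg _).trans h2)
      _ = C * B * (1 + |y|) ^ d := by ring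

theorem Iint_eq (m : ℤ) (g : ℂ → ℂ) : Iint m g = ∫ y : ℝ, g (ln m y) * (Ker y : ℂ) := rfl

/-- integration by parts against a kernel `k` with derivative `k'`, both bounded multiples of Ker -/
theorem parts_aux (m : ℤ) (g g' : ℂ → ℂ) (b b' : ℝ → ℝ) (B B' : ℝ)
    (hb : Continuous b) (hb' : Continuous b') (hB : ∀ y, |b y| ≤ B) (hB' : ∀ y, |b' y| ≤ B')
    (hk : ∀ y, HasDerivAt (fun y => b y * Ker y) (b' y * Ker y) y)
    (hd : ∀ t : ℂ, t.re = (m : ℝ) - 1 / 2 → HasDerivAt g (g' t) t)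
    (hc' : ∀ t : ℂ, t.re = (m : ℝ) - 1 / 2 → ContinuousAt g' t)
    (hgr : PolyGrowth m g) (hgr' : PolyGrowth m g') :
    ∫ y : ℝ, g' (ln m y) * ((b y * Ker y : ℝ) : ℂ) =
      Complex.I * ∫ y : ℝ, g (ln m y) * ((b' y * Ker y : ℝ) : ℂ) := by
  have hc : ∀ t : ℂ, t.re = (m : ℝ) - 1 / 2 → ContinuousAt g t := fun t ht => (hd t ht).continuousAt
  have hu : ∀ y : ℝ, HasDerivAt (fun y => g (ln m y)) (g' (ln m y) * Complex.I) y := fun y =>
    HasDerivAt.comp y (hd _ (ln_re m y)) (ln_hasDeriv m y)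
  have hv : ∀ y : ℝ, HasDerivAt (fun y => ((b y * Ker y : ℝ) : ℂ)) (((b' y * Ker y : ℝ)) : ℂ) y :=
    fun y => (hk y).ofReal_comp
  have h := integral_mul_deriv_eq_deriv_mul_of_integrable
    (u := fun y => g (ln m y)) (u' := fun y => g' (ln m y) * Complex.I)
    (v := fun y => ((b y * Ker y : ℝ) : ℂ)) (v' := fun y => ((b' y * Ker y : ℝ) : ℂ))
    (fun y _ => hu y) (fun y _ => hv y)
    (integrable_line_mul m g b' B' hb' hB' hc hgr)
    (by
      refine ((integrable_line_mul m g' b B hb hB hc' hgr').mul_const Complex.I).congr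
        (Filter.Eventually.of_forall fun y => ?_)
      simp only [Pi.mul_apply]
      ring)
    (integrable_line_mul m g b B hb hB hc hgr)
  have h2 : (fun y : ℝ => g' (ln m y) * Complex.I * ((b y * Ker y : ℝ) : ℂ)) =
      fun y => Complex.I * (g' (ln m y) * ((b y * Ker y : ℝ) : ℂ)) := by
    funext y
    ring
  simp only [h2] at h
  rw [integral_const_mul] at h
  rw [h]
  have h3 := Complex.I_mul_I
  linear_combination (∫ y : ℝ, g' (ln m y) * ((b y * Ker y : ℝ) : ℂ)) * h3

theorem Th_sq_lt (y : ℝ) : Th y ^ 2 < 1 := by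
  have := abs_Th y
  nlinarith [abs_nonneg (Th y), sq_abs (Th y)]

/-- first integration by parts -/
theorem Iint_deriv (m : ℤ) (g g' : ℂ → ℂ)
    (hd : ∀ t : ℂ, t.re = (m : ℝ) - 1 / 2 → HasDerivAt g (g' t) t)
    (hc' : ∀ t : ℂ, t.re = (m : ℝ) - 1 / 2 → ContinuousAt g' t)
    (hgr : PolyGrowth m g) (hgr' : PolyGrowth m g') :
    Iint m g' = ∫ y : ℝ, g (ln m y) * (-(2 * Real.pi) * Complex.I * (Th y : ℂ) * (Ker y : ℂ)) := by
  have h := parts_aux m g g' (fun _ => 1) (fun y => -(2 * Real.pi) * Th y) 1 (2 * Real.pi)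
    continuous_const (continuous_const.mul continuous_Th) (fun _ => by simp)
    (fun y => by
      rw [abs_mul, abs_neg, abs_of_pos Real.two_pi_pos]
      have := abs_Th y
      have := Real.two_pi_pos
      nlinarith)
    (fun y => by simpa using Ker_hasDeriv y) hd hc' hgr hgr'
  simp only [one_mul] at h
  rw [Iint_eq, h, ← integral_const_mul]
  congr 1
  funext y
  push_cast
  ring

/-- second integration by parts -/
theorem Iint_deriv2 (m : ℤ) (g g' g'' : ℂ → ℂ)
    (hd : ∀ t : ℂ, t.re = (m : ℝ) - 1 / 2 → HasDerivAt g (g' t) t)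
    (hd' : ∀ t : ℂ, t.re = (m : ℝ) - 1 / 2 → HasDerivAt g' (g'' t) t)
    (hc' : ∀ t : ℂ, t.re = (m : ℝ) - 1 / 2 → ContinuousAt g'' t)
    (hgr : PolyGrowth m g) (hgr' : PolyGrowth m g') (hgr'' : PolyGrowth m g'') :
    Iint m g'' = ∫ y : ℝ, g (ln m y) * (2 * Real.pi ^ 2 * (1 - 3 * (Th y : ℂ) ^ 2) * (Ker y : ℂ)) := by
  have h1 := Iint_deriv m g' g'' hd' hc' hgr' hgr''
  have h := parts_aux m g g' Th (fun y => Real.pi * (1 - 3 * Th y ^ 2)) 1 (Real.pi * 3)
    continuous_Th (by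
      have := continuous_Th
      fun_prop) (fun y => (abs_Th y).le)
    (fun y => by
      rw [abs_mul, abs_of_pos Real.pi_pos]
      have h2 := Th_sq_lt y
      have h3 : |1 - 3 * Th y ^ 2| ≤ 3 := by
        rw [abs_le]
        constructor <;> nlinarith [sq_nonneg (Th y)]
      exact mul_le_mul_of_nonneg_left h3 Real.pi_pos.le)
    (fun y => ThKer_hasDeriv y) hd (fun t ht => (hd' t ht).continuousAt) hgr hgr'
  have h2 : (fun y : ℝ => g' (ln m y) * (-(2 * Real.pi) * Complex.I * (Th y : ℂ) * (Ker y : ℂ))) =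
      fun y => (-(2 * Real.pi) * Complex.I) * (g' (ln m y) * ((Th y * Ker y : ℝ) : ℂ)) := by
    funext y
    push_cast
    ring
  rw [h1, h2, integral_const_mul, h, ← integral_const_mul, ← integral_const_mul]
  congr 1
  funext y
  push_cast
  have h3 := Complex.I_mul_I
  linear_combination (-(2 * Real.pi) * g (ln m y) * (Real.pi * (1 - 3 * (Th y : ℂ) ^ 2) * (Ker y : ℂ))) * h3

/-- the functional a1 V(g) - a2/2 V(g') as one integral -/
theorem Lf_eq (a1 a2 : ℂ) (m : ℤ) (g g' : ℂ → ℂ)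
    (hd : ∀ t : ℂ, t.re = (m : ℝ) - 1 / 2 → HasDerivAt g (g' t) t)
    (hc' : ∀ t : ℂ, t.re = (m : ℝ) - 1 / 2 → ContinuousAt g' t)
    (hgr : PolyGrowth m g) (hgr' : PolyGrowth m g') :
    a1 * Iint m g - a2 / 2 * Iint m g' =
      ∫ y : ℝ, g (ln m y) * ((a1 + a2 * Real.pi * (Th y : ℂ) * Complex.I) * (Ker y : ℂ)) := by
  have hc : ∀ t : ℂ, t.re = (m : ℝ) - 1 / 2 → ContinuousAt g t := fun t ht => (hd t ht).continuousAt
  rw [Iint_deriv m g g' hd hc' hgr hgr', Iint_eq, ← integral_const_mul, ← integral_const_mul,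
    ← integral_sub]
  · congr 1
    funext y
    ring
  · refine (integrable_line m g hc hgr).const_mul a1
  · refine Integrable.const_mul ?_ _
    have h1 := (integrable_line_mul m g Th 1 continuous_Th (fun y => (abs_Th y).le) hc hgr).const_mul
      (-(2 * Real.pi) * Complex.I)
    refine h1.congr (Filter.Eventually.of_forall fun y => ?_)
    simp only
    push_cast
    ring

end Pool.Agent.D23
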