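import Mathlib
import Pool.Agent.D23.Lag

/-!
# Values of the Meixner-Pollaczek polynomials at real points left of the line

At the point `c - v/2`, `v` a natural number with `m + 1 ≤ v`, the monic polynomial `Pm m c j` is
`(-1)^j j!/4^j` times a sum of positive terms.
-/

open Polynomial Finset

namespace Pool.Agent.D23

/-- the positive sum -/
noncomputable def pv (N w j : ℕ) : ℝ :=
  ∑ k ∈ range (j + 1), ((N + j).choose (j - k) : ℝ) * (w.choose k : ℝ) * 2 ^ k

lemma pv_nonneg (N w j : ℕ) : 0 ≤ pv N w j := sum_nonneg fun k _ => by positivity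

lemma prod_sub_eq (w k : ℕ) : ∏ l ∈ range k, ((w : ℝ) - l) = (k.factorial : ℝ) * (w.choose k : ℝ) := by
  have h : ∏ l ∈ range k, ((w : ℝ) - l) = (w.descFactorial k : ℝ) := by
    induction k with
    | zero => simp
    | succ k ih =>
      rw [prod_range_succ, ih, Nat.descFactorial_succ]
      rcases Nat.lt_or_ge w k with h | h
      · rw [Nat.descFactorial_of_lt h]
        simp
      · push_cast [h]
        ring
  rw [h, Nat.descFactorial_eq_factorial_mul_choose]
  push_cast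
  ring

lemma Phi_val (m : ℕ) (c : ℝ) (v k : ℕ) (hv : m + 1 ≤ v) :
    (Phi m c k).eval (((c - v / 2 : ℝ)) : ℂ) =
      (((-1 : ℝ) ^ k * ((k.factorial : ℝ) * ((v - m - 1).choose k : ℝ)) : ℝ) : ℂ) := by
  unfold Phi
  rw [eval_prod]
  have h1 : ∀ l ∈ range k, (C 2 * X + C (((m + 1 + l : ℕ) : ℂ) - 2 * (c : ℂ)) : ℂ[X]).eval
      (((c - v / 2 : ℝ)) : ℂ) = (((-1 : ℝ) * (((v - m - 1 : ℕ) : ℝ) - l) : ℝ) : ℂ) := by
    intro l _
    have h2 : ((v - m - 1 : ℕ) : ℝ) = v - m - 1 := by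
      rw [Nat.cast_sub (by omega), Nat.cast_sub (by omega)]
      norm_num
    rw [h2]
    simp only [eval_add, eval_mul, eval_C, eval_X]
    push_cast
    ring
  rw [prod_congr rfl h1, ← Complex.ofReal_prod, prod_mul_distrib, prod_const, card_range, prod_sub_eq]

lemma lc_mul (m j k w : ℕ) (hk : k ≤ j) :
    lc m j k * ((-1 : ℝ) ^ k * ((k.factorial : ℝ) * (w.choose k : ℝ))) =
      (-1 : ℝ) ^ j * ((j.factorial : ℝ) / 4 ^ j) *
        (((2 * m + 1 + j).choose (j - k) : ℝ) * (w.choose k : ℝ) * 2 ^ k) := by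
  unfold lc
  have h1 : ((-1 : ℝ)) ^ (j - k) * (-1) ^ k = (-1) ^ j := by
    rw [← pow_add]
    congr 1
    omega
  have h2 : ((j.choose k : ℝ)) * (k.factorial * (j - k).factorial) = j.factorial := by
    have := Nat.choose_mul_factorial_mul_factorial hk
    rw [← this]
    push_cast
    ring
  have h3 : (((2 * m + 1 + j).choose (j - k) : ℝ)) * ((j - k).factorial * (2 * m + 1 + k).factorial) =
      (2 * m + 1 + j).factorial := by
    have h4 : j - k ≤ 2 * m + 1 + j := by omega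
    have h5 := Nat.choose_mul_factorial_mul_factorial h4
    have h6 : 2 * m + 1 + j - (j - k) = 2 * m + 1 + k := by omega
    rw [h6] at h5
    rw [← h5]
    push_cast
    ring
  have f1 : ((2 * m + 1 + k).factorial : ℝ) ≠ 0 := by exact_mod_cast Nat.factorial_ne_zero _
  have f2 : ((j - k).factorial : ℝ) ≠ 0 := by exact_mod_cast Nat.factorial_ne_zero _
  rw [← h3, ← h2, ← h1]
  field_simp

/-- the value -/
theorem Pm_val (m : ℕ) (c : ℝ) (j v : ℕ) (hv : m + 1 ≤ v) :
    (Pm m c j).eval (((c - v / 2 : ℝ)) : ℂ) =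
      (((-1 : ℝ) ^ j * ((j.factorial : ℝ) / 4 ^ j) * pv (2 * m + 1) (v - m - 1) j : ℝ) : ℂ) := by
  unfold Pm pv
  rw [eval_finsetSum, mul_sum, Complex.ofReal_sum]
  refine sum_congr rfl fun k hk => ?_
  rw [eval_mul, eval_C, Phi_val m c v k hv, ← Complex.ofReal_mul, lc_mul m j k _ (by
    have := mem_range.mp hk
    omega)]

theorem Pm_val_norm (m : ℕ) (c : ℝ) (j v : ℕ) (hv : m + 1 ≤ v) :
    ‖(Pm m c j).eval (((c - v / 2 : ℝ)) : ℂ)‖ =
      ((j.factorial : ℝ) / 4 ^ j) * pv (2 * m + 1) (v - m - 1) j := by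
  have h0 := pv_nonneg (2 * m + 1) (v - m - 1) j
  rw [Pm_val m c j v hv, Complex.norm_real, Real.norm_eq_abs, abs_mul, abs_mul, abs_pow, abs_neg,
    abs_one, one_pow, one_mul, abs_of_nonneg h0, abs_of_nonneg (by positivity)]

/-- tangent bound of the sum -/
theorem pv_le (N w j : ℕ) (s : ℝ) (hs : 0 < s) :
    pv N w j * s ^ j ≤ (1 + s) ^ (N + j) * (1 + 2 * s) ^ w := by
  have h1 : (1 + s) ^ (N + j) = ∑ i ∈ range (N + j + 1), ((N + j).choose i : ℝ) * s ^ i := by
    rw [add_comm 1 s, add_pow]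
    refine sum_congr rfl fun i _ => ?_
    rw [one_pow]
    ring
  have h2 : (1 + 2 * s) ^ w = ∑ i ∈ range (w + 1), (w.choose i : ℝ) * (2 * s) ^ i := by
    rw [add_comm 1 (2 * s), add_pow]
    refine sum_congr rfl fun i _ => ?_
    rw [one_pow]
    ring
  have h3 : pv N w j * s ^ j = ∑ k ∈ range (j + 1),
      (((N + j).choose (j - k) : ℝ) * s ^ (j - k)) * ((w.choose k : ℝ) * (2 * s) ^ k) := by
    unfold pv
    rw [sum_mul]
    refine sum_congr rfl fun k hk => ?_
    have hk' : k ≤ j := by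
      have := mem_range.mp hk
      omega
    have h4 : s ^ j = s ^ (j - k) * s ^ k := by
      rw [← pow_add]
      congr 1
      omega
    rw [h4, mul_pow]
    ring
  have h4 : ∀ k ∈ range (j + 1), ((N + j).choose (j - k) : ℝ) * s ^ (j - k) ≤ (1 + s) ^ (N + j) := by
    intro k _
    rw [h1]
    exact single_le_sum (f := fun i => ((N + j).choose i : ℝ) * s ^ i) (fun i _ => by positivity)
      (mem_range.mpr (by omega))
  have h5 : ∑ k ∈ range (j + 1), (w.choose k : ℝ) * (2 * s) ^ k ≤ (1 + 2 * s) ^ w := by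
    rw [h2]
    have h6 : ∑ i ∈ range (w + 1), (w.choose i : ℝ) * (2 * s) ^ i =
        ∑ i ∈ range (w + 1 + j), (w.choose i : ℝ) * (2 * s) ^ i := by
      refine sum_subset (range_mono (by omega)) fun i _ hi => ?_
      rw [mem_range, not_lt] at hi
      rw [Nat.choose_eq_zero_of_lt (by omega)]
      simp
    rw [h6]
    exact sum_le_sum_of_subset_of_nonneg (range_mono (by omega)) fun i _ _ => by positivity
  rw [h3]
  calc ∑ k ∈ range (j + 1),
      (((N + j).choose (j - k) : ℝ) * s ^ (j - k)) * ((w.choose k : ℝ) * (2 * s) ^ k)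
      ≤ ∑ k ∈ range (j + 1), (1 + s) ^ (N + j) * ((w.choose k : ℝ) * (2 * s) ^ k) :=
        sum_le_sum fun k hk => mul_le_mul_of_nonneg_right (h4 k hk) (by positivity)
    _ = (1 + s) ^ (N + j) * ∑ k ∈ range (j + 1), (w.choose k : ℝ) * (2 * s) ^ k := by rw [mul_sum]
    _ ≤ _ := mul_le_mul_of_nonneg_left h5 (by positivity)

/-- value squared divided by the norm -/
theorem Pm_val_sq (m : ℕ) (c : ℝ) (j v : ℕ) (hv : m + 1 ≤ v) (s : ℝ) (hs : 0 < s) :
    ‖(Pm m c j).eval (((c - v / 2 : ℝ)) : ℂ)‖ ^ 2 ≤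
      4 ^ (m + 1) / (Real.pi * (2 * m + 1).factorial) *
        ((1 + s) ^ (2 * m + 1) * (1 + 2 * s) ^ (v - m - 1)) ^ 2 *
        (((1 + s) / s) ^ (2 * j) / ((2 * m + 1 + j).choose j : ℝ)) * hn m j := by
  rw [Pm_val_norm m c j v hv]
  have h1 := pv_le (2 * m + 1) (v - m - 1) j s hs
  have h0 := pv_nonneg (2 * m + 1) (v - m - 1) j
  have hsj : 0 < s ^ j := by positivity
  have h2 : pv (2 * m + 1) (v - m - 1) j ≤
      (1 + s) ^ (2 * m + 1) * (1 + 2 * s) ^ (v - m - 1) * ((1 + s) / s) ^ j := by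
    rw [div_pow, ← mul_div_assoc, le_div_iff₀ hsj]
    refine h1.trans (le_of_eq ?_)
    rw [pow_add]
    ring
  have h3 : (((2 * m + 1 + j).choose j : ℝ)) * (j.factorial * (2 * m + 1).factorial) =
      (2 * m + 1 + j).factorial := by
    have h4 := Nat.choose_mul_factorial_mul_factorial (Nat.le_add_left j (2 * m + 1))
    rw [Nat.add_sub_cancel] at h4
    rw [← h4]
    push_cast
    ring
  have f1 : (0 : ℝ) < (j.factorial : ℝ) := by exact_mod_cast Nat.factorial_pos _
  have f2 : (0 : ℝ) < ((2 * m + 1).factorial : ℝ) := by exact_mod_cast Nat.factorial_pos _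
  have f3 : (0 : ℝ) < ((2 * m + 1 + j).choose j : ℝ) := by
    exact_mod_cast Nat.choose_pos (Nat.le_add_left j (2 * m + 1))
  set V : ℝ := (1 + s) ^ (2 * m + 1) * (1 + 2 * s) ^ (v - m - 1) with hV
  have hV0 : 0 < V := by positivity
  calc ((j.factorial : ℝ) / 4 ^ j * pv (2 * m + 1) (v - m - 1) j) ^ 2
      ≤ ((j.factorial : ℝ) / 4 ^ j * (V * ((1 + s) / s) ^ j)) ^ 2 := by gcongr
    _ = 4 ^ (m + 1) / (Real.pi * (2 * m + 1).factorial) * V ^ 2 *
        (((1 + s) / s) ^ (2 * j) / ((2 * m + 1 + j).choose j : ℝ)) * hn m j := by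
      unfold hn
      rw [← h3]
      have e1 : (16 : ℝ) ^ j = 4 ^ j * 4 ^ j := by rw [← mul_pow]; norm_num
      have e2 : ((1 + s) / s) ^ (2 * j) = ((1 + s) / s) ^ j * ((1 + s) / s) ^ j := by
        rw [two_mul, pow_add]
      rw [e1, e2]
      have hpi := Real.pi_pos
      field_simp

lemma choose_step (N i : ℕ) :
    ((N + (i + 1)).choose (i + 1) : ℝ) * ((i : ℝ) + 1) = ((N + i).choose i : ℝ) * ((N : ℝ) + i + 1) := by
  have h := Nat.add_one_mul_choose_eq (N + i) i
  have h2 : (((N + i + 1 : ℕ) : ℝ)) * ((N + i).choose i : ℝ) =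
      ((N + i + 1).choose (i + 1) : ℝ) * ((i + 1 : ℕ) : ℝ) := by exact_mod_cast h
  push_cast at h2
  rw [← add_assoc N i 1]
  linarith

lemma pow_le_choose (N : ℕ) (r : ℝ) (hr : 0 < r) (j : ℕ) (h : r * ((j : ℝ) + 1) ≤ (N : ℝ) + j + 1)
    (i : ℕ) (hi : i ≤ j) : r ^ i ≤ ((N + i).choose i : ℝ) := by
  induction i with
  | zero => simp
  | succ i ih =>
    have h1 := ih (by omega)
    have h2 := choose_step N i
    have hi0 : (0 : ℝ) < (i : ℝ) + 1 := by positivity
    have hN0 : (0 : ℝ) ≤ N := Nat.cast_nonneg N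
    have hij : (i : ℝ) ≤ j := by exact_mod_cast (by omega : i ≤ j)
    have h3 : r * ((i : ℝ) + 1) ≤ (N : ℝ) + i + 1 := by
      rcases le_total r 1 with h4 | h4
      · nlinarith
      · nlinarith [mul_le_mul_of_nonneg_left (by linarith : (i : ℝ) + 1 ≤ j + 1) (by linarith : 0 ≤ r - 1)]
    have h5 : r ^ (i + 1) * ((i : ℝ) + 1) ≤ ((N + (i + 1)).choose (i + 1) : ℝ) * ((i : ℝ) + 1) := by
      rw [h2]
      calc r ^ (i + 1) * ((i : ℝ) + 1) = r ^ i * (r * ((i : ℝ) + 1)) := by ring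
        _ ≤ ((N + i).choose i : ℝ) * ((N : ℝ) + i + 1) := by
          apply mul_le_mul h1 h3 (by positivity) (by positivity)
    exact le_of_mul_le_mul_right h5 hi0

lemma choose_le_down (N M : ℕ) (r : ℝ) (hr : 0 < r) (h : ((N + M).choose M : ℝ) ≤ r ^ M) (d : ℕ) :
    ∀ j, j + d = M → ((N + M).choose M : ℝ) ≤ r ^ d * ((N + j).choose j : ℝ) := by
  induction d with
  | zero =>
    intro j hj
    have : j = M := by omega
    subst this
    simp
  | succ d ih =>
    intro j hj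
    rcases lt_or_ge (r * ((j : ℝ) + 1)) ((N : ℝ) + j + 1) with h1 | h1
    · have h2 := pow_le_choose N r hr j h1.le j le_rfl
      calc ((N + M).choose M : ℝ) ≤ r ^ M := h
        _ = r ^ (d + 1) * r ^ j := by
          rw [← pow_add]
          congr 1
          omega
        _ ≤ _ := mul_le_mul_of_nonneg_left h2 (by positivity)
    · have h2 := ih (j + 1) (by omega)
      have h3 := choose_step N j
      have hj0 : (0 : ℝ) < (j : ℝ) + 1 := by positivity
      have h4 : ((N + (j + 1)).choose (j + 1) : ℝ) ≤ r * ((N + j).choose j : ℝ) := by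
        have h5 : ((N + (j + 1)).choose (j + 1) : ℝ) * ((j : ℝ) + 1) ≤
            (r * ((N + j).choose j : ℝ)) * ((j : ℝ) + 1) := by
          rw [h3]
          calc ((N + j).choose j : ℝ) * ((N : ℝ) + j + 1)
              ≤ ((N + j).choose j : ℝ) * (r * ((j : ℝ) + 1)) := by gcongr
            _ = _ := by ring
        exact le_of_mul_le_mul_right h5 hj0
      calc ((N + M).choose M : ℝ) ≤ r ^ d * ((N + (j + 1)).choose (j + 1) : ℝ) := h2
        _ ≤ r ^ d * (r * ((N + j).choose j : ℝ)) := mul_le_mul_of_nonneg_left h4 (by positivity)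
        _ = _ := by ring

/-- the factor depending on `j` is largest at the end -/
lemma ratio_le (N M : ℕ) (r : ℝ) (hr : 0 < r) (h : ((N + M).choose M : ℝ) ≤ r ^ M) (j : ℕ) (hj : j ≤ M) :
    r ^ j / ((N + j).choose j : ℝ) ≤ r ^ M / ((N + M).choose M : ℝ) := by
  have f1 : (0 : ℝ) < ((N + j).choose j : ℝ) := by
    exact_mod_cast Nat.choose_pos (Nat.le_add_left j N)
  have f2 : (0 : ℝ) < ((N + M).choose M : ℝ) := by
    exact_mod_cast Nat.choose_pos (Nat.le_add_left M N)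
  rw [div_le_div_iff₀ f1 f2]
  have h1 := choose_le_down N M r hr h (M - j) j (by omega)
  calc r ^ j * ((N + M).choose M : ℝ) ≤ r ^ j * (r ^ (M - j) * ((N + j).choose j : ℝ)) :=
        mul_le_mul_of_nonneg_left h1 (by positivity)
    _ = r ^ M * ((N + j).choose j : ℝ) := by
        rw [← mul_assoc, ← pow_add]
        congr 2
        omega

/-- uniform bound of the values for `j ≤ M` -/
theorem Pm_val_unif (m M : ℕ) (c : ℝ) (s : ℝ) (hs : 0 < s)
    (h : ((2 * m + 1 + M).choose M : ℝ) ≤ (((1 + s) / s) ^ 2) ^ M) (j : ℕ) (hj : j ≤ M) (v : ℕ)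
    (hv : m + 1 ≤ v) :
    ‖(Pm m c j).eval (((c - v / 2 : ℝ)) : ℂ)‖ ^ 2 ≤
      (4 ^ (m + 1) / (Real.pi * (2 * m + 1).factorial) * (1 + s) ^ (2 * (2 * m + 1)) *
        (((1 + s) / s) ^ (2 * M) / ((2 * m + 1 + M).choose M : ℝ))) *
        (1 + 2 * s) ^ (2 * (v - m - 1)) * hn m j := by
  have h1 := Pm_val_sq m c j v hv s hs
  have h2 := ratio_le (2 * m + 1) M (((1 + s) / s) ^ 2) (by positivity) h j hj
  rw [← pow_mul, ← pow_mul] at h2
  have hh := hn_pos m j
  have f2 : (0 : ℝ) < ((2 * m + 1).factorial : ℝ) := by exact_mod_cast Nat.factorial_pos _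
  refine h1.trans ?_
  have hpi := Real.pi_pos
  calc 4 ^ (m + 1) / (Real.pi * (2 * m + 1).factorial) *
        ((1 + s) ^ (2 * m + 1) * (1 + 2 * s) ^ (v - m - 1)) ^ 2 *
        (((1 + s) / s) ^ (2 * j) / ((2 * m + 1 + j).choose j : ℝ)) * hn m j
      ≤ 4 ^ (m + 1) / (Real.pi * (2 * m + 1).factorial) *
        ((1 + s) ^ (2 * m + 1) * (1 + 2 * s) ^ (v - m - 1)) ^ 2 *
        (((1 + s) / s) ^ (2 * M) / ((2 * m + 1 + M).choose M : ℝ)) * hn m j := by
        gcongr
    _ = _ := by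
        rw [mul_pow, ← pow_mul, ← pow_mul, mul_comm (2 * m + 1) 2, mul_comm (v - m - 1) 2]
        ring

end Pool.Agent.D23
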