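import Pool.Agent.D23.Parts
import Mathlib.LinearAlgebra.Lagrange

/-!
# The functional on rational functions with simple poles

`rfd Q K α j` is the j-th derivative of `Q + sum_{k in K} α k / (t + k)`.
-/

open Finset Filter Topology Complex MeasureTheory Polynomial
open scoped BigOperators

namespace Pool.Agent.D23

open Pool.Agent.Z3 (PolyGrowth line_re line_im Iint H Ker zeta3)

/-- zeta values -/
noncomputable def zt (s : ℕ) : ℝ := ∑' i : ℕ, 1 / ((i : ℝ) + 1) ^ s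

/-- the derivatives of a rational function with simple poles -/
noncomputable def rfd (Q : ℂ[X]) (K : Finset ℕ) (α : ℕ → ℂ) (j : ℕ) (t : ℂ) : ℂ :=
  (derivative^[j] Q).eval t + ∑ k ∈ K, α k * ((-1) ^ j * (j.factorial : ℂ)) / (t + (k : ℂ)) ^ (j + 1)

variable (Q : ℂ[X]) (K : Finset ℕ) (α : ℕ → ℂ) (a : ℕ)

theorem ne_zero_of_re {a k : ℕ} (hk : a ≤ k) {t : ℂ} (ht : -(a : ℝ) < t.re) : t + (k : ℂ) ≠ 0 := by
  intro h0
  have h1 := congrArg Complex.re h0
  have h2 : (a : ℝ) ≤ k := by exact_mod_cast hk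
  simp at h1
  linarith

theorem rfd_hasDeriv (ha : ∀ k ∈ K, a ≤ k) (j : ℕ) (t : ℂ) (ht : -(a : ℝ) < t.re) :
    HasDerivAt (rfd Q K α j) (rfd Q K α (j + 1) t) t := by
  have h1 : HasDerivAt (fun t => (derivative^[j] Q).eval t) ((derivative^[j + 1] Q).eval t) t := by
    rw [Function.iterate_succ', Function.comp_apply]
    exact (derivative^[j] Q).hasDerivAt t
  have h2 : ∀ k ∈ K, HasDerivAt
      (fun t : ℂ => α k * ((-1) ^ j * (j.factorial : ℂ)) / (t + (k : ℂ)) ^ (j + 1))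
      (α k * ((-1) ^ (j + 1) * ((j + 1).factorial : ℂ)) / (t + (k : ℂ)) ^ (j + 1 + 1)) t := by
    intro k hk
    have hne := ne_zero_of_re (ha k hk) ht
    have h3 : HasDerivAt (fun t : ℂ => (t + (k : ℂ)) ^ (j + 1))
        (((j + 1 : ℕ) : ℂ) * (t + k) ^ j * 1) t := by
      simpa using ((hasDerivAt_id t).add_const (k : ℂ)).fun_pow (j + 1)
    refine ((hasDerivAt_const t (α k * ((-1) ^ j * (j.factorial : ℂ)))).fun_div h3
      (pow_ne_zero _ hne)).congr_deriv ?_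
    rw [Nat.factorial_succ]
    field_simp
    push_cast
    ring
  exact h1.fun_add (HasDerivAt.fun_sum h2)

theorem rfd_growth (ha : ∀ k ∈ K, a ≤ k) (j : ℕ) (m : ℤ) (hm : 1 ≤ m + a) :
    PolyGrowth m (rfd Q K α j) := by
  have hm' : (1 : ℝ) ≤ (m : ℝ) + a := by exact_mod_cast hm
  refine growth_add (growth_poly m _) (growth_sum m K _ (fun k hk => ?_))
  refine ⟨‖α k * ((-1) ^ j * (j.factorial : ℂ))‖ * 2 ^ (j + 1), 0, fun t h1 _ => ?_⟩
  have h2 : (a : ℝ) ≤ k := by exact_mod_cast ha k hk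
  have h3 : (1 / 2 : ℝ) ≤ ‖t + (k : ℂ)‖ := by
    have := Complex.re_le_norm (t + (k : ℂ))
    simp only [add_re, natCast_re] at this
    linarith
  rw [pow_zero, mul_one, norm_div, norm_pow,
    div_le_iff₀ (pow_pos (lt_of_lt_of_le (by norm_num) h3) _), mul_assoc]
  calc ‖α k * ((-1) ^ j * (j.factorial : ℂ))‖
      = ‖α k * ((-1) ^ j * (j.factorial : ℂ))‖ * (2 ^ (j + 1) * (1 / 2) ^ (j + 1)) := by
        rw [← mul_pow]; norm_num
    _ ≤ ‖α k * ((-1) ^ j * (j.factorial : ℂ))‖ * (2 ^ (j + 1) * ‖t + (k : ℂ)‖ ^ (j + 1)) := by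
        gcongr

theorem line_gt (m : ℤ) (hm : 1 ≤ m + a) (t : ℂ) (ht : t.re = (m : ℝ) - 1 / 2) :
    -(a : ℝ) < t.re := by
  have hm' : (1 : ℝ) ≤ (m : ℝ) + a := by exact_mod_cast hm
  linarith

theorem rfd_cont (ha : ∀ k ∈ K, a ≤ k) (j : ℕ) (t : ℂ) (ht : -(a : ℝ) < t.re) :
    ContinuousAt (rfd Q K α j) t := (rfd_hasDeriv Q K α a ha j t ht).continuousAt

/-- the integral of the pole of order j+1 -/
theorem Iint_pole_pow (m : ℤ) (k j : ℕ) (c : ℂ) (h : 1 ≤ m + k) :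
    Iint m (fun t => c / (t + (k : ℂ)) ^ (j + 1)) =
      c * (((j + 1 : ℕ) : ℂ) * ((zt (j + 2) : ℂ) - ((H (j + 2) (m + k - 1).toNat : ℚ) : ℂ))) := by
  have h1 := Z3.pole_main m k (j + 1) (by omega) h
  have h2 : Iint m (fun t => c / (t + (k : ℂ)) ^ (j + 1)) =
      c * Iint m (fun t => 1 / (t + ((k : ℤ) : ℂ)) ^ (j + 1)) := by
    unfold Iint
    rw [← integral_const_mul]
    congr 1
    funext y
    push_cast
    ring
  rw [h2, h1]
  rfl

/-- the integral of the j-th derivative -/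
theorem Iint_rfd (ha : ∀ k ∈ K, a ≤ k) (j : ℕ) (m : ℤ) (hm : 1 ≤ m + a) :
    Iint m (rfd Q K α j) = IP m (derivative^[j] Q) +
      ∑ k ∈ K, α k * ((-1) ^ j * ((j + 1).factorial : ℂ)) *
        ((zt (j + 2) : ℂ) - ((H (j + 2) (m + k - 1).toNat : ℚ) : ℂ)) := by
  have hk : ∀ k ∈ K, 1 ≤ m + k := fun k hk => by
    have := ha k hk
    omega
  have hi : ∀ k ∈ K, Integrable (fun y : ℝ =>
      α k * ((-1) ^ j * (j.factorial : ℂ)) / (ln m y + (k : ℂ)) ^ (j + 1) * (Ker y : ℂ)) := by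
    intro k hkK
    refine integrable_line m (fun t => α k * ((-1) ^ j * (j.factorial : ℂ)) / (t + (k : ℂ)) ^ (j + 1))
      (fun t ht => ?_) ?_
    · have hne : t + (k : ℂ) ≠ 0 := by
        refine ne_zero_of_re le_rfl ?_
        have h1 : (1 : ℝ) ≤ (m : ℝ) + k := by exact_mod_cast hk k hkK
        linarith
      exact ContinuousAt.div continuousAt_const (by fun_prop) (pow_ne_zero _ hne)
    · have h2 := rfd_growth 0 {k} α k (by simp) j m (hk k hkK)
      refine (congrArg (PolyGrowth m) ?_).mp h2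
      funext t
      unfold rfd
      simp
  rw [Iint_eq]
  unfold rfd
  simp only [add_mul, sum_mul]
  have hP : Integrable (fun y : ℝ => (derivative^[j] Q).eval (ln m y) * (Ker y : ℂ)) :=
    integrable_poly m _
  rw [integral_add hP (integrable_finsetSum K hi), integral_finsetSum K hi]
  congr 1
  apply sum_congr rfl
  intro k hkK
  have h3 := Iint_pole_pow m k j (α k * ((-1) ^ j * (j.factorial : ℂ))) (hk k hkK)
  rw [Iint_eq] at h3
  rw [h3, Nat.factorial_succ]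
  push_cast
  ring

/-- THE LINEAR FORM: the functional with coefficients c j on a rational function with simple poles -/
theorem form_general (ha : ∀ k ∈ K, a ≤ k) (m : ℤ) (hm : 1 ≤ m + a) (s : ℕ) (c : ℕ → ℂ) :
    ∑ j ∈ range s, ((-1) ^ j / ((j + 1).factorial : ℂ) * c j) * Iint m (rfd Q K α j) =
      (∑ j ∈ range s, c j * (zt (j + 2) : ℂ)) * ∑ k ∈ K, α k +
      ∑ j ∈ range s, c j * ((-1) ^ j / ((j + 1).factorial : ℂ) * IP m (derivative^[j] Q) -
        ∑ k ∈ K, α k * ((H (j + 2) (m + k - 1).toNat : ℚ) : ℂ)) := by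
  rw [sum_mul, ← sum_add_distrib]
  apply sum_congr rfl
  intro j _
  rw [Iint_rfd Q K α a ha j m hm]
  have hf : ((j + 1).factorial : ℂ) ≠ 0 := by exact_mod_cast (j + 1).factorial_ne_zero
  have hs : ((-1 : ℂ) ^ j) * (-1) ^ j = 1 := by rw [← mul_pow]; norm_num
  have h1 : ∑ k ∈ K, α k * ((-1) ^ j * ((j + 1).factorial : ℂ)) *
        ((zt (j + 2) : ℂ) - ((H (j + 2) (m + k - 1).toNat : ℚ) : ℂ)) =
      ((-1) ^ j * ((j + 1).factorial : ℂ)) * ((zt (j + 2) : ℂ) * ∑ k ∈ K, α k -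
        ∑ k ∈ K, α k * ((H (j + 2) (m + k - 1).toNat : ℚ) : ℂ)) := by
    rw [mul_sum, ← sum_sub_distrib, mul_sum]
    apply sum_congr rfl
    intro k _
    ring
  rw [h1]
  field_simp
  linear_combination (c j * ((zt (j + 2) : ℂ) * (∑ k ∈ K, α k) -
    ∑ k ∈ K, α k * ((H (j + 2) (m + k - 1).toNat : ℚ) : ℂ)) * ((j + 1).factorial : ℂ)) * hs

end Pool.Agent.D23
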