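import Pool.Agent.D23.Rep
import Pool.Agent.D23.Newton
import Pool.Agent.Z3D.Pade

/-!
# Crude p-adic bounds, valid for every prime

The numerator is `r! * g` with `g` integer valued on the integers, the poles are `p1 ≤ k < p1 + r`.
-/

open Finset Polynomial

namespace Pool.Agent.D23

open Pool.Agent.Z3 (H)

/-- integer valued on the integers -/
def IV (g : ℚ[X]) : Prop := ∀ z : ℤ, ∃ w : ℤ, g.eval (z : ℚ) = w

theorem IV.mul {f g : ℚ[X]} (hf : IV f) (hg : IV g) : IV (f * g) := by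
  intro z
  obtain ⟨a, ha⟩ := hf z
  obtain ⟨b, hb⟩ := hg z
  exact ⟨a * b, by rw [eval_mul, ha, hb]; push_cast; ring⟩

theorem IV.prod {ι : Type*} (s : Finset ι) (f : ι → ℚ[X]) (h : ∀ i ∈ s, IV (f i)) :
    IV (∏ i ∈ s, f i) := by
  classical
  induction s using Finset.induction_on with
  | empty => exact fun z => ⟨1, by simp⟩
  | insert a s ha ih =>
    rw [prod_insert ha]
    exact (h a (mem_insert_self a s)).mul (ih (fun i hi => h i (mem_insert_of_mem hi)))

theorem IV.comp_add {f : ℚ[X]} (hf : IV f) (a : ℤ) : IV (f.comp (X + C (a : ℚ))) := by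
  intro z
  obtain ⟨w, hw⟩ := hf (z + a)
  refine ⟨w, ?_⟩
  rw [eval_comp, eval_add, eval_X, eval_C, ← hw]
  push_cast
  rfl

theorem IV_bin (j : ℕ) : IV (bin j) := by
  intro z
  refine ⟨Ring.choose z j, ?_⟩
  have h := Ring.descPochhammer_eq_factorial_smul_choose z j
  rw [bin, eval_mul, eval_C]
  have h2 : (descPochhammer ℚ j).eval (z : ℚ) = (((descPochhammer ℤ j).smeval z : ℤ) : ℚ) := by
    rw [← descPochhammer_map (algebraMap ℤ ℚ), eval_map_algebraMap]
    have h3 := Polynomial.aeval_algebraMap_apply ℚ z (descPochhammer ℤ j)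
    have h4 : aeval z (descPochhammer ℤ j) = (descPochhammer ℤ j).smeval z := by
      rw [aeval_def, ← Polynomial.eval₂_smulOneHom_eq_smeval]
      congr 1
      exact RingHom.ext_int _ _
    rw [← h4]
    simpa using h3
  rw [h2, h]
  have h5 : (j.factorial : ℚ) ≠ 0 := by exact_mod_cast j.factorial_ne_zero
  rw [nsmul_eq_mul]
  push_cast
  field_simp

/-- a block of consecutive zeros -/
theorem prod_block (a b : ℕ) (hab : a ≤ b) :
    ∏ i ∈ Ico a b, (X + C (i : ℚ)) =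
      C (((b - a).factorial : ℕ) : ℚ) * (bin (b - a)).comp (X + C (((b : ℤ) - 1 : ℤ) : ℚ)) := by
  obtain ⟨c, rfl⟩ := Nat.exists_eq_add_of_le hab
  rw [Nat.add_sub_cancel_left]
  refine poly_ext_nat (fun n => ?_)
  rw [eval_prod, eval_mul, eval_C, eval_comp, bin, eval_mul, eval_C]
  have h5 : (c.factorial : ℚ) ≠ 0 := by exact_mod_cast c.factorial_ne_zero
  rw [← mul_assoc, mul_inv_cancel₀ h5, one_mul]
  simp only [eval_add, eval_X, eval_C]
  induction c with
  | zero => simp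
  | succ c ih =>
    rw [← add_assoc, prod_Ico_succ_top (Nat.le_add_right a c), ih (Nat.le_add_right a c)
      (by exact_mod_cast c.factorial_ne_zero), descPochhammer_succ_left, eval_mul, eval_comp,
      eval_sub, eval_X, eval_one]
    push_cast
    rw [mul_comm]
    congr 1
    · ring
    · congr 1
      ring

/-! ### residues -/

theorem prod_erase_Ico (p1 r k : ℕ) (h1 : p1 ≤ k) (h2 : k < p1 + r) :
    ∏ j ∈ (Ico p1 (p1 + r)).erase k, ((j : ℚ) - k) =
      (-1) ^ (k - p1) * ((k - p1).factorial : ℚ) * ((p1 + r - 1 - k).factorial : ℚ) := by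
  have hS : (Ico p1 (p1 + r)).erase k = Ico p1 k ∪ Ico (k + 1) (p1 + r) := by
    ext j
    simp only [mem_erase, mem_Ico, mem_union]
    omega
  have hd : Disjoint (Ico p1 k) (Ico (k + 1) (p1 + r)) := by
    rw [disjoint_left]
    intro j
    simp only [mem_Ico]
    omega
  rw [hS, prod_union hd]
  have hA : ∀ a : ℕ, ∏ j ∈ Ico p1 (p1 + a), ((j : ℚ) - ((p1 + a : ℕ) : ℚ)) =
      (-1) ^ a * (a.factorial : ℚ) := by
    intro a
    have e1 : ∏ j ∈ Ico p1 (p1 + a), ((j : ℚ) - ((p1 + a : ℕ) : ℚ)) =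
        ∏ i ∈ range a, (-((a - i : ℕ) : ℚ)) := by
      rw [prod_Ico_eq_prod_range, Nat.add_sub_cancel_left]
      apply prod_congr rfl
      intro i hi
      have := mem_range.mp hi
      rw [Nat.cast_sub this.le]
      push_cast
      ring
    rw [e1, prod_neg, card_range]
    congr 1
    rw [← Finset.prod_range_reflect]
    have e2 : ∀ i ∈ range a, (((a - (a - 1 - i) : ℕ)) : ℚ) = ((i + 1 : ℕ) : ℚ) := by
      intro i hi
      have := mem_range.mp hi
      congr 1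
      omega
    rw [prod_congr rfl e2, ← Nat.cast_prod, prod_range_add_one_eq_factorial]
  have hB : ∀ b : ℕ, ∏ j ∈ Ico (k + 1) (k + 1 + b), ((j : ℚ) - (k : ℚ)) = (b.factorial : ℚ) := by
    intro b
    rw [prod_Ico_eq_prod_range, Nat.add_sub_cancel_left, ← prod_range_add_one_eq_factorial,
      Nat.cast_prod]
    apply prod_congr rfl
    intro i _
    push_cast
    ring
  have h3 := hA (k - p1)
  rw [Nat.add_sub_cancel' h1] at h3
  have h4 := hB (p1 + r - 1 - k)
  have e5 : k + 1 + (p1 + r - 1 - k) = p1 + r := by omega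
  rw [e5] at h4
  rw [h3, h4]

theorem res_int (p1 r : ℕ) (g : ℚ[X]) (hg : IV g) (k : ℕ) (hk : k ∈ Ico p1 (p1 + r)) :
    ∃ w : ℤ, res (Ico p1 (p1 + r)) (C (r.factorial : ℚ) * g) k = w := by
  obtain ⟨h1, h2⟩ := mem_Ico.mp hk
  obtain ⟨w, hw⟩ := hg (-(k : ℤ))
  have hw' : g.eval (-(k : ℚ)) = w := by
    rw [← hw]
    push_cast
    rfl
  refine ⟨(-1) ^ (k - p1) * (r * ((r - 1).choose (k - p1) : ℕ) : ℕ) * w, ?_⟩
  unfold res
  rw [prod_erase_Ico p1 r k h1 h2, eval_mul, eval_C, hw']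
  have h3 : (r - 1) - (k - p1) = p1 + r - 1 - k := by omega
  have h4 := Nat.choose_mul_factorial_mul_factorial (show k - p1 ≤ r - 1 by omega)
  rw [h3] at h4
  have h5 : r.factorial = r * (r - 1).factorial := (Nat.mul_factorial_pred (by omega)).symm
  have h6 : ((k - p1).factorial : ℚ) ≠ 0 := by exact_mod_cast (k - p1).factorial_ne_zero
  have h7 : ((p1 + r - 1 - k).factorial : ℚ) ≠ 0 := by
    exact_mod_cast (p1 + r - 1 - k).factorial_ne_zero
  rw [h5, ← h4]
  have h8 : ((-1 : ℚ) ^ (k - p1)) * (-1) ^ (k - p1) = 1 := by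
    rw [← mul_pow]
    norm_num
  have h9 : ((-1 : ℚ) ^ (k - p1)) ≠ 0 := pow_ne_zero _ (by norm_num)
  push_cast
  rw [inv_mul_eq_iff_eq_mul₀ (mul_ne_zero (mul_ne_zero h9 h6) h7)]
  linear_combination (-(r : ℚ) * ((r - 1).choose (k - p1) : ℚ) * ((k - p1).factorial : ℚ) *
    ((p1 + r - 1 - k).factorial : ℚ) * (w : ℚ)) * h8

/-! ### p-adic norms -/

variable (p : ℕ) [hp : Fact p.Prime]

theorem pn_int (w : ℤ) : padicNorm p (w : ℚ) ≤ 1 := padicNorm.of_int w

theorem pn_inv_le (c B : ℕ) (hc : c ≠ 0) (h : p ^ c.factorization p ≤ B) :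
    padicNorm p ((c : ℚ)⁻¹) ≤ B := by
  have h1 : padicNorm p ((c : ℚ)⁻¹) = ((p : ℚ) ^ c.factorization p) := by
    have h2 : padicNorm p ((c : ℚ)⁻¹) = (padicNorm p (c : ℚ))⁻¹ := by
      rw [← one_div, padicNorm.div, padicNorm.one, one_div]
    have hc' : (c : ℚ) ≠ 0 := by exact_mod_cast hc
    rw [h2, padicNorm.eq_zpow_of_nonzero hc', zpow_neg, inv_inv, padicValRat.of_nat,
      zpow_natCast, Nat.factorization_def _ hp.out]
  rw [h1]
  exact_mod_cast h

theorem pn_inv_nat_le (c B : ℕ) (hc : c ≠ 0) (h : c ≤ B) : padicNorm p ((c : ℚ)⁻¹) ≤ B :=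
  pn_inv_le p c B hc ((Nat.ordProj_le p hc).trans h)

theorem pn_mul_le {a b A B : ℚ} (ha : padicNorm p a ≤ A) (hb : padicNorm p b ≤ B) :
    padicNorm p (a * b) ≤ A * B := by
  rw [padicNorm.mul]
  exact mul_le_mul ha hb (padicNorm.nonneg _) ((padicNorm.nonneg _).trans ha)

theorem pn_sum_le {ι : Type*} (s : Finset ι) (f : ι → ℚ) (B : ℚ) (hB : 0 ≤ B)
    (h : ∀ i ∈ s, padicNorm p (f i) ≤ B) : padicNorm p (∑ i ∈ s, f i) ≤ B :=
  padicNorm.sum_le' h hB

theorem pn_add_le {a b B : ℚ} (ha : padicNorm p a ≤ B) (hb : padicNorm p b ≤ B) :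
    padicNorm p (a + b) ≤ B :=
  padicNorm.nonarchimedean.trans (max_le ha hb)

theorem pn_sub_le {a b B : ℚ} (ha : padicNorm p a ≤ B) (hb : padicNorm p b ≤ B) :
    padicNorm p (a - b) ≤ B :=
  padicNorm.sub.trans (max_le ha hb)

theorem pn_H (s N B : ℕ) (hB : 1 ≤ B) (h : N ≤ B) : padicNorm p (H s N) ≤ (B : ℚ) ^ s := by
  unfold H
  have hB' : (1 : ℚ) ≤ B := by exact_mod_cast hB
  refine pn_sum_le p _ _ _ (by positivity) (fun i hi => ?_)
  have h1 : i + 1 ≤ B := (Nat.succ_le_of_lt (mem_range.mp hi)).trans h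
  have h2 : padicNorm p (((i : ℚ) + 1)⁻¹) ≤ B := by
    have := pn_inv_nat_le p (i + 1) B (by omega) h1
    exact_mod_cast this
  have h3 : (1 / ((i : ℚ) + 1) ^ s) = (((i : ℚ) + 1)⁻¹) ^ s := by
    rw [one_div, inv_pow]
  rw [h3]
  have h4 : ∀ s : ℕ, padicNorm p ((((i : ℚ) + 1)⁻¹) ^ s) ≤ (B : ℚ) ^ s := by
    intro s
    induction s with
    | zero => simp
    | succ s ih =>
      rw [pow_succ, pow_succ]
      exact pn_mul_le p ih h2
  exact h4 s

/-- the denominator at integers to the right of the poles -/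
theorem den_eval (p1 r N : ℕ) (t : ℚ) (ht : t + p1 = N) :
    (den (Ico p1 (p1 + r)) : ℚ[X]).eval t = (r.factorial : ℚ) * ((N + r - 1).choose r : ℚ) := by
  unfold den
  rw [eval_prod, prod_Ico_eq_prod_range, Nat.add_sub_cancel_left]
  have h1 : ∀ i ∈ range r, (X + C (((p1 + i : ℕ)) : ℚ)).eval t = ((N + i : ℕ) : ℚ) := by
    intro i _
    simp only [eval_add, eval_X, eval_C]
    push_cast
    rw [← ht]
    ring
  rw [prod_congr rfl h1, ← Nat.cast_prod]
  have h2 : ∏ i ∈ range r, (N + i) = N.ascFactorial r := by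
    rw [Nat.ascFactorial_eq_prod_range]
  rw [h2, Nat.ascFactorial_eq_factorial_mul_choose']
  push_cast
  rfl

theorem pn_ratio (p1 r N : ℕ) (g : ℚ[X]) (t : ℤ) (w : ℤ) (hw : g.eval (t : ℚ) = w)
    (ht : t + p1 = N) (hN : 1 ≤ N) :
    padicNorm p ((C (r.factorial : ℚ) * g).eval (t : ℚ) /
      (den (Ico p1 (p1 + r)) : ℚ[X]).eval (t : ℚ)) ≤ ((N + r : ℕ) : ℚ) := by
  have ht' : (t : ℚ) + p1 = N := by exact_mod_cast ht
  rw [den_eval p1 r N t ht', eval_mul, eval_C, hw]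
  have h1 : (r.factorial : ℚ) ≠ 0 := by exact_mod_cast r.factorial_ne_zero
  have h2 : (N + r - 1).choose r ≠ 0 := (Nat.choose_pos (by omega)).ne'
  rw [mul_div_mul_left _ _ h1, div_eq_mul_inv]
  have h3 : p ^ ((N + r - 1).choose r).factorization p ≤ N + r := by
    rcases Nat.eq_zero_or_pos (N + r - 1) with h0 | h0
    · have hr : r = 0 := by omega
      subst hr
      simp
      omega
    · have h4 : p ^ ((N + r - 1).choose r).factorization p ≤ N + r - 1 :=
        Nat.pow_factorization_choose_le h0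
      omega
  have h5 := pn_inv_le p _ _ h2 h3
  have h6 := pn_mul_le p (pn_int p w) h5
  rwa [one_mul] at h6

/-- values of the polynomial part at integers to the right of the poles -/
theorem pn_pol (p1 r B : ℕ) (g : ℚ[X]) (hg : IV g) (t : ℤ) (h1 : 1 ≤ t + p1)
    (hB : t + p1 + r ≤ B) :
    padicNorm p (((C (r.factorial : ℚ) * g) /ₘ den (Ico p1 (p1 + r))).eval (t : ℚ)) ≤ B := by
  obtain ⟨N, hN⟩ := Int.eq_ofNat_of_zero_le (show 0 ≤ t + p1 by omega)
  have hN1 : 1 ≤ N := by omega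
  obtain ⟨w, hw⟩ := hg t
  have hne : ∀ k ∈ Ico p1 (p1 + r), (t : ℚ) + (k : ℚ) ≠ 0 := by
    intro k hk h0
    have h2 := (mem_Ico.mp hk).1
    have h3 : t + (k : ℤ) = 0 := by exact_mod_cast h0
    omega
  have h2 := pf_eval (Ico p1 (p1 + r)) (C (r.factorial : ℚ) * g) (t : ℚ) hne
  have h3 := eq_sub_of_add_eq h2.symm
  rw [h3]
  have hB0 : ((N + r : ℕ) : ℚ) ≤ B := by
    have : ((N + r : ℕ) : ℤ) ≤ B := by
      push_cast
      omega
    exact_mod_cast this
  refine pn_sub_le p ((pn_ratio p p1 r N g t w hw hN hN1).trans hB0)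
    (pn_sum_le p _ _ _ (by positivity) (fun k hk => ?_))
  obtain ⟨v, hv⟩ := res_int p1 r g hg k hk
  obtain ⟨hk1, hk2⟩ := mem_Ico.mp hk
  obtain ⟨c, hc⟩ := Int.eq_ofNat_of_zero_le (show 0 ≤ t + (k : ℤ) by omega)
  have hc' : (t : ℚ) + k = ((c : ℕ) : ℚ) := by exact_mod_cast hc
  rw [hv, hc', div_eq_mul_inv]
  have h4 := pn_mul_le p (pn_int p v) (pn_inv_nat_le p c B (by omega) (by omega))
  rwa [one_mul] at h4

theorem pn_volk0_all (P : ℚ[X]) (N B : ℕ) (hN : P.natDegree < N) (hNB : N ≤ B) (A : ℚ)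
    (hA : 0 ≤ A) (h : ∀ i, i < N → padicNorm p (P.eval (i : ℚ)) ≤ A) :
    padicNorm p (volk0 P) ≤ A * B ∧
      padicNorm p ((-1) / 2 * volk0 (derivative P)) ≤ A * (B * B) := by
  have hb : ∀ j, j < N → padicNorm p (nc P j) ≤ A := fun j hj =>
    padicNorm_nc_le p P A hA j (fun i hi => h i (by omega))
  have hi : ∀ j, j < N → padicNorm p (((j : ℚ) + 1)⁻¹) ≤ B := by
    intro j hj
    have := pn_inv_nat_le p (j + 1) B (by omega) (by omega)
    exact_mod_cast this
  have hs : ∀ j : ℕ, padicNorm p ((-1 : ℚ) ^ j) ≤ 1 := fun j => (padicNorm_neg_one_pow p j).le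
  constructor
  · rw [volk0_eq_sum_nc P N hN]
    refine pn_sum_le p _ _ _ (by positivity) (fun j hj => ?_)
    have hj' := mem_range.mp hj
    have h1 := pn_mul_le p (hb j hj') (pn_mul_le p (hs j) (hi j hj'))
    rw [one_mul] at h1
    rwa [div_eq_mul_inv]
  · rw [volk0_deriv_eq_sum_nc P N hN, mul_sum]
    refine pn_sum_le p _ _ _ (by positivity) (fun j hj => ?_)
    have hj' := mem_range.mp hj
    have hH := pn_H p 1 j B (by omega) (by omega)
    rw [pow_one] at hH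
    have h1 := pn_mul_le p (hb j hj') (pn_mul_le p (pn_mul_le p (hs j) hH) (hi j hj'))
    rw [one_mul] at h1
    have e : (-1 : ℚ) / 2 * (nc P j * (2 * (-1) ^ (j + 1) * H 1 j / ((j : ℚ) + 1))) =
        nc P j * ((-1) ^ j * H 1 j * ((j : ℚ) + 1)⁻¹) := by
      rw [div_eq_mul_inv (2 * (-1) ^ (j + 1) * H 1 j)]
      ring
    rw [e]
    exact h1

/-- **Crude bound of the entries**, for every prime. -/
theorem small_entry (m : ℤ) (p1 r D B : ℕ) (hm : 1 ≤ m + p1) (g : ℚ[X]) (hg : IV g)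
    (hD : g.natDegree < D) (hB : m + p1 + r + D ≤ B) (z c0 c1 : ℤ) :
    padicNorm p ((z : ℚ) * qq (Ico p1 (p1 + r)) (C (r.factorial : ℚ) * g) +
      (c0 * pp (Ico p1 (p1 + r)) m (C (r.factorial : ℚ) * g) 0 +
        c1 * pp (Ico p1 (p1 + r)) m (C (r.factorial : ℚ) * g) 1)) ≤ (B : ℚ) ^ 3 := by
  have hB1 : 1 ≤ B := by omega
  have hBq : (1 : ℚ) ≤ B := by exact_mod_cast hB1
  have hB2 : (1 : ℚ) ≤ (B : ℚ) ^ 3 := one_le_pow₀ hBq
  have hB3 : (B : ℚ) * B ≤ (B : ℚ) ^ 3 := by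
    have : (B : ℚ) * B * 1 ≤ B * B * B := mul_le_mul_of_nonneg_left hBq (by positivity)
    calc (B : ℚ) * B = B * B * 1 := by ring
      _ ≤ B * B * B := this
      _ = (B : ℚ) ^ 3 := by ring
  set K := Ico p1 (p1 + r) with hK
  set S : ℚ[X] := C (r.factorial : ℚ) * g with hS
  set Q : ℚ[X] := (S /ₘ den K).comp (X + C (m : ℚ)) with hQ
  have hQd : Q.natDegree < D := by
    rw [hQ, natDegree_comp, natDegree_X_add_C, mul_one, natDegree_divByMonic _ (den_monic K)]
    have h1 : S.natDegree ≤ g.natDegree := natDegree_C_mul_le _ _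
    omega
  have hQv : ∀ i, i < D → padicNorm p (Q.eval (i : ℚ)) ≤ B := by
    intro i hi
    have h1 := pn_pol p p1 r B g hg (m + i) (by omega) (by omega)
    rw [hQ, eval_comp, eval_add, eval_X, eval_C]
    have e : ((i : ℚ) + (m : ℚ)) = ((m + i : ℤ) : ℚ) := by
      push_cast
      ring
    rw [e]
    exact h1
  obtain ⟨hv0, hv1⟩ := pn_volk0_all p Q D B hQd (by omega) B (by positivity) hQv
  have hres : ∀ k ∈ K, padicNorm p (res K S k) ≤ 1 := by
    intro k hk
    obtain ⟨w, hw⟩ := res_int p1 r g hg k hk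
    rw [hw]
    exact pn_int p w
  have hkN : ∀ k ∈ K, (m + k - 1).toNat ≤ B := by
    intro k hk
    have := mem_Ico.mp hk
    omega
  have hz : ∀ w : ℤ, padicNorm p (w : ℚ) ≤ 1 := pn_int p
  have hq : padicNorm p (qq K S) ≤ 1 := by
    unfold qq
    exact pn_sum_le p _ _ _ zero_le_one hres
  have hp0 : padicNorm p (pp K m S 0) ≤ (B : ℚ) ^ 3 := by
    unfold pp
    refine pn_sub_le p ?_ (pn_sum_le p _ _ _ (by positivity) (fun k hk => ?_))
    · have h1 : (-1 : ℚ) ^ 0 / ((0 + 1).factorial : ℚ) * volk m (derivative^[0] (S /ₘ den K)) =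
          volk0 Q := by
        rw [hQ, ← volk_apply]
        simp
      rw [h1]
      exact hv0.trans hB3
    · have h1 := pn_mul_le p (hres k hk) (pn_H p (0 + 2) _ B hB1 (hkN k hk))
      rw [one_mul] at h1
      refine h1.trans ?_
      calc (B : ℚ) ^ (0 + 2) = B * B := by ring
        _ ≤ _ := hB3
  have hp1 : padicNorm p (pp K m S 1) ≤ (B : ℚ) ^ 3 := by
    unfold pp
    refine pn_sub_le p ?_ (pn_sum_le p _ _ _ (by positivity) (fun k hk => ?_))
    · have h1 : (-1 : ℚ) ^ 1 / ((1 + 1).factorial : ℚ) * volk m (derivative^[1] (S /ₘ den K)) =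
          (-1) / 2 * volk0 (derivative Q) := by
        have h2 : derivative (X + C (m : ℚ)) = (1 : ℚ[X]) := by simp
        rw [hQ, derivative_comp, h2, one_mul, ← volk_apply]
        simp
      rw [h1]
      refine hv1.trans (le_of_eq ?_)
      ring
    · have h1 := pn_mul_le p (hres k hk) (pn_H p (1 + 2) _ B hB1 (hkN k hk))
      rw [one_mul] at h1
      exact h1
  have one_mul' : ∀ {a : ℚ} (w : ℤ) {A : ℚ}, padicNorm p a ≤ A → padicNorm p ((w : ℚ) * a) ≤ A := by
    intro a w A h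
    have := pn_mul_le p (hz w) h
    rwa [one_mul] at this
  exact pn_add_le p ((one_mul' z hq).trans hB2) (pn_add_le p (one_mul' c0 hp0) (one_mul' c1 hp1))

/-- determinant with all entries bounded -/
theorem pn_det_le {M : ℕ} (Y : Matrix (Fin M) (Fin M) ℚ) (b : ℚ) (hb : 0 ≤ b)
    (h : ∀ i j, padicNorm p (Y i j) ≤ b) : padicNorm p Y.det ≤ b ^ M := by
  rw [Matrix.det_apply]
  refine padicNorm.sum_le' (fun σ _ => ?_) (by positivity)
  have h1 : ∀ s : Finset (Fin M), padicNorm p (∏ i ∈ s, Y (σ i) i) ≤ b ^ s.card := by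
    intro s
    induction s using Finset.induction_on with
    | empty => simp
    | insert a s ha ih =>
      rw [prod_insert ha, card_insert_of_notMem ha, pow_succ, mul_comm (b ^ s.card)]
      exact pn_mul_le p (h _ _) ih
  have h2 := h1 univ
  rw [card_univ, Fintype.card_fin] at h2
  rcases Int.units_eq_one_or (Equiv.Perm.sign σ) with h3 | h3
  · rw [h3, one_smul]
    exact h2
  · rw [h3, Units.neg_smul, one_smul, padicNorm.neg]
    exact h2

theorem bin_eq (i : ℕ) : bin i = C ((i.factorial : ℚ)⁻¹) * descPochhammer ℚ i := rfl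

/-- the normalised determinant in the binomial basis -/
theorem det_small (L : ℚ[X] →ₗ[ℚ] ℚ) (M : ℕ) (b : ℚ) (hb : 0 ≤ b)
    (h : ∀ i < M, ∀ j < M, padicNorm p (L (bin i * bin j)) ≤ b) :
    padicNorm p ((Z3D.gram L (fun i => X ^ i) M).det / ∏ i ∈ range M, (i.factorial : ℚ) ^ 2) ≤
      b ^ M := by
  have h1 := Z3D.det_gram L (fun i => descPochhammer ℚ i) (fun i => monic_descPochhammer ℚ i)
    (fun i => descPochhammer_natDegree ℚ i) M
  have h2 : (Matrix.of fun i j : Fin M => L (bin i * bin j)).det =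
      (Z3D.gram L (fun i => X ^ i) M).det / ∏ i ∈ range M, (i.factorial : ℚ) ^ 2 := by
    rw [← h1]
    have h3 : (Matrix.of fun i j : Fin M => L (bin i * bin j)) =
        Matrix.of fun i j : Fin M => (((i : ℕ).factorial : ℚ)⁻¹) *
          (Matrix.of fun i j : Fin M => (((j : ℕ).factorial : ℚ)⁻¹) *
            Z3D.gram L (fun i => descPochhammer ℚ i) M i j) i j := by
      ext i j
      simp only [Matrix.of_apply, Z3D.gram]
      have e : bin (i : ℕ) * bin (j : ℕ) = C ((((i : ℕ).factorial : ℚ)⁻¹) *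
          (((j : ℕ).factorial : ℚ)⁻¹)) * (descPochhammer ℚ i * descPochhammer ℚ j) := by
        rw [bin_eq, bin_eq, C_mul]
        ring
      rw [e, ← smul_eq_C_mul, map_smul, smul_eq_mul]
      ring
    rw [h3, Matrix.det_mul_column, Matrix.det_mul_row, div_eq_mul_inv, ← prod_inv_distrib,
      Fin.prod_univ_eq_prod_range (fun i => ((i.factorial : ℚ)⁻¹)) M]
    have e : ∏ i ∈ range M, (((i.factorial : ℚ) ^ 2)⁻¹) =
        (∏ i ∈ range M, ((i.factorial : ℚ)⁻¹)) * ∏ i ∈ range M, ((i.factorial : ℚ)⁻¹) := by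
      rw [← prod_mul_distrib]
      apply prod_congr rfl
      intro i _
      rw [← inv_pow, sq]
    rw [e]
    ring
  rw [← h2]
  exact pn_det_le p _ b hb (fun i j => by
    rw [Matrix.of_apply]
    exact h i i.2 j j.2)

/-- the normalised block of zeros -/
noncomputable def binz (a b : ℕ) : ℚ[X] := (bin (b - a)).comp (X + C (((b : ℤ) - 1 : ℤ) : ℚ))

omit hp in
theorem IV_binz (a b : ℕ) : IV (binz a b) := (IV_bin _).comp_add _

omit hp in
theorem natDegree_binz (a b : ℕ) : (binz a b).natDegree = b - a := by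
  unfold binz
  rw [natDegree_comp, natDegree_X_add_C, mul_one, natDegree_bin]

omit hp in
/-- numerators made of three blocks of consecutive zeros -/
theorem num3 (r a1 b1 a2 b2 a3 b3 : ℕ) (h1 : a1 ≤ b1) (h2 : a2 ≤ b2) (h3 : a3 ≤ b3) (G : ℚ[X]) :
    C ((r.factorial : ℚ) / ((b1 - a1).factorial * (b2 - a2).factorial * (b3 - a3).factorial)) *
      (G * ((∏ i ∈ Ico a1 b1, (X + C (i : ℚ))) * (∏ i ∈ Ico a2 b2, (X + C (i : ℚ))) *
        ∏ i ∈ Ico a3 b3, (X + C (i : ℚ)))) =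
    C (r.factorial : ℚ) * (G * (binz a1 b1 * binz a2 b2 * binz a3 b3)) := by
  rw [prod_block a1 b1 h1, prod_block a2 b2 h2, prod_block a3 b3 h3]
  have e1 : (((b1 - a1).factorial : ℕ) : ℚ) ≠ 0 := by exact_mod_cast Nat.factorial_ne_zero _
  have e2 : (((b2 - a2).factorial : ℕ) : ℚ) ≠ 0 := by exact_mod_cast Nat.factorial_ne_zero _
  have e3 : (((b3 - a3).factorial : ℕ) : ℚ) ≠ 0 := by exact_mod_cast Nat.factorial_ne_zero _
  have e : C (r.factorial : ℚ) = C ((r.factorial : ℚ) /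
      ((b1 - a1).factorial * (b2 - a2).factorial * (b3 - a3).factorial)) *
      (C (((b1 - a1).factorial : ℕ) : ℚ) * C (((b2 - a2).factorial : ℕ) : ℚ) *
        C (((b3 - a3).factorial : ℕ) : ℚ)) := by
    rw [← C_mul, ← C_mul, ← C_mul]
    congr 1
    field_simp
  rw [e]
  unfold binz
  ring

/-- crude bound of the entries for a numerator made of three blocks -/
theorem small_entry3 (m : ℤ) (p1 r B a1 b1 a2 b2 a3 b3 dG : ℕ) (hm : 1 ≤ m + p1)
    (h1 : a1 ≤ b1) (h2 : a2 ≤ b2) (h3 : a3 ≤ b3) (G : ℚ[X]) (hG : IV G) (hd : G.natDegree ≤ dG)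
    (hB : m + p1 + r + (dG + (b1 - a1) + (b2 - a2) + (b3 - a3) + 1) ≤ B) (z c0 c1 : ℤ) :
    padicNorm p ((z : ℚ) * qq (Ico p1 (p1 + r)) (C ((r.factorial : ℚ) /
        ((b1 - a1).factorial * (b2 - a2).factorial * (b3 - a3).factorial)) *
      (G * ((∏ i ∈ Ico a1 b1, (X + C (i : ℚ))) * (∏ i ∈ Ico a2 b2, (X + C (i : ℚ))) *
        ∏ i ∈ Ico a3 b3, (X + C (i : ℚ))))) +
      (c0 * pp (Ico p1 (p1 + r)) m (C ((r.factorial : ℚ) /
        ((b1 - a1).factorial * (b2 - a2).factorial * (b3 - a3).factorial)) *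
      (G * ((∏ i ∈ Ico a1 b1, (X + C (i : ℚ))) * (∏ i ∈ Ico a2 b2, (X + C (i : ℚ))) *
        ∏ i ∈ Ico a3 b3, (X + C (i : ℚ))))) 0 +
        c1 * pp (Ico p1 (p1 + r)) m (C ((r.factorial : ℚ) /
        ((b1 - a1).factorial * (b2 - a2).factorial * (b3 - a3).factorial)) *
      (G * ((∏ i ∈ Ico a1 b1, (X + C (i : ℚ))) * (∏ i ∈ Ico a2 b2, (X + C (i : ℚ))) *
        ∏ i ∈ Ico a3 b3, (X + C (i : ℚ))))) 1)) ≤ (B : ℚ) ^ 3 := by
  rw [num3 r a1 b1 a2 b2 a3 b3 h1 h2 h3 G]
  refine small_entry p m p1 r (dG + (b1 - a1) + (b2 - a2) + (b3 - a3) + 1) B hm _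
    (hG.mul (((IV_binz a1 b1).mul (IV_binz a2 b2)).mul (IV_binz a3 b3))) ?_ (by push_cast; omega)
    z c0 c1
  have e1 := natDegree_mul_le (p := G) (q := binz a1 b1 * binz a2 b2 * binz a3 b3)
  have e2 := natDegree_mul_le (p := binz a1 b1 * binz a2 b2) (q := binz a3 b3)
  have e3 := natDegree_mul_le (p := binz a1 b1) (q := binz a2 b2)
  rw [natDegree_binz] at e2
  rw [natDegree_binz, natDegree_binz] at e3
  omega

end Pool.Agent.D23
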