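import Pool.Agent.D23.Small
import Pool.Agent.D23.Dlt

/-!
# The crude bound of the normalised determinant of the family, valid for every prime
-/

open Finset Polynomial

namespace Pool.Agent.D23

/-- **SMALL**: crude bound of the normalised determinant for every prime. -/
theorem det_small_fam (n p M : ℕ) [Fact p.Prime] (hn : 1 ≤ n) (hM : M ≤ 4 * n) (z c0 c1 : ℤ) :
    padicNorm p (Dlt n z c0 c1 M) ≤ ((20 * n : ℕ) : ℚ) ^ (5 * M) := by
  have key : ∀ i < M, ∀ j < M,
      padicNorm p (lr n z c0 c1 (bin i * bin j)) ≤ ((20 * n : ℕ) : ℚ) ^ 5 := by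
    intro i hi j hj
    have h := small_entry3 p (1 - 2 * (n : ℤ)) (4 * n) (6 * n) (23 * n) 0 (2 * n) 0 (3 * n) n (3 * n)
      (8 * n - 2) (by push_cast; omega) (by omega) (by omega) (by omega) (bin i * bin j)
      ((IV_bin i).mul (IV_bin j))
      (natDegree_mul_le.trans (by rw [natDegree_bin, natDegree_bin]; omega))
      (by push_cast; omega) z c0 c1
    have e1 : 4 * n + 6 * n = 10 * n := by ring
    have e2 : 3 * n - n = 2 * n := by omega
    have e3 : (C (((6 * n).factorial : ℚ) / ((2 * n - 0).factorial * (3 * n - 0).factorial *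
        (3 * n - n).factorial)) *
      (bin i * bin j * ((∏ i ∈ Ico 0 (2 * n), (X + C (i : ℚ))) *
        (∏ i ∈ Ico 0 (3 * n), (X + C (i : ℚ))) * ∏ i ∈ Ico n (3 * n), (X + C (i : ℚ)))) : ℚ[X]) =
      SS n (bin i * bin j) := by
      unfold SS kap num
      rw [e2, Nat.sub_zero, Nat.sub_zero, ← range_eq_Ico, ← range_eq_Ico]
      have e4 : ((6 * n).factorial : ℚ) / ((2 * n).factorial * (3 * n).factorial *
          (2 * n).factorial) =
          ((6 * n).factorial : ℚ) / (((2 * n).factorial : ℚ) ^ 2 * ((3 * n).factorial : ℚ)) := by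
        congr 1
        ring
      rw [e4]
      ring
    rw [e3, e1] at h
    rw [lr_apply]
    have hn' : (1 : ℚ) ≤ n := by exact_mod_cast hn
    have e5 : (((23 * n : ℕ) : ℚ)) ^ 3 ≤ ((20 * n : ℕ) : ℚ) ^ 5 := by
      push_cast
      have h1 : (n : ℚ) ^ 3 ≤ (n : ℚ) ^ 5 := pow_le_pow_right₀ hn' (by norm_num)
      have h2 : (0 : ℚ) ≤ (n : ℚ) ^ 5 := by positivity
      have h3 : (23 * (n : ℚ)) ^ 3 = 12167 * (n : ℚ) ^ 3 := by ring
      have h4 : (20 * (n : ℚ)) ^ 5 = 3200000 * (n : ℚ) ^ 5 := by ring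
      rw [h3, h4]
      linarith
    refine (le_trans (le_of_eq ?_) h).trans e5
    rfl
  have h2 := det_small p (lr n z c0 c1) M (((20 * n : ℕ) : ℚ) ^ 5) (by positivity) key
  rw [← pow_mul] at h2
  exact h2

end Pool.Agent.D23
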