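import Pool.Agent.D23.CellData
import Pool.Agent.D23.CellBridge

/-!
# The table: from the rules for the primes to a list of items
-/

set_option autoImplicit false

open Finset

namespace Pool.Agent.D23

/-- items `(α, β, lo, hi)`: the cost of a prime `lo n < p ≤ hi n` is at most `α n + β p + O(1)` -/
noncomputable def items : List (ℝ × ℝ × ℝ × ℝ) :=
  (12, 0, 0, 1 / 5) :: Cell.recs.map Cell.Rec.item

theorem recs_ok (r : Cell.Rec) (hr : r ∈ Cell.recs) : r.chk Cell.par 12 = true :=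
  List.all_eq_true.1 Cell.recs_chk r hr

theorem items_ok : ∀ x ∈ items, 0 ≤ x.2.2.1 ∧ x.2.2.1 ≤ x.2.2.2 ∧ 0 ≤ x.1 + x.2.1 * x.2.2.1 ∧
    0 ≤ x.1 + x.2.1 * x.2.2.2 := by
  intro x hx
  unfold items at hx
  rcases List.mem_cons.1 hx with h | h
  · subst h
    norm_num
  · obtain ⟨r, hr, rfl⟩ := List.mem_map.1 h
    exact Cell.Rec.item_ok (recs_ok r hr)

theorem items_sum : (items.map ival).sum ≤ 34 := by
  unfold items
  rw [List.map_cons, List.sum_cons, Cell.sum_ival]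
  have h1 : (((Cell.recs.map Cell.Rec.qval).sum : ℚ) : ℝ) ≤ ((309 / 10 : ℚ) : ℝ) :=
    Rat.cast_le.mpr Cell.recs_sum
  have h3 : ((309 / 10 : ℚ) : ℝ) = 309 / 10 := by norm_num
  have h2 : ival ((12 : ℝ), (0 : ℝ), (0 : ℝ), (1 / 5 : ℝ)) = 12 / 5 := by
    unfold ival
    norm_num
  rw [h2]
  rw [h3] at h1
  linarith

theorem e0_eq (n p : ℕ) : Cell.par.e0 n p = ee n p := by
  unfold Cell.Par.e0 Cell.par ee
  simp only [List.map_cons, List.map_nil, List.sum_cons, List.sum_nil]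
  ring

theorem phi_eq (n p s : ℕ) : Cell.par.F.phi n p s = ph n p s := by
  rw [ph_eq]
  unfold Cell.Fam.phi Cell.par Cell.bc Cell.nf
  simp only [List.map_cons, List.map_nil, List.sum_cons, List.sum_nil, zero_mul, add_zero, one_mul]
  ring

theorem bc_pos {n p s : ℕ} (h : polar n p s) : 0 < Cell.bc n p s Cell.par.F.tb := by
  have := polar_pos n p s h
  unfold Cell.bc Cell.par Cell.nf
  simp only [zero_mul, add_zero, one_mul]
  exact_mod_cast this

open scoped Classical in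
theorem polar_sum_le (n p : ℕ) (f : ℕ → ℤ) (hf : ∀ s, 0 ≤ f s) :
    ∑ s ∈ range p, (if polar n p s then f s else 0) ≤
      ∑ s ∈ range p with 0 < Cell.bc n p s Cell.par.F.tb, f s := by
  rw [sum_filter]
  refine sum_le_sum fun s _ => ?_
  split_ifs with h1 h2 h2
  · exact le_rfl
  · exact absurd (bc_pos h1) h2
  · exact hf s
  · exact le_rfl

theorem card_big_le {n p M : ℕ} (hM : M ≤ 4 * n) (h6 : 6 * n < p) :
    (((range M).filter (fun i => p ≤ i + M + n)).card : ℤ) ≤ max (0 : ℤ) (2 * (M : ℤ) + 1 * (n : ℤ) - (p : ℤ)) := by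
  have h1 : (range M).filter (fun i => p ≤ i + M + n) ⊆ Ico (p - (M + n)) M := by
    intro i hi
    rw [mem_filter, mem_range] at hi
    rw [mem_Ico]
    omega
  have h2 := card_le_card h1
  rw [Nat.card_Ico] at h2
  omega

/-- **The table**, from the rules in the form `Cell.Costs`. -/
theorem table_costs (n p M : ℕ) [Fact p.Prime] (hn : 1 ≤ n) (hp : 20 * n < p ^ 2)
    (hM1 : 4 * n ≤ M + 2) (hM : M ≤ 4 * n) (D : ℚ)
    (hcosts : Cell.Costs Cell.par n p M (fun T => padicNorm p D ≤ (p : ℚ) ^ T))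
    (htail : padicNorm p D ≤ (p : ℚ) ^ (3 * (M : ℤ))) (hp10 : p ≤ 10 * n) :
    ∃ x ∈ items, ∃ e : ℕ, padicNorm p D ≤ (p : ℚ) ^ e ∧
      (e : ℝ) ≤ x.1 * n + x.2.1 * p + 1000 ∧ x.2.2.1 * n < (p : ℝ) ∧ (p : ℝ) ≤ x.2.2.2 * n := by
  have hp3 : 3 < p := by nlinarith
  have hp0 : 0 < p := by omega
  by_cases h5 : 5 * p ≤ n
  · refine ⟨(12, 0, 0, 1 / 5), by unfold items; exact List.mem_cons_self, 3 * M, ?_, ?_, ?_, ?_⟩
    · exact_mod_cast htail
    · have : (M : ℝ) ≤ 4 * n := by exact_mod_cast hM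
      push_cast
      linarith
    · simp only [zero_mul]
      exact_mod_cast hp0
    · have : (5 : ℝ) * p ≤ n := by exact_mod_cast h5
      simp only
      linarith
  push Not at h5
  obtain ⟨r, hr, h7, h8⟩ := Cell.link_cover (n := n) (p := p) Cell.recs 1 10 (by norm_num)
    Cell.recs_link (by exact_mod_cast (by omega : 1 * p ≤ 10 * n)) (by
      rw [Cell.recs_end]
      have : (1 : ℤ) * n < 5 * p := by exact_mod_cast (by omega : 1 * n < 5 * p)
      exact this)
  have hchk := recs_ok r hr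
  have hM1' : (M : ℤ) ≤ Cell.par.th * n + 3 := by
    have : (M : ℤ) ≤ 4 * n := by exact_mod_cast hM
    have h9 : Cell.par.th = 4 := rfl
    rw [h9]
    linarith
  have hM2' : Cell.par.th * n ≤ (M : ℤ) + 3 := by
    have : (4 : ℤ) * n ≤ M + 2 := by exact_mod_cast hM1
    have h9 : Cell.par.th = 4 := rfl
    rw [h9]
    linarith
  obtain ⟨h10, h11⟩ := Cell.Rec.sound hchk hcosts hp3 hM1' hM2' h7 h8
  have hpos : 0 < r.c.a1 ∧ 0 < r.c.a2 := by
    simp only [Cell.Rec.chk, Bool.and_eq_true, decide_eq_true_eq] at hchk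
    exact ⟨hchk.1.1.1.1.1.1.1.2, hchk.1.1.1.1.1.2⟩
  refine ⟨r.item, by unfold items; exact List.mem_cons_of_mem _ (List.mem_map_of_mem hr),
    (r.al * n + r.be * p + 12).toNat, ?_, ?_, ?_, ?_⟩
  · have h12 : ((r.al * n + r.be * p + 12).toNat : ℤ) = r.al * n + r.be * p + 12 :=
      Int.toNat_of_nonneg h11
    rw [← h12, zpow_natCast] at h10
    exact h10
  · have h12 : ((r.al * n + r.be * p + 12).toNat : ℤ) = r.al * n + r.be * p + 12 :=
      Int.toNat_of_nonneg h11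
    have h13 : (((r.al * n + r.be * p + 12).toNat : ℕ) : ℝ) =
        (r.al : ℝ) * n + r.be * p + 12 := by exact_mod_cast h12
    rw [h13]
    simp only [Cell.Rec.item]
    linarith
  · have ha : (0 : ℝ) < r.c.a2 := by exact_mod_cast hpos.2
    have h8' : (r.c.b2 : ℝ) * n < r.c.a2 * p := by exact_mod_cast h8
    simp only [Cell.Rec.item]
    rw [div_mul_eq_mul_div, div_lt_iff₀ ha]
    linarith
  · have ha : (0 : ℝ) < r.c.a1 := by exact_mod_cast hpos.1
    have h7' : (r.c.a1 : ℝ) * p ≤ r.c.b1 * n := by exact_mod_cast h7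
    simp only [Cell.Rec.item]
    rw [div_mul_eq_mul_div, le_div_iff₀ ha]
    linarith

open scoped Classical in
/-- **The table**, from the rules in the form of the skeleton. -/
theorem table_core (n p M : ℕ) [Fact p.Prime] (hn : 1 ≤ n) (hp : 20 * n < p ^ 2)
    (hM1 : 4 * n ≤ M + 2) (hM : M ≤ 4 * n) (D : ℚ)
    (hlin : ∀ lam : ℤ, padicNorm p D ≤ (p : ℚ) ^
      (lam * M + ∑ s ∈ range p, Z3D.ccost (ww n p s - lam) + 2 * ∑ i ∈ range M, ((i / p : ℕ) : ℤ)))
    (hcap : ∀ lam : ℤ, 1 - ee n p ≤ lam → padicNorm p D ≤ (p : ℚ) ^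
      (lam * M + ∑ s ∈ range p, (if polar n p s then Z3D.ccost (ww n p s - lam) else 0) +
        2 * ∑ i ∈ range M, ((i / p : ℕ) : ℤ)))
    (hbig : 6 * n < p → padicNorm p D ≤ (p : ℚ) ^
      ((((range M).filter (fun i => p ≤ i + M + n)).card : ℤ) +
        ∑ s ∈ range p, (if polar n p s then Z3D.ccost (ww n p s) else 0)))
    (htail : padicNorm p D ≤ (p : ℚ) ^ (3 * (M : ℤ))) (hp10 : p ≤ 10 * n) :
    ∃ x ∈ items, ∃ e : ℕ, padicNorm p D ≤ (p : ℚ) ^ e ∧
      (e : ℝ) ≤ x.1 * n + x.2.1 * p + 1000 ∧ x.2.2.1 * n < (p : ℝ) ∧ (p : ℝ) ≤ x.2.2.2 * n := by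
  have hp0 : 0 < p := (Fact.out : p.Prime).pos
  have hp1 : (1 : ℚ) ≤ p := by exact_mod_cast hp0
  have hw : ∀ s, ww n p s = 2 - Cell.par.F.phi n p s - Cell.par.e0 n p := by
    intro s
    rw [phi_eq, e0_eq]
    unfold ww
    ring
  refine table_costs n p M hn hp hM1 hM D ?_ htail hp10
  refine ⟨fun S T hST h => h.trans (zpow_le_zpow_right₀ hp1 hST), fun lam => ?_, ?_, fun h6 => ?_⟩
  · have h1 := hlin lam
    rw [Cell.nrm_eq_sum M p hp0] at h1
    simp only [hw] at h1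
    exact h1
  · have h1 := hcap (1 - ee n p) le_rfl
    rw [Cell.nrm_eq_sum M p hp0] at h1
    refine h1.trans (zpow_le_zpow_right₀ hp1 ?_)
    have h2 := polar_sum_le n p (fun s => Z3D.ccost (ww n p s - (1 - ee n p)))
      (fun s => Cell.ccost_nonneg _)
    have e1 : ∀ s, ww n p s - (1 - ee n p) = 1 - Cell.par.F.phi n p s := by
      intro s
      rw [hw, e0_eq]
      ring
    simp only [e1] at h2 ⊢
    rw [e0_eq]
    linarith
  · have h6' : 6 * n < p := by
      have : (6 : ℤ) * n < p := h6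
      exact_mod_cast this
    have h1 := hbig h6'
    refine h1.trans (zpow_le_zpow_right₀ hp1 ?_)
    have h2 := polar_sum_le n p (fun s => Z3D.ccost (ww n p s)) (fun s => Cell.ccost_nonneg _)
    have h3 := card_big_le hM h6'
    have h4 := Cell.nrm_nonneg M p hp0
    simp only [hw] at h2 ⊢
    have h5 : Cell.par.dg = 1 := rfl
    rw [h5]
    linarith

end Pool.Agent.D23
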