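import Pool.Agent.D23.Inst
import Pool.Agent.D23.TableCore

/-!
# The table of the costs
-/

open Finset Polynomial

namespace Pool.Agent.D23

theorem table (n p M : ℕ) [Fact p.Prime] (hn : 1 ≤ n) (hp : 20 * n < p ^ 2) (hM1 : 4 * n ≤ M + 2)
    (hM : M ≤ 4 * n) (z c0 c1 : ℤ) (hp10 : p ≤ 10 * n) :
    ∃ x ∈ items, ∃ e : ℕ, padicNorm p (Dlt n z c0 c1 M) ≤ (p : ℚ) ^ e ∧
      (e : ℝ) ≤ x.1 * n + x.2.1 * p + 1000 ∧ x.2.2.1 * n < (p : ℝ) ∧ (p : ℝ) ≤ x.2.2.2 * n :=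
  table_costs n p M hn hp hM1 hM (Dlt n z c0 c1 M)
    (costs_inst n M hn hp (by omega) hM z c0 c1) (dlt_tail n M hn hp hM z c0 c1) hp10

theorem det_huge (n p M : ℕ) [Fact p.Prime] (hn : 1 ≤ n) (hp : 20 * n < p ^ 2)
    (hM1 : 4 * n ≤ M + 2) (hM : M ≤ 4 * n) (z c0 c1 : ℤ) (hp10 : 10 * n < p) :
    padicNorm p (Dlt n z c0 c1 M) ≤ 1 :=
  dlt_huge n M hn hp (by omega) hM (by omega) z c0 c1

end Pool.Agent.D23
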